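import Pool.Agent.Helper252_Enum.Defs

set_option autoImplicit false

open scoped commutatorElement

namespace Pool.Agent.Helper252_Enum

namespace J_lemmaL

section

variable {G : Type*} [Group G] {p : ℕ} [Fact p.Prime]
    {V : Type*} [AddCommGroup V] [Module (ZMod p) V] {ι : Type*}

/-- the forms that vanish when the second argument is `g` -/
def Ker (S : ι → V →ₗ[ZMod p] (G → G → ZMod p)) (g : G) : Submodule (ZMod p) V where
  carrier := {φ | ∀ y h, S y φ h g = 0}
  zero_mem' := by
    intro y h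
    rw [map_zero]
    rfl
  add_mem' := by
    intro a b ha hb y h
    rw [map_add, Pi.add_apply, Pi.add_apply, ha y h, hb y h, add_zero]
  smul_mem' := by
    intro c a ha y h
    rw [map_smul, Pi.smul_apply, Pi.smul_apply, ha y h, smul_zero]

omit [Group G] in
theorem mem_Ker {S : ι → V →ₗ[ZMod p] (G → G → ZMod p)} {g : G} {φ : V} :
    φ ∈ Ker S g ↔ ∀ y h, S y φ h g = 0 := Iff.rfl

/-- the rank of `P` modulo `K` -/
theorem rank_add [FiniteDimensional (ZMod p) V] (P K : Submodule (ZMod p) V) :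
    Module.finrank (ZMod p) (P.map K.mkQ) + Module.finrank (ZMod p) (P ⊓ K : Submodule (ZMod p) V) =
      Module.finrank (ZMod p) P := by
  have h := LinearMap.finrank_range_add_finrank_ker (K.mkQ.domRestrict P)
  rw [LinearMap.range_domRestrict, LinearMap.ker_domRestrict, Submodule.ker_mkQ] at h
  rw [← h, ← Submodule.finrank_map_subtype_eq P (Submodule.comap P.subtype K),
    Submodule.map_comap_subtype]

variable [Finite G] [FiniteDimensional (ZMod p) V]

/-- a long chain gives a group element of large rank -/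
theorem large (S : ι → V →ₗ[ZMod p] (G → G → ZMod p))
    (add_right : ∀ y φ g h h', S y φ g (h * h') = S y φ g h + S y φ g h')
    (symm : ∀ y φ g h, S y φ g h = 0 → S y φ h g = 0)
    (P : Submodule (ZMod p) V) (t : ℕ) (g : ℕ → G)
    (hch : ∀ l < t, ∃ φ ∈ P, (∀ i < l, φ ∈ Ker S (g i)) ∧ ∃ y h, S y φ h (g l) ≠ 0) :
    ∃ x : G, t ≤ 2 * Module.finrank (ZMod p) (P.map (Ker S x).mkQ) := by
  classical
  have := Fintype.ofFinite G
  have hch' : ∀ l : Fin t, ∃ φ ∈ P, (∀ i < (l : ℕ), φ ∈ Ker S (g i)) ∧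
      ∃ y h, S y φ h (g l) ≠ 0 := fun l => hch l l.2
  choose φ hφP hφ y h hne using hch'
  set f : Fin t → G → ZMod p := fun l x => S (y l) (φ l) (g l) x with hf
  have hfh : ∀ l, f l (h l) ≠ 0 := fun l h0 => hne l (symm _ _ _ _ h0)
  have hhalf : ∀ l, Fintype.card G ≤ 2 * (Finset.univ.filter fun x => f l x ≠ 0).card := by
    intro l
    have h1 : (Finset.univ.filter fun x => f l x = 0).card ≤
        (Finset.univ.filter fun x => f l x ≠ 0).card := by
      refine Finset.card_le_card_of_injOn (fun x => x * h l) ?_ ?_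
      · intro x hx
        simp only [Finset.coe_filter, Finset.mem_univ, true_and, Set.mem_ofPred_eq] at hx ⊢
        have h2 : f l (x * h l) = f l x + f l (h l) := add_right _ _ _ _ _
        rw [h2, hx, zero_add]
        exact hfh l
      · intro a _ b _ hab
        exact mul_right_cancel hab
    have h2 := Finset.card_filter_add_card_filter_not (s := (Finset.univ : Finset G))
      (fun x => f l x = 0)
    rw [Finset.card_univ] at h2
    simp only [ne_eq] at h1 ⊢
    omega
  have hsum : ∑ x : G, t ≤ ∑ x : G, 2 * (Finset.univ.filter fun l => f l x ≠ 0).card := by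
    have h1 : ∑ x : G, (Finset.univ.filter fun l => f l x ≠ 0).card =
        ∑ l : Fin t, (Finset.univ.filter fun x => f l x ≠ 0).card := by
      simp only [Finset.card_filter]
      exact Finset.sum_comm
    rw [← Finset.mul_sum, h1, Finset.mul_sum]
    have h2 : ∑ x : G, t = ∑ l : Fin t, Fintype.card G := by
      simp [mul_comm]
    rw [h2]
    exact Finset.sum_le_sum fun l _ => hhalf l
  obtain ⟨x, -, hx⟩ := Finset.exists_le_of_sum_le (Finset.univ_nonempty (α := G)) hsum
  refine ⟨x, hx.trans (Nat.mul_le_mul_left 2 ?_)⟩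
  set A : Finset (Fin t) := Finset.univ.filter fun l => f l x ≠ 0 with hA
  have hker : ∀ i l : Fin t, i < l → S (y i) (φ l) (g i) x = 0 := fun i l hil =>
    symm _ _ _ _ (hφ l i hil (y i) x)
  have hli : LinearIndependent (ZMod p) (fun l : A => (Ker S x).mkQ (φ l)) := by
    rw [Fintype.linearIndependent_iff]
    intro c hc
    have hmem : ∑ l : A, c l • φ l ∈ Ker S x := by
      rw [← Submodule.ker_mkQ (Ker S x), LinearMap.mem_ker, map_sum]
      simpa only [map_smul] using hc
    have key : ∀ n : ℕ, ∀ i : A, (i : Fin t).1 = n → c i = 0 := by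
      intro n
      induction n using Nat.strong_induction_on with
      | _ n ih =>
        intro i hi
        have h1 := hmem (y i) (g i)
        rw [map_sum, Finset.sum_apply, Finset.sum_apply] at h1
        rw [Finset.sum_eq_single i] at h1
        · rw [map_smul, Pi.smul_apply, Pi.smul_apply, smul_eq_mul] at h1
          have h2 : f i x ≠ 0 := (Finset.mem_filter.1 i.2).2
          exact (mul_eq_zero.1 h1).resolve_right h2
        · intro j _ hji
          rw [map_smul, Pi.smul_apply, Pi.smul_apply, smul_eq_mul]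
          rcases lt_trichotomy (j : Fin t) (i : Fin t) with h3 | h3 | h3
          · rw [ih _ (by rw [← hi]; exact h3) j rfl, zero_mul]
          · exact absurd (Subtype.ext h3) hji
          · rw [hker _ _ h3, mul_zero]
        · intro h3
          exact absurd (Finset.mem_univ i) h3
    exact fun i => key _ i rfl
  have hli2 : LinearIndependent (ZMod p)
      (fun l : A => (⟨(Ker S x).mkQ (φ l), Submodule.mem_map_of_mem (hφP l)⟩ :
        P.map (Ker S x).mkQ)) :=
    LinearIndependent.of_comp (P.map (Ker S x).mkQ).subtype hli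
  have h4 := hli2.fintype_card_le_finrank
  rwa [Fintype.card_coe] at h4

/-- the chains exist -/
theorem chain (S : ι → V →ₗ[ZMod p] (G → G → ZMod p))
    (add_right : ∀ y φ g h h', S y φ g (h * h') = S y φ g h + S y φ g h')
    (symm : ∀ y φ g h, S y φ g h = 0 → S y φ h g = 0) (n : ℕ) :
    ∀ P : Submodule (ZMod p) V, Module.finrank (ZMod p) P = n → ∃ (t : ℕ) (g : ℕ → G),
      (∀ φ ∈ P, (∀ i < t, φ ∈ Ker S (g i)) → ∀ x, φ ∈ Ker S x) ∧
      (∀ l < t, ∃ φ ∈ P, (∀ i < l, φ ∈ Ker S (g i)) ∧ ∃ y h, S y φ h (g l) ≠ 0) ∧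
      t * (t + 1) ≤ 4 * Module.finrank (ZMod p) P := by
  induction n using Nat.strong_induction_on with
  | _ n ih =>
    intro P hP
    by_cases htriv : ∀ φ ∈ P, ∀ x, φ ∈ Ker S x
    · exact ⟨0, fun _ => 1, fun φ hφ _ => htriv φ hφ, fun l hl => absurd hl (Nat.not_lt_zero l),
        by simp⟩
    push Not at htriv
    obtain ⟨φ₀, hφ₀, x₀, hx₀⟩ := htriv
    obtain ⟨g₁, hg₁⟩ := Finite.exists_max
      fun x : G => Module.finrank (ZMod p) (P.map (Ker S x).mkQ)
    have hpos : 0 < Module.finrank (ZMod p) (P.map (Ker S g₁).mkQ) := by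
      refine lt_of_lt_of_le ?_ (hg₁ x₀)
      rw [Nat.pos_iff_ne_zero]
      intro h0
      rw [Submodule.finrank_eq_zero] at h0
      have h1 : (Ker S x₀).mkQ φ₀ ∈ P.map (Ker S x₀).mkQ := Submodule.mem_map_of_mem hφ₀
      rw [h0, Submodule.mem_bot] at h1
      have h2 : φ₀ ∈ LinearMap.ker (Ker S x₀).mkQ := h1
      rw [Submodule.ker_mkQ] at h2
      exact hx₀ h2
    have hadd := rank_add P (Ker S g₁)
    obtain ⟨t, g, hi, hii, hiii⟩ := ih _ (by omega) (P ⊓ Ker S g₁) rfl
    have hnot : ∃ φ ∈ P, φ ∉ Ker S g₁ := by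
      by_contra hcon
      push Not at hcon
      have h1 : P ⊓ Ker S g₁ = P := inf_eq_left.2 hcon
      rw [h1] at hadd
      omega
    set g' : ℕ → G := fun i => Nat.casesOn i g₁ g with hg'
    have hg0 : g' 0 = g₁ := rfl
    have hgs : ∀ i, g' (i + 1) = g i := fun i => rfl
    have hii' : ∀ l < t + 1, ∃ φ ∈ P, (∀ i < l, φ ∈ Ker S (g' i)) ∧
        ∃ y h, S y φ h (g' l) ≠ 0 := by
      intro l hl
      rcases l with _ | l
      · obtain ⟨φ, hφ, hφ2⟩ := hnot
        refine ⟨φ, hφ, fun i hi => absurd hi (Nat.not_lt_zero i), ?_⟩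
        rw [mem_Ker] at hφ2
        push Not at hφ2
        exact hφ2
      · obtain ⟨φ, hφ, h1, h2⟩ := hii l (by omega)
        refine ⟨φ, hφ.1, ?_, h2⟩
        intro i hi
        rcases i with _ | i
        · exact hφ.2
        · exact h1 i (by omega)
    refine ⟨t + 1, g', ?_, hii', ?_⟩
    · intro φ hφ h1
      exact hi φ ⟨hφ, h1 0 (by omega)⟩ fun i hi => h1 (i + 1) (by omega)
    · obtain ⟨x, hx⟩ := large S add_right symm P (t + 1) g' hii'
      have h1 : Module.finrank (ZMod p) (P.map (Ker S x).mkQ) ≤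
          Module.finrank (ZMod p) (P.map (Ker S g₁).mkQ) := hg₁ x
      nlinarith

end

end J_lemmaL

/-- TARGET -/
theorem lemmaL {G : Type*} [Group G] [Finite G] {p : ℕ} [Fact p.Prime]
    {V : Type*} [AddCommGroup V] [Module (ZMod p) V] [FiniteDimensional (ZMod p) V] {ι : Type*}
    (S : ι → V →ₗ[ZMod p] (G → G → ZMod p))
    (add_left : ∀ y φ g g' h, S y φ (g * g') h = S y φ g h + S y φ g' h)
    (add_right : ∀ y φ g h h', S y φ g (h * h') = S y φ g h + S y φ g h')
    (symm : ∀ y φ g h, S y φ g h = 0 → S y φ h g = 0) :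
    ∃ W : Finset G, W.card * (W.card + 1) ≤ 4 * Module.finrank (ZMod p) V ∧
      ∀ φ, (∀ y g, ∀ w ∈ W, S y φ g w = 0) → ∀ y g h, S y φ g h = 0 := by
  classical
  obtain ⟨t, g, h1, -, h3⟩ := J_lemmaL.chain S add_right symm _ ⊤ rfl
  rw [finrank_top] at h3
  have hcard : ((Finset.range t).image g).card ≤ t :=
    Finset.card_image_le.trans (by rw [Finset.card_range])
  refine ⟨(Finset.range t).image g, ?_, ?_⟩
  · exact (Nat.mul_le_mul hcard (by omega)).trans h3
  · intro φ hφ y x z
    refine h1 φ trivial (fun i hi y h => ?_) z y x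
    exact hφ y h (g i) (Finset.mem_image_of_mem g (Finset.mem_range.2 hi))

end Pool.Agent.Helper252_Enum
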