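import Pool.Agent.Helper252_Enum.Defs

set_option autoImplicit false

open scoped commutatorElement

namespace Pool.Agent.Helper252_Enum

/-
PROOF OF THE TARGET.
A has order p^r, so it is generated by at most r elements: choose a_1,...,a_k in A with A = closure and p^k <= |A| (greedy: each
new element outside the subgroup generated so far at least multiplies its order by p, all orders being powers of p), so
k <= r. The linear map V -> (Fin k -> ZMod p), phi -> (phi(a_i)) is injective: a phi vanishing at the a_i vanishes on A (additive on A) and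
vanishes off A by h2. Hence finrank V <= k <= r (LinearMap.finrank_le_finrank_of_injective).
(V is finite dimensional since G -> ZMod p is: G is finite.)
-/

namespace J_finrank_hom_le

theorem exists_gens {G : Type*} [Group G] [Finite G] {p : ℕ} [hp : Fact p.Prime]
    (A : Subgroup G) (r : ℕ) (hA : Nat.card A = p ^ r) (k : ℕ) :
    ∃ S : Finset G, (S : Set G) ⊆ A ∧ S.card ≤ k ∧
      (Subgroup.closure (S : Set G) = A ∨ p ^ k ≤ Nat.card (Subgroup.closure (S : Set G))) := by
  classical
  induction k with
  | zero =>
    refine ⟨∅, by simp, by simp, Or.inr ?_⟩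
    simp
  | succ k ih =>
    obtain ⟨S, hS, hc, h⟩ := ih
    by_cases hcl : Subgroup.closure (S : Set G) = A
    · exact ⟨S, hS, by omega, Or.inl hcl⟩
    · rcases h with h | h
      · exact absurd h hcl
      have hle : Subgroup.closure (S : Set G) ≤ A := (Subgroup.closure_le A).2 hS
      have hlt : Subgroup.closure (S : Set G) < A := lt_of_le_of_ne hle hcl
      obtain ⟨a, haA, haS⟩ := SetLike.exists_of_lt hlt
      have hS' : ((insert a S : Finset G) : Set G) ⊆ A := by
        intro x hx
        simp only [Finset.coe_insert, Set.mem_insert_iff, Finset.mem_coe] at hx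
        rcases hx with rfl | hx
        · exact haA
        · exact hS hx
      refine ⟨insert a S, hS', (Finset.card_insert_le _ _).trans (by omega), Or.inr ?_⟩
      set B := Subgroup.closure (S : Set G) with hB
      set C := Subgroup.closure ((insert a S : Finset G) : Set G) with hC
      have hBC : B ≤ C := Subgroup.closure_mono (by simp)
      have haC : a ∈ C := Subgroup.subset_closure (by simp)
      have hCA : C ≤ A := (Subgroup.closure_le A).2 hS'
      have hdvd : Nat.card B ∣ Nat.card C := Subgroup.card_dvd_of_le hBC
      obtain ⟨q, hq⟩ := hdvd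
      have hCdvd : Nat.card C ∣ p ^ r := hA ▸ Subgroup.card_dvd_of_le hCA
      have hq1 : q ≠ 1 := by
        rintro rfl
        have : B = C := Subgroup.eq_of_le_of_card_ge hBC (by rw [hq, mul_one])
        exact haS (this ▸ haC)
      have hqd : q ∣ p ^ r := (Dvd.intro_left _ hq.symm).trans hCdvd
      have hpq : p ∣ q := by
        obtain ⟨j, -, hj⟩ := (Nat.dvd_prime_pow hp.out).1 hqd
        rcases j with _ | j
        · exact absurd (by simpa using hj) hq1
        · rw [hj, pow_succ]; exact dvd_mul_left _ _
      have hCpos : 0 < Nat.card C := Nat.card_pos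
      have hqpos : 0 < q := by
        rcases Nat.eq_zero_or_pos q with h0 | h0
        · rw [h0, mul_zero] at hq; omega
        · exact h0
      have hpq' : p ≤ q := Nat.le_of_dvd hqpos hpq
      rw [hq, pow_succ]
      exact Nat.mul_le_mul h hpq'

end J_finrank_hom_le

/-- TARGET -/
theorem finrank_hom_le {G : Type*} [Group G] [Finite G] {p : ℕ} [Fact p.Prime]
    (A : Subgroup G) (r : ℕ) (hA : Nat.card A = p ^ r) (V : Submodule (ZMod p) (G → ZMod p))
    (h1 : ∀ φ ∈ V, ∀ a ∈ A, ∀ b ∈ A, φ (a * b) = φ a + φ b)
    (h2 : ∀ φ ∈ V, ∀ a, a ∉ A → φ a = 0) : Module.finrank (ZMod p) V ≤ r := by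
  classical
  obtain ⟨S, hS, hc, h⟩ := J_finrank_hom_le.exists_gens A r hA r
  have hle : Subgroup.closure (S : Set G) ≤ A := (Subgroup.closure_le A).2 hS
  have hcl : Subgroup.closure (S : Set G) = A := by
    rcases h with h | h
    · exact h
    · exact Subgroup.eq_of_le_of_card_ge hle (by rw [hA]; exact h)
  let ev : V →ₗ[ZMod p] (S → ZMod p) :=
    { toFun := fun φ s => φ.1 s.1
      map_add' := fun φ ψ => rfl
      map_smul' := fun c φ => rfl }
  have hinj : Function.Injective ev := by
    rw [injective_iff_map_eq_zero]
    intro φ hφ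
    have hgen : ∀ s ∈ S, φ.1 s = 0 := fun s hs => congrFun hφ ⟨s, hs⟩
    have hadd := h1 φ.1 φ.2
    have hone : φ.1 1 = 0 := by
      have := hadd 1 A.one_mem 1 A.one_mem
      rw [mul_one] at this
      simpa using this
    have hall : ∀ a, a ∈ Subgroup.closure (S : Set G) → φ.1 a = 0 := by
      intro a ha
      induction ha using Subgroup.closure_induction with
      | mem x hx => exact hgen x hx
      | one => exact hone
      | mul x y hx hy ihx ihy =>
        rw [hadd x (hle hx) y (hle hy), ihx, ihy, add_zero]
      | inv x hx ihx =>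
        have := hadd x (hle hx) x⁻¹ (A.inv_mem (hle hx))
        rw [mul_inv_cancel, hone, ihx, zero_add] at this
        exact this.symm
    apply Subtype.ext
    funext a
    by_cases ha : a ∈ A
    · exact hall a (hcl ▸ ha)
    · exact h2 φ.1 φ.2 a ha
  have hfin := LinearMap.finrank_le_finrank_of_injective hinj
  rw [Module.finrank_fintype_fun_eq_card, Fintype.card_coe] at hfin
  exact hfin.trans hc

end Pool.Agent.Helper252_Enum
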