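import Pool.Agent.Helper252_Enum.P2_exists_hom
import Pool.Agent.Helper252_Enum.P3_finrank_hom
import Pool.Agent.Helper252_Enum.L_lemmaL

set_option autoImplicit false

open scoped commutatorElement

namespace Pool.Agent.Helper252_Enum

/-
PROOF OF THE TARGET.
First facts: F = PC p ⊤ ⊤ contains all commutators and p-th powers, so F is normal and G/F elementary abelian. T = PC p F ⊤ is
generated by ⁅f,g⁆ (f in F) and f^p; T <= F (F normal) and T is normal in G (the generating set is closed under conjugation), and F/T is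
central in G/T and elementary abelian.
Let V = {phi : G -> ZMod p | phi (a b) = phi a + phi b for a, b in F; phi = 0 on T; phi = 0 off F}, a submodule of G -> ZMod p with
finrank <= r (finrank_hom_le). Form (index set Unit): S phi g h = phi ⁅g, h⁆. Since F/T is central in G/T,
⁅g g', h⁆ = (g ⁅g',h⁆ g⁻¹) ⁅g,h⁆ is congruent to ⁅g',h⁆ ⁅g,h⁆ mod T, so S is additive in g, similarly in h, and S phi h g = - S phi g h.
lemmaL gives W with |W|(|W|+1) <= 4 r such that: phi in V with phi ⁅g,w⁆ = 0 for all g, w in W implies phi ⁅g,h⁆ = 0 for all g,h. Take U = W.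
Suppose some ⁅g,h⁆ is not in N := closure{⁅u,g⁆ : u in U} ⊔ T. N <= F, F/N is elementary abelian (T <= N; every commutator of F lies
in T). exists_hom with A = F gives phi vanishing on N (so phi in V) with phi ⁅g,h⁆ ≠ 0; but phi ⁅u,g'⁆ = 0 for u in U, so phi ⁅g',u⁆ = 0, so phi
vanishes on all commutators: contradiction.
-/

namespace J_propA1

section

variable {G : Type*} [Group G] {p : ℕ}

theorem comm_mem_F (a b : G) : ⁅a, b⁆ ∈ PC p (⊤ : Subgroup G) ⊤ :=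
  Subgroup.subset_closure (Or.inl ⟨a, Subgroup.mem_top _, b, Subgroup.mem_top _, rfl⟩)

theorem pow_mem_F (a : G) : a ^ p ∈ PC p (⊤ : Subgroup G) ⊤ :=
  Subgroup.subset_closure (Or.inr ⟨a, Subgroup.mem_top _, rfl⟩)

theorem comm_mem_T {F : Subgroup G} {a : G} (ha : a ∈ F) (b : G) : ⁅a, b⁆ ∈ PC p F ⊤ :=
  Subgroup.subset_closure (Or.inl ⟨a, ha, b, Subgroup.mem_top _, rfl⟩)

theorem pow_mem_T {F : Subgroup G} {a : G} (ha : a ∈ F) : a ^ p ∈ PC p F ⊤ :=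
  Subgroup.subset_closure (Or.inr ⟨a, ha, rfl⟩)

theorem T_le_F : PC p (PC p (⊤ : Subgroup G) ⊤) ⊤ ≤ PC p (⊤ : Subgroup G) ⊤ := by
  refine (Subgroup.closure_le _).2 ?_
  rintro x (⟨a, -, b, -, rfl⟩ | ⟨a, -, rfl⟩)
  · exact comm_mem_F a b
  · exact pow_mem_F a

theorem conj_mem_F {a : G} (g : G) (ha : a ∈ PC p (⊤ : Subgroup G) ⊤) :
    g * a * g⁻¹ ∈ PC p (⊤ : Subgroup G) ⊤ := by
  have e : g * a * g⁻¹ = ⁅g, a⁆ * a := by simp [commutatorElement_def]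
  rw [e]
  exact mul_mem (comm_mem_F g a) ha

end

/-- The functions of the proof. -/
def VV {G : Type*} [Group G] (p : ℕ) (F T : Subgroup G) :
    Submodule (ZMod p) (G → ZMod p) where
  carrier := {φ | (∀ a ∈ F, ∀ b ∈ F, φ (a * b) = φ a + φ b) ∧ (∀ a ∈ T, φ a = 0) ∧
    ∀ a, a ∉ F → φ a = 0}
  add_mem' := by
    rintro φ ψ ⟨h1, h2, h3⟩ ⟨k1, k2, k3⟩
    refine ⟨fun a ha b hb => ?_, fun a ha => ?_, fun a ha => ?_⟩
    · simp only [Pi.add_apply, h1 a ha b hb, k1 a ha b hb]; ring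
    · simp only [Pi.add_apply, h2 a ha, k2 a ha, add_zero]
    · simp only [Pi.add_apply, h3 a ha, k3 a ha, add_zero]
  zero_mem' := ⟨fun _ _ _ _ => by simp, fun _ _ => rfl, fun _ _ => rfl⟩
  smul_mem' := by
    rintro c φ ⟨h1, h2, h3⟩
    refine ⟨fun a ha b hb => ?_, fun a ha => ?_, fun a ha => ?_⟩
    · simp only [Pi.smul_apply, h1 a ha b hb, smul_add]
    · simp only [Pi.smul_apply, h2 a ha, smul_zero]
    · simp only [Pi.smul_apply, h3 a ha, smul_zero]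

/-- The forms of the proof. -/
def SS {G : Type*} [Group G] (p : ℕ) (F T : Subgroup G) :
    VV p F T →ₗ[ZMod p] (G → G → ZMod p) where
  toFun φ := fun g h => φ.1 ⁅g, h⁆
  map_add' _ _ := rfl
  map_smul' _ _ := rfl

section

variable {G : Type*} [Group G] {p : ℕ}

theorem phi_inv {F T : Subgroup G} {φ : G → ZMod p} (hφ : φ ∈ VV p F T) {a : G} (ha : a ∈ F) :
    φ a⁻¹ = -φ a := by
  have h1 : φ 1 = 0 := hφ.2.1 1 (one_mem _)
  have h2 := hφ.1 a ha a⁻¹ (inv_mem ha)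
  rw [mul_inv_cancel, h1] at h2
  exact eq_neg_of_add_eq_zero_right h2.symm

theorem phi_conj {F : Subgroup G} (hF : F = PC p ⊤ ⊤) {φ : G → ZMod p}
    (hφ : φ ∈ VV p F (PC p F ⊤)) (g : G) {a : G} (ha : a ∈ F) :
    φ (g * a * g⁻¹) = φ a := by
  have e : g * a * g⁻¹ = ⁅a, g⁆⁻¹ * a := by rw [commutatorElement_def]; group
  have h1 : ⁅a, g⁆ ∈ PC p F ⊤ := comm_mem_T ha g
  have h2 : ⁅a, g⁆ ∈ F := by rw [hF]; exact comm_mem_F a g
  rw [e, hφ.1 _ (inv_mem h2) _ ha, hφ.2.1 _ (inv_mem h1), zero_add]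

theorem phi_swap {F : Subgroup G} (hF : F = PC p ⊤ ⊤) {φ : G → ZMod p}
    (hφ : φ ∈ VV p F (PC p F ⊤)) (g h : G) : φ ⁅h, g⁆ = -φ ⁅g, h⁆ := by
  have h2 : ⁅g, h⁆ ∈ F := by rw [hF]; exact comm_mem_F g h
  rw [← commutatorElement_inv g h, phi_inv hφ h2]

theorem phi_left {F : Subgroup G} (hF : F = PC p ⊤ ⊤) {φ : G → ZMod p}
    (hφ : φ ∈ VV p F (PC p F ⊤)) (g g' h : G) : φ ⁅g * g', h⁆ = φ ⁅g, h⁆ + φ ⁅g', h⁆ := by
  have h1 : ⁅g, h⁆ ∈ F := by rw [hF]; exact comm_mem_F g h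
  have h2 : ⁅g', h⁆ ∈ F := by rw [hF]; exact comm_mem_F g' h
  have h3 : g * ⁅g', h⁆ * g⁻¹ ∈ F := by
    rw [hF] at h2 ⊢
    exact conj_mem_F g h2
  have e : ⁅g * g', h⁆ = (g * ⁅g', h⁆ * g⁻¹) * ⁅g, h⁆ := by
    simp only [commutatorElement_def]; group
  rw [e, hφ.1 _ h3 _ h1, phi_conj hF hφ g h2, add_comm]

theorem phi_right {F : Subgroup G} (hF : F = PC p ⊤ ⊤) {φ : G → ZMod p}
    (hφ : φ ∈ VV p F (PC p F ⊤)) (g h h' : G) : φ ⁅g, h * h'⁆ = φ ⁅g, h⁆ + φ ⁅g, h'⁆ := by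
  rw [phi_swap hF hφ (h * h') g, phi_left hF hφ h h' g, phi_swap hF hφ g h, phi_swap hF hφ g h']
  ring

end

end J_propA1

/-- TARGET -/
theorem propA1 {G : Type*} [Group G] [Finite G] {p : ℕ} [Fact p.Prime] (hG : IsPGroup p G)
    (F T : Subgroup G) (hF : F = PC p ⊤ ⊤) (hT : T = PC p F ⊤) (r : ℕ)
    (hr : Nat.card F = p ^ r) :
    ∃ U : Finset G, U.card * (U.card + 1) ≤ 4 * r ∧
      ∀ g h : G, ⁅g, h⁆ ∈ Subgroup.closure {y : G | ∃ u ∈ U, ∃ g : G, y = ⁅u, g⁆} ⊔ T := by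
  classical
  subst hT
  have hTF : PC p F ⊤ ≤ F := by
    rw [hF]; exact J_propA1.T_le_F
  obtain ⟨W, hW, hW'⟩ := lemmaL (V := J_propA1.VV p F (PC p F ⊤)) (ι := Unit)
    (fun _ => J_propA1.SS p F (PC p F ⊤))
    (fun _ φ g g' h => J_propA1.phi_left hF φ.2 g g' h)
    (fun _ φ g h h' => J_propA1.phi_right hF φ.2 g h h')
    (fun _ φ g h h0 => by
      have h1 : φ.1 ⁅g, h⁆ = 0 := h0
      show φ.1 ⁅h, g⁆ = 0
      rw [J_propA1.phi_swap hF φ.2 g h, h1, neg_zero])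
  have hfin : Module.finrank (ZMod p) (J_propA1.VV p F (PC p F ⊤)) ≤ r :=
    finrank_hom_le F r hr _ (fun φ hφ => hφ.1) (fun φ hφ => hφ.2.2)
  refine ⟨W, hW.trans (Nat.mul_le_mul_left 4 hfin), ?_⟩
  intro g h
  by_contra hcon
  set N : Subgroup G :=
    Subgroup.closure {y : G | ∃ u ∈ W, ∃ g : G, y = ⁅u, g⁆} ⊔ PC p F ⊤ with hN
  have hTN : PC p F ⊤ ≤ N := le_sup_right
  have hNF : N ≤ F := by
    refine sup_le ((Subgroup.closure_le _).2 ?_) hTF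
    rintro y ⟨u, -, g, rfl⟩
    rw [hF]
    exact J_propA1.comm_mem_F u g
  have hgh : ⁅g, h⁆ ∈ F := by rw [hF]; exact J_propA1.comm_mem_F g h
  obtain ⟨φ, hφ1, hφ2, hφ3, hφ4⟩ := exists_hom (p := p) F N hNF
    (fun a ha b _ => hTN (J_propA1.comm_mem_T ha b))
    (fun a ha => hTN (J_propA1.pow_mem_T ha)) ⁅g, h⁆ hgh hcon
  have hφV : φ ∈ J_propA1.VV p F (PC p F ⊤) := ⟨hφ1, fun a ha => hφ2 a (hTN ha), hφ3⟩
  apply hφ4
  refine hW' ⟨φ, hφV⟩ (fun _ g w hw => ?_) () g h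
  show φ ⁅g, w⁆ = 0
  rw [J_propA1.phi_swap hF hφV w g, hφ2 ⁅w, g⁆ (le_sup_left (a := Subgroup.closure
    {y : G | ∃ u ∈ W, ∃ g : G, y = ⁅u, g⁆}) (Subgroup.subset_closure ⟨w, hw, g, rfl⟩)), neg_zero]

end Pool.Agent.Helper252_Enum
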