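import Pool.Agent.Helper252_Enum.Defs

set_option autoImplicit false

open scoped commutatorElement

namespace Pool.Agent.Helper252_Enum

/-
PROOF OF THE TARGET.
Basic step: if M < B are normal subgroups of the finite p-group G, then there is a normal subgroup M' with M < M' <= B,
|M'| = p |M|, and [h,g] in M for all h in M', g in G. Proof: in the p-group G/M the normal subgroup B/M is nontrivial, so it
meets the centre of G/M nontrivially (Mathlib: a nontrivial normal subgroup of a nilpotent / finite p-group meets the centre: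
count fixed points of the conjugation action, IsPGroup.card_modEq_card_fixedPoints, or IsPGroup lemmas); take an
element of order p in it and the preimage M' of the subgroup it generates (central, so normal).
Iterating from M = bot up to A (s steps) and then from A up to B (r - s steps; s <= r as |A| divides |B|) gives
normal subgroups N 0 = bot < N 1 < ... < N s = A < ... < N r = B with |N k| = p^k and [N (k+1), G] <= N k.
For k > r put N k = B.
-/


namespace J_exists_series

/-- a nontrivial normal subgroup of a finite `p`-group contains a central subgroup of order `p` -/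
theorem exists_central {Q : Type*} [Group Q] [Finite Q] {p : ℕ} [Fact p.Prime]
    (hQ : IsPGroup p Q) (B : Subgroup Q) [B.Normal] (hB : B ≠ ⊥) :
    ∃ z ∈ B, z ∈ Subgroup.center Q ∧ orderOf z = p := by
  have hp : p.Prime := Fact.out
  have hact : IsPGroup p (ConjAct Q) := hQ.of_equiv ConjAct.toConjAct
  have hBp : IsPGroup p B := hQ.to_subgroup B
  have hcard : p ∣ Nat.card B := by
    obtain ⟨k, hk⟩ := IsPGroup.iff_card.1 hBp
    rcases Nat.eq_zero_or_pos k with h0 | h0
    · exfalso
      rw [h0, pow_zero] at hk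
      exact hB (Subgroup.card_eq_one.1 hk)
    · rw [hk]
      exact dvd_pow_self p h0.ne'
  have h1 : (1 : B) ∈ MulAction.fixedPoints (ConjAct Q) B := fun g => smul_one g
  obtain ⟨b, hb, hne⟩ := hact.exists_fixed_point_of_prime_dvd_card_of_fixed_point B hcard h1
  have hbc : (b : Q) ∈ Subgroup.center Q := by
    rw [Subgroup.mem_center_iff]
    intro g
    have h2 := hb (ConjAct.toConjAct g)
    have h3 := congrArg (Subtype.val) h2
    rw [ConjAct.Subgroup.val_conj_smul, ConjAct.toConjAct_smul] at h3
    exact mul_inv_eq_iff_eq_mul.1 h3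
  have hb1 : (b : Q) ≠ 1 := fun h => hne (Subtype.ext h.symm)
  obtain ⟨k, hk⟩ := IsPGroup.iff_orderOf.1 hQ (b : Q)
  obtain ⟨j, rfl⟩ : ∃ j, k = j + 1 := by
    cases k with
    | zero => exfalso; rw [pow_zero, orderOf_eq_one_iff] at hk; exact hb1 hk
    | succ j => exact ⟨j, rfl⟩
  refine ⟨(b : Q) ^ p ^ j, B.pow_mem b.2 _, Subgroup.pow_mem _ hbc _, ?_⟩
  rw [orderOf_pow_of_dvd (pow_ne_zero _ hp.ne_zero) (by rw [hk, pow_succ]; exact Dvd.intro _ rfl), hk,
    pow_succ, Nat.mul_div_cancel_left _ (pow_pos hp.pos _)]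

theorem basic_step {G : Type*} [Group G] [Finite G] {p : ℕ} [Fact p.Prime]
    (hG : IsPGroup p G) (M B : Subgroup G) [M.Normal] [B.Normal] (hMB : M < B) :
    ∃ M' : Subgroup G, M'.Normal ∧ M ≤ M' ∧ M' ≤ B ∧ Nat.card M' = p * Nat.card M ∧
      ∀ h ∈ M', ∀ g : G, ⁅h, g⁆ ∈ M := by
  have hp : p.Prime := Fact.out
  have hQ : IsPGroup p (G ⧸ M) := hG.to_quotient M
  have hN : (B.map (QuotientGroup.mk' M)).Normal :=
    Subgroup.Normal.map inferInstance _ (QuotientGroup.mk'_surjective M)
  have hBne : B.map (QuotientGroup.mk' M) ≠ ⊥ := by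
    intro h
    rw [Subgroup.map_eq_bot_iff, QuotientGroup.ker_mk'] at h
    exact not_le_of_gt hMB h
  obtain ⟨z, hzB, hzc, hz⟩ := exists_central hQ _ hBne
  have hZc : Subgroup.zpowers z ≤ Subgroup.center (G ⧸ M) := by
    rw [Subgroup.zpowers_le]; exact hzc
  have hcomm : ∀ h ∈ (Subgroup.zpowers z).comap (QuotientGroup.mk' M), ∀ g : G, ⁅h, g⁆ ∈ M := by
    intro h hh g
    rw [← QuotientGroup.eq_one_iff]
    have h1 := hZc hh
    rw [Subgroup.mem_center_iff] at h1
    have h2 := h1 (QuotientGroup.mk' M g)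
    change ((⁅h, g⁆ : G) : G ⧸ M) = 1
    have h3 : (QuotientGroup.mk' M) ⁅h, g⁆ = 1 := by
      rw [map_commutatorElement, commutatorElement_eq_one_iff_mul_comm]
      exact h2.symm
    exact h3
  have hle : M ≤ (Subgroup.zpowers z).comap (QuotientGroup.mk' M) := by
    intro m hm
    rw [Subgroup.mem_comap]
    have : QuotientGroup.mk' M m = 1 := (QuotientGroup.eq_one_iff m).2 hm
    rw [this]
    exact Subgroup.one_mem _
  refine ⟨(Subgroup.zpowers z).comap (QuotientGroup.mk' M), ?_, hle, ?_, ?_, hcomm⟩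
  · refine ⟨fun n hn g => ?_⟩
    have h1 := hle (hcomm n hn g)
    have h2 : g * n * g⁻¹ = ⁅n, g⁆⁻¹ * n := by
      rw [commutatorElement_inv, commutatorElement_def]
      group
    rw [h2]
    exact Subgroup.mul_mem _ (Subgroup.inv_mem _ h1) hn
  · intro m hm
    rw [Subgroup.mem_comap] at hm
    have h1 : Subgroup.zpowers z ≤ B.map (QuotientGroup.mk' M) := by
      rw [Subgroup.zpowers_le]; exact hzB
    obtain ⟨b, hb, hbm⟩ := h1 hm
    have h2 : b⁻¹ * m ∈ M := QuotientGroup.eq.1 hbm
    have h3 := B.mul_mem hb (hMB.le h2)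
    rwa [mul_inv_cancel_left] at h3
  · have h1 := Subgroup.index_comap_of_surjective (Subgroup.zpowers z) (QuotientGroup.mk'_surjective M)
    have h2 := ((Subgroup.zpowers z).comap (QuotientGroup.mk' M)).card_mul_index
    have h3 := (Subgroup.zpowers z).card_mul_index
    have h4 := M.card_mul_index
    have h5 : Nat.card (G ⧸ M) = M.index := rfl
    have h6 : Nat.card (Subgroup.zpowers z) = p := by rw [Nat.card_zpowers, hz]
    have h7 : 0 < (Subgroup.zpowers z).index := Nat.pos_of_ne_zero Subgroup.index_ne_zero_of_finite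
    rw [h1, ← h4] at h2
    rw [h5, h6] at h3
    rw [← h3] at h2
    have h8 : (Nat.card ((Subgroup.zpowers z).comap (QuotientGroup.mk' M)) ) * (Subgroup.zpowers z).index =
        (p * Nat.card M) * (Subgroup.zpowers z).index := by
      rw [h2]; ring
    exact Nat.eq_of_mul_eq_mul_right h7 h8

theorem iter {G : Type*} [Group G] [Finite G] {p : ℕ} [Fact p.Prime]
    (hG : IsPGroup p G) (B : Subgroup G) [B.Normal] (b : ℕ) (hB : Nat.card B = p ^ b) (d : ℕ) :
    ∀ (a : ℕ) (M : Subgroup G) [M.Normal], M ≤ B → Nat.card M = p ^ a → a + d = b →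
    ∃ N : ℕ → Subgroup G, N a = M ∧ N b = B ∧ (∀ k, a ≤ k → k ≤ b → Nat.card (N k) = p ^ k) ∧
      (∀ k, a ≤ k → k < b → N k ≤ N (k + 1)) ∧
      (∀ k, a ≤ k → k < b → ∀ h ∈ N (k + 1), ∀ g : G, ⁅h, g⁆ ∈ N k) := by
  have hp : p.Prime := Fact.out
  induction d with
  | zero =>
    intro a M _ hMB hM hab
    rw [add_zero] at hab
    subst hab
    have hMe : M = B := Subgroup.eq_of_le_of_card_ge hMB (by rw [hM, hB])
    refine ⟨fun _ => B, hMe.symm, rfl, fun k h1 h2 => ?_, fun k h1 h2 => le_rfl, fun k h1 h2 => ?_⟩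
    · obtain rfl : k = a := by omega
      exact hB
    · omega
  | succ d ih =>
    intro a M _ hMB hM hab
    have hlt : M < B := by
      refine lt_of_le_of_ne hMB fun h => ?_
      rw [← h, hM] at hB
      have := Nat.pow_right_injective hp.two_le hB
      omega
    obtain ⟨M', hN', h1, h2, h3, h4⟩ := basic_step hG M B hlt
    obtain ⟨N, g1, g2, g3, g4, g5⟩ := ih (a + 1) M' h2 (by rw [h3, hM, pow_succ]; ring) (by omega)
    refine ⟨fun k => if k ≤ a then M else N k, by simp, ?_, ?_, ?_, ?_⟩
    · change (if b ≤ a then M else N b) = B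
      rw [if_neg (by omega), g2]
    · intro k hk1 hk2
      dsimp only
      split_ifs with h
      · obtain rfl : k = a := by omega
        exact hM
      · exact g3 k (by omega) hk2
    · intro k hk1 hk2
      dsimp only
      rw [if_neg (show ¬ k + 1 ≤ a by omega)]
      split_ifs with h
      · obtain rfl : k = a := by omega
        rw [g1]; exact h1
      · exact g4 k (by omega) hk2
    · intro k hk1 hk2
      dsimp only
      rw [if_neg (show ¬ k + 1 ≤ a by omega)]
      split_ifs with h
      · obtain rfl : k = a := by omega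
        rw [g1]; exact h4
      · exact g5 k (by omega) hk2

end J_exists_series

/-- TARGET -/
theorem exists_series {G : Type*} [Group G] [Finite G] {p : ℕ} [Fact p.Prime]
    (hG : IsPGroup p G) (A B : Subgroup G) [A.Normal] [B.Normal] (hAB : A ≤ B) (s r : ℕ)
    (hA : Nat.card A = p ^ s) (hB : Nat.card B = p ^ r) :
    ∃ N : ℕ → Subgroup G, Series p r N ∧ N s = A ∧ N r = B := by
  have hp : p.Prime := Fact.out
  have hsr : s ≤ r := by
    have h1 := Subgroup.card_dvd_of_le hAB
    rw [hA, hB] at h1
    exact (Nat.pow_dvd_pow_iff_le_right hp.one_lt).1 h1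
  obtain ⟨N₁, a1, a2, a3, a4, a5⟩ := J_exists_series.iter hG A s hA s 0 ⊥ bot_le (by simp) (by omega)
  obtain ⟨N₂, b1, b2, b3, b4, b5⟩ := J_exists_series.iter hG B r hB (r - s) s A hAB hA (by omega)
  refine ⟨fun k => if k ≤ s then N₁ k else N₂ k, ⟨?_, ?_, ?_⟩, by simp [a2], ?_⟩
  · intro k hk
    split_ifs with h
    · exact a3 k (Nat.zero_le _) h
    · exact b3 k (by omega) hk
  · intro k hk
    split_ifs with h h' h'
    · exact a4 k (Nat.zero_le _) (by omega)
    · obtain rfl : k = s := by omega
      rw [a2, ← b1]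
      exact b4 k le_rfl hk
    · omega
    · exact b4 k (by omega) hk
  · intro k hk
    split_ifs with h h' h'
    · exact a5 k (Nat.zero_le _) (by omega)
    · omega
    · obtain rfl : k = s := by omega
      rw [a2, ← b1]
      exact b5 k le_rfl hk
    · exact b5 k (by omega) hk
  · dsimp only
    split_ifs with h
    · obtain rfl : r = s := by omega
      rw [a2, ← b1, ← b2]
    · exact b2

end Pool.Agent.Helper252_Enum
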