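import Pool.Agent.Helper252_Enum.P2_exists_hom
import Pool.Agent.Helper252_Enum.P3_finrank_hom
import Pool.Agent.Helper252_Enum.L_lemmaL
import Pool.Agent.Helper252_Enum.P4_exists_series

set_option autoImplicit false

open scoped commutatorElement

namespace Pool.Agent.Helper252_Enum

/-
PROOF OF THE TARGET.
Facts as in A1: F = PC p ⊤ ⊤ = [G,G]G^p normal, T = PC p F ⊤ = [F,G]F^p normal in G, T <= F. Let T2 = PC p T ⊤ (= [T,G]T^p; normal) and
L1 = closure U ⊔ F. Let V = {phi : G -> ZMod p | additive on T, zero off T, zero on T2 and on PC p F L1}: submodule of G -> ZMod p of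
dimension <= r: (|T| = p^s with s <= r; use finrank_hom_le for T). For phi in V: (1) for w in G, c -> phi ⁅c,w⁆ is additive on F, and zero on T; for c in F,
w -> phi ⁅c,w⁆ is additive on G: because ⁅c c', w⁆ = (c ⁅c',w⁆ c⁻¹) ⁅c,w⁆ and phi(c t c⁻¹) = phi(t) for t in T (⁅c,t⁆ in T2).
For y in U (index set) let S y phi v w = phi ⁅⁅y,v⁆,w⁆. Additive in w by (1); additive in v: ⁅y,vv'⁆ = ⁅y,v⁆ (v ⁅y,v'⁆ v⁻¹) = ⁅y,v⁆⁅y,v'⁆ t with t in [F,G] <= T
and phi ⁅t,w⁆ = 0. Symmetric: Hall-Witt (Mathlib has it for commutatorElement) and tri-additivity of (a,b,c) -> phi ⁅⁅a,b⁆,c⁆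
give phi⁅⁅y,v⁆,w⁆ + phi⁅⁅v,w⁆,y⁆ + phi⁅⁅w,y⁆,v⁆ = 0; the middle term vanishes since ⁅v,w⁆ in F, y in L1; and phi⁅⁅w,y⁆,v⁆ = -phi⁅⁅y,w⁆,v⁆.
lemmaL gives W with |W|(|W|+1) <= 4r: if phi in V and phi⁅⁅y,v⁆,w⁆ = 0 for all y in U, v in G, w in W then phi⁅⁅y,v⁆,w⁆ = 0 for all y in U, v,w.
Claim: this W works. Let L >= F with U, W inside L. D0 = PC p F L <= T is normal in G (F and L are normal: L contains [G,G]). Suppose
D0 ≠ T. By exists_series for D0 <= T there is a normal N with D0 <= N < T, T/N of order p and [T,G] <= N (the last but one member), and T^p <= N.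
exists_hom (A = T) gives phi ≠ 0, phi = 0 on N, so phi in V (PC p F L1 <= PC p F L = D0 as L1 <= L), and phi⁅⁅y,v⁆,w⁆ = 0 for w in W (⁅y,v⁆ in F, w in L).
Hence phi⁅⁅y,v⁆,w⁆ = 0 for all y in U, v, w in G. Fix w and let chi(c) = phi⁅c,w⁆ (c in F), additive on F, zero on T and on all ⁅y,v⁆ (y in U), so by hU
chi is zero on all commutators ⁅g,h⁆ (for every w). Next chi(g^p) = 0: put c = ⁅w,g⁆ or ⁅g,w⁆ in F (so that w g w⁻¹ = c g); w g^p w⁻¹ = (c g)^p =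
c (g c g⁻¹)(g² c g⁻²)...(g^{p-1} c g^{1-p}) g^p, so ⁅w,g^p⁆ = prod_{i<p} g^i c g^{-i}, and g^i c g^{-i} = ⁅g^i,c⁆ c with ⁅g^i,c⁆ in T; modulo N the
elements ⁅g^i,c⁆ are central and ⁅g^i,c⁆ = ⁅g,c⁆^i, so phi⁅w,g^p⁆ = phi(c^p) + (sum_{i<p} i) phi⁅g,c⁆ (c^p in D0 <= N as c in F) and phi⁅g,c⁆ = -phi⁅c,g⁆ = 0
because c is a commutator (use the vanishing of chi on commutators with w := g). So chi kills the generators of F = PC p ⊤ ⊤, i.e. phi⁅c,w⁆ = 0
for all c in F, w in G; also phi(c^p) = 0 for c in F. So phi = 0 on T: contradiction.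
-/

namespace J_propA2

variable {G : Type*} [Group G]

theorem comm_mem_PC {p : ℕ} {A B : Subgroup G} {a b : G} (ha : a ∈ A) (hb : b ∈ B) :
    ⁅a, b⁆ ∈ PC p A B :=
  Subgroup.subset_closure (Or.inl ⟨a, ha, b, hb, rfl⟩)

theorem pow_mem_PC {p : ℕ} {A B : Subgroup G} {a : G} (ha : a ∈ A) :
    a ^ p ∈ PC p A B :=
  Subgroup.subset_closure (Or.inr ⟨a, ha, rfl⟩)

theorem PC_le {p : ℕ} {A B N : Subgroup G} (h1 : ∀ a ∈ A, ∀ b ∈ B, ⁅a, b⁆ ∈ N)
    (h2 : ∀ a ∈ A, a ^ p ∈ N) : PC p A B ≤ N := by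
  unfold PC
  rw [Subgroup.closure_le]
  rintro x (⟨a, ha, b, hb, rfl⟩ | ⟨a, ha, rfl⟩)
  · exact h1 a ha b hb
  · exact h2 a ha

theorem PC_normal {p : ℕ} {A B : Subgroup G} (hA : A.Normal) (hB : B.Normal) :
    (PC p A B).Normal := by
  constructor
  intro n hn g
  unfold PC at hn
  induction hn using Subgroup.closure_induction with
  | mem x hx =>
    rcases hx with ⟨a, ha, b, hb, rfl⟩ | ⟨a, ha, rfl⟩
    · have : g * ⁅a, b⁆ * g⁻¹ = ⁅g * a * g⁻¹, g * b * g⁻¹⁆ := by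
        simp only [commutatorElement_def]; group
      rw [this]
      exact comm_mem_PC (hA.conj_mem a ha g) (hB.conj_mem b hb g)
    · have : g * a ^ p * g⁻¹ = (g * a * g⁻¹) ^ p := (conj_pow).symm
      rw [this]
      exact pow_mem_PC (hA.conj_mem a ha g)
  | one => simp
  | mul x y _ _ hx hy =>
    have : g * (x * y) * g⁻¹ = (g * x * g⁻¹) * (g * y * g⁻¹) := by group
    rw [this]
    exact mul_mem hx hy
  | inv x _ hx =>
    have : g * x⁻¹ * g⁻¹ = (g * x * g⁻¹)⁻¹ := by group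
    rw [this]
    exact inv_mem hx

theorem comm_symm_mem {N : Subgroup G} {a b : G} (h : ⁅a, b⁆ ∈ N) : ⁅b, a⁆ ∈ N := by
  rw [← commutatorElement_inv]
  exact inv_mem h

/-- The space of functionals. -/
def VV (p : ℕ) (T T2 D : Subgroup G) : Submodule (ZMod p) (G → ZMod p) where
  carrier := {φ | (∀ a ∈ T, ∀ b ∈ T, φ (a * b) = φ a + φ b) ∧ (∀ a, a ∉ T → φ a = 0) ∧
    (∀ a ∈ T2, φ a = 0) ∧ ∀ a ∈ D, φ a = 0}
  add_mem' := by
    rintro φ ψ ⟨h1, h2, h3, h4⟩ ⟨k1, k2, k3, k4⟩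
    refine ⟨fun a ha b hb => ?_, fun a ha => ?_, fun a ha => ?_, fun a ha => ?_⟩
    · simp only [Pi.add_apply]
      rw [h1 a ha b hb, k1 a ha b hb]; ring
    · simp only [Pi.add_apply]
      rw [h2 a ha, k2 a ha, add_zero]
    · simp only [Pi.add_apply]
      rw [h3 a ha, k3 a ha, add_zero]
    · simp only [Pi.add_apply]
      rw [h4 a ha, k4 a ha, add_zero]
  zero_mem' := by
    refine ⟨fun a _ b _ => ?_, fun a _ => rfl, fun a _ => rfl, fun a _ => rfl⟩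
    simp
  smul_mem' := by
    rintro c φ ⟨h1, h2, h3, h4⟩
    refine ⟨fun a ha b hb => ?_, fun a ha => ?_, fun a ha => ?_, fun a ha => ?_⟩
    · simp only [Pi.smul_apply, smul_eq_mul]
      rw [h1 a ha b hb]; ring
    · simp only [Pi.smul_apply, smul_eq_mul]
      rw [h2 a ha, mul_zero]
    · simp only [Pi.smul_apply, smul_eq_mul]
      rw [h3 a ha, mul_zero]
    · simp only [Pi.smul_apply, smul_eq_mul]
      rw [h4 a ha, mul_zero]

section Funct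

variable {p : ℕ} {F T : Subgroup G} {φ : G → ZMod p}

/-- Hypotheses for a functional: `T` normal, `[F,G] ≤ T`, `[G,G] ≤ F`, `φ` additive on `T` and zero
on `[T,G]`. -/
structure Ok (F T : Subgroup G) (φ : G → ZMod p) : Prop where
  tn : T.Normal
  tf : T ≤ F
  gg : ∀ a b : G, ⁅a, b⁆ ∈ F
  fg : ∀ a ∈ F, ∀ b : G, ⁅a, b⁆ ∈ T
  add : ∀ a ∈ T, ∀ b ∈ T, φ (a * b) = φ a + φ b
  tg : ∀ a ∈ T, ∀ b : G, φ ⁅a, b⁆ = 0

variable (h : Ok F T φ)
include h

theorem Ok.fn : F.Normal := by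
  constructor
  intro n hn g
  have : g * n * g⁻¹ = ⁅g, n⁆ * n := by simp only [commutatorElement_def]; group
  rw [this]
  exact mul_mem (h.gg _ _) hn

theorem Ok.one : φ 1 = 0 := by
  have := h.add 1 (one_mem _) 1 (one_mem _)
  rw [mul_one] at this
  have h2 : φ 1 + φ 1 = φ 1 + 0 := by rw [add_zero]; exact this.symm
  exact add_left_cancel h2

theorem Ok.inv {t : G} (ht : t ∈ T) : φ t⁻¹ = -φ t := by
  have h1 := h.add t ht t⁻¹ (inv_mem ht)
  rw [mul_inv_cancel, h.one] at h1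
  exact (neg_eq_of_add_eq_zero_right h1.symm).symm

theorem Ok.conj {t : G} (ht : t ∈ T) (g : G) : φ (g * t * g⁻¹) = φ t := by
  have e : g * t * g⁻¹ = ⁅t, g⁆⁻¹ * t := by simp only [commutatorElement_def]; group
  have h1 : ⁅t, g⁆ ∈ T := h.fg t (h.tf ht) g
  rw [e, h.add _ (inv_mem h1) _ ht, h.inv h1, h.tg t ht g]
  simp

theorem Ok.left {c c' : G} (hc : c ∈ F) (hc' : c' ∈ F) (w : G) :
    φ ⁅c * c', w⁆ = φ ⁅c, w⁆ + φ ⁅c', w⁆ := by
  have e : ⁅c * c', w⁆ = (c * ⁅c', w⁆ * c⁻¹) * ⁅c, w⁆ := by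
    simp only [commutatorElement_def]; group
  have h1 := h.fg c hc w
  have h2 := h.fg c' hc' w
  rw [e, h.add _ (h.tn.conj_mem _ h2 c) _ h1, h.conj h2]
  ring

theorem Ok.right {c : G} (hc : c ∈ F) (w w' : G) :
    φ ⁅c, w * w'⁆ = φ ⁅c, w⁆ + φ ⁅c, w'⁆ := by
  have e : ⁅c, w * w'⁆ = ⁅c, w⁆ * (w * ⁅c, w'⁆ * w⁻¹) := by
    simp only [commutatorElement_def]; group
  have h1 := h.fg c hc w
  have h2 := h.fg c hc w'
  rw [e, h.add _ h1 _ (h.tn.conj_mem _ h2 w), h.conj h2]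

theorem Ok.leftinv {c : G} (hc : c ∈ F) (w : G) : φ ⁅c⁻¹, w⁆ = -φ ⁅c, w⁆ := by
  have h1 := h.left hc (inv_mem hc) w
  rw [mul_inv_cancel, commutatorElement_one_left, h.one] at h1
  exact (neg_eq_of_add_eq_zero_right h1.symm).symm

theorem Ok.cconj {c : G} (hc : c ∈ F) (v w : G) : φ ⁅v * c * v⁻¹, w⁆ = φ ⁅c, w⁆ := by
  have e : v * c * v⁻¹ = ⁅c, v⁆⁻¹ * c := by simp only [commutatorElement_def]; group
  have h1 := h.fg c hc v
  rw [e, h.left (inv_mem (h.tf h1)) hc, h.tg _ (inv_mem h1), zero_add]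

theorem Ok.mid (y v v' w : G) :
    φ ⁅⁅y, v * v'⁆, w⁆ = φ ⁅⁅y, v⁆, w⁆ + φ ⁅⁅y, v'⁆, w⁆ := by
  have e : ⁅y, v * v'⁆ = ⁅y, v⁆ * (v * ⁅y, v'⁆ * v⁻¹) := by
    simp only [commutatorElement_def]; group
  rw [e, h.left (h.gg _ _) (h.fn.conj_mem _ (h.gg _ _) v), h.cconj (h.gg _ _)]

theorem Ok.fst (y y' v w : G) :
    φ ⁅⁅y * y', v⁆, w⁆ = φ ⁅⁅y, v⁆, w⁆ + φ ⁅⁅y', v⁆, w⁆ := by
  have e : ⁅y * y', v⁆ = (y * ⁅y', v⁆ * y⁻¹) * ⁅y, v⁆ := by
    simp only [commutatorElement_def]; group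
  rw [e, h.left (h.fn.conj_mem _ (h.gg _ _) y) (h.gg _ _), h.cconj (h.gg _ _)]
  ring

theorem Ok.fstinv (y v w : G) : φ ⁅⁅y⁻¹, v⁆, w⁆ = -φ ⁅⁅y, v⁆, w⁆ := by
  have h1 := h.fst y y⁻¹ v w
  rw [mul_inv_cancel, commutatorElement_one_left, commutatorElement_one_left, h.one] at h1
  exact (neg_eq_of_add_eq_zero_right h1.symm).symm

theorem Ok.swap (y v w : G) : φ ⁅⁅y, v⁆, w⁆ = -φ ⁅⁅v, y⁆, w⁆ := by
  rw [← commutatorElement_inv v y, h.leftinv (h.gg _ _)]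

theorem Ok.swap2 {c : G} (hc : c ∈ F) (w : G) : φ ⁅w, c⁆ = -φ ⁅c, w⁆ := by
  rw [← commutatorElement_inv c w, h.inv (h.fg c hc w)]

theorem Ok.jacobi (x y z : G) :
    φ ⁅⁅x, y⁆, z⁆ + φ ⁅⁅y, z⁆, x⁆ + φ ⁅⁅z, x⁆, y⁆ = 0 := by
  have e : (y * ⁅x, ⁅y⁻¹, z⁆⁆ * y⁻¹) * (z * ⁅y, ⁅z⁻¹, x⁆⁆ * z⁻¹) *
      (x * ⁅z, ⁅x⁻¹, y⁆⁆ * x⁻¹) = 1 := by
    simp only [commutatorElement_def]; group
  have m : ∀ a b c : G, ⁅a, ⁅b, c⁆⁆ ∈ T := fun a b c => comm_symm_mem (h.fg _ (h.gg b c) a)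
  have f : ∀ a b c : G, φ ⁅a, ⁅b⁻¹, c⁆⁆ = φ ⁅⁅b, c⁆, a⁆ := by
    intro a b c
    rw [h.swap2 (h.gg _ _), h.fstinv]; ring
  have e2 := congrArg φ e
  rw [h.add _ (mul_mem (h.tn.conj_mem _ (m _ _ _) _) (h.tn.conj_mem _ (m _ _ _) _)) _
    (h.tn.conj_mem _ (m _ _ _) _), h.add _ (h.tn.conj_mem _ (m _ _ _) _) _
    (h.tn.conj_mem _ (m _ _ _) _), h.conj (m _ _ _), h.conj (m _ _ _), h.conj (m _ _ _),
    h.one, f, f, f] at e2
  linear_combination e2

end Funct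

end J_propA2

open J_propA2 in
/-- TARGET -/
theorem propA2 {G : Type*} [Group G] [Finite G] {p : ℕ} [Fact p.Prime] (hG : IsPGroup p G)
    (F T : Subgroup G) (hF : F = PC p ⊤ ⊤) (hT : T = PC p F ⊤) (r : ℕ)
    (hr : Nat.card F = p ^ r) (U : Finset G)
    (hU : ∀ g h : G, ⁅g, h⁆ ∈ Subgroup.closure {y : G | ∃ u ∈ U, ∃ g : G, y = ⁅u, g⁆} ⊔ T) :
    ∃ W : Finset G, W.card * (W.card + 1) ≤ 4 * r ∧
      ∀ L : Subgroup G, F ≤ L → (U : Set G) ⊆ L → (W : Set G) ⊆ L → PC p F L = T := by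
  classical
  have hp : p.Prime := Fact.out
  haveI : NeZero p := ⟨hp.ne_zero⟩
  have hFn : F.Normal := by rw [hF]; exact PC_normal inferInstance inferInstance
  have hTn : T.Normal := by rw [hT]; exact PC_normal hFn inferInstance
  have hgg : ∀ a b : G, ⁅a, b⁆ ∈ F := by
    intro a b; rw [hF]; exact comm_mem_PC (Subgroup.mem_top _) (Subgroup.mem_top _)
  have hgp : ∀ a : G, a ^ p ∈ F := by
    intro a; rw [hF]; exact pow_mem_PC (Subgroup.mem_top _)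
  have hfg : ∀ a ∈ F, ∀ b : G, ⁅a, b⁆ ∈ T := by
    intro a ha b; rw [hT]; exact comm_mem_PC ha (Subgroup.mem_top _)
  have hfp : ∀ a ∈ F, a ^ p ∈ T := by
    intro a ha; rw [hT]; exact pow_mem_PC ha
  have hTF : T ≤ F := by
    rw [hT]; exact PC_le (fun a _ b _ => hgg a b) (fun a _ => hgp a)
  set L1 : Subgroup G := Subgroup.closure (U : Set G) ⊔ F with hL1
  set V : Submodule (ZMod p) (G → ZMod p) := VV p T (PC p T ⊤) (PC p F L1) with hV
  have hOk : ∀ φ ∈ V, Ok F T φ := by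
    rintro φ ⟨h1, h2, h3, h4⟩
    exact ⟨hTn, hTF, hgg, hfg, h1,
      fun a ha b => h3 _ (comm_mem_PC ha (Subgroup.mem_top _))⟩
  obtain ⟨s, hsr, hs⟩ : ∃ s, s ≤ r ∧ Nat.card T = p ^ s := by
    have := Subgroup.card_dvd_of_le hTF
    rw [hr] at this
    exact (Nat.dvd_prime_pow hp).mp this
  have hfin : Module.finrank (ZMod p) V ≤ s :=
    finrank_hom_le T s hs V (fun φ hφ => hφ.1) (fun φ hφ => hφ.2.1)
  let S : {y // y ∈ U} → V →ₗ[ZMod p] (G → G → ZMod p) := fun y =>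
    { toFun := fun φ v w => φ.1 ⁅⁅y.1, v⁆, w⁆
      map_add' := fun φ ψ => rfl
      map_smul' := fun c φ => rfl }
  obtain ⟨W, hW1, hW2⟩ := lemmaL S
    (fun y φ g g' h => (hOk φ.1 φ.2).mid y.1 g g' h)
    (fun y φ g h h' => (hOk φ.1 φ.2).right (hgg _ _) h h')
    (by
      intro y φ g h h0
      have h0' : φ.1 ⁅⁅y.1, g⁆, h⁆ = 0 := h0
      change φ.1 ⁅⁅y.1, h⁆, g⁆ = 0
      have hj := (hOk φ.1 φ.2).jacobi y.1 g h
      have hm : φ.1 ⁅⁅g, h⁆, y.1⁆ = 0 := by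
        refine φ.2.2.2.2 _ (comm_mem_PC (hgg g h) ?_)
        exact (le_sup_left : _ ≤ L1) (Subgroup.subset_closure y.2)
      rw [h0', hm, (hOk φ.1 φ.2).swap h y.1 g] at hj
      have : -φ.1 ⁅⁅y.1, h⁆, g⁆ = 0 := by linear_combination hj
      exact neg_eq_zero.mp this)
  refine ⟨W, hW1.trans (by omega), ?_⟩
  intro L hFL hUL hWL
  have hD0T : PC p F L ≤ T := PC_le (fun a ha b _ => hfg a ha b) (fun a ha => hfp a ha)
  by_contra hne
  have hLn : L.Normal := by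
    constructor
    intro n hn g
    have : g * n * g⁻¹ = ⁅g, n⁆ * n := by simp only [commutatorElement_def]; group
    rw [this]
    exact mul_mem (hFL (hgg _ _)) hn
  haveI hD0n : (PC p F L).Normal := PC_normal hFn hLn
  haveI := hTn
  obtain ⟨a, has, ha⟩ : ∃ a, a ≤ s ∧ Nat.card (PC p F L) = p ^ a := by
    have := Subgroup.card_dvd_of_le hD0T
    rw [hs] at this
    exact (Nat.dvd_prime_pow hp).mp this
  have has' : a < s := by
    refine lt_of_le_of_ne has ?_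
    rintro rfl
    apply hne
    exact Subgroup.eq_of_le_of_card_ge hD0T (by rw [ha, hs])
  obtain ⟨N, hN, hNa, hNs⟩ := exists_series hG (PC p F L) T hD0T a s ha hs
  have hmono : ∀ i j, i ≤ j → j ≤ s → N i ≤ N j := by
    intro i j hij
    induction j, hij using Nat.le_induction with
    | base => intro _; exact le_rfl
    | succ n hn ih => intro hns; exact (ih (by omega)).trans (hN.mono n (by omega))
  have hD0N : PC p F L ≤ N (s - 1) := by
    rw [← hNa]; exact hmono a (s - 1) (by omega) (by omega)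
  have hNT : N (s - 1) ≤ T := by
    have h1 := hmono (s - 1) s (by omega) le_rfl
    rwa [hNs] at h1
  have hcen : ∀ t ∈ T, ∀ g : G, ⁅t, g⁆ ∈ N (s - 1) := by
    intro t ht g
    refine hN.central (s - 1) (by omega) t ?_ g
    have : s - 1 + 1 = s := by omega
    rw [this, hNs]; exact ht
  have hpow : ∀ t ∈ T, t ^ p ∈ N (s - 1) := fun t ht => hD0N (pow_mem_PC (hTF ht))
  obtain ⟨x, hxT, hxN⟩ : ∃ x ∈ T, x ∉ N (s - 1) := by
    by_contra hcon
    push Not at hcon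
    have h1 : T = N (s - 1) := le_antisymm hcon hNT
    have h2 := hN.card (s - 1) (by omega)
    rw [← h1, hs] at h2
    have := Nat.pow_right_injective hp.two_le h2
    omega
  obtain ⟨φ, hadd, hzN, hzT, hφx⟩ := exists_hom T (N (s - 1)) hNT
    (fun a ha b _ => hcen a ha b) hpow x hxT hxN
  have hT2 : ∀ y ∈ PC p T ⊤, φ y = 0 := by
    intro y hy
    refine hzN y ?_
    exact PC_le (N := N (s - 1)) (fun a ha b _ => hcen a ha b) hpow hy
  have hL1L : L1 ≤ L := by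
    rw [hL1]
    refine sup_le ?_ hFL
    rw [Subgroup.closure_le]; exact hUL
  have hD1 : ∀ y ∈ PC p F L1, φ y = 0 := by
    intro y hy
    refine hzN y (hD0N ?_)
    exact PC_le (N := PC p F L) (fun a ha b hb => comm_mem_PC ha (hL1L hb))
      (fun a ha => pow_mem_PC ha) hy
  have hφV : φ ∈ V := ⟨hadd, hzT, hT2, hD1⟩
  have hok := hOk φ hφV
  have hS := hW2 ⟨φ, hφV⟩ (by
    intro y g w hw
    change φ ⁅⁅y.1, g⁆, w⁆ = 0
    exact hzN _ (hD0N (comm_mem_PC (hgg _ _) (hWL hw))))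
  -- the kernel of `φ` on `T`
  let K : Subgroup G :=
    { carrier := {t | t ∈ T ∧ φ t = 0}
      mul_mem' := by
        rintro u v ⟨hu, hu0⟩ ⟨hv, hv0⟩
        exact ⟨mul_mem hu hv, by rw [hadd u hu v hv, hu0, hv0, add_zero]⟩
      one_mem' := ⟨one_mem _, hok.one⟩
      inv_mem' := by
        rintro u ⟨hu, hu0⟩
        exact ⟨inv_mem hu, by rw [hok.inv hu, hu0, neg_zero]⟩ }
  have hKmem : ∀ t, t ∈ K ↔ t ∈ T ∧ φ t = 0 := fun t => Iff.rfl
  haveI hKn : K.Normal := by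
    constructor
    rintro t ⟨ht, ht0⟩ g
    exact ⟨hTn.conj_mem t ht g, by rw [hok.conj ht, ht0]⟩
  have hNK : N (s - 1) ≤ K := fun t ht => ⟨hNT ht, hzN t ht⟩
  let Z : Subgroup G := (Subgroup.center (G ⧸ K)).comap (QuotientGroup.mk' K)
  have hZmem : ∀ c, c ∈ Z ↔ ∀ w, ⁅c, w⁆ ∈ K := by
    intro c
    rw [Subgroup.mem_comap, Subgroup.mem_center_iff]
    constructor
    · intro hc w
      rw [← QuotientGroup.eq_one_iff, commutatorElement_def]
      have h1 := hc (QuotientGroup.mk' K w)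
      simp only [QuotientGroup.mk'_apply] at h1
      simp only [QuotientGroup.mk_mul, QuotientGroup.mk_inv]
      rw [← h1]; group
    · intro hc g
      obtain ⟨w, rfl⟩ := QuotientGroup.mk'_surjective K g
      have h1 := hc w
      rw [← QuotientGroup.eq_one_iff, commutatorElement_def] at h1
      simp only [QuotientGroup.mk_mul, QuotientGroup.mk_inv] at h1
      simp only [QuotientGroup.mk'_apply]
      have h2 := mul_inv_eq_one.mp h1
      rw [mul_inv_eq_iff_eq_mul] at h2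
      exact h2.symm
  have hTZ : T ≤ Z := by
    intro t ht
    rw [hZmem]
    exact fun w => hNK (hcen t ht w)
  have hcommZ : ∀ g h : G, ⁅g, h⁆ ∈ Z := by
    intro g h
    have h1 : Subgroup.closure {y : G | ∃ u ∈ U, ∃ g : G, y = ⁅u, g⁆} ⊔ T ≤ Z := by
      refine sup_le ?_ hTZ
      rw [Subgroup.closure_le]
      rintro y ⟨u, hu, g, rfl⟩
      change ⁅u, g⁆ ∈ Z
      rw [hZmem]
      intro w
      exact ⟨hfg _ (hgg _ _) _, hS ⟨u, hu⟩ g w⟩
    exact h1 (hU g h)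
  have hpowZ : ∀ g : G, g ^ p ∈ Z := by
    intro g
    rw [hZmem]
    intro w
    apply comm_symm_mem
    rw [← QuotientGroup.eq_one_iff]
    -- `c = ⁅w, g⁆` is central modulo `K`
    have hc := hcommZ w g
    rw [Subgroup.mem_comap, Subgroup.mem_center_iff] at hc
    have e1 : w * g * w⁻¹ = ⁅w, g⁆ * g := by simp only [commutatorElement_def]; group
    have e2 : ⁅w, g ^ p⁆ = (⁅w, g⁆ * g) ^ p * (g ^ p)⁻¹ := by
      rw [← e1, conj_pow, commutatorElement_def]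
    have hcomm : Commute (QuotientGroup.mk' K ⁅w, g⁆) (QuotientGroup.mk' K g) :=
      (hc (QuotientGroup.mk' K g)).symm
    have hcp : QuotientGroup.mk' K (⁅w, g⁆ ^ p) = 1 := by
      rw [QuotientGroup.mk'_apply, QuotientGroup.eq_one_iff]
      exact hNK (hD0N (pow_mem_PC (hgg _ _)))
    change QuotientGroup.mk' K ⁅w, g ^ p⁆ = 1
    rw [e2, map_mul, map_pow, map_mul, hcomm.mul_pow, map_inv, map_pow, ← map_pow, hcp, one_mul,
      mul_inv_cancel]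
  have hFZ : F ≤ Z := by
    rw [hF]
    exact PC_le (fun a _ b _ => hcommZ a b) (fun a _ => hpowZ a)
  have hTK : T ≤ K := by
    intro t ht
    rw [hT] at ht
    refine PC_le (N := K) (fun a ha b _ => ?_) (fun a ha => ?_) ht
    · exact (hZmem a).mp (hFZ ha) b
    · exact hNK (hD0N (pow_mem_PC ha))
  exact hφx (hTK hxT).2

end Pool.Agent.Helper252_Enum
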