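import Pool.Agent.Helper252_Enum.P1_nongen

set_option autoImplicit false

open scoped commutatorElement

namespace Pool.Agent.Helper252_Enum

namespace J_lemmaB

theorem relIndex_pos {G : Type*} [Group G] [Finite G] (H K : Subgroup G) : H.relIndex K ≠ 0 := by
  have h := Subgroup.relIndex_dvd_card (H := H) (K := K)
  intro h0
  rw [h0] at h
  have h1 := Nat.eq_zero_of_zero_dvd h
  have h2 : 0 < Nat.card K := Nat.card_pos
  omega

theorem card_eq {G : Type*} [Group G] [Finite G] (C K : Subgroup G) :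
    Nat.card (K ⊓ C : Subgroup G) * C.relIndex K = Nat.card K := by
  have h1 := Subgroup.relIndex_mul_relIndex (⊥ : Subgroup G) (K ⊓ C) K bot_le inf_le_left
  rw [Subgroup.relIndex_bot_left, Subgroup.relIndex_bot_left, Subgroup.inf_relIndex_left] at h1
  exact h1

theorem le_iff {G : Type*} [Group G] [Finite G] (C K : Subgroup G) (m : ℕ) :
    Nat.card K ≤ m * Nat.card (K ⊓ C : Subgroup G) ↔ C.relIndex K ≤ m := by
  have h1 := card_eq C K
  have h2 : 0 < Nat.card (K ⊓ C : Subgroup G) := Nat.card_pos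
  constructor
  · intro h
    rw [← h1, mul_comm m] at h
    exact Nat.le_of_mul_le_mul_left h h2
  · intro h
    rw [← h1, mul_comm m]
    exact Nat.mul_le_mul_left _ h

/-- admissible sequences -/
def Adm {G : Type*} [Group G] (p κ r : ℕ) (F : Subgroup G) (q : ℕ) (y : Fin q → G) : Prop :=
  (∀ i : Fin q, y i ∉ Subgroup.closure (y '' {j | j < i}) ⊔ F) ∧
    p ^ (κ * q) * Nat.card (F ⊓ Subgroup.centralizer (Set.range y) : Subgroup G) ≤ p ^ r

theorem adm_le {G : Type*} [Group G] [Finite G] {p κ r : ℕ} (hp : p.Prime) (F : Subgroup G) (q : ℕ)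
    (y : Fin q → G) (h : Adm p κ r F q y) : q * κ ≤ r := by
  have h1 : 0 < Nat.card (F ⊓ Subgroup.centralizer (Set.range y) : Subgroup G) := Nat.card_pos
  have h2 : p ^ (κ * q) ≤ p ^ r := (Nat.le_mul_of_pos_right _ h1).trans h.2
  have h3 := (Nat.pow_le_pow_iff_right hp.one_lt).1 h2
  rwa [mul_comm] at h3

theorem adm_zero {G : Type*} [Group G] [Finite G] {p κ r : ℕ} (F : Subgroup G) (hr : Nat.card F = p ^ r) :
    Adm p κ r F 0 (fun i => i.elim0) := by
  refine ⟨fun i => i.elim0, ?_⟩
  rw [mul_zero, pow_zero, one_mul, ← hr]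
  exact Subgroup.card_le_of_le inf_le_left

theorem adm_succ {G : Type*} [Group G] [Finite G] {p κ r : ℕ} (F : Subgroup G) (q : ℕ)
    (y : Fin q → G) (h : Adm p κ r F q y) (g : G) (hg : g ∉ Subgroup.closure (Set.range y) ⊔ F)
    (hlt : p ^ κ * Nat.card ((F ⊓ Subgroup.centralizer (Set.range y)) ⊓ Subgroup.centralizer {g} : Subgroup G) ≤
      Nat.card (F ⊓ Subgroup.centralizer (Set.range y) : Subgroup G)) :
    Adm p κ r F (q + 1) (Fin.snoc y g) := by
  constructor
  · intro i
    refine Fin.lastCases ?_ (fun i => ?_) i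
    · rw [Fin.snoc_last]
      have h1 : (Fin.snoc (α := fun _ => G) y g) '' {j | j < Fin.last q} = Set.range y := by
        ext z
        constructor
        · rintro ⟨j, hj, rfl⟩
          have hj' : j < Fin.last q := hj
          refine ⟨⟨j.val, hj'⟩, ?_⟩
          exact (Fin.snoc_castSucc (α := fun _ => G) g y ⟨j.val, hj'⟩).symm
        · rintro ⟨j, rfl⟩
          exact ⟨Fin.castSucc j, Fin.castSucc_lt_last j, by rw [Fin.snoc_castSucc]⟩
      rw [h1]
      exact hg
    · rw [Fin.snoc_castSucc]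
      have h1 : (Fin.snoc (α := fun _ => G) y g) '' {j | j < Fin.castSucc i} = y '' {j | j < i} := by
        ext z
        constructor
        · rintro ⟨j, hj, rfl⟩
          have hj' : j < Fin.castSucc i := hj
          have hj2 : j.val < i.val := hj'
          have hj3 : j.val < q := by omega
          refine ⟨⟨j.val, hj3⟩, hj2, ?_⟩
          exact (Fin.snoc_castSucc (α := fun _ => G) g y ⟨j.val, hj3⟩).symm
        · rintro ⟨j, hj, rfl⟩
          exact ⟨Fin.castSucc j, hj, by rw [Fin.snoc_castSucc]⟩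
      rw [h1]
      exact h.1 i
  · have h1 : (F ⊓ Subgroup.centralizer (Set.range (Fin.snoc (α := fun _ => G) y g)) : Subgroup G) ≤
        (F ⊓ Subgroup.centralizer (Set.range y)) ⊓ Subgroup.centralizer {g} := by
      refine le_inf (inf_le_inf le_rfl (Subgroup.centralizer_le ?_)) (inf_le_right.trans (Subgroup.centralizer_le ?_))
      · rintro _ ⟨j, rfl⟩
        exact ⟨Fin.castSucc j, by rw [Fin.snoc_castSucc]⟩
      · rintro _ rfl
        exact ⟨Fin.last q, by rw [Fin.snoc_last]⟩
    have h2 := Subgroup.card_le_of_le h1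
    calc p ^ (κ * (q + 1)) * Nat.card (F ⊓ Subgroup.centralizer (Set.range (Fin.snoc (α := fun _ => G) y g)) : Subgroup G)
        ≤ p ^ (κ * (q + 1)) * Nat.card ((F ⊓ Subgroup.centralizer (Set.range y)) ⊓ Subgroup.centralizer {g} : Subgroup G) :=
          Nat.mul_le_mul_left _ h2
      _ = p ^ (κ * q) * (p ^ κ * Nat.card ((F ⊓ Subgroup.centralizer (Set.range y)) ⊓ Subgroup.centralizer {g} : Subgroup G)) := by
          rw [mul_add, mul_one, pow_add, mul_assoc]
      _ ≤ p ^ (κ * q) * Nat.card (F ⊓ Subgroup.centralizer (Set.range y) : Subgroup G) := Nat.mul_le_mul_left _ hlt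
      _ ≤ p ^ r := h.2

theorem exists_max {G : Type*} [Group G] [Finite G] {p κ r : ℕ} (hp : p.Prime) (hκ : 1 ≤ κ) (F : Subgroup G)
    (hr : Nat.card F = p ^ r) : ∃ (q : ℕ) (y : Fin q → G), Adm p κ r F q y ∧
      ∀ y' : Fin (q + 1) → G, ¬ Adm p κ r F (q + 1) y' := by
  classical
  have hex : ∃ q, ¬ ∃ y : Fin q → G, Adm p κ r F q y := by
    refine ⟨r + 1, ?_⟩
    rintro ⟨y, hy⟩
    have h1 := adm_le hp F (r + 1) y hy
    nlinarith
  have h0 : Nat.find hex ≠ 0 := by
    intro h
    have h1 := Nat.find_spec hex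
    rw [h] at h1
    exact h1 ⟨_, adm_zero F hr⟩
  obtain ⟨q, hq⟩ : ∃ q, Nat.find hex = q + 1 := ⟨Nat.find hex - 1, by omega⟩
  have h1 := Nat.find_min hex (m := q) (by omega)
  have h2 := Nat.find_spec hex
  rw [hq] at h2
  push Not at h1 h2
  obtain ⟨y, hy⟩ := h1
  exact ⟨q, y, hy, h2⟩

end J_lemmaB


/-
PROOF OF THE TARGET.
Greedy choice. Call (q,y) admissible if the y i are independent modulo F (y i ∉ closure(y '' {j<i}) ⊔ F) and, with K_i = F ⊓ centralizer{y j : j<i},
|K_i| > p^κ |K_{i+1}| for each i<q. Then p^{κ q} |K_q| <= |F| = p^r, so q κ <= r; take an admissible (q,y) with q maximal (q <= r since κ >= 1).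
Let K3 = F ⊓ centralizer{y i}, H = closure(range y) ⊔ F. By maximality every g ∉ H has |K3| <= p^κ |K3 ⊓ C(g)|.
Claim: |K3| <= p^{2κ} |K3 ⊓ C(g)| for all g. If H = ⊤: nongen (L=⊤, D = closure(range y), F = PC p ⊤ ⊤) gives closure(range y) = ⊤, and K3 centralises y, so K3
is central, K3 ⊓ C(g) = K3. If H ≠ ⊤ and g ∉ H: clear. If g ∈ H pick x ∉ H; then g x ∉ H. With a = |K3 : K3 ⊓ C(x)| <= p^κ, b = |K3 : K3 ⊓ C(gx)| <= p^κ and
K3 ⊓ C(x) ⊓ C(gx) <= K3 ⊓ C(g) we get |K3 : K3 ⊓ C(g)| <= a b <= p^{2κ} (index of an intersection is at most the product of indices).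
Finally for K <= F commuting with all y i: K <= K3 and |K : K ⊓ C(g)| <= |K3 : K3 ⊓ C(g)| (relIndex monotonicity: cosets of K ⊓ C(g) in K inject into
cosets of K3 ⊓ C(g) in K3). (If it is convenient: index of K ⊓ C(g) in K = size of the orbit of g under conjugation by K = |{k g k⁻¹ : k in K}|, so it is
monotone in K.)
-/

/-- TARGET -/
theorem lemmaB {G : Type*} [Group G] [Finite G] {p : ℕ} [Fact p.Prime] (hG : IsPGroup p G)
    (F : Subgroup G) (hF : F = PC p ⊤ ⊤) (r κ : ℕ) (hκ : 1 ≤ κ) (hr : Nat.card F = p ^ r) :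
    ∃ (q : ℕ) (y : Fin q → G), q * κ ≤ r ∧
      (∀ i : Fin q, y i ∉ Subgroup.closure (y '' {j | j < i}) ⊔ F) ∧
      ∀ K : Subgroup G, K ≤ F → (∀ k ∈ K, ∀ i, Commute k (y i)) → ∀ g : G,
        Nat.card K ≤ p ^ (2 * κ) * Nat.card (K ⊓ Subgroup.centralizer {g} : Subgroup G) := by
  have hp : p.Prime := Fact.out
  obtain ⟨q, y, hy, hmax⟩ := J_lemmaB.exists_max hp hκ F hr
  refine ⟨q, y, J_lemmaB.adm_le hp F q y hy, hy.1, ?_⟩
  set K₃ : Subgroup G := F ⊓ Subgroup.centralizer (Set.range y) with hK3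
  have hout : ∀ g, g ∉ Subgroup.closure (Set.range y) ⊔ F →
      (Subgroup.centralizer {g}).relIndex K₃ ≤ p ^ κ := by
    intro g hg
    rw [← J_lemmaB.le_iff]
    by_contra hcon
    push Not at hcon
    exact hmax _ (J_lemmaB.adm_succ F q y hy g hg hcon.le)
  have hpk : 1 ≤ p ^ (2 * κ) := Nat.one_le_pow _ _ hp.pos
  have hpk' : p ^ κ ≤ p ^ (2 * κ) := Nat.pow_le_pow_right hp.pos (by omega)
  have hall : ∀ g, (Subgroup.centralizer {g}).relIndex K₃ ≤ p ^ (2 * κ) := by
    intro g
    by_cases hH : Subgroup.closure (Set.range y) ⊔ F = ⊤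
    · have h1 : (⊤ : Subgroup G) ≤ Subgroup.closure (Set.range y) := by
        apply nongen hG ⊤ (Subgroup.closure (Set.range y)) le_top
        rw [← hF, hH]
      have h2 : K₃ ≤ Subgroup.centralizer {g} := by
        have h3 : K₃ ≤ Subgroup.centralizer ((Subgroup.closure (Set.range y) : Subgroup G) : Set G) := by
          rw [Subgroup.centralizer_closure]
          exact inf_le_right
        refine h3.trans (Subgroup.centralizer_le ?_)
        exact Set.singleton_subset_iff.2 (h1 (Subgroup.mem_top g))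
      rw [Subgroup.relIndex_eq_one.2 h2]
      exact hpk
    · by_cases hg : g ∈ Subgroup.closure (Set.range y) ⊔ F
      · obtain ⟨x, hx⟩ : ∃ x, x ∉ Subgroup.closure (Set.range y) ⊔ F := by
          by_contra hcon
          push Not at hcon
          exact hH (top_le_iff.1 (fun z _ => hcon z))
        have hgx : g * x ∉ Subgroup.closure (Set.range y) ⊔ F := by
          intro h
          apply hx
          have := (Subgroup.closure (Set.range y) ⊔ F).mul_mem ((Subgroup.closure (Set.range y) ⊔ F).inv_mem hg) h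
          rwa [inv_mul_cancel_left] at this
        have h1 := hout x hx
        have h2 := hout (g * x) hgx
        have h3 : Subgroup.centralizer {x} ⊓ Subgroup.centralizer {g * x} ≤ Subgroup.centralizer {g} := by
          intro k hk
          have h4 := Subgroup.mem_centralizer_singleton_iff.1 hk.1
          have h5 := Subgroup.mem_centralizer_singleton_iff.1 hk.2
          rw [Subgroup.mem_centralizer_singleton_iff]
          have h6 : (k * g) * x = (g * k) * x := by
            calc (k * g) * x = k * (g * x) := mul_assoc _ _ _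
              _ = (g * x) * k := h5
              _ = g * (x * k) := mul_assoc _ _ _
              _ = g * (k * x) := by rw [h4]
              _ = (g * k) * x := (mul_assoc _ _ _).symm
          exact mul_right_cancel h6
        calc (Subgroup.centralizer {g}).relIndex K₃
            ≤ (Subgroup.centralizer {x} ⊓ Subgroup.centralizer {g * x}).relIndex K₃ :=
              Subgroup.relIndex_le_of_le_left h3 (J_lemmaB.relIndex_pos _ _)
          _ ≤ (Subgroup.centralizer {x}).relIndex K₃ * (Subgroup.centralizer {g * x}).relIndex K₃ :=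
              Subgroup.relIndex_inf_le
          _ ≤ p ^ κ * p ^ κ := Nat.mul_le_mul h1 h2
          _ = p ^ (2 * κ) := by rw [← pow_add, two_mul]
      · exact (hout g hg).trans hpk'
  intro K hKF hKy g
  rw [J_lemmaB.le_iff]
  have hKK : K ≤ K₃ := by
    refine le_inf hKF ?_
    intro k hk
    rw [Subgroup.mem_centralizer_iff]
    rintro _ ⟨i, rfl⟩
    exact (hKy k hk i).eq.symm
  exact (Subgroup.relIndex_le_of_le_right hKK (J_lemmaB.relIndex_pos _ _)).trans (hall g)

end Pool.Agent.Helper252_Enum
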