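import Pool.Agent.Helper252_Enum.P5_card_closure

set_option autoImplicit false

open scoped commutatorElement

namespace Pool.Agent.Helper252_Enum

/-
PROOF OF THE TARGET.
G/F is elementary abelian of order p^m (commutators and p-th powers lie in F); so it is an F_p-vector space of dimension m. The images of y_0..y_{q-1}
are linearly independent (condition hy: y i not in the span of the previous ones). Extend first by elements of U: a maximal independent subset of
{y_i} ∪ U containing the y_i spans the same as {y_i} ∪ U and has at most q + |U| members; extend further to a basis; it has m members; index it by Fin m;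
Y = indices of the members coming from {y_i} ∪ U. Lift: use y_i resp. u themselves as the lifts, arbitrary lifts for the others.
Alternatively purely with subgroups: call x : Fin k -> G independent if x i ∉ closure(x '' {j<i}) ⊔ F; each independent step multiplies the order of
closure(..) ⊔ F exactly by p (card_closure_sup_le / index p since x^p, commutators in F), so k <= m and k = m iff closure ⊔ F = ⊤; extend
greedily first by elements of U not yet in closure ⊔ F, then by any elements, until m members are reached. Note q <= m follows.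
-/

namespace J_basis_choice

variable {G : Type*} [Group G]

/-- The subgroup generated by the members of a list and `F`. -/
def SL (F : Subgroup G) (l : List G) : Subgroup G := Subgroup.closure {g | g ∈ l} ⊔ F

/-- Independent lists. -/
def Ind (F : Subgroup G) : List G → Prop
  | [] => True
  | a :: l => a ∉ SL F l ∧ Ind F l

theorem F_le (F : Subgroup G) (l : List G) : F ≤ SL F l := le_sup_right

theorem mem_SL (F : Subgroup G) {l : List G} {g : G} (hg : g ∈ l) : g ∈ SL F l :=
  (le_sup_left : Subgroup.closure {g | g ∈ l} ≤ SL F l) (Subgroup.subset_closure hg)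

theorem SL_mono (F : Subgroup G) {l l' : List G} (h : ∀ g ∈ l, g ∈ l') : SL F l ≤ SL F l' :=
  sup_le_sup_right (Subgroup.closure_mono h) F

theorem card_SL [Finite G] {p : ℕ} [hp : Fact p.Prime] (F : Subgroup G)
    (hcomm : ∀ g h : G, ⁅g, h⁆ ∈ F) (hpow : ∀ g : G, g ^ p ∈ F) (m r : ℕ)
    (hr : Nat.card F = p ^ r) (hm : Nat.card G = p ^ (m + r)) :
    ∀ l : List G, Ind F l → Nat.card (SL F l) = p ^ (l.length + r) := by
  intro l
  induction l with
  | nil =>
    intro _
    have : SL F ([] : List G) = F := by simp [SL]
    rw [this, hr]; simp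
  | cons a l ih =>
    rintro ⟨ha, hl⟩
    have ih' := ih hl
    have hle : SL F l ≤ SL F (a :: l) := SL_mono F (fun g hg => List.mem_cons_of_mem a hg)
    have haM : a ∈ SL F (a :: l) := mem_SL F List.mem_cons_self
    have h1 : Nat.card (SL F (a :: l)) ≤ p * Nat.card (SL F l) := by
      have := card_closure_sup_le hp.out.pos (SL F l) (fun _ : Unit => a) Finset.univ
        (by
          intro _ _ h hh
          have e : a * h * a⁻¹ = ⁅a, h⁆ * h := by rw [commutatorElement_def]; group
          rw [e]
          exact (SL F l).mul_mem (F_le F l (hcomm _ _)) hh)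
        (fun _ _ => F_le F l (hpow _)) (fun _ _ _ _ => F_le F l (hcomm _ _))
      rw [Finset.card_univ, Fintype.card_unit, pow_one] at this
      refine le_trans ?_ this
      apply Subgroup.card_le_of_le
      refine sup_le ?_ ((F_le F l).trans le_sup_right)
      rw [Subgroup.closure_le]
      intro g hg
      rcases List.mem_cons.mp hg with rfl | hg
      · exact Subgroup.mem_sup_left (Subgroup.subset_closure ⟨(), by simp, rfl⟩)
      · exact Subgroup.mem_sup_right (mem_SL F hg)
    have hne : SL F l ≠ SL F (a :: l) := fun e => ha (e ▸ haM)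
    have hlt : SL F l < SL F (a :: l) := lt_of_le_of_ne hle hne
    have h2 : Nat.card (SL F l) < Nat.card (SL F (a :: l)) := by
      refine lt_of_le_of_ne (Subgroup.card_le_of_le hle) ?_
      intro e
      exact hne (Subgroup.eq_of_le_of_card_ge hle e.ge)
    have h3 : Nat.card (SL F (a :: l)) ∣ p ^ (m + r) := by
      rw [← hm]; exact Subgroup.card_subgroup_dvd_card _
    obtain ⟨k, _, hk⟩ := (Nat.dvd_prime_pow hp.out).mp h3
    rw [hk, ih'] at h2
    rw [hk, ih'] at h1
    have h4 : l.length + r < k := (Nat.pow_lt_pow_iff_right hp.out.one_lt).mp h2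
    have h5 : p * p ^ (l.length + r) = p ^ (l.length + r + 1) := by rw [pow_succ]; ring
    rw [h5] at h1
    have h6 : k ≤ l.length + r + 1 := (Nat.pow_le_pow_iff_right hp.out.one_lt).mp h1
    have h7 : k = l.length + r + 1 := by omega
    rw [hk, h7, List.length_cons]
    congr 1
    omega

theorem extend_U (F : Subgroup G) [DecidableEq G] (l : List G) (hl : Ind F l) (U : Finset G) :
    ∃ l' : List G, Ind F (l' ++ l) ∧ l'.length ≤ U.card ∧ ∀ u ∈ U, u ∈ SL F (l' ++ l) := by
  induction U using Finset.induction_on with
  | empty => exact ⟨[], by simpa using hl, by simp, by simp⟩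
  | insert u U hu ih =>
    obtain ⟨l', h1, h2, h3⟩ := ih
    by_cases hc : u ∈ SL F (l' ++ l)
    · refine ⟨l', h1, ?_, ?_⟩
      · rw [Finset.card_insert_of_notMem hu]; omega
      · intro v hv
        rcases Finset.mem_insert.mp hv with rfl | hv
        · exact hc
        · exact h3 v hv
    · refine ⟨u :: l', ?_, ?_, ?_⟩
      · exact ⟨hc, h1⟩
      · rw [Finset.card_insert_of_notMem hu, List.length_cons]; omega
      · intro v hv
        rcases Finset.mem_insert.mp hv with rfl | hv
        · exact mem_SL F (by simp)
        · exact SL_mono F (fun g hg => by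
            rw [List.cons_append]; exact List.mem_cons_of_mem _ hg) (h3 v hv)

theorem extend_m [Finite G] {p : ℕ} [hp : Fact p.Prime] (F : Subgroup G)
    (hcomm : ∀ g h : G, ⁅g, h⁆ ∈ F) (hpow : ∀ g : G, g ^ p ∈ F) (m r : ℕ)
    (hr : Nat.card F = p ^ r) (hm : Nat.card G = p ^ (m + r)) (l : List G) (hl : Ind F l) (d : ℕ)
    (hd : l.length + d = m) : ∃ l' : List G, Ind F (l' ++ l) ∧ (l' ++ l).length = m := by
  induction d generalizing l with
  | zero => exact ⟨[], by simpa using hl, by simpa using hd⟩
  | succ d ih =>
    have hne : SL F l ≠ ⊤ := by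
      intro e
      have h1 := card_SL F hcomm hpow m r hr hm l hl
      rw [e, Subgroup.card_top, hm] at h1
      have := Nat.pow_right_injective hp.out.two_le h1
      omega
    obtain ⟨g, hg⟩ : ∃ g, g ∉ SL F l := by
      by_contra hcon
      push Not at hcon
      exact hne ((Subgroup.eq_top_iff' _).mpr hcon)
    obtain ⟨l', h1, h2⟩ := ih (g :: l) ⟨hg, hl⟩ (by rw [List.length_cons]; omega)
    refine ⟨l' ++ [g], ?_, ?_⟩
    · simpa using h1
    · simpa using h2

theorem ind_ofFn (F : Subgroup G) : ∀ (q : ℕ) (y : Fin q → G),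
    (∀ i : Fin q, y i ∉ Subgroup.closure (y '' {j | j < i}) ⊔ F) →
    Ind F (List.ofFn y).reverse := by
  intro q
  induction q with
  | zero => intro y _; simp [Ind]
  | succ q ih =>
    intro y hy
    rw [List.ofFn_succ_last, List.reverse_append, List.reverse_singleton, List.singleton_append]
    refine ⟨?_, ih _ ?_⟩
    · intro hmem
      apply hy (Fin.last q)
      refine sup_le_sup_right (Subgroup.closure_mono ?_) F hmem
      intro g hg
      simp only [Set.mem_ofPred_eq, List.mem_reverse, List.mem_ofFn] at hg
      obtain ⟨i, rfl⟩ := hg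
      exact ⟨i.castSucc, Fin.castSucc_lt_last i, rfl⟩
    · intro i hmem
      apply hy i.castSucc
      refine sup_le_sup_right (Subgroup.closure_mono ?_) F hmem
      rintro g ⟨j, hj, rfl⟩
      exact ⟨j.castSucc, by simpa using hj, rfl⟩

end J_basis_choice

/-- TARGET -/
theorem basis_choice {G : Type*} [Group G] [Finite G] {p : ℕ} [Fact p.Prime] (F : Subgroup G)
    [F.Normal] (hcomm : ∀ g h : G, ⁅g, h⁆ ∈ F) (hpow : ∀ g : G, g ^ p ∈ F) (m r : ℕ)
    (hr : Nat.card F = p ^ r) (hm : Nat.card G = p ^ (m + r)) (q : ℕ) (y : Fin q → G)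
    (hy : ∀ i : Fin q, y i ∉ Subgroup.closure (y '' {j | j < i}) ⊔ F) (U : Finset G) :
    ∃ (x : Fin m → G) (Y : Finset (Fin m)), Y.card ≤ q + U.card ∧
      Subgroup.closure (Set.range x) ⊔ F = ⊤ ∧ (∀ i, ∃ j ∈ Y, x j = y i) ∧
      (∀ u ∈ U, u ∈ Subgroup.closure (x '' (Y : Set (Fin m))) ⊔ F) := by
  classical
  have hp : p.Prime := Fact.out
  have h0 := J_basis_choice.ind_ofFn F q y hy
  obtain ⟨l1, h1, h1c, h1U⟩ := J_basis_choice.extend_U F _ h0 U
  set M : List G := l1 ++ (List.ofFn y).reverse with hM
  have hMlen : M.length ≤ m := by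
    have h2 := J_basis_choice.card_SL F hcomm hpow m r hr hm M h1
    have h3 : p ^ (M.length + r) ∣ p ^ (m + r) := by
      rw [← h2, ← hm]; exact Subgroup.card_subgroup_dvd_card _
    have := (Nat.pow_dvd_pow_iff_le_right hp.one_lt).mp h3
    omega
  obtain ⟨l2, h2, h2l⟩ := J_basis_choice.extend_m F hcomm hpow m r hr hm M h1 (m - M.length)
    (by omega)
  set L : List G := l2 ++ M with hL
  have hLM : l2.length + M.length = m := by
    have := h2l
    rw [hL, List.length_append] at this
    exact this
  let x : Fin m → G := fun i => L[(i : ℕ)]'(by rw [h2l]; exact i.2)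
  let Y : Finset (Fin m) := Finset.univ.image
    (fun k : Fin M.length => (⟨l2.length + k, by have := k.2; omega⟩ : Fin m))
  have hY : ∀ g ∈ M, ∃ j ∈ Y, x j = g := by
    intro g hg
    obtain ⟨k, hk, rfl⟩ := List.mem_iff_getElem.mp hg
    refine ⟨⟨l2.length + k, by omega⟩, Finset.mem_image.mpr ⟨⟨k, hk⟩, Finset.mem_univ _, rfl⟩, ?_⟩
    show L[l2.length + k]'_ = M[k]
    simp only [hL]
    rw [List.getElem_append_right (by omega)]
    congr 1
    omega
  have htop : J_basis_choice.SL F L = ⊤ := by
    have h3 := J_basis_choice.card_SL F hcomm hpow m r hr hm L h2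
    rw [h2l, ← hm] at h3
    exact Subgroup.eq_top_of_card_eq _ h3
  refine ⟨x, Y, ?_, ?_, ?_, ?_⟩
  · refine Finset.card_image_le.trans ?_
    rw [Finset.card_univ, Fintype.card_fin, hM, List.length_append, List.length_reverse,
      List.length_ofFn]
    omega
  · rw [eq_top_iff, ← htop]
    refine sup_le_sup_right (Subgroup.closure_mono ?_) F
    intro g hg
    obtain ⟨k, hk, rfl⟩ := List.mem_iff_getElem.mp hg
    exact ⟨⟨k, by rw [← h2l]; exact hk⟩, rfl⟩
  · intro i
    exact hY (y i) (by
      rw [hM, List.mem_append, List.mem_reverse]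
      right
      rw [List.mem_ofFn]
      exact ⟨i, rfl⟩)
  · intro u hu
    refine sup_le_sup_right (Subgroup.closure_mono ?_) F (h1U u hu)
    intro g hg
    obtain ⟨j, hj, hjg⟩ := hY g hg
    exact ⟨j, hj, hjg⟩

end Pool.Agent.Helper252_Enum
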