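import Pool.Agent.Helper252_Enum.Defs

/-!
# Elementary facts on chains and digits
-/

set_option autoImplicit false

open scoped commutatorElement

namespace Pool.Agent.Helper252_Enum

section
variable {G : Type*} [Group G]

theorem Sp_mono (f : ℕ → G) {j k : ℕ} (h : j ≤ k) : Sp f j ≤ Sp f k :=
  Subgroup.closure_mono (Set.image_mono (Set.Iio_subset_Iio h))

theorem mem_Sp_of_lt (f : ℕ → G) {j k : ℕ} (h : j < k) : f j ∈ Sp f k :=
  Subgroup.subset_closure ⟨j, h, rfl⟩

theorem Sp_zero (f : ℕ → G) : Sp f 0 = ⊥ := by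
  simp [Sp]

theorem Sp_succ (f : ℕ → G) (k : ℕ) : Sp f (k + 1) = Subgroup.closure {f k} ⊔ Sp f k := by
  unfold Sp
  rw [← Subgroup.closure_union]
  congr 1
  ext y
  simp only [Set.mem_image, Set.mem_Iio, Set.mem_union, Set.mem_singleton_iff]
  constructor
  · rintro ⟨j, hj, rfl⟩
    rcases Nat.lt_succ_iff_lt_or_eq.mp hj with h | h
    · exact Or.inr ⟨j, h, rfl⟩
    · left; rw [h]
  · rintro (h | ⟨j, hj, rfl⟩)
    · exact ⟨k, Nat.lt_succ_self k, h.symm⟩
    · exact ⟨j, Nat.lt_succ_of_lt hj, rfl⟩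

theorem nf_mem (f : ℕ → G) (a : ℕ → ℕ) (k : ℕ) : nf f a k ∈ Sp f k := by
  induction k with
  | zero => exact Subgroup.one_mem _
  | succ k ih =>
    exact Subgroup.mul_mem _ (Subgroup.pow_mem _ (mem_Sp_of_lt f (Nat.lt_succ_self k)) _)
      (Sp_mono f (Nat.le_succ k) ih)

theorem nf_congr (f : ℕ → G) (a b : ℕ → ℕ) (k : ℕ) (h : ∀ j, j < k → a j = b j) :
    nf f a k = nf f b k := by
  induction k with
  | zero => rfl
  | succ k ih =>
    simp only [nf]
    rw [h k (Nat.lt_succ_self k), ih (fun j hj => h j (Nat.lt_succ_of_lt hj))]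

theorem nf_eq_of_zero (f : ℕ → G) (a : ℕ → ℕ) {k r : ℕ} (hkr : k ≤ r)
    (h : ∀ j, k ≤ j → j < r → a j = 0) : nf f a r = nf f a k := by
  induction r, hkr using Nat.le_induction with
  | base => rfl
  | succ r hr ih =>
    simp only [nf]
    rw [h r hr (Nat.lt_succ_self r), pow_zero, one_mul]
    exact ih (fun j h1 h2 => h j h1 (Nat.lt_succ_of_lt h2))

theorem nf_pair {G' : Type*} [Group G'] (f : ℕ → G) (f' : ℕ → G') (a : ℕ → ℕ) (k : ℕ) :
    nf (fun i => (f i, f' i)) a k = (nf f a k, nf f' a k) := by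
  induction k with
  | zero => rfl
  | succ k ih => simp only [nf, ih]; rfl

end

namespace Chain
variable {G : Type*} [Group G] {p r : ℕ} {f : ℕ → G}

theorem normal (hf : Chain p r f) {k : ℕ} (hk : k ≤ r) : (Sp f k).Normal := by
  constructor
  intro n hn g
  induction hn using Subgroup.closure_induction with
  | mem x hx =>
    obtain ⟨j, hj, rfl⟩ := hx
    have h1 : ⁅f j, g⁆ ∈ Sp f k := Sp_mono f (le_of_lt hj) (hf.central j (lt_of_lt_of_le hj hk) g)
    have h2 : g * f j * g⁻¹ = ⁅f j, g⁆⁻¹ * f j := by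
      rw [commutatorElement_def]; group
    rw [h2]
    exact Subgroup.mul_mem _ (Subgroup.inv_mem _ h1) (mem_Sp_of_lt f hj)
  | one => simp
  | mul x y _ _ hx hy =>
    have : g * (x * y) * g⁻¹ = (g * x * g⁻¹) * (g * y * g⁻¹) := by group
    rw [this]; exact Subgroup.mul_mem _ hx hy
  | inv x _ hx =>
    have : g * x⁻¹ * g⁻¹ = (g * x * g⁻¹)⁻¹ := by group
    rw [this]; exact Subgroup.inv_mem _ hx

theorem not_mem (hf : Chain p r f) (hp : p.Prime) {k : ℕ} (hk : k < r) : f k ∉ Sp f k := by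
  intro h
  have h1 : Sp f (k + 1) = Sp f k := by
    rw [Sp_succ, sup_eq_right, Subgroup.closure_le]
    simpa using h
  have h2 := hf.card (k + 1) hk
  rw [h1, hf.card k hk.le] at h2
  have := Nat.pow_right_injective hp.two_le h2
  omega

theorem pow_mem (hf : Chain p r f) (hp : p.Prime) {k : ℕ} (hk : k < r) : f k ^ p ∈ Sp f k := by
  have hn := hf.normal hk.le
  have hle : Sp f k ≤ Sp f (k + 1) := Sp_mono f (Nat.le_succ k)
  have hidx : (Sp f k).relIndex (Sp f (k + 1)) = p := by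
    have h1 := Subgroup.card_mul_index ((Sp f k).subgroupOf (Sp f (k + 1)))
    have h2 : Nat.card ((Sp f k).subgroupOf (Sp f (k + 1))) = p ^ k := by
      rw [← hf.card k hk.le]
      exact Nat.card_congr (Subgroup.subgroupOfEquivOfLe hle).toEquiv
    rw [h2, hf.card (k + 1) hk, pow_succ] at h1
    exact Nat.eq_of_mul_eq_mul_left (pow_pos hp.pos k) h1
  have h3 := Subgroup.pow_index_mem ((Sp f k).subgroupOf (Sp f (k + 1)))
    ⟨f k, mem_Sp_of_lt f (Nat.lt_succ_self k)⟩
  have h4 : ((Sp f k).subgroupOf (Sp f (k + 1))).index = p := hidx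
  rw [h4] at h3
  simpa [Subgroup.mem_subgroupOf] using h3

theorem pow_mem_iff (hf : Chain p r f) (hp : p.Prime) {k : ℕ} (hk : k < r) (z : ℤ) :
    f k ^ z ∈ Sp f k ↔ (p : ℤ) ∣ z := by
  constructor
  · intro h
    by_contra hd
    have hcop : IsCoprime (p : ℤ) z := by
      rw [Int.isCoprime_iff_gcd_eq_one]
      have : Int.gcd p z = Nat.gcd p z.natAbs := by simp [Int.gcd]
      rw [this]
      refine (Nat.Prime.coprime_iff_not_dvd hp).mpr ?_
      intro h2
      exact hd (Int.natCast_dvd.mpr h2)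
    obtain ⟨u, v, huv⟩ := hcop
    apply hf.not_mem hp hk
    have h1 : f k = (f k ^ (p : ℤ)) ^ u * (f k ^ z) ^ v := by
      rw [← zpow_mul, ← zpow_mul, ← zpow_add]
      have : (p : ℤ) * u + z * v = 1 := by linarith [huv, mul_comm u (p : ℤ), mul_comm v z]
      rw [this, zpow_one]
    rw [h1]
    refine Subgroup.mul_mem _ (Subgroup.zpow_mem _ ?_ _) (Subgroup.zpow_mem _ h _)
    rw [zpow_natCast]
    exact hf.pow_mem hp hk
  · rintro ⟨c, rfl⟩
    rw [zpow_mul, zpow_natCast]
    exact Subgroup.zpow_mem _ (hf.pow_mem hp hk) _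

theorem exists_nf (hf : Chain p r f) (hp : p.Prime) {k : ℕ} (hk : k ≤ r) {h : G}
    (hh : h ∈ Sp f k) :
    ∃ a : ℕ → ℕ, (∀ j, a j < p) ∧ (∀ j, k ≤ j → a j = 0) ∧ h = nf f a k := by
  induction k generalizing h with
  | zero =>
    refine ⟨fun _ => 0, fun _ => hp.pos, fun _ _ => rfl, ?_⟩
    rw [Sp_zero, Subgroup.mem_bot] at hh
    rw [hh]; rfl
  | succ k ih =>
    have hkr : k < r := hk
    have hn := hf.normal hkr.le
    rw [Sp_succ] at hh
    rw [← SetLike.mem_coe, Subgroup.mul_normal] at hh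
    obtain ⟨u, hu, v, hv, rfl⟩ := Set.mem_mul.mp hh
    rw [SetLike.mem_coe, Subgroup.mem_closure_singleton] at hu
    obtain ⟨z, rfl⟩ := hu
    have hp0 : (p : ℤ) ≠ 0 := by exact_mod_cast hp.ne_zero
    have h1 : f k ^ z = f k ^ (z % p).toNat * (f k ^ ((p : ℤ) * (z / p))) := by
      have h2 : (((z % p).toNat : ℕ) : ℤ) = z % p := Int.toNat_of_nonneg (Int.emod_nonneg z hp0)
      rw [← zpow_natCast, h2, ← zpow_add]
      congr 1
      have := Int.emod_add_mul_ediv z p
      linarith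
    have h3 : f k ^ ((p : ℤ) * (z / p)) * v ∈ Sp f k :=
      Subgroup.mul_mem _ ((hf.pow_mem_iff hp hkr _).mpr (dvd_mul_right _ _)) hv
    obtain ⟨a, ha1, ha2, ha3⟩ := ih hkr.le h3
    refine ⟨fun j => if j = k then (z % p).toNat else a j, ?_, ?_, ?_⟩
    · intro j
      by_cases hj : j = k
      · simp only [hj, if_true]
        have h5 := Int.emod_lt_of_pos z (by exact_mod_cast hp.pos : (0 : ℤ) < p)
        have h6 := Int.emod_nonneg z hp0
        omega
      · simp only [hj, if_false]; exact ha1 j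
    · intro j hj
      have : j ≠ k := by omega
      simp only [this, if_false]
      exact ha2 j (by omega)
    · simp only [nf, if_true]
      rw [h1, mul_assoc, ha3]
      congr 1
      apply nf_congr
      intro j hj
      have : j ≠ k := by omega
      simp [this]

/-- Normal forms agree above `k` iff they agree modulo `Sp f k`. -/
theorem nf_coset (hf : Chain p r f) (hp : p.Prime) (a b : ℕ → ℕ) (ha : ∀ j, a j < p)
    (hb : ∀ j, b j < p) {k t : ℕ} (hkt : k ≤ t) (ht : t ≤ r) :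
    (nf f a t)⁻¹ * nf f b t ∈ Sp f k ↔ ∀ j, k ≤ j → j < t → a j = b j := by
  induction t, hkt using Nat.le_induction with
  | base =>
    constructor
    · intro _ j h1 h2; omega
    · intro _
      exact Subgroup.mul_mem _ (Subgroup.inv_mem _ (nf_mem f a k)) (nf_mem f b k)
  | succ t hkt ih =>
    have htr : t < r := ht
    have key : (nf f a (t + 1))⁻¹ * nf f b (t + 1) =
        (nf f a t)⁻¹ * (f t ^ ((b t : ℤ) - a t)) * nf f b t := by
      simp only [nf]
      rw [zpow_sub, zpow_natCast, zpow_natCast]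
      have hc : f t ^ b t * (f t ^ a t)⁻¹ = (f t ^ a t)⁻¹ * f t ^ b t := by
        have : Commute (f t ^ b t) ((f t ^ a t)⁻¹) :=
          ((Commute.refl (f t)).pow_pow (b t) (a t)).inv_right
        exact this.eq
      rw [hc]; group
    have hstep : (nf f a (t + 1))⁻¹ * nf f b (t + 1) ∈ Sp f k → a t = b t := by
      intro h
      rw [key] at h
      have h1 : (f t ^ ((b t : ℤ) - a t)) ∈ Sp f t := by
        have h2 := Subgroup.mul_mem _ (Subgroup.mul_mem _ (nf_mem f a t) (Sp_mono f hkt h))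
          (Subgroup.inv_mem _ (nf_mem f b t))
        have h3 : nf f a t * ((nf f a t)⁻¹ * (f t ^ ((b t : ℤ) - a t)) * nf f b t) *
            (nf f b t)⁻¹ = f t ^ ((b t : ℤ) - a t) := by group
        rwa [h3] at h2
      rw [hf.pow_mem_iff hp htr] at h1
      have h4 := ha t
      have h5 := hb t
      obtain ⟨c, hc⟩ := h1
      have h6 : c = 0 := by
        by_contra h7
        rcases lt_or_gt_of_ne h7 with h8 | h8
        · have : (p : ℤ) * c ≤ p * (-1) := mul_le_mul_of_nonneg_left (by omega) (by omega)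
          omega
        · have : (p : ℤ) * 1 ≤ p * c := mul_le_mul_of_nonneg_left (by omega) (by omega)
          omega
      rw [h6] at hc
      omega
    constructor
    · intro h j h1 h2
      have hab := hstep h
      rcases Nat.lt_succ_iff_lt_or_eq.mp h2 with h3 | h3
      · refine (ih htr.le).mp ?_ j h1 h3
        rw [key, hab] at h
        simpa using h
      · rw [h3]; exact hab
    · intro h
      rw [key, h t hkt (Nat.lt_succ_self t)]
      simp only [sub_self, zpow_zero, mul_one]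
      exact (ih htr.le).mpr (fun j h1 h2 => h j h1 (Nat.lt_succ_of_lt h2))

theorem dig_spec (hf : Chain p r f) (hp : p.Prime) {h : G} (hh : h ∈ Sp f r) :
    (∀ j, dig p r f h j < p) ∧ (∀ j, r ≤ j → dig p r f h j = 0) ∧ h = nf f (dig p r f h) r := by
  have H : ∃ a : ℕ → ℕ, (∀ j, a j < p) ∧ (∀ j, r ≤ j → a j = 0) ∧ h = nf f a r :=
    hf.exists_nf hp le_rfl hh
  unfold dig
  rw [dif_pos H]
  exact Classical.choose_spec H

theorem dig_nf (hf : Chain p r f) (hp : p.Prime) (a : ℕ → ℕ) (ha : ∀ j, a j < p) (j : ℕ)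
    (hj : j < r) : dig p r f (nf f a r) j = a j := by
  obtain ⟨h1, h2, h3⟩ := hf.dig_spec hp (nf_mem f a r)
  have h4 := (hf.nf_coset hp a (dig p r f (nf f a r)) ha h1 (Nat.zero_le r) le_rfl).mp
    (by rw [← h3]; simp)
  exact (h4 j (Nat.zero_le j) hj).symm

theorem mem_Sp_iff (hf : Chain p r f) (hp : p.Prime) {h : G} (hh : h ∈ Sp f r) {k : ℕ}
    (hk : k ≤ r) : h ∈ Sp f k ↔ ∀ j, k ≤ j → dig p r f h j = 0 := by
  obtain ⟨h1, h2, h3⟩ := hf.dig_spec hp hh
  constructor
  · intro hm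
    have h4 := (hf.nf_coset hp (fun _ => 0) (dig p r f h) (fun _ => hp.pos) h1 hk le_rfl).mp (by
      rw [← h3]
      refine Subgroup.mul_mem _ (Subgroup.inv_mem _ ?_) hm
      rw [nf_eq_of_zero f (fun _ => 0) (Nat.zero_le r) (fun _ _ _ => rfl)]
      exact Subgroup.one_mem _)
    intro j hj
    rcases lt_or_ge j r with h5 | h5
    · exact (h4 j hj h5).symm
    · exact h2 j h5
  · intro hz
    rw [h3, nf_eq_of_zero f _ hk (fun j h4 _ => hz j h4)]
    exact nf_mem f _ k

theorem pair_mem {G' : Type*} [Group G'] {f' : ℕ → G'} (hf : Chain p r f) (hf' : Chain p r f')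
    (hp : p.Prime) {h : G} {h' : G'} {k : ℕ} (hk : k ≤ r) (hh : h ∈ Sp f k) (hh' : h' ∈ Sp f' k)
    (heq : ∀ j, j < k → dig p r f h j = dig p r f' h' j) :
    (h, h') ∈ Sp (fun i => (f i, f' i)) k := by
  have a1 := hf.dig_spec hp (Sp_mono f hk hh)
  have a2 := hf'.dig_spec hp (Sp_mono f' hk hh')
  have b1 := (hf.mem_Sp_iff hp (Sp_mono f hk hh) hk).mp hh
  have b2 := (hf'.mem_Sp_iff hp (Sp_mono f' hk hh') hk).mp hh'
  have e1 : h = nf f (dig p r f h) k := by
    conv_lhs => rw [a1.2.2]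
    exact nf_eq_of_zero f _ hk (fun j h4 _ => b1 j h4)
  have e2 : h' = nf f' (dig p r f h) k := by
    conv_lhs => rw [a2.2.2]
    rw [nf_eq_of_zero f' _ hk (fun j h4 _ => b2 j h4)]
    exact nf_congr f' _ _ k (fun j hj => (heq j hj).symm)
  have : (h, h') = nf (fun i => (f i, f' i)) (dig p r f h) k := by
    rw [nf_pair, ← e1, ← e2]
  rw [this]
  exact nf_mem _ _ k

end Chain

end Pool.Agent.Helper252_Enum
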