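import Mathlib

/-!
# Definitions for the upper bound on the number of groups of order p^n
-/

set_option autoImplicit false

open scoped commutatorElement

namespace Pool.Agent.Helper252_Enum

/-- The subgroup generated by the first `k` members of a sequence. -/
def Sp {G : Type*} [Group G] (f : ℕ → G) (k : ℕ) : Subgroup G :=
  Subgroup.closure (f '' Set.Iio k)

/-- Normal form product `f (k-1) ^ a (k-1) * ... * f 0 ^ a 0`. -/
def nf {G : Type*} [Group G] (f : ℕ → G) (a : ℕ → ℕ) : ℕ → G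
  | 0 => 1
  | k + 1 => f k ^ a k * nf f a k

/-- The subgroup generated by the commutators `⁅a, b⁆` with `a ∈ A`, `b ∈ B` and the `p`-th powers
of the elements of `A`.  `PC p ⊤ ⊤` is the Frattini subgroup of a finite `p`-group. -/
def PC {G : Type*} [Group G] (p : ℕ) (A B : Subgroup G) : Subgroup G :=
  Subgroup.closure ({x | ∃ a ∈ A, ∃ b ∈ B, x = ⁅a, b⁆} ∪ {x | ∃ a ∈ A, x = a ^ p})

/-- `f 0, ..., f (r-1)` is adapted to a chief series: `Sp f k` has order `p^k` and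
`f k` is central modulo `Sp f k`. -/
structure Chain {G : Type*} [Group G] (p r : ℕ) (f : ℕ → G) : Prop where
  card : ∀ k, k ≤ r → Nat.card (Sp f k) = p ^ k
  central : ∀ k, k < r → ∀ g : G, ⁅f k, g⁆ ∈ Sp f k

/-- A central series of subgroups with factors of order `p`. -/
structure Series {G : Type*} [Group G] (p r : ℕ) (N : ℕ → Subgroup G) : Prop where
  card : ∀ k, k ≤ r → Nat.card (N k) = p ^ k
  mono : ∀ k, k < r → N k ≤ N (k + 1)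
  central : ∀ k, k < r → ∀ h ∈ N (k + 1), ∀ g : G, ⁅h, g⁆ ∈ N k

/-- The value of a symbol: `inl i` stands for `x i`, `inr l` for `f l`. -/
def sym {G : Type*} {m r : ℕ} (x : Fin m → G) (f : ℕ → G) : Fin m ⊕ Fin r → G
  | Sum.inl i => x i
  | Sum.inr l => f l

/-- The value of a definition type: a commutator of two symbols, or a `p`-th power. -/
def cand {G : Type*} [Group G] {m r : ℕ} (p : ℕ) (x : Fin m → G) (f : ℕ → G) :
    (Fin m ⊕ Fin r) × Option (Fin m ⊕ Fin r) → G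
  | (a, none) => sym x f a ^ p
  | (a, some b) => ⁅sym x f a, sym x f b⁆

/-- Skeletons. -/
structure Skel (m r : ℕ) where
  Y : Finset (Fin m)
  Z : Finset (Fin m)
  K : Finset (Fin r)
  s : Fin (r + 1)
  J : Fin m ⊕ Fin r → Finset (Fin r)
  τ : Fin r → (Fin m ⊕ Fin r) × Option (Fin m ⊕ Fin r)

/-- Symbols allowed in the definition of `f k`: `x i` with `i ∈ S`, or `f l` with `l > k`. -/
def okSym {m r : ℕ} (S : Finset (Fin m)) (k : Fin r) : Fin m ⊕ Fin r → Prop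
  | Sum.inl i => i ∈ S
  | Sum.inr l => k < l

/-- A decoration of `G` over a skeleton. -/
structure Deco (p m r : ℕ) (σ : Skel m r) (G : Type) [Group G] where
  x : Fin m → G
  f : ℕ → G
  ex : Fin m ⊕ Fin r → Fin r → ℕ → ℕ
  cardG : Nat.card G = p ^ (m + r)
  chain : Chain p r f
  gen : Subgroup.closure (Set.range x) ⊔ Sp f r = ⊤
  comm_mem : ∀ i j, ⁅x i, x j⁆ ∈ Sp f r
  pow_mem : ∀ i, x i ^ p ∈ Sp f r
  d3 : ∀ k, k < r → ∀ i, ⁅f k, x i⁆ ∈ Sp f σ.s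
  d4 : ∀ (k : Fin r) (d : G), d ∈ Sp f (k + 1) → d ∉ Sp f k →
    (∀ i ∈ σ.Y, Commute d (x i)) → k ∈ σ.K
  JK : ∀ g, σ.J g ⊆ σ.K
  ex_lt : ∀ g l j, ex g l j < p
  ex_supp : ∀ g l j, ex g l j ≠ 0 → j < l ∧ ∃ h : j < r, (⟨j, h⟩ : Fin r) ∈ σ.J g
  d5 : ∀ g, ∀ l ∈ σ.K, l ∉ σ.J g → Commute (f l * nf f (ex g l) l) (sym x f g)
  d6 : Sp f r ≤ Subgroup.closure (x '' (σ.Y : Set (Fin m)) ∪
        {y | ∃ k : Fin r, (k ∈ σ.K ∨ (σ.s : ℕ) ≤ k) ∧ y = f k})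
  d7_ok : ∀ k, k ∉ σ.K → okSym (σ.Y ∪ σ.Z) k (σ.τ k).1 ∧
        ∀ b, (σ.τ k).2 = some b → okSym (σ.Y ∪ σ.Z) k b
  d7 : ∀ k, k ∉ σ.K → ∃ a : ℕ → ℕ, (∀ j, a j < p) ∧ a k = 1 ∧ (∀ j, j < (k : ℕ) → a j = 0) ∧
        cand p x f (σ.τ k) = nf f a r

/-- The digits of an element of `Sp f r` with respect to `f` (zero outside `Sp f r`). -/
noncomputable def dig {G : Type*} [Group G] (p r : ℕ) (f : ℕ → G) (h : G) : ℕ → ℕ :=
  open Classical in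
  if H : ∃ a : ℕ → ℕ, (∀ j, a j < p) ∧ (∀ j, r ≤ j → a j = 0) ∧ h = nf f a r then
    Classical.choose H else fun _ => 0

/-- Two decorations over the same skeleton have the same digits. -/
structure SameDigits {p m r : ℕ} {σ : Skel m r} {G G' : Type} [Group G] [Group G']
    (D : Deco p m r σ G) (D' : Deco p m r σ G') : Prop where
  a : ∀ k : Fin r, dig p r D.f (D.f k ^ p) = dig p r D'.f (D'.f k ^ p)
  b : ∀ i ∈ σ.Y, ∀ k : Fin r, k ∉ σ.K →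
    dig p r D.f ⁅D.f k, D.x i⁆ = dig p r D'.f ⁅D'.f k, D'.x i⁆
  c1 : ∀ i ∈ σ.Z, ∀ k : Fin r, k ∉ σ.K → (k : ℕ) < σ.s → ∀ j, j < (k : ℕ) →
    dig p r D.f ⁅D.f k, D.x i⁆ j = dig p r D'.f ⁅D'.f k, D'.x i⁆ j
  c2 : ∀ i, ∀ k : Fin r, k ∉ σ.K → (σ.s : ℕ) ≤ k → ∀ j, j < (σ.s : ℕ) →
    dig p r D.f ⁅D.f k, D.x i⁆ j = dig p r D'.f ⁅D'.f k, D'.x i⁆ j
  d1 : ∀ g, ∀ l ∈ σ.J g,
    dig p r D.f ⁅D.f l, sym D.x D.f g⁆ = dig p r D'.f ⁅D'.f l, sym D'.x D'.f g⁆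
  d2 : ∀ g, ∀ l ∈ σ.K, l ∉ σ.J g → ∀ j ∈ σ.J g, D.ex g l j = D'.ex g l j
  e : ∀ i, dig p r D.f (D.x i ^ p) = dig p r D'.f (D'.x i ^ p)
  f1 : ∀ i j, i < j → (i ∈ σ.Y ∨ j ∈ σ.Y) →
    dig p r D.f ⁅D.x i, D.x j⁆ = dig p r D'.f ⁅D'.x i, D'.x j⁆
  f2 : ∀ i j, i < j → ∀ k ∈ σ.K,
    dig p r D.f ⁅D.x i, D.x j⁆ k = dig p r D'.f ⁅D'.x i, D'.x j⁆ k
  g : ∀ k : Fin r, k ∉ σ.K →
    dig p r D.f (cand p D.x D.f (σ.τ k)) = dig p r D'.f (cand p D'.x D'.f (σ.τ k))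

/-- Groups of class at most 2 whose commutators have order dividing `p`, of exponent `p`
(`p` odd) or `4` (`p = 2`). -/
structure Good (p : ℕ) (H : Type) [Group H] : Prop where
  class2 : ∀ a b c : H, ⁅⁅a, b⁆, c⁆ = 1
  comm_pow : ∀ a b : H, ⁅a, b⁆ ^ p = 1
  pow_odd : p ≠ 2 → ∀ a : H, a ^ p = 1
  pow_two : p = 2 → ∀ a : H, a ^ 4 = 1

end Pool.Agent.Helper252_Enum
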