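import Pool.Agent.Helper252_Enum.Defs

/-!
# Definitions for the exact count of groups of order p^n
-/

set_option autoImplicit false

open scoped commutatorElement

namespace Pool.Agent.Helper252_Enum

/-- The subgroup generated by commutators and `p`-th powers (the Frattini subgroup of a finite
`p`-group). -/
def FrP (p : ℕ) (G : Type*) [Group G] : Subgroup G := PC p (⊤ : Subgroup G) ⊤

/-- `[Φ(G), G] Φ(G)^p`. -/
def TT (p : ℕ) (G : Type*) [Group G] : Subgroup G := PC p (FrP p G) ⊤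

/-- `Φ(G) ∩ Z(G)`. -/
def ZF (p : ℕ) (G : Type*) [Group G] : Subgroup G := FrP p G ⊓ Subgroup.center G

/-- The elements of order dividing `p` in `Φ(G) ∩ Z(G)`. -/
def K1 (p : ℕ) (G : Type*) [Group G] : Subgroup G where
  carrier := {x | x ∈ FrP p G ∧ x ∈ Subgroup.center G ∧ x ^ p = 1}
  one_mem' := ⟨Subgroup.one_mem _, Subgroup.one_mem _, one_pow _⟩
  mul_mem' := by
    rintro a b ⟨ha1, ha2, ha3⟩ ⟨hb1, hb2, hb3⟩
    refine ⟨Subgroup.mul_mem _ ha1 hb1, Subgroup.mul_mem _ ha2 hb2, ?_⟩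
    have hc : Commute a b := (Subgroup.mem_center_iff.mp ha2 b).symm
    rw [hc.mul_pow, ha3, hb3, one_mul]
  inv_mem' := by
    rintro a ⟨ha1, ha2, ha3⟩
    exact ⟨Subgroup.inv_mem _ ha1, Subgroup.inv_mem _ ha2, by rw [inv_pow, ha3, inv_one]⟩

/-- The vector space `(ZMod p)^m`. -/
abbrev Vp (p m : ℕ) : Type := Fin m → ZMod p

/-- A coordinate system on `G/Φ(G)`. -/
structure IsCrd (p m : ℕ) (G : Type) [Group G] (u : G → Vp p m) : Prop where
  map_mul : ∀ a b, u (a * b) = u a + u b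
  surj : Function.Surjective u
  ker : ∀ a, u a = 0 ↔ a ∈ FrP p G

/-- Two coordinate systems correspond to each other under an isomorphism. -/
def SameCrd {p m : ℕ} {G G' : Type} [Group G] [Group G'] (u : G → Vp p m) (u' : G' → Vp p m) :
    Prop := ∃ φ : G ≃* G', ∀ a, u' (φ a) = u a

/-- The orbits of `Aut G` on the coordinate systems have at most `A` elements. -/
def SmallIm (p m A : ℕ) (G : Type) [Group G] : Prop :=
  ∀ u : G → Vp p m, IsCrd p m G u →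
    Nat.card {u' : G → Vp p m // IsCrd p m G u' ∧ SameCrd u u'} ≤ A

/-- `(p^N - 1) (p^N - p) ... (p^N - p^(r-1))`. -/
def SS (p N r : ℕ) : ℕ := ∏ i ∈ Finset.range r, (p ^ N - p ^ i)

/-- The order of `GL_m(p)`. -/
def gl (p m : ℕ) : ℕ := SS p m m

/-- Tensor data: an alternating biadditive map `c` and a power map `q`. -/
structure IsTD (p m r : ℕ) (c : Vp p m → Vp p m → Vp p r) (q : Vp p m → Vp p r) : Prop where
  add_left : ∀ v v' w, c (v + v') w = c v w + c v' w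
  add_right : ∀ v w w', c v (w + w') = c v w + c v w'
  alt : ∀ v, c v v = 0
  pw : ∀ v w, q (v + w) = q v + q w + if p = 2 then c v w else 0

/-- The values of the tensor data generate everything. -/
def Spans {p m r : ℕ} (c : Vp p m → Vp p m → Vp p r) (q : Vp p m → Vp p r) : Prop :=
  AddSubgroup.closure ({x | ∃ v w, x = c v w} ∪ {x | ∃ v, x = q v}) = ⊤

/-- Compatibility of tensor data with a pair of maps. -/
def Compat {p m r : ℕ} (c : Vp p m → Vp p m → Vp p r) (q : Vp p m → Vp p r)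
    (g : Vp p m ≃+ Vp p m) (g' : Vp p r ≃+ Vp p r) : Prop :=
  (∀ v w, c (g v) (g w) = g' (c v w)) ∧ ∀ v, q (g v) = g' (q v)

/-- There are `a` vectors `w i` such that the `2a` vectors `w i`, `g (w i)` are independent. -/
def aGe {p m : ℕ} (g : Vp p m → Vp p m) (a : ℕ) : Prop :=
  ∃ w : Fin a → Vp p m, LinearIndependent (ZMod p) (Sum.elim w (fun i => g (w i)))

/-- `(u, w)` are coordinates on `G/Φ(G)` and `Φ(G)/[Φ(G),G]Φ(G)^p` and `(c, q)` are the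
resulting structure constants. -/
structure HasTD (p m r : ℕ) (G : Type) [Group G] (u : G → Vp p m) (w : G → Vp p r)
    (c : Vp p m → Vp p m → Vp p r) (q : Vp p m → Vp p r) : Prop where
  crd : IsCrd p m G u
  w_mul : ∀ a ∈ FrP p G, ∀ b ∈ FrP p G, w (a * b) = w a + w b
  w_off : ∀ a, a ∉ FrP p G → w a = 0
  w_surj : ∀ x, ∃ a ∈ FrP p G, w a = x
  w_ker : ∀ a ∈ FrP p G, w a = 0 ↔ a ∈ TT p G
  hc : ∀ a b, c (u a) (u b) = w ⁅a, b⁆
  hq : ∀ a, q (u a) = w (a ^ p)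

/-- Skeletons for groups with `Φ(G) ∩ Z(G)` of small index in `Φ(G)`. -/
structure Skel0 (m r : ℕ) where
  Y : Finset (Fin m)
  K : Finset (Fin r)
  K' : Finset (Fin r)
  τ : Fin r → (Fin m ⊕ Fin r) × Option (Fin m ⊕ Fin r)

/-- Decorations with prescribed lifts `x` of a basis of `G/Φ(G)`. -/
structure Deco0 (p m r : ℕ) (σ : Skel0 m r) (G : Type) [Group G] (x : Fin m → G) where
  f : ℕ → G
  cardG : Nat.card G = p ^ (m + r)
  chain : Chain p r f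
  gen : Subgroup.closure (Set.range x) ⊔ Sp f r = ⊤
  comm_mem : ∀ i j, ⁅x i, x j⁆ ∈ Sp f r
  pow_mem : ∀ i, x i ^ p ∈ Sp f r
  KK : σ.K' ⊆ σ.K
  cen : ∀ k ∈ σ.K, f k ∈ Subgroup.center G
  pw : ∀ k ∈ σ.K', f k ^ p = 1
  d4 : ∀ (k : Fin r) (d : G), d ∈ Sp f (k + 1) → d ∉ Sp f k → d ∈ Subgroup.center G →
    d ^ p = 1 → k ∈ σ.K'
  d4c : ∀ d ∈ Sp f r, (∀ i ∈ σ.Y, Commute d (x i)) → d ∈ Subgroup.center G
  d6 : Sp f r ≤ Subgroup.closure (x '' (σ.Y : Set (Fin m)) ∪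
        {y | ∃ k : Fin r, k ∈ σ.K ∧ y = f k})
  d7_ok : ∀ k, k ∉ σ.K → okSym σ.Y k (σ.τ k).1 ∧ ∀ b, (σ.τ k).2 = some b → okSym σ.Y k b
  d7 : ∀ k, k ∉ σ.K → ∃ a : ℕ → ℕ, (∀ j, a j < p) ∧ a k = 1 ∧ (∀ j, j < (k : ℕ) → a j = 0) ∧
        cand p x f (σ.τ k) = nf f a r

/-- Equality of the recorded digits. -/
structure SameDigits0 {p m r : ℕ} {σ : Skel0 m r} {G G' : Type} [Group G] [Group G']
    {x : Fin m → G} {x' : Fin m → G'} (D : Deco0 p m r σ G x) (D' : Deco0 p m r σ G' x') :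
    Prop where
  a : ∀ k : Fin r, k ∉ σ.K' → dig p r D.f (D.f k ^ p) = dig p r D'.f (D'.f k ^ p)
  b : ∀ i ∈ σ.Y, ∀ k : Fin r, k ∉ σ.K →
    dig p r D.f ⁅D.f k, x i⁆ = dig p r D'.f ⁅D'.f k, x' i⁆
  e : ∀ i, dig p r D.f (x i ^ p) = dig p r D'.f (x' i ^ p)
  f1 : ∀ i j, i < j → (i ∈ σ.Y ∨ j ∈ σ.Y) →
    dig p r D.f ⁅x i, x j⁆ = dig p r D'.f ⁅x' i, x' j⁆
  f2 : ∀ i j, i < j → ∀ k ∈ σ.K',
    dig p r D.f ⁅x i, x j⁆ k = dig p r D'.f ⁅x' i, x' j⁆ k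
  g : ∀ k : Fin r, k ∉ σ.K →
    dig p r D.f (cand p x D.f (σ.τ k)) = dig p r D'.f (cand p x' D'.f (σ.τ k))

/-- Index set of the digits of a `Deco0`. -/
abbrev Idx0 (m r : ℕ) : Type :=
  (Fin r × Fin r) ⊕ (Fin r × Fin m × Fin r) ⊕ (Fin m × Fin r) ⊕ (Fin m × Fin m × Fin r) ⊕
    (Fin r × Fin r)

/-- The free digits. -/
def free0 {m r : ℕ} (σ : Skel0 m r) : Idx0 m r → Prop
  | Sum.inl (k, _) => k ∉ σ.K'
  | Sum.inr (Sum.inl (k, i, _)) => k ∉ σ.K ∧ i ∈ σ.Y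
  | Sum.inr (Sum.inr (Sum.inl _)) => True
  | Sum.inr (Sum.inr (Sum.inr (Sum.inl (i, j, k)))) => i < j ∧ (i ∈ σ.Y ∨ j ∈ σ.Y ∨ k ∈ σ.K')
  | Sum.inr (Sum.inr (Sum.inr (Sum.inr (k, _)))) => k ∉ σ.K

/-- Number of free digits. -/
noncomputable def nfree0 {m r : ℕ} (σ : Skel0 m r) : ℕ := Nat.card {i : Idx0 m r // free0 σ i}

end Pool.Agent.Helper252_Enum
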