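import Pool.Agent.Helper252_Enum.Defs2

set_option autoImplicit false

open scoped commutatorElement

namespace Pool.Agent.Helper252_Enum

/-- The class of groups giving the main term. -/
def MainC (p n : ℕ) (G : Type) [Group G] : Prop :=
  ∃ m r : ℕ, m + r = n ∧ 19 * n ≤ 60 * r ∧ 60 * r ≤ 21 * n ∧ Nat.card (FrP p G) = p ^ r ∧
    TT p G = ⊥ ∧ SmallIm p m 1 G

/-- The number of groups of order `N`. -/
noncomputable def gnu (N : ℕ) : ℕ :=
  Nat.card (Quot (fun g h : Group (Fin N) =>
        Nonempty (@MulEquiv (Fin N) (Fin N)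
          (@Semigroup.toMul _ (@Monoid.toSemigroup _ (@DivInvMonoid.toMonoid _ (@Group.toDivInvMonoid _ g))))
          (@Semigroup.toMul _ (@Monoid.toSemigroup _ (@DivInvMonoid.toMonoid _ (@Group.toDivInvMonoid _ h)))))))

/-- `G` is isomorphic to the derived subgroup of some group. -/
def Integ.{u} (G : Type) [Group G] : Prop :=
  ∃ (H : Type u) (_ : Group H), Nonempty (commutator H ≃* G)


end Pool.Agent.Helper252_Enum
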