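import Pool.Agent.Helper252_Enum.P1_nongen

set_option autoImplicit false

open scoped commutatorElement

namespace Pool.Agent.Helper252_Enum

/-
PROOF OF THE TARGET.
F = [G,G]G^p, T = PC p F ⊤ normal in G (see its definition), T <= F, F/T central in G/T, elementary abelian. Put B(Z) = closure{⁅x i, x j⁆ : i in Y, j in Y ∪ Z} ⊔
closure{x j ^ p : j in Y ∪ Z} ⊔ (T ⊔ K), a subgroup with T ⊔ K <= B(Z) <= F.
(1) B(univ) = F. Let N = B(univ) (or without K). N <= F, contains T, so is normal in G (F/T central). N contains ⁅x i, g⁆ for all i in Y, g in G: because g is a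
product of x j's and an element of F modulo F (hx, G = closure(range x) ⊔ F), and g -> ⁅x i, g⁆ is multiplicative modulo T <= N, ⁅x i, f⁆ in T for f in F. So N contains
⁅u,g⁆ for all u in closure(x '' Y) ⊔ F, in particular for u in U (hUY), so by hU N contains all commutators ⁅g,h⁆. Also by nongen
(L = ⊤, D = closure(range x), F = PC p ⊤ ⊤) closure(range x) = ⊤. So G/N is abelian and generated by the x j, whose p-th powers are in N: hence all p-th
powers are in N and F = PC p ⊤ ⊤ <= N.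
(2) Choose Z with p^{|Z|} |T ⊔ K| <= |B(Z)| and |Z| maximal (Z = ∅ qualifies; |Z| <= m). If B(Z) ≠ F = B(univ), then some generator ⁅x i, x j⁆ (i in Y) or x j ^ p is not in B(Z),
j ∉ Y ∪ Z, and B(Z ∪ {j}) > B(Z), both of p-power order (subgroups of a p-group), so |B(Z ∪ {j})| >= p |B(Z)|: contradicts maximality. So B(Z) = F, and
p^{|Z|} |T ⊔ K| <= |F|.
(3) Let A = closure(x '' (Y ∪ Z)) ⊔ K and L' = closure(x '' (Y ∪ Z)) ⊔ F. B(Z) <= A ⊔ T, so F <= A ⊔ T and L' = A ⊔ T. T = PC p F (closure(x '' Y) ⊔ F) (hTL) <= PC p L' L'.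
nongen (L = L', D = A) gives L' <= A, so F <= A.
-/

namespace J_lemmaE

variable {G : Type*} [Group G]

theorem PC_mono {p : ℕ} {A B A' B' : Subgroup G} (hA : A ≤ A') (hB : B ≤ B') :
    PC p A B ≤ PC p A' B' := by
  unfold PC
  refine Subgroup.closure_mono ?_
  rintro y (⟨a, ha, b, hb, rfl⟩ | ⟨a, ha, rfl⟩)
  · exact Or.inl ⟨a, hA ha, b, hB hb, rfl⟩
  · exact Or.inr ⟨a, hA ha, rfl⟩

theorem comm_mem_PC {p : ℕ} {A B : Subgroup G} {a b : G} (ha : a ∈ A) (hb : b ∈ B) :
    ⁅a, b⁆ ∈ PC p A B := Subgroup.subset_closure (Or.inl ⟨a, ha, b, hb, rfl⟩)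

theorem pow_mem_PC {p : ℕ} {A B : Subgroup G} {a : G} (ha : a ∈ A) :
    a ^ p ∈ PC p A B := Subgroup.subset_closure (Or.inr ⟨a, ha, rfl⟩)

/-- a subgroup between `PC p F ⊤` and `F` is normal -/
theorem normal_of {p : ℕ} {F T N : Subgroup G} (hT : T = PC p F ⊤) (h1 : T ≤ N) (h2 : N ≤ F) :
    N.Normal := by
  constructor
  intro n hn g
  have h3 : ⁅n, g⁆ ∈ N := h1 (by rw [hT]; exact comm_mem_PC (h2 hn) (Subgroup.mem_top g))
  have h4 : g * n * g⁻¹ = ⁅n, g⁆⁻¹ * n := by
    rw [commutatorElement_def]; group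
  rw [h4]
  exact N.mul_mem (N.inv_mem h3) hn

/-- the subgroup generated by the chosen elements -/
def BB {m : ℕ} (p : ℕ) (x : Fin m → G) (Y Z : Finset (Fin m)) (T K : Subgroup G) : Subgroup G :=
  Subgroup.closure ({y | ∃ i ∈ Y, ∃ j ∈ Y ∪ Z, y = ⁅x i, x j⁆} ∪ {y | ∃ j ∈ Y ∪ Z, y = x j ^ p}) ⊔
    (T ⊔ K)

theorem BB_mono {m : ℕ} {p : ℕ} {x : Fin m → G} {Y Z Z' : Finset (Fin m)} {T K : Subgroup G}
    (h : Z ⊆ Z') : BB p x Y Z T K ≤ BB p x Y Z' T K := by
  unfold BB
  refine sup_le_sup_right (Subgroup.closure_mono ?_) _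
  rintro y (⟨i, hi, j, hj, rfl⟩ | ⟨j, hj, rfl⟩)
  · exact Or.inl ⟨i, hi, j, Finset.union_subset_union_right h hj, rfl⟩
  · exact Or.inr ⟨j, Finset.union_subset_union_right h hj, rfl⟩

theorem BB_le_F {m : ℕ} {p : ℕ} {x : Fin m → G} {Y Z : Finset (Fin m)} {F T K : Subgroup G}
    (hF : F = PC p ⊤ ⊤) (hTF : T ≤ F) (hK : K ≤ F) : BB p x Y Z T K ≤ F := by
  unfold BB
  refine sup_le ((Subgroup.closure_le _).2 ?_) (sup_le hTF hK)
  rintro y (⟨i, hi, j, hj, rfl⟩ | ⟨j, hj, rfl⟩)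
  · rw [hF]; exact comm_mem_PC (Subgroup.mem_top _) (Subgroup.mem_top _)
  · rw [hF]; exact pow_mem_PC (Subgroup.mem_top _)

theorem mem_BB_comm {m : ℕ} {p : ℕ} {x : Fin m → G} {Y Z : Finset (Fin m)} {T K : Subgroup G}
    {i j : Fin m} (hi : i ∈ Y) (hj : j ∈ Y ∪ Z) : ⁅x i, x j⁆ ∈ BB p x Y Z T K :=
  (le_sup_left : _ ≤ BB p x Y Z T K) (Subgroup.subset_closure (Or.inl ⟨i, hi, j, hj, rfl⟩))

theorem mem_BB_pow {m : ℕ} {p : ℕ} {x : Fin m → G} {Y Z : Finset (Fin m)} {T K : Subgroup G}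
    {j : Fin m} (hj : j ∈ Y ∪ Z) : x j ^ p ∈ BB p x Y Z T K :=
  (le_sup_left : _ ≤ BB p x Y Z T K) (Subgroup.subset_closure (Or.inr ⟨j, hj, rfl⟩))

/-- membership of commutators in a normal subgroup -/
theorem comm_mem_iff {N : Subgroup G} [N.Normal] (a b : G) :
    ⁅a, b⁆ ∈ N ↔ Commute (QuotientGroup.mk' N a) (QuotientGroup.mk' N b) := by
  rw [← commutatorElement_eq_one_iff_commute, ← map_commutatorElement, ← MonoidHom.mem_ker,
    QuotientGroup.ker_mk']

theorem BB_univ {m : ℕ} {p : ℕ} {x : Fin m → G} {Y : Finset (Fin m)} {F T K : Subgroup G}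
    (hF : F = PC p ⊤ ⊤) (hT : T = PC p F ⊤) (hK : K ≤ F)
    (hx : Subgroup.closure (Set.range x) ⊔ F = ⊤) (U : Finset G)
    (hU : ∀ g h : G, ⁅g, h⁆ ∈ Subgroup.closure {y : G | ∃ u ∈ U, ∃ g : G, y = ⁅u, g⁆} ⊔ T)
    (hUY : ∀ u ∈ U, u ∈ Subgroup.closure (x '' (Y : Set (Fin m))) ⊔ F) :
    F ≤ BB p x Y Finset.univ T K := by
  classical
  have hTF : T ≤ F := by
    rw [hT, hF]; exact PC_mono le_top le_rfl
  set N := BB p x Y Finset.univ T K with hN
  have hTN : T ≤ N := le_sup_left.trans (le_sup_right : _ ≤ BB p x Y Finset.univ T K)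
  have hNF : N ≤ F := BB_le_F hF hTF hK
  have hNn : N.Normal := normal_of hT hTN hNF
  set π := QuotientGroup.mk' N with hπ
  -- elements of `F` are central modulo `N`
  have hFc : ∀ f ∈ F, ∀ g : G, Commute (π f) (π g) := by
    intro f hf g
    rw [← comm_mem_iff]
    exact hTN (by rw [hT]; exact comm_mem_PC hf (Subgroup.mem_top g))
  -- the generators `x i` with `i ∈ Y` are central modulo `N`
  have hYc : ∀ i ∈ Y, ∀ g : G, Commute (π (x i)) (π g) := by
    intro i hi g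
    have h1 : Subgroup.closure (Set.range x) ⊔ F ≤
        (Subgroup.centralizer {π (x i)}).comap π := by
      refine sup_le ((Subgroup.closure_le _).2 ?_) ?_
      · rintro _ ⟨j, rfl⟩
        rw [SetLike.mem_coe, Subgroup.mem_comap, Subgroup.mem_centralizer_singleton_iff]
        have h2 : Commute (π (x i)) (π (x j)) := by
          rw [← comm_mem_iff]
          exact mem_BB_comm hi (by simp)
        exact h2.eq.symm
      · intro f hf
        rw [Subgroup.mem_comap, Subgroup.mem_centralizer_singleton_iff]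
        exact (hFc f hf (x i)).eq
    have h3 : g ∈ (Subgroup.centralizer {π (x i)}).comap π := h1 (by rw [hx]; exact Subgroup.mem_top g)
    rw [Subgroup.mem_comap, Subgroup.mem_centralizer_singleton_iff] at h3
    exact h3.symm
  have hYF : Subgroup.closure (x '' (Y : Set (Fin m))) ⊔ F ≤ (Subgroup.center (G ⧸ N)).comap π := by
    refine sup_le ((Subgroup.closure_le _).2 ?_) ?_
    · rintro _ ⟨i, hi, rfl⟩
      rw [SetLike.mem_coe, Subgroup.mem_comap, Subgroup.mem_center_iff]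
      intro q
      obtain ⟨g, rfl⟩ := QuotientGroup.mk'_surjective N q
      exact (hYc i (by exact_mod_cast hi) g).eq.symm
    · intro f hf
      rw [Subgroup.mem_comap, Subgroup.mem_center_iff]
      intro q
      obtain ⟨g, rfl⟩ := QuotientGroup.mk'_surjective N q
      exact (hFc f hf g).eq.symm
  have hcomm : ∀ g h : G, ⁅g, h⁆ ∈ N := by
    intro g h
    refine (sup_le ((Subgroup.closure_le _).2 ?_) hTN) (hU g h)
    rintro _ ⟨u, hu, g', rfl⟩
    rw [SetLike.mem_coe, comm_mem_iff]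
    have h1 := hYF (hUY u hu)
    rw [Subgroup.mem_comap, Subgroup.mem_center_iff] at h1
    exact (h1 (π g')).symm
  have hab : ∀ a b : G ⧸ N, Commute a b := by
    intro a b
    obtain ⟨g, rfl⟩ := QuotientGroup.mk'_surjective N a
    obtain ⟨h, rfl⟩ := QuotientGroup.mk'_surjective N b
    exact (comm_mem_iff g h).1 (hcomm g h)
  -- `p`-th powers
  let P : Subgroup G :=
    { carrier := {g | (π g) ^ p = 1}
      one_mem' := by simp
      mul_mem' := by
        intro a b ha hb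
        change (π (a * b)) ^ p = 1
        rw [map_mul, (hab (π a) (π b)).mul_pow, show (π a) ^ p = 1 from ha,
          show (π b) ^ p = 1 from hb, one_mul]
      inv_mem' := by
        intro a ha
        change (π a⁻¹) ^ p = 1
        rw [map_inv, inv_pow, show (π a) ^ p = 1 from ha, inv_one] }
  have hpow_iff : ∀ g : G, g ∈ P ↔ g ^ p ∈ N := by
    intro g
    change (π g) ^ p = 1 ↔ g ^ p ∈ N
    rw [← map_pow, ← MonoidHom.mem_ker, QuotientGroup.ker_mk']
  have hP : P = ⊤ := by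
    rw [eq_top_iff, ← hx]
    refine sup_le ((Subgroup.closure_le _).2 ?_) ?_
    · rintro _ ⟨j, rfl⟩
      rw [SetLike.mem_coe, hpow_iff]
      exact mem_BB_pow (by simp)
    · intro f hf
      rw [hpow_iff]
      exact hTN (by rw [hT]; exact pow_mem_PC hf)
  rw [hF]
  unfold PC
  rw [Subgroup.closure_le]
  rintro y (⟨a, -, b, -, rfl⟩ | ⟨a, -, rfl⟩)
  · exact hcomm a b
  · rw [SetLike.mem_coe, ← hpow_iff, hP]
    exact Subgroup.mem_top a

theorem card_mul_le [Finite G] {p : ℕ} [Fact p.Prime] (hG : IsPGroup p G) {A B : Subgroup G}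
    (h : A ≤ B) (hne : A ≠ B) : p * Nat.card A ≤ Nat.card B := by
  obtain ⟨a, ha⟩ := (IsPGroup.iff_card (p := p)).1 (hG.to_subgroup A)
  obtain ⟨b, hb⟩ := (IsPGroup.iff_card (p := p)).1 (hG.to_subgroup B)
  have hlt : Nat.card A < Nat.card B := by
    by_contra hle
    exact hne (Subgroup.eq_of_le_of_card_ge h (not_lt.1 hle))
  have hp : 1 < p := (Fact.out : p.Prime).one_lt
  rw [ha, hb] at hlt ⊢
  have hab : a < b := (Nat.pow_lt_pow_iff_right hp).1 hlt
  calc p * p ^ a = p ^ (a + 1) := by rw [pow_succ, mul_comm]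
    _ ≤ p ^ b := Nat.pow_le_pow_right hp.le hab

end J_lemmaE

open J_lemmaE in
/-- TARGET -/
theorem lemmaE {G : Type*} [Group G] [Finite G] {p : ℕ} [Fact p.Prime] (hG : IsPGroup p G)
    (F T : Subgroup G) (hF : F = PC p ⊤ ⊤) (hT : T = PC p F ⊤) (m : ℕ) (x : Fin m → G)
    (hx : Subgroup.closure (Set.range x) ⊔ F = ⊤) (Y : Finset (Fin m)) (U : Finset G)
    (hU : ∀ g h : G, ⁅g, h⁆ ∈ Subgroup.closure {y : G | ∃ u ∈ U, ∃ g : G, y = ⁅u, g⁆} ⊔ T)
    (hUY : ∀ u ∈ U, u ∈ Subgroup.closure (x '' (Y : Set (Fin m))) ⊔ F)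
    (hTL : PC p F (Subgroup.closure (x '' (Y : Set (Fin m))) ⊔ F) = T)
    (K : Subgroup G) (hK : K ≤ F) :
    ∃ Z : Finset (Fin m), p ^ Z.card * Nat.card (T ⊔ K : Subgroup G) ≤ Nat.card F ∧
      F ≤ Subgroup.closure (x '' (((Y ∪ Z : Finset (Fin m)) : Set (Fin m)))) ⊔ K := by
  classical
  have hTF : T ≤ F := by
    rw [hT, hF]; exact PC_mono le_top le_rfl
  have huniv := BB_univ (K := K) hF hT hK hx U hU hUY
  obtain ⟨Z, hZ, hmax⟩ := Finset.exists_max_image
    ((Finset.univ : Finset (Finset (Fin m))).filter fun Z =>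
      p ^ Z.card * Nat.card (T ⊔ K : Subgroup G) ≤ Nat.card (BB p x Y Z T K)) Finset.card
    ⟨∅, by
      simp only [Finset.mem_filter, Finset.mem_univ, true_and, Finset.card_empty, pow_zero, one_mul]
      exact Subgroup.card_le_of_le (le_sup_right : _ ≤ BB p x Y ∅ T K)⟩
  simp only [Finset.mem_filter, Finset.mem_univ, true_and] at hZ hmax
  have hstep : ∀ j : Fin m, j ∉ Y ∪ Z → BB p x Y Z T K = BB p x Y (insert j Z) T K := by
    intro j hj
    by_contra hne
    have h1 := card_mul_le hG (BB_mono (Finset.subset_insert j Z)) hne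
    have hjZ : j ∉ Z := fun h => hj (Finset.mem_union_right _ h)
    have h2 := hmax (insert j Z) (by
      rw [Finset.card_insert_of_notMem hjZ, pow_succ]
      calc p ^ Z.card * p * Nat.card (T ⊔ K : Subgroup G)
          = p * (p ^ Z.card * Nat.card (T ⊔ K : Subgroup G)) := by ring
        _ ≤ p * Nat.card (BB p x Y Z T K) := Nat.mul_le_mul_left p hZ
        _ ≤ _ := h1)
    rw [Finset.card_insert_of_notMem hjZ] at h2
    omega
  have hFB : F ≤ BB p x Y Z T K := by
    refine huniv.trans ?_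
    conv_lhs => unfold BB
    refine sup_le ((Subgroup.closure_le _).2 ?_) (le_sup_right : _ ≤ BB p x Y Z T K)
    rintro y (⟨i, hi, j, -, rfl⟩ | ⟨j, -, rfl⟩)
    · by_cases hj : j ∈ Y ∪ Z
      · exact mem_BB_comm hi hj
      · rw [SetLike.mem_coe, hstep j hj]
        exact mem_BB_comm hi (by simp)
    · by_cases hj : j ∈ Y ∪ Z
      · exact mem_BB_pow hj
      · rw [SetLike.mem_coe, hstep j hj]
        exact mem_BB_pow (by simp)
  refine ⟨Z, hZ.trans (Subgroup.card_le_of_le (BB_le_F hF hTF hK)), ?_⟩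
  set X := Subgroup.closure (x '' (((Y ∪ Z : Finset (Fin m)) : Set (Fin m)))) with hX
  have hxX : ∀ j ∈ Y ∪ Z, x j ∈ X := fun j hj =>
    Subgroup.subset_closure ⟨j, by exact_mod_cast hj, rfl⟩
  have hFA : F ≤ (X ⊔ K) ⊔ T := by
    refine hFB.trans ?_
    unfold BB
    refine sup_le ((Subgroup.closure_le _).2 ?_) (sup_le le_sup_right (le_sup_right.trans le_sup_left))
    rintro y (⟨i, hi, j, hj, rfl⟩ | ⟨j, hj, rfl⟩)
    · have h1 : ⁅x i, x j⁆ ∈ X := by
        have h2 := hxX i (Finset.mem_union_left _ hi)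
        have h3 := hxX j hj
        rw [commutatorElement_def]
        exact X.mul_mem (X.mul_mem (X.mul_mem h2 h3) (X.inv_mem h2)) (X.inv_mem h3)
      exact (le_sup_left.trans le_sup_left : X ≤ (X ⊔ K) ⊔ T) h1
    · exact (le_sup_left.trans le_sup_left : X ≤ (X ⊔ K) ⊔ T) (X.pow_mem (hxX j hj) p)
  have hYX : Subgroup.closure (x '' (Y : Set (Fin m))) ≤ X := by
    refine Subgroup.closure_mono (Set.image_mono ?_)
    intro j hj
    simp only [Finset.coe_union, Set.mem_union]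
    exact Or.inl hj
  have hTL' : T ≤ PC p (X ⊔ F) (X ⊔ F) := by
    rw [← hTL]
    exact PC_mono le_sup_right (sup_le_sup_right hYX F)
  have h4 : X ⊔ F ≤ X ⊔ K := by
    refine nongen hG (X ⊔ F) (X ⊔ K) (sup_le_sup_left hK X) ?_
    refine sup_le (le_sup_left.trans le_sup_left) (hFA.trans ?_)
    exact sup_le_sup_left hTL' _
  exact le_sup_right.trans h4

end Pool.Agent.Helper252_Enum
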