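import Pool.Agent.Helper252_Enum.Defs

set_option autoImplicit false

open scoped commutatorElement

namespace Pool.Agent.Helper252_Enum

/-- Index set of all digits. -/
abbrev Idx (m r : ℕ) : Type :=
  (Fin r × Fin r) ⊕ (Fin r × Fin m × Fin r) ⊕ ((Fin m ⊕ Fin r) × Fin r × Fin r) ⊕
    ((Fin m ⊕ Fin r) × Fin r × Fin r) ⊕ (Fin m × Fin r) ⊕ (Fin m × Fin m × Fin r) ⊕
    (Fin r × Fin r)

/-- The digits which are free for a skeleton. -/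
def free {m r : ℕ} (σ : Skel m r) : Idx m r → Prop
  | Sum.inl _ => True
  | Sum.inr (Sum.inl (k, i, j)) => k ∉ σ.K ∧ (i ∈ σ.Y ∨ (i ∈ σ.Z ∧ (k : ℕ) < σ.s ∧ j < k) ∨
      ((σ.s : ℕ) ≤ k ∧ (j : ℕ) < σ.s))
  | Sum.inr (Sum.inr (Sum.inl (g, l, _))) => l ∈ σ.J g
  | Sum.inr (Sum.inr (Sum.inr (Sum.inl (g, _, j)))) => j ∈ σ.J g
  | Sum.inr (Sum.inr (Sum.inr (Sum.inr (Sum.inl _)))) => True
  | Sum.inr (Sum.inr (Sum.inr (Sum.inr (Sum.inr (Sum.inl (i, j, k)))))) =>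
      i < j ∧ (i ∈ σ.Y ∨ j ∈ σ.Y ∨ k ∈ σ.K)
  | Sum.inr (Sum.inr (Sum.inr (Sum.inr (Sum.inr (Sum.inr _))))) => True

/-- Number of free digits. -/
noncomputable def nfree {m r : ℕ} (σ : Skel m r) : ℕ := Nat.card {i : Idx m r // free σ i}


end Pool.Agent.Helper252_Enum
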