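import Pool.Agent.Helper252_Enum.Defs

set_option autoImplicit false

open scoped commutatorElement

namespace Pool.Agent.Helper252_Enum

/-
PROOF OF THE TARGET.
Induction on S. S empty: closure of the empty set is bot. Step S = insert i S', i not in S'. Let A = closure(x '' S') ⊔ N, of
order <= p^{|S'|}|N| by induction. Claim: x i normalises A (x_i x_j x_i^{-1} = ⁅x i, x j⁆ x_j in A for j in S'; x_i N x_i^{-1} <= N; G is
finite so conjugation maps A onto A), and x_i^p in N <= A. So every element of closure(insert (x i) (x '' S')) ⊔ N is of the form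
x_i^e * a with 0 <= e < p and a in A (the set of such elements is a subgroup / is closed under multiplication by x_i and
by A). Hence its order is at most p |A|. A convenient route: <x_i> and A: Subgroup.zpowers (x i) ⊔ A, with A normalised by
x_i, equals the product set, and zpowers (x i) = union of e < p of x_i^e * (zpowers ∩ A).
-/

namespace J_card_closure_sup_le

theorem zpowers_le_normalizer {G : Type*} [Group G] [Finite G] (A : Subgroup G) (y : G)
    (h : ∀ a ∈ A, y * a * y⁻¹ ∈ A) : Subgroup.zpowers y ≤ Subgroup.normalizer (A : Set G) := by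
  rw [Subgroup.zpowers_le, Subgroup.mem_normalizer_iff]
  intro g
  refine ⟨h g, fun hg => ?_⟩
  let φ : A → A := fun a => ⟨y * a * y⁻¹, h a a.2⟩
  have hφ : Function.Injective φ := by
    intro a b hab
    have h1 : y * (a : G) * y⁻¹ = y * (b : G) * y⁻¹ := congrArg Subtype.val hab
    exact Subtype.ext (mul_left_cancel (mul_right_cancel h1))
  obtain ⟨a, ha⟩ := (Finite.injective_iff_surjective.1 hφ) ⟨_, hg⟩
  have h1 : y * (a : G) * y⁻¹ = y * g * y⁻¹ := congrArg Subtype.val ha
  have h2 : (a : G) = g := mul_left_cancel (mul_right_cancel h1)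
  rw [← h2]
  exact a.2

theorem card_zpowers_sup {G : Type*} [Group G] [Finite G] {p : ℕ} (hp : 0 < p) (A : Subgroup G)
    (y : G) (h : ∀ a ∈ A, y * a * y⁻¹ ∈ A) (hy : y ^ p ∈ A) :
    Nat.card (Subgroup.zpowers y ⊔ A : Subgroup G) ≤ p * Nat.card A := by
  have hc := Subgroup.coe_mul_of_left_le_normalizer_right (Subgroup.zpowers y) A
    (zpowers_le_normalizer A y h)
  have hmem : ∀ (e : Fin p) (a : A), y ^ (e : ℕ) * (a : G) ∈ (Subgroup.zpowers y ⊔ A : Subgroup G) :=
    fun e a => mul_mem (Subgroup.mem_sup_left (Subgroup.npow_mem_zpowers y e))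
      (Subgroup.mem_sup_right a.2)
  let φ : Fin p × A → (Subgroup.zpowers y ⊔ A : Subgroup G) :=
    fun z => ⟨y ^ (z.1 : ℕ) * (z.2 : G), hmem z.1 z.2⟩
  have hφ : Function.Surjective φ := by
    rintro ⟨g, hg⟩
    have hg' : g ∈ ((Subgroup.zpowers y ⊔ A : Subgroup G) : Set G) := hg
    rw [hc] at hg'
    obtain ⟨u, hu, a, ha, rfl⟩ := Set.mem_mul.1 hg'
    obtain ⟨e, rfl⟩ := Subgroup.mem_zpowers_iff.1 hu
    have hp' : (0 : ℤ) < p := by exact_mod_cast hp
    have h0 : 0 ≤ e % p := Int.emod_nonneg e hp'.ne'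
    have h1 : e % p < p := Int.emod_lt_of_pos e hp'
    have h2 : y ^ e = y ^ (e % p).toNat * (y ^ p) ^ (e / p) := by
      rw [← zpow_natCast y (e % p).toNat, Int.toNat_of_nonneg h0, ← zpow_natCast y p, ← zpow_mul,
        ← zpow_add, Int.emod_add_mul_ediv]
    refine ⟨(⟨(e % p).toNat, by omega⟩, ⟨(y ^ p) ^ (e / p) * a, mul_mem (zpow_mem hy _) ha⟩), ?_⟩
    apply Subtype.ext
    change y ^ (e % p).toNat * ((y ^ p) ^ (e / p) * a) = y ^ e * a
    rw [h2, mul_assoc]
  have h3 := Nat.card_le_card_of_surjective φ hφ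
  rwa [Nat.card_prod, Nat.card_fin] at h3

end J_card_closure_sup_le

/-- TARGET -/
theorem card_closure_sup_le {G : Type*} [Group G] [Finite G] {p : ℕ} (hp : 0 < p) {ι : Type*}
    (N : Subgroup G) (x : ι → G) (S : Finset ι)
    (hnorm : ∀ i ∈ S, ∀ h ∈ N, x i * h * (x i)⁻¹ ∈ N)
    (hpow : ∀ i ∈ S, x i ^ p ∈ N) (hcomm : ∀ i ∈ S, ∀ j ∈ S, ⁅x i, x j⁆ ∈ N) :
    Nat.card (Subgroup.closure (x '' (S : Set ι)) ⊔ N : Subgroup G) ≤ p ^ S.card * Nat.card N := by
  classical
  induction S using Finset.induction_on with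
  | empty => simp
  | insert i S hi ih =>
    have ih' := ih (fun j hj => hnorm j (Finset.mem_insert_of_mem hj))
      (fun j hj => hpow j (Finset.mem_insert_of_mem hj))
      (fun j hj k hk => hcomm j (Finset.mem_insert_of_mem hj) k (Finset.mem_insert_of_mem hk))
    have hii : i ∈ insert i S := Finset.mem_insert_self i S
    set A : Subgroup G := Subgroup.closure (x '' (S : Set ι)) ⊔ N with hA
    have hconj : ∀ a ∈ A, x i * a * (x i)⁻¹ ∈ A := by
      have hle : A ≤ A.comap (MulAut.conj (x i)).toMonoidHom := by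
        rw [hA]
        refine sup_le ((Subgroup.closure_le _).2 ?_) ?_
        · rintro _ ⟨j, hj, rfl⟩
          change x i * x j * (x i)⁻¹ ∈ A
          have h1 : x i * x j * (x i)⁻¹ = ⁅x i, x j⁆ * x j := by
            rw [commutatorElement_def]; group
          rw [h1]
          exact mul_mem (Subgroup.mem_sup_right (hcomm i hii j (Finset.mem_insert_of_mem hj)))
            (Subgroup.mem_sup_left (Subgroup.subset_closure ⟨j, hj, rfl⟩))
        · intro h hh
          exact Subgroup.mem_sup_right (hnorm i hii h hh)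
      intro a ha
      exact hle ha
    have hle : (Subgroup.closure (x '' ((insert i S : Finset ι) : Set ι)) ⊔ N : Subgroup G) ≤
        Subgroup.zpowers (x i) ⊔ A := by
      refine sup_le ((Subgroup.closure_le _).2 ?_) ?_
      · rintro _ ⟨j, hj, rfl⟩
        rcases Finset.mem_insert.1 (Finset.mem_coe.1 hj) with rfl | hj'
        · exact Subgroup.mem_sup_left (Subgroup.mem_zpowers _)
        · exact Subgroup.mem_sup_right (Subgroup.mem_sup_left
            (Subgroup.subset_closure ⟨j, hj', rfl⟩))
      · exact le_sup_right.trans le_sup_right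
    calc Nat.card (Subgroup.closure (x '' ((insert i S : Finset ι) : Set ι)) ⊔ N : Subgroup G)
        ≤ Nat.card (Subgroup.zpowers (x i) ⊔ A : Subgroup G) := Subgroup.card_le_of_le hle
      _ ≤ p * Nat.card A := J_card_closure_sup_le.card_zpowers_sup hp A (x i) hconj
          (Subgroup.mem_sup_right (hpow i hii))
      _ ≤ p * (p ^ S.card * Nat.card N) := Nat.mul_le_mul_left _ ih'
      _ = p ^ (insert i S).card * Nat.card N := by
          rw [Finset.card_insert_of_notMem hi, pow_succ]; ring

end Pool.Agent.Helper252_Enum
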