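import Pool.Agent.Helper252_Enum.ChainFacts
import Pool.Agent.Helper252_Enum.P5_card_closure

/-!
# Decorated groups with the same digits are isomorphic
-/

set_option autoImplicit false

open scoped commutatorElement

namespace Pool.Agent.Helper252_Enum

section Qsub
variable {H : Type*} [Group H]

/-- Elements normalising `E` and commuting with `c` modulo `E`. -/
def Qsub (E : Subgroup H) (c : H) : Subgroup H where
  carrier := {d | d ∈ Subgroup.normalizer (E : Set H) ∧ ⁅d, c⁆ ∈ E}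
  one_mem' := ⟨Subgroup.one_mem _, by simp⟩
  mul_mem' := by
    rintro a b ⟨ha1, ha2⟩ ⟨hb1, hb2⟩
    refine ⟨Subgroup.mul_mem _ ha1 hb1, ?_⟩
    have h1 : ⁅a * b, c⁆ = (a * ⁅b, c⁆ * a⁻¹) * ⁅a, c⁆ := by
      simp only [commutatorElement_def]; group
    rw [h1]
    exact Subgroup.mul_mem _ ((Subgroup.mem_normalizer_iff.mp ha1 _).mp hb2) ha2
  inv_mem' := by
    rintro a ⟨ha1, ha2⟩
    refine ⟨Subgroup.inv_mem _ ha1, ?_⟩
    have h1 : ⁅a⁻¹, c⁆ = a⁻¹ * ⁅a, c⁆⁻¹ * a := by
      simp only [commutatorElement_def]; group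
    rw [h1]
    exact ((Subgroup.mem_normalizer_iff''.mp ha1) _).mp (Subgroup.inv_mem _ ha2)

theorem mem_Qsub {E : Subgroup H} {c d : H} :
    d ∈ Qsub E c ↔ d ∈ Subgroup.normalizer (E : Set H) ∧ ⁅d, c⁆ ∈ E := Iff.rfl

theorem comm_inv_mem {E : Subgroup H} {a b : H} (h : ⁅a, b⁆ ∈ E) : ⁅b, a⁆ ∈ E := by
  rw [← commutatorElement_inv]; exact Subgroup.inv_mem _ h

/-- If `c` normalises `E` then `E ≤ Qsub E c`. -/
theorem mem_Qsub_of_mem {E : Subgroup H} {c d : H} (hd : d ∈ E)
    (hc : c ∈ Subgroup.normalizer (E : Set H)) : d ∈ Qsub E c := by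
  refine ⟨Subgroup.le_normalizer hd, ?_⟩
  have h1 : ⁅d, c⁆ = d * (c * d⁻¹ * c⁻¹) := by
    simp only [commutatorElement_def]; group
  rw [h1]
  exact Subgroup.mul_mem _ hd ((Subgroup.mem_normalizer_iff.mp hc _).mp (Subgroup.inv_mem _ hd))

theorem nf_mem_iff (f : ℕ → H) (U : Subgroup H) (a : ℕ → ℕ) {k t : ℕ} (hkt : k + 1 ≤ t)
    (h0 : ∀ j, j < k → a j = 0) (h1 : a k = 1) (hl : ∀ l, k < l → l < t → f l ∈ U) :
    nf f a t ∈ U ↔ f k ∈ U := by
  induction t, hkt using Nat.le_induction with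
  | base =>
    simp only [nf]
    rw [h1, pow_one, nf_eq_of_zero f a (Nat.zero_le k) (fun j _ hj => h0 j hj)]
    simp [nf]
  | succ t hkt ih =>
    simp only [nf]
    rw [Subgroup.mul_mem_cancel_left _ (Subgroup.pow_mem _ (hl t (by omega) (by omega)) _)]
    exact ih (fun l h2 h3 => hl l h2 (by omega))

end Qsub

section main
variable {p m r : ℕ} [hp : Fact p.Prime] {σ : Skel m r} {G G' : Type} [Group G] [Group G']
  (D : Deco p m r σ G) (D' : Deco p m r σ G')

/-- paired `f` -/
def eP (k : ℕ) : G × G' := (D.f k, D'.f k)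
/-- paired `x` -/
def xP (i : Fin m) : G × G' := (D.x i, D'.x i)
/-- paired symbols -/
def sP (g : Fin m ⊕ Fin r) : G × G' := (sym D.x D.f g, sym D'.x D'.f g)

theorem sP_inl (i : Fin m) : sP D D' (Sum.inl i) = xP D D' i := rfl
theorem sP_inr (l : Fin r) : sP D D' (Sum.inr l) = eP D D' l := rfl

/-- `E_k` -/
abbrev EE (k : ℕ) : Subgroup (G × G') := Sp (eP D D') k

/-- the subgroup `D` of the paper -/
def Dg : Subgroup (G × G') :=
  Subgroup.closure (xP D D' '' ((σ.Y ∪ σ.Z : Finset (Fin m)) : Set (Fin m)) ∪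
    {y | ∃ k ∈ σ.K, y = eP D D' k})

omit G' [Group G'] in
theorem finite_of_deco' (D : Deco p m r σ G) : Finite G := by
  apply Nat.finite_of_card_ne_zero
  rw [D.cardG]
  exact pow_ne_zero _ hp.out.ne_zero

theorem cand_pair (t : (Fin m ⊕ Fin r) × Option (Fin m ⊕ Fin r)) :
    cand p (xP D D') (eP D D') t = (cand p D.x D.f t, cand p D'.x D'.f t) := by
  have hs : ∀ g : Fin m ⊕ Fin r, sym (xP D D') (eP D D') g = (sym D.x D.f g, sym D'.x D'.f g) := by
    intro g; cases g <;> rfl
  rcases t with ⟨a, _ | b⟩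
  · simp only [cand, hs]; rfl
  · simp only [cand, hs]; rfl

variable {D D'}

theorem pairE (hD : Chain p r D.f) (hD' : Chain p r D'.f) {h : G} {h' : G'} {k : ℕ} (hk : k ≤ r)
    (hh : h ∈ Sp D.f k) (hh' : h' ∈ Sp D'.f k)
    (heq : ∀ j, j < k → dig p r D.f h j = dig p r D'.f h' j) : (h, h') ∈ EE D D' k :=
  Chain.pair_mem hD hD' hp.out hk hh hh' heq

theorem step1 (h : SameDigits D D') (k : Fin r) : eP D D' k ∈ Dg D D' := by
  obtain ⟨n, hn⟩ : ∃ n, r - (k : ℕ) = n := ⟨_, rfl⟩
  induction n using Nat.strong_induction_on generalizing k with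
  | _ n ih =>
    by_cases hkK : k ∈ σ.K
    · exact Subgroup.subset_closure (Or.inr ⟨k, hkK, rfl⟩)
    have ih' : ∀ l : ℕ, (k : ℕ) < l → l < r → eP D D' l ∈ Dg D D' := by
      intro l h1 h2
      exact ih (r - l) (by omega) ⟨l, h2⟩ rfl
    obtain ⟨a, ha1, ha2, ha3, ha4⟩ := D.d7 k hkK
    obtain ⟨b, hb1, hb2, hb3, hb4⟩ := D'.d7 k hkK
    have hab : ∀ j, j < r → a j = b j := by
      intro j hj
      have h1 := congrFun (h.g k hkK) j
      rw [ha4, hb4, D.chain.dig_nf hp.out a ha1 j hj, D'.chain.dig_nf hp.out b hb1 j hj] at h1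
      exact h1
    have hc : cand p (xP D D') (eP D D') (σ.τ k) = nf (eP D D') a r := by
      rw [cand_pair, ha4, hb4, nf_congr D'.f b a r (fun j hj => (hab j hj).symm)]
      exact (nf_pair D.f D'.f a r).symm
    obtain ⟨ok1, ok2⟩ := D.d7_ok k hkK
    have hs : ∀ g : Fin m ⊕ Fin r, okSym (σ.Y ∪ σ.Z) k g →
        sym (xP D D') (eP D D') g ∈ Dg D D' := by
      intro g hg
      cases g with
      | inl i => exact Subgroup.subset_closure (Or.inl ⟨i, hg, rfl⟩)
      | inr l => exact ih' l hg l.2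
    have hmem : cand p (xP D D') (eP D D') (σ.τ k) ∈ Dg D D' := by
      rcases hτ : σ.τ k with ⟨g1, _ | g2⟩
      · rw [hτ] at ok1
        exact Subgroup.pow_mem _ (hs _ ok1) _
      · rw [hτ] at ok1 ok2
        have h1 := hs _ ok1
        have h2 := hs _ (ok2 _ rfl)
        simp only [cand, commutatorElement_def]
        exact Subgroup.mul_mem _ (Subgroup.mul_mem _ (Subgroup.mul_mem _ h1 h2)
          (Subgroup.inv_mem _ h1)) (Subgroup.inv_mem _ h2)
    rw [hc] at hmem
    exact (nf_mem_iff (eP D D') (Dg D D') a (Nat.succ_le_of_lt k.2) ha3 ha2 ih').mp hmem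

theorem ex_eq (h : SameDigits D D') (g : Fin m ⊕ Fin r) (l : Fin r) (hl : l ∈ σ.K)
    (hlJ : l ∉ σ.J g) : D.ex g l = D'.ex g l := by
  funext j
  by_cases hj : ∃ hjr : j < r, (⟨j, hjr⟩ : Fin r) ∈ σ.J g
  · obtain ⟨hjr, hjJ⟩ := hj
    exact h.d2 g l hl hlJ ⟨j, hjr⟩ hjJ
  · have h1 : D.ex g l j = 0 := by
      by_contra h2
      exact hj (D.ex_supp g l j h2).2
    have h2 : D'.ex g l j = 0 := by
      by_contra h2
      exact hj (D'.ex_supp g l j h2).2
    rw [h1, h2]

theorem comm_mem_J (h : SameDigits D D') (g : Fin m ⊕ Fin r) (l : Fin r) (hlJ : l ∈ σ.J g) :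
    ⁅eP D D' l, sP D D' g⁆ ∈ EE D D' l :=
  pairE D.chain D'.chain l.2.le (D.chain.central l l.2 _) (D'.chain.central l l.2 _)
    (fun j _ => congrFun (h.d1 g l hlJ) j)

/-- Conjugation by a symbol of a normal form supported in `J g`. -/
theorem conj_nf_mem (h : SameDigits D D') (g : Fin m ⊕ Fin r) (a : ℕ → ℕ)
    (ha : ∀ j, a j ≠ 0 → ∃ hj : j < r, (⟨j, hj⟩ : Fin r) ∈ σ.J g) (k : ℕ) :
    sP D D' g * nf (eP D D') a k * (sP D D' g)⁻¹ ∈ EE D D' k := by
  induction k with
  | zero => simp [nf]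
  | succ k ih =>
    have h1 : sP D D' g * nf (eP D D') a (k + 1) * (sP D D' g)⁻¹ =
        (sP D D' g * (eP D D' k ^ a k) * (sP D D' g)⁻¹) *
          (sP D D' g * nf (eP D D') a k * (sP D D' g)⁻¹) := by
      simp only [nf]; group
    rw [h1]
    refine Subgroup.mul_mem _ ?_ (Sp_mono _ (Nat.le_succ k) ih)
    by_cases hak : a k = 0
    · rw [hak]; simp
    · obtain ⟨hk, hkJ⟩ := ha k hak
      have h2 : sP D D' g * (eP D D' k ^ a k) * (sP D D' g)⁻¹ =
          (sP D D' g * eP D D' k * (sP D D' g)⁻¹) ^ a k := by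
        rw [conj_pow]
      rw [h2]
      apply Subgroup.pow_mem
      have h3 : sP D D' g * eP D D' k * (sP D D' g)⁻¹ = ⁅eP D D' k, sP D D' g⁆⁻¹ * eP D D' k := by
        rw [commutatorElement_def]; group
      rw [h3]
      exact Subgroup.mul_mem _ (Subgroup.inv_mem _
        (Sp_mono _ (Nat.le_succ k) (comm_mem_J h g ⟨k, hk⟩ hkJ)))
        (mem_Sp_of_lt _ (Nat.lt_succ_self k))

theorem commute_pair (h : SameDigits D D') (g : Fin m ⊕ Fin r) (l : Fin r) (hl : l ∈ σ.K)
    (hlJ : l ∉ σ.J g) :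
    Commute (eP D D' l * nf (eP D D') (D.ex g l) l) (sP D D' g) := by
  have h1 := D.d5 g l hl hlJ
  have h2 := D'.d5 g l hl hlJ
  rw [← ex_eq h g l hl hlJ] at h2
  have h3 : nf (eP D D') (D.ex g l) l = (nf D.f (D.ex g l) l, nf D'.f (D.ex g l) l) :=
    nf_pair D.f D'.f _ _
  rw [h3]
  exact Prod.ext h1.eq h2.eq

theorem step2 (h : SameDigits D D') (g : Fin m ⊕ Fin r) (l : Fin r) (hl : l ∈ σ.K)
    (hn : eP D D' l ∈ Subgroup.normalizer (EE D D' l : Set (G × G'))) :
    ⁅eP D D' l, sP D D' g⁆ ∈ EE D D' l := by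
  by_cases hlJ : l ∈ σ.J g
  · exact comm_mem_J h g l hlJ
  · have hc := commute_pair h g l hl hlJ
    set e := eP D D' l
    set γ := sP D D' g
    set u := nf (eP D D') (D.ex g l) l with hu
    have hu1 : u ∈ EE D D' l := nf_mem _ _ _
    have hu2 : γ * u * γ⁻¹ ∈ EE D D' l :=
      conj_nf_mem h g _ (fun j hj => (D.ex_supp g l j hj).2) _
    have h1 : ⁅e, γ⁆ = e * ((γ * u * γ⁻¹) * u⁻¹) * e⁻¹ := by
      have h2 : γ * (e * u) * γ⁻¹ = e * u := by
        rw [← hc.eq]; group
      have h3 : γ * e⁻¹ * γ⁻¹ = (γ * u * γ⁻¹) * (e * u)⁻¹ := by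
        rw [← h2]; group
      rw [commutatorElement_def]
      calc e * γ * e⁻¹ * γ⁻¹ = e * (γ * e⁻¹ * γ⁻¹) := by group
        _ = e * ((γ * u * γ⁻¹) * (e * u)⁻¹) := by rw [h3]
        _ = _ := by group
    rw [h1]
    exact (Subgroup.mem_normalizer_iff.mp hn _).mp
      (Subgroup.mul_mem _ hu2 (Subgroup.inv_mem _ hu1))

/-- Step 3: `D` normalises every `E_k`. -/
theorem step3 (h : SameDigits D D') (k : ℕ) (hk : k ≤ r) :
    Dg D D' ≤ Subgroup.normalizer (EE D D' k : Set (G × G')) := by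
  haveI := finite_of_deco' D
  haveI := finite_of_deco' D'
  induction k with
  | zero =>
    have : EE D D' 0 = ⊥ := Sp_zero _
    rw [this]
    intro x _
    rw [Subgroup.mem_normalizer_iff]
    intro y
    simp only [Subgroup.mem_bot]
    constructor
    · rintro rfl; simp
    · intro hy
      have : y = x⁻¹ * (x * y * x⁻¹) * x := by group
      rw [this, hy]; simp
  | succ k ih =>
    have hkr : k < r := hk
    have ih := ih hkr.le
    set kf : Fin r := ⟨k, hkr⟩ with hkf
    have hek : eP D D' k ∈ Dg D D' := step1 h kf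
    have hekn := ih hek
    -- `Dg ≤ Qsub`
    have key : Dg D D' ≤ Qsub (EE D D' k) (eP D D' k) := by
      conv_lhs => unfold Dg
      rw [Subgroup.closure_le]
      rintro y (⟨i, hi, rfl⟩ | ⟨l, hlK, rfl⟩)
      · have hiD : xP D D' i ∈ Dg D D' := Subgroup.subset_closure (Or.inl ⟨i, hi, rfl⟩)
        refine ⟨ih hiD, comm_inv_mem ?_⟩
        by_cases hkK : kf ∈ σ.K
        · exact step2 h (Sum.inl i) kf hkK hekn
        · have hiYZ : i ∈ σ.Y ∨ i ∈ σ.Z := by simpa using hi
          rcases hiYZ with hiY | hiZ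
          · exact pairE D.chain D'.chain hkr.le (D.chain.central k hkr _)
              (D'.chain.central k hkr _) (fun j _ => congrFun (h.b i hiY kf hkK) j)
          · by_cases hks : k < (σ.s : ℕ)
            · exact pairE D.chain D'.chain hkr.le (D.chain.central k hkr _)
                (D'.chain.central k hkr _) (fun j hj => h.c1 i hiZ kf hkK hks j hj)
            · push Not at hks
              have hsr : (σ.s : ℕ) ≤ r := Nat.lt_succ_iff.mp σ.s.2
              exact Sp_mono _ hks (pairE D.chain D'.chain hsr (D.d3 k hkr i) (D'.d3 k hkr i)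
                (fun j hj => h.c2 i kf hkK hks j hj))
      · have hlD : eP D D' l ∈ Dg D D' := Subgroup.subset_closure (Or.inr ⟨l, hlK, rfl⟩)
        rcases lt_trichotomy (l : ℕ) k with hlk | hlk | hlk
        · exact mem_Qsub_of_mem (mem_Sp_of_lt _ hlk) hekn
        · refine ⟨ih hlD, ?_⟩
          rw [hlk]; simp
        · by_cases hkK : kf ∈ σ.K
          · exact ⟨ih hlD, comm_inv_mem (step2 h (Sum.inr l) kf hkK hekn)⟩
          · -- the code of `f k`
            have hJQ : ∀ j : Fin r, j ∈ σ.J (Sum.inr kf) → eP D D' j ∈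
                Qsub (EE D D' k) (eP D D' k) := by
              intro j hj
              have hjK : j ∈ σ.K := D.JK _ hj
              have hjD : eP D D' j ∈ Dg D D' := Subgroup.subset_closure (Or.inr ⟨j, hjK, rfl⟩)
              rcases lt_or_ge (j : ℕ) k with hjk | hjk
              · exact mem_Qsub_of_mem (mem_Sp_of_lt _ hjk) hekn
              · refine ⟨ih hjD, ?_⟩
                have hh := congrFun (h.d1 (Sum.inr kf) j hj)
                refine pairE D.chain D'.chain hkr.le ?_ ?_ (fun i _ => hh i)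
                · exact comm_inv_mem (D.chain.central k hkr _)
                · exact comm_inv_mem (D'.chain.central k hkr _)
            by_cases hlJ : l ∈ σ.J (Sum.inr kf)
            · exact hJQ l hlJ
            · have hc := commute_pair h (Sum.inr kf) l hlK hlJ
              have hsupp := fun j hj => (D.ex_supp (Sum.inr kf) l j hj).2
              have hnfQ : ∀ t, nf (eP D D') (D.ex (Sum.inr kf) l) t ∈
                  Qsub (EE D D' k) (eP D D' k) := by
                intro t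
                induction t with
                | zero => exact Subgroup.one_mem _
                | succ t iht =>
                  refine Subgroup.mul_mem _ ?_ iht
                  by_cases h0 : D.ex (Sum.inr kf) l t = 0
                  · rw [h0, pow_zero]; exact Subgroup.one_mem _
                  · obtain ⟨htr, htJ⟩ := hsupp t h0
                    exact Subgroup.pow_mem _ (hJQ ⟨t, htr⟩ htJ) _
              have h1 : eP D D' l * nf (eP D D') (D.ex (Sum.inr kf) l) l ∈
                  Qsub (EE D D' k) (eP D D' k) := by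
                refine ⟨Subgroup.mul_mem _ (ih hlD) (hnfQ l).1, ?_⟩
                have : ⁅eP D D' l * nf (eP D D') (D.ex (Sum.inr kf) l) l, eP D D' k⁆ = 1 :=
                  commutatorElement_eq_one_iff_commute.mpr hc
                rw [this]; exact Subgroup.one_mem _
              exact (Subgroup.mul_mem_cancel_right _ (hnfQ l)).mp h1
    intro δ hδ
    obtain ⟨hδ1, hδ2⟩ := key hδ
    apply Subgroup.mem_normalizer_fintype
    intro n hn
    have hn' : n ∈ Sp (eP D D') (k + 1) := hn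
    rw [Sp_succ] at hn'
    refine Subgroup.closure_induction (p := fun y _ => δ * y * δ⁻¹ ∈ EE D D' (k + 1))
      ?_ ?_ ?_ ?_ hn
    · rintro y ⟨j, hj, rfl⟩
      rcases Nat.lt_succ_iff_lt_or_eq.mp hj with hjk | hjk
      · exact Sp_mono _ (Nat.le_succ k)
          ((Subgroup.mem_normalizer_iff.mp hδ1 _).mp (mem_Sp_of_lt _ hjk))
      · have : δ * eP D D' j * δ⁻¹ = ⁅δ, eP D D' k⁆ * eP D D' k := by
          rw [hjk, commutatorElement_def]; group
        rw [this]
        exact Subgroup.mul_mem _ (Sp_mono _ (Nat.le_succ k) hδ2)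
          (mem_Sp_of_lt _ (Nat.lt_succ_self k))
    · simp
    · intro x y _ _ hx hy
      have : δ * (x * y) * δ⁻¹ = (δ * x * δ⁻¹) * (δ * y * δ⁻¹) := by group
      rw [this]; exact Subgroup.mul_mem _ hx hy
    · intro x _ hx
      have : δ * x⁻¹ * δ⁻¹ = (δ * x * δ⁻¹)⁻¹ := by group
      rw [this]; exact Subgroup.inv_mem _ hx

theorem Sp_le_Dg (h : SameDigits D D') : EE D D' r ≤ Dg D D' := by
  refine (Subgroup.closure_le _).mpr ?_
  rintro y ⟨k, hk, rfl⟩
  exact step1 h ⟨k, hk⟩

theorem map_fst_Sp (k : ℕ) : (EE D D' k).map (MonoidHom.fst G G') = Sp D.f k := by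
  change (Subgroup.closure _).map _ = Subgroup.closure _
  rw [MonoidHom.map_closure, ← Set.image_comp]
  rfl

theorem map_snd_Sp (k : ℕ) : (EE D D' k).map (MonoidHom.snd G G') = Sp D'.f k := by
  change (Subgroup.closure _).map _ = Subgroup.closure _
  rw [MonoidHom.map_closure, ← Set.image_comp]
  rfl

/-- Order of `E_k`. -/
theorem card_EE (h : SameDigits D D') (k : ℕ) (hk : k ≤ r) : Nat.card (EE D D' k) = p ^ k := by
  haveI := finite_of_deco' D
  haveI := finite_of_deco' D'
  apply le_antisymm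
  · induction k with
    | zero =>
      have : EE D D' 0 = ⊥ := Sp_zero _
      rw [this]; simp
    | succ k ih =>
      have hkr : k < r := hk
      have h1 : EE D D' (k + 1) = Subgroup.closure ((fun _ : Unit => eP D D' k) ''
          ((({()} : Finset Unit)) : Set Unit)) ⊔ EE D D' k := by
        have : EE D D' (k + 1) = _ := Sp_succ (eP D D') k
        rw [this]; simp
      rw [h1]
      have hD := step1 h ⟨k, hkr⟩
      refine (card_closure_sup_le hp.out.pos (EE D D' k) (fun _ : Unit => eP D D' k) {()}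
        ?_ ?_ ?_).trans ?_
      · intro _ _ y hy
        exact (Subgroup.mem_normalizer_iff.mp (step3 h k hkr.le hD) _).mp hy
      · intro _ _
        exact pairE D.chain D'.chain hkr.le (D.chain.pow_mem hp.out hkr)
          (D'.chain.pow_mem hp.out hkr) (fun j _ => congrFun (h.a ⟨k, hkr⟩) j)
      · intro _ _ _ _; simp
      · simp only [Finset.card_singleton, pow_one]
        rw [pow_succ, mul_comm (p ^ k)]
        exact Nat.mul_le_mul_left _ (ih hkr.le)
  · rw [← D.chain.card k hk, ← map_fst_Sp (D := D) (D' := D') k]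
    exact Nat.card_le_card_of_surjective (fun y : EE D D' k =>
      (⟨MonoidHom.fst G G' y, Subgroup.mem_map_of_mem _ y.2⟩ :
        (EE D D' k).map (MonoidHom.fst G G'))) (by
        rintro ⟨y, z, hz, rfl⟩
        exact ⟨⟨z, hz⟩, rfl⟩)

theorem comm_xx_mem (h : SameDigits D D') {i j : Fin m} (hY : i ∈ σ.Y ∨ j ∈ σ.Y) :
    ⁅xP D D' i, xP D D' j⁆ ∈ EE D D' r := by
  rcases lt_trichotomy i j with hij | hij | hij
  · exact pairE D.chain D'.chain le_rfl (D.comm_mem i j) (D'.comm_mem i j)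
      (fun k _ => congrFun (h.f1 i j hij hY) k)
  · rw [hij]; simp
  · apply comm_inv_mem
    exact pairE D.chain D'.chain le_rfl (D.comm_mem j i) (D'.comm_mem j i)
      (fun k _ => congrFun (h.f1 j i hij hY.symm) k)

theorem pow_x_mem (h : SameDigits D D') (i : Fin m) : xP D D' i ^ p ∈ EE D D' r :=
  pairE D.chain D'.chain le_rfl (D.pow_mem i) (D'.pow_mem i) (fun k _ => congrFun (h.e i) k)

/-- Order of the subgroup generated by `Sp f r` and some of the `x i`. -/
theorem card_L (D : Deco p m r σ G) (S : Finset (Fin m)) :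
    p ^ (S.card + r) ≤
      Nat.card (Subgroup.closure (D.x '' (S : Set (Fin m))) ⊔ Sp D.f r : Subgroup G) := by
  haveI := finite_of_deco' D
  set L := (Subgroup.closure (D.x '' (S : Set (Fin m))) ⊔ Sp D.f r : Subgroup G) with hL
  have hFL : Sp D.f r ≤ L := le_sup_right
  haveI hn : (Sp D.f r).Normal := D.chain.normal le_rfl
  have hc : ∀ i j, ⁅D.x i, D.x j⁆ ∈ L := fun i j => hFL (D.comm_mem i j)
  have h1 := card_closure_sup_le hp.out.pos L D.x (Sᶜ) (by
      intro i _ y hy
      rw [hL, Subgroup.sup_eq_closure_mul] at hy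
      refine Subgroup.closure_induction (p := fun y _ => D.x i * y * (D.x i)⁻¹ ∈ L)
        ?_ ?_ ?_ ?_ hy
      · rintro y ⟨a, ha, b, hb, rfl⟩
        have : D.x i * (a * b) * (D.x i)⁻¹ = (D.x i * a * (D.x i)⁻¹) * (D.x i * b * (D.x i)⁻¹) := by
          group
        change D.x i * (a * b) * (D.x i)⁻¹ ∈ L
        rw [this]
        refine Subgroup.mul_mem _ ?_ (hFL (hn.conj_mem b hb _))
        refine Subgroup.closure_induction (p := fun y _ => D.x i * y * (D.x i)⁻¹ ∈ L)
          ?_ ?_ ?_ ?_ ha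
        · rintro _ ⟨j, hj, rfl⟩
          have : D.x i * D.x j * (D.x i)⁻¹ = ⁅D.x i, D.x j⁆ * D.x j := by
            rw [commutatorElement_def]; group
          rw [this]
          refine Subgroup.mul_mem _ (hc i j) ?_
          exact le_sup_left (a := Subgroup.closure (D.x '' (S : Set (Fin m))))
            (Subgroup.subset_closure ⟨j, hj, rfl⟩)
        · simp
        · intro x y _ _ hx hy
          have : D.x i * (x * y) * (D.x i)⁻¹ = (D.x i * x * (D.x i)⁻¹) * (D.x i * y * (D.x i)⁻¹) := by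
            group
          rw [this]; exact Subgroup.mul_mem _ hx hy
        · intro x _ hx
          have : D.x i * x⁻¹ * (D.x i)⁻¹ = (D.x i * x * (D.x i)⁻¹)⁻¹ := by group
          rw [this]; exact Subgroup.inv_mem _ hx
      · simp
      · intro x y _ _ hx hy
        have : D.x i * (x * y) * (D.x i)⁻¹ = (D.x i * x * (D.x i)⁻¹) * (D.x i * y * (D.x i)⁻¹) := by
          group
        rw [this]; exact Subgroup.mul_mem _ hx hy
      · intro x _ hx
        have : D.x i * x⁻¹ * (D.x i)⁻¹ = (D.x i * x * (D.x i)⁻¹)⁻¹ := by group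
        rw [this]; exact Subgroup.inv_mem _ hx)
    (fun i _ => hFL (D.pow_mem i)) (fun i _ j _ => hc i j)
  have h2 : (Subgroup.closure (D.x '' ((Sᶜ : Finset (Fin m)) : Set (Fin m))) ⊔ L : Subgroup G) = ⊤ := by
    rw [eq_top_iff, ← D.gen]
    refine sup_le ?_ (hFL.trans le_sup_right)
    rw [Subgroup.closure_le]
    rintro _ ⟨i, rfl⟩
    by_cases hi : i ∈ S
    · exact (le_sup_left.trans le_sup_right : Subgroup.closure (D.x '' (S : Set (Fin m))) ≤ _)
        (Subgroup.subset_closure ⟨i, hi, rfl⟩)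
    · exact (le_sup_left : Subgroup.closure (D.x '' ((Sᶜ : Finset (Fin m)) : Set (Fin m))) ≤ _)
        (Subgroup.subset_closure ⟨i, by simpa using hi, rfl⟩)
  rw [h2, Subgroup.card_top, D.cardG, Finset.card_compl, Fintype.card_fin] at h1
  have hSm : S.card ≤ m := by simpa using Finset.card_le_univ S
  have h3 : p ^ (m + r) = p ^ (m - S.card) * p ^ (S.card + r) := by
    rw [← pow_add]; congr 1; omega
  rw [h3] at h1
  exact Nat.le_of_mul_le_mul_left h1 (pow_pos hp.out.pos _)

/-- The group `⟨X_i (i ∈ S)⟩ E`. -/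
def LX (D : Deco p m r σ G) (D' : Deco p m r σ G') (S : Finset (Fin m)) : Subgroup (G × G') :=
  Subgroup.closure (xP D D' '' (S : Set (Fin m))) ⊔ EE D D' r

theorem map_fst_LX (S : Finset (Fin m)) : (LX D D' S).map (MonoidHom.fst G G') =
    Subgroup.closure (D.x '' (S : Set (Fin m))) ⊔ Sp D.f r := by
  rw [LX, Subgroup.map_sup, map_fst_Sp, MonoidHom.map_closure, ← Set.image_comp]
  rfl

/-- If `S` consists of indices whose `X` normalise `E` and commute modulo `E`, then `fst` is
injective on `LX S`. -/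
theorem fst_inj_LX (h : SameDigits D D') (S : Finset (Fin m))
    (hn : ∀ i ∈ S, xP D D' i ∈ Subgroup.normalizer (EE D D' r : Set (G × G')))
    (hc : ∀ i ∈ S, ∀ j ∈ S, ⁅xP D D' i, xP D D' j⁆ ∈ EE D D' r) :
    Nat.card (LX D D' S) = p ^ (S.card + r) ∧
      ∀ y ∈ LX D D' S, ∀ z ∈ LX D D' S, y.1 = z.1 → y = z := by
  haveI := finite_of_deco' D
  haveI := finite_of_deco' D'
  have h1 : Nat.card (LX D D' S) ≤ p ^ (S.card + r) := by
    refine (card_closure_sup_le hp.out.pos (EE D D' r) (xP D D') S ?_ ?_ hc).trans ?_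
    · intro i hi y hy
      exact (Subgroup.mem_normalizer_iff.mp (hn i hi) _).mp hy
    · intro i _; exact pow_x_mem h i
    · rw [card_EE h r le_rfl, pow_add]
  have hsurj : Function.Surjective (fun y : LX D D' S =>
      (⟨MonoidHom.fst G G' y, Subgroup.mem_map_of_mem _ y.2⟩ :
        (LX D D' S).map (MonoidHom.fst G G'))) := by
    rintro ⟨y, z, hz, rfl⟩
    exact ⟨⟨z, hz⟩, rfl⟩
  have h2 : p ^ (S.card + r) ≤ Nat.card ((LX D D' S).map (MonoidHom.fst G G')) := by
    rw [map_fst_LX]; exact card_L D S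
  have h3 : Nat.card ((LX D D' S).map (MonoidHom.fst G G')) ≤ Nat.card (LX D D' S) :=
    Nat.card_le_card_of_surjective _ hsurj
  have h4 : Nat.card (LX D D' S) = p ^ (S.card + r) := le_antisymm h1 (h2.trans h3)
  refine ⟨h4, ?_⟩
  have hinj : Function.Injective (fun y : LX D D' S =>
      (⟨MonoidHom.fst G G' y, Subgroup.mem_map_of_mem _ y.2⟩ :
        (LX D D' S).map (MonoidHom.fst G G'))) := by
    have hcard : Nat.card (LX D D' S) = Nat.card ((LX D D' S).map (MonoidHom.fst G G')) :=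
      le_antisymm (h1.trans h2) h3
    exact ((Nat.bijective_iff_surjective_and_card _).mpr ⟨hsurj, hcard⟩).1
  intro y hy z hz hyz
  have := @hinj ⟨y, hy⟩ ⟨z, hz⟩ (Subtype.ext hyz)
  exact congrArg Subtype.val this

theorem xY_norm (h : SameDigits D D') (i : Fin m) (hi : i ∈ σ.Y) :
    xP D D' i ∈ Subgroup.normalizer (EE D D' r : Set (G × G')) :=
  step3 h r le_rfl (Subgroup.subset_closure (Or.inl ⟨i, by simp [hi], rfl⟩))

/-- `LX Y` is generated by `X_i (i ∈ Y)` and `e_k (k ∈ K or k ≥ s)`. -/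
theorem LX_eq (h : SameDigits D D') : LX D D' σ.Y =
    Subgroup.closure (xP D D' '' (σ.Y : Set (Fin m)) ∪
        {y | ∃ k : Fin r, (k ∈ σ.K ∨ (σ.s : ℕ) ≤ k) ∧ y = eP D D' k}) := by
  haveI := finite_of_deco' D
  haveI := finite_of_deco' D'
  set M := Subgroup.closure (xP D D' '' (σ.Y : Set (Fin m)) ∪
        {y | ∃ k : Fin r, (k ∈ σ.K ∨ (σ.s : ℕ) ≤ k) ∧ y = eP D D' k}) with hM
  have hle : M ≤ LX D D' σ.Y := by
    rw [hM, Subgroup.closure_le]
    rintro y (⟨i, hi, rfl⟩ | ⟨k, _, rfl⟩)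
    · exact (le_sup_left : Subgroup.closure (xP D D' '' (σ.Y : Set (Fin m))) ≤ _)
        (Subgroup.subset_closure ⟨i, hi, rfl⟩)
    · exact (le_sup_right : EE D D' r ≤ LX D D' σ.Y) (mem_Sp_of_lt _ k.2)
  have hmap : (LX D D' σ.Y).map (MonoidHom.fst G G') ≤ M.map (MonoidHom.fst G G') := by
    rw [map_fst_LX, hM, MonoidHom.map_closure]
    have himg : (MonoidHom.fst G G') '' (xP D D' '' (σ.Y : Set (Fin m)) ∪
        {y | ∃ k : Fin r, (k ∈ σ.K ∨ (σ.s : ℕ) ≤ k) ∧ y = eP D D' k}) =
        D.x '' (σ.Y : Set (Fin m)) ∪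
        {y | ∃ k : Fin r, (k ∈ σ.K ∨ (σ.s : ℕ) ≤ k) ∧ y = D.f k} := by
      ext y
      constructor
      · rintro ⟨z, (⟨i, hi, rfl⟩ | ⟨k, hk, rfl⟩), rfl⟩
        · exact Or.inl ⟨i, hi, rfl⟩
        · exact Or.inr ⟨k, hk, rfl⟩
      · rintro (⟨i, hi, rfl⟩ | ⟨k, hk, rfl⟩)
        · exact ⟨_, Or.inl ⟨i, hi, rfl⟩, rfl⟩
        · exact ⟨_, Or.inr ⟨k, hk, rfl⟩, rfl⟩
    rw [himg]
    refine sup_le ?_ D.d6
    exact Subgroup.closure_mono Set.subset_union_left
  obtain ⟨_, hinj⟩ := fst_inj_LX h σ.Y (xY_norm h) (fun i hi j _ => comm_xx_mem h (Or.inl hi))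
  apply le_antisymm _ hle
  intro y hy
  obtain ⟨z, hz, hzy⟩ := hmap (Subgroup.mem_map_of_mem _ hy)
  rw [hinj y hy z (hle hz) hzy.symm]
  exact hz

/-- Step 4: every `X_j` normalises `E`. -/
theorem step4 (h : SameDigits D D') (j : Fin m) :
    xP D D' j ∈ Subgroup.normalizer (EE D D' r : Set (G × G')) := by
  haveI := finite_of_deco' D
  haveI := finite_of_deco' D'
  obtain ⟨_, hinj⟩ := fst_inj_LX h σ.Y (xY_norm h) (fun i hi j _ => comm_xx_mem h (Or.inl hi))
  have hE : EE D D' r ≤ LX D D' σ.Y := le_sup_right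
  -- conjugation maps `LX Y` into itself
  have hconj : ∀ y ∈ LX D D' σ.Y, xP D D' j * y * (xP D D' j)⁻¹ ∈ LX D D' σ.Y := by
    intro y hy
    rw [LX_eq h] at hy
    refine Subgroup.closure_induction
      (p := fun y _ => xP D D' j * y * (xP D D' j)⁻¹ ∈ LX D D' σ.Y) ?_ ?_ ?_ ?_ hy
    · rintro y (⟨i, hi, rfl⟩ | ⟨k, hk, rfl⟩)
      · have : xP D D' j * xP D D' i * (xP D D' j)⁻¹ = ⁅xP D D' j, xP D D' i⁆ * xP D D' i := by
          rw [commutatorElement_def]; group
        rw [this]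
        exact Subgroup.mul_mem _ (hE (comm_xx_mem h (Or.inr hi)))
          ((le_sup_left : Subgroup.closure (xP D D' '' (σ.Y : Set (Fin m))) ≤ _)
            (Subgroup.subset_closure ⟨i, hi, rfl⟩))
      · have : xP D D' j * eP D D' k * (xP D D' j)⁻¹ = ⁅eP D D' k, xP D D' j⁆⁻¹ * eP D D' k := by
          rw [commutatorElement_def]; group
        rw [this]
        refine hE (Subgroup.mul_mem _ (Subgroup.inv_mem _ ?_) (mem_Sp_of_lt _ k.2))
        by_cases hkK : k ∈ σ.K
        · exact Sp_mono _ k.2.le (step2 h (Sum.inl j) k hkK (step3 h k k.2.le (step1 h k)))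
        · have hks : (σ.s : ℕ) ≤ k := by
            rcases hk with hk | hk
            · exact absurd hk hkK
            · exact hk
          have hsr : (σ.s : ℕ) ≤ r := Nat.lt_succ_iff.mp σ.s.2
          exact Sp_mono _ hsr (pairE D.chain D'.chain hsr (D.d3 k k.2 j) (D'.d3 k k.2 j)
                (fun i hi => h.c2 j k hkK hks i hi))
    · simp
    · intro x y _ _ hx hy
      have : xP D D' j * (x * y) * (xP D D' j)⁻¹ =
        (xP D D' j * x * (xP D D' j)⁻¹) * (xP D D' j * y * (xP D D' j)⁻¹) := by group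
      rw [this]; exact Subgroup.mul_mem _ hx hy
    · intro x _ hx
      have : xP D D' j * x⁻¹ * (xP D D' j)⁻¹ = (xP D D' j * x * (xP D D' j)⁻¹)⁻¹ := by group
      rw [this]; exact Subgroup.inv_mem _ hx
  apply Subgroup.mem_normalizer_fintype
  intro y hy
  have h1 := hconj y (hE hy)
  have h2 : (xP D D' j * y * (xP D D' j)⁻¹).1 ∈ Sp D.f r := by
    haveI hn : (Sp D.f r).Normal := D.chain.normal le_rfl
    have : y.1 ∈ Sp D.f r := by
      rw [← map_fst_Sp (D := D) (D' := D') r]
      exact Subgroup.mem_map_of_mem _ hy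
    exact hn.conj_mem _ this _
  rw [← map_fst_Sp (D := D) (D' := D') r] at h2
  obtain ⟨z, hz, hzy⟩ := h2
  have h3 := hinj z (hE hz) _ h1 hzy
  rw [← h3]
  exact hz

/-- Step 5. -/
theorem step5 (h : SameDigits D D') (i j : Fin m) : ⁅xP D D' i, xP D D' j⁆ ∈ EE D D' r := by
  haveI := finite_of_deco' D
  haveI := finite_of_deco' D'
  wlog hij : i < j generalizing i j
  · rcases lt_or_eq_of_le (not_lt.mp hij) with h1 | h1
    · exact comm_inv_mem (this j i h1)
    · rw [h1]; simp
  by_cases hY : i ∈ σ.Y ∨ j ∈ σ.Y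
  · exact comm_xx_mem h hY
  have hpr := hp.out
  set c := ⁅D.x i, D.x j⁆ with hc
  set c' := ⁅D'.x i, D'.x j⁆ with hc'
  have hcF : c ∈ Sp D.f r := D.comm_mem i j
  have hcF' : c' ∈ Sp D'.f r := D'.comm_mem i j
  obtain ⟨s1, s2, s3⟩ := D.chain.dig_spec hpr hcF
  obtain ⟨t1, t2, t3⟩ := D'.chain.dig_spec hpr hcF'
  set c'' := nf D'.f (dig p r D.f c) r with hc''
  have hE : (c, c'') ∈ EE D D' r := by
    have : (c, c'') = nf (eP D D') (dig p r D.f c) r := by
      have h1 := nf_pair D.f D'.f (dig p r D.f c) r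
      rw [← s3] at h1
      exact h1.symm
    rw [this]; exact nf_mem _ _ _
  set d := c''⁻¹ * c' with hd
  have hcomm : (c, c') = ⁅xP D D' i, xP D D' j⁆ := rfl
  obtain ⟨_, hinj⟩ := fst_inj_LX h σ.Y (xY_norm h) (fun i hi j _ => comm_xx_mem h (Or.inl hi))
  have hELX : EE D D' r ≤ LX D D' σ.Y := le_sup_right
  have hdY : ∀ l ∈ σ.Y, Commute d (D'.x l) := by
    intro l hl
    have hQi : xP D D' i ∈ Qsub (EE D D' r) (xP D D' l) := ⟨step4 h i, comm_xx_mem h (Or.inr hl)⟩
    have hQj : xP D D' j ∈ Qsub (EE D D' r) (xP D D' l) := ⟨step4 h j, comm_xx_mem h (Or.inr hl)⟩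
    have hQc : (c, c') ∈ Qsub (EE D D' r) (xP D D' l) := by
      rw [hcomm, commutatorElement_def]
      exact Subgroup.mul_mem _ (Subgroup.mul_mem _ (Subgroup.mul_mem _ hQi hQj)
        (Subgroup.inv_mem _ hQi)) (Subgroup.inv_mem _ hQj)
    have hQc'' : (c, c'') ∈ Qsub (EE D D' r) (xP D D' l) := mem_Qsub_of_mem hE (step4 h l)
    have hQd := Subgroup.mul_mem _ (Subgroup.inv_mem _ hQc'') hQc
    have h1 := hQd.2
    have h2 : (⁅(c, c'')⁻¹ * (c, c'), xP D D' l⁆ : G × G') = (1, ⁅d, D'.x l⁆) := by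
      apply Prod.ext
      · change ⁅c⁻¹ * c, D.x l⁆ = 1
        rw [inv_mul_cancel]; simp
      · rfl
    rw [h2] at h1
    have h3 := hinj _ (hELX h1) 1 (Subgroup.one_mem _) rfl
    have h4 : ⁅d, D'.x l⁆ = 1 := congrArg Prod.snd h3
    exact commutatorElement_eq_one_iff_commute.mp h4
  have hdF : d ∈ Sp D'.f r := Subgroup.mul_mem _ (Subgroup.inv_mem _ (nf_mem _ _ _)) hcF'
  -- `d = 1`
  have hd1 : ∀ k, k ≤ r → d ∈ Sp D'.f (r - k) := by
    intro k
    induction k with
    | zero => intro _; exact hdF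
    | succ k ih =>
      intro hk
      have h1 := ih (by omega)
      by_contra hnot
      have hlt : r - (k + 1) < r := by omega
      have hsucc : r - (k + 1) + 1 = r - k := by omega
      have hK := D'.d4 ⟨r - (k + 1), hlt⟩ d (by rw [hsucc]; exact h1) hnot hdY
      have hdig := h.f2 i j hij _ hK
      rw [← hc, ← hc'] at hdig
      apply hnot
      have e1 : d = (nf D'.f (dig p r D.f c) r)⁻¹ * nf D'.f (dig p r D'.f c') r := by
        rw [hd, hc'', ← t3]
      rw [e1, D'.chain.nf_coset hpr _ _ s1 t1 (by omega) le_rfl]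
      intro q hq1 hq2
      rcases Nat.eq_or_lt_of_le hq1 with hq | hq
      · rw [← hq]; exact hdig
      · have h5 := h1
        rw [e1, D'.chain.nf_coset hpr _ _ s1 t1 (by omega) le_rfl] at h5
        exact h5 q (by omega) hq2
  have hdone : d = 1 := by
    have := hd1 r le_rfl
    rw [Nat.sub_self, Sp_zero, Subgroup.mem_bot] at this
    exact this
  have hcc : c' = c'' := by
    rw [hd, inv_mul_eq_one] at hdone
    exact hdone.symm
  rw [← hcomm, hcc]
  exact hE

end main

/-- Theorem 1. -/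
theorem iso_of_sameDigits {p m r : ℕ} [hp : Fact p.Prime] {σ : Skel m r} {G G' : Type} [Group G]
    [Group G'] (D : Deco p m r σ G) (D' : Deco p m r σ G') (h : SameDigits D D') :
    Nonempty (G ≃* G') := by
  haveI := finite_of_deco' D
  haveI := finite_of_deco' D'
  obtain ⟨hcard, hinj⟩ := fst_inj_LX h Finset.univ (fun i _ => step4 h i)
    (fun i _ j _ => step5 h i j)
  set W := LX D D' Finset.univ with hW
  have hcardW : Nat.card W = p ^ (m + r) := by
    rw [hcard, Finset.card_univ, Fintype.card_fin]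
  -- projections
  have hfst : W.map (MonoidHom.fst G G') = ⊤ := by
    rw [hW, map_fst_LX, Finset.coe_univ, Set.image_univ]; exact D.gen
  have hsnd : W.map (MonoidHom.snd G G') = ⊤ := by
    rw [hW, LX, Subgroup.map_sup, map_snd_Sp, MonoidHom.map_closure, ← Set.image_comp]
    rw [Finset.coe_univ, Set.image_univ]
    exact D'.gen
  let φ : W →* G := (MonoidHom.fst G G').comp W.subtype
  let ψ : W →* G' := (MonoidHom.snd G G').comp W.subtype
  have hφs : Function.Surjective φ := by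
    intro g
    have : g ∈ W.map (MonoidHom.fst G G') := by rw [hfst]; trivial
    obtain ⟨z, hz, rfl⟩ := this
    exact ⟨⟨z, hz⟩, rfl⟩
  have hψs : Function.Surjective ψ := by
    intro g
    have : g ∈ W.map (MonoidHom.snd G G') := by rw [hsnd]; trivial
    obtain ⟨z, hz, rfl⟩ := this
    exact ⟨⟨z, hz⟩, rfl⟩
  have hφ : Function.Bijective φ :=
    (Nat.bijective_iff_surjective_and_card _).mpr ⟨hφs, by rw [hcardW, D.cardG]⟩
  have hψ : Function.Bijective ψ :=
    (Nat.bijective_iff_surjective_and_card _).mpr ⟨hψs, by rw [hcardW, D'.cardG]⟩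
  exact ⟨(MulEquiv.ofBijective φ hφ).symm.trans (MulEquiv.ofBijective ψ hψ)⟩

end Pool.Agent.Helper252_Enum
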