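import Pool.Agent.Helper252_Enum.Defs

set_option autoImplicit false

open scoped commutatorElement

namespace Pool.Agent.Helper252_Enum

/-
PROOF OF THE TARGET.
Elementary facts on a Chain: Sp f k <= Sp f (k+1); Sp f (k+1) = closure({f k}) ⊔ Sp f k; Sp f k has index p in Sp f (k+1), all Sp f k are normal (g f_j g⁻¹ = ⁅g,f_j⁆ f_j,
⁅g,f_j⁆ = ⁅f_j,g⁆⁻¹ in Sp f j); every h in Sp f (k+1) is f_k^e h' with 0 <= e < p, h' in Sp f k. Let C = K ⊓ centralizer{g},
J = {l in Ks : no element of C lies in Sp f (l+1) \ Sp f l}.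
(1) |J| <= c: for a subgroup K' <= Sp f r: |K'| = p^{#{l : K' has an element in Sp f (l+1) \ Sp f l}} (|K' ⊓ Sp f (l+1)| is p |K' ⊓ Sp f l| or |K' ⊓ Sp f l| accordingly). For K the levels are
exactly Ks (hK1, hK2), for C they are Ks \ J. So |K| = p^{|Ks|}, |C| = p^{|Ks|-|J|} and hc gives |J| <= c.
(2) For every k <= r and h in K ⊓ Sp f k there are exponents a : ℕ -> ℕ, a j < p, supported in {j < k : j in J}, and d in C ⊓ Sp f k with h = nf f a k * d. Induction on k:
for h in K ⊓ Sp f (k+1) not in Sp f k (else trivial: a k = 0): k in Ks by hK2. If k in J: h = f_k^e h', f_k in K so h' in K ⊓ Sp f k, h' = nf f a' k * d; put a k = e. If k ∉ J there is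
c0 in C in Sp f (k+1) \ Sp f k; a power of it satisfies h c0^{-e} in Sp f k (quotient of order p), h c0^{-e} = nf f a' k * d', h = nf f a' k * (d' c0^e).
(3) For l in Ks \ J: there is c0 in C with c0 in Sp f (l+1) \ Sp f l; taking a power we may assume c0 = f_l h with h in Sp f l (the quotient has order p and f_l generates it), h in K since f_l, c0 in K. By (2)
h = nf f a l * d with d in C; so f_l * nf f a l = c0 d⁻¹ commutes with g. Put e l = a. For other l put e l = 0.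
-/

namespace J_lemmaK

variable {G : Type*} [Group G]

theorem Sp_mono (f : ℕ → G) {k l : ℕ} (h : k ≤ l) : Sp f k ≤ Sp f l :=
  Subgroup.closure_mono (Set.image_mono (Set.Iio_subset_Iio h))

theorem mem_Sp (f : ℕ → G) {k l : ℕ} (h : k < l) : f k ∈ Sp f l :=
  Subgroup.subset_closure ⟨k, h, rfl⟩

theorem Sp_zero (f : ℕ → G) : Sp f 0 = ⊥ := by
  simp [Sp]

theorem Sp_normal {p r : ℕ} {f : ℕ → G} (hf : Chain p r f) {k : ℕ} (hk : k ≤ r) : (Sp f k).Normal := by
  constructor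
  intro n hn g
  have key : ∀ j, j < k → g * f j * g⁻¹ ∈ Sp f k := by
    intro j hj
    have h1 := Sp_mono f hj.le (hf.central j (hj.trans_le hk) g)
    have h2 : g * f j * g⁻¹ = ⁅f j, g⁆⁻¹ * f j := by
      rw [commutatorElement_def]; group
    rw [h2]
    exact (Sp f k).mul_mem ((Sp f k).inv_mem h1) (mem_Sp f hj)
  have h3 : Sp f k ≤ (Sp f k).comap (MulAut.conj g).toMonoidHom := by
    rw [Sp, Subgroup.closure_le]
    rintro _ ⟨j, hj, rfl⟩
    exact key j hj
  exact h3 hn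

theorem f_not_mem [Finite G] {p r : ℕ} [hp : Fact p.Prime] {f : ℕ → G} (hf : Chain p r f) {k : ℕ} (hk : k < r) :
    f k ∉ Sp f k := by
  intro h
  have h1 : Sp f (k + 1) ≤ Sp f k := by
    rw [Sp, Subgroup.closure_le]
    rintro _ ⟨j, hj, rfl⟩
    rcases Nat.lt_succ_iff_lt_or_eq.1 hj with h2 | h2
    · exact mem_Sp f h2
    · rw [h2]; exact h
  have h2 : Sp f (k + 1) = Sp f k := le_antisymm h1 (Sp_mono f (Nat.le_succ k))
  have h3 := hf.card (k + 1) hk
  rw [h2, hf.card k hk.le] at h3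
  have := Nat.pow_right_injective hp.out.two_le h3
  omega

theorem relIdx [Finite G] {p r : ℕ} [hp : Fact p.Prime] {f : ℕ → G} (hf : Chain p r f) {k : ℕ} (hk : k < r) :
    (Sp f k).relIndex (Sp f (k + 1)) = p := by
  have h1 := Subgroup.relIndex_mul_relIndex (⊥ : Subgroup G) (Sp f k) (Sp f (k + 1)) bot_le (Sp_mono f (Nat.le_succ k))
  rw [Subgroup.relIndex_bot_left, Subgroup.relIndex_bot_left, hf.card k hk.le, hf.card (k + 1) hk, pow_succ] at h1
  exact Nat.eq_of_mul_eq_mul_left (pow_pos hp.out.pos k) h1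

theorem gen [Finite G] {p r : ℕ} [hp : Fact p.Prime] {f : ℕ → G} (hf : Chain p r f) {k : ℕ} (hk : k < r) {x y : G}
    (hx : x ∈ Sp f (k + 1)) (hx' : x ∉ Sp f k) (hy : y ∈ Sp f (k + 1)) :
    ∃ e : ℕ, e < p ∧ ∃ h ∈ Sp f k, y = x ^ e * h := by
  have hN := Sp_normal hf hk.le
  have hN' : ((Sp f k).subgroupOf (Sp f (k + 1))).Normal := Subgroup.normal_subgroupOf
  have hcard : Nat.card (Sp f (k + 1) ⧸ (Sp f k).subgroupOf (Sp f (k + 1))) = p := relIdx hf hk
  set X : Sp f (k + 1) ⧸ (Sp f k).subgroupOf (Sp f (k + 1)) := QuotientGroup.mk ⟨x, hx⟩ with hX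
  set Y : Sp f (k + 1) ⧸ (Sp f k).subgroupOf (Sp f (k + 1)) := QuotientGroup.mk ⟨y, hy⟩ with hY
  have hX1 : X ≠ 1 := by
    intro h
    rw [hX, QuotientGroup.eq_one_iff, Subgroup.mem_subgroupOf] at h
    exact hx' h
  have hXp : X ^ p = 1 := by
    rw [← hcard]; exact pow_card_eq_one'
  obtain ⟨n, hn⟩ := (Submonoid.mem_powers_iff _ _).1 (mem_powers_of_prime_card hcard hX1 (g' := Y))
  have hn' : X ^ (n % p) = Y := by
    rw [← hn]
    conv_rhs => rw [← Nat.mod_add_div n p, pow_add, pow_mul, hXp, one_pow, mul_one]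
  refine ⟨n % p, Nat.mod_lt _ hp.out.pos, (x ^ (n % p))⁻¹ * y, ?_, by group⟩
  have h1 : (QuotientGroup.mk (⟨x, hx⟩ ^ (n % p)) : Sp f (k + 1) ⧸ (Sp f k).subgroupOf (Sp f (k + 1))) =
      QuotientGroup.mk ⟨y, hy⟩ := by
    rw [QuotientGroup.mk_pow]; exact hn'
  rw [QuotientGroup.eq, Subgroup.mem_subgroupOf] at h1
  simpa using h1

theorem nf_congr {f : ℕ → G} {a b : ℕ → ℕ} : ∀ {k : ℕ}, (∀ j, j < k → a j = b j) → nf f a k = nf f b k
  | 0, _ => rfl
  | k + 1, h => by
    rw [nf, nf, h k (Nat.lt_succ_self k), nf_congr fun j hj => h j (hj.trans (Nat.lt_succ_self k))]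

open Classical in
/-- The levels of a subgroup. -/
noncomputable def lev (r : ℕ) (f : ℕ → G) (K : Subgroup G) : Finset (Fin r) :=
  Finset.univ.filter fun l => ∃ d ∈ K, d ∈ Sp f (l + 1) ∧ d ∉ Sp f l

theorem mem_lev {r : ℕ} {f : ℕ → G} {K : Subgroup G} {l : Fin r} :
    l ∈ lev r f K ↔ ∃ d ∈ K, d ∈ Sp f (l + 1) ∧ d ∉ Sp f l := by
  simp [lev]

theorem card_inf [Finite G] {p r : ℕ} [hp : Fact p.Prime] {f : ℕ → G} (hf : Chain p r f) (K : Subgroup G) :
    ∀ k, k ≤ r → Nat.card (K ⊓ Sp f k : Subgroup G) = p ^ ((lev r f K).filter fun l : Fin r => (l : ℕ) < k).card := by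
  intro k
  induction k with
  | zero =>
    intro _
    rw [Sp_zero]
    simp
  | succ k ih =>
    intro hk
    have hkr : k < r := hk
    have ih' := ih hkr.le
    by_cases hl : (⟨k, hkr⟩ : Fin r) ∈ lev r f K
    · have h1 : (lev r f K).filter (fun l : Fin r => (l : ℕ) < k + 1) =
          insert ⟨k, hkr⟩ ((lev r f K).filter fun l : Fin r => (l : ℕ) < k) := by
        ext l
        simp only [Finset.mem_filter, Finset.mem_insert]
        constructor
        · rintro ⟨h2, h3⟩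
          rcases Nat.lt_succ_iff_lt_or_eq.1 h3 with h4 | h4
          · exact Or.inr ⟨h2, h4⟩
          · exact Or.inl (Fin.ext h4)
        · rintro (rfl | ⟨h2, h3⟩)
          · exact ⟨hl, Nat.lt_succ_self _⟩
          · exact ⟨h2, h3.trans (Nat.lt_succ_self k)⟩
      rw [h1, Finset.card_insert_of_notMem (by simp), pow_succ, ← ih']
      -- the relative index
      obtain ⟨d, hd, hd1, hd2⟩ := mem_lev.1 hl
      simp only at hd1 hd2
      have h2 := Subgroup.relIndex_mul_relIndex (⊥ : Subgroup G) (K ⊓ Sp f k) (K ⊓ Sp f (k + 1)) bot_le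
        (inf_le_inf_left K (Sp_mono f (Nat.le_succ k)))
      rw [Subgroup.relIndex_bot_left, Subgroup.relIndex_bot_left] at h2
      set n := (K ⊓ Sp f k).relIndex (K ⊓ Sp f (k + 1)) with hn
      have h3 : n = (Sp f k).relIndex (K ⊓ Sp f (k + 1)) := by
        rw [hn, ← Subgroup.inf_relIndex_right (Sp f k)]
        congr 1
        apply le_antisymm
        · exact le_inf inf_le_right (inf_le_inf_left K (Sp_mono f (Nat.le_succ k)))
        · exact le_inf (inf_le_right.trans inf_le_left) inf_le_left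
      have h4 : n ≤ p := by
        rw [h3, ← relIdx hf hkr]
        exact Subgroup.relIndex_le_of_le_right inf_le_right (by rw [relIdx hf hkr]; exact hp.out.ne_zero)
      have h5 : n ≠ 1 := by
        rw [h3]
        intro h
        rw [Subgroup.relIndex_eq_one] at h
        exact hd2 (h ⟨hd, hd1⟩)
      have h6 : n ∣ p ^ (k + 1) := by
        have h7 : Nat.card (K ⊓ Sp f (k + 1) : Subgroup G) ∣ p ^ (k + 1) := by
          rw [← hf.card (k + 1) hk]
          exact Subgroup.card_dvd_of_le inf_le_right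
        exact (Dvd.intro_left _ h2).trans h7
      obtain ⟨i, _, hi⟩ := (Nat.dvd_prime_pow hp.out).1 h6
      have h8 : n = p := by
        have h9 : i ≤ 1 := by
          by_contra h10
          push Not at h10
          have h11 : p ^ 1 < p ^ i := Nat.pow_lt_pow_right hp.out.one_lt h10
          rw [pow_one, ← hi] at h11
          omega
        have h10 : i ≠ 0 := by
          rintro rfl
          exact h5 (by rw [hi, pow_zero])
        have h11 : i = 1 := by omega
        rw [hi, h11, pow_one]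
      rw [← h2, h8]
    · have h1 : (lev r f K).filter (fun l : Fin r => (l : ℕ) < k + 1) =
          (lev r f K).filter fun l : Fin r => (l : ℕ) < k := by
        ext l
        simp only [Finset.mem_filter]
        constructor
        · rintro ⟨h2, h3⟩
          rcases Nat.lt_succ_iff_lt_or_eq.1 h3 with h4 | h4
          · exact ⟨h2, h4⟩
          · exact absurd ((Fin.ext h4 : l = ⟨k, hkr⟩) ▸ h2) hl
        · rintro ⟨h2, h3⟩
          exact ⟨h2, h3.trans (Nat.lt_succ_self k)⟩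
      rw [h1, ← ih']
      have h2 : K ⊓ Sp f (k + 1) = K ⊓ Sp f k := by
        apply le_antisymm
        · rintro d ⟨hd1, hd2⟩
          refine ⟨hd1, ?_⟩
          by_contra hd3
          exact hl (mem_lev.2 ⟨d, hd1, hd2, hd3⟩)
        · exact inf_le_inf_left K (Sp_mono f (Nat.le_succ k))
      rw [h2]

theorem card_lev [Finite G] {p r : ℕ} [hp : Fact p.Prime] {f : ℕ → G} (hf : Chain p r f) (K : Subgroup G)
    (hK : K ≤ Sp f r) : Nat.card K = p ^ (lev r f K).card := by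
  have h1 := card_inf hf K r le_rfl
  rw [inf_eq_left.2 hK] at h1
  rw [h1]
  congr 2
  ext l
  simp [l.2]

/-- Step (2). -/
theorem step2 [Finite G] {p r : ℕ} [hp : Fact p.Prime] {f : ℕ → G} (hf : Chain p r f) (K C : Subgroup G)
    (hCK : C ≤ K) (Ks J : Finset (Fin r)) (hK1 : ∀ k ∈ Ks, f k ∈ K)
    (hK2 : ∀ k : Fin r, ∀ d ∈ K, d ∈ Sp f (k + 1) → d ∉ Sp f k → k ∈ Ks)
    (hJ : ∀ k : Fin r, k ∈ Ks → k ∉ J → ∃ d ∈ C, d ∈ Sp f (k + 1) ∧ d ∉ Sp f k) :
    ∀ k, k ≤ r → ∀ h ∈ K, h ∈ Sp f k → ∃ a : ℕ → ℕ, (∀ j, a j < p) ∧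
      (∀ j, a j ≠ 0 → j < k ∧ ∃ h : j < r, (⟨j, h⟩ : Fin r) ∈ J) ∧ ∃ d ∈ C, h = nf f a k * d := by
  intro k
  induction k with
  | zero =>
    intro _ h hK hh
    rw [Sp_zero, Subgroup.mem_bot] at hh
    subst hh
    exact ⟨fun _ => 0, fun _ => hp.out.pos, fun j hj => absurd rfl hj, 1, C.one_mem, by simp [nf]⟩
  | succ k ih =>
    intro hk h hhK hh
    have hkr : k < r := hk
    by_cases hk' : h ∈ Sp f k
    · obtain ⟨a, h1, h2, d, hd, h3⟩ := ih hkr.le h hhK hk'
      have h4 : a k = 0 := by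
        by_contra h5; exact absurd (h2 k h5).1 (lt_irrefl k)
      refine ⟨a, h1, fun j hj => ⟨(h2 j hj).1.trans (Nat.lt_succ_self k), (h2 j hj).2⟩, d, hd, ?_⟩
      rw [nf, h4, pow_zero, one_mul]; exact h3
    · have hkK : (⟨k, hkr⟩ : Fin r) ∈ Ks := hK2 ⟨k, hkr⟩ h hhK hh hk'
      by_cases hkJ : (⟨k, hkr⟩ : Fin r) ∈ J
      · obtain ⟨e, he, h', hh', h1⟩ := gen hf hkr (mem_Sp f (Nat.lt_succ_self k)) (f_not_mem hf hkr) hh
        have hfK : f k ∈ K := hK1 _ hkK
        have hh'K : h' ∈ K := by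
          have : h' = (f k ^ e)⁻¹ * h := by rw [h1]; group
          rw [this]; exact K.mul_mem (K.inv_mem (K.pow_mem hfK e)) hhK
        obtain ⟨a, h2, h3, d, hd, h4⟩ := ih hkr.le h' hh'K hh'
        refine ⟨Function.update a k e, ?_, ?_, d, hd, ?_⟩
        · intro j
          by_cases hj : j = k
          · subst hj; simpa using he
          · rw [Function.update_of_ne hj]; exact h2 j
        · intro j hj
          by_cases hjk : j = k
          · subst hjk; exact ⟨Nat.lt_succ_self _, hkr, hkJ⟩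
          · rw [Function.update_of_ne hjk] at hj
            exact ⟨(h3 j hj).1.trans (Nat.lt_succ_self k), (h3 j hj).2⟩
        · have h5 : nf f (Function.update a k e) k = nf f a k :=
            nf_congr fun j hj => Function.update_of_ne hj.ne _ _
          rw [nf, h5, Function.update_self, mul_assoc, ← h4]; exact h1
      · obtain ⟨c, hc, hc1, hc2⟩ := hJ _ hkK hkJ
        simp only at hc1 hc2
        obtain ⟨e, he, h', hh', h1⟩ := gen hf hkr hc1 hc2 hh
        have hN := Sp_normal hf hkr.le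
        have hcK := hCK hc
        have h2 : c ^ e * h' * (c ^ e)⁻¹ ∈ Sp f k := hN.conj_mem h' hh' _
        have h3 : c ^ e * h' * (c ^ e)⁻¹ ∈ K := by
          rw [← h1]; exact K.mul_mem hhK (K.inv_mem (K.pow_mem hcK e))
        obtain ⟨a, h4, h5, d, hd, h6⟩ := ih hkr.le _ h3 h2
        have h7 : a k = 0 := by
          by_contra h8; exact absurd (h5 k h8).1 (lt_irrefl k)
        refine ⟨a, h4, fun j hj => ⟨(h5 j hj).1.trans (Nat.lt_succ_self k), (h5 j hj).2⟩, d * c ^ e,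
          C.mul_mem hd (C.pow_mem hc e), ?_⟩
        rw [nf, h7, pow_zero, one_mul, ← mul_assoc, ← h6, h1]; group

end J_lemmaK

/-- TARGET -/
theorem lemmaK {G : Type*} [Group G] [Finite G] {p : ℕ} [Fact p.Prime] (r : ℕ) (f : ℕ → G)
    (hf : Chain p r f) (K : Subgroup G) (hK : K ≤ Sp f r) (Ks : Finset (Fin r))
    (hK1 : ∀ k ∈ Ks, f k ∈ K)
    (hK2 : ∀ k : Fin r, ∀ d ∈ K, d ∈ Sp f (k + 1) → d ∉ Sp f k → k ∈ Ks)
    (g : G) (c : ℕ)
    (hc : Nat.card K ≤ p ^ c * Nat.card (K ⊓ Subgroup.centralizer {g} : Subgroup G)) :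
    ∃ (J : Finset (Fin r)) (e : Fin r → ℕ → ℕ), J ⊆ Ks ∧ J.card ≤ c ∧ (∀ l j, e l j < p) ∧
      (∀ l j, e l j ≠ 0 → j < l ∧ ∃ h : j < r, (⟨j, h⟩ : Fin r) ∈ J) ∧
      ∀ l ∈ Ks, l ∉ J → Commute (f l * nf f (e l) l) g := by
  classical
  set C : Subgroup G := K ⊓ Subgroup.centralizer {g} with hC
  have hCK : C ≤ K := inf_le_left
  set J : Finset (Fin r) := Ks \ J_lemmaK.lev r f C with hJ
  have hJ' : ∀ k : Fin r, k ∈ Ks → k ∉ J → ∃ d ∈ C, d ∈ Sp f (k + 1) ∧ d ∉ Sp f k := by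
    intro k hk hkJ
    rw [hJ, Finset.mem_sdiff] at hkJ
    push Not at hkJ
    exact J_lemmaK.mem_lev.1 (hkJ hk)
  have hlevC : J_lemmaK.lev r f C ⊆ Ks := by
    intro l hl
    obtain ⟨d, hd, h1, h2⟩ := J_lemmaK.mem_lev.1 hl
    exact hK2 l d (hCK hd) h1 h2
  have hlevK : J_lemmaK.lev r f K = Ks := by
    ext l
    constructor
    · intro hl
      obtain ⟨d, hd, h1, h2⟩ := J_lemmaK.mem_lev.1 hl
      exact hK2 l d hd h1 h2
    · intro hl
      exact J_lemmaK.mem_lev.2 ⟨f l, hK1 l hl, J_lemmaK.mem_Sp f (Nat.lt_succ_self _), J_lemmaK.f_not_mem hf l.2⟩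
  have hcard : J.card ≤ c := by
    rw [J_lemmaK.card_lev hf K hK, J_lemmaK.card_lev hf C (hCK.trans hK), hlevK, ← pow_add] at hc
    have h1 : Ks.card ≤ c + (J_lemmaK.lev r f C).card := (Nat.pow_le_pow_iff_right (Fact.out : p.Prime).one_lt).1 hc
    have h2 : J.card = Ks.card - (J_lemmaK.lev r f C).card := Finset.card_sdiff_of_subset hlevC
    omega
  have key : ∀ l : Fin r, l ∈ Ks → l ∉ J → ∃ a : ℕ → ℕ, (∀ j, a j < p) ∧
      (∀ j, a j ≠ 0 → j < (l : ℕ) ∧ ∃ h : j < r, (⟨j, h⟩ : Fin r) ∈ J) ∧ Commute (f l * nf f a l) g := by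
    intro l hl hlJ
    obtain ⟨x, hx, hx1, hx2⟩ := hJ' l hl hlJ
    obtain ⟨e, _, h', hh', h1⟩ := J_lemmaK.gen hf l.2 hx1 hx2 (J_lemmaK.mem_Sp f (Nat.lt_succ_self l))
    have h2 : h'⁻¹ ∈ K := by
      have : h'⁻¹ = (f l)⁻¹ * x ^ e := by rw [h1]; group
      rw [this]; exact K.mul_mem (K.inv_mem (hK1 l hl)) (K.pow_mem (hCK hx) e)
    obtain ⟨a, h3, h4, d, hd, h5⟩ := J_lemmaK.step2 hf K C hCK Ks J hK1 hK2 hJ' l l.2.le h'⁻¹ h2
      ((Sp f l).inv_mem hh')
    refine ⟨a, h3, h4, ?_⟩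
    have h6 : f l * nf f a l = x ^ e * d⁻¹ := by
      have h7 : nf f a l = h'⁻¹ * d⁻¹ := by rw [h5]; group
      rw [h7, h1]; group
    have h8 : f l * nf f a l ∈ C := by
      rw [h6]; exact C.mul_mem (C.pow_mem hx e) (C.inv_mem hd)
    have h9 := (Subgroup.mem_centralizer_iff.1 h8.2) g rfl
    exact h9.symm
  choose! E hE1 hE2 hE3 using key
  refine ⟨J, fun l => if l ∈ Ks ∧ l ∉ J then E l else fun _ => 0, Finset.sdiff_subset, hcard, ?_, ?_, ?_⟩
  · intro l j
    dsimp only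
    split_ifs with h
    · exact hE1 l h.1 h.2 j
    · exact (Fact.out : p.Prime).pos
  · intro l j hj
    dsimp only at hj
    split_ifs at hj with h
    · exact hE2 l h.1 h.2 j hj
    · exact absurd rfl hj
  · intro l hl hlJ
    dsimp only
    rw [if_pos ⟨hl, hlJ⟩]
    exact hE3 l hl hlJ

end Pool.Agent.Helper252_Enum
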