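import Pool.Agent.Helper252_Enum.IdxDefs

set_option autoImplicit false

open scoped commutatorElement

namespace Pool.Agent.Helper252_Enum

/-
PROOF OF THE TARGET.
Define code G D i by cases on the index i (a free index), taking values in Fin p (p > 0; the digits are < p, see below; use Fin.ofNat / ⟨v % p, _⟩):
 inl (k,j)                       : dig p r D.f (D.f k ^ p) j
 inr inl (k,i,j)                 : dig p r D.f ⁅D.f k, D.x i⁆ j
 inr inr inl (g,l,j)             : dig p r D.f ⁅D.f l, sym D.x D.f g⁆ j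
 inr inr inr inl (g,l,j)         : D.ex g l j
 inr^4 inl (i,j)                 : dig p r D.f (D.x i ^ p) j
 inr^5 inl (i,j,k)               : dig p r D.f ⁅D.x i, D.x j⁆ k
 inr^6 (k,j)                     : dig p r D.f (cand p D.x D.f (σ.τ k)) j
Facts: dig .. j < p always and dig .. j = 0 for j >= r (by definition of dig: choose_spec, or the zero function; 0 < p); D.ex_lt. So equality modulo p gives
equality, and two dig functions are equal as soon as they agree at all j < r. Each field of SameDigits reads off at the corresponding index, whose free condition holds: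
b: i ∈ Y, k ∉ K; c1: i ∈ Z, k ∉ K, k < s, j < k (so j < r); c2: s <= k, j < s; d1: l ∈ J g; d2: j ∈ J g; f1, f2: i<j and (i ∈ Y or j ∈ Y or k ∈ K).
-/

namespace J_exists_code

theorem dig_lt {G : Type*} [Group G] {p r : ℕ} (hp : 0 < p) (f : ℕ → G) (h : G) (j : ℕ) :
    dig p r f h j < p := by
  classical
  unfold dig
  split_ifs with H
  · exact (Classical.choose_spec H).1 j
  · exact hp

theorem dig_zero {G : Type*} [Group G] {p r : ℕ} (f : ℕ → G) (h : G) (j : ℕ) (hj : r ≤ j) :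
    dig p r f h j = 0 := by
  classical
  unfold dig
  split_ifs with H
  · exact (Classical.choose_spec H).2.1 j hj
  · rfl

/-- The natural number attached to an index. -/
noncomputable def val {p m r : ℕ} {σ : Skel m r} {G : Type} [Group G] (D : Deco p m r σ G) :
    Idx m r → ℕ
  | Sum.inl (k, j) => dig p r D.f (D.f k ^ p) j
  | Sum.inr (Sum.inl (k, i, j)) => dig p r D.f ⁅D.f k, D.x i⁆ j
  | Sum.inr (Sum.inr (Sum.inl (g, l, j))) => dig p r D.f ⁅D.f l, sym D.x D.f g⁆ j
  | Sum.inr (Sum.inr (Sum.inr (Sum.inl (g, l, j)))) => D.ex g l j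
  | Sum.inr (Sum.inr (Sum.inr (Sum.inr (Sum.inl (i, j))))) => dig p r D.f (D.x i ^ p) j
  | Sum.inr (Sum.inr (Sum.inr (Sum.inr (Sum.inr (Sum.inl (i, j, k)))))) =>
      dig p r D.f ⁅D.x i, D.x j⁆ k
  | Sum.inr (Sum.inr (Sum.inr (Sum.inr (Sum.inr (Sum.inr (k, j)))))) =>
      dig p r D.f (cand p D.x D.f (σ.τ k)) j

theorem val_lt {p m r : ℕ} (hp : 0 < p) {σ : Skel m r} {G : Type} [Group G]
    (D : Deco p m r σ G) (i : Idx m r) : val D i < p := by
  rcases i with ⟨k, j⟩ | ⟨k, i, j⟩ | ⟨g, l, j⟩ | ⟨g, l, j⟩ | ⟨i, j⟩ | ⟨i, j, k⟩ | ⟨k, j⟩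
  · exact dig_lt hp _ _ _
  · exact dig_lt hp _ _ _
  · exact dig_lt hp _ _ _
  · exact D.ex_lt _ _ _
  · exact dig_lt hp _ _ _
  · exact dig_lt hp _ _ _
  · exact dig_lt hp _ _ _

theorem dig_ext {G G' : Type*} [Group G] [Group G'] {p r : ℕ} (f : ℕ → G) (h : G)
    (f' : ℕ → G') (h' : G')
    (H : ∀ j : Fin r, dig p r f h j = dig p r f' h' j) : dig p r f h = dig p r f' h' := by
  funext j
  by_cases hj : j < r
  · exact H ⟨j, hj⟩
  · rw [dig_zero f h j (not_lt.mp hj), dig_zero f' h' j (not_lt.mp hj)]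

end J_exists_code

open J_exists_code in
/-- TARGET -/
theorem exists_code {p m r : ℕ} [Fact p.Prime] (σ : Skel m r) :
    ∃ code : ∀ (G : Type) [Group G], Deco p m r σ G → ({i : Idx m r // free σ i} → Fin p),
      ∀ (G G' : Type) [Group G] [Group G'] (D : Deco p m r σ G) (D' : Deco p m r σ G'),
        code G D = code G' D' → SameDigits D D' := by
  have hp : 0 < p := (Fact.out : p.Prime).pos
  refine ⟨fun G _ D i => ⟨val D i.1, val_lt hp D i.1⟩, ?_⟩
  intro G G' _ _ D D' hc
  have key : ∀ i : Idx m r, free σ i → val D i = val D' i := by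
    intro i hi
    have h1 := congrFun hc ⟨i, hi⟩
    exact congrArg Fin.val h1
  constructor
  · intro k
    exact dig_ext _ _ _ _ fun j => key (Sum.inl (k, j)) trivial
  · intro i hi k hk
    exact dig_ext _ _ _ _ fun j => key (Sum.inr (Sum.inl (k, i, j))) ⟨hk, Or.inl hi⟩
  · intro i hi k hk hs j hj
    have hjr : j < r := lt_trans hj k.2
    exact key (Sum.inr (Sum.inl (k, i, ⟨j, hjr⟩))) ⟨hk, Or.inr (Or.inl ⟨hi, hs, hj⟩)⟩
  · intro i k hk hs j hj
    have hjr : j < r := lt_of_lt_of_le hj (Nat.lt_succ_iff.mp σ.s.2)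
    exact key (Sum.inr (Sum.inl (k, i, ⟨j, hjr⟩))) ⟨hk, Or.inr (Or.inr ⟨hs, hj⟩)⟩
  · intro g l hl
    exact dig_ext _ _ _ _ fun j => key (Sum.inr (Sum.inr (Sum.inl (g, l, j)))) hl
  · intro g l hl hl' j hj
    exact key (Sum.inr (Sum.inr (Sum.inr (Sum.inl (g, l, j))))) hj
  · intro i
    exact dig_ext _ _ _ _ fun j =>
      key (Sum.inr (Sum.inr (Sum.inr (Sum.inr (Sum.inl (i, j)))))) trivial
  · intro i j hij h
    refine dig_ext _ _ _ _ fun k =>
      key (Sum.inr (Sum.inr (Sum.inr (Sum.inr (Sum.inr (Sum.inl (i, j, k))))))) ⟨hij, ?_⟩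
    rcases h with h | h
    · exact Or.inl h
    · exact Or.inr (Or.inl h)
  · intro i j hij k hk
    exact key (Sum.inr (Sum.inr (Sum.inr (Sum.inr (Sum.inr (Sum.inl (i, j, k)))))))
      ⟨hij, Or.inr (Or.inr hk)⟩
  · intro k hk
    exact dig_ext _ _ _ _ fun j =>
      key (Sum.inr (Sum.inr (Sum.inr (Sum.inr (Sum.inr (Sum.inr (k, j))))))) trivial

end Pool.Agent.Helper252_Enum

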