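import Pool.Agent.Helper252_Enum.Defs

set_option autoImplicit false

open scoped commutatorElement

namespace Pool.Agent.Helper252_Enum


namespace J_card_skel_le

/-- The data of a skeleton as a tuple. -/
def tup (m r : ℕ) (σ : Skel m r) : Finset (Fin m) × Finset (Fin m) × Finset (Fin r) × Fin (r + 1) ×
    (Fin m ⊕ Fin r → Finset (Fin r)) × (Fin r → (Fin m ⊕ Fin r) × Option (Fin m ⊕ Fin r)) :=
  (σ.Y, σ.Z, σ.K, σ.s, σ.J, σ.τ)

theorem tup_inj (m r : ℕ) : Function.Injective (tup m r) := by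
  intro σ σ' h
  obtain ⟨Y, Z, K, s, J, τ⟩ := σ
  obtain ⟨Y', Z', K', s', J', τ'⟩ := σ'
  simp only [tup, Prod.mk.injEq] at h
  obtain ⟨rfl, rfl, rfl, rfl, rfl, rfl⟩ := h
  rfl

theorem skel_finite (m r : ℕ) : Finite (Skel m r) :=
  Finite.of_injective _ (tup_inj m r)

theorem card_tup (m r : ℕ) : Nat.card (Finset (Fin m) × Finset (Fin m) × Finset (Fin r) × Fin (r + 1) ×
    (Fin m ⊕ Fin r → Finset (Fin r)) × (Fin r → (Fin m ⊕ Fin r) × Option (Fin m ⊕ Fin r))) =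
    2 ^ m * (2 ^ m * (2 ^ r * ((r + 1) * ((2 ^ r) ^ (m + r) * ((m + r) * (m + r + 1)) ^ r)))) := by
  simp [Nat.card_eq_fintype_card]

end J_card_skel_le

/-- TARGET -/
theorem card_skel_le (m r : ℕ) : Nat.card (Skel m r) ≤ 2 ^ (10 * (m + r) ^ 2) := by
  have h1 := Nat.card_le_card_of_injective _ (J_card_skel_le.tup_inj m r)
  rw [J_card_skel_le.card_tup] at h1
  refine h1.trans ?_
  have hr : r + 1 ≤ 2 ^ r := Nat.lt_two_pow_self
  have hn : m + r ≤ 2 ^ (m + r) := Nat.lt_two_pow_self.le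
  have hn' : m + r + 1 ≤ 2 ^ (m + r) := Nat.lt_two_pow_self
  calc 2 ^ m * (2 ^ m * (2 ^ r * ((r + 1) * ((2 ^ r) ^ (m + r) * ((m + r) * (m + r + 1)) ^ r))))
      ≤ 2 ^ m * (2 ^ m * (2 ^ r * (2 ^ r * ((2 ^ r) ^ (m + r) * (2 ^ (m + r) * 2 ^ (m + r)) ^ r)))) := by
        gcongr
    _ = 2 ^ (m + (m + (r + (r + (r * (m + r) + ((m + r) + (m + r)) * r))))) := by
        rw [← pow_add, ← pow_mul, ← pow_mul, ← pow_add, ← pow_add, ← pow_add, ← pow_add, ← pow_add]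
    _ ≤ 2 ^ (10 * (m + r) ^ 2) := by
        refine Nat.pow_le_pow_right (by norm_num) ?_
        have h2 : m + r ≤ (m + r) ^ 2 := Nat.le_self_pow (by norm_num) _
        nlinarith [Nat.zero_le (m * m), Nat.zero_le (m * r), Nat.zero_le (r * r)]

end Pool.Agent.Helper252_Enum
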