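import Pool.Agent.Helper252_Enum.N3_card_skel

set_option autoImplicit false

open scoped commutatorElement

namespace Pool.Agent.Helper252_Enum

instance instFiniteSkel (m r : ℕ) : Finite (Skel m r) := J_card_skel_le.skel_finite m r

end Pool.Agent.Helper252_Enum
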