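import Pool.Agent.Helper252_Enum.Defs

set_option autoImplicit false

open scoped commutatorElement

namespace Pool.Agent.Helper252_Enum

/-
PROOF OF THE TARGET.
Real inequality, degree 3, tight at a=2/3, u=t=0 (there only excluded by u+t >= 1/2000). Let b = 1-a. Useful identities:
 (1-a-u) a (a/2+u) = a(2-a)^2/16 - a (u - 1/2 + 3a/4)^2 ,    2/27 - a(2-a)^2/16 = (a-2/3)^2 (8/3-a)/16.
Since a <= 1 (from hus, a <= 1 - u - s): (8/3-a)/16 >= 1/10, and a >= 1/20, and u - 1/2 + 3a/4 = u + (3/4)(a-2/3), so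
 E0 := (1-a-u) a (a/2+u) <= 2/27 - (a-2/3)^2/10 - (1/20)(u+(3/4)(a-2/3))^2 <= 2/27 - u^2/30.                     (*)
Also (1-a-u)a^2/2 + a u s <= E0 because s <= 1-a-u. The z-term: t s - t^2/2 >= 0 (t <= s), so z may be replaced by min(u,a).
Case 1: u s <= a^2/2. With z <= u: E <= E0 - t (a^2/2 - u s) - u t^2/2. If u >= 1/4000 use (*): u^2/30 >= 2e-9 > 1e-9. If u < 1/4000 then t > 1/4000 and u s < 1/4000, a^2/2 >= 1/800,
  so a^2/2 - us >= 1/1000 and E <= 2/27 - (1/4000)(1/1000).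
Case 2a: u s > a^2/2, u <= a, z <= u. -t a^2/2 + u (t s - t^2/2) <= (u/2) (s - a^2/(2u))^2 (complete the square in t), so
  E <= (1-a-u)a^2/2 + a u s + (u/2)(s - a^2/(2u))^2, which is increasing in s for u s >= a^2/2; put s = 1-a-u =: S (so u S >= a^2/2): the value is
  (1-a-u)a^2/2 + a u S + u S^2/2 - a^2 S/2 + a^4/(8u) = a u S + u S^2/2 + a^4/(8u) = u((1-u)^2 - a^2)/2 + a^4/(8u).
  As a function of X = a^2 in [u^2, 2uS] this is convex, so it is at most the larger of the endpoint values... or directly (a polynomial certificate): writing X = a^2,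
  8u * value = 4u^2(1-u)^2 - 4u^2 X + X^2. Since u <= a and a^2 <= 2 u S: (X - u^2)(X - 2uS) <= 0, i.e. X^2 <= (u^2 + 2uS) X - 2u^3 S.
  At X = u^2 the value is u/2 - u^2 + u^3/8 <= 2/27 - 0.009; at X = 2uS it is E0-like: = aS(a/2+u) with a^2 = 2uS, bounded by (*), with u >= a^2/2 >= 1/800.
  Any other rigorous route is welcome (e.g. substitute u = v a with 0 < v <= 1, S = 1 - a - u, condition a <= 2 v S; check numerically that the maximum over this region is about 0.0706 <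
  2/27 - 0.003: it is not tight, so a nlinarith / polyrith / sum-of-squares / case-splitting proof should exist).
Case 2b: u > a, z <= a, u s > a^2/2. If s >= a/2: -t a^2/2 + a(ts - t^2/2) <= (a/2)(s - a/2)^2, and E <= (1-a-u)a^2/2 + aus + (a/2)(s-a/2)^2 is increasing in s (u>a), so replace s by 1-a-u; value a s (u + s/2) + a^3/8 with u = 1-a-s,
  i.e. <= a s (1 - a - s/2) + a^3/8, s <= 1-2a: <= a(1-2a)/2 + a^3/8 <= 2/27 - 0.009. If s < a/2: z(ts - t^2/2) - t a^2/2 <= 0, so E <= E0 <= 2/27 - u^2/30 with u >= 1/20.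
Check your case bounds numerically first. All hypotheses: 1/20 <= a, everything >= 0, t <= s, u+s <= 1-a, z <= u, z <= a, u+t >= 1/2000.
-/

namespace J_num_core

theorem star (a u : ℝ) (ha : 1 / 20 ≤ a) (ha1 : a ≤ 1) :
    (1 - a - u) * a * (a / 2 + u) ≤ 2 / 27 - u ^ 2 / 30 := by
  have h1 : 2 / 27 - (1 - a - u) * a * (a / 2 + u) =
      (a - 2 / 3) ^ 2 * (8 / 3 - a) / 16 + a * (u - 1 / 2 + 3 * a / 4) ^ 2 := by ring
  have h2 : (a - 2 / 3) ^ 2 * (1 / 10) ≤ (a - 2 / 3) ^ 2 * (8 / 3 - a) / 16 := by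
    have : 0 ≤ (a - 2 / 3) ^ 2 := sq_nonneg _
    nlinarith
  have h3 : (1 / 20) * (u - 1 / 2 + 3 * a / 4) ^ 2 ≤ a * (u - 1 / 2 + 3 * a / 4) ^ 2 := by
    have : 0 ≤ (u - 1 / 2 + 3 * a / 4) ^ 2 := sq_nonneg _
    nlinarith
  have h4 : u ^ 2 / 30 ≤ (a - 2 / 3) ^ 2 * (1 / 10) + (1 / 20) * (u - 1 / 2 + 3 * a / 4) ^ 2 := by
    nlinarith [sq_nonneg (3 * (u - 1 / 2 + 3 * a / 4) * (1 / 40) + (a - 2 / 3) * (1 / 10)),
      sq_nonneg (u - 1 / 2 + 3 * a / 4), sq_nonneg (a - 2 / 3),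
      sq_nonneg (9 * (a - 2 / 3) + 12 * (u - 1 / 2 + 3 * a / 4)),
      sq_nonneg ((a - 2 / 3) * 8 + 3 * (u - 1 / 2 + 3 * a / 4))]
  linarith

/-- the cubic inequality for case 2a -/
theorem cubic (a u S : ℝ) (hu : 0 ≤ u) (hua : u ≤ a) (hS : 0 ≤ S) (h : a + u + S = 1) :
    S * (a * u + u * S / 2 + a ^ 2 / 4) ≤ 2 / 27 - 1 / 10 ^ 4 := by
  obtain ⟨v, hv, rfl⟩ : ∃ v, 0 ≤ v ∧ a = u + 2 * v := ⟨(a - u) / 2, by linarith, by ring⟩
  have hu' : u = (1 - S) / 2 - v := by linarith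
  subst hu'
  have h1 : S * ((((1 - S) / 2 - v) + 2 * v) * ((1 - S) / 2 - v) + ((1 - S) / 2 - v) * S / 2 +
      (((1 - S) / 2 - v) + 2 * v) ^ 2 / 4) =
      S * ((1 - S) * (5 - S) / 16 + v * (1 - 3 * S) / 4 - 3 * v ^ 2 / 4) := by ring
  have hS1 : S ≤ 1 := by linarith
  rw [h1]
  rcases le_total (1 / 3) S with h3 | h3
  · have h4 : S * ((1 - S) * (5 - S) / 16 + v * (1 - 3 * S) / 4 - 3 * v ^ 2 / 4) ≤
        S * ((1 - S) * (5 - S) / 16) := by
      apply mul_le_mul_of_nonneg_left _ hS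
      have : v * (1 - 3 * S) ≤ 0 := mul_nonpos_of_nonneg_of_nonpos hv (by linarith)
      nlinarith [sq_nonneg v]
    refine h4.trans ?_
    nlinarith [mul_nonneg hS (sq_nonneg (S - 19 / 40)), mul_nonneg (sub_nonneg.2 hS1) (sq_nonneg (S - 19 / 40)),
      sq_nonneg (S - 19 / 40)]
  · have h4 : S * ((1 - S) * (5 - S) / 16 + v * (1 - 3 * S) / 4 - 3 * v ^ 2 / 4) ≤
        S * ((1 - S) * (5 - S) / 16 + (1 - 3 * S) ^ 2 / 48) := by
      apply mul_le_mul_of_nonneg_left _ hS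
      nlinarith [sq_nonneg (v - (1 - 3 * S) / 6)]
    refine h4.trans ?_
    nlinarith [mul_nonneg hS (sub_nonneg.2 h3), mul_nonneg hS (mul_nonneg hS (sub_nonneg.2 h3)),
      mul_nonneg hS (sq_nonneg (1 / 3 - S))]

theorem poly2b (a S : ℝ) (ha0 : 0 < a) (hS0 : 0 ≤ S) (hS2 : S ≤ 1 - 2 * a) :
    a * (S * (1 - a - S / 2)) + a ^ 3 / 8 ≤ 1 / 15 := by
  have e5 : S * (1 - a - S / 2) ≤ (1 - 2 * a) / 2 := by
    nlinarith [mul_nonneg (sub_nonneg.2 hS2) (by linarith : (0:ℝ) ≤ 1 - S)]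
  have e6 : a * (S * (1 - a - S / 2)) ≤ a * ((1 - 2 * a) / 2) :=
    mul_le_mul_of_nonneg_left e5 ha0.le
  have e7 : a ^ 3 ≤ a ^ 2 / 2 := by
    have : a ≤ 1 / 2 := by linarith
    nlinarith [sq_nonneg a]
  have e8 : a * ((1 - 2 * a) / 2) + a ^ 2 / 16 ≤ 1 / 15 := by
    nlinarith [sq_nonneg (a - 4 / 15)]
  linarith

end J_num_core

/-- TARGET -/
theorem num_core (a u s t z : ℝ) (ha : 1 / 20 ≤ a) (hu : 0 ≤ u) (hs : 0 ≤ s) (ht : 0 ≤ t)
    (hts : t ≤ s) (hus : u + s ≤ 1 - a) (hz : 0 ≤ z) (hzu : z ≤ u) (hza : z ≤ a)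
    (hε : 1 / 2000 ≤ u + t) :
    (1 - a - u - t) * a ^ 2 / 2 + a * u * s + z * (t * s - t ^ 2 / 2) ≤ 2 / 27 - 1 / 10 ^ 9 := by
  have ha0 : 0 < a := by linarith
  have ha1 : a ≤ 1 := by linarith
  have hu1 : u ≤ 1 := by linarith
  have hT : 0 ≤ t * s - t ^ 2 / 2 := by nlinarith
  have hstar := J_num_core.star a u ha ha1
  have haus : a * u * s ≤ a * u * (1 - a - u) :=
    mul_le_mul_of_nonneg_left (by linarith) (mul_nonneg ha0.le hu)
  have hE0 : (1 - a - u) * a ^ 2 / 2 + a * u * (1 - a - u) = (1 - a - u) * a * (a / 2 + u) := by ring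
  rcases le_total (u * s) (a ^ 2 / 2) with h1 | h1
  · -- case 1
    have hz1 : z * (t * s - t ^ 2 / 2) ≤ u * (t * s - t ^ 2 / 2) := mul_le_mul_of_nonneg_right hzu hT
    have hE : (1 - a - u - t) * a ^ 2 / 2 + a * u * s + z * (t * s - t ^ 2 / 2) ≤
        (1 - a - u) * a * (a / 2 + u) - t * (a ^ 2 / 2 - u * s) - u * t ^ 2 / 2 := by
      nlinarith
    have hp1 : 0 ≤ t * (a ^ 2 / 2 - u * s) := mul_nonneg ht (by linarith)
    have hp2 : 0 ≤ u * t ^ 2 / 2 := by positivity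
    rcases le_total (1 / 4000) u with h2 | h2
    · have h3 : (1 / 4000 : ℝ) ^ 2 ≤ u ^ 2 := by
        apply pow_le_pow_left₀ (by norm_num) h2
      norm_num at h3 ⊢
      nlinarith
    · have h3 : 1 / 4000 ≤ t := by linarith
      have hs1 : s ≤ 1 := by linarith
      have h4 : u * s ≤ 1 / 4000 := by nlinarith
      have h5 : (1 / 20 : ℝ) ^ 2 ≤ a ^ 2 := by
        apply pow_le_pow_left₀ (by norm_num) ha
      have h6 : 1 / 1000 ≤ a ^ 2 / 2 - u * s := by
        norm_num at h5 ⊢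
        linarith
      have h7 : (1 / 4000) * (1 / 1000) ≤ t * (a ^ 2 / 2 - u * s) :=
        mul_le_mul h3 h6 (by norm_num) ht
      have h8 : 0 ≤ u ^ 2 := sq_nonneg u
      norm_num at h7 ⊢
      linarith
  · rcases le_total u a with h2 | h2
    · -- case 2a
      have hupos : 0 < u := by
        by_contra hcon
        have hu0 : u = 0 := le_antisymm (not_lt.1 hcon) hu
        rw [hu0] at h1
        nlinarith
      have hz1 : z * (t * s - t ^ 2 / 2) ≤ u * (t * s - t ^ 2 / 2) := mul_le_mul_of_nonneg_right hzu hT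
      set S := 1 - a - u with hS
      have hsS : s ≤ S := by linarith
      have hS0 : 0 ≤ S := hs.trans hsS
      have hcub := J_num_core.cubic a u S hu h2 hS0 (by rw [hS]; ring)
      have huS : a ^ 2 / 2 ≤ u * S := h1.trans (mul_le_mul_of_nonneg_left hsS hu)
      -- multiply by u
      have key : u * ((1 - a - u - t) * a ^ 2 / 2 + a * u * s + z * (t * s - t ^ 2 / 2)) ≤
          u * (2 / 27 - 1 / 10 ^ 9) := by
        have e1 : u * ((1 - a - u - t) * a ^ 2 / 2 + a * u * s + z * (t * s - t ^ 2 / 2)) ≤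
            u * ((1 - a - u - t) * a ^ 2 / 2 + a * u * s + u * (t * s - t ^ 2 / 2)) :=
          mul_le_mul_of_nonneg_left (by linarith) hu
        have e2 : u * ((1 - a - u - t) * a ^ 2 / 2 + a * u * s + u * (t * s - t ^ 2 / 2)) =
            u * S * a ^ 2 / 2 + a * u ^ 2 * s + (u * s - a ^ 2 / 2) ^ 2 / 2 -
              (u * t - (u * s - a ^ 2 / 2)) ^ 2 / 2 := by
          rw [hS]; ring
        have e3 : (u * s - a ^ 2 / 2) ^ 2 ≤ (u * S - a ^ 2 / 2) ^ 2 := by
          apply pow_le_pow_left₀ (by linarith)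
          have := mul_le_mul_of_nonneg_left hsS hu
          linarith
        have e4 : a * u ^ 2 * s ≤ a * u ^ 2 * S :=
          mul_le_mul_of_nonneg_left hsS (by positivity)
        have e5 : u * S * a ^ 2 / 2 + a * u ^ 2 * S + (u * S - a ^ 2 / 2) ^ 2 / 2 =
            a * u ^ 2 * S + u ^ 2 * S ^ 2 / 2 + a ^ 2 * (a ^ 2 / 2) / 4 := by ring
        have e6 : a ^ 2 * (a ^ 2 / 2) / 4 ≤ a ^ 2 * (u * S) / 4 := by
          have := mul_le_mul_of_nonneg_left huS (sq_nonneg a)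
          linarith
        have e7 : a * u ^ 2 * S + u ^ 2 * S ^ 2 / 2 + a ^ 2 * (u * S) / 4 =
            u * (S * (a * u + u * S / 2 + a ^ 2 / 4)) := by ring
        have e8 : u * (S * (a * u + u * S / 2 + a ^ 2 / 4)) ≤ u * (2 / 27 - 1 / 10 ^ 4) :=
          mul_le_mul_of_nonneg_left hcub hu
        have e9 : u * (2 / 27 - 1 / 10 ^ 4) ≤ u * (2 / 27 - 1 / 10 ^ 9) :=
          mul_le_mul_of_nonneg_left (by norm_num) hu
        have e10 : 0 ≤ (u * t - (u * s - a ^ 2 / 2)) ^ 2 := sq_nonneg _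
        linarith
      exact le_of_mul_le_mul_left key hupos
    · -- case 2b
      have hz1 : z * (t * s - t ^ 2 / 2) ≤ a * (t * s - t ^ 2 / 2) := mul_le_mul_of_nonneg_right hza hT
      rcases le_total (a / 2) s with h3 | h3
      · set S := 1 - a - u with hS
        have hsS : s ≤ S := by linarith
        have hS0 : 0 ≤ S := hs.trans hsS
        have hS2 : S ≤ 1 - 2 * a := by linarith
        have e1 : (1 - a - u - t) * a ^ 2 / 2 + a * u * s + a * (t * s - t ^ 2 / 2) =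
            S * a ^ 2 / 2 + a * u * s + a / 2 * (s - a / 2) ^ 2 - a / 2 * (t - (s - a / 2)) ^ 2 := by
          rw [hS]; ring
        have e2 : 0 ≤ a / 2 * (t - (s - a / 2)) ^ 2 := by positivity
        have e3 : a / 2 * (s - a / 2) ^ 2 ≤ a / 2 * (S - a / 2) ^ 2 := by
          apply mul_le_mul_of_nonneg_left _ (by linarith)
          exact pow_le_pow_left₀ (by linarith) (by linarith) 2
        have e4 : S * a ^ 2 / 2 + a * u * S + a / 2 * (S - a / 2) ^ 2 =
            a * (S * (1 - a - S / 2)) + a ^ 3 / 8 := by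
          have : u = 1 - a - S := by rw [hS]; ring
          rw [this]; ring
        have e5 := J_num_core.poly2b a S ha0 hS0 hS2
        have e9 : a * u * s ≤ a * u * S := haus
        norm_num
        linarith
      · have e1 : a * (t * s - t ^ 2 / 2) ≤ t * a ^ 2 / 2 := by
          have e2 : a * t * s ≤ a * t * (a / 2) := mul_le_mul_of_nonneg_left h3 (mul_nonneg ha0.le ht)
          have e3 : 0 ≤ a * t ^ 2 := mul_nonneg ha0.le (sq_nonneg t)
          linarith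
        have h4 : (1 / 20 : ℝ) ^ 2 ≤ u ^ 2 := by
          apply pow_le_pow_left₀ (by norm_num) (by linarith)
        norm_num at h4 ⊢
        nlinarith

end Pool.Agent.Helper252_Enum
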