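import Pool.Agent.Helper252_Enum.N2_nfree_le
import Pool.Agent.Helper252_Enum.U1_num_core

set_option autoImplicit false

open scoped commutatorElement

namespace Pool.Agent.Helper252_Enum

namespace J_num_final

theorem counts {m r : ℕ} (σ : Skel m r) :
    (Finset.univ.filter (fun k : Fin r => k ∉ σ.K ∧ (σ.s : ℕ) ≤ k)).card +
      (Finset.univ.filter (fun k : Fin r => k ∉ σ.K ∧ (k : ℕ) < σ.s)).card + σ.K.card = r ∧
    (Finset.univ.filter (fun k : Fin r => k ∉ σ.K ∧ (σ.s : ℕ) ≤ k)).card + (σ.s : ℕ) ≤ r ∧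
    (Finset.univ.filter (fun k : Fin r => k ∉ σ.K ∧ (k : ℕ) < σ.s)).card ≤ (σ.s : ℕ) := by
  have hs : (σ.s : ℕ) ≤ r := Nat.lt_succ_iff.1 σ.s.2
  refine ⟨?_, ?_, ?_⟩
  · have h1 : (Finset.univ.filter (fun k : Fin r => k ∉ σ.K ∧ (σ.s : ℕ) ≤ k)).card +
        (Finset.univ.filter (fun k : Fin r => k ∉ σ.K ∧ (k : ℕ) < σ.s)).card =
        (Finset.univ.filter (fun k : Fin r => k ∉ σ.K)).card := by
      rw [← Finset.card_union_of_disjoint]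
      · congr 1
        ext k
        simp only [Finset.mem_union, Finset.mem_filter, Finset.mem_univ, true_and]
        constructor
        · rintro (h | h)
          · exact h.1
          · exact h.1
        · intro h
          rcases le_or_gt (σ.s : ℕ) (k : ℕ) with h2 | h2
          · exact Or.inl ⟨h, h2⟩
          · exact Or.inr ⟨h, h2⟩
      · rw [Finset.disjoint_left]
        intro k hk hk'
        simp only [Finset.mem_filter, Finset.mem_univ, true_and] at hk hk'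
        omega
    have h2 : (Finset.univ.filter (fun k : Fin r => k ∉ σ.K)).card + σ.K.card = r := by
      have h3 : Finset.univ.filter (fun k : Fin r => k ∉ σ.K) = σ.Kᶜ := by
        ext k
        simp
      rw [h3, Finset.card_compl, Fintype.card_fin]
      have := Finset.card_le_univ σ.K
      rw [Fintype.card_fin] at this
      omega
    rw [h1, h2]
  · have h1 : (Finset.univ.filter (fun k : Fin r => k ∉ σ.K ∧ (σ.s : ℕ) ≤ k)).card ≤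
        (Finset.Ico (σ.s : ℕ) r).card := by
      apply Finset.card_le_card_of_injOn (fun k : Fin r => (k : ℕ))
      · intro k hk
        simp only [Finset.coe_filter, Finset.mem_univ, true_and, Set.mem_setOf_eq] at hk
        simp only [Finset.coe_Ico, Set.mem_Ico]
        exact ⟨hk.2, k.2⟩
      · intro a _ b _ hab
        exact Fin.ext hab
    rw [Nat.card_Ico] at h1
    omega
  · have h1 : (Finset.univ.filter (fun k : Fin r => k ∉ σ.K ∧ (k : ℕ) < σ.s)).card ≤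
        (Finset.range (σ.s : ℕ)).card := by
      apply Finset.card_le_card_of_injOn (fun k : Fin r => (k : ℕ))
      · intro k hk
        simp only [Finset.coe_filter, Finset.mem_univ, true_and, Set.mem_setOf_eq] at hk
        simp only [Finset.coe_range, Set.mem_Iio]
        exact hk.2
      · intro a _ b _ hab
        exact Fin.ext hab
    rwa [Finset.card_range] at h1

theorem toNat (f n C : ℕ) (h : (f : ℝ) ≤ 2 / 27 * (n : ℝ) ^ 3 + C * (n : ℝ) ^ 2) :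
    f ≤ 2 * n ^ 3 / 27 + C * n ^ 2 := by
  have h1 : 2 * n ^ 3 < 27 * (2 * n ^ 3 / 27 + 1) := by omega
  have h2 : ((2 * n ^ 3 : ℕ) : ℝ) < ((27 * (2 * n ^ 3 / 27 + 1) : ℕ) : ℝ) := by exact_mod_cast h1
  have h3 : (f : ℝ) < ((2 * n ^ 3 / 27 + C * n ^ 2 + 1 : ℕ) : ℝ) := by
    rw [Nat.cast_mul, Nat.cast_mul, Nat.cast_add, Nat.cast_pow] at h2
    rw [Nat.cast_add, Nat.cast_add, Nat.cast_mul, Nat.cast_pow]
    push_cast at h2 ⊢
    linarith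
  have h4 : f < 2 * n ^ 3 / 27 + C * n ^ 2 + 1 := by exact_mod_cast h3
  omega

theorem amgm (M R N : ℝ) (hM : 0 ≤ M) (hN : 0 ≤ N) (h : M + R = N) :
    R * M ^ 2 / 2 ≤ 2 / 27 * N ^ 3 := by
  have h1 : 4 / 27 * N ^ 3 - M ^ 2 * R = (M - 2 * N / 3) ^ 2 * (M + N / 3) := by
    have : R = N - M := by linarith
    rw [this]; ring
  have h2 : 0 ≤ (M - 2 * N / 3) ^ 2 * (M + N / 3) := by positivity
  linarith

theorem err (M R N c κ : ℝ) (hM : 0 ≤ M) (hR : 0 ≤ R) (h : M + R = N) (hκ : 0 ≤ κ)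
    (hc : c ≤ 2 * κ) (hc0 : 0 ≤ c) :
    2 * R ^ 2 + M * R + 2 * c * (M + R) * R ≤ (3 + 4 * κ) * N ^ 2 := by
  have hRN : R ≤ N := by linarith
  have hMN : M ≤ N := by linarith
  have hN : 0 ≤ N := by linarith
  have h1 : R ^ 2 ≤ N ^ 2 := by gcongr
  have h2 : M * R ≤ N * N := by gcongr
  have h3 : 2 * c * (M + R) * R ≤ 2 * (2 * κ) * N * N := by
    rw [h]; gcongr
  nlinarith

/-- few generators or small order -/
theorem case0 {m r : ℕ} (σ : Skel m r) (hY : σ.Y = Finset.univ) (hZ : σ.Z = ∅)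
    (hs : (σ.s : ℕ) = r) (hJ : ∀ g, σ.J g = ∅) :
    (nfree σ : ℝ) ≤ r * (m : ℝ) ^ 2 / 2 + m * (r : ℝ) ^ 2 + 3 * ((m : ℝ) + r) ^ 2 := by
  obtain ⟨c1, c2, c3⟩ := counts σ
  have hu0 : (Finset.univ.filter (fun k : Fin r => k ∉ σ.K ∧ (σ.s : ℕ) ≤ k)).card = 0 := by omega
  have ht : (Finset.univ.filter (fun k : Fin r => k ∉ σ.K ∧ (k : ℕ) < σ.s)).card ≤ r := by omega
  have hYc : ((σ.Y.card : ℕ) : ℝ) = m := by rw [hY, Finset.card_univ, Fintype.card_fin]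
  have hZc : ((σ.Z.card : ℕ) : ℝ) = 0 := by rw [hZ]; simp
  have h := nfree_le σ 0 (fun g => by rw [hJ g]; simp) _ _ _ _ _ _ rfl rfl rfl rfl rfl rfl
  rw [hYc, hZc, hu0] at h
  have ht' : ((Finset.univ.filter (fun k : Fin r => k ∉ σ.K ∧ (k : ℕ) < σ.s)).card : ℝ) ≤ r := by
    exact_mod_cast ht
  have ht0 : (0 : ℝ) ≤ ((Finset.univ.filter (fun k : Fin r => k ∉ σ.K ∧ (k : ℕ) < σ.s)).card : ℝ) :=
    Nat.cast_nonneg _
  generalize ((Finset.univ.filter (fun k : Fin r => k ∉ σ.K ∧ (k : ℕ) < σ.s)).card : ℝ) = t at *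
  have hm : (0 : ℝ) ≤ m := Nat.cast_nonneg _
  have hr : (0 : ℝ) ≤ r := Nat.cast_nonneg _
  have e1 : (m : ℝ) * t * r ≤ m * r * r := by gcongr
  have e2 : (0 : ℝ) ≤ m * r := by positivity
  push_cast at h
  nlinarith [h, e1, e2, sq_nonneg (m : ℝ), sq_nonneg (r : ℝ)]

theorem case1real (M R N y ρ : ℝ) (hM : 0 ≤ M) (hR : 0 ≤ R) (h : M + R = N)
    (hN : 10 ^ 24 ≤ N) (hm : N ≤ 20 * M) (hy0 : 0 ≤ y) (hy : 1000 * y ≤ N) (hρ : 0 ≤ ρ) :
    R * (M * (M - 1) / 2) - ρ * ((M - y) * (M - y - 1) / 2) + y * ρ * R ≤ 2 / 27 * N ^ 3 := by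
  have hN0 : 0 ≤ N := by linarith
  have h1 := amgm M R N hM hN0 h
  have a1 : 49 / 1000 * N ≤ M - y := by linarith
  have a2 : 48 / 1000 * N ≤ M - y - 1 := by linarith
  have a3 : 49 / 1000 * N * (48 / 1000 * N) ≤ (M - y) * (M - y - 1) := by
    apply mul_le_mul a1 a2 (by positivity) (by linarith)
  have a4 : y * R ≤ (N / 1000) * N := by
    apply mul_le_mul (by linarith) (by linarith) hR (by positivity)
  have a5 : 0 ≤ (M - y) * (M - y - 1) / 2 - y * R := by nlinarith [sq_nonneg N]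
  have a6 : 0 ≤ ρ * ((M - y) * (M - y - 1) / 2 - y * R) := mul_nonneg hρ a5
  have a7 : 0 ≤ R * M := mul_nonneg hR hM
  nlinarith

theorem case2real (M R N y z u t s : ℝ) (hM : 0 ≤ M) (hR : 0 ≤ R) (h : M + R = N)
    (hN : 10 ^ 24 ≤ N) (hm : N ≤ 20 * M) (hy0 : 0 ≤ y) (hy : 10 ^ 11 * y ≤ 3 * N)
    (hz : 0 ≤ z) (hzu : z ≤ u) (hzM : z ≤ M) (hu : 0 ≤ u) (hs : 0 ≤ s) (ht : 0 ≤ t)
    (hts : t ≤ s) (hus : u + s ≤ R) (hρ : N ≤ 2000 * (u + t)) :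
    R * (M * (M - 1) / 2) - (u + t) * ((M - y) * (M - y - 1) / 2) + y * (u + t) * R
      + z * (t * s - t ^ 2 / 2) + M * u * s ≤ 2 / 27 * N ^ 3 + N ^ 2 := by
  have hN0 : 0 < N := by linarith
  have e1 : M / N + R / N = 1 := by rw [← add_div, h, div_self hN0.ne']
  have k := num_core (M / N) (u / N) (s / N) (t / N) (z / N)
    (by rw [div_le_div_iff₀ (by norm_num) hN0]; linarith) (by positivity) (by positivity)
    (by positivity) (by gcongr)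
    (by
      have : u / N + s / N ≤ R / N := by rw [← add_div]; gcongr
      linarith)
    (by positivity) (by gcongr) (by gcongr)
    (by rw [← add_div, div_le_div_iff₀ (by norm_num) hN0]; linarith)
  have k2 : ((1 - M / N - u / N - t / N) * (M / N) ^ 2 / 2 + M / N * (u / N) * (s / N) +
      z / N * (t / N * (s / N) - (t / N) ^ 2 / 2)) * N ^ 3 =
      (R - u - t) * M ^ 2 / 2 + M * u * s + z * (t * s - t ^ 2 / 2) := by
    have hRN : R = N - M := by linarith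
    rw [hRN]
    field_simp
  have k3 : (R - u - t) * M ^ 2 / 2 + M * u * s + z * (t * s - t ^ 2 / 2) ≤
      (2 / 27 - 1 / 10 ^ 9) * N ^ 3 := by
    rw [← k2]
    exact mul_le_mul_of_nonneg_right k (by positivity)
  have hρR : u + t ≤ R := by linarith
  have hρ0 : 0 ≤ u + t := by linarith
  have b1 : (u + t) * M ≤ N * N := by
    apply mul_le_mul (by linarith) (by linarith) hM hN0.le
  have b2 : (u + t) * y ≤ N * (3 * N / 10 ^ 11) := by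
    apply mul_le_mul (by linarith) _ hy0 hN0.le
    rw [le_div_iff₀ (by norm_num)]
    linarith
  have b3 : ((u + t) * y) * N ≤ N * (3 * N / 10 ^ 11) * N := by gcongr
  have b4 : N * (3 * N / 10 ^ 11) * N ≤ 1 / 10 ^ 9 * N ^ 3 := by
    have : N * (3 * N / 10 ^ 11) * N = 3 / 10 ^ 11 * N ^ 3 := by ring
    rw [this]
    apply mul_le_mul_of_nonneg_right (by norm_num) (by positivity)
  have b5 : R * (M * (M - 1) / 2) - (u + t) * ((M - y) * (M - y - 1) / 2) + y * (u + t) * R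
      + z * (t * s - t ^ 2 / 2) + M * u * s =
      ((R - u - t) * M ^ 2 / 2 + M * u * s + z * (t * s - t ^ 2 / 2)) + ((u + t) * y) * N
        + (u + t) * M / 2 - R * M / 2 - (u + t) * y ^ 2 / 2 - (u + t) * y / 2 := by
    have hRN : R = N - M := by linarith
    rw [hRN]; ring
  have b6 : 0 ≤ R * M := mul_nonneg hR hM
  have b7 : 0 ≤ (u + t) * y ^ 2 := by positivity
  have b8 : 0 ≤ (u + t) * y := by positivity
  rw [b5]
  nlinarith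

theorem case1 {m r : ℕ} (σ : Skel m r) (κ : ℕ) (hZ : σ.Z = ∅)
    (hs : (σ.s : ℕ) = r) (hJ : ∀ g, (σ.J g).card ≤ 2 * κ) (hN : (10 : ℝ) ^ 24 ≤ (m : ℝ) + r)
    (hm : (m : ℝ) + r ≤ 20 * m) (hy : 1000 * (σ.Y.card : ℝ) ≤ (m : ℝ) + r) :
    (nfree σ : ℝ) ≤ 2 / 27 * ((m : ℝ) + r) ^ 3 + (3 + 4 * (κ : ℝ)) * ((m : ℝ) + r) ^ 2 := by
  obtain ⟨c1, c2, c3⟩ := counts σ
  have hu0 : (Finset.univ.filter (fun k : Fin r => k ∉ σ.K ∧ (σ.s : ℕ) ≤ k)).card = 0 := by omega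
  have hZc : ((σ.Z.card : ℕ) : ℝ) = 0 := by rw [hZ]; simp
  have h := nfree_le σ (2 * κ) hJ _ _ _ _ _ _ rfl rfl rfl rfl rfl rfl
  rw [hZc, hu0] at h
  have ht0 : (0 : ℝ) ≤ ((Finset.univ.filter (fun k : Fin r => k ∉ σ.K ∧ (k : ℕ) < σ.s)).card : ℝ) :=
    Nat.cast_nonneg _
  have hy0 : (0 : ℝ) ≤ (σ.Y.card : ℝ) := Nat.cast_nonneg _
  generalize ((Finset.univ.filter (fun k : Fin r => k ∉ σ.K ∧ (k : ℕ) < σ.s)).card : ℝ) = t at *
  generalize (σ.Y.card : ℝ) = y at *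
  have hm0 : (0 : ℝ) ≤ m := Nat.cast_nonneg _
  have hr0 : (0 : ℝ) ≤ r := Nat.cast_nonneg _
  have hκ : (0 : ℝ) ≤ κ := Nat.cast_nonneg _
  have e1 := case1real m r _ y t hm0 hr0 rfl hN hm hy0 hy ht0
  have e2 := err m r _ ((2 * κ : ℕ) : ℝ) κ hm0 hr0 rfl hκ (by push_cast; linarith) (Nat.cast_nonneg _)
  have e3 : ((0 : ℕ) : ℝ) + t = t := by simp
  rw [e3] at h
  have e4 : (m : ℝ) * ((0 : ℕ) : ℝ) * ((σ.s : ℕ) : ℝ) = 0 := by simp
  rw [e4, zero_mul] at h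
  linarith

theorem case2 {m r : ℕ} (σ : Skel m r) (κ : ℕ)
    (hZ : σ.Z.card ≤ (Finset.univ.filter (fun k : Fin r => k ∉ σ.K ∧ (σ.s : ℕ) ≤ k)).card)
    (hJ : ∀ g, (σ.J g).card ≤ 2 * κ) (hN : (10 : ℝ) ^ 24 ≤ (m : ℝ) + r)
    (hm : (m : ℝ) + r ≤ 20 * m) (hy : 10 ^ 11 * (σ.Y.card : ℝ) ≤ 3 * ((m : ℝ) + r))
    (ρ : ℕ) (hK : σ.K.card + ρ = r) (hρ : (m : ℝ) + r ≤ 2000 * ρ) :
    (nfree σ : ℝ) ≤ 2 / 27 * ((m : ℝ) + r) ^ 3 + (4 + 4 * (κ : ℝ)) * ((m : ℝ) + r) ^ 2 := by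
  obtain ⟨c1, c2, c3⟩ := counts σ
  have hZm : σ.Z.card ≤ m := by
    have := Finset.card_le_univ σ.Z
    rwa [Fintype.card_fin] at this
  have h := nfree_le σ (2 * κ) hJ _ _ _ _ _ _ rfl rfl rfl rfl rfl rfl
  have hρ' : ρ = (Finset.univ.filter (fun k : Fin r => k ∉ σ.K ∧ (σ.s : ℕ) ≤ k)).card +
      (Finset.univ.filter (fun k : Fin r => k ∉ σ.K ∧ (k : ℕ) < σ.s)).card := by omega
  rw [hρ'] at hρ
  rw [Nat.cast_add] at hρ
  have d1 : (σ.Z.card : ℝ) ≤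
      ((Finset.univ.filter (fun k : Fin r => k ∉ σ.K ∧ (σ.s : ℕ) ≤ k)).card : ℝ) := by
    exact_mod_cast hZ
  have d2 : (σ.Z.card : ℝ) ≤ m := by exact_mod_cast hZm
  have d3 : ((Finset.univ.filter (fun k : Fin r => k ∉ σ.K ∧ (σ.s : ℕ) ≤ k)).card : ℝ) +
      ((σ.s : ℕ) : ℝ) ≤ r := by exact_mod_cast c2
  have d4 : ((Finset.univ.filter (fun k : Fin r => k ∉ σ.K ∧ (k : ℕ) < σ.s)).card : ℝ) ≤
      ((σ.s : ℕ) : ℝ) := by exact_mod_cast c3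
  have ht0 : (0 : ℝ) ≤ ((Finset.univ.filter (fun k : Fin r => k ∉ σ.K ∧ (k : ℕ) < σ.s)).card : ℝ) :=
    Nat.cast_nonneg _
  have hu0 : (0 : ℝ) ≤
      ((Finset.univ.filter (fun k : Fin r => k ∉ σ.K ∧ (σ.s : ℕ) ≤ k)).card : ℝ) :=
    Nat.cast_nonneg _
  have hs0 : (0 : ℝ) ≤ ((σ.s : ℕ) : ℝ) := Nat.cast_nonneg _
  have hy0 : (0 : ℝ) ≤ (σ.Y.card : ℝ) := Nat.cast_nonneg _
  have hz0 : (0 : ℝ) ≤ (σ.Z.card : ℝ) := Nat.cast_nonneg _
  generalize ((Finset.univ.filter (fun k : Fin r => k ∉ σ.K ∧ (k : ℕ) < σ.s)).card : ℝ) = t at *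
  generalize ((Finset.univ.filter (fun k : Fin r => k ∉ σ.K ∧ (σ.s : ℕ) ≤ k)).card : ℝ) = u at *
  generalize ((σ.s : ℕ) : ℝ) = s at *
  generalize (σ.Y.card : ℝ) = y at *
  generalize (σ.Z.card : ℝ) = z at *
  have hm0 : (0 : ℝ) ≤ m := Nat.cast_nonneg _
  have hr0 : (0 : ℝ) ≤ r := Nat.cast_nonneg _
  have hκ : (0 : ℝ) ≤ κ := Nat.cast_nonneg _
  have e1 := case2real m r _ y z u t s hm0 hr0 rfl hN hm hy0 hy hz0 d1 d2 hu0 hs0 ht0 d4 d3 hρ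
  have e2 := err m r _ ((2 * κ : ℕ) : ℝ) κ hm0 hr0 rfl hκ (by push_cast; linarith) (Nat.cast_nonneg _)
  linarith

theorem tbound (t r n : ℕ) (h : t * (t + 1) ≤ 4 * r) (hrn : r ≤ n) (hn : 10 ^ 24 < n) :
    10 ^ 11 * t ≤ n := by
  by_contra hc
  push Not at hc
  have h1 : t * t ≤ 4 * n := by nlinarith
  have h2 : n * n ≤ (10 ^ 11 * t) * (10 ^ 11 * t) := Nat.mul_le_mul hc.le hc.le
  have h3 : (10 ^ 11 * t) * (10 ^ 11 * t) = 10 ^ 22 * (t * t) := by ring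
  have h4 : 10 ^ 24 * n < n * n := Nat.mul_lt_mul_of_pos_right hn (by omega)
  have h5 : 10 ^ 22 * (t * t) ≤ 10 ^ 22 * (4 * n) := Nat.mul_le_mul_left _ h1
  omega

end J_num_final

/-- TARGET -/
theorem num_final : ∃ κ C : ℕ, 1 ≤ κ ∧ ∀ (n m r y₀ t₁ t₂ ρ : ℕ), 1 ≤ n → m + r = n →
    t₁ * (t₁ + 1) ≤ 4 * r → t₂ * (t₂ + 1) ≤ 4 * r → y₀ ≤ r / κ + t₁ + t₂ → ρ ≤ r →
    ∀ (σ₁ σ₂ σ₃ : Skel m r),
      (σ₁.Y = Finset.univ ∧ σ₁.Z = ∅ ∧ (σ₁.s : ℕ) = r ∧ ∀ g, σ₁.J g = ∅) →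
      (σ₂.Y.card ≤ y₀ + ρ ∧ σ₂.Z = ∅ ∧ (σ₂.s : ℕ) = r ∧ σ₂.K.card + ρ = r ∧
        ∀ g, (σ₂.J g).card ≤ 2 * κ) →
      (σ₃.Y.card ≤ y₀ ∧
        σ₃.Z.card ≤ (Finset.univ.filter (fun k : Fin r => k ∉ σ₃.K ∧ (σ₃.s : ℕ) ≤ k)).card ∧
        σ₃.K.card + ρ = r ∧ ∀ g, (σ₃.J g).card ≤ 2 * κ) →
      nfree σ₁ ≤ 2 * n ^ 3 / 27 + C * n ^ 2 ∨ nfree σ₂ ≤ 2 * n ^ 3 / 27 + C * n ^ 2 ∨
        nfree σ₃ ≤ 2 * n ^ 3 / 27 + C * n ^ 2 := by
  refine ⟨10 ^ 11, 2 * 10 ^ 24 + 4 * 10 ^ 11 + 4, by norm_num, ?_⟩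
  rintro n m r y₀ t₁ t₂ ρ hn hmr ht₁ ht₂ hy₀ hρr σ₁ σ₂ σ₃ ⟨hY1, hZ1, hs1, hJ1⟩
    ⟨hY2, hZ2, hs2, hK2, hJ2⟩ ⟨hY3, hZ3, hK3, hJ3⟩
  have hMR : (m : ℝ) + r = n := by exact_mod_cast hmr
  have hm0 : (0 : ℝ) ≤ m := Nat.cast_nonneg _
  have hr0 : (0 : ℝ) ≤ r := Nat.cast_nonneg _
  have hn0 : (0 : ℝ) ≤ n := Nat.cast_nonneg _
  have hmn : (m : ℝ) ≤ n := by linarith
  have hrn : (r : ℝ) ≤ n := by linarith
  have hC : (((2 * 10 ^ 24 + 4 * 10 ^ 11 + 4 : ℕ)) : ℝ) = 2 * 10 ^ 24 + 4 * 10 ^ 11 + 4 := by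
    push_cast; ring
  have hn2 : (0 : ℝ) ≤ (n : ℝ) ^ 2 := by positivity
  have hn3 : (0 : ℝ) ≤ (n : ℝ) ^ 3 := by positivity
  rcases Nat.lt_or_ge (10 ^ 24) n with hbig | hsmall
  swap
  · left
    apply J_num_final.toNat
    have h := J_num_final.case0 σ₁ hY1 hZ1 hs1 hJ1
    rw [hMR] at h
    rw [hC]
    have hs : (n : ℝ) ≤ 10 ^ 24 := by exact_mod_cast hsmall
    have a1 : (r : ℝ) * (m : ℝ) ^ 2 ≤ n * (n : ℝ) ^ 2 := by gcongr
    have a2 : (m : ℝ) * (r : ℝ) ^ 2 ≤ n * (n : ℝ) ^ 2 := by gcongr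
    have a3 : (n : ℝ) * (n : ℝ) ^ 2 ≤ 10 ^ 24 * (n : ℝ) ^ 2 := by gcongr
    linarith
  · have hbig' : (10 : ℝ) ^ 24 ≤ (m : ℝ) + r := by
      rw [hMR]; exact_mod_cast hbig.le
    rcases Nat.lt_or_ge n (20 * m) with hm20 | hm20
    swap
    · left
      apply J_num_final.toNat
      have h := J_num_final.case0 σ₁ hY1 hZ1 hs1 hJ1
      rw [hMR] at h
      rw [hC]
      have hs : 20 * (m : ℝ) ≤ n := by exact_mod_cast hm20
      have hs' : (m : ℝ) ≤ n / 20 := by linarith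
      have a1 : (r : ℝ) * (m : ℝ) ^ 2 ≤ n * ((n : ℝ) / 20) ^ 2 := by gcongr
      have a2 : (m : ℝ) * (r : ℝ) ^ 2 ≤ (n / 20) * (n : ℝ) ^ 2 := by gcongr
      nlinarith
    · have hm20' : (m : ℝ) + r ≤ 20 * m := by
        rw [hMR]; exact_mod_cast hm20.le
      have hrn' : r ≤ n := by omega
      have hT1 := J_num_final.tbound t₁ r n ht₁ hrn' hbig
      have hT2 := J_num_final.tbound t₂ r n ht₂ hrn' hbig
      have hrk : 10 ^ 11 * (r / 10 ^ 11) ≤ r := Nat.mul_div_le _ _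
      have hy3 : 10 ^ 11 * y₀ ≤ 3 * n := by omega
      rcases Nat.lt_or_ge n (2000 * ρ) with hρ | hρ
      · right; right
        apply J_num_final.toNat
        have hyy : 10 ^ 11 * σ₃.Y.card ≤ 3 * n := le_trans (Nat.mul_le_mul_left _ hY3) hy3
        have h := J_num_final.case2 σ₃ (10 ^ 11) hZ3 hJ3 hbig' hm20'
          (by rw [hMR]; exact_mod_cast hyy) ρ hK3 (by rw [hMR]; exact_mod_cast hρ.le)
        rw [hMR] at h
        rw [hC]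
        push_cast at h
        linarith
      · right; left
        apply J_num_final.toNat
        have hyy : 1000 * σ₂.Y.card ≤ n := by omega
        have h := J_num_final.case1 σ₂ (10 ^ 11) hZ2 hs2 hJ2 hbig' hm20'
          (by rw [hMR]; exact_mod_cast hyy)
        rw [hMR] at h
        rw [hC]
        push_cast at h
        linarith

end Pool.Agent.Helper252_Enum
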