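import Pool.Agent.Helper252_Enum.X_exists_deco
import Pool.Agent.Helper252_Enum.Iso
import Pool.Agent.Helper252_Enum.N1_exists_code
import Pool.Agent.Helper252_Enum.N3_card_skel
import Pool.Agent.Helper252_Enum.U2_num_final
import Pool.Agent.Helper252_Enum.SkelInst

set_option autoImplicit false

open scoped commutatorElement

namespace Pool.Agent.Helper252_Enum

/-
PROOF OF THE TARGET.
Take κ, C₀ from num_final. Let p prime, n >= 1, a family 𝒢 a (a : α) of groups of order p^n. For each a: exists_deco (G := 𝒢 a) and num_final give m, r with m + r = n and a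
skeleton σ with Nonempty (Deco p m r σ (𝒢 a)) and nfree σ <= N := 2 n^3/27 + C₀ n^2. Let
 Code = Σ (m : Fin (n+1)), Σ (σ : {σ : Skel m (n - m) // nfree σ <= N}), ({i : Idx m (n-m) // free σ i} → Fin p),
a finite type with at most (n+1) * 2^(10 n^2) * p^N elements (card_skel_le with m + (n-m) = n; the function type has p^(nfree σ) <= p^N elements). Choose for each a its code using exists_code; if the
codes of a and b are equal then (same m, σ, after subst) SameDigits holds, so 𝒢 a ≃* 𝒢 b by iso_of_sameDigits. So Quot injects into Code (choose representatives with Quot.out: if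
code (out q) = code (out q') then the two are isomorphic so q = q'). Hence Nat.card Quot <= (n+1) 2^(10n^2) p^N <= p^(N + 11 n^2) as n + 1 <= 2^n <= 2^(n^2), 2 <= p. Take C = C₀ + 11.
(Rewrite r = n - m: from m + r = n, subst. `free` and `nfree` use classical decidability; the index set is finite.)
-/

namespace J_main_upper

theorem card_code_le (p n N : ℕ) [Fact p.Prime] :
    Nat.card (Σ m : Fin (n + 1), Σ σ : {σ : Skel (m : ℕ) (n - m) // nfree σ ≤ N},
      ({i : Idx (m : ℕ) (n - m) // free σ.1 i} → Fin p)) ≤ (n + 1) * (2 ^ (10 * n ^ 2) * p ^ N) := by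
  classical
  have hp : 1 ≤ p := (Fact.out : p.Prime).one_le
  rw [Nat.card_sigma]
  have h1 : ∀ m : Fin (n + 1), Nat.card (Σ σ : {σ : Skel (m : ℕ) (n - m) // nfree σ ≤ N},
      ({i : Idx (m : ℕ) (n - m) // free σ.1 i} → Fin p)) ≤ 2 ^ (10 * n ^ 2) * p ^ N := by
    intro m
    have hfin : Finite {σ : Skel (m : ℕ) (n - m) // nfree σ ≤ N} := inferInstance
    have : Fintype {σ : Skel (m : ℕ) (n - m) // nfree σ ≤ N} := Fintype.ofFinite _
    rw [Nat.card_sigma]
    have h2 : ∀ σ : {σ : Skel (m : ℕ) (n - m) // nfree σ ≤ N},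
        Nat.card ({i : Idx (m : ℕ) (n - m) // free σ.1 i} → Fin p) ≤ p ^ N := by
      intro σ
      rw [Nat.card_fun, Nat.card_fin]
      exact Nat.pow_le_pow_right hp σ.2
    refine (Finset.sum_le_card_nsmul _ _ _ (fun σ _ => h2 σ)).trans ?_
    rw [smul_eq_mul]
    refine Nat.mul_le_mul_right _ ?_
    rw [Finset.card_univ, ← Nat.card_eq_fintype_card]
    have h3 : Nat.card {σ : Skel (m : ℕ) (n - m) // nfree σ ≤ N} ≤
        Nat.card (Skel (m : ℕ) (n - m)) :=
      Nat.card_le_card_of_injective Subtype.val Subtype.val_injective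
    refine h3.trans ((card_skel_le _ _).trans ?_)
    have h4 : (m : ℕ) + (n - m) = n := by have := m.2; omega
    rw [h4]
  refine (Finset.sum_le_card_nsmul _ _ _ (fun m _ => h1 m)).trans ?_
  rw [smul_eq_mul, Finset.card_univ, Fintype.card_fin]

end J_main_upper

/-- TARGET -/
theorem main_upper : ∃ C : ℕ, ∀ (p : ℕ), p.Prime → ∀ n, 1 ≤ n → ∀ (α : Type) (𝒢 : α → Type)
    [∀ a, Group (𝒢 a)], (∀ a, Nat.card (𝒢 a) = p ^ n) →
    Nat.card (Quot fun a b => Nonempty (𝒢 a ≃* 𝒢 b)) ≤ p ^ (2 * n ^ 3 / 27 + C * n ^ 2) := by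
  classical
  obtain ⟨κ, C₀, hκ, hnum⟩ := num_final
  refine ⟨C₀ + 11, ?_⟩
  intro p hp n hn α 𝒢 _ hG
  haveI : Fact p.Prime := ⟨hp⟩
  set N := 2 * n ^ 3 / 27 + C₀ * n ^ 2 with hN
  have hex : ∀ a : α, ∃ (m : Fin (n + 1)) (σ : {σ : Skel (m : ℕ) (n - m) // nfree σ ≤ N}),
      Nonempty (Deco p (m : ℕ) (n - m) σ.1 (𝒢 a)) := by
    intro a
    obtain ⟨m, r, y₀, t₁, t₂, ρ, hmr, ht1, ht2, hy, hρ, ⟨σ₁, hD1, h11, h12, h13, h14⟩,
      ⟨σ₂, hD2, h21, h22, h23, h24, h25⟩, ⟨σ₃, hD3, h31, h32, h33, h34⟩⟩ :=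
      exists_deco κ n hκ (𝒢 a) (hG a)
    have hfin := hnum n m r y₀ t₁ t₂ ρ hn hmr ht1 ht2 hy hρ σ₁ σ₂ σ₃ ⟨h11, h12, h13, h14⟩
      ⟨h21, h22, h23, h24, h25⟩ ⟨h31, h32, h33, h34⟩
    have hm : m < n + 1 := by omega
    obtain rfl : r = n - m := by omega
    rcases hfin with h | h | h
    · exact ⟨⟨m, hm⟩, ⟨σ₁, h⟩, hD1⟩
    · exact ⟨⟨m, hm⟩, ⟨σ₂, h⟩, hD2⟩
    · exact ⟨⟨m, hm⟩, ⟨σ₃, h⟩, hD3⟩
  choose M S D using hex
  have hcode : ∀ (m r : ℕ) (σ : Skel m r),
      ∃ code : ∀ (G : Type) [Group G], Deco p m r σ G → ({i : Idx m r // free σ i} → Fin p),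
      ∀ (G G' : Type) [Group G] [Group G'] (D : Deco p m r σ G) (D' : Deco p m r σ G'),
        code G D = code G' D' → SameDigits D D' := fun m r σ => exists_code σ
  choose code hcode using hcode
  let Code : Type := Σ m : Fin (n + 1), Σ σ : {σ : Skel (m : ℕ) (n - m) // nfree σ ≤ N},
      ({i : Idx (m : ℕ) (n - m) // free σ.1 i} → Fin p)
  let F : α → Code := fun a => ⟨M a, S a, code _ _ (S a).1 (𝒢 a) (D a).some⟩
  let P : Code → (G : Type) → [Group G] → Prop := fun c G _ =>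
    ∃ D : Deco p (c.1 : ℕ) (n - c.1) c.2.1.1 G, code _ _ c.2.1.1 G D = c.2.2
  have hP : ∀ a, P (F a) (𝒢 a) := fun a => ⟨(D a).some, rfl⟩
  have hiso : ∀ a b, F a = F b → Nonempty (𝒢 a ≃* 𝒢 b) := by
    intro a b hab
    have ha := hP a
    have hb := hP b
    rw [hab] at ha
    obtain ⟨D1, hD1⟩ := ha
    obtain ⟨D2, hD2⟩ := hb
    exact iso_of_sameDigits D1 D2 (hcode _ _ _ _ _ D1 D2 (hD1.trans hD2.symm))
  have hinj : Function.Injective (fun q : Quot (fun a b => Nonempty (𝒢 a ≃* 𝒢 b)) =>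
      F (Quot.out q)) := by
    intro q q' h
    have h1 := hiso _ _ h
    have h2 : Quot.mk (fun a b => Nonempty (𝒢 a ≃* 𝒢 b)) (Quot.out q) =
        Quot.mk (fun a b => Nonempty (𝒢 a ≃* 𝒢 b)) (Quot.out q') := Quot.sound h1
    rwa [Quot.out_eq, Quot.out_eq] at h2
  have hfinite : Finite Code := by
    have h1 : ∀ m : Fin (n + 1), Finite (Σ σ : {σ : Skel (m : ℕ) (n - m) // nfree σ ≤ N},
      ({i : Idx (m : ℕ) (n - m) // free σ.1 i} → Fin p)) := by
      intro m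
      haveI : ∀ σ : {σ : Skel (m : ℕ) (n - m) // nfree σ ≤ N},
        Finite ({i : Idx (m : ℕ) (n - m) // free σ.1 i} → Fin p) := fun σ => inferInstance
      infer_instance
    infer_instance
  have h1 := Nat.card_le_card_of_injective _ hinj
  refine h1.trans ((J_main_upper.card_code_le p n N).trans ?_)
  have h2 : n + 1 ≤ 2 ^ (n ^ 2) := by
    have h3 : n < 2 ^ n := Nat.lt_two_pow_self
    have h4 : 2 ^ n ≤ 2 ^ (n ^ 2) := Nat.pow_le_pow_right (by norm_num) (by nlinarith)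
    omega
  have h5 : (n + 1) * 2 ^ (10 * n ^ 2) ≤ p ^ (11 * n ^ 2) := by
    calc (n + 1) * 2 ^ (10 * n ^ 2) ≤ 2 ^ (n ^ 2) * 2 ^ (10 * n ^ 2) :=
          Nat.mul_le_mul_right _ h2
      _ = 2 ^ (11 * n ^ 2) := by rw [← pow_add]; congr 1; ring
      _ ≤ p ^ (11 * n ^ 2) := Nat.pow_le_pow_left hp.two_le _
  calc (n + 1) * (2 ^ (10 * n ^ 2) * p ^ N) = ((n + 1) * 2 ^ (10 * n ^ 2)) * p ^ N := by ring
    _ ≤ p ^ (11 * n ^ 2) * p ^ N := Nat.mul_le_mul_right _ h5
    _ = p ^ (2 * n ^ 3 / 27 + (C₀ + 11) * n ^ 2) := by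
        rw [← pow_add, hN]; congr 1; ring

end Pool.Agent.Helper252_Enum
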