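import Pool.Agent.Helper252_Enum.IdxDefs

set_option autoImplicit false

open scoped commutatorElement

namespace Pool.Agent.Helper252_Enum

/-
PROOF OF THE TARGET.
nfree σ is the number of free indices; count each of the seven summands of Idx.
 1: r^2.  7: r^2.  5: m r.
 2: triples (k,i,j) with k ∉ K and (i ∈ Y, or i ∈ Z, k < s, j < k, or s <= k, j < s): at most [k ∉ K, i ∈ Y] ρ y r, plus [i ∈ Z, k ∉ K, k<s, j<k]
    z * sum over k ∉ K, k<s of k, where the sum of t distinct naturals below s is at most (s-1)+...+(s-t) = t s - t(t+1)/2 <= t s - t^2/2, plus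
    [k ∉ K, k >= s, i, j<s] u m s.
 3: l ∈ J g: at most (m+r) c r.   4: j ∈ J g: at most (m+r) r c.
 6: (i,j,k), i<j, and (i ∈ Y or j ∈ Y or k ∈ K): pairs i<j with both outside Y number (m-y)(m-y-1)/2 =: P0, each has |K| = r - ρ values k (u + t = r - |K|); the other
    m(m-1)/2 - P0 pairs have r values of k. Total r m(m-1)/2 - ρ P0.
Use Nat.card / Fintype.card of subtypes of sums (Fintype.card_subtype, Finset.card_filter, Fintype.card_sum ...), an injection into a disjoint union, or bound the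
cardinality of the union by the sum. (Classical decidability: open Classical.)
-/

namespace J_nfree_le

open Classical in
/-- the indicator of a proposition -/
noncomputable def ind (P : Prop) : ℝ := if P then 1 else 0

theorem ind_pos {P : Prop} (h : P) : ind P = 1 := by
  unfold ind
  rw [if_pos h]

theorem ind_neg {P : Prop} (h : ¬ P) : ind P = 0 := by
  unfold ind
  rw [if_neg h]

theorem ind_nonneg (P : Prop) : 0 ≤ ind P := by
  by_cases h : P
  · rw [ind_pos h]; exact zero_le_one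
  · rw [ind_neg h]

theorem sum_ind {ι : Type} [Fintype ι] (P : ι → Prop) [DecidablePred P] :
    ∑ i, ind (P i) = ((Finset.univ.filter P).card : ℝ) := by
  rw [Finset.card_filter]
  push_cast
  refine Finset.sum_congr rfl fun i _ => ?_
  by_cases h : P i
  · rw [ind_pos h, if_pos h]
  · rw [ind_neg h, if_neg h]

theorem sum_ind_mem {ι : Type} [Fintype ι] [DecidableEq ι] (A : Finset ι) :
    ∑ i, ind (i ∈ A) = (A.card : ℝ) := by
  rw [sum_ind, Finset.filter_univ_mem]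

theorem sum_ind_lt {r : ℕ} (s : ℕ) (hs : s ≤ r) : ∑ j : Fin r, ind ((j : ℕ) < s) = (s : ℝ) := by
  rw [sum_ind, Fin.card_filter_val_lt, min_eq_right hs]

theorem nfree_eq {m r : ℕ} (σ : Skel m r) : (nfree σ : ℝ) = ∑ i : Idx m r, ind (free σ i) := by
  classical
  unfold nfree
  rw [Nat.card_eq_fintype_card, Fintype.card_subtype, sum_ind]

theorem pairs {m : ℕ} (A : Finset (Fin m)) :
    ∑ i ∈ A, ∑ j ∈ A, ind (i < j) = (A.card : ℝ) * (A.card - 1) / 2 := by
  have h1 : ∑ i ∈ A, ∑ j ∈ A, ind (i < j) = ∑ i ∈ A, ∑ j ∈ A, ind (j < i) := Finset.sum_comm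
  have h2 : ∑ i ∈ A, ∑ j ∈ A, (ind (i < j) + ind (j < i) + ind (i = j)) =
      (A.card : ℝ) * A.card := by
    have h3 : ∀ i j : Fin m, ind (i < j) + ind (j < i) + ind (i = j) = 1 := by
      intro i j
      rcases lt_trichotomy i j with h | h | h
      · rw [ind_pos h, ind_neg (not_lt.2 h.le), ind_neg h.ne]; ring
      · rw [ind_pos h, ind_neg (not_lt.2 h.ge), ind_neg (not_lt.2 h.le)]; ring
      · rw [ind_pos h, ind_neg (not_lt.2 h.le), ind_neg h.ne']; ring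
    simp only [h3, Finset.sum_const, nsmul_eq_mul, mul_one]
  have h4 : ∑ i ∈ A, ∑ j ∈ A, ind (i = j) = (A.card : ℝ) := by
    have h5 : ∀ i ∈ A, ∑ j ∈ A, ind (i = j) = 1 := by
      intro i hi
      rw [Finset.sum_eq_single i]
      · exact ind_pos rfl
      · intro j _ hj
        exact ind_neg (fun h => hj h.symm)
      · intro h
        exact absurd hi h
    rw [Finset.sum_congr rfl h5, Finset.sum_const, nsmul_eq_mul, mul_one]
  simp only [Finset.sum_add_distrib] at h2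
  rw [h4, ← h1] at h2
  linarith

theorem sum_distinct (s : ℕ) : ∀ A : Finset ℕ, A ⊆ Finset.range s →
    2 * ∑ k ∈ A, k + A.card ^ 2 + A.card ≤ 2 * A.card * s := by
  induction s with
  | zero =>
    intro A hA
    have : A = ∅ := by
      rw [Finset.range_zero] at hA
      exact Finset.subset_empty.1 hA
    subst this
    simp
  | succ s ih =>
    intro A hA
    by_cases hs : s ∈ A
    · have h1 : A.erase s ⊆ Finset.range s := by
        intro k hk
        have h2 := Finset.mem_range.1 (hA (Finset.mem_of_mem_erase hk))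
        have h3 := Finset.ne_of_mem_erase hk
        rw [Finset.mem_range]
        omega
      have h2 := ih _ h1
      have h3 : (A.erase s).card + 1 = A.card := Finset.card_erase_add_one hs
      have h4 : s + ∑ k ∈ A.erase s, k = ∑ k ∈ A, k := Finset.add_sum_erase A (fun k => k) hs
      rw [← h3, ← h4]
      nlinarith
    · have h1 : A ⊆ Finset.range s := by
        intro k hk
        have h2 := Finset.mem_range.1 (hA hk)
        rw [Finset.mem_range]
        have : k ≠ s := by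
          rintro rfl
          exact hs hk
        omega
      have h2 := ih _ h1
      nlinarith

theorem sum_distinct' {r : ℕ} (s : ℕ) (A : Finset (Fin r)) (hA : ∀ k ∈ A, (k : ℕ) < s) :
    ∑ k ∈ A, ((k : ℕ) : ℝ) ≤ A.card * s - (A.card : ℝ) ^ 2 / 2 := by
  have h1 := sum_distinct s (A.map Fin.valEmbedding) (by
    intro k hk
    obtain ⟨a, ha, rfl⟩ := Finset.mem_map.1 hk
    exact Finset.mem_range.2 (hA a ha))
  rw [Finset.card_map, Finset.sum_map] at h1
  have h2 : 2 * ∑ k ∈ A, ((k : ℕ) : ℝ) + (A.card : ℝ) ^ 2 + A.card ≤ 2 * A.card * s := by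
    have h3 : ((2 * ∑ k ∈ A, (Fin.valEmbedding k) + A.card ^ 2 + A.card : ℕ) : ℝ) ≤
        ((2 * A.card * s : ℕ) : ℝ) := by exact_mod_cast h1
    push_cast at h3
    exact h3
  have h4 : (0 : ℝ) ≤ A.card := Nat.cast_nonneg _
  linarith

theorem split_K {m r : ℕ} (σ : Skel m r) (k : Fin r) : ind (k ∉ σ.K) =
    ind (k ∉ σ.K ∧ (σ.s : ℕ) ≤ k) + ind (k ∉ σ.K ∧ (k : ℕ) < σ.s) := by
  by_cases hk : k ∉ σ.K
  · rcases le_or_gt (σ.s : ℕ) (k : ℕ) with h | h
    · rw [ind_pos hk, ind_pos (show k ∉ σ.K ∧ (σ.s : ℕ) ≤ k from ⟨hk, h⟩),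
        ind_neg (show ¬ (k ∉ σ.K ∧ (k : ℕ) < σ.s) from fun h' => absurd h'.2 (not_lt.2 h))]
      ring
    · rw [ind_pos hk, ind_pos (show k ∉ σ.K ∧ (k : ℕ) < σ.s from ⟨hk, h⟩),
        ind_neg (show ¬ (k ∉ σ.K ∧ (σ.s : ℕ) ≤ k) from fun h' => absurd h'.2 (not_le.2 h))]
      ring
  · rw [ind_neg hk, ind_neg (show ¬ (k ∉ σ.K ∧ (k : ℕ) < σ.s) from fun h' => hk h'.1),
      ind_neg (show ¬ (k ∉ σ.K ∧ (σ.s : ℕ) ≤ k) from fun h' => hk h'.1)]
    ring

/-- the second kind of digits -/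
theorem S2 {m r : ℕ} (σ : Skel m r) (y z u t s ρ : ℝ)
    (hy : y = σ.Y.card) (hz : z = σ.Z.card) (hs : s = ((σ.s : ℕ) : ℝ))
    (hu : u = (Finset.univ.filter (fun k : Fin r => k ∉ σ.K ∧ (σ.s : ℕ) ≤ k)).card)
    (ht : t = (Finset.univ.filter (fun k : Fin r => k ∉ σ.K ∧ (k : ℕ) < σ.s)).card)
    (hρ : ρ = u + t) :
    ∑ k : Fin r, ∑ i : Fin m, ∑ j : Fin r, ind (free σ (Sum.inr (Sum.inl (k, i, j)))) ≤
      y * ρ * r + z * (t * s - t ^ 2 / 2) + m * u * s := by
  have hsr : (σ.s : ℕ) ≤ r := Nat.lt_succ_iff.1 σ.s.2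
  have h1 : ∀ (k : Fin r) (i : Fin m) (j : Fin r), ind (free σ (Sum.inr (Sum.inl (k, i, j)))) ≤
      ind (k ∉ σ.K) * ind (i ∈ σ.Y) +
      ind (k ∉ σ.K ∧ (k : ℕ) < σ.s) * ind (i ∈ σ.Z) * ind ((j : ℕ) < k) +
      ind (k ∉ σ.K ∧ (σ.s : ℕ) ≤ k) * ind ((j : ℕ) < σ.s) := by
    intro k i j
    have n1 := mul_nonneg (ind_nonneg (k ∉ σ.K)) (ind_nonneg (i ∈ σ.Y))
    have n2 := mul_nonneg (mul_nonneg (ind_nonneg (k ∉ σ.K ∧ (k : ℕ) < σ.s))
      (ind_nonneg (i ∈ σ.Z))) (ind_nonneg ((j : ℕ) < k))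
    have n3 := mul_nonneg (ind_nonneg (k ∉ σ.K ∧ (σ.s : ℕ) ≤ k)) (ind_nonneg ((j : ℕ) < σ.s))
    by_cases h : free σ (Sum.inr (Sum.inl (k, i, j)))
    · rw [ind_pos h]
      obtain ⟨hk, h | ⟨h, h', h''⟩ | ⟨h, h'⟩⟩ := h
      · rw [ind_pos hk, ind_pos h]
        linarith
      · rw [ind_pos (show k ∉ σ.K ∧ (k : ℕ) < σ.s from ⟨hk, h'⟩), ind_pos h,
          ind_pos (show (j : ℕ) < k from h'')]
        linarith
      · rw [ind_pos (show k ∉ σ.K ∧ (σ.s : ℕ) ≤ k from ⟨hk, h⟩), ind_pos h']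
        linarith
    · rw [ind_neg h]
      linarith
  have eK : ∑ k : Fin r, ind (k ∉ σ.K) = ρ := by
    rw [hρ, hu, ht, ← sum_ind, ← sum_ind, ← Finset.sum_add_distrib]
    exact Finset.sum_congr rfl fun k _ => split_K σ k
  have e1 : ∀ k : Fin r, ∑ i : Fin m, ∑ j : Fin r, (ind (k ∉ σ.K) * ind (i ∈ σ.Y) +
      ind (k ∉ σ.K ∧ (k : ℕ) < σ.s) * ind (i ∈ σ.Z) * ind ((j : ℕ) < k) +
      ind (k ∉ σ.K ∧ (σ.s : ℕ) ≤ k) * ind ((j : ℕ) < σ.s)) =
      ind (k ∉ σ.K) * (y * r) + ind (k ∉ σ.K ∧ (k : ℕ) < σ.s) * (k : ℕ) * z +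
        ind (k ∉ σ.K ∧ (σ.s : ℕ) ≤ k) * (m * s) := by
    intro k
    have e2 : ∀ i : Fin m, ∑ j : Fin r, (ind (k ∉ σ.K) * ind (i ∈ σ.Y) +
      ind (k ∉ σ.K ∧ (k : ℕ) < σ.s) * ind (i ∈ σ.Z) * ind ((j : ℕ) < k) +
      ind (k ∉ σ.K ∧ (σ.s : ℕ) ≤ k) * ind ((j : ℕ) < σ.s)) =
      ind (k ∉ σ.K) * r * ind (i ∈ σ.Y) +
      ind (k ∉ σ.K ∧ (k : ℕ) < σ.s) * (k : ℕ) * ind (i ∈ σ.Z) +
      ind (k ∉ σ.K ∧ (σ.s : ℕ) ≤ k) * s := by
      intro i
      rw [Finset.sum_add_distrib, Finset.sum_add_distrib, Finset.sum_const, ← Finset.mul_sum,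
        ← Finset.mul_sum, sum_ind_lt _ k.2.le, sum_ind_lt _ hsr, Finset.card_univ,
        Fintype.card_fin, nsmul_eq_mul, hs]
      ring
    simp only [e2]
    rw [Finset.sum_add_distrib, Finset.sum_add_distrib, ← Finset.mul_sum, ← Finset.mul_sum,
      sum_ind_mem, sum_ind_mem, Finset.sum_const, Finset.card_univ, Fintype.card_fin,
      nsmul_eq_mul, hy, hz]
    ring
  have e3 : ∑ k : Fin r, ind (k ∉ σ.K ∧ (k : ℕ) < σ.s) * (k : ℕ) ≤ t * s - t ^ 2 / 2 := by
    have e4 : ∑ k : Fin r, ind (k ∉ σ.K ∧ (k : ℕ) < σ.s) * (k : ℕ) =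
        ∑ k ∈ Finset.univ.filter (fun k : Fin r => k ∉ σ.K ∧ (k : ℕ) < σ.s), ((k : ℕ) : ℝ) := by
      rw [Finset.sum_filter]
      refine Finset.sum_congr rfl fun k _ => ?_
      by_cases h : k ∉ σ.K ∧ (k : ℕ) < σ.s
      · rw [ind_pos h, if_pos h, one_mul]
      · rw [ind_neg h, if_neg h, zero_mul]
    rw [e4, ht, hs]
    exact sum_distinct' _ _ fun k hk => (Finset.mem_filter.1 hk).2.2
  have hz0 : 0 ≤ z := by rw [hz]; exact Nat.cast_nonneg _
  calc ∑ k : Fin r, ∑ i : Fin m, ∑ j : Fin r, ind (free σ (Sum.inr (Sum.inl (k, i, j))))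
      ≤ ∑ k : Fin r, ∑ i : Fin m, ∑ j : Fin r, (ind (k ∉ σ.K) * ind (i ∈ σ.Y) +
      ind (k ∉ σ.K ∧ (k : ℕ) < σ.s) * ind (i ∈ σ.Z) * ind ((j : ℕ) < k) +
      ind (k ∉ σ.K ∧ (σ.s : ℕ) ≤ k) * ind ((j : ℕ) < σ.s)) :=
        Finset.sum_le_sum fun k _ => Finset.sum_le_sum fun i _ => Finset.sum_le_sum fun j _ =>
          h1 k i j
    _ = ρ * (y * r) + (∑ k : Fin r, ind (k ∉ σ.K ∧ (k : ℕ) < σ.s) * (k : ℕ)) * z +
        u * (m * s) := by
        simp only [e1]
        rw [Finset.sum_add_distrib, Finset.sum_add_distrib, ← Finset.sum_mul, ← Finset.sum_mul,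
          ← Finset.sum_mul, eK, sum_ind (fun k : Fin r => k ∉ σ.K ∧ (σ.s : ℕ) ≤ k), ← hu]
    _ ≤ ρ * (y * r) + (t * s - t ^ 2 / 2) * z + u * (m * s) := by
        have := mul_le_mul_of_nonneg_right e3 hz0
        linarith
    _ = _ := by ring

/-- the sixth kind of digits -/
theorem S6 {m r : ℕ} (σ : Skel m r) (y u t ρ : ℝ) (hy : y = σ.Y.card)
    (hu : u = (Finset.univ.filter (fun k : Fin r => k ∉ σ.K ∧ (σ.s : ℕ) ≤ k)).card)
    (ht : t = (Finset.univ.filter (fun k : Fin r => k ∉ σ.K ∧ (k : ℕ) < σ.s)).card)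
    (hρ : ρ = u + t) :
    ∑ i : Fin m, ∑ j : Fin m, ∑ k : Fin r, ind (i < j ∧ (i ∈ σ.Y ∨ j ∈ σ.Y ∨ k ∈ σ.K)) =
      r * (m * (m - 1) / 2) - ρ * ((m - y) * (m - y - 1) / 2) := by
  classical
  have eK : ∑ k : Fin r, ind (k ∈ σ.K) = r - ρ := by
    have h1 : ρ = ∑ k : Fin r, ind (k ∉ σ.K) := by
      rw [hρ, hu, ht, ← sum_ind, ← sum_ind, ← Finset.sum_add_distrib]
      exact Finset.sum_congr rfl fun k _ => (split_K σ k).symm
    have h2 : ∑ k : Fin r, (ind (k ∈ σ.K) + ind (k ∉ σ.K)) = r := by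
      have h3 : ∀ k : Fin r, ind (k ∈ σ.K) + ind (k ∉ σ.K) = 1 := by
        intro k
        by_cases hk : k ∈ σ.K
        · rw [ind_pos hk, ind_neg (not_not.2 hk)]; ring
        · rw [ind_neg hk, ind_pos hk]; ring
      simp only [h3]
      simp
    rw [Finset.sum_add_distrib, ← h1] at h2
    linarith
  set A : Finset (Fin m) := Finset.univ.filter (fun i => i ∉ σ.Y) with hA
  have e1 : ∀ i j : Fin m, ∑ k : Fin r, ind (i < j ∧ (i ∈ σ.Y ∨ j ∈ σ.Y ∨ k ∈ σ.K)) =
      r * ind (i < j) - ρ * (if i ∉ σ.Y then (if j ∉ σ.Y then ind (i < j) else 0) else 0) := by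
    intro i j
    by_cases hij : i < j
    · rw [ind_pos hij]
      by_cases hi : i ∈ σ.Y
      · have : ∀ k : Fin r, ind (i < j ∧ (i ∈ σ.Y ∨ j ∈ σ.Y ∨ k ∈ σ.K)) = 1 := fun k =>
          ind_pos ⟨hij, Or.inl hi⟩
        simp only [this]
        rw [if_neg (not_not.2 hi)]
        simp
      · by_cases hj : j ∈ σ.Y
        · have : ∀ k : Fin r, ind (i < j ∧ (i ∈ σ.Y ∨ j ∈ σ.Y ∨ k ∈ σ.K)) = 1 := fun k =>
            ind_pos ⟨hij, Or.inr (Or.inl hj)⟩
          simp only [this]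
          rw [if_pos hi, if_neg (not_not.2 hj)]
          simp
        · have : ∀ k : Fin r, ind (i < j ∧ (i ∈ σ.Y ∨ j ∈ σ.Y ∨ k ∈ σ.K)) = ind (k ∈ σ.K) := by
            intro k
            by_cases hk : k ∈ σ.K
            · rw [ind_pos hk, ind_pos ⟨hij, Or.inr (Or.inr hk)⟩]
            · rw [ind_neg hk, ind_neg]
              rintro ⟨_, h | h | h⟩
              · exact hi h
              · exact hj h
              · exact hk h
          simp only [this]
          rw [eK, if_pos hi, if_pos hj]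
          ring
    · have : ∀ k : Fin r, ind (i < j ∧ (i ∈ σ.Y ∨ j ∈ σ.Y ∨ k ∈ σ.K)) = 0 := fun k =>
        ind_neg (fun h => hij h.1)
      simp only [this]
      rw [ind_neg hij]
      simp
  simp only [e1]
  have e2 : ∑ i : Fin m, ∑ j : Fin m,
      (r * ind (i < j) - ρ * (if i ∉ σ.Y then (if j ∉ σ.Y then ind (i < j) else 0) else 0)) =
      r * (∑ i : Fin m, ∑ j : Fin m, ind (i < j)) - ρ * ∑ i ∈ A, ∑ j ∈ A, ind (i < j) := by
    simp only [Finset.sum_sub_distrib, ← Finset.mul_sum]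
    congr 2
    rw [hA, Finset.sum_filter]
    refine Finset.sum_congr rfl fun i _ => ?_
    by_cases hi : i ∉ σ.Y
    · rw [if_pos hi, Finset.sum_filter]
      refine Finset.sum_congr rfl fun j _ => ?_
      rw [if_pos hi]
    · rw [if_neg hi]
      refine Finset.sum_eq_zero fun j _ => ?_
      rw [if_neg hi]
  rw [e2, pairs Finset.univ, pairs A]
  have hAc : (A.card : ℝ) = m - y := by
    have h1 : A = σ.Yᶜ := by
      ext i
      simp [hA]
    rw [h1, Finset.card_compl, Fintype.card_fin, Nat.cast_sub (by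
      have := Finset.card_le_univ σ.Y
      rwa [Fintype.card_fin] at this), hy]
  rw [hAc, Finset.card_univ, Fintype.card_fin]

end J_nfree_le

/-- TARGET -/
theorem nfree_le {m r : ℕ} (σ : Skel m r) (c : ℕ) (hJ : ∀ g, (σ.J g).card ≤ c) (y z u t s ρ : ℝ)
    (hy : y = σ.Y.card) (hz : z = σ.Z.card) (hs : s = ((σ.s : ℕ) : ℝ))
    (hu : u = (Finset.univ.filter (fun k : Fin r => k ∉ σ.K ∧ (σ.s : ℕ) ≤ k)).card)
    (ht : t = (Finset.univ.filter (fun k : Fin r => k ∉ σ.K ∧ (k : ℕ) < σ.s)).card)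
    (hρ : ρ = u + t) :
    (nfree σ : ℝ) ≤ r * (m * (m - 1) / 2) - ρ * ((m - y) * (m - y - 1) / 2) + y * ρ * r
      + z * (t * s - t ^ 2 / 2) + m * u * s + 2 * r ^ 2 + m * r + 2 * c * (m + r) * r := by
  classical
  rw [J_nfree_le.nfree_eq, Fintype.sum_sum_type, Fintype.sum_sum_type, Fintype.sum_sum_type,
    Fintype.sum_sum_type, Fintype.sum_sum_type, Fintype.sum_sum_type]
  have h1 : ∑ a : Fin r × Fin r, J_nfree_le.ind (free (m := m) σ (Sum.inl a)) = (r : ℝ) ^ 2 := by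
    have : ∀ a : Fin r × Fin r, J_nfree_le.ind (free (m := m) σ (Sum.inl a)) = 1 := fun a =>
      J_nfree_le.ind_pos trivial
    simp only [this]
    simp
    ring
  have h7 : ∑ a : Fin r × Fin r, J_nfree_le.ind (free (m := m) σ (Sum.inr (Sum.inr (Sum.inr
      (Sum.inr (Sum.inr (Sum.inr a))))))) = (r : ℝ) ^ 2 := by
    have : ∀ a : Fin r × Fin r, J_nfree_le.ind (free (m := m) σ (Sum.inr (Sum.inr (Sum.inr
      (Sum.inr (Sum.inr (Sum.inr a))))))) = 1 := fun a =>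
      J_nfree_le.ind_pos trivial
    simp only [this]
    simp
    ring
  have h5 : ∑ a : Fin m × Fin r, J_nfree_le.ind (free (m := m) σ (Sum.inr (Sum.inr (Sum.inr
      (Sum.inr (Sum.inl a)))))) = (m : ℝ) * r := by
    have : ∀ a : Fin m × Fin r, J_nfree_le.ind (free (m := m) σ (Sum.inr (Sum.inr (Sum.inr
      (Sum.inr (Sum.inl a)))))) = 1 := fun a =>
      J_nfree_le.ind_pos trivial
    simp only [this]
    simp
  have h2 : ∑ a : Fin r × Fin m × Fin r, J_nfree_le.ind (free (m := m) σ (Sum.inr (Sum.inl a))) ≤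
      y * ρ * r + z * (t * s - t ^ 2 / 2) + m * u * s := by
    simp only [Fintype.sum_prod_type]
    exact J_nfree_le.S2 σ y z u t s ρ hy hz hs hu ht hρ
  have h6 : ∑ a : Fin m × Fin m × Fin r, J_nfree_le.ind (free (m := m) σ (Sum.inr (Sum.inr
      (Sum.inr (Sum.inr (Sum.inr (Sum.inl a))))))) =
      r * (m * (m - 1) / 2) - ρ * ((m - y) * (m - y - 1) / 2) := by
    simp only [Fintype.sum_prod_type]
    exact J_nfree_le.S6 σ y u t ρ hy hu ht hρ
  have hsumJ : ∀ g, ∑ l : Fin r, J_nfree_le.ind (l ∈ σ.J g) ≤ c := by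
    intro g
    rw [J_nfree_le.sum_ind_mem]
    exact_mod_cast hJ g
  have h3 : ∑ a : (Fin m ⊕ Fin r) × Fin r × Fin r, J_nfree_le.ind (free (m := m) σ (Sum.inr
      (Sum.inr (Sum.inl a)))) ≤ c * (m + r) * r := by
    simp only [Fintype.sum_prod_type]
    have e : ∀ g : Fin m ⊕ Fin r, ∑ l : Fin r, ∑ j : Fin r, J_nfree_le.ind (free (m := m) σ
        (Sum.inr (Sum.inr (Sum.inl (g, l, j))))) ≤ c * r := by
      intro g
      have e1 : ∀ l : Fin r, ∑ j : Fin r, J_nfree_le.ind (free (m := m) σ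
        (Sum.inr (Sum.inr (Sum.inl (g, l, j))))) = J_nfree_le.ind (l ∈ σ.J g) * r := by
        intro l
        have e2 : ∀ j : Fin r, J_nfree_le.ind (free (m := m) σ
          (Sum.inr (Sum.inr (Sum.inl (g, l, j))))) = J_nfree_le.ind (l ∈ σ.J g) := fun j => rfl
        simp only [e2]
        simp
        ring
      simp only [e1]
      rw [← Finset.sum_mul]
      exact mul_le_mul_of_nonneg_right (hsumJ g) (Nat.cast_nonneg _)
    refine (Finset.sum_le_sum fun g _ => e g).trans ?_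
    simp
    linarith
  have h4 : ∑ a : (Fin m ⊕ Fin r) × Fin r × Fin r, J_nfree_le.ind (free (m := m) σ (Sum.inr
      (Sum.inr (Sum.inr (Sum.inl a))))) ≤ c * (m + r) * r := by
    simp only [Fintype.sum_prod_type]
    have e : ∀ g : Fin m ⊕ Fin r, ∑ l : Fin r, ∑ j : Fin r, J_nfree_le.ind (free (m := m) σ
        (Sum.inr (Sum.inr (Sum.inr (Sum.inl (g, l, j)))))) ≤ c * r := by
      intro g
      have e1 : ∀ l : Fin r, ∑ j : Fin r, J_nfree_le.ind (free (m := m) σ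
        (Sum.inr (Sum.inr (Sum.inr (Sum.inl (g, l, j)))))) ≤ c := fun l => hsumJ g
      refine (Finset.sum_le_sum fun l _ => e1 l).trans ?_
      simp
      linarith
    refine (Finset.sum_le_sum fun g _ => e g).trans ?_
    simp
    linarith
  rw [h1, h7, h5, h6]
  linarith

end Pool.Agent.Helper252_Enum
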