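import Pool.Agent.Helper252_Enum.Defs

set_option autoImplicit false

open scoped commutatorElement

namespace Pool.Agent.Helper252_Enum

/-
PROOF OF THE TARGET.
G is a finite p-group, D <= L, L <= D * Phi(L), where PC p L L is generated by the commutators and p-th powers of L.
Claim L <= D. Work in the group L itself (D' = D.subgroupOf L). If D' is not the whole of L it is contained in a maximal
subgroup M of L (finite lattice, coatomic). L is a finite p-group, hence nilpotent (IsPGroup.isNilpotent), and a maximal
subgroup of a nilpotent group is normal (Subgroup.NormalizerCondition.normal_of_coatom with normalizerCondition_of_isNilpotent).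
L/M is simple and a p-group with no proper nontrivial subgroups, so it has order p: all commutators and all p-th powers
of L lie in M (e.g. L/M is a nontrivial p-group, so has a nontrivial centre, whose preimage is everything by maximality;
thus abelian; the subgroup of p-th powers is proper since there is an element of order p (Cauchy) so by maximality trivial).
So PC p L L (restricted to L) is in M, and L = D' * PC <= M, contradiction.
-/

/-- TARGET -/
theorem nongen {G : Type*} [Group G] [Finite G] {p : ℕ} [Fact p.Prime] (hG : IsPGroup p G)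
    (L D : Subgroup G) (hDL : D ≤ L) (h : L ≤ D ⊔ PC p L L) : L ≤ D := by
  classical
  by_contra hLD
  have hpL : IsPGroup p L := hG.to_subgroup L
  have hD' : D.subgroupOf L ≠ ⊤ := by
    intro h1
    exact hLD (Subgroup.subgroupOf_eq_top.mp h1)
  obtain ⟨M, hM, hDM⟩ := (eq_top_or_exists_le_coatom (D.subgroupOf L)).resolve_left hD'
  have hnil : Group.IsNilpotent L := hpL.isNilpotent
  have hMn : M.Normal :=
    Subgroup.NormalizerCondition.normal_of_coatom M Group.normalizerCondition_of_isNilpotent hM
  have hpQ : IsPGroup p (L ⧸ M) := hpL.to_quotient M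
  -- subgroups of the quotient are trivial
  have hsub : ∀ S : Subgroup (L ⧸ M), S = ⊥ ∨ S = ⊤ := by
    intro S
    have h1 : M ≤ S.comap (QuotientGroup.mk' M) := by
      intro x hx
      rw [Subgroup.mem_comap]
      have : (QuotientGroup.mk' M) x = 1 := (QuotientGroup.eq_one_iff x).mpr hx
      rw [this]
      exact S.one_mem
    rcases hM.le_iff.mp h1 with h2 | h2
    · right
      rw [eq_top_iff]
      rintro y -
      obtain ⟨x, rfl⟩ := QuotientGroup.mk'_surjective M y
      have : x ∈ S.comap (QuotientGroup.mk' M) := by rw [h2]; trivial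
      exact this
    · left
      rw [eq_bot_iff]
      intro y hy
      obtain ⟨x, rfl⟩ := QuotientGroup.mk'_surjective M y
      have : x ∈ S.comap (QuotientGroup.mk' M) := hy
      rw [h2] at this
      exact Subgroup.mem_bot.mpr ((QuotientGroup.eq_one_iff x).mpr this)
  have hnt : Nontrivial (L ⧸ M) := by
    by_contra hcon
    rw [not_nontrivial_iff_subsingleton] at hcon
    apply hM.1
    rw [eq_top_iff]
    intro x _
    exact (QuotientGroup.eq_one_iff x).mp (Subsingleton.elim _ _)
  have hcomm : ∀ a b : L ⧸ M, a * b = b * a := by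
    have hc : Nontrivial (Subgroup.center (L ⧸ M)) := hpQ.center_nontrivial
    rcases hsub (Subgroup.center (L ⧸ M)) with h1 | h1
    · exfalso
      rw [h1] at hc
      exact (not_nontrivial_iff_subsingleton.mpr inferInstance) hc
    · intro a b
      have : a ∈ Subgroup.center (L ⧸ M) := by rw [h1]; trivial
      exact (Subgroup.mem_center_iff.mp this b).symm
  have hpow : ∀ x : L ⧸ M, x ^ p = 1 := by
    intro x
    rcases hsub (Subgroup.zpowers (x ^ p)) with h1 | h1
    · exact Subgroup.zpowers_eq_bot.mp h1
    · have hx : x ∈ Subgroup.zpowers (x ^ p) := by rw [h1]; trivial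
      obtain ⟨k, hk⟩ := Subgroup.mem_zpowers_iff.mp hx
      obtain ⟨j, hj⟩ := (IsPGroup.iff_orderOf.mp hpQ) x
      have h2 : x ^ ((p : ℤ) * k - 1) = 1 := by
        rw [zpow_sub_one, zpow_mul, zpow_natCast, hk, mul_inv_cancel]
      have h3 : (orderOf x : ℤ) ∣ (p : ℤ) * k - 1 := orderOf_dvd_iff_zpow_eq_one.mpr h2
      rcases j with _ | j
      · rw [pow_zero, orderOf_eq_one_iff] at hj
        rw [hj, one_pow]
      · exfalso
        have h4 : (p : ℤ) ∣ (p : ℤ) * k - 1 := by
          refine dvd_trans ?_ h3
          rw [hj, pow_succ]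
          exact_mod_cast Dvd.intro_left _ rfl
        have h5 : (p : ℤ) ∣ 1 := by
          have := dvd_sub (Dvd.intro k rfl : (p : ℤ) ∣ (p : ℤ) * k) h4
          rwa [sub_sub_cancel] at this
        exact (Fact.out : p.Prime).one_lt.ne' (by
          have := Int.natAbs_dvd_natAbs.mpr h5
          simpa using this)
  -- the Frattini part lies in `M`
  have hPC : PC p L L ≤ M.map L.subtype := by
    unfold PC
    rw [Subgroup.closure_le]
    rintro x (⟨a, ha, b, hb, rfl⟩ | ⟨a, ha, rfl⟩)
    · refine ⟨⁅(⟨a, ha⟩ : L), (⟨b, hb⟩ : L)⁆, ?_, ?_⟩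
      · refine (QuotientGroup.eq_one_iff _).mp ?_
        have h1 := hcomm (((⟨a, ha⟩ : L) : L) : L ⧸ M) (((⟨b, hb⟩ : L) : L) : L ⧸ M)
        rw [commutatorElement_def, QuotientGroup.mk_mul, QuotientGroup.mk_mul,
          QuotientGroup.mk_mul, QuotientGroup.mk_inv, QuotientGroup.mk_inv, h1]
        group
      · rfl
    · refine ⟨(⟨a, ha⟩ : L) ^ p, ?_, rfl⟩
      refine (QuotientGroup.eq_one_iff _).mp ?_
      rw [QuotientGroup.mk_pow]
      exact hpow _
  have hDM' : D ≤ M.map L.subtype := by
    intro x hx
    exact ⟨⟨x, hDL hx⟩, hDM (Subgroup.mem_subgroupOf.mpr hx), rfl⟩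
  apply hM.1
  rw [eq_top_iff]
  rintro ⟨x, hx⟩ -
  obtain ⟨y, hy, hyx⟩ := (h.trans (sup_le hDM' hPC)) hx
  have : y = ⟨x, hx⟩ := Subtype.ext hyx
  rwa [this] at hy

end Pool.Agent.Helper252_Enum
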