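import Pool.Agent.Helper252_Enum.Defs

set_option autoImplicit false

open scoped commutatorElement

namespace Pool.Agent.Helper252_Enum

/-
PROOF OF THE TARGET.
A/N is an elementary abelian p-group (N is normal in A as all commutators of A lie in N). The image v of x in V = A/N,
seen as a vector space over ZMod p (Additive (A/N), AddCommGroup.zmodModule), is nonzero, so there is a linear
functional V -> ZMod p nonzero at v (e.g. Module.exists_dual_forall_apply_ne_zero / Submodule.exists_le_ker_of_notMem or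
Basis.extend). Compose with A -> A/N and extend by 0 outside A.
-/

namespace J_exists_hom

theorem aux0 (K Q : Type*) [Field K] [AddCommGroup Q] [Module K Q]
    (v : Q) (hv : v ≠ 0) : ∃ ψ : Q →+ K, ψ v ≠ 0 := by
  obtain ⟨ψ, hψ⟩ := Module.Projective.exists_dual_ne_zero K hv
  exact ⟨ψ.toAddMonoidHom, hψ⟩

theorem aux (Q : Type*) [AddCommGroup Q] (p : ℕ) [Fact p.Prime] (h : ∀ u : Q, p • u = 0)
    (v : Q) (hv : v ≠ 0) : ∃ ψ : Q →+ ZMod p, ψ v ≠ 0 := by
  let _ : Module (ZMod p) Q := AddCommGroup.zmodModule h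
  exact aux0 (ZMod p) Q v hv

end J_exists_hom

/-- TARGET -/
theorem exists_hom {G : Type*} [Group G] [Finite G] {p : ℕ} [Fact p.Prime]
    (A N : Subgroup G) (hN : N ≤ A) (hcomm : ∀ a ∈ A, ∀ b ∈ A, ⁅a, b⁆ ∈ N)
    (hpow : ∀ a ∈ A, a ^ p ∈ N) (x : G) (hx : x ∈ A) (hxN : x ∉ N) :
    ∃ φ : G → ZMod p, (∀ a ∈ A, ∀ b ∈ A, φ (a * b) = φ a + φ b) ∧ (∀ a ∈ N, φ a = 0) ∧
      (∀ a, a ∉ A → φ a = 0) ∧ φ x ≠ 0 := by
  classical
  have hnorm : (N.subgroupOf A).Normal := by
    constructor
    intro n hn g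
    rw [Subgroup.mem_subgroupOf] at hn ⊢
    have h1 : ((g * n * g⁻¹ : A) : G) = ⁅(g : G), (n : G)⁆ * (n : G) := by
      simp [commutatorElement_def]
    rw [h1]
    exact N.mul_mem (hcomm _ g.2 _ n.2) hn
  let _ : CommGroup (A ⧸ N.subgroupOf A) :=
    { (inferInstance : Group (A ⧸ N.subgroupOf A)) with
      mul_comm := by
        intro u v
        induction u using QuotientGroup.induction_on with
        | H a =>
          induction v using QuotientGroup.induction_on with
          | H b =>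
            rw [← QuotientGroup.mk_mul, ← QuotientGroup.mk_mul, QuotientGroup.eq,
              Subgroup.mem_subgroupOf]
            have h1 : (((a * b)⁻¹ * (b * a) : A) : G) = ⁅((b : G))⁻¹, ((a : G))⁻¹⁆ := by
              simp [commutatorElement_def, mul_assoc]
            rw [h1]
            exact hcomm _ (A.inv_mem b.2) _ (A.inv_mem a.2) }
  have hp : ∀ u : Additive (A ⧸ N.subgroupOf A), p • u = 0 := by
    intro u
    obtain ⟨u', rfl⟩ := Additive.ofMul.surjective u
    induction u' using QuotientGroup.induction_on with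
    | H a =>
      rw [← ofMul_pow, ← ofMul_one]
      congr 1
      rw [← QuotientGroup.mk_pow, QuotientGroup.eq_one_iff, Subgroup.mem_subgroupOf]
      exact hpow _ a.2
  have hv : (Additive.ofMul ((⟨x, hx⟩ : A) : A ⧸ N.subgroupOf A)) ≠ 0 := by
    intro h
    have h2 : ((⟨x, hx⟩ : A) : A ⧸ N.subgroupOf A) = 1 := by
      rw [← ofMul_one] at h
      exact Additive.ofMul.injective h
    rw [QuotientGroup.eq_one_iff, Subgroup.mem_subgroupOf] at h2
    exact hxN h2
  obtain ⟨ψ, hψ⟩ := J_exists_hom.aux (Additive (A ⧸ N.subgroupOf A)) p hp _ hv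
  refine ⟨fun g => if h : g ∈ A then ψ (Additive.ofMul ((⟨g, h⟩ : A) : A ⧸ N.subgroupOf A)) else 0,
    ?_, ?_, ?_, ?_⟩
  · intro a ha b hb
    simp only [ha, hb, A.mul_mem ha hb, dif_pos]
    rw [← map_add, ← ofMul_mul, ← QuotientGroup.mk_mul]
    rfl
  · intro a ha
    simp only [hN ha, dif_pos]
    have h2 : ((⟨a, hN ha⟩ : A) : A ⧸ N.subgroupOf A) = 1 := by
      rw [QuotientGroup.eq_one_iff, Subgroup.mem_subgroupOf]
      exact ha
    rw [h2, ofMul_one, map_zero]
  · intro a ha
    simp only [ha, dif_neg, not_false_eq_true]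
  · simp only [hx, dif_pos]
    exact hψ

end Pool.Agent.Helper252_Enum
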