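import Pool.Agent.Helper252_Enum.Q01_exists_deco2
import Pool.Agent.Helper252_Enum.Iso
import Pool.Agent.Helper252_Enum.N1_exists_code
import Pool.Agent.Helper252_Enum.N3_card_skel
import Pool.Agent.Helper252_Enum.Q02_num_final2
import Pool.Agent.Helper252_Enum.SkelInst

set_option autoImplicit false

open scoped commutatorElement

namespace Pool.Agent.Helper252_Enum

/-
PROOF OF THE TARGET.
Same assembly as main_upper (proved in M_main_upper.lean on origin/main; copy its proof). Take κ, D, C₃, n₀ from num_final2. For a family 𝒢 a of groups of order p^n with the hypothesis: apply exists_deco2 with κ and w := n / D to 𝒢 a. It gives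
m + r = n, |FrP| = p^r, |FrP| = p^R₁ |ZF|, and the three skeletons. The hypothesis for this r: 60 r < 19 n or 21 n < 60 r or p^C₃ |ZF| <= |FrP| = p^R₁ |ZF|, and in the last case C₃ <= R₁ (|ZF| > 0, p >= 2). So num_final2 gives a decoration with
nfree σ + 12 n^2 <= 2 n^3/27. The code set has at most (n+1) 2^(10 n^2) p^N elements with N = 2n^3/27 - 12 n^2, which is <= p^(2n^3/27 - n^2) since (n+1) 2^(10 n^2) <= p^(11 n^2) and 12 n^2 <= 2n^3/27. (J_main_upper.card_code_le in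
M_main_upper.lean gives the first count; copy it.)
-/

namespace J_E1

theorem card_code_le (p n N : ℕ) [Fact p.Prime] :
    Nat.card (Σ m : Fin (n + 1), Σ σ : {σ : Skel (m : ℕ) (n - m) // nfree σ ≤ N},
      ({i : Idx (m : ℕ) (n - m) // free σ.1 i} → Fin p)) ≤ (n + 1) * (2 ^ (10 * n ^ 2) * p ^ N) := by
  classical
  have hp : 1 ≤ p := (Fact.out : p.Prime).one_le
  rw [Nat.card_sigma]
  have h1 : ∀ m : Fin (n + 1), Nat.card (Σ σ : {σ : Skel (m : ℕ) (n - m) // nfree σ ≤ N},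
      ({i : Idx (m : ℕ) (n - m) // free σ.1 i} → Fin p)) ≤ 2 ^ (10 * n ^ 2) * p ^ N := by
    intro m
    have hfin : Finite {σ : Skel (m : ℕ) (n - m) // nfree σ ≤ N} := inferInstance
    have : Fintype {σ : Skel (m : ℕ) (n - m) // nfree σ ≤ N} := Fintype.ofFinite _
    rw [Nat.card_sigma]
    have h2 : ∀ σ : {σ : Skel (m : ℕ) (n - m) // nfree σ ≤ N},
        Nat.card ({i : Idx (m : ℕ) (n - m) // free σ.1 i} → Fin p) ≤ p ^ N := by
      intro σ
      rw [Nat.card_fun, Nat.card_fin]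
      exact Nat.pow_le_pow_right hp σ.2
    refine (Finset.sum_le_card_nsmul _ _ _ (fun σ _ => h2 σ)).trans ?_
    rw [smul_eq_mul]
    refine Nat.mul_le_mul_right _ ?_
    rw [Finset.card_univ, ← Nat.card_eq_fintype_card]
    have h3 : Nat.card {σ : Skel (m : ℕ) (n - m) // nfree σ ≤ N} ≤
        Nat.card (Skel (m : ℕ) (n - m)) :=
      Nat.card_le_card_of_injective Subtype.val Subtype.val_injective
    refine h3.trans ((card_skel_le _ _).trans ?_)
    have h4 : (m : ℕ) + (n - m) = n := by have := m.2; omega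
    rw [h4]
  refine (Finset.sum_le_card_nsmul _ _ _ (fun m _ => h1 m)).trans ?_
  rw [smul_eq_mul, Finset.card_univ, Fintype.card_fin]

end J_E1

/-- TARGET -/
theorem E1 : ∃ C₃ n₀ : ℕ, 3 ≤ C₃ ∧ ∀ (p : ℕ), p.Prime → ∀ n, n₀ ≤ n →
    ∀ (α : Type) (𝒢 : α → Type) [∀ a, Group (𝒢 a)], (∀ a, Nat.card (𝒢 a) = p ^ n) →
    (∀ a r, Nat.card (FrP p (𝒢 a)) = p ^ r → (60 * r < 19 * n ∨ 21 * n < 60 * r ∨
      p ^ C₃ * Nat.card (ZF p (𝒢 a)) ≤ Nat.card (FrP p (𝒢 a)))) →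
    Nat.card (Quot fun a b => Nonempty (𝒢 a ≃* 𝒢 b)) ≤ p ^ (2 * n ^ 3 / 27 - n ^ 2) := by
  classical
  obtain ⟨κ, D₀, C₃, n₀, hκ, _, hC₃, hnum⟩ := num_final2
  refine ⟨C₃, max n₀ 200, hC₃, ?_⟩
  intro p hp n hn α 𝒢 _ hG hyp
  haveI : Fact p.Prime := ⟨hp⟩
  have hn0 : n₀ ≤ n := le_trans (le_max_left _ _) hn
  have hn200 : 200 ≤ n := le_trans (le_max_right _ _) hn
  have hbig : 12 * n ^ 2 ≤ 2 * n ^ 3 / 27 := by
    rw [Nat.le_div_iff_mul_le (by norm_num)]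
    have e1 : 12 * n ^ 2 * 27 = 324 * n ^ 2 := by ring
    have e2 : 2 * n ^ 3 = (2 * n) * n ^ 2 := by ring
    rw [e1, e2]
    exact Nat.mul_le_mul_right _ (by omega)
  set N := 2 * n ^ 3 / 27 - 12 * n ^ 2 with hN
  have hex : ∀ a : α, ∃ (m : Fin (n + 1)) (σ : {σ : Skel (m : ℕ) (n - m) // nfree σ ≤ N}),
      Nonempty (Deco p (m : ℕ) (n - m) σ.1 (𝒢 a)) := by
    intro a
    obtain ⟨m, r, y₀, t₁, t₂, ρ, R₁, hmr, hF, hFZ, ht1, ht2, hy, hρ, hmin,
      ⟨σ₁, hD1, h11, h12, h13, h14⟩, ⟨σ₂, hD2, h21, h22, h23, h24, h25⟩,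
      ⟨σ₃, hD3, h31, h32, h33, h34⟩⟩ := exists_deco2 κ (n / D₀) n hκ (𝒢 a) (hG a)
    have hor : 60 * r < 19 * n ∨ 21 * n < 60 * r ∨ C₃ ≤ R₁ := by
      rcases hyp a r hF with h | h | h
      · exact Or.inl h
      · exact Or.inr (Or.inl h)
      · refine Or.inr (Or.inr ?_)
        rw [hFZ] at h
        have hfin : Finite (𝒢 a) := by
          refine Nat.finite_of_card_ne_zero ?_
          rw [hG a]
          exact pow_ne_zero _ hp.ne_zero
        have hz : 0 < Nat.card (ZF p (𝒢 a)) := Nat.card_pos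
        have h' := Nat.le_of_mul_le_mul_right h hz
        exact (Nat.pow_le_pow_iff_right hp.one_lt).1 h'
    have hfin := hnum n m r y₀ t₁ t₂ ρ R₁ hn0 hmr ht1 ht2 hy hρ hmin hor σ₁ σ₂ σ₃
      ⟨h11, h12, h13, h14⟩ ⟨h21, h22, h23, h24, h25⟩ ⟨h31, h32, h33, h34⟩
    have hm : m < n + 1 := by omega
    obtain rfl : r = n - m := by omega
    rcases hfin with h | h | h
    · exact ⟨⟨m, hm⟩, ⟨σ₁, by show nfree σ₁ ≤ N; omega⟩, hD1⟩
    · exact ⟨⟨m, hm⟩, ⟨σ₂, by show nfree σ₂ ≤ N; omega⟩, hD2⟩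
    · exact ⟨⟨m, hm⟩, ⟨σ₃, by show nfree σ₃ ≤ N; omega⟩, hD3⟩
  choose M S D using hex
  have hcode : ∀ (m r : ℕ) (σ : Skel m r),
      ∃ code : ∀ (G : Type) [Group G], Deco p m r σ G → ({i : Idx m r // free σ i} → Fin p),
      ∀ (G G' : Type) [Group G] [Group G'] (D : Deco p m r σ G) (D' : Deco p m r σ G'),
        code G D = code G' D' → SameDigits D D' := fun m r σ => exists_code σ
  choose code hcode using hcode
  let Code : Type := Σ m : Fin (n + 1), Σ σ : {σ : Skel (m : ℕ) (n - m) // nfree σ ≤ N},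
      ({i : Idx (m : ℕ) (n - m) // free σ.1 i} → Fin p)
  let F : α → Code := fun a => ⟨M a, S a, code _ _ (S a).1 (𝒢 a) (D a).some⟩
  let P : Code → (G : Type) → [Group G] → Prop := fun c G _ =>
    ∃ D : Deco p (c.1 : ℕ) (n - c.1) c.2.1.1 G, code _ _ c.2.1.1 G D = c.2.2
  have hP : ∀ a, P (F a) (𝒢 a) := fun a => ⟨(D a).some, rfl⟩
  have hiso : ∀ a b, F a = F b → Nonempty (𝒢 a ≃* 𝒢 b) := by
    intro a b hab
    have ha := hP a
    have hb := hP b
    rw [hab] at ha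
    obtain ⟨D1, hD1⟩ := ha
    obtain ⟨D2, hD2⟩ := hb
    exact iso_of_sameDigits D1 D2 (hcode _ _ _ _ _ D1 D2 (hD1.trans hD2.symm))
  have hinj : Function.Injective (fun q : Quot (fun a b => Nonempty (𝒢 a ≃* 𝒢 b)) =>
      F (Quot.out q)) := by
    intro q q' h
    have h1 := hiso _ _ h
    have h2 : Quot.mk (fun a b => Nonempty (𝒢 a ≃* 𝒢 b)) (Quot.out q) =
        Quot.mk (fun a b => Nonempty (𝒢 a ≃* 𝒢 b)) (Quot.out q') := Quot.sound h1
    rwa [Quot.out_eq, Quot.out_eq] at h2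
  have hfinite : Finite Code := by
    have h1 : ∀ m : Fin (n + 1), Finite (Σ σ : {σ : Skel (m : ℕ) (n - m) // nfree σ ≤ N},
      ({i : Idx (m : ℕ) (n - m) // free σ.1 i} → Fin p)) := by
      intro m
      haveI : ∀ σ : {σ : Skel (m : ℕ) (n - m) // nfree σ ≤ N},
        Finite ({i : Idx (m : ℕ) (n - m) // free σ.1 i} → Fin p) := fun σ => inferInstance
      infer_instance
    infer_instance
  have h1 := Nat.card_le_card_of_injective _ hinj
  refine h1.trans ((J_E1.card_code_le p n N).trans ?_)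
  have h2 : n + 1 ≤ 2 ^ (n ^ 2) := by
    have h3 : n < 2 ^ n := Nat.lt_two_pow_self
    have h4 : 2 ^ n ≤ 2 ^ (n ^ 2) := Nat.pow_le_pow_right (by norm_num) (by nlinarith)
    omega
  have h5 : (n + 1) * 2 ^ (10 * n ^ 2) ≤ p ^ (11 * n ^ 2) := by
    calc (n + 1) * 2 ^ (10 * n ^ 2) ≤ 2 ^ (n ^ 2) * 2 ^ (10 * n ^ 2) :=
          Nat.mul_le_mul_right _ h2
      _ = 2 ^ (11 * n ^ 2) := by rw [← pow_add]; congr 1; ring
      _ ≤ p ^ (11 * n ^ 2) := Nat.pow_le_pow_left hp.two_le _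
  have h6 : 11 * n ^ 2 + N = 2 * n ^ 3 / 27 - n ^ 2 := by omega
  calc (n + 1) * (2 ^ (10 * n ^ 2) * p ^ N) = ((n + 1) * 2 ^ (10 * n ^ 2)) * p ^ N := by ring
    _ ≤ p ^ (11 * n ^ 2) * p ^ N := Nat.mul_le_mul_right _ h5
    _ = p ^ (2 * n ^ 3 / 27 - n ^ 2) := by rw [← pow_add, h6]

end Pool.Agent.Helper252_Enum
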