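import Pool.Agent.Helper252_Enum.P5_card_closure

set_option autoImplicit false

open scoped commutatorElement

namespace Pool.Agent.Helper252_Enum

/-
PROOF OF THE TARGET.
This is lemmaF (proved in F_lemmaF.lean on origin/main; copy and adapt, the inductive choice there takes for k in Ks some element of K in N (k+1) \ N k) with the choice prescribed: f k = dd k for k in Ks. Nothing else changes.
-/

namespace J_lemmaFp

section

variable {G : Type*} [Group G] {p r : ℕ} {N : ℕ → Subgroup G}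

theorem mono' (hN : Series p r N) {i j : ℕ} (hij : i ≤ j) (hj : j ≤ r) : N i ≤ N j := by
  induction j, hij using Nat.le_induction with
  | base => exact le_rfl
  | succ j hij ih => exact (ih (by omega)).trans (hN.mono j (by omega))

theorem zero_bot (hN : Series p r N) : N 0 = ⊥ := by
  have h := hN.card 0 (Nat.zero_le r)
  rw [pow_zero] at h
  exact Subgroup.card_eq_one.1 h

theorem comm_mem (hN : Series p r N) {k : ℕ} (hk : k ≤ r) {h : G} (hh : h ∈ N k) (g : G) :
    ⁅h, g⁆ ∈ N k := by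
  rcases Nat.eq_zero_or_pos k with h0 | h0
  · subst h0
    rw [zero_bot hN, Subgroup.mem_bot] at hh ⊢
    subst hh
    simp
  · obtain ⟨l, rfl⟩ : ∃ l, k = l + 1 := ⟨k - 1, by omega⟩
    exact hN.mono l (by omega) (hN.central l (by omega) h hh g)

theorem conj_mem (hN : Series p r N) {k : ℕ} (hk : k ≤ r) {h : G} (hh : h ∈ N k) (g : G) :
    g * h * g⁻¹ ∈ N k := by
  have h1 := comm_mem hN hk ((N k).inv_mem hh) g
  have h2 : g * h * g⁻¹ = h * ⁅h⁻¹, g⁆ := by
    rw [commutatorElement_def]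
    group
  rw [h2]
  exact (N k).mul_mem hh h1

theorem normal (hN : Series p r N) {k : ℕ} (hk : k ≤ r) : (N k).Normal :=
  ⟨fun _ hh g => conj_mem hN hk hh g⟩

theorem card_quot [Finite G] [Fact p.Prime] (hN : Series p r N) {l : ℕ} (hl : l < r) :
    Nat.card (N (l + 1) ⧸ (N l).subgroupOf (N (l + 1))) = p := by
  have hp : 0 < p := (Fact.out : p.Prime).pos
  have h1 := Subgroup.card_mul_index ((N l).subgroupOf (N (l + 1)))
  have h2 : Nat.card ((N l).subgroupOf (N (l + 1))) = Nat.card (N l) :=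
    Nat.card_congr (Subgroup.subgroupOfEquivOfLe (hN.mono l hl)).toEquiv
  rw [h2, hN.card l hl.le, hN.card (l + 1) hl, pow_succ] at h1
  exact Nat.eq_of_mul_eq_mul_left (pow_pos hp l) h1

theorem div_lem [Finite G] [Fact p.Prime] (hN : Series p r N) {l : ℕ} (hl : l < r) {f h : G}
    (hf : f ∈ N (l + 1)) (hf' : f ∉ N l) (hh : h ∈ N (l + 1)) :
    ∃ e < p, ∃ h' ∈ N l, h = f ^ e * h' := by
  have hp : 0 < p := (Fact.out : p.Prime).pos
  have hnorm : (N l).Normal := normal hN hl.le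
  have hc := card_quot hN hl
  have h1 : ((⟨f, hf⟩ : N (l + 1)) : N (l + 1) ⧸ (N l).subgroupOf (N (l + 1))) ≠ 1 := by
    intro h0
    rw [QuotientGroup.eq_one_iff, Subgroup.mem_subgroupOf] at h0
    exact hf' h0
  have h2 := mem_powers_of_prime_card (g' := ((⟨h, hh⟩ : N (l + 1)) :
    N (l + 1) ⧸ (N l).subgroupOf (N (l + 1)))) hc h1
  obtain ⟨n, hn⟩ := h2
  have h3 : ((⟨f, hf⟩ : N (l + 1)) : N (l + 1) ⧸ (N l).subgroupOf (N (l + 1))) ^ p = 1 := by
    rw [← hc]
    exact pow_card_eq_one'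
  refine ⟨n % p, Nat.mod_lt _ hp, (f ^ (n % p))⁻¹ * h, ?_, by group⟩
  have h4 : ((⟨f, hf⟩ : N (l + 1)) : N (l + 1) ⧸ (N l).subgroupOf (N (l + 1))) ^ (n % p) =
      ((⟨h, hh⟩ : N (l + 1)) : N (l + 1) ⧸ (N l).subgroupOf (N (l + 1))) := by
    rw [← hn]
    simp only
    rw [← Nat.mod_add_div n p, pow_add, pow_mul, h3, one_pow, mul_one, Nat.mod_add_div]
  rw [← QuotientGroup.mk_pow, QuotientGroup.eq, Subgroup.mem_subgroupOf] at h4
  exact h4

theorem pow_mem [Finite G] [Fact p.Prime] (hN : Series p r N) {l : ℕ} (hl : l < r) {h : G}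
    (hh : h ∈ N (l + 1)) : h ^ p ∈ N l := by
  have hnorm : (N l).Normal := normal hN hl.le
  have hc := card_quot hN hl
  have h3 : ((⟨h, hh⟩ : N (l + 1)) : N (l + 1) ⧸ (N l).subgroupOf (N (l + 1))) ^ p = 1 := by
    rw [← hc]
    exact pow_card_eq_one'
  rw [← QuotientGroup.mk_pow, QuotientGroup.eq_one_iff, Subgroup.mem_subgroupOf] at h3
  exact h3

theorem nf_zero (f : ℕ → G) (a : ℕ → ℕ) (k : ℕ) (h : ∀ i, i < k → a i = 0) : nf f a k = 1 := by
  induction k with
  | zero => rfl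
  | succ k ih =>
    rw [nf, h k (by omega), pow_zero, one_mul]
    exact ih fun i hi => h i (by omega)

theorem nf_congr (f f' : ℕ → G) (a a' : ℕ → ℕ) (k : ℕ)
    (h : ∀ i, i < k → a i = a' i ∧ (a i ≠ 0 → f i = f' i)) : nf f a k = nf f' a' k := by
  induction k with
  | zero => rfl
  | succ k ih =>
    rw [nf, nf, ih fun i hi => h i (by omega)]
    congr 1
    obtain ⟨h1, h2⟩ := h k (by omega)
    rw [← h1]
    by_cases h0 : a k = 0
    · rw [h0, pow_zero, pow_zero]
    · rw [h2 h0]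

theorem nf_stop (f : ℕ → G) (a : ℕ → ℕ) {j k : ℕ} (hjk : j ≤ k) (h : ∀ i, j ≤ i → a i = 0) :
    nf f a k = nf f a j := by
  induction k, hjk using Nat.le_induction with
  | base => rfl
  | succ k hk ih => rw [nf, h k hk, pow_zero, one_mul, ih]

theorem nf_update (f : ℕ → G) (a : ℕ → ℕ) (k : ℕ) (g : G) (ha : ∀ i, i ≤ k → a i = 0) {j : ℕ}
    (hj : k + 1 ≤ j) :
    nf (Function.update f k g) (Function.update a k 1) j = nf f a j * g := by
  induction j, hj using Nat.le_induction with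
  | base =>
    rw [nf, Function.update_self, Function.update_self, pow_one,
      nf_zero _ _ k fun i hi => by rw [Function.update_of_ne (by omega)]; exact ha i hi.le,
      mul_one, nf_zero f a (k + 1) fun i hi => ha i (by omega), one_mul]
  | succ j hj ih =>
    rw [nf, ih, nf, Function.update_of_ne (by omega), Function.update_of_ne (by omega), mul_assoc]

/-- every element has a normal form modulo `N (k + 1)` -/
theorem decomp [Finite G] [Fact p.Prime] (hN : Series p r N) (f : ℕ → G) (k : ℕ)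
    (hf : ∀ l, k < l → l < r → f l ∈ N (l + 1) ∧ f l ∉ N l) {j : ℕ} (hj : k + 1 ≤ j)
    (hjr : j ≤ r) : ∀ h ∈ N j, ∃ e : ℕ → ℕ, (∀ i, e i < p) ∧ (∀ i, i ≤ k → e i = 0) ∧
      (∀ i, j ≤ i → e i = 0) ∧ ∃ h' ∈ N (k + 1), h = nf f e j * h' := by
  have hp : 0 < p := (Fact.out : p.Prime).pos
  induction j, hj using Nat.le_induction with
  | base =>
    intro h hh
    refine ⟨fun _ => 0, fun _ => hp, fun _ _ => rfl, fun _ _ => rfl, h, hh, ?_⟩
    rw [nf_zero _ _ _ fun _ _ => rfl, one_mul]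
  | succ j hj ih =>
    intro h hh
    obtain ⟨hf1, hf2⟩ := hf j (by omega) (by omega)
    obtain ⟨c, hc, h1, hh1, hhe⟩ := div_lem hN (by omega) hf1 hf2 hh
    obtain ⟨e, he1, he2, he3, h', hh', he4⟩ := ih (by omega) h1 hh1
    refine ⟨Function.update e j c, ?_, ?_, ?_, h', hh', ?_⟩
    · intro i
      by_cases hi : i = j
      · subst hi
        rw [Function.update_self]
        exact hc
      · rw [Function.update_of_ne hi]
        exact he1 i
    · intro i hi
      rw [Function.update_of_ne (by omega)]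
      exact he2 i hi
    · intro i hi
      rw [Function.update_of_ne (by omega)]
      exact he3 i (by omega)
    · rw [nf, Function.update_self, hhe, he4, mul_assoc]
      congr 2
      refine nf_congr _ _ _ _ _ fun i hi => ⟨?_, fun _ => rfl⟩
      rw [Function.update_of_ne (by omega)]

/-- the subgroup generated by `N k` and the `f l`, `k < l < j` -/
def MM (f : ℕ → G) (N : ℕ → Subgroup G) (k j : ℕ) : Subgroup G :=
  Subgroup.closure (f '' {l | k < l ∧ l < j}) ⊔ N k

theorem f_mem_MM (f : ℕ → G) (N : ℕ → Subgroup G) {k j l : ℕ} (h1 : k < l) (h2 : l < j) :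
    f l ∈ MM f N k j :=
  (le_sup_left : _ ≤ MM f N k j) (Subgroup.subset_closure ⟨l, ⟨h1, h2⟩, rfl⟩)

theorem N_le_MM (f : ℕ → G) (N : ℕ → Subgroup G) (k j : ℕ) : N k ≤ MM f N k j := le_sup_right

theorem MM_mono (f : ℕ → G) (N : ℕ → Subgroup G) (k : ℕ) {i j : ℕ} (hij : i ≤ j) :
    MM f N k i ≤ MM f N k j := by
  refine sup_le_sup_right (Subgroup.closure_mono (Set.image_mono ?_)) _
  rintro l ⟨h1, h2⟩
  exact ⟨h1, by omega⟩

theorem nf_mem_MM (f : ℕ → G) (N : ℕ → Subgroup G) (k j : ℕ) (e : ℕ → ℕ)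
    (he : ∀ i, i ≤ k → e i = 0) : nf f e j ∈ MM f N k j := by
  induction j with
  | zero => exact Subgroup.one_mem _
  | succ j ih =>
    rw [nf]
    refine Subgroup.mul_mem _ ?_ (MM_mono f N k (Nat.le_succ j) ih)
    rcases le_or_gt j k with h | h
    · rw [he j h, pow_zero]
      exact Subgroup.one_mem _
    · exact Subgroup.pow_mem _ (f_mem_MM f N h (Nat.lt_succ_self j)) _

theorem conj_MM (hN : Series p r N) (f : ℕ → G) {k : ℕ} (hk : k ≤ r) (j : ℕ) (g : G)
    (hg : ∀ l, k < l → l < j → g * f l * g⁻¹ ∈ MM f N k j) :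
    ∀ h ∈ MM f N k j, g * h * g⁻¹ ∈ MM f N k j := by
  have h1 : MM f N k j ≤ (MM f N k j).comap (MulAut.conj g).toMonoidHom := by
    refine sup_le ?_ ?_
    · rw [Subgroup.closure_le]
      rintro _ ⟨l, ⟨hl1, hl2⟩, rfl⟩
      exact hg l hl1 hl2
    · intro h hh
      exact N_le_MM f N k j (conj_mem hN hk hh g)
  intro h hh
  exact h1 hh

end

section

variable {G : Type*} [Group G] [Finite G] {p : ℕ} [Fact p.Prime] {m r : ℕ}
    {N : ℕ → Subgroup G} {x : Fin m → G} {f : ℕ → G} {S : Finset (Fin m)}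

/-- no candidate gives a new element -/
def Bad (p : ℕ) {m r : ℕ} (N : ℕ → Subgroup G) (x : Fin m → G) (f : ℕ → G)
    (S : Finset (Fin m)) (k : Fin r) : Prop :=
  ∀ t : (Fin m ⊕ Fin r) × Option (Fin m ⊕ Fin r),
    (okSym S k t.1 ∧ ∀ b, t.2 = some b → okSym S k b) → ∀ e : ℕ → ℕ, (∀ i, e i < p) →
      (∀ i, i ≤ (k : ℕ) → e i = 0) → ∀ h' ∈ N (k + 1), cand p x f t = nf f e r * h' → h' ∈ N k

theorem cand_mem (hN : Series p r N) {k : Fin r} (hb : Bad p N x f S k)
    (hf : ∀ l, (k : ℕ) < l → l < r → f l ∈ N (l + 1) ∧ f l ∉ N l)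
    (t : (Fin m ⊕ Fin r) × Option (Fin m ⊕ Fin r))
    (ht : okSym S k t.1 ∧ ∀ b, t.2 = some b → okSym S k b) {j : ℕ} (hj : (k : ℕ) < j)
    (hjr : j ≤ r) (hm : cand p x f t ∈ N j) : cand p x f t ∈ MM f N k j := by
  obtain ⟨e, he1, he2, he3, h', hh', he4⟩ := decomp hN f k hf hj hjr _ hm
  have h1 : h' ∈ N k := by
    refine hb t ht e he1 he2 h' hh' ?_
    rw [he4, nf_stop f e hjr he3]
  rw [he4]
  exact Subgroup.mul_mem _ (nf_mem_MM f N k j e he2) (N_le_MM f N k j h1)

/-- conjugation by the `x i` preserves `MM` -/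
theorem conj_x (hN : Series p r N) {k : Fin r} (hb : Bad p N x f S k)
    (hf : ∀ l, (k : ℕ) < l → l < r → f l ∈ N (l + 1) ∧ f l ∉ N l) {j : ℕ} (hjr : j ≤ r)
    {i : Fin m} (hi : i ∈ S) : ∀ h ∈ MM f N k j, x i * h * (x i)⁻¹ ∈ MM f N k j := by
  refine conj_MM hN f k.2.le j _ fun l hl1 hl2 => ?_
  have hlr : l < r := by omega
  have h1 : ⁅f l, x i⁆ ∈ N l := hN.central l hlr _ (hf l hl1 hlr).1 _
  have h2 := cand_mem hN hb hf (Sum.inr ⟨l, hlr⟩, some (Sum.inl i)) ⟨by
    show k < (⟨l, hlr⟩ : Fin r)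
    exact hl1, by
    rintro b hb
    cases hb
    exact hi⟩ hl1 hlr.le h1
  have h3 : x i * f l * (x i)⁻¹ = ⁅f l, x i⁆⁻¹ * f l := by
    rw [commutatorElement_def]
    group
  rw [h3]
  exact Subgroup.mul_mem _ (Subgroup.inv_mem _ (MM_mono f N k hl2.le h2)) (f_mem_MM f N hl1 hl2)

/-- conjugation by `f j` preserves `MM` -/
theorem conj_f (hN : Series p r N) {k : Fin r} (hb : Bad p N x f S k)
    (hf : ∀ l, (k : ℕ) < l → l < r → f l ∈ N (l + 1) ∧ f l ∉ N l) {j : ℕ} (hkj : (k : ℕ) < j)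
    (hjr : j < r) : ∀ h ∈ MM f N k j, f j * h * (f j)⁻¹ ∈ MM f N k j := by
  refine conj_MM hN f k.2.le j _ fun l hl1 hl2 => ?_
  have hlr : l < r := by omega
  have h1 : ⁅f l, f j⁆ ∈ N l := hN.central l hlr _ (hf l hl1 hlr).1 _
  have h2 := cand_mem hN hb hf (Sum.inr ⟨l, hlr⟩, some (Sum.inr ⟨j, hjr⟩)) ⟨by
    show k < (⟨l, hlr⟩ : Fin r)
    exact hl1, by
    rintro b hb
    cases hb
    show k < (⟨j, hjr⟩ : Fin r)
    exact hkj⟩ hl1 hlr.le h1
  have h3 : f j * f l * (f j)⁻¹ = ⁅f l, f j⁆⁻¹ * f l := by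
    rw [commutatorElement_def]
    group
  rw [h3]
  exact Subgroup.mul_mem _ (Subgroup.inv_mem _ (MM_mono f N k hl2.le h2)) (f_mem_MM f N hl1 hl2)

theorem pow_f (hN : Series p r N) {k : Fin r} (hb : Bad p N x f S k)
    (hf : ∀ l, (k : ℕ) < l → l < r → f l ∈ N (l + 1) ∧ f l ∉ N l) {j : ℕ} (hkj : (k : ℕ) < j)
    (hjr : j < r) : f j ^ p ∈ MM f N k j := by
  refine cand_mem hN hb hf (Sum.inr ⟨j, hjr⟩, none) ⟨?_, ?_⟩ hkj hjr.le
    (pow_mem hN hjr (hf j hkj hjr).1)
  · show k < (⟨j, hjr⟩ : Fin r)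
    exact hkj
  · intro b hb
    cases hb

theorem MM_succ (f : ℕ → G) (N : ℕ → Subgroup G) {k j : ℕ} (hkj : k < j) :
    MM f N k (j + 1) = Subgroup.closure (f '' (({j} : Finset ℕ) : Set ℕ)) ⊔ MM f N k j := by
  unfold MM
  rw [← sup_assoc, ← Subgroup.closure_union, ← Set.image_union]
  congr 3
  ext l
  simp only [Set.mem_setOf_eq, Finset.coe_singleton, Set.mem_union, Set.mem_singleton_iff]
  omega

theorem card_MM (hN : Series p r N) {k : Fin r} (hb : Bad p N x f S k)
    (hf : ∀ l, (k : ℕ) < l → l < r → f l ∈ N (l + 1) ∧ f l ∉ N l) {j : ℕ} (hkj : (k : ℕ) + 1 ≤ j)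
    (hjr : j ≤ r) : Nat.card (MM f N k j) ≤ p ^ (j - 1) := by
  have hp : 0 < p := (Fact.out : p.Prime).pos
  induction j, hkj using Nat.le_induction with
  | base =>
    have h1 : MM f N k (k + 1) = N k := by
      unfold MM
      have : {l : ℕ | (k : ℕ) < l ∧ l < k + 1} = ∅ := by
        ext l
        simp only [Set.mem_setOf_eq, Set.mem_empty_iff_false, iff_false]
        omega
      rw [this, Set.image_empty, Subgroup.closure_empty, bot_sup_eq]
    rw [h1, hN.card k k.2.le, Nat.add_sub_cancel]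
  | succ j hj ih =>
    rw [MM_succ f N (by omega)]
    refine (card_closure_sup_le hp (MM f N k j) f {j} ?_ ?_ ?_).trans ?_
    · intro i hi
      rw [Finset.mem_singleton] at hi
      subst hi
      exact conj_f hN hb hf (by omega) (by omega)
    · intro i hi
      rw [Finset.mem_singleton] at hi
      subst hi
      exact pow_f hN hb hf (by omega) (by omega)
    · intro i hi i' hi'
      rw [Finset.mem_singleton] at hi hi'
      subst hi
      subst hi'
      rw [commutatorElement_self]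
      exact Subgroup.one_mem _
    · rw [Finset.card_singleton, pow_one]
      calc p * Nat.card (MM f N k j) ≤ p * p ^ (j - 1) := Nat.mul_le_mul_left _ (ih (by omega))
        _ = p ^ (j + 1 - 1) := by
          rw [← pow_succ']
          congr 1
          omega

/-- the subgroup `K` lies in `MM` -/
theorem K_le (hN : Series p r N) {k : Fin r}
    (hf : ∀ l, (k : ℕ) < l → l < r → f l ∈ N (l + 1) ∧ f l ∉ N l) (K : Subgroup G)
    (hK : K ≤ N r) (Ks : Finset (Fin r))
    (hKs : ∀ k : Fin r, k ∈ Ks ↔ ∃ d ∈ K, d ∈ N (k + 1) ∧ d ∉ N k) (hk : k ∉ Ks)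
    (hfK : ∀ l : Fin r, k < l → l ∈ Ks → f l ∈ K) : K ≤ MM f N k r := by
  have key : ∀ j, j ≤ r → ∀ d ∈ K, d ∈ N j → d ∈ MM f N k r := by
    intro j
    induction j with
    | zero =>
      intro _ d _ hd
      exact N_le_MM f N k r (mono' hN (Nat.zero_le _) k.2.le hd)
    | succ j ih =>
      intro hj d hdK hd
      by_cases hdj : d ∈ N j
      · exact ih (by omega) d hdK hdj
      · rcases lt_trichotomy j k with h | h | h
        · exact N_le_MM f N k r (mono' hN h k.2.le hd)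
        · exfalso
          subst h
          exact hk ((hKs k).2 ⟨d, hdK, hd, hdj⟩)
        · have hjr : j < r := hj
          have hjK : (⟨j, hjr⟩ : Fin r) ∈ Ks := (hKs ⟨j, hjr⟩).2 ⟨d, hdK, hd, hdj⟩
          have hfj : f j ∈ K := hfK ⟨j, hjr⟩ h hjK
          obtain ⟨hf1, hf2⟩ := hf j h hjr
          obtain ⟨e, he, d', hd', hde⟩ := div_lem hN hjr hf1 hf2 hd
          have hd'K : d' ∈ K := by
            have : d' = (f j ^ e)⁻¹ * d := by rw [hde]; group
            rw [this]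
            exact K.mul_mem (K.inv_mem (K.pow_mem hfj e)) hdK
          rw [hde]
          exact Subgroup.mul_mem _ (Subgroup.pow_mem _ (f_mem_MM f N h hjr) e)
            (ih (by omega) d' hd'K hd')
  intro d hd
  exact key r le_rfl d hd (hK hd)

/-- some candidate gives a new element -/
theorem not_bad (hN : Series p r N) (hcard : Nat.card G = p ^ (m + r))
    (hx : Subgroup.closure (Set.range x) ⊔ N r = ⊤)
    (hcomm : ∀ g h : G, ⁅g, h⁆ ∈ N r) (hpow : ∀ g : G, g ^ p ∈ N r)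
    (K : Subgroup G) (hK : K ≤ N r)
    (hS : N r ≤ Subgroup.closure (x '' (S : Set (Fin m))) ⊔ K)
    (Ks : Finset (Fin r)) (hKs : ∀ k : Fin r, k ∈ Ks ↔ ∃ d ∈ K, d ∈ N (k + 1) ∧ d ∉ N k)
    {k : Fin r} (hk : k ∉ Ks)
    (hf : ∀ l, (k : ℕ) < l → l < r → f l ∈ N (l + 1) ∧ f l ∉ N l)
    (hfK : ∀ l : Fin r, k < l → l ∈ Ks → f l ∈ K) : ¬ Bad p N x f S k := by
  classical
  intro hb
  have hp : 0 < p := (Fact.out : p.Prime).pos
  have hp1 : 1 < p := (Fact.out : p.Prime).one_lt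
  have hkr : (k : ℕ) < r := k.2
  have h1 : Nat.card (Subgroup.closure (x '' (S : Set (Fin m))) ⊔ MM f N k r : Subgroup G) ≤
      p ^ S.card * p ^ (r - 1) := by
    refine (card_closure_sup_le hp (MM f N k r) x S ?_ ?_ ?_).trans
      (Nat.mul_le_mul_left _ (card_MM hN hb hf hkr le_rfl))
    · intro i hi
      exact conj_x hN hb hf le_rfl hi
    · intro i hi
      exact cand_mem hN hb hf (Sum.inl i, none) ⟨hi, by intro b hb; cases hb⟩ hkr le_rfl (hpow _)
    · intro i hi j hj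
      exact cand_mem hN hb hf (Sum.inl i, some (Sum.inl j)) ⟨hi, by
        intro b hb
        cases hb
        exact hj⟩ hkr le_rfl (hcomm _ _)
  have h2 : (Subgroup.closure (x '' (S : Set (Fin m))) ⊔ N r : Subgroup G) ≤
      Subgroup.closure (x '' (S : Set (Fin m))) ⊔ MM f N k r := by
    refine sup_le le_sup_left (hS.trans (sup_le_sup_left (K_le hN hf K hK Ks hKs hk hfK) _))
  have h3 : Nat.card (Subgroup.closure (x '' (S : Set (Fin m))) ⊔ N r : Subgroup G) ≤
      p ^ S.card * p ^ (r - 1) :=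
    (Subgroup.card_le_of_le h2).trans h1
  have h4 : Nat.card (Subgroup.closure (x '' ((Sᶜ : Finset (Fin m)) : Set (Fin m))) ⊔
      (Subgroup.closure (x '' (S : Set (Fin m))) ⊔ N r) : Subgroup G) ≤
      p ^ (Sᶜ : Finset (Fin m)).card * Nat.card (Subgroup.closure (x '' (S : Set (Fin m))) ⊔ N r :
        Subgroup G) := by
    have hle : N r ≤ (Subgroup.closure (x '' (S : Set (Fin m))) ⊔ N r : Subgroup G) := le_sup_right
    refine card_closure_sup_le hp _ x Sᶜ ?_ ?_ ?_
    · intro i _ h hh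
      have e : x i * h * (x i)⁻¹ = ⁅x i, h⁆ * h := by
        rw [commutatorElement_def]
        group
      rw [e]
      exact Subgroup.mul_mem _ (hle (hcomm _ _)) hh
    · intro i _
      exact hle (hpow _)
    · intro i _ j _
      exact hle (hcomm _ _)
  have h5 : (Subgroup.closure (x '' ((Sᶜ : Finset (Fin m)) : Set (Fin m))) ⊔
      (Subgroup.closure (x '' (S : Set (Fin m))) ⊔ N r) : Subgroup G) = ⊤ := by
    rw [eq_top_iff, ← hx, ← sup_assoc, ← Subgroup.closure_union, ← Set.image_union]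
    refine sup_le_sup_right (Subgroup.closure_mono ?_) _
    rintro _ ⟨i, rfl⟩
    refine ⟨i, ?_, rfl⟩
    by_cases hi : i ∈ S
    · exact Or.inr hi
    · exact Or.inl (by simpa using hi)
  rw [h5, Subgroup.card_top, hcard, Finset.card_compl, Fintype.card_fin] at h4
  have h6 : p ^ (m + r) ≤ p ^ (m - S.card) * (p ^ S.card * p ^ (r - 1)) :=
    h4.trans (Nat.mul_le_mul_left _ h3)
  have hSm : S.card ≤ m := by
    have := Finset.card_le_univ S
    rwa [Fintype.card_fin] at this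
  rw [← pow_add, ← pow_add] at h6
  have h7 := (Nat.pow_le_pow_iff_right hp1).1 h6
  omega

theorem sym_congr {k : Fin r} (f f' : ℕ → G) (hff : ∀ l, (k : ℕ) < l → f l = f' l)
    (t : Fin m ⊕ Fin r) (ht : okSym S k t) : sym x f t = sym x f' t := by
  cases t with
  | inl i => rfl
  | inr l => exact hff l ht

theorem cand_congr {k : Fin r} (f f' : ℕ → G) (hff : ∀ l, (k : ℕ) < l → f l = f' l)
    (t : (Fin m ⊕ Fin r) × Option (Fin m ⊕ Fin r))
    (ht : okSym S k t.1 ∧ ∀ b, t.2 = some b → okSym S k b) : cand p x f t = cand p x f' t := by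
  obtain ⟨a, b⟩ := t
  cases b with
  | none =>
    show sym x f a ^ p = sym x f' a ^ p
    rw [sym_congr f f' hff a ht.1]
  | some b =>
    show ⁅sym x f a, sym x f b⁆ = ⁅sym x f' a, sym x f' b⁆
    rw [sym_congr f f' hff a ht.1, sym_congr f f' hff b (ht.2 b rfl)]

/-- the conditions at the level `k` -/
def Cond (p : ℕ) {m r : ℕ} (N : ℕ → Subgroup G) (x : Fin m → G) (S : Finset (Fin m))
    (dd : Fin r → G) (Ks : Finset (Fin r)) (f : ℕ → G)
    (τ : Fin r → (Fin m ⊕ Fin r) × Option (Fin m ⊕ Fin r)) (k : Fin r) : Prop :=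
  f k ∈ N (k + 1) ∧ f k ∉ N k ∧ (k ∈ Ks → f k = dd k) ∧
    (k ∉ Ks → (okSym S k (τ k).1 ∧ ∀ b, (τ k).2 = some b → okSym S k b) ∧
      ∃ a : ℕ → ℕ, (∀ j, a j < p) ∧ a k = 1 ∧ (∀ j, j < (k : ℕ) → a j = 0) ∧
        cand p x f (τ k) = nf f a r)

theorem Cond.congr {dd : Fin r → G} {Ks : Finset (Fin r)} {f f' : ℕ → G}
    {τ τ' : Fin r → (Fin m ⊕ Fin r) × Option (Fin m ⊕ Fin r)} {k : Fin r}
    (h : Cond p N x S dd Ks f τ k) (hff : ∀ l, (k : ℕ) ≤ l → f l = f' l) (hτ : τ k = τ' k) :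
    Cond p N x S dd Ks f' τ' k := by
  obtain ⟨h1, h2, h3, h4⟩ := h
  rw [hff k le_rfl] at h1 h2 h3
  refine ⟨h1, h2, h3, fun hk => ?_⟩
  obtain ⟨h5, a, ha1, ha2, ha3, ha4⟩ := h4 hk
  rw [hτ] at h5 ha4
  refine ⟨h5, a, ha1, ha2, ha3, ?_⟩
  rw [← cand_congr f f' (fun l hl => hff l hl.le) (τ' k) h5, ha4]
  refine nf_congr _ _ _ _ _ fun i _ => ⟨rfl, fun hi => hff i ?_⟩
  by_contra hlt
  exact hi (ha3 i (by omega))

theorem construct (hN : Series p r N) (hcard : Nat.card G = p ^ (m + r))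
    (hx : Subgroup.closure (Set.range x) ⊔ N r = ⊤)
    (hcomm : ∀ g h : G, ⁅g, h⁆ ∈ N r) (hpow : ∀ g : G, g ^ p ∈ N r)
    (K : Subgroup G) (hK : K ≤ N r)
    (hS : N r ≤ Subgroup.closure (x '' (S : Set (Fin m))) ⊔ K)
    (Ks : Finset (Fin r)) (hKs : ∀ k : Fin r, k ∈ Ks ↔ ∃ d ∈ K, d ∈ N (k + 1) ∧ d ∉ N k)
    (dd : Fin r → G) (hdd : ∀ k ∈ Ks, dd k ∈ K ∧ dd k ∈ N (k + 1) ∧ dd k ∉ N k) :
    ∀ n, n ≤ r → ∃ (f : ℕ → G) (τ : Fin r → (Fin m ⊕ Fin r) × Option (Fin m ⊕ Fin r)),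
      ∀ k : Fin r, r ≤ (k : ℕ) + n → Cond p N x S dd Ks f τ k := by
  classical
  have hp : 0 < p := (Fact.out : p.Prime).pos
  have hp1 : 1 < p := (Fact.out : p.Prime).one_lt
  intro n
  induction n with
  | zero =>
    intro _
    rcases Nat.eq_zero_or_pos r with h0 | h0
    · subst h0
      exact ⟨fun _ => 1, fun k => k.elim0, fun k => k.elim0⟩
    · exact ⟨fun _ => 1, fun _ => (Sum.inr ⟨0, h0⟩, none), fun k hk => absurd k.2 (by omega)⟩
  | succ n ih =>
    intro hn
    obtain ⟨f, τ, hfτ⟩ := ih (by omega)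
    have hlt : r - (n + 1) < r := by omega
    let k : Fin r := ⟨r - (n + 1), hlt⟩
    have hkv : (k : ℕ) = r - (n + 1) := rfl
    have hf : ∀ l, (k : ℕ) < l → l < r → f l ∈ N (l + 1) ∧ f l ∉ N l := by
      intro l hl1 hl2
      have := hfτ ⟨l, hl2⟩ (by simp only; omega)
      exact ⟨this.1, this.2.1⟩
    have hfK : ∀ l : Fin r, k < l → l ∈ Ks → f l ∈ K := by
      intro l hl hlK
      have h1 : (k : ℕ) < l := hl
      rw [(hfτ l (by omega)).2.2.1 hlK]
      exact (hdd l hlK).1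
    by_cases hk : k ∈ Ks
    · obtain ⟨hdK, hd1, hd2⟩ := hdd k hk
      refine ⟨Function.update f k (dd k), τ, fun l hl => ?_⟩
      by_cases hlk : l = k
      · subst hlk
        refine ⟨?_, ?_, ?_, fun h => absurd hk h⟩
        · rw [Function.update_self]; exact hd1
        · rw [Function.update_self]; exact hd2
        · intro _
          rw [Function.update_self]
      · have hlk' : (l : ℕ) ≠ k := fun h => hlk (Fin.ext h)
        refine (hfτ l (by omega)).congr (fun i hi => ?_) rfl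
        rw [Function.update_of_ne]
        omega
    · have hnb := not_bad hN hcard hx hcomm hpow K hK hS Ks hKs hk hf hfK
      unfold Bad at hnb
      push Not at hnb
      obtain ⟨t, ht, e, he1, he2, h', hh', he3, hh''⟩ := hnb
      refine ⟨Function.update f k h', Function.update τ k t, fun l hl => ?_⟩
      by_cases hlk : l = k
      · subst hlk
        refine ⟨?_, ?_, fun h => absurd h hk, fun _ => ⟨?_, Function.update e k 1, ?_, ?_, ?_, ?_⟩⟩
        · rw [Function.update_self]; exact hh'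
        · rw [Function.update_self]; exact hh''
        · rw [Function.update_self]; exact ht
        · intro j
          by_cases hj : j = k
          · subst hj
            rw [Function.update_self]; exact hp1
          · rw [Function.update_of_ne hj]; exact he1 j
        · rw [Function.update_self]
        · intro j hj
          rw [Function.update_of_ne (by omega)]
          exact he2 j hj.le
        · rw [Function.update_self, nf_update f e k h' he2 (by omega), ← he3]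
          refine cand_congr _ _ (fun l hl => ?_) t ht
          rw [Function.update_of_ne (by omega)]
      · have hlk' : (l : ℕ) ≠ k := fun h => hlk (Fin.ext h)
        refine (hfτ l (by omega)).congr (fun i hi => ?_) ?_
        · rw [Function.update_of_ne]
          omega
        · rw [Function.update_of_ne hlk]

theorem Sp_eq (hN : Series p r N) (hf : ∀ l, l < r → f l ∈ N (l + 1) ∧ f l ∉ N l) :
    ∀ k, k ≤ r → Sp f k = N k := by
  intro k
  induction k with
  | zero =>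
    intro _
    rw [zero_bot hN]
    unfold Sp
    have : Set.Iio (0 : ℕ) = ∅ := by
      ext i
      simp
    rw [this, Set.image_empty, Subgroup.closure_empty]
  | succ k ih =>
    intro hk
    have ihk := ih (by omega)
    obtain ⟨hf1, hf2⟩ := hf k hk
    have h1 : N k ≤ Sp f (k + 1) := by
      rw [← ihk]
      exact Subgroup.closure_mono (Set.image_mono (Set.Iio_subset_Iio (Nat.le_succ k)))
    have h2 : f k ∈ Sp f (k + 1) :=
      Subgroup.subset_closure ⟨k, Nat.lt_succ_self k, rfl⟩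
    apply le_antisymm
    · unfold Sp
      rw [Subgroup.closure_le]
      rintro _ ⟨l, hl, rfl⟩
      have hl' : l < k + 1 := hl
      exact mono' hN hl' hk (hf l (by omega)).1
    · intro h hh
      obtain ⟨e, _, h', hh', he⟩ := div_lem hN hk hf1 hf2 hh
      rw [he]
      exact Subgroup.mul_mem _ (Subgroup.pow_mem _ h2 e) (h1 hh')

end

end J_lemmaFp

/-- TARGET -/
theorem lemmaF' {G : Type*} [Group G] [Finite G] {p : ℕ} [Fact p.Prime] (m r : ℕ)
    (N : ℕ → Subgroup G) (hN : Series p r N) (x : Fin m → G) (hcard : Nat.card G = p ^ (m + r))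
    (hx : Subgroup.closure (Set.range x) ⊔ N r = ⊤)
    (hcomm : ∀ g h : G, ⁅g, h⁆ ∈ N r) (hpow : ∀ g : G, g ^ p ∈ N r)
    (S : Finset (Fin m)) (K : Subgroup G) (hK : K ≤ N r)
    (hS : N r ≤ Subgroup.closure (x '' (S : Set (Fin m))) ⊔ K)
    (Ks : Finset (Fin r)) (hKs : ∀ k : Fin r, k ∈ Ks ↔ ∃ d ∈ K, d ∈ N (k + 1) ∧ d ∉ N k)
    (dd : Fin r → G) (hdd : ∀ k ∈ Ks, dd k ∈ K ∧ dd k ∈ N (k + 1) ∧ dd k ∉ N k) :
    ∃ (f : ℕ → G) (τ : Fin r → (Fin m ⊕ Fin r) × Option (Fin m ⊕ Fin r)),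
      Chain p r f ∧ (∀ k ≤ r, Sp f k = N k) ∧ (∀ k ∈ Ks, f k = dd k) ∧
      (∀ k, k ∉ Ks → okSym S k (τ k).1 ∧ ∀ b, (τ k).2 = some b → okSym S k b) ∧
      (∀ k, k ∉ Ks → ∃ a : ℕ → ℕ, (∀ j, a j < p) ∧ a k = 1 ∧ (∀ j, j < (k : ℕ) → a j = 0) ∧
        cand p x f (τ k) = nf f a r) := by
  obtain ⟨f, τ, h⟩ := J_lemmaFp.construct hN hcard hx hcomm hpow K hK hS Ks hKs dd hdd r le_rfl
  have hf : ∀ l, l < r → f l ∈ N (l + 1) ∧ f l ∉ N l := fun l hl =>
    ⟨(h ⟨l, hl⟩ (Nat.le_add_left _ _)).1, (h ⟨l, hl⟩ (Nat.le_add_left _ _)).2.1⟩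
  have hSp := J_lemmaFp.Sp_eq hN hf
  refine ⟨f, τ, ⟨fun k hk => ?_, fun k hk g => ?_⟩, hSp, fun k hk => ?_, fun k hk => ?_,
    fun k hk => ?_⟩
  · rw [hSp k hk]
    exact hN.card k hk
  · rw [hSp k hk.le]
    exact hN.central k hk _ (hf k hk).1 g
  · exact (h k (Nat.le_add_left _ _)).2.2.1 hk
  · exact ((h k (Nat.le_add_left _ _)).2.2.2 hk).1
  · exact ((h k (Nat.le_add_left _ _)).2.2.2 hk).2

end Pool.Agent.Helper252_Enum
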