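import Pool.Agent.Helper252_Enum.P1_nongen
import Pool.Agent.Helper252_Enum.P4_exists_series
import Pool.Agent.Helper252_Enum.Q04_lemmaF2
import Pool.Agent.Helper252_Enum.Defs2

set_option autoImplicit false

open scoped commutatorElement

namespace Pool.Agent.Helper252_Enum

namespace J_exists_deco0

theorem mem_PC_comm {G : Type*} [Group G] {p : ℕ} {A B : Subgroup G} {a b : G} (ha : a ∈ A)
    (hb : b ∈ B) : ⁅a, b⁆ ∈ PC p A B :=
  Subgroup.subset_closure (Or.inl ⟨a, ha, b, hb, rfl⟩)

theorem mem_PC_pow {G : Type*} [Group G] {p : ℕ} {A B : Subgroup G} {a : G} (ha : a ∈ A) :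
    a ^ p ∈ PC p A B :=
  Subgroup.subset_closure (Or.inr ⟨a, ha, rfl⟩)

theorem PC_le {G : Type*} [Group G] {p : ℕ} {A B C : Subgroup G}
    (h1 : ∀ a ∈ A, ∀ b ∈ B, ⁅a, b⁆ ∈ C) (h2 : ∀ a ∈ A, a ^ p ∈ C) : PC p A B ≤ C := by
  unfold PC
  rw [Subgroup.closure_le]
  rintro x (⟨a, ha, b, hb, rfl⟩ | ⟨a, ha, rfl⟩)
  · exact h1 a ha b hb
  · exact h2 a ha

theorem closure_normal {G : Type*} [Group G] {s : Set G}
    (h : ∀ x ∈ s, ∀ g : G, g * x * g⁻¹ ∈ Subgroup.closure s) : (Subgroup.closure s).Normal := by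
  constructor
  intro n hn g
  induction hn using Subgroup.closure_induction with
  | mem x hx => exact h x hx g
  | one => simp
  | mul x y _ _ hx hy =>
    have e : g * (x * y) * g⁻¹ = (g * x * g⁻¹) * (g * y * g⁻¹) := by group
    rw [e]
    exact Subgroup.mul_mem _ hx hy
  | inv x _ hx =>
    have e : g * x⁻¹ * g⁻¹ = (g * x * g⁻¹)⁻¹ := by group
    rw [e]
    exact Subgroup.inv_mem _ hx

theorem PC_normal {G : Type*} [Group G] {p : ℕ} (A B : Subgroup G) [hA : A.Normal]
    [hB : B.Normal] : (PC p A B).Normal := by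
  apply closure_normal
  rintro x (⟨a, ha, b, hb, rfl⟩ | ⟨a, ha, rfl⟩) g
  · have e : g * ⁅a, b⁆ * g⁻¹ = ⁅g * a * g⁻¹, g * b * g⁻¹⁆ := by
      simp only [commutatorElement_def]
      group
    rw [e]
    exact mem_PC_comm (hA.conj_mem a ha g) (hB.conj_mem b hb g)
  · rw [← conj_pow]
    exact mem_PC_pow (hA.conj_mem a ha g)

theorem Sp_zero {G : Type*} [Group G] (f : ℕ → G) : Sp f 0 = ⊥ := by
  unfold Sp
  simp

theorem mem_Sp {G : Type*} [Group G] (f : ℕ → G) {i k : ℕ} (h : i < k) : f i ∈ Sp f k :=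
  Subgroup.subset_closure ⟨i, h, rfl⟩

theorem Sp_mono {G : Type*} [Group G] (f : ℕ → G) {i k : ℕ} (h : i ≤ k) : Sp f i ≤ Sp f k :=
  Subgroup.closure_mono (Set.image_mono (Set.Iio_subset_Iio h))

theorem Sp_normal {G : Type*} [Group G] {p r : ℕ} {f : ℕ → G} (hf : Chain p r f) {k : ℕ}
    (hk : k ≤ r) : (Sp f k).Normal := by
  apply closure_normal
  rintro _ ⟨i, hi, rfl⟩ g
  have hi' : i < k := hi
  have h1 := hf.central i (by omega) g
  have h2 : ⁅f i, g⁆ ∈ Sp f k := Sp_mono f hi'.le h1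
  have e : g * f i * g⁻¹ = (⁅f i, g⁆)⁻¹ * f i := by
    simp only [commutatorElement_def]
    group
  rw [e]
  exact Subgroup.mul_mem _ (Subgroup.inv_mem _ h2) (mem_Sp f hi')

theorem Sp_succ {G : Type*} [Group G] {p r : ℕ} {f : ℕ → G} (hf : Chain p r f) {k : ℕ}
    (hk : k < r) {d : G} (hd : d ∈ Sp f (k + 1)) : ∃ a : ℤ, ∃ d' ∈ Sp f k, d = f k ^ a * d' := by
  have h1 : Sp f (k + 1) ≤ Subgroup.zpowers (f k) ⊔ Sp f k := by
    show Subgroup.closure _ ≤ _
    rw [Subgroup.closure_le]
    rintro _ ⟨i, hi, rfl⟩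
    have hi' : i < k + 1 := hi
    rcases Nat.lt_succ_iff_lt_or_eq.1 hi' with h | h
    · exact Subgroup.mem_sup_right (mem_Sp f h)
    · rw [h]
      exact Subgroup.mem_sup_left (Subgroup.mem_zpowers _)
  have hN := Sp_normal hf hk.le
  have h2 := h1 hd
  rw [← SetLike.mem_coe, Subgroup.mul_normal] at h2
  obtain ⟨a, ha, d', hd', he⟩ := Set.mem_mul.1 h2
  obtain ⟨t, rfl⟩ := Subgroup.mem_zpowers_iff.1 ha
  exact ⟨t, d', hd', he.symm⟩

theorem K_le {G : Type*} [Group G] {p r : ℕ} {f : ℕ → G} (hf : Chain p r f) (K : Subgroup G)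
    (hK : K ≤ Sp f r) (Ks : Finset (Fin r)) (hK1 : ∀ k ∈ Ks, f k ∈ K)
    (hK2 : ∀ k : Fin r, ∀ d ∈ K, d ∈ Sp f (k + 1) → d ∉ Sp f k → k ∈ Ks) :
    K ≤ Subgroup.closure {y | ∃ k : Fin r, k ∈ Ks ∧ y = f k} := by
  have key : ∀ j, j ≤ r → K ⊓ Sp f j ≤ Subgroup.closure {y | ∃ k : Fin r, k ∈ Ks ∧ y = f k} := by
    intro j
    induction j with
    | zero =>
      intro _ d hd
      obtain ⟨_, h1⟩ := Subgroup.mem_inf.1 hd
      rw [Sp_zero, Subgroup.mem_bot] at h1
      rw [h1]
      exact Subgroup.one_mem _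
    | succ j ih =>
      intro hj d hd
      by_cases hdj : d ∈ Sp f j
      · exact ih (by omega) ⟨hd.1, hdj⟩
      · have hj1 : (⟨j, by omega⟩ : Fin r) ∈ Ks := hK2 ⟨j, by omega⟩ d hd.1 hd.2 hdj
        obtain ⟨a, d', hd', he⟩ := Sp_succ hf (by omega : j < r) hd.2
        have h1 : f j ∈ K := hK1 _ hj1
        have h2 : d' ∈ K := by
          have : d' = (f j ^ a)⁻¹ * d := by
            rw [he]
            group
          rw [this]
          exact K.mul_mem (K.inv_mem (K.zpow_mem h1 a)) hd.1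
        rw [he]
        refine Subgroup.mul_mem _ (Subgroup.zpow_mem _ ?_ a) (ih (by omega) ⟨h2, hd'⟩)
        exact Subgroup.subset_closure ⟨_, hj1, rfl⟩
  intro d hd
  exact key r le_rfl ⟨hd, hK hd⟩

theorem card_lt {p : ℕ} [Fact p.Prime] {G : Type} [Group G] [Finite G] (hpG : IsPGroup p G)
    {A B : Subgroup G} (h : A ≤ B) {d : G} (hd : d ∈ B) (hd' : d ∉ A) :
    p * Nat.card A ≤ Nat.card B := by
  obtain ⟨a, ha⟩ := IsPGroup.iff_card.1 (hpG.to_subgroup A)
  obtain ⟨b, hb⟩ := IsPGroup.iff_card.1 (hpG.to_subgroup B)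
  have hlt : Nat.card A < Nat.card B := by
    refine lt_of_le_of_ne (Subgroup.card_le_of_le h) fun he => hd' ?_
    have := Subgroup.eq_of_le_of_card_ge h he.ge
    rw [this]
    exact hd
  rw [ha, hb] at hlt ⊢
  have hab : a < b := (Nat.pow_lt_pow_iff_right (Fact.out : p.Prime).one_lt).1 hlt
  rw [← pow_succ']
  exact Nat.pow_le_pow_right (Fact.out : p.Prime).pos hab

/-- one step of the filtration of `K` by `N` has index at most `p`. -/
theorem step_le {p : ℕ} [Fact p.Prime] {G : Type} [Group G] [Finite G] {r : ℕ}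
    {N : ℕ → Subgroup G} (hN : Series p r N) (K : Subgroup G) {j : ℕ} (hj : j < r) :
    Nat.card (K ⊓ N (j + 1) : Subgroup G) ≤ p * Nat.card (K ⊓ N j : Subgroup G) := by
  have hp : p.Prime := Fact.out
  have card_rel : ∀ A B : Subgroup G, A ≤ B → Nat.card A * A.relIndex B = Nat.card B := by
    intro A B hAB
    have h1 := Subgroup.relIndex_mul_relIndex (⊥ : Subgroup G) A B bot_le hAB
    rwa [Subgroup.relIndex_bot_left, Subgroup.relIndex_bot_left] at h1
  have hidx : (N j).relIndex (N (j + 1)) = p := by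
    have h1 := card_rel (N j) (N (j + 1)) (hN.mono j hj)
    rw [hN.card j hj.le, hN.card (j + 1) hj, pow_succ] at h1
    exact Nat.eq_of_mul_eq_mul_left (pow_pos hp.pos j) h1
  have h2 : (N j).relIndex (K ⊓ N (j + 1)) ≤ p := by
    rw [← hidx]
    exact Subgroup.relIndex_le_of_le_right inf_le_right (by rw [hidx]; exact hp.ne_zero)
  have h3 := card_rel (N j ⊓ (K ⊓ N (j + 1))) (K ⊓ N (j + 1)) inf_le_right
  rw [Subgroup.inf_relIndex_right] at h3
  rw [← h3, mul_comm]
  refine Nat.mul_le_mul h2 (Subgroup.card_le_of_le ?_)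
  exact le_inf (inf_le_right.trans inf_le_left) inf_le_left

/-- the order of a subgroup is determined by its levels. -/
theorem count_eq {p : ℕ} [Fact p.Prime] {G : Type} [Group G] [Finite G]
    (hpG : IsPGroup p G) {r : ℕ} (N : ℕ → Subgroup G) (hN : Series p r N)
    (K : Subgroup G) (hK : K ≤ N r) (Ks : Finset (Fin r))
    (hKs : ∀ k : Fin r, k ∈ Ks ↔ ∃ d ∈ K, d ∈ N (k + 1) ∧ d ∉ N k) :
    Nat.card K = p ^ Ks.card := by
  classical
  have key : ∀ j, j ≤ r →
      Nat.card (K ⊓ N j : Subgroup G) = p ^ (Ks.filter (fun k : Fin r => (k : ℕ) < j)).card := by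
    intro j
    induction j with
    | zero =>
      intro _
      have e1 : Ks.filter (fun k : Fin r => (k : ℕ) < 0) = ∅ := by
        rw [Finset.filter_eq_empty_iff]
        intro k _
        omega
      have e2 : N 0 = ⊥ := by
        rw [← Subgroup.card_eq_one, hN.card 0 (Nat.zero_le _), pow_zero]
      rw [e1, Finset.card_empty, pow_zero, e2, inf_bot_eq, Subgroup.card_bot]
    | succ j ih =>
      intro hj
      have hle : K ⊓ N j ≤ K ⊓ N (j + 1) := inf_le_inf_left _ (hN.mono j (by omega))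
      by_cases hjK : (⟨j, by omega⟩ : Fin r) ∈ Ks
      · obtain ⟨d, hd, hd1, hd2⟩ := (hKs _).1 hjK
        have h1 := card_lt hpG hle (d := d) ⟨hd, hd1⟩ (fun h => hd2 h.2)
        have h2 := step_le hN K (j := j) (by omega)
        have e1 : Ks.filter (fun k : Fin r => (k : ℕ) < j + 1) =
            insert (⟨j, by omega⟩ : Fin r) (Ks.filter (fun k : Fin r => (k : ℕ) < j)) := by
          ext k
          rw [Finset.mem_filter, Finset.mem_insert, Finset.mem_filter]
          constructor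
          · rintro ⟨h2, h4⟩
            rcases Nat.lt_succ_iff_lt_or_eq.1 h4 with h5 | h5
            · exact Or.inr ⟨h2, h5⟩
            · exact Or.inl (Fin.ext h5)
          · rintro (h2 | ⟨h2, h4⟩)
            · rw [h2]
              exact ⟨hjK, Nat.lt_succ_self _⟩
            · exact ⟨h2, by omega⟩
        rw [e1, Finset.card_insert_of_notMem (by
          rw [Finset.mem_filter]
          rintro ⟨_, h⟩
          exact absurd h (lt_irrefl _)), pow_succ', ← ih (by omega)]
        exact le_antisymm h2 h1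
      · have e1 : Ks.filter (fun k : Fin r => (k : ℕ) < j + 1) =
            Ks.filter (fun k : Fin r => (k : ℕ) < j) := by
          ext k
          rw [Finset.mem_filter, Finset.mem_filter]
          constructor
          · rintro ⟨h2, h4⟩
            rcases Nat.lt_succ_iff_lt_or_eq.1 h4 with h5 | h5
            · exact ⟨h2, h5⟩
            · exact absurd (by
                have : k = (⟨j, by omega⟩ : Fin r) := Fin.ext h5
                rw [← this]
                exact h2) hjK
          · rintro ⟨h2, h4⟩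
            exact ⟨h2, by omega⟩
        have e2 : K ⊓ N (j + 1) = K ⊓ N j := by
          refine le_antisymm ?_ hle
          intro d hd
          refine ⟨hd.1, ?_⟩
          by_contra hdj
          exact hjK ((hKs _).2 ⟨d, hd.1, hd.2, hdj⟩)
        rw [e1, e2]
        exact ih (by omega)
  have h1 := key r le_rfl
  have e2 : Ks.filter (fun k : Fin r => (k : ℕ) < r) = Ks := by
    rw [Finset.filter_eq_self]
    intro k _
    exact k.2
  rwa [e2, inf_eq_left.2 hK] at h1

theorem comm_mem_iff {G : Type*} [Group G] {N : Subgroup G} [N.Normal] (a b : G) :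
    ⁅a, b⁆ ∈ N ↔ Commute (QuotientGroup.mk' N a) (QuotientGroup.mk' N b) := by
  rw [← commutatorElement_eq_one_iff_commute, ← map_commutatorElement, ← MonoidHom.mem_ker,
    QuotientGroup.ker_mk']

/-- a normal subgroup modulo which the generators commute and have order dividing `p` contains
the Frattini subgroup. -/
theorem FrP_le_of {G : Type*} [Group G] {p m : ℕ} (x : Fin m → G)
    (hx : Subgroup.closure (Set.range x) = ⊤) (N : Subgroup G) [N.Normal]
    (h1 : ∀ i j, ⁅x i, x j⁆ ∈ N) (h2 : ∀ i, x i ^ p ∈ N) : FrP p G ≤ N := by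
  set π := QuotientGroup.mk' N with hπ
  have hxc : ∀ i, ∀ g : G, Commute (π (x i)) (π g) := by
    intro i g
    have h3 : Subgroup.closure (Set.range x) ≤ (Subgroup.centralizer {π (x i)}).comap π := by
      rw [Subgroup.closure_le]
      rintro _ ⟨j, rfl⟩
      rw [SetLike.mem_coe, Subgroup.mem_comap, Subgroup.mem_centralizer_singleton_iff]
      exact ((comm_mem_iff _ _).1 (h1 i j)).eq.symm
    have h4 := h3 (by rw [hx]; exact Subgroup.mem_top g : g ∈ Subgroup.closure (Set.range x))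
    rw [Subgroup.mem_comap, Subgroup.mem_centralizer_singleton_iff] at h4
    exact h4.symm
  have hab : ∀ g h : G, Commute (π g) (π h) := by
    intro g h
    have h3 : Subgroup.closure (Set.range x) ≤ (Subgroup.centralizer {π g}).comap π := by
      rw [Subgroup.closure_le]
      rintro _ ⟨j, rfl⟩
      rw [SetLike.mem_coe, Subgroup.mem_comap, Subgroup.mem_centralizer_singleton_iff]
      exact (hxc j g).eq
    have h4 := h3 (by rw [hx]; exact Subgroup.mem_top h : h ∈ Subgroup.closure (Set.range x))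
    rw [Subgroup.mem_comap, Subgroup.mem_centralizer_singleton_iff] at h4
    exact h4.symm
  let P : Subgroup G :=
    { carrier := {g | (π g) ^ p = 1}
      one_mem' := by simp
      mul_mem' := by
        intro a b ha hb
        change (π (a * b)) ^ p = 1
        rw [map_mul, (hab a b).mul_pow, show (π a) ^ p = 1 from ha,
          show (π b) ^ p = 1 from hb, one_mul]
      inv_mem' := by
        intro a ha
        change (π a⁻¹) ^ p = 1
        rw [map_inv, inv_pow, show (π a) ^ p = 1 from ha, inv_one] }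
  have hpow_iff : ∀ g : G, g ∈ P ↔ g ^ p ∈ N := by
    intro g
    change (π g) ^ p = 1 ↔ g ^ p ∈ N
    rw [← map_pow, ← MonoidHom.mem_ker, QuotientGroup.ker_mk']
  have hP : P = ⊤ := by
    rw [eq_top_iff, ← hx, Subgroup.closure_le]
    rintro _ ⟨j, rfl⟩
    rw [SetLike.mem_coe, hpow_iff]
    exact h2 j
  unfold FrP
  refine PC_le (fun a _ b _ => ?_) (fun a _ => ?_)
  · rw [comm_mem_iff]
    exact hab a b
  · rw [← hpow_iff, hP]
    exact Subgroup.mem_top a

/-- a subgroup normalised by generators is normal. -/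
theorem normal_of_gen {G : Type*} [Group G] {m : ℕ} (x : Fin m → G)
    (hx : Subgroup.closure (Set.range x) = ⊤) (N : Subgroup G)
    (h : ∀ i, x i ∈ Subgroup.normalizer (N : Set G)) : N.Normal := by
  rw [← Subgroup.normalizer_eq_top_iff, eq_top_iff, ← hx, Subgroup.closure_le]
  rintro _ ⟨i, rfl⟩
  exact h i


theorem step1 {G : Type*} [Group G] {p m : ℕ} (x : Fin m → G)
    (hx : Subgroup.closure (Set.range x) = ⊤) (hFn : (FrP p G).Normal) (K : Subgroup G)
    (Y : Finset (Fin m)) (hY : ¬ FrP p G ≤ Subgroup.closure (x '' (Y : Set (Fin m))) ⊔ K) :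
    ∃ i j : Fin m, ∃ d ∈ (Subgroup.closure (x '' ((Y ∪ {i, j} : Finset (Fin m)) : Set (Fin m))) ⊔ K)
      ⊓ FrP p G, d ∉ (Subgroup.closure (x '' (Y : Set (Fin m))) ⊔ K) ⊓ FrP p G := by
  classical
  by_contra hcon
  push Not at hcon
  apply hY
  obtain ⟨N, hN⟩ : ∃ N : Subgroup G,
    N = (Subgroup.closure (x '' (Y : Set (Fin m))) ⊔ K) ⊓ FrP p G := ⟨_, rfl⟩
  rw [← hN] at hcon
  have hxi : ∀ i j : Fin m, x i ∈
      Subgroup.closure (x '' ((Y ∪ {i, j} : Finset (Fin m)) : Set (Fin m))) ⊔ K := by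
    intro i j
    refine Subgroup.mem_sup_left (Subgroup.subset_closure ⟨i, ?_, rfl⟩)
    simp
  have hxj : ∀ i j : Fin m, x j ∈
      Subgroup.closure (x '' ((Y ∪ {i, j} : Finset (Fin m)) : Set (Fin m))) ⊔ K := by
    intro i j
    refine Subgroup.mem_sup_left (Subgroup.subset_closure ⟨j, ?_, rfl⟩)
    simp
  have hNle : ∀ i j : Fin m, N ≤
      Subgroup.closure (x '' ((Y ∪ {i, j} : Finset (Fin m)) : Set (Fin m))) ⊔ K := by
    intro i j
    rw [hN]
    refine inf_le_left.trans (sup_le_sup_right (Subgroup.closure_mono (Set.image_mono ?_)) K)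
    intro k hk
    simp only [Finset.coe_union, Set.mem_union]
    exact Or.inl hk
  have hNF : N ≤ FrP p G := by rw [hN]; exact inf_le_right
  have hnn : N.Normal := by
    refine normal_of_gen x hx N fun i => ?_
    rw [Subgroup.mem_normalizer_iff]
    intro n
    constructor
    · intro hn
      refine hcon i i _ ⟨?_, hFn.conj_mem n (hNF hn) (x i)⟩
      exact Subgroup.mul_mem _ (Subgroup.mul_mem _ (hxi i i) (hNle i i hn))
        (Subgroup.inv_mem _ (hxi i i))
    · intro hn
      have e : n = (x i)⁻¹ * (x i * n * (x i)⁻¹) * x i := by group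
      rw [e]
      refine hcon i i _ ⟨?_, ?_⟩
      · exact Subgroup.mul_mem _ (Subgroup.mul_mem _ (Subgroup.inv_mem _ (hxi i i))
          (hNle i i hn)) (hxi i i)
      · have := hFn.conj_mem _ (hNF hn) (x i)⁻¹
        rwa [inv_inv] at this
  have h3 : FrP p G ≤ N := by
    refine FrP_le_of x hx N (fun i j => ?_) (fun i => ?_)
    · refine hcon i j _ ⟨?_, mem_PC_comm (Subgroup.mem_top _) (Subgroup.mem_top _)⟩
      rw [commutatorElement_def]
      exact Subgroup.mul_mem _ (Subgroup.mul_mem _ (Subgroup.mul_mem _ (hxi i j) (hxj i j))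
        (Subgroup.inv_mem _ (hxi i j))) (Subgroup.inv_mem _ (hxj i j))
    · exact hcon i i _ ⟨Subgroup.pow_mem _ (hxi i i) p, mem_PC_pow (Subgroup.mem_top _)⟩
  refine h3.trans ?_
  rw [hN]
  exact inf_le_left

theorem part1 {G : Type} [Group G] [Finite G] {p m : ℕ} [Fact p.Prime] (hpG : IsPGroup p G)
    (x : Fin m → G) (hx : Subgroup.closure (Set.range x) = ⊤) (hFn : (FrP p G).Normal)
    (K : Subgroup G) (hK : K ≤ FrP p G) (t : ℕ) :
    ∃ Y : Finset (Fin m), Y.card ≤ 2 * t ∧
      (FrP p G ≤ Subgroup.closure (x '' (Y : Set (Fin m))) ⊔ K ∨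
        p ^ t * Nat.card K ≤
          Nat.card ((Subgroup.closure (x '' (Y : Set (Fin m))) ⊔ K) ⊓ FrP p G : Subgroup G)) := by
  classical
  induction t with
  | zero =>
    refine ⟨∅, by simp, Or.inr ?_⟩
    rw [pow_zero, one_mul]
    exact Subgroup.card_le_of_le (le_inf le_sup_right hK)
  | succ t ih =>
    obtain ⟨Y, hY, h | h⟩ := ih
    · exact ⟨Y, by omega, Or.inl h⟩
    · by_cases hF : FrP p G ≤ Subgroup.closure (x '' (Y : Set (Fin m))) ⊔ K
      · exact ⟨Y, by omega, Or.inl hF⟩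
      · obtain ⟨i, j, d, hd, hd'⟩ := step1 x hx hFn K Y hF
        refine ⟨Y ∪ {i, j}, ?_, Or.inr ?_⟩
        · have h1 := Finset.card_union_le Y ({i, j} : Finset (Fin m))
          have h2 : ({i, j} : Finset (Fin m)).card ≤ 2 := Finset.card_le_two
          omega
        · have hle : (Subgroup.closure (x '' (Y : Set (Fin m))) ⊔ K) ⊓ FrP p G ≤
              (Subgroup.closure (x '' ((Y ∪ {i, j} : Finset (Fin m)) : Set (Fin m))) ⊔ K)
                ⊓ FrP p G := by
            refine inf_le_inf_right _ (sup_le_sup_right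
              (Subgroup.closure_mono (Set.image_mono ?_)) K)
            intro k hk
            simp only [Finset.coe_union, Set.mem_union]
            exact Or.inl hk
          have h1 := card_lt hpG hle hd hd'
          rw [pow_succ', mul_assoc]
          exact (Nat.mul_le_mul_left p h).trans h1

theorem part2 {G : Type} [Group G] [Finite G] {p m : ℕ} [Fact p.Prime] (hpG : IsPGroup p G)
    (x : Fin m → G) (hx : Subgroup.closure (Set.range x) = ⊤) (Y : Finset (Fin m)) (t : ℕ) :
    ∃ Y' : Finset (Fin m), Y ⊆ Y' ∧ Y'.card ≤ Y.card + t ∧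
      (FrP p G ⊓ Subgroup.centralizer (x '' (Y' : Set (Fin m))) ≤ ZF p G ∨
        p ^ t * Nat.card (FrP p G ⊓ Subgroup.centralizer (x '' (Y' : Set (Fin m))) : Subgroup G) ≤
          Nat.card (FrP p G)) := by
  classical
  induction t with
  | zero =>
    refine ⟨Y, Finset.Subset.refl _, by omega, Or.inr ?_⟩
    rw [pow_zero, one_mul]
    exact Subgroup.card_le_of_le inf_le_left
  | succ t ih =>
    obtain ⟨Y', hYY, hY, h | h⟩ := ih
    · exact ⟨Y', hYY, by omega, Or.inl h⟩
    · by_cases hF : FrP p G ⊓ Subgroup.centralizer (x '' (Y' : Set (Fin m))) ≤ ZF p G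
      · exact ⟨Y', hYY, by omega, Or.inl hF⟩
      · obtain ⟨d, hd, hd'⟩ := SetLike.not_le_iff_exists.1 hF
        have hj : ∃ j, ¬ Commute d (x j) := by
          by_contra hcon
          push Not at hcon
          apply hd'
          refine Subgroup.mem_inf.2 ⟨hd.1, ?_⟩
          have h3 : (⊤ : Subgroup G) ≤ Subgroup.centralizer {d} := by
            rw [← hx, Subgroup.closure_le]
            rintro _ ⟨i, rfl⟩
            rw [SetLike.mem_coe, Subgroup.mem_centralizer_singleton_iff]
            exact (hcon i).symm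
          rw [Subgroup.mem_center_iff]
          intro g
          have h4 := h3 (Subgroup.mem_top g)
          rw [Subgroup.mem_centralizer_singleton_iff] at h4
          exact h4
        obtain ⟨j, hj⟩ := hj
        refine ⟨insert j Y', hYY.trans (Finset.subset_insert _ _), ?_, Or.inr ?_⟩
        · have := Finset.card_insert_le j Y'
          omega
        · have hle : FrP p G ⊓ Subgroup.centralizer
                (x '' ((insert j Y' : Finset (Fin m)) : Set (Fin m))) ≤
              FrP p G ⊓ Subgroup.centralizer (x '' (Y' : Set (Fin m))) := by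
            refine inf_le_inf_left _ (Subgroup.centralizer_le (Set.image_mono ?_))
            intro k hk
            rw [Finset.coe_insert]
            exact Set.mem_insert_of_mem _ hk
          have h1 := card_lt hpG hle (d := d) hd (by
            intro h2
            apply hj
            have h3 := Subgroup.mem_centralizer_iff.1 (Subgroup.mem_inf.1 h2).2 (x j)
              ⟨j, by simp, rfl⟩
            exact h3.symm)
          calc p ^ (t + 1) * Nat.card (FrP p G ⊓ Subgroup.centralizer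
                (x '' ((insert j Y' : Finset (Fin m)) : Set (Fin m))) : Subgroup G)
              = p ^ t * (p * Nat.card (FrP p G ⊓ Subgroup.centralizer
                (x '' ((insert j Y' : Finset (Fin m)) : Set (Fin m))) : Subgroup G)) := by ring
            _ ≤ p ^ t * Nat.card (FrP p G ⊓ Subgroup.centralizer
                (x '' (Y' : Set (Fin m))) : Subgroup G) := Nat.mul_le_mul_left _ h1
            _ ≤ Nat.card (FrP p G) := h

end J_exists_deco0

/-
PROOF OF THE TARGET.
Let F = FrP p G = PC p ⊤ ⊤ (contains all commutators and p-th powers; normal), closure(range x) = ⊤ by nongen. K := ZF p G = F ⊓ center G, normal. K1 := K1 p G <= K.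
(1) There is Y with |Y| <= 2 R₁ and F <= closure(x '' Y) ⊔ K. For a finset Y let H_Y = closure(x '' Y) ⊔ K and F_Y = H_Y ⊓ F (contains K). Claim: if F_Y ≠ F then there are i, j (possibly equal) with F_{Y ∪ {i,j}} > F_Y. Otherwise for all i, j
F_{Y ∪ {i,j}} = F_Y =: N; N is normalised by each x i (N = H_{Y ∪ {i}} ⊓ F with x i in H_{Y∪{i}}, F normal), so N is normal in G, contains all ⁅x i, x j⁆ and x i ^ p; G/N is then generated by commuting elements of order p, so all commutators and p-th powers of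
G lie in N and F <= N, contradiction. Start with Y = ∅ (F_∅ = K... at least K): each step adds at most 2 indices and multiplies |F_Y| by at least p, and |F : K| = p^R₁: at most R₁ steps.
(2) Enlarge Y by at most R₁ indices so that C_F(Y) = K: as long as C_F(Y) = {d in F : d commutes with x i, i in Y} ≠ K = C_F(all x i) there is an index j decreasing it properly, and |F : C_F(Y)| <= p^R₁. So |Y| <= 3 R₁. This gives d4c.
(3) exists_series (A := ⊥, s := 0, B := F) gives N. Ks := levels of K := {k | ∃ d ∈ K, d ∈ N (k+1) ∧ d ∉ N k}, K's := levels of K1 (subset of Ks). |K| = p^|Ks|, |K1| = p^|K's| (the orders of K ⊓ N j increase exactly at the levels; or count as in lemmaK),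
so |Ks| + R₁ = r, |K's| + R = r. Choose dd k ∈ K1 at the levels in K's, dd k ∈ K at the other levels of Ks. lemmaF' with S := Y gives f, τ. σ = (Y, Ks, K's, τ). cen, pw: f k = dd k. d4: d ∈ K1 by definition. d6: K <= closure{f k | k ∈ Ks} (divide by powers level
by level), so F <= closure(x '' Y) ⊔ K <= the closure. comm_mem, pow_mem: F contains commutators and p-th powers and Sp f r = N r = F.
-/

/-- TARGET -/
theorem exists_deco0 {p : ℕ} [Fact p.Prime] (m r R₁ R : ℕ) (G : Type) [Group G]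
    (hG : Nat.card G = p ^ (m + r)) (hr : Nat.card (FrP p G) = p ^ r)
    (hR₁ : Nat.card (FrP p G) = p ^ R₁ * Nat.card (ZF p G))
    (hR : Nat.card (FrP p G) = p ^ R * Nat.card (K1 p G)) (x : Fin m → G)
    (hx : Subgroup.closure (Set.range x) ⊔ FrP p G = ⊤) :
    ∃ σ : Skel0 m r, Nonempty (Deco0 p m r σ G x) ∧ σ.Y.card ≤ 3 * R₁ ∧
      σ.K.card + R₁ = r ∧ σ.K'.card + R = r := by
  classical
  have hp : p.Prime := Fact.out
  have hfin : Finite G :=
    Nat.finite_of_card_ne_zero (by rw [hG]; exact (pow_pos hp.pos _).ne')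
  have hpG : IsPGroup p G := IsPGroup.of_card hG
  have hFn : (FrP p G).Normal := J_exists_deco0.PC_normal _ _
  have hcomm : ∀ g h : G, ⁅g, h⁆ ∈ FrP p G := fun g h =>
    J_exists_deco0.mem_PC_comm (Subgroup.mem_top _) (Subgroup.mem_top _)
  have hpow : ∀ g : G, g ^ p ∈ FrP p G := fun g =>
    J_exists_deco0.mem_PC_pow (Subgroup.mem_top _)
  have hx' : Subgroup.closure (Set.range x) = ⊤ := by
    have := nongen hpG ⊤ (Subgroup.closure (Set.range x)) le_top (by
      show ⊤ ≤ Subgroup.closure (Set.range x) ⊔ FrP p G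
      rw [hx])
    exact top_le_iff.1 this
  have hKF : ZF p G ≤ FrP p G := inf_le_left
  have hcardF : 0 < Nat.card (FrP p G) := Nat.card_pos
  have hcardK : 0 < Nat.card (ZF p G) := Nat.card_pos
  obtain ⟨Y₀, hY₀, hY₀F⟩ := J_exists_deco0.part1 hpG x hx' hFn (ZF p G) hKF R₁
  have hF0 : FrP p G ≤ Subgroup.closure (x '' (Y₀ : Set (Fin m))) ⊔ ZF p G := by
    rcases hY₀F with h | h
    · exact h
    · rw [← hR₁] at h
      have h1 := Subgroup.eq_of_le_of_card_ge
        (inf_le_right : (Subgroup.closure (x '' (Y₀ : Set (Fin m))) ⊔ ZF p G) ⊓ FrP p G ≤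
          FrP p G) h
      rw [← h1]
      exact inf_le_left
  obtain ⟨Y, hYY, hY, hYC⟩ := J_exists_deco0.part2 hpG x hx' Y₀ R₁
  have hFY : FrP p G ≤ Subgroup.closure (x '' (Y : Set (Fin m))) ⊔ ZF p G := by
    refine hF0.trans (sup_le_sup_right (Subgroup.closure_mono (Set.image_mono ?_)) _)
    exact Finset.coe_subset.2 hYY
  have hCK : FrP p G ⊓ Subgroup.centralizer (x '' (Y : Set (Fin m))) ≤ ZF p G := by
    rcases hYC with h | h
    · exact h
    · rw [hR₁] at h
      have h1 := Nat.le_of_mul_le_mul_left h (pow_pos hp.pos R₁)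
      have h2 : ZF p G ≤ FrP p G ⊓ Subgroup.centralizer (x '' (Y : Set (Fin m))) :=
        inf_le_inf_left _ (Subgroup.center_le_centralizer _)
      exact (Subgroup.eq_of_le_of_card_ge h2 h1).ge
  obtain ⟨N, hN, _, hNr⟩ := exists_series hpG ⊥ (FrP p G) bot_le 0 r (by simp) hr
  obtain ⟨Ks, hKsdef⟩ : ∃ Ks : Finset (Fin r), Ks = Finset.univ.filter
    (fun k : Fin r => ∃ d ∈ ZF p G, d ∈ N (k + 1) ∧ d ∉ N k) := ⟨_, rfl⟩
  have hKs : ∀ k : Fin r, k ∈ Ks ↔ ∃ d ∈ ZF p G, d ∈ N (k + 1) ∧ d ∉ N k := by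
    intro k
    rw [hKsdef, Finset.mem_filter]
    simp
  obtain ⟨Ks', hKsdef'⟩ : ∃ Ks' : Finset (Fin r), Ks' = Finset.univ.filter
    (fun k : Fin r => ∃ d ∈ K1 p G, d ∈ N (k + 1) ∧ d ∉ N k) := ⟨_, rfl⟩
  have hKs' : ∀ k : Fin r, k ∈ Ks' ↔ ∃ d ∈ K1 p G, d ∈ N (k + 1) ∧ d ∉ N k := by
    intro k
    rw [hKsdef', Finset.mem_filter]
    simp
  have hK1K : K1 p G ≤ ZF p G := fun d hd => ⟨hd.1, hd.2.1⟩
  have hKK : Ks' ⊆ Ks := by
    intro k hk
    obtain ⟨d, hd, h⟩ := (hKs' k).1 hk
    exact (hKs k).2 ⟨d, hK1K hd, h⟩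
  have hdd : ∀ k : Fin r, ∃ d : G, (k ∈ Ks → d ∈ ZF p G ∧ d ∈ N (k + 1) ∧ d ∉ N k) ∧
      (k ∈ Ks' → d ∈ K1 p G) := by
    intro k
    by_cases hk' : k ∈ Ks'
    · obtain ⟨d, hd, h⟩ := (hKs' k).1 hk'
      exact ⟨d, fun _ => ⟨hK1K hd, h⟩, fun _ => hd⟩
    · by_cases hk : k ∈ Ks
      · obtain ⟨d, hd, h⟩ := (hKs k).1 hk
        exact ⟨d, fun _ => ⟨hd, h⟩, fun h => absurd h hk'⟩
      · exact ⟨1, fun h => absurd h hk, fun h => absurd h hk'⟩
  choose dd hdd1 hdd2 using hdd
  obtain ⟨f, τ, hch, hSp, hfK, hok, hcand⟩ := lemmaF' m r N hN x hG (by rw [hNr]; exact hx)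
    (by rw [hNr]; exact hcomm) (by rw [hNr]; exact hpow) Y (ZF p G)
    (by rw [hNr]; exact hKF) (by rw [hNr]; exact hFY) Ks hKs dd hdd1
  have hSpr : Sp f r = FrP p G := by rw [hSp r le_rfl, hNr]
  have hfK1 : ∀ k ∈ Ks, f k ∈ ZF p G := by
    intro k hk
    rw [hfK k hk]
    exact (hdd1 k hk).1
  have hK2 : ∀ k : Fin r, ∀ d ∈ ZF p G, d ∈ Sp f (k + 1) → d ∉ Sp f k → k ∈ Ks := by
    intro k d h1 h2 h3
    rw [hKs]
    refine ⟨d, h1, ?_, ?_⟩
    · rwa [← hSp _ (by have := k.2; omega)]
    · rwa [← hSp _ k.2.le]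
  have hKle := J_exists_deco0.K_le hch (ZF p G) (by rw [hSpr]; exact hKF) Ks hfK1 hK2
  have hc1 := J_exists_deco0.count_eq hpG N hN (ZF p G) (by rw [hNr]; exact hKF) Ks hKs
  have hc2 := J_exists_deco0.count_eq hpG N hN (K1 p G)
    (by rw [hNr]; exact hK1K.trans hKF) Ks' hKs'
  refine ⟨⟨Y, Ks, Ks', τ⟩, ⟨⟨f, hG, hch, by rw [hSpr]; exact hx,
    fun i j => by rw [hSpr]; exact hcomm _ _, fun i => by rw [hSpr]; exact hpow _, hKK,
    fun k hk => (hfK1 k hk).2, ?_, ?_, ?_, ?_, hok, hcand⟩⟩, ?_, ?_, ?_⟩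
  · intro k hk
    rw [hfK k (hKK hk)]
    exact (hdd2 k hk).2.2
  · intro k d h1 h2 h3 h4
    refine (hKs' k).2 ⟨d, ⟨?_, h3, h4⟩, ?_, ?_⟩
    · rw [← hSpr]
      exact J_exists_deco0.Sp_mono f (by have := k.2; omega) h1
    · rwa [← hSp _ (by have := k.2; omega)]
    · rwa [← hSp _ k.2.le]
  · intro d h1 h2
    refine (hCK (Subgroup.mem_inf.2 ⟨by rw [← hSpr]; exact h1, ?_⟩)).2
    rw [Subgroup.mem_centralizer_iff]
    rintro _ ⟨i, hi, rfl⟩
    exact (h2 i hi).symm
  · rw [hSpr]
    refine hFY.trans (sup_le (Subgroup.closure_mono Set.subset_union_left) ?_)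
    exact hKle.trans (Subgroup.closure_mono Set.subset_union_right)
  · show Y.card ≤ 3 * R₁
    omega
  · show Ks.card + R₁ = r
    have h1 : p ^ r = p ^ (R₁ + Ks.card) := by
      rw [← hr, hR₁, hc1, pow_add]
    have := Nat.pow_right_injective hp.two_le h1
    omega
  · show Ks'.card + R = r
    have h1 : p ^ r = p ^ (R + Ks'.card) := by
      rw [← hr, hR, hc2, pow_add]
    have := Nat.pow_right_injective hp.two_le h1
    omega

end Pool.Agent.Helper252_Enum
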