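import Pool.Agent.Helper252_Enum.P5_card_closure
import Pool.Agent.Helper252_Enum.Defs2

set_option autoImplicit false

open scoped commutatorElement

namespace Pool.Agent.Helper252_Enum

namespace J_iso_of_sameDigits0

section
variable {G : Type*} [Group G]

theorem Sp_mono (f : ℕ → G) {j k : ℕ} (h : j ≤ k) : Sp f j ≤ Sp f k :=
  Subgroup.closure_mono (Set.image_mono (Set.Iio_subset_Iio h))

theorem mem_Sp_of_lt (f : ℕ → G) {j k : ℕ} (h : j < k) : f j ∈ Sp f k :=
  Subgroup.subset_closure ⟨j, h, rfl⟩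

theorem Sp_zero (f : ℕ → G) : Sp f 0 = ⊥ := by
  simp [Sp]

theorem Sp_succ (f : ℕ → G) (k : ℕ) : Sp f (k + 1) = Subgroup.closure {f k} ⊔ Sp f k := by
  unfold Sp
  rw [← Subgroup.closure_union]
  congr 1
  ext y
  simp only [Set.mem_image, Set.mem_Iio, Set.mem_union, Set.mem_singleton_iff]
  constructor
  · rintro ⟨j, hj, rfl⟩
    rcases Nat.lt_succ_iff_lt_or_eq.mp hj with h | h
    · exact Or.inr ⟨j, h, rfl⟩
    · left; rw [h]
  · rintro (h | ⟨j, hj, rfl⟩)
    · exact ⟨k, Nat.lt_succ_self k, h.symm⟩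
    · exact ⟨j, Nat.lt_succ_of_lt hj, rfl⟩

theorem nf_mem (f : ℕ → G) (a : ℕ → ℕ) (k : ℕ) : nf f a k ∈ Sp f k := by
  induction k with
  | zero => exact Subgroup.one_mem _
  | succ k ih =>
    exact Subgroup.mul_mem _ (Subgroup.pow_mem _ (mem_Sp_of_lt f (Nat.lt_succ_self k)) _)
      (Sp_mono f (Nat.le_succ k) ih)

theorem nf_congr (f : ℕ → G) (a b : ℕ → ℕ) (k : ℕ) (h : ∀ j, j < k → a j = b j) :
    nf f a k = nf f b k := by
  induction k with
  | zero => rfl
  | succ k ih =>
    simp only [nf]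
    rw [h k (Nat.lt_succ_self k), ih (fun j hj => h j (Nat.lt_succ_of_lt hj))]

theorem nf_eq_of_zero (f : ℕ → G) (a : ℕ → ℕ) {k r : ℕ} (hkr : k ≤ r)
    (h : ∀ j, k ≤ j → j < r → a j = 0) : nf f a r = nf f a k := by
  induction r, hkr using Nat.le_induction with
  | base => rfl
  | succ r hr ih =>
    simp only [nf]
    rw [h r hr (Nat.lt_succ_self r), pow_zero, one_mul]
    exact ih (fun j h1 h2 => h j h1 (Nat.lt_succ_of_lt h2))

theorem nf_pair {G' : Type*} [Group G'] (f : ℕ → G) (f' : ℕ → G') (a : ℕ → ℕ) (k : ℕ) :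
    nf (fun i => (f i, f' i)) a k = (nf f a k, nf f' a k) := by
  induction k with
  | zero => rfl
  | succ k ih => simp only [nf, ih]; rfl

end

namespace ChainF
variable {G : Type*} [Group G] {p r : ℕ} {f : ℕ → G}

theorem normal (hf : Chain p r f) {k : ℕ} (hk : k ≤ r) : (Sp f k).Normal := by
  constructor
  intro n hn g
  induction hn using Subgroup.closure_induction with
  | mem x hx =>
    obtain ⟨j, hj, rfl⟩ := hx
    have h1 : ⁅f j, g⁆ ∈ Sp f k := Sp_mono f (le_of_lt hj) (hf.central j (lt_of_lt_of_le hj hk) g)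
    have h2 : g * f j * g⁻¹ = ⁅f j, g⁆⁻¹ * f j := by
      rw [commutatorElement_def]; group
    rw [h2]
    exact Subgroup.mul_mem _ (Subgroup.inv_mem _ h1) (mem_Sp_of_lt f hj)
  | one => simp
  | mul x y _ _ hx hy =>
    have : g * (x * y) * g⁻¹ = (g * x * g⁻¹) * (g * y * g⁻¹) := by group
    rw [this]; exact Subgroup.mul_mem _ hx hy
  | inv x _ hx =>
    have : g * x⁻¹ * g⁻¹ = (g * x * g⁻¹)⁻¹ := by group
    rw [this]; exact Subgroup.inv_mem _ hx

theorem not_mem (hf : Chain p r f) (hp : p.Prime) {k : ℕ} (hk : k < r) : f k ∉ Sp f k := by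
  intro h
  have h1 : Sp f (k + 1) = Sp f k := by
    rw [Sp_succ, sup_eq_right, Subgroup.closure_le]
    simpa using h
  have h2 := hf.card (k + 1) hk
  rw [h1, hf.card k hk.le] at h2
  have := Nat.pow_right_injective hp.two_le h2
  omega

theorem pow_mem (hf : Chain p r f) (hp : p.Prime) {k : ℕ} (hk : k < r) : f k ^ p ∈ Sp f k := by
  have hn := ChainF.normal hf hk.le
  have hle : Sp f k ≤ Sp f (k + 1) := Sp_mono f (Nat.le_succ k)
  have hidx : (Sp f k).relIndex (Sp f (k + 1)) = p := by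
    have h1 := Subgroup.card_mul_index ((Sp f k).subgroupOf (Sp f (k + 1)))
    have h2 : Nat.card ((Sp f k).subgroupOf (Sp f (k + 1))) = p ^ k := by
      rw [← hf.card k hk.le]
      exact Nat.card_congr (Subgroup.subgroupOfEquivOfLe hle).toEquiv
    rw [h2, hf.card (k + 1) hk, pow_succ] at h1
    exact Nat.eq_of_mul_eq_mul_left (pow_pos hp.pos k) h1
  have h3 := Subgroup.pow_index_mem ((Sp f k).subgroupOf (Sp f (k + 1)))
    ⟨f k, mem_Sp_of_lt f (Nat.lt_succ_self k)⟩
  have h4 : ((Sp f k).subgroupOf (Sp f (k + 1))).index = p := hidx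
  rw [h4] at h3
  simpa [Subgroup.mem_subgroupOf] using h3

theorem pow_mem_iff (hf : Chain p r f) (hp : p.Prime) {k : ℕ} (hk : k < r) (z : ℤ) :
    f k ^ z ∈ Sp f k ↔ (p : ℤ) ∣ z := by
  constructor
  · intro h
    by_contra hd
    have hcop : IsCoprime (p : ℤ) z := by
      rw [Int.isCoprime_iff_gcd_eq_one]
      have : Int.gcd p z = Nat.gcd p z.natAbs := by simp [Int.gcd]
      rw [this]
      refine (Nat.Prime.coprime_iff_not_dvd hp).mpr ?_
      intro h2
      exact hd (Int.natCast_dvd.mpr h2)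
    obtain ⟨u, v, huv⟩ := hcop
    apply ChainF.not_mem hf hp hk
    have h1 : f k = (f k ^ (p : ℤ)) ^ u * (f k ^ z) ^ v := by
      rw [← zpow_mul, ← zpow_mul, ← zpow_add]
      have : (p : ℤ) * u + z * v = 1 := by linarith [huv, mul_comm u (p : ℤ), mul_comm v z]
      rw [this, zpow_one]
    rw [h1]
    refine Subgroup.mul_mem _ (Subgroup.zpow_mem _ ?_ _) (Subgroup.zpow_mem _ h _)
    rw [zpow_natCast]
    exact ChainF.pow_mem hf hp hk
  · rintro ⟨c, rfl⟩
    rw [zpow_mul, zpow_natCast]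
    exact Subgroup.zpow_mem _ (ChainF.pow_mem hf hp hk) _

theorem exists_nf (hf : Chain p r f) (hp : p.Prime) {k : ℕ} (hk : k ≤ r) {h : G}
    (hh : h ∈ Sp f k) :
    ∃ a : ℕ → ℕ, (∀ j, a j < p) ∧ (∀ j, k ≤ j → a j = 0) ∧ h = nf f a k := by
  induction k generalizing h with
  | zero =>
    refine ⟨fun _ => 0, fun _ => hp.pos, fun _ _ => rfl, ?_⟩
    rw [Sp_zero, Subgroup.mem_bot] at hh
    rw [hh]; rfl
  | succ k ih =>
    have hkr : k < r := hk
    have hn := ChainF.normal hf hkr.le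
    rw [Sp_succ] at hh
    rw [← SetLike.mem_coe, Subgroup.mul_normal] at hh
    obtain ⟨u, hu, v, hv, rfl⟩ := Set.mem_mul.mp hh
    rw [SetLike.mem_coe, Subgroup.mem_closure_singleton] at hu
    obtain ⟨z, rfl⟩ := hu
    have hp0 : (p : ℤ) ≠ 0 := by exact_mod_cast hp.ne_zero
    have h1 : f k ^ z = f k ^ (z % p).toNat * (f k ^ ((p : ℤ) * (z / p))) := by
      have h2 : (((z % p).toNat : ℕ) : ℤ) = z % p := Int.toNat_of_nonneg (Int.emod_nonneg z hp0)
      rw [← zpow_natCast, h2, ← zpow_add]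
      congr 1
      have := Int.emod_add_mul_ediv z p
      linarith
    have h3 : f k ^ ((p : ℤ) * (z / p)) * v ∈ Sp f k :=
      Subgroup.mul_mem _ ((ChainF.pow_mem_iff hf hp hkr _).mpr (dvd_mul_right _ _)) hv
    obtain ⟨a, ha1, ha2, ha3⟩ := ih hkr.le h3
    refine ⟨fun j => if j = k then (z % p).toNat else a j, ?_, ?_, ?_⟩
    · intro j
      by_cases hj : j = k
      · simp only [hj, if_true]
        have h5 := Int.emod_lt_of_pos z (by exact_mod_cast hp.pos : (0 : ℤ) < p)
        have h6 := Int.emod_nonneg z hp0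
        omega
      · simp only [hj, if_false]; exact ha1 j
    · intro j hj
      have : j ≠ k := by omega
      simp only [this, if_false]
      exact ha2 j (by omega)
    · simp only [nf, if_true]
      rw [h1, mul_assoc, ha3]
      congr 1
      apply nf_congr
      intro j hj
      have : j ≠ k := by omega
      simp [this]

/-- Normal forms agree above `k` iff they agree modulo `Sp f k`. -/
theorem nf_coset (hf : Chain p r f) (hp : p.Prime) (a b : ℕ → ℕ) (ha : ∀ j, a j < p)
    (hb : ∀ j, b j < p) {k t : ℕ} (hkt : k ≤ t) (ht : t ≤ r) :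
    (nf f a t)⁻¹ * nf f b t ∈ Sp f k ↔ ∀ j, k ≤ j → j < t → a j = b j := by
  induction t, hkt using Nat.le_induction with
  | base =>
    constructor
    · intro _ j h1 h2; omega
    · intro _
      exact Subgroup.mul_mem _ (Subgroup.inv_mem _ (nf_mem f a k)) (nf_mem f b k)
  | succ t hkt ih =>
    have htr : t < r := ht
    have key : (nf f a (t + 1))⁻¹ * nf f b (t + 1) =
        (nf f a t)⁻¹ * (f t ^ ((b t : ℤ) - a t)) * nf f b t := by
      simp only [nf]
      rw [zpow_sub, zpow_natCast, zpow_natCast]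
      have hc : f t ^ b t * (f t ^ a t)⁻¹ = (f t ^ a t)⁻¹ * f t ^ b t := by
        have : Commute (f t ^ b t) ((f t ^ a t)⁻¹) :=
          ((Commute.refl (f t)).pow_pow (b t) (a t)).inv_right
        exact this.eq
      rw [hc]; group
    have hstep : (nf f a (t + 1))⁻¹ * nf f b (t + 1) ∈ Sp f k → a t = b t := by
      intro h
      rw [key] at h
      have h1 : (f t ^ ((b t : ℤ) - a t)) ∈ Sp f t := by
        have h2 := Subgroup.mul_mem _ (Subgroup.mul_mem _ (nf_mem f a t) (Sp_mono f hkt h))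
          (Subgroup.inv_mem _ (nf_mem f b t))
        have h3 : nf f a t * ((nf f a t)⁻¹ * (f t ^ ((b t : ℤ) - a t)) * nf f b t) *
            (nf f b t)⁻¹ = f t ^ ((b t : ℤ) - a t) := by group
        rwa [h3] at h2
      rw [ChainF.pow_mem_iff hf hp htr] at h1
      have h4 := ha t
      have h5 := hb t
      obtain ⟨c, hc⟩ := h1
      have h6 : c = 0 := by
        by_contra h7
        rcases lt_or_gt_of_ne h7 with h8 | h8
        · have : (p : ℤ) * c ≤ p * (-1) := mul_le_mul_of_nonneg_left (by omega) (by omega)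
          omega
        · have : (p : ℤ) * 1 ≤ p * c := mul_le_mul_of_nonneg_left (by omega) (by omega)
          omega
      rw [h6] at hc
      omega
    constructor
    · intro h j h1 h2
      have hab := hstep h
      rcases Nat.lt_succ_iff_lt_or_eq.mp h2 with h3 | h3
      · refine (ih htr.le).mp ?_ j h1 h3
        rw [key, hab] at h
        simpa using h
      · rw [h3]; exact hab
    · intro h
      rw [key, h t hkt (Nat.lt_succ_self t)]
      simp only [sub_self, zpow_zero, mul_one]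
      exact (ih htr.le).mpr (fun j h1 h2 => h j h1 (Nat.lt_succ_of_lt h2))

theorem dig_spec (hf : Chain p r f) (hp : p.Prime) {h : G} (hh : h ∈ Sp f r) :
    (∀ j, dig p r f h j < p) ∧ (∀ j, r ≤ j → dig p r f h j = 0) ∧ h = nf f (dig p r f h) r := by
  have H : ∃ a : ℕ → ℕ, (∀ j, a j < p) ∧ (∀ j, r ≤ j → a j = 0) ∧ h = nf f a r :=
    ChainF.exists_nf hf hp le_rfl hh
  unfold dig
  rw [dif_pos H]
  exact Classical.choose_spec H

theorem dig_nf (hf : Chain p r f) (hp : p.Prime) (a : ℕ → ℕ) (ha : ∀ j, a j < p) (j : ℕ)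
    (hj : j < r) : dig p r f (nf f a r) j = a j := by
  obtain ⟨h1, h2, h3⟩ := ChainF.dig_spec hf hp (nf_mem f a r)
  have h4 := (ChainF.nf_coset hf hp a (dig p r f (nf f a r)) ha h1 (Nat.zero_le r) le_rfl).mp
    (by rw [← h3]; simp)
  exact (h4 j (Nat.zero_le j) hj).symm

theorem mem_Sp_iff (hf : Chain p r f) (hp : p.Prime) {h : G} (hh : h ∈ Sp f r) {k : ℕ}
    (hk : k ≤ r) : h ∈ Sp f k ↔ ∀ j, k ≤ j → dig p r f h j = 0 := by
  obtain ⟨h1, h2, h3⟩ := ChainF.dig_spec hf hp hh
  constructor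
  · intro hm
    have h4 := (ChainF.nf_coset hf hp (fun _ => 0) (dig p r f h) (fun _ => hp.pos) h1 hk le_rfl).mp (by
      rw [← h3]
      refine Subgroup.mul_mem _ (Subgroup.inv_mem _ ?_) hm
      rw [nf_eq_of_zero f (fun _ => 0) (Nat.zero_le r) (fun _ _ _ => rfl)]
      exact Subgroup.one_mem _)
    intro j hj
    rcases lt_or_ge j r with h5 | h5
    · exact (h4 j hj h5).symm
    · exact h2 j h5
  · intro hz
    rw [h3, nf_eq_of_zero f _ hk (fun j h4 _ => hz j h4)]
    exact nf_mem f _ k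

theorem pair_mem {G' : Type*} [Group G'] {f' : ℕ → G'} (hf : Chain p r f) (hf' : Chain p r f')
    (hp : p.Prime) {h : G} {h' : G'} {k : ℕ} (hk : k ≤ r) (hh : h ∈ Sp f k) (hh' : h' ∈ Sp f' k)
    (heq : ∀ j, j < k → dig p r f h j = dig p r f' h' j) :
    (h, h') ∈ Sp (fun i => (f i, f' i)) k := by
  have a1 := ChainF.dig_spec hf hp (Sp_mono f hk hh)
  have a2 := ChainF.dig_spec hf' hp (Sp_mono f' hk hh')
  have b1 := (ChainF.mem_Sp_iff hf hp (Sp_mono f hk hh) hk).mp hh
  have b2 := (ChainF.mem_Sp_iff hf' hp (Sp_mono f' hk hh') hk).mp hh'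
  have e1 : h = nf f (dig p r f h) k := by
    conv_lhs => rw [a1.2.2]
    exact nf_eq_of_zero f _ hk (fun j h4 _ => b1 j h4)
  have e2 : h' = nf f' (dig p r f h) k := by
    conv_lhs => rw [a2.2.2]
    rw [nf_eq_of_zero f' _ hk (fun j h4 _ => b2 j h4)]
    exact nf_congr f' _ _ k (fun j hj => (heq j hj).symm)
  have : (h, h') = nf (fun i => (f i, f' i)) (dig p r f h) k := by
    rw [nf_pair, ← e1, ← e2]
  rw [this]
  exact nf_mem _ _ k

end ChainF

section Qsub
variable {H : Type*} [Group H]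

/-- Elements normalising `E` and commuting with `c` modulo `E`. -/
def Qsub (E : Subgroup H) (c : H) : Subgroup H where
  carrier := {d | d ∈ Subgroup.normalizer (E : Set H) ∧ ⁅d, c⁆ ∈ E}
  one_mem' := ⟨Subgroup.one_mem _, by simp⟩
  mul_mem' := by
    rintro a b ⟨ha1, ha2⟩ ⟨hb1, hb2⟩
    refine ⟨Subgroup.mul_mem _ ha1 hb1, ?_⟩
    have h1 : ⁅a * b, c⁆ = (a * ⁅b, c⁆ * a⁻¹) * ⁅a, c⁆ := by
      simp only [commutatorElement_def]; group
    rw [h1]
    exact Subgroup.mul_mem _ ((Subgroup.mem_normalizer_iff.mp ha1 _).mp hb2) ha2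
  inv_mem' := by
    rintro a ⟨ha1, ha2⟩
    refine ⟨Subgroup.inv_mem _ ha1, ?_⟩
    have h1 : ⁅a⁻¹, c⁆ = a⁻¹ * ⁅a, c⁆⁻¹ * a := by
      simp only [commutatorElement_def]; group
    rw [h1]
    exact ((Subgroup.mem_normalizer_iff''.mp ha1) _).mp (Subgroup.inv_mem _ ha2)

theorem mem_Qsub {E : Subgroup H} {c d : H} :
    d ∈ Qsub E c ↔ d ∈ Subgroup.normalizer (E : Set H) ∧ ⁅d, c⁆ ∈ E := Iff.rfl

theorem comm_inv_mem {E : Subgroup H} {a b : H} (h : ⁅a, b⁆ ∈ E) : ⁅b, a⁆ ∈ E := by
  rw [← commutatorElement_inv]; exact Subgroup.inv_mem _ h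

/-- If `c` normalises `E` then `E ≤ Qsub E c`. -/
theorem mem_Qsub_of_mem {E : Subgroup H} {c d : H} (hd : d ∈ E)
    (hc : c ∈ Subgroup.normalizer (E : Set H)) : d ∈ Qsub E c := by
  refine ⟨Subgroup.le_normalizer hd, ?_⟩
  have h1 : ⁅d, c⁆ = d * (c * d⁻¹ * c⁻¹) := by
    simp only [commutatorElement_def]; group
  rw [h1]
  exact Subgroup.mul_mem _ hd ((Subgroup.mem_normalizer_iff.mp hc _).mp (Subgroup.inv_mem _ hd))

theorem nf_mem_iff (f : ℕ → H) (U : Subgroup H) (a : ℕ → ℕ) {k t : ℕ} (hkt : k + 1 ≤ t)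
    (h0 : ∀ j, j < k → a j = 0) (h1 : a k = 1) (hl : ∀ l, k < l → l < t → f l ∈ U) :
    nf f a t ∈ U ↔ f k ∈ U := by
  induction t, hkt using Nat.le_induction with
  | base =>
    simp only [nf]
    rw [h1, pow_one, nf_eq_of_zero f a (Nat.zero_le k) (fun j _ hj => h0 j hj)]
    simp [nf]
  | succ t hkt ih =>
    simp only [nf]
    rw [Subgroup.mul_mem_cancel_left _ (Subgroup.pow_mem _ (hl t (by omega) (by omega)) _)]
    exact ih (fun l h2 h3 => hl l h2 (by omega))

end Qsub

theorem mul_pow_mem {H : Type*} [Group H] {E : Subgroup H} {e b : H} (he : e ∈ E)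
    (hb : b ∈ Subgroup.normalizer (E : Set H)) (n : ℕ) :
    ∃ y ∈ E, (e * b) ^ n = y * b ^ n := by
  induction n with
  | zero => exact ⟨1, Subgroup.one_mem _, by simp⟩
  | succ n ih =>
    obtain ⟨y, hy, hyn⟩ := ih
    refine ⟨y * (b ^ n * e * (b ^ n)⁻¹), Subgroup.mul_mem _ hy
      ((Subgroup.mem_normalizer_iff.mp (Subgroup.pow_mem _ hb n) _).mp he), ?_⟩
    rw [pow_succ, hyn, pow_succ]
    group

section main
variable {p m r : ℕ} [hp : Fact p.Prime] {σ : Skel0 m r} {G G' : Type} [Group G] [Group G']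
  {x : Fin m → G} {x' : Fin m → G'} (D : Deco0 p m r σ G x) (D' : Deco0 p m r σ G' x')

/-- paired `f` -/
def eP (k : ℕ) : G × G' := (D.f k, D'.f k)
/-- paired `x` -/
def xP (_ : Deco0 p m r σ G x) (_ : Deco0 p m r σ G' x') (i : Fin m) : G × G' := (x i, x' i)

/-- `E_k` -/
abbrev EE (k : ℕ) : Subgroup (G × G') := Sp (eP D D') k

/-- the subgroup `D` of the paper -/
def Dg : Subgroup (G × G') :=
  Subgroup.closure (xP D D' '' (σ.Y : Set (Fin m)) ∪ {y | ∃ k ∈ σ.K, y = eP D D' k})

omit G' [Group G'] in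
theorem finite_of_deco' (D : Deco0 p m r σ G x) : Finite G := by
  apply Nat.finite_of_card_ne_zero
  rw [D.cardG]
  exact pow_ne_zero _ hp.out.ne_zero

theorem cand_pair (t : (Fin m ⊕ Fin r) × Option (Fin m ⊕ Fin r)) :
    cand p (xP D D') (eP D D') t = (cand p x D.f t, cand p x' D'.f t) := by
  have hs : ∀ g : Fin m ⊕ Fin r, sym (xP D D') (eP D D') g = (sym x D.f g, sym x' D'.f g) := by
    intro g; cases g <;> rfl
  rcases t with ⟨a, _ | b⟩
  · simp only [cand, hs]; rfl
  · simp only [cand, hs]; rfl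

variable {D D'}

theorem pairE (hD : Chain p r D.f) (hD' : Chain p r D'.f) {h : G} {h' : G'} {k : ℕ} (hk : k ≤ r)
    (hh : h ∈ Sp D.f k) (hh' : h' ∈ Sp D'.f k)
    (heq : ∀ j, j < k → dig p r D.f h j = dig p r D'.f h' j) : (h, h') ∈ EE D D' k :=
  ChainF.pair_mem hD hD' hp.out hk hh hh' heq

theorem step1 (h : SameDigits0 D D') (k : Fin r) : eP D D' k ∈ Dg D D' := by
  obtain ⟨n, hn⟩ : ∃ n, r - (k : ℕ) = n := ⟨_, rfl⟩
  induction n using Nat.strong_induction_on generalizing k with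
  | _ n ih =>
    by_cases hkK : k ∈ σ.K
    · exact Subgroup.subset_closure (Or.inr ⟨k, hkK, rfl⟩)
    have ih' : ∀ l : ℕ, (k : ℕ) < l → l < r → eP D D' l ∈ Dg D D' := by
      intro l h1 h2
      exact ih (r - l) (by omega) ⟨l, h2⟩ rfl
    obtain ⟨a, ha1, ha2, ha3, ha4⟩ := D.d7 k hkK
    obtain ⟨b, hb1, hb2, hb3, hb4⟩ := D'.d7 k hkK
    have hab : ∀ j, j < r → a j = b j := by
      intro j hj
      have h1 := congrFun (h.g k hkK) j
      rw [ha4, hb4, ChainF.dig_nf D.chain hp.out a ha1 j hj, ChainF.dig_nf D'.chain hp.out b hb1 j hj] at h1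
      exact h1
    have hc : cand p (xP D D') (eP D D') (σ.τ k) = nf (eP D D') a r := by
      rw [cand_pair, ha4, hb4, nf_congr D'.f b a r (fun j hj => (hab j hj).symm)]
      exact (nf_pair D.f D'.f a r).symm
    obtain ⟨ok1, ok2⟩ := D.d7_ok k hkK
    have hs : ∀ g : Fin m ⊕ Fin r, okSym σ.Y k g →
        sym (xP D D') (eP D D') g ∈ Dg D D' := by
      intro g hg
      cases g with
      | inl i => exact Subgroup.subset_closure (Or.inl ⟨i, hg, rfl⟩)
      | inr l => exact ih' l hg l.2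
    have hmem : cand p (xP D D') (eP D D') (σ.τ k) ∈ Dg D D' := by
      rcases hτ : σ.τ k with ⟨g1, _ | g2⟩
      · rw [hτ] at ok1
        exact Subgroup.pow_mem _ (hs _ ok1) _
      · rw [hτ] at ok1 ok2
        have h1 := hs _ ok1
        have h2 := hs _ (ok2 _ rfl)
        simp only [cand, commutatorElement_def]
        exact Subgroup.mul_mem _ (Subgroup.mul_mem _ (Subgroup.mul_mem _ h1 h2)
          (Subgroup.inv_mem _ h1)) (Subgroup.inv_mem _ h2)
    rw [hc] at hmem
    exact (nf_mem_iff (eP D D') (Dg D D') a (Nat.succ_le_of_lt k.2) ha3 ha2 ih').mp hmem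

theorem e_comm (l : Fin r) (hl : l ∈ σ.K) (z : G × G') : Commute (eP D D' l) z := by
  have h1 := Subgroup.mem_center_iff.mp (D.cen l hl) z.1
  have h2 := Subgroup.mem_center_iff.mp (D'.cen l hl) z.2
  exact Prod.ext h1.symm h2.symm

/-- Step 3: `D` normalises every `E_k`. -/
theorem step3 (h : SameDigits0 D D') (k : ℕ) (hk : k ≤ r) :
    Dg D D' ≤ Subgroup.normalizer (EE D D' k : Set (G × G')) := by
  haveI := finite_of_deco' D
  haveI := finite_of_deco' D'
  induction k with
  | zero =>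
    have : EE D D' 0 = ⊥ := Sp_zero _
    rw [this]
    intro x _
    rw [Subgroup.mem_normalizer_iff]
    intro y
    simp only [Subgroup.mem_bot]
    constructor
    · rintro rfl; simp
    · intro hy
      have : y = x⁻¹ * (x * y * x⁻¹) * x := by group
      rw [this, hy]; simp
  | succ k ih =>
    have hkr : k < r := hk
    have ih := ih hkr.le
    set kf : Fin r := ⟨k, hkr⟩ with hkf
    have hek : eP D D' k ∈ Dg D D' := step1 h kf
    have hekn := ih hek
    -- `Dg ≤ Qsub`
    have key : Dg D D' ≤ Qsub (EE D D' k) (eP D D' k) := by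
      conv_lhs => unfold Dg
      rw [Subgroup.closure_le]
      rintro y (⟨i, hi, rfl⟩ | ⟨l, hlK, rfl⟩)
      · have hiD : xP D D' i ∈ Dg D D' := Subgroup.subset_closure (Or.inl ⟨i, hi, rfl⟩)
        refine ⟨ih hiD, comm_inv_mem ?_⟩
        by_cases hkK : kf ∈ σ.K
        · have h1 : ⁅eP D D' k, xP D D' i⁆ = 1 :=
            commutatorElement_eq_one_iff_commute.mpr (e_comm kf hkK _)
          rw [h1]; exact Subgroup.one_mem _
        · exact pairE D.chain D'.chain hkr.le (D.chain.central k hkr _)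
            (D'.chain.central k hkr _) (fun j _ => congrFun (h.b i hi kf hkK) j)
      · have hlD : eP D D' l ∈ Dg D D' := Subgroup.subset_closure (Or.inr ⟨l, hlK, rfl⟩)
        have h1 : ⁅eP D D' l, eP D D' k⁆ = 1 :=
          commutatorElement_eq_one_iff_commute.mpr (e_comm l hlK _)
        refine ⟨ih hlD, ?_⟩
        rw [h1]; exact Subgroup.one_mem _
    intro δ hδ
    obtain ⟨hδ1, hδ2⟩ := key hδ
    apply Subgroup.mem_normalizer_fintype
    intro n hn
    have hn' : n ∈ Sp (eP D D') (k + 1) := hn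
    rw [Sp_succ] at hn'
    refine Subgroup.closure_induction (p := fun y _ => δ * y * δ⁻¹ ∈ EE D D' (k + 1))
      ?_ ?_ ?_ ?_ hn
    · rintro y ⟨j, hj, rfl⟩
      rcases Nat.lt_succ_iff_lt_or_eq.mp hj with hjk | hjk
      · exact Sp_mono _ (Nat.le_succ k)
          ((Subgroup.mem_normalizer_iff.mp hδ1 _).mp (mem_Sp_of_lt _ hjk))
      · have : δ * eP D D' j * δ⁻¹ = ⁅δ, eP D D' k⁆ * eP D D' k := by
          rw [hjk, commutatorElement_def]; group
        rw [this]
        exact Subgroup.mul_mem _ (Sp_mono _ (Nat.le_succ k) hδ2)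
          (mem_Sp_of_lt _ (Nat.lt_succ_self k))
    · simp
    · intro x y _ _ hx hy
      have : δ * (x * y) * δ⁻¹ = (δ * x * δ⁻¹) * (δ * y * δ⁻¹) := by group
      rw [this]; exact Subgroup.mul_mem _ hx hy
    · intro x _ hx
      have : δ * x⁻¹ * δ⁻¹ = (δ * x * δ⁻¹)⁻¹ := by group
      rw [this]; exact Subgroup.inv_mem _ hx

theorem Sp_le_Dg (h : SameDigits0 D D') : EE D D' r ≤ Dg D D' := by
  refine (Subgroup.closure_le _).mpr ?_
  rintro y ⟨k, hk, rfl⟩
  exact step1 h ⟨k, hk⟩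

theorem map_fst_Sp (k : ℕ) : (EE D D' k).map (MonoidHom.fst G G') = Sp D.f k := by
  change (Subgroup.closure _).map _ = Subgroup.closure _
  rw [MonoidHom.map_closure, ← Set.image_comp]
  rfl

theorem map_snd_Sp (k : ℕ) : (EE D D' k).map (MonoidHom.snd G G') = Sp D'.f k := by
  change (Subgroup.closure _).map _ = Subgroup.closure _
  rw [MonoidHom.map_closure, ← Set.image_comp]
  rfl

/-- Order of `E_k`. -/
theorem card_EE (h : SameDigits0 D D') (k : ℕ) (hk : k ≤ r) : Nat.card (EE D D' k) = p ^ k := by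
  haveI := finite_of_deco' D
  haveI := finite_of_deco' D'
  apply le_antisymm
  · induction k with
    | zero =>
      have : EE D D' 0 = ⊥ := Sp_zero _
      rw [this]; simp
    | succ k ih =>
      have hkr : k < r := hk
      have h1 : EE D D' (k + 1) = Subgroup.closure ((fun _ : Unit => eP D D' k) ''
          ((({()} : Finset Unit)) : Set Unit)) ⊔ EE D D' k := by
        have : EE D D' (k + 1) = _ := Sp_succ (eP D D') k
        rw [this]; simp
      rw [h1]
      have hD := step1 h ⟨k, hkr⟩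
      refine (card_closure_sup_le hp.out.pos (EE D D' k) (fun _ : Unit => eP D D' k) {()}
        ?_ ?_ ?_).trans ?_
      · intro _ _ y hy
        exact (Subgroup.mem_normalizer_iff.mp (step3 h k hkr.le hD) _).mp hy
      · intro _ _
        by_cases hK : (⟨k, hkr⟩ : Fin r) ∈ σ.K'
        · have h2 : eP D D' k ^ p = 1 := Prod.ext (D.pw _ hK) (D'.pw _ hK)
          rw [h2]; exact Subgroup.one_mem _
        · exact pairE D.chain D'.chain hkr.le (ChainF.pow_mem D.chain hp.out hkr)
            (ChainF.pow_mem D'.chain hp.out hkr) (fun j _ => congrFun (h.a ⟨k, hkr⟩ hK) j)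
      · intro _ _ _ _; simp
      · simp only [Finset.card_singleton, pow_one]
        rw [pow_succ, mul_comm (p ^ k)]
        exact Nat.mul_le_mul_left _ (ih hkr.le)
  · rw [← D.chain.card k hk, ← map_fst_Sp (D := D) (D' := D') k]
    exact Nat.card_le_card_of_surjective (fun y : EE D D' k =>
      (⟨MonoidHom.fst G G' y, Subgroup.mem_map_of_mem _ y.2⟩ :
        (EE D D' k).map (MonoidHom.fst G G'))) (by
        rintro ⟨y, z, hz, rfl⟩
        exact ⟨⟨z, hz⟩, rfl⟩)

theorem comm_xx_mem (h : SameDigits0 D D') {i j : Fin m} (hY : i ∈ σ.Y ∨ j ∈ σ.Y) :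
    ⁅xP D D' i, xP D D' j⁆ ∈ EE D D' r := by
  rcases lt_trichotomy i j with hij | hij | hij
  · exact pairE D.chain D'.chain le_rfl (D.comm_mem i j) (D'.comm_mem i j)
      (fun k _ => congrFun (h.f1 i j hij hY) k)
  · rw [hij]; simp
  · apply comm_inv_mem
    exact pairE D.chain D'.chain le_rfl (D.comm_mem j i) (D'.comm_mem j i)
      (fun k _ => congrFun (h.f1 j i hij hY.symm) k)

theorem pow_x_mem (h : SameDigits0 D D') (i : Fin m) : xP D D' i ^ p ∈ EE D D' r :=
  pairE D.chain D'.chain le_rfl (D.pow_mem i) (D'.pow_mem i) (fun k _ => congrFun (h.e i) k)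

/-- Order of the subgroup generated by `Sp f r` and some of the `x i`. -/
theorem card_L (D : Deco0 p m r σ G x) (S : Finset (Fin m)) :
    p ^ (S.card + r) ≤
      Nat.card (Subgroup.closure (x '' (S : Set (Fin m))) ⊔ Sp D.f r : Subgroup G) := by
  haveI := finite_of_deco' D
  set L := (Subgroup.closure (x '' (S : Set (Fin m))) ⊔ Sp D.f r : Subgroup G) with hL
  have hFL : Sp D.f r ≤ L := le_sup_right
  haveI hn : (Sp D.f r).Normal := ChainF.normal D.chain le_rfl
  have hc : ∀ i j, ⁅x i, x j⁆ ∈ L := fun i j => hFL (D.comm_mem i j)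
  have h1 := card_closure_sup_le hp.out.pos L x (Sᶜ) (by
      intro i _ y hy
      rw [hL, Subgroup.sup_eq_closure_mul] at hy
      refine Subgroup.closure_induction (p := fun y _ => x i * y * (x i)⁻¹ ∈ L)
        ?_ ?_ ?_ ?_ hy
      · rintro y ⟨a, ha, b, hb, rfl⟩
        have : x i * (a * b) * (x i)⁻¹ = (x i * a * (x i)⁻¹) * (x i * b * (x i)⁻¹) := by
          group
        change x i * (a * b) * (x i)⁻¹ ∈ L
        rw [this]
        refine Subgroup.mul_mem _ ?_ (hFL (hn.conj_mem b hb _))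
        refine Subgroup.closure_induction (p := fun y _ => x i * y * (x i)⁻¹ ∈ L)
          ?_ ?_ ?_ ?_ ha
        · rintro _ ⟨j, hj, rfl⟩
          have : x i * x j * (x i)⁻¹ = ⁅x i, x j⁆ * x j := by
            rw [commutatorElement_def]; group
          rw [this]
          refine Subgroup.mul_mem _ (hc i j) ?_
          exact le_sup_left (a := Subgroup.closure (x '' (S : Set (Fin m))))
            (Subgroup.subset_closure ⟨j, hj, rfl⟩)
        · simp
        · intro u v _ _ hu hv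
          have : x i * (u * v) * (x i)⁻¹ = (x i * u * (x i)⁻¹) * (x i * v * (x i)⁻¹) := by
            group
          rw [this]; exact Subgroup.mul_mem _ hu hv
        · intro u _ hu
          have : x i * u⁻¹ * (x i)⁻¹ = (x i * u * (x i)⁻¹)⁻¹ := by group
          rw [this]; exact Subgroup.inv_mem _ hu
      · simp
      · intro u v _ _ hu hv
        have : x i * (u * v) * (x i)⁻¹ = (x i * u * (x i)⁻¹) * (x i * v * (x i)⁻¹) := by
          group
        rw [this]; exact Subgroup.mul_mem _ hu hv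
      · intro u _ hu
        have : x i * u⁻¹ * (x i)⁻¹ = (x i * u * (x i)⁻¹)⁻¹ := by group
        rw [this]; exact Subgroup.inv_mem _ hu)
    (fun i _ => hFL (D.pow_mem i)) (fun i _ j _ => hc i j)
  have h2 : (Subgroup.closure (x '' ((Sᶜ : Finset (Fin m)) : Set (Fin m))) ⊔ L : Subgroup G) = ⊤ := by
    rw [eq_top_iff, ← D.gen]
    refine sup_le ?_ (hFL.trans le_sup_right)
    rw [Subgroup.closure_le]
    rintro _ ⟨i, rfl⟩
    by_cases hi : i ∈ S
    · exact (le_sup_left.trans le_sup_right : Subgroup.closure (x '' (S : Set (Fin m))) ≤ _)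
        (Subgroup.subset_closure ⟨i, hi, rfl⟩)
    · exact (le_sup_left : Subgroup.closure (x '' ((Sᶜ : Finset (Fin m)) : Set (Fin m))) ≤ _)
        (Subgroup.subset_closure ⟨i, by simpa using hi, rfl⟩)
  rw [h2, Subgroup.card_top, D.cardG, Finset.card_compl, Fintype.card_fin] at h1
  have hSm : S.card ≤ m := by simpa using Finset.card_le_univ S
  have h3 : p ^ (m + r) = p ^ (m - S.card) * p ^ (S.card + r) := by
    rw [← pow_add]; congr 1; omega
  rw [h3] at h1
  exact Nat.le_of_mul_le_mul_left h1 (pow_pos hp.out.pos _)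

/-- The group `⟨X_i (i ∈ S)⟩ E`. -/
def LX (D : Deco0 p m r σ G x) (D' : Deco0 p m r σ G' x') (S : Finset (Fin m)) : Subgroup (G × G') :=
  Subgroup.closure (xP D D' '' (S : Set (Fin m))) ⊔ EE D D' r

theorem map_fst_LX (S : Finset (Fin m)) : (LX D D' S).map (MonoidHom.fst G G') =
    Subgroup.closure (x '' (S : Set (Fin m))) ⊔ Sp D.f r := by
  rw [LX, Subgroup.map_sup, map_fst_Sp, MonoidHom.map_closure, ← Set.image_comp]
  rfl

/-- If `S` consists of indices whose `X` normalise `E` and commute modulo `E`, then `fst` is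
injective on `LX S`. -/
theorem fst_inj_LX (h : SameDigits0 D D') (S : Finset (Fin m))
    (hn : ∀ i ∈ S, xP D D' i ∈ Subgroup.normalizer (EE D D' r : Set (G × G')))
    (hc : ∀ i ∈ S, ∀ j ∈ S, ⁅xP D D' i, xP D D' j⁆ ∈ EE D D' r) :
    Nat.card (LX D D' S) = p ^ (S.card + r) ∧
      ∀ y ∈ LX D D' S, ∀ z ∈ LX D D' S, y.1 = z.1 → y = z := by
  haveI := finite_of_deco' D
  haveI := finite_of_deco' D'
  have h1 : Nat.card (LX D D' S) ≤ p ^ (S.card + r) := by
    refine (card_closure_sup_le hp.out.pos (EE D D' r) (xP D D') S ?_ ?_ hc).trans ?_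
    · intro i hi y hy
      exact (Subgroup.mem_normalizer_iff.mp (hn i hi) _).mp hy
    · intro i _; exact pow_x_mem h i
    · rw [card_EE h r le_rfl, pow_add]
  have hsurj : Function.Surjective (fun y : LX D D' S =>
      (⟨MonoidHom.fst G G' y, Subgroup.mem_map_of_mem _ y.2⟩ :
        (LX D D' S).map (MonoidHom.fst G G'))) := by
    rintro ⟨y, z, hz, rfl⟩
    exact ⟨⟨z, hz⟩, rfl⟩
  have h2 : p ^ (S.card + r) ≤ Nat.card ((LX D D' S).map (MonoidHom.fst G G')) := by
    rw [map_fst_LX]; exact card_L D S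
  have h3 : Nat.card ((LX D D' S).map (MonoidHom.fst G G')) ≤ Nat.card (LX D D' S) :=
    Nat.card_le_card_of_surjective _ hsurj
  have h4 : Nat.card (LX D D' S) = p ^ (S.card + r) := le_antisymm h1 (h2.trans h3)
  refine ⟨h4, ?_⟩
  have hinj : Function.Injective (fun y : LX D D' S =>
      (⟨MonoidHom.fst G G' y, Subgroup.mem_map_of_mem _ y.2⟩ :
        (LX D D' S).map (MonoidHom.fst G G'))) := by
    have hcard : Nat.card (LX D D' S) = Nat.card ((LX D D' S).map (MonoidHom.fst G G')) :=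
      le_antisymm (h1.trans h2) h3
    exact ((Nat.bijective_iff_surjective_and_card _).mpr ⟨hsurj, hcard⟩).1
  intro y hy z hz hyz
  have := @hinj ⟨y, hy⟩ ⟨z, hz⟩ (Subtype.ext hyz)
  exact congrArg Subtype.val this

theorem xY_norm (h : SameDigits0 D D') (i : Fin m) (hi : i ∈ σ.Y) :
    xP D D' i ∈ Subgroup.normalizer (EE D D' r : Set (G × G')) :=
  step3 h r le_rfl (Subgroup.subset_closure (Or.inl ⟨i, hi, rfl⟩))

/-- `LX Y` is generated by `X_i (i ∈ Y)` and `e_k (k ∈ K)`. -/
theorem LX_eq (h : SameDigits0 D D') : LX D D' σ.Y =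
    Subgroup.closure (xP D D' '' (σ.Y : Set (Fin m)) ∪
        {y | ∃ k : Fin r, k ∈ σ.K ∧ y = eP D D' k}) := by
  haveI := finite_of_deco' D
  haveI := finite_of_deco' D'
  set M := Subgroup.closure (xP D D' '' (σ.Y : Set (Fin m)) ∪
        {y | ∃ k : Fin r, k ∈ σ.K ∧ y = eP D D' k}) with hM
  have hle : M ≤ LX D D' σ.Y := by
    rw [hM, Subgroup.closure_le]
    rintro y (⟨i, hi, rfl⟩ | ⟨k, _, rfl⟩)
    · exact (le_sup_left : Subgroup.closure (xP D D' '' (σ.Y : Set (Fin m))) ≤ _)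
        (Subgroup.subset_closure ⟨i, hi, rfl⟩)
    · exact (le_sup_right : EE D D' r ≤ LX D D' σ.Y) (mem_Sp_of_lt _ k.2)
  have hmap : (LX D D' σ.Y).map (MonoidHom.fst G G') ≤ M.map (MonoidHom.fst G G') := by
    rw [map_fst_LX, hM, MonoidHom.map_closure]
    have himg : (MonoidHom.fst G G') '' (xP D D' '' (σ.Y : Set (Fin m)) ∪
        {y | ∃ k : Fin r, k ∈ σ.K ∧ y = eP D D' k}) =
        x '' (σ.Y : Set (Fin m)) ∪
        {y | ∃ k : Fin r, k ∈ σ.K ∧ y = D.f k} := by
      ext y
      constructor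
      · rintro ⟨z, (⟨i, hi, rfl⟩ | ⟨k, hk, rfl⟩), rfl⟩
        · exact Or.inl ⟨i, hi, rfl⟩
        · exact Or.inr ⟨k, hk, rfl⟩
      · rintro (⟨i, hi, rfl⟩ | ⟨k, hk, rfl⟩)
        · exact ⟨_, Or.inl ⟨i, hi, rfl⟩, rfl⟩
        · exact ⟨_, Or.inr ⟨k, hk, rfl⟩, rfl⟩
    rw [himg]
    refine sup_le ?_ D.d6
    exact Subgroup.closure_mono Set.subset_union_left
  obtain ⟨_, hinj⟩ := fst_inj_LX h σ.Y (xY_norm h) (fun i hi j _ => comm_xx_mem h (Or.inl hi))
  apply le_antisymm _ hle
  intro y hy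
  obtain ⟨z, hz, hzy⟩ := hmap (Subgroup.mem_map_of_mem _ hy)
  rw [hinj y hy z (hle hz) hzy.symm]
  exact hz

/-- Step 4: every `X_j` normalises `E`. -/
theorem step4 (h : SameDigits0 D D') (j : Fin m) :
    xP D D' j ∈ Subgroup.normalizer (EE D D' r : Set (G × G')) := by
  haveI := finite_of_deco' D
  haveI := finite_of_deco' D'
  obtain ⟨_, hinj⟩ := fst_inj_LX h σ.Y (xY_norm h) (fun i hi j _ => comm_xx_mem h (Or.inl hi))
  have hE : EE D D' r ≤ LX D D' σ.Y := le_sup_right
  -- conjugation maps `LX Y` into itself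
  have hconj : ∀ y ∈ LX D D' σ.Y, xP D D' j * y * (xP D D' j)⁻¹ ∈ LX D D' σ.Y := by
    intro y hy
    rw [LX_eq h] at hy
    refine Subgroup.closure_induction
      (p := fun y _ => xP D D' j * y * (xP D D' j)⁻¹ ∈ LX D D' σ.Y) ?_ ?_ ?_ ?_ hy
    · rintro y (⟨i, hi, rfl⟩ | ⟨k, hk, rfl⟩)
      · have : xP D D' j * xP D D' i * (xP D D' j)⁻¹ = ⁅xP D D' j, xP D D' i⁆ * xP D D' i := by
          rw [commutatorElement_def]; group
        rw [this]
        exact Subgroup.mul_mem _ (hE (comm_xx_mem h (Or.inr hi)))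
          ((le_sup_left : Subgroup.closure (xP D D' '' (σ.Y : Set (Fin m))) ≤ _)
            (Subgroup.subset_closure ⟨i, hi, rfl⟩))
      · have : xP D D' j * eP D D' k * (xP D D' j)⁻¹ = eP D D' k := by
          rw [← (e_comm (D := D) (D' := D') k hk (xP D D' j)).eq]; group
        rw [this]
        exact hE (mem_Sp_of_lt _ k.2)
    · simp
    · intro x y _ _ hx hy
      have : xP D D' j * (x * y) * (xP D D' j)⁻¹ =
        (xP D D' j * x * (xP D D' j)⁻¹) * (xP D D' j * y * (xP D D' j)⁻¹) := by group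
      rw [this]; exact Subgroup.mul_mem _ hx hy
    · intro x _ hx
      have : xP D D' j * x⁻¹ * (xP D D' j)⁻¹ = (xP D D' j * x * (xP D D' j)⁻¹)⁻¹ := by group
      rw [this]; exact Subgroup.inv_mem _ hx
  apply Subgroup.mem_normalizer_fintype
  intro y hy
  have h1 := hconj y (hE hy)
  have h2 : (xP D D' j * y * (xP D D' j)⁻¹).1 ∈ Sp D.f r := by
    haveI hn : (Sp D.f r).Normal := ChainF.normal D.chain le_rfl
    have : y.1 ∈ Sp D.f r := by
      rw [← map_fst_Sp (D := D) (D' := D') r]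
      exact Subgroup.mem_map_of_mem _ hy
    exact hn.conj_mem _ this _
  rw [← map_fst_Sp (D := D) (D' := D') r] at h2
  obtain ⟨z, hz, hzy⟩ := h2
  have h3 := hinj z (hE hz) _ h1 hzy
  rw [← h3]
  exact hz

/-- Step 5. -/
theorem step5 (h : SameDigits0 D D') (i j : Fin m) : ⁅xP D D' i, xP D D' j⁆ ∈ EE D D' r := by
  haveI := finite_of_deco' D
  haveI := finite_of_deco' D'
  wlog hij : i < j generalizing i j
  · rcases lt_or_eq_of_le (not_lt.mp hij) with h1 | h1
    · exact comm_inv_mem (this j i h1)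
    · rw [h1]; simp
  by_cases hY : i ∈ σ.Y ∨ j ∈ σ.Y
  · exact comm_xx_mem h hY
  have hpr := hp.out
  set c := ⁅x i, x j⁆ with hc
  set c' := ⁅x' i, x' j⁆ with hc'
  have hcF : c ∈ Sp D.f r := D.comm_mem i j
  have hcF' : c' ∈ Sp D'.f r := D'.comm_mem i j
  obtain ⟨s1, s2, s3⟩ := ChainF.dig_spec D.chain hpr hcF
  obtain ⟨t1, t2, t3⟩ := ChainF.dig_spec D'.chain hpr hcF'
  set c'' := nf D'.f (dig p r D.f c) r with hc''
  have hE : (c, c'') ∈ EE D D' r := by
    have : (c, c'') = nf (eP D D') (dig p r D.f c) r := by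
      have h1 := nf_pair D.f D'.f (dig p r D.f c) r
      rw [← s3] at h1
      exact h1.symm
    rw [this]; exact nf_mem _ _ _
  set d := c''⁻¹ * c' with hd
  have hcomm : (c, c') = ⁅xP D D' i, xP D D' j⁆ := rfl
  obtain ⟨_, hinj⟩ := fst_inj_LX h σ.Y (xY_norm h) (fun i hi j _ => comm_xx_mem h (Or.inl hi))
  have hELX : EE D D' r ≤ LX D D' σ.Y := le_sup_right
  have hdY : ∀ l ∈ σ.Y, Commute d (x' l) := by
    intro l hl
    have hQi : xP D D' i ∈ Qsub (EE D D' r) (xP D D' l) := ⟨step4 h i, comm_xx_mem h (Or.inr hl)⟩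
    have hQj : xP D D' j ∈ Qsub (EE D D' r) (xP D D' l) := ⟨step4 h j, comm_xx_mem h (Or.inr hl)⟩
    have hQc : (c, c') ∈ Qsub (EE D D' r) (xP D D' l) := by
      rw [hcomm, commutatorElement_def]
      exact Subgroup.mul_mem _ (Subgroup.mul_mem _ (Subgroup.mul_mem _ hQi hQj)
        (Subgroup.inv_mem _ hQi)) (Subgroup.inv_mem _ hQj)
    have hQc'' : (c, c'') ∈ Qsub (EE D D' r) (xP D D' l) := mem_Qsub_of_mem hE (step4 h l)
    have hQd := Subgroup.mul_mem _ (Subgroup.inv_mem _ hQc'') hQc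
    have h1 := hQd.2
    have h2 : (⁅(c, c'')⁻¹ * (c, c'), xP D D' l⁆ : G × G') = (1, ⁅d, x' l⁆) := by
      apply Prod.ext
      · change ⁅c⁻¹ * c, x l⁆ = 1
        rw [inv_mul_cancel]; simp
      · rfl
    rw [h2] at h1
    have h3 := hinj _ (hELX h1) 1 (Subgroup.one_mem _) rfl
    have h4 : ⁅d, x' l⁆ = 1 := congrArg Prod.snd h3
    exact commutatorElement_eq_one_iff_commute.mp h4
  have hdF : d ∈ Sp D'.f r := Subgroup.mul_mem _ (Subgroup.inv_mem _ (nf_mem _ _ _)) hcF'
  have hdcen : d ∈ Subgroup.center G' := D'.d4c d hdF hdY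
  have hdp : d ^ p = 1 := by
    have hA := step4 h i
    have hB := step4 h j
    have hBp : xP D D' j ^ p ∈ EE D D' r := pow_x_mem h j
    have h1 : xP D D' i * xP D D' j ^ p * (xP D D' i)⁻¹ ∈ EE D D' r :=
      (Subgroup.mem_normalizer_iff.mp hA _).mp hBp
    have hcenP : ∀ z : G × G', Commute ((1, d) : G × G') z := by
      intro z
      have h2 := Subgroup.mem_center_iff.mp hdcen z.2
      exact Prod.ext (by simp) h2.symm
    have h3 : xP D D' i * xP D D' j * (xP D D' i)⁻¹ =
        (1, d) * ((c, c'') * xP D D' j) := by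
      have e1 : xP D D' i * xP D D' j * (xP D D' i)⁻¹ = (c, c') * xP D D' j := by
        rw [hcomm, commutatorElement_def]; group
      have e2 : (c, c') = (1, d) * (c, c'') := by
        rw [(hcenP (c, c'')).eq]
        apply Prod.ext
        · change c = c * 1
          rw [mul_one]
        · change c' = c'' * d
          rw [hd, mul_inv_cancel_left]
      rw [e1, e2, mul_assoc]
    have h4 : xP D D' i * xP D D' j ^ p * (xP D D' i)⁻¹ =
        (1, d) ^ p * ((c, c'') * xP D D' j) ^ p := by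
      rw [← conj_pow, h3, (hcenP _).mul_pow]
    have h5 := mul_pow_mem hE hB p
    have h6 : ((c, c'') * xP D D' j) ^ p ∈ EE D D' r := by
      obtain ⟨y, hy, hyE⟩ := h5
      rw [hyE]
      exact Subgroup.mul_mem _ hy hBp
    have h7 : ((1, d) : G × G') ^ p ∈ EE D D' r := by
      have e3 : ((1, d) : G × G') ^ p = (xP D D' i * xP D D' j ^ p * (xP D D' i)⁻¹) *
          (((c, c'') * xP D D' j) ^ p)⁻¹ := by
        rw [h4, mul_assoc, mul_inv_cancel, mul_one]
      rw [e3]
      exact Subgroup.mul_mem _ h1 (Subgroup.inv_mem _ h6)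
    have h8 := hinj _ (hELX h7) 1 (Subgroup.one_mem _) (by
      change (1 : G) ^ p = 1
      exact one_pow p)
    exact congrArg Prod.snd h8
  -- `d = 1`
  have hd1 : ∀ k, k ≤ r → d ∈ Sp D'.f (r - k) := by
    intro k
    induction k with
    | zero => intro _; exact hdF
    | succ k ih =>
      intro hk
      have h1 := ih (by omega)
      by_contra hnot
      have hlt : r - (k + 1) < r := by omega
      have hsucc : r - (k + 1) + 1 = r - k := by omega
      have hK := D'.d4 ⟨r - (k + 1), hlt⟩ d (by rw [hsucc]; exact h1) hnot hdcen hdp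
      have hdig := h.f2 i j hij _ hK
      rw [← hc, ← hc'] at hdig
      apply hnot
      have e1 : d = (nf D'.f (dig p r D.f c) r)⁻¹ * nf D'.f (dig p r D'.f c') r := by
        rw [hd, hc'', ← t3]
      rw [e1, ChainF.nf_coset D'.chain hpr _ _ s1 t1 (by omega) le_rfl]
      intro q hq1 hq2
      rcases Nat.eq_or_lt_of_le hq1 with hq | hq
      · rw [← hq]; exact hdig
      · have h5 := h1
        rw [e1, ChainF.nf_coset D'.chain hpr _ _ s1 t1 (by omega) le_rfl] at h5
        exact h5 q (by omega) hq2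
  have hdone : d = 1 := by
    have := hd1 r le_rfl
    rw [Nat.sub_self, Sp_zero, Subgroup.mem_bot] at this
    exact this
  have hcc : c' = c'' := by
    rw [hd, inv_mul_eq_one] at hdone
    exact hdone.symm
  rw [← hcomm, hcc]
  exact hE

end main

theorem final {p m r : ℕ} [hp : Fact p.Prime] {σ : Skel0 m r} {G G' : Type} [Group G]
    [Group G'] {x : Fin m → G} {x' : Fin m → G'} (D : Deco0 p m r σ G x)
    (D' : Deco0 p m r σ G' x') (h : SameDigits0 D D') : ∃ φ : G ≃* G', ∀ i, φ (x i) = x' i := by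
  haveI := finite_of_deco' D
  haveI := finite_of_deco' D'
  obtain ⟨hcard, hinj⟩ := fst_inj_LX h Finset.univ (fun i _ => step4 h i)
    (fun i _ j _ => step5 h i j)
  set W := LX D D' Finset.univ with hW
  have hcardW : Nat.card W = p ^ (m + r) := by
    rw [hcard, Finset.card_univ, Fintype.card_fin]
  -- projections
  have hfst : W.map (MonoidHom.fst G G') = ⊤ := by
    rw [hW, map_fst_LX, Finset.coe_univ, Set.image_univ]; exact D.gen
  have hsnd : W.map (MonoidHom.snd G G') = ⊤ := by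
    rw [hW, LX, Subgroup.map_sup, map_snd_Sp, MonoidHom.map_closure, ← Set.image_comp]
    rw [Finset.coe_univ, Set.image_univ]
    exact D'.gen
  let φ : W →* G := (MonoidHom.fst G G').comp W.subtype
  let ψ : W →* G' := (MonoidHom.snd G G').comp W.subtype
  have hφs : Function.Surjective φ := by
    intro g
    have : g ∈ W.map (MonoidHom.fst G G') := by rw [hfst]; trivial
    obtain ⟨z, hz, rfl⟩ := this
    exact ⟨⟨z, hz⟩, rfl⟩
  have hψs : Function.Surjective ψ := by
    intro g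
    have : g ∈ W.map (MonoidHom.snd G G') := by rw [hsnd]; trivial
    obtain ⟨z, hz, rfl⟩ := this
    exact ⟨⟨z, hz⟩, rfl⟩
  have hφ : Function.Bijective φ :=
    (Nat.bijective_iff_surjective_and_card _).mpr ⟨hφs, by rw [hcardW, D.cardG]⟩
  have hψ : Function.Bijective ψ :=
    (Nat.bijective_iff_surjective_and_card _).mpr ⟨hψs, by rw [hcardW, D'.cardG]⟩
  refine ⟨(MulEquiv.ofBijective φ hφ).symm.trans (MulEquiv.ofBijective ψ hψ), fun i => ?_⟩
  have hmem : xP D D' i ∈ W := by
    rw [hW, LX]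
    exact (le_sup_left : Subgroup.closure (xP D D' '' ((Finset.univ : Finset (Fin m)) :
      Set (Fin m))) ≤ _) (Subgroup.subset_closure ⟨i, by simp, rfl⟩)
  have h1 : (MulEquiv.ofBijective φ hφ).symm (x i) = ⟨xP D D' i, hmem⟩ := by
    rw [MulEquiv.symm_apply_eq]
    rfl
  rw [MulEquiv.trans_apply, h1]
  rfl

end J_iso_of_sameDigits0

/-
PROOF OF THE TARGET.
Adapt the proof of iso_of_sameDigits (files ChainFacts.lean and Iso.lean on origin/main under Pool/Agent/Helper252_Enum/, 1000 lines together; copy what you need below BEGIN WORK, or import-free copy of ChainFacts). In G x G' put e_k = (f_k, f_k'), X_i = (x i, x' i), E_k = Sp e k,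
Dg = closure{X_i (i ∈ Y), e_l (l ∈ K)}. Step 1 as there: all e_k (k<r) are in Dg (downward induction with d7, field g). Step 3: Dg normalises E_k and |E_k| = p^k, by induction: ⁅e_k, δ⁆ ∈ E_k for the generators δ of Dg: if k ∈ K then e_k is central in G x G' (cen). If k ∉ K: δ = X_i (i ∈ Y): field b;
δ = e_l, l ∈ K: central. e_k^p ∈ E_k: k ∈ K': both p-th powers are 1 (pw); else field a (f_k^p ∈ Sp f k by Chain.pow_mem). Step 4: M = closure{X_i (i ∈ Y), e_k (k ∈ K)} = LX Y by the same counting argument (d6), every X_j normalises M (f1; e_k central for k ∈ K), so normalises E = E_r.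
Step 5: for i<j not meeting Y: c = ⁅x i,x j⁆, c' = ⁅x' i,x' j⁆, c'' := nf f' (dig c) r, (c,c'') ∈ E, d := c''⁻¹ c'. As there d commutes with x' l for l ∈ Y, so d is central in G' (d4c). NEW: d^p = 1: X_i X_j^p X_i⁻¹ ∈ E since X_j^p ∈ E (field e) and X_i normalises E;
X_i X_j X_i⁻¹ = ⁅X_i,X_j⁆ X_j = (c,c'') (1,d) X_j with (1,d) central in G x G', so X_i X_j^p X_i⁻¹ = (1,d)^p ((c,c'') X_j)^p, and ((c,c'') X_j)^p ∈ E (X_j normalises E, X_j^p ∈ E). So (1,d^p) ∈ E and by injectivity of fst on E d^p = 1. Then, if d ≠ 1, its level k is in K' (d4) and the digits at k of c and c' agree by f2,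
contradiction exactly as in Iso.lean (nf_coset). Step 6: LX univ = closure{X_i} ⊔ E has order p^(m+r) and projects isomorphically to G and G'; the resulting isomorphism φ satisfies φ (x i) = x' i because (x i, x' i) ∈ LX univ.
-/

/-- TARGET -/
theorem iso_of_sameDigits0 {p m r : ℕ} [Fact p.Prime] {σ : Skel0 m r} {G G' : Type} [Group G]
    [Group G'] {x : Fin m → G} {x' : Fin m → G'} (D : Deco0 p m r σ G x)
    (D' : Deco0 p m r σ G' x') (h : SameDigits0 D D') : ∃ φ : G ≃* G', ∀ i, φ (x i) = x' i := by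
  exact J_iso_of_sameDigits0.final D D' h

end Pool.Agent.Helper252_Enum
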