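import Pool.Agent.Helper252_Enum.Defs2

set_option autoImplicit false

open scoped commutatorElement

namespace Pool.Agent.Helper252_Enum

/-
PROOF OF THE TARGET.
As exists_code (N1_exists_code.lean on origin/main): define code G x D on the free indices, with values in Fin p:
 inl (k,j): dig p r D.f (D.f k ^ p) j;  inr inl (k,i,j): dig p r D.f ⁅D.f k, x i⁆ j;  inr inr inl (i,j): dig p r D.f (x i ^ p) j;  inr^3 inl (i,j,k): dig p r D.f ⁅x i, x j⁆ k;  inr^4 (k,j): dig p r D.f (cand p x D.f (σ.τ k)) j.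
dig .. j < p always and dig .. j = 0 for j >= r (by definition of dig), so equality of the values gives equality of the digits; each field of SameDigits0 reads off.
-/

namespace J_exists_code0

theorem dig_lt {G : Type*} [Group G] {p r : ℕ} (hp : 0 < p) (f : ℕ → G) (h : G) (j : ℕ) :
    dig p r f h j < p := by
  classical
  unfold dig
  split_ifs with H
  · exact (Classical.choose_spec H).1 j
  · exact hp

theorem dig_zero {G : Type*} [Group G] {p r : ℕ} (f : ℕ → G) (h : G) (j : ℕ) (hj : r ≤ j) :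
    dig p r f h j = 0 := by
  classical
  unfold dig
  split_ifs with H
  · exact (Classical.choose_spec H).2.1 j hj
  · rfl

/-- The natural number attached to an index. -/
noncomputable def val {p m r : ℕ} {σ : Skel0 m r} {G : Type} [Group G] {x : Fin m → G}
    (D : Deco0 p m r σ G x) : Idx0 m r → ℕ
  | Sum.inl (k, j) => dig p r D.f (D.f k ^ p) j
  | Sum.inr (Sum.inl (k, i, j)) => dig p r D.f ⁅D.f k, x i⁆ j
  | Sum.inr (Sum.inr (Sum.inl (i, j))) => dig p r D.f (x i ^ p) j
  | Sum.inr (Sum.inr (Sum.inr (Sum.inl (i, j, k)))) => dig p r D.f ⁅x i, x j⁆ k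
  | Sum.inr (Sum.inr (Sum.inr (Sum.inr (k, j)))) => dig p r D.f (cand p x D.f (σ.τ k)) j

theorem val_lt {p m r : ℕ} (hp : 0 < p) {σ : Skel0 m r} {G : Type} [Group G] {x : Fin m → G}
    (D : Deco0 p m r σ G x) (i : Idx0 m r) : val D i < p := by
  rcases i with ⟨k, j⟩ | ⟨k, i, j⟩ | ⟨i, j⟩ | ⟨i, j, k⟩ | ⟨k, j⟩
  · exact dig_lt hp _ _ _
  · exact dig_lt hp _ _ _
  · exact dig_lt hp _ _ _
  · exact dig_lt hp _ _ _
  · exact dig_lt hp _ _ _

theorem dig_ext {G G' : Type*} [Group G] [Group G'] {p r : ℕ} (f : ℕ → G) (h : G)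
    (f' : ℕ → G') (h' : G')
    (H : ∀ j : Fin r, dig p r f h j = dig p r f' h' j) : dig p r f h = dig p r f' h' := by
  funext j
  by_cases hj : j < r
  · exact H ⟨j, hj⟩
  · rw [dig_zero f h j (not_lt.mp hj), dig_zero f' h' j (not_lt.mp hj)]

end J_exists_code0

open J_exists_code0 in
/-- TARGET -/
theorem exists_code0 {p m r : ℕ} [Fact p.Prime] (σ : Skel0 m r) :
    ∃ code : ∀ (G : Type) [Group G] (x : Fin m → G), Deco0 p m r σ G x →
        ({i : Idx0 m r // free0 σ i} → Fin p),
      ∀ (G G' : Type) [Group G] [Group G'] (x : Fin m → G) (x' : Fin m → G')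
        (D : Deco0 p m r σ G x) (D' : Deco0 p m r σ G' x'),
        code G x D = code G' x' D' → SameDigits0 D D' := by
  have hp : 0 < p := (Fact.out : p.Prime).pos
  refine ⟨fun G _ x D i => ⟨val D i.1, val_lt hp D i.1⟩, ?_⟩
  intro G G' _ _ x x' D D' hc
  have key : ∀ i : Idx0 m r, free0 σ i → val D i = val D' i := by
    intro i hi
    have h1 := congrFun hc ⟨i, hi⟩
    exact congrArg Fin.val h1
  constructor
  · intro k hk
    exact dig_ext _ _ _ _ fun j => key (Sum.inl (k, j)) hk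
  · intro i hi k hk
    exact dig_ext _ _ _ _ fun j => key (Sum.inr (Sum.inl (k, i, j))) ⟨hk, hi⟩
  · intro i
    exact dig_ext _ _ _ _ fun j => key (Sum.inr (Sum.inr (Sum.inl (i, j)))) trivial
  · intro i j hij h
    refine dig_ext _ _ _ _ fun k =>
      key (Sum.inr (Sum.inr (Sum.inr (Sum.inl (i, j, k))))) ⟨hij, ?_⟩
    rcases h with h | h
    · exact Or.inl h
    · exact Or.inr (Or.inl h)
  · intro i j hij k hk
    exact key (Sum.inr (Sum.inr (Sum.inr (Sum.inl (i, j, k))))) ⟨hij, Or.inr (Or.inr hk)⟩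
  · intro k hk
    exact dig_ext _ _ _ _ fun j => key (Sum.inr (Sum.inr (Sum.inr (Sum.inr (k, j))))) hk

end Pool.Agent.Helper252_Enum
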