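import Pool.Agent.Helper252_Enum.Defs2

set_option autoImplicit false

open scoped commutatorElement

namespace Pool.Agent.Helper252_Enum

/-
PROOF OF THE TARGET.
As nfree_le (N2_nfree_le.lean on origin/main). Count the five summands of Idx0: (k,j), k ∉ K': (r - |K'|) r = R r. (k,i,j), k ∉ K, i ∈ Y: R₁ y r. (i,j): m r. (i,j,k), i<j, (i ∈ Y or j ∈ Y or k ∈ K'): the pairs i<j outside Y number (m-y)(m-y-1)/2 and contribute |K'| = r - R each, the others contribute r each:
r m(m-1)/2 - R (m-y)(m-y-1)/2. (k,j), k ∉ K: R₁ r.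
-/

namespace J_nfree0_le

open Classical in
/-- the indicator of a proposition -/
noncomputable def ind (P : Prop) : ℝ := if P then 1 else 0

theorem ind_pos {P : Prop} (h : P) : ind P = 1 := by
  unfold ind
  rw [if_pos h]

theorem ind_neg {P : Prop} (h : ¬ P) : ind P = 0 := by
  unfold ind
  rw [if_neg h]

theorem sum_ind {ι : Type} [Fintype ι] (P : ι → Prop) [DecidablePred P] :
    ∑ i, ind (P i) = ((Finset.univ.filter P).card : ℝ) := by
  rw [Finset.card_filter]
  push_cast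
  refine Finset.sum_congr rfl fun i _ => ?_
  by_cases h : P i
  · rw [ind_pos h, if_pos h]
  · rw [ind_neg h, if_neg h]

theorem sum_ind_mem {ι : Type} [Fintype ι] [DecidableEq ι] (A : Finset ι) :
    ∑ i, ind (i ∈ A) = (A.card : ℝ) := by
  rw [sum_ind, Finset.filter_univ_mem]

theorem sum_ind_notMem {r : ℕ} (A : Finset (Fin r)) :
    ∑ i, ind (i ∉ A) = (r : ℝ) - A.card := by
  have h1 : ∀ i : Fin r, ind (i ∉ A) = 1 - ind (i ∈ A) := by
    intro i
    by_cases hi : i ∈ A
    · rw [ind_neg (not_not.2 hi), ind_pos hi]; ring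
    · rw [ind_pos hi, ind_neg hi]; ring
  simp only [h1, Finset.sum_sub_distrib, sum_ind_mem]
  simp

theorem pairs {m : ℕ} (A : Finset (Fin m)) :
    ∑ i ∈ A, ∑ j ∈ A, ind (i < j) = (A.card : ℝ) * (A.card - 1) / 2 := by
  have h1 : ∑ i ∈ A, ∑ j ∈ A, ind (i < j) = ∑ i ∈ A, ∑ j ∈ A, ind (j < i) := Finset.sum_comm
  have h2 : ∑ i ∈ A, ∑ j ∈ A, (ind (i < j) + ind (j < i) + ind (i = j)) =
      (A.card : ℝ) * A.card := by
    have h3 : ∀ i j : Fin m, ind (i < j) + ind (j < i) + ind (i = j) = 1 := by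
      intro i j
      rcases lt_trichotomy i j with h | h | h
      · rw [ind_pos h, ind_neg (not_lt.2 h.le), ind_neg h.ne]; ring
      · rw [ind_pos h, ind_neg (not_lt.2 h.ge), ind_neg (not_lt.2 h.le)]; ring
      · rw [ind_pos h, ind_neg (not_lt.2 h.le), ind_neg h.ne']; ring
    simp only [h3, Finset.sum_const, nsmul_eq_mul, mul_one]
  have h4 : ∑ i ∈ A, ∑ j ∈ A, ind (i = j) = (A.card : ℝ) := by
    have h5 : ∀ i ∈ A, ∑ j ∈ A, ind (i = j) = 1 := by
      intro i hi
      rw [Finset.sum_eq_single i]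
      · exact ind_pos rfl
      · intro j _ hj
        exact ind_neg (fun h => hj h.symm)
      · intro h
        exact absurd hi h
    rw [Finset.sum_congr rfl h5, Finset.sum_const, nsmul_eq_mul, mul_one]
  simp only [Finset.sum_add_distrib] at h2
  rw [h4, ← h1] at h2
  linarith

theorem S6 {m r : ℕ} (σ : Skel0 m r) (y R : ℝ) (hy : y = σ.Y.card)
    (hR : R = r - (σ.K'.card : ℝ)) :
    ∑ i : Fin m, ∑ j : Fin m, ∑ k : Fin r, ind (i < j ∧ (i ∈ σ.Y ∨ j ∈ σ.Y ∨ k ∈ σ.K')) =
      r * (m * (m - 1) / 2) - R * ((m - y) * (m - y - 1) / 2) := by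
  classical
  have eK : ∑ k : Fin r, ind (k ∈ σ.K') = r - R := by
    rw [sum_ind_mem, hR]
    ring
  set A : Finset (Fin m) := Finset.univ.filter (fun i => i ∉ σ.Y) with hA
  have e1 : ∀ i j : Fin m, ∑ k : Fin r, ind (i < j ∧ (i ∈ σ.Y ∨ j ∈ σ.Y ∨ k ∈ σ.K')) =
      r * ind (i < j) - R * (if i ∉ σ.Y then (if j ∉ σ.Y then ind (i < j) else 0) else 0) := by
    intro i j
    by_cases hij : i < j
    · rw [ind_pos hij]
      by_cases hi : i ∈ σ.Y
      · have : ∀ k : Fin r, ind (i < j ∧ (i ∈ σ.Y ∨ j ∈ σ.Y ∨ k ∈ σ.K')) = 1 := fun k =>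
          ind_pos ⟨hij, Or.inl hi⟩
        simp only [this]
        rw [if_neg (not_not.2 hi)]
        simp
      · by_cases hj : j ∈ σ.Y
        · have : ∀ k : Fin r, ind (i < j ∧ (i ∈ σ.Y ∨ j ∈ σ.Y ∨ k ∈ σ.K')) = 1 := fun k =>
            ind_pos ⟨hij, Or.inr (Or.inl hj)⟩
          simp only [this]
          rw [if_pos hi, if_neg (not_not.2 hj)]
          simp
        · have : ∀ k : Fin r, ind (i < j ∧ (i ∈ σ.Y ∨ j ∈ σ.Y ∨ k ∈ σ.K')) = ind (k ∈ σ.K') := by
            intro k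
            by_cases hk : k ∈ σ.K'
            · rw [ind_pos hk, ind_pos ⟨hij, Or.inr (Or.inr hk)⟩]
            · rw [ind_neg hk, ind_neg]
              rintro ⟨_, h | h | h⟩
              · exact hi h
              · exact hj h
              · exact hk h
          simp only [this]
          rw [eK, if_pos hi, if_pos hj]
          ring
    · have : ∀ k : Fin r, ind (i < j ∧ (i ∈ σ.Y ∨ j ∈ σ.Y ∨ k ∈ σ.K')) = 0 := fun k =>
        ind_neg (fun h => hij h.1)
      simp only [this]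
      rw [ind_neg hij]
      simp
  simp only [e1]
  have e2 : ∑ i : Fin m, ∑ j : Fin m,
      (r * ind (i < j) - R * (if i ∉ σ.Y then (if j ∉ σ.Y then ind (i < j) else 0) else 0)) =
      r * (∑ i : Fin m, ∑ j : Fin m, ind (i < j)) - R * ∑ i ∈ A, ∑ j ∈ A, ind (i < j) := by
    simp only [Finset.sum_sub_distrib, ← Finset.mul_sum]
    congr 2
    rw [hA, Finset.sum_filter]
    refine Finset.sum_congr rfl fun i _ => ?_
    by_cases hi : i ∉ σ.Y
    · rw [if_pos hi, Finset.sum_filter]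
      refine Finset.sum_congr rfl fun j _ => ?_
      rw [if_pos hi]
    · rw [if_neg hi]
      refine Finset.sum_eq_zero fun j _ => ?_
      rw [if_neg hi]
  rw [e2, pairs Finset.univ, pairs A]
  have hAc : (A.card : ℝ) = m - y := by
    have h1 : A = σ.Yᶜ := by
      ext i
      simp [hA]
    rw [h1, Finset.card_compl, Fintype.card_fin, Nat.cast_sub (by
      have := Finset.card_le_univ σ.Y
      rwa [Fintype.card_fin] at this), hy]
  rw [hAc, Finset.card_univ, Fintype.card_fin]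

theorem nfree0_eq {m r : ℕ} (σ : Skel0 m r) :
    (nfree0 σ : ℝ) = ∑ i : Idx0 m r, ind (free0 σ i) := by
  classical
  unfold nfree0
  rw [Nat.card_eq_fintype_card, Fintype.card_subtype, sum_ind]

end J_nfree0_le

/-- TARGET -/
theorem nfree0_le {m r : ℕ} (σ : Skel0 m r) (y R R₁ : ℝ) (hy : y = σ.Y.card)
    (hR : R = r - (σ.K'.card : ℝ)) (hR₁ : R₁ = r - (σ.K.card : ℝ)) :
    (nfree0 σ : ℝ) ≤ r * (m * (m - 1) / 2) - R * ((m - y) * (m - y - 1) / 2) + R * r
      + y * R₁ * r + m * r + R₁ * r := by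
  classical
  rw [J_nfree0_le.nfree0_eq, Fintype.sum_sum_type, Fintype.sum_sum_type, Fintype.sum_sum_type,
    Fintype.sum_sum_type]
  have h1 : ∑ a : Fin r × Fin r, J_nfree0_le.ind (free0 (m := m) σ (Sum.inl a)) = R * r := by
    simp only [Fintype.sum_prod_type]
    have e : ∀ k : Fin r, ∑ j : Fin r, J_nfree0_le.ind (free0 (m := m) σ (Sum.inl (k, j))) =
        J_nfree0_le.ind (k ∉ σ.K') * r := by
      intro k
      have e2 : ∀ j : Fin r, J_nfree0_le.ind (free0 (m := m) σ (Sum.inl (k, j))) =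
        J_nfree0_le.ind (k ∉ σ.K') := fun j => rfl
      simp only [e2]
      simp
      ring
    simp only [e]
    rw [← Finset.sum_mul, J_nfree0_le.sum_ind_notMem, hR]
  have h2 : ∑ a : Fin r × Fin m × Fin r, J_nfree0_le.ind (free0 (m := m) σ (Sum.inr (Sum.inl a))) =
      y * R₁ * r := by
    simp only [Fintype.sum_prod_type]
    have e : ∀ (k : Fin r) (i : Fin m), ∑ j : Fin r, J_nfree0_le.ind (free0 (m := m) σ
        (Sum.inr (Sum.inl (k, i, j)))) =
        J_nfree0_le.ind (k ∉ σ.K) * (J_nfree0_le.ind (i ∈ σ.Y) * r) := by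
      intro k i
      have e2 : ∀ j : Fin r, J_nfree0_le.ind (free0 (m := m) σ (Sum.inr (Sum.inl (k, i, j)))) =
        J_nfree0_le.ind (k ∉ σ.K) * J_nfree0_le.ind (i ∈ σ.Y) := by
        intro j
        have e3 : free0 (m := m) σ (Sum.inr (Sum.inl (k, i, j))) ↔ (k ∉ σ.K ∧ i ∈ σ.Y) := Iff.rfl
        by_cases hk : k ∉ σ.K
        · by_cases hi : i ∈ σ.Y
          · rw [J_nfree0_le.ind_pos (e3.2 ⟨hk, hi⟩), J_nfree0_le.ind_pos hk,
              J_nfree0_le.ind_pos hi, mul_one]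
          · rw [J_nfree0_le.ind_neg (fun h => hi (e3.1 h).2), J_nfree0_le.ind_neg hi, mul_zero]
        · rw [J_nfree0_le.ind_neg (fun h => hk (e3.1 h).1), J_nfree0_le.ind_neg hk, zero_mul]
      simp only [e2]
      simp
      ring
    simp only [e]
    simp only [← Finset.mul_sum, ← Finset.sum_mul]
    rw [J_nfree0_le.sum_ind_notMem, J_nfree0_le.sum_ind_mem, hR₁, hy]
    ring
  have h3 : ∑ a : Fin m × Fin r, J_nfree0_le.ind (free0 (m := m) σ (Sum.inr (Sum.inr (Sum.inl a)))) =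
      (m : ℝ) * r := by
    have : ∀ a : Fin m × Fin r, J_nfree0_le.ind (free0 (m := m) σ (Sum.inr (Sum.inr (Sum.inl a)))) =
      1 := fun a => J_nfree0_le.ind_pos trivial
    simp only [this]
    simp
  have h4 : ∑ a : Fin m × Fin m × Fin r, J_nfree0_le.ind (free0 (m := m) σ (Sum.inr (Sum.inr
      (Sum.inr (Sum.inl a))))) =
      r * (m * (m - 1) / 2) - R * ((m - y) * (m - y - 1) / 2) := by
    simp only [Fintype.sum_prod_type]
    exact J_nfree0_le.S6 σ y R hy hR
  have h5 : ∑ a : Fin r × Fin r, J_nfree0_le.ind (free0 (m := m) σ (Sum.inr (Sum.inr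
      (Sum.inr (Sum.inr a))))) = R₁ * r := by
    simp only [Fintype.sum_prod_type]
    have e : ∀ k : Fin r, ∑ j : Fin r, J_nfree0_le.ind (free0 (m := m) σ (Sum.inr (Sum.inr
      (Sum.inr (Sum.inr (k, j)))))) = J_nfree0_le.ind (k ∉ σ.K) * r := by
      intro k
      have e2 : ∀ j : Fin r, J_nfree0_le.ind (free0 (m := m) σ (Sum.inr (Sum.inr
        (Sum.inr (Sum.inr (k, j)))))) = J_nfree0_le.ind (k ∉ σ.K) := fun j => rfl
      simp only [e2]
      simp
      ring
    simp only [e]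
    rw [← Finset.sum_mul, J_nfree0_le.sum_ind_notMem, hR₁]
  rw [h1, h2, h3, h4, h5]
  linarith

end Pool.Agent.Helper252_Enum
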