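import Pool.Agent.Helper252_Enum.Defs2

set_option autoImplicit false

open scoped commutatorElement

namespace Pool.Agent.Helper252_Enum

/-
PROOF OF THE TARGET.
Injection of Skel0 m r into Finset (Fin m) × Finset (Fin r) × Finset (Fin r) × (Fin r → (Fin m ⊕ Fin r) × Option (Fin m ⊕ Fin r)), of cardinality 2^m 2^r 2^r ((m+r)(m+r+1))^r. With n = m+r: n = 0: 1. n >= 1: 2^(m+2r) <= 2^(2n) <= (n+1)^(2n) and ((n)(n+1))^r <= (n+1)^(2n).
-/

namespace J_card_skel0_le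

abbrev Tgt (m r : ℕ) : Type := Finset (Fin m) × Finset (Fin r) × Finset (Fin r) ×
  (Fin r → (Fin m ⊕ Fin r) × Option (Fin m ⊕ Fin r))

def emb (m r : ℕ) (σ : Skel0 m r) : Tgt m r := (σ.Y, σ.K, σ.K', σ.τ)

theorem emb_inj (m r : ℕ) : Function.Injective (emb m r) := by
  rintro ⟨a, b, c, d⟩ ⟨a', b', c', d'⟩ h
  simp only [emb, Prod.mk.injEq] at h
  obtain ⟨rfl, rfl, rfl, rfl⟩ := h
  rfl

theorem card_tgt (m r : ℕ) :
    Nat.card (Tgt m r) = 2 ^ m * (2 ^ r * (2 ^ r * ((m + r) * (m + r + 1)) ^ r)) := by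
  rw [Nat.card_eq_fintype_card]
  simp [Fintype.card_finset, Fintype.card_option]

end J_card_skel0_le

/-- TARGET -/
theorem card_skel0_le (m r : ℕ) :
    Finite (Skel0 m r) ∧ Nat.card (Skel0 m r) ≤ (m + r + 1) ^ (4 * (m + r)) := by
  have hf : Finite (Skel0 m r) := Finite.of_injective _ (J_card_skel0_le.emb_inj m r)
  refine ⟨hf, ?_⟩
  have h1 := Nat.card_le_card_of_injective _ (J_card_skel0_le.emb_inj m r)
  rw [J_card_skel0_le.card_tgt] at h1
  refine h1.trans ?_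
  rcases Nat.eq_zero_or_pos (m + r) with h0 | h0
  · have hm : m = 0 := by omega
    have hr : r = 0 := by omega
    subst hm hr
    simp
  · have h2 : 2 ≤ m + r + 1 := by omega
    have h3 : 2 ^ m * (2 ^ r * 2 ^ r) ≤ (m + r + 1) ^ (2 * (m + r)) := by
      calc 2 ^ m * (2 ^ r * 2 ^ r) = 2 ^ (m + (r + r)) := by rw [pow_add, pow_add]
        _ ≤ 2 ^ (2 * (m + r)) := Nat.pow_le_pow_right (by norm_num) (by omega)
        _ ≤ (m + r + 1) ^ (2 * (m + r)) := Nat.pow_le_pow_left h2 _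
    have h4 : ((m + r) * (m + r + 1)) ^ r ≤ (m + r + 1) ^ (2 * (m + r)) := by
      calc ((m + r) * (m + r + 1)) ^ r ≤ ((m + r + 1) * (m + r + 1)) ^ r :=
            Nat.pow_le_pow_left (Nat.mul_le_mul_right _ (by omega)) _
        _ = (m + r + 1) ^ (2 * r) := by rw [← sq, ← pow_mul]
        _ ≤ (m + r + 1) ^ (2 * (m + r)) := Nat.pow_le_pow_right (by omega) (by omega)
    calc 2 ^ m * (2 ^ r * (2 ^ r * ((m + r) * (m + r + 1)) ^ r))
        = (2 ^ m * (2 ^ r * 2 ^ r)) * ((m + r) * (m + r + 1)) ^ r := by ring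
      _ ≤ (m + r + 1) ^ (2 * (m + r)) * (m + r + 1) ^ (2 * (m + r)) := Nat.mul_le_mul h3 h4
      _ = (m + r + 1) ^ (4 * (m + r)) := by rw [← pow_add]; congr 1; omega

end Pool.Agent.Helper252_Enum
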