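import Pool.Agent.Helper252_Enum.P1_nongen
import Pool.Agent.Helper252_Enum.Q05_exists_deco0
import Pool.Agent.Helper252_Enum.Q06_iso0
import Pool.Agent.Helper252_Enum.Q07_exists_code0
import Pool.Agent.Helper252_Enum.Q09_card_skel0

set_option autoImplicit false

open scoped commutatorElement

namespace Pool.Agent.Helper252_Enum

/-
PROOF OF THE TARGET.
Let Code = Option (Σ σ : {σ : Skel0 m r // nfree0 σ <= B}, ({i : Idx0 m r // free0 σ i} → Fin p)): finite, with at most |Skel0| p^B + 1 elements (each function type has p^(nfree0 σ) <= p^B elements).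
For a group G with |G| = p^(m+r), |FrP| = p^r, |FrP| <= p^C₃ |ZF|, p^R₀ |K1| <= |FrP| and IsCrd p m G u choose x i ∈ G with u (x i) = Pi.single i 1. closure(range x) ⊔ FrP = ⊤: given g, u g = sum of (u g i).val • e_i, so g = (product of x i ^ (u g i).val) * h with u h = 0, h ∈ FrP.
|ZF|, |K1| divide |FrP| = p^r (subgroups), so R₁, R exist, with R₁ <= C₃ and R₀ <= R. exists_deco0 gives σ with |Y| <= 3R₁, |K| + R₁ = r, |K'| + R = r, so nfree0 σ <= B by hB. code G u := some (σ, code of exists_code0), by choice; none when the conditions fail.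
If code G u = code G' u' (conditions hold for both) then the skeletons agree and SameDigits0 holds, so iso_of_sameDigits0 gives φ with φ (x i) = x' i. a ↦ u' (φ a) and u are both additive maps G → Vp p m agreeing on the x i; closure(range x) = ⊤ by nongen (L = ⊤, D = closure(range x), FrP = PC p ⊤ ⊤; G is a
finite p-group), so they agree everywhere: SameCrd u u'.
-/


namespace J_exists_codes

theorem u_one {p m : ℕ} {G : Type} [Group G] {u : G → Vp p m} (hu : IsCrd p m G u) : u 1 = 0 := by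
  have h := hu.map_mul 1 1
  rw [mul_one] at h
  simpa using h

/-- a coordinate system as a homomorphism -/
noncomputable def toHom {p m : ℕ} {G : Type} [Group G] {u : G → Vp p m} (hu : IsCrd p m G u) :
    G →* Multiplicative (Vp p m) where
  toFun g := Multiplicative.ofAdd (u g)
  map_one' := by rw [u_one hu]; rfl
  map_mul' a b := by rw [hu.map_mul]; rfl

theorem u_inv {p m : ℕ} {G : Type} [Group G] {u : G → Vp p m} (hu : IsCrd p m G u) (a : G) :
    u a⁻¹ = - u a := by
  have h := hu.map_mul a a⁻¹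
  rw [mul_inv_cancel, u_one hu] at h
  exact (neg_eq_of_add_eq_zero_right h.symm).symm

theorem u_pow {p m : ℕ} {G : Type} [Group G] {u : G → Vp p m} (hu : IsCrd p m G u) (a : G)
    (n : ℕ) : u (a ^ n) = n • u a := by
  induction n with
  | zero => rw [pow_zero, u_one hu, zero_smul]
  | succ n ih => rw [pow_succ, hu.map_mul, ih, succ_nsmul]

theorem exists_lift {p m : ℕ} [Fact p.Prime] {G : Type} [Group G] {u : G → Vp p m}
    (hu : IsCrd p m G u) (x : Fin m → G) (hx : ∀ i, u (x i) = Pi.single i 1) (v : Vp p m) :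
    ∃ g ∈ Subgroup.closure (Set.range x), u g = v := by
  classical
  have key : ∀ s : Finset (Fin m), ∃ g ∈ Subgroup.closure (Set.range x),
      u g = ∑ i ∈ s, Pi.single i (v i) := by
    intro s
    induction s using Finset.induction_on with
    | empty => exact ⟨1, Subgroup.one_mem _, by rw [u_one hu, Finset.sum_empty]⟩
    | insert i s hi ih =>
      obtain ⟨g, hg, hg2⟩ := ih
      refine ⟨x i ^ (v i).val * g, Subgroup.mul_mem _ (Subgroup.pow_mem _
        (Subgroup.subset_closure (Set.mem_range_self i)) _) hg, ?_⟩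
      rw [hu.map_mul, u_pow hu, hx, Finset.sum_insert hi, hg2]
      congr 1
      rw [← Pi.single_smul, nsmul_eq_mul, mul_one, ZMod.natCast_zmod_val]
  obtain ⟨g, hg, hg2⟩ := key Finset.univ
  exact ⟨g, hg, by rw [hg2, Finset.univ_sum_single]⟩

theorem gen_top {p m : ℕ} [Fact p.Prime] {G : Type} [Group G] {u : G → Vp p m}
    (hu : IsCrd p m G u) (x : Fin m → G) (hx : ∀ i, u (x i) = Pi.single i 1) :
    Subgroup.closure (Set.range x) ⊔ FrP p G = ⊤ := by
  rw [eq_top_iff]
  intro g _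
  obtain ⟨h, hh, hh2⟩ := exists_lift hu x hx (u g)
  have h1 : h⁻¹ * g ∈ FrP p G := by
    rw [← hu.ker, hu.map_mul, u_inv hu, hh2, neg_add_cancel]
  have h2 : g = h * (h⁻¹ * g) := by group
  rw [h2]
  exact Subgroup.mul_mem_sup hh h1

/-- the conditions of the target on a group with coordinates -/
structure OK (p m r C₃ R₀ : ℕ) (G : Type) [Group G] (u : G → Vp p m) : Prop where
  card : Nat.card G = p ^ (m + r)
  fr : Nat.card (FrP p G) = p ^ r
  zf : Nat.card (FrP p G) ≤ p ^ C₃ * Nat.card (ZF p G)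
  k1 : p ^ R₀ * Nat.card (K1 p G) ≤ Nat.card (FrP p G)
  crd : IsCrd p m G u

theorem exists_data {p : ℕ} [Fact p.Prime] {m r C₃ R₀ B : ℕ}
    (hB : ∀ (σ : Skel0 m r) (R₁ R : ℕ), σ.Y.card ≤ 3 * R₁ → σ.K.card + R₁ = r →
      σ.K'.card + R = r → R₁ ≤ C₃ → R₀ ≤ R → nfree0 σ ≤ B)
    (G : Type) [Group G] (u : G → Vp p m) (h : OK p m r C₃ R₀ G u) :
    ∃ (x : Fin m → G) (σ : {σ : Skel0 m r // nfree0 σ ≤ B}),
      (∀ i, u (x i) = Pi.single i 1) ∧ Nonempty (Deco0 p m r σ.1 G x) := by
  have hp : p.Prime := Fact.out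
  have hx : ∀ i : Fin m, ∃ g : G, u g = Pi.single i 1 := fun i => h.crd.surj _
  choose x hx using hx
  have hfin : Finite G := Nat.finite_of_card_ne_zero (by
    rw [h.card]; exact pow_ne_zero _ hp.ne_zero)
  have hZ : ZF p G ≤ FrP p G := inf_le_left
  have hK : K1 p G ≤ FrP p G := fun a ha => ha.1
  have dZ : Nat.card (ZF p G) ∣ p ^ r := h.fr ▸ Subgroup.card_dvd_of_le hZ
  have dK : Nat.card (K1 p G) ∣ p ^ r := h.fr ▸ Subgroup.card_dvd_of_le hK
  obtain ⟨a, ha, ha2⟩ := (Nat.dvd_prime_pow hp).1 dZ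
  obtain ⟨b, hb, hb2⟩ := (Nat.dvd_prime_pow hp).1 dK
  have hR₁ : Nat.card (FrP p G) = p ^ (r - a) * Nat.card (ZF p G) := by
    rw [h.fr, ha2, ← pow_add, Nat.sub_add_cancel ha]
  have hR : Nat.card (FrP p G) = p ^ (r - b) * Nat.card (K1 p G) := by
    rw [h.fr, hb2, ← pow_add, Nat.sub_add_cancel hb]
  obtain ⟨σ, hσ, h1, h2, h3⟩ := exists_deco0 m r (r - a) (r - b) G h.card h.fr hR₁ hR x
    (gen_top h.crd x hx)
  have hC : r - a ≤ C₃ := by
    have := h.zf
    rw [hR₁, ha2] at this
    have h4 := Nat.le_of_mul_le_mul_right this (pow_pos hp.pos a)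
    exact (Nat.pow_le_pow_iff_right hp.one_lt).1 h4
  have hRR : R₀ ≤ r - b := by
    have := h.k1
    rw [hR, hb2] at this
    have h4 := Nat.le_of_mul_le_mul_right this (pow_pos hp.pos b)
    exact (Nat.pow_le_pow_iff_right hp.one_lt).1 h4
  exact ⟨x, ⟨σ, hB σ (r - a) (r - b) h1 h2 h3 hC hRR⟩, hx, hσ⟩

/-- the chosen code function of a skeleton -/
noncomputable def cd {p m r : ℕ} [Fact p.Prime] (σ : Skel0 m r) :
    ∀ (G : Type) [Group G] (x : Fin m → G), Deco0 p m r σ G x →
      ({i : Idx0 m r // free0 σ i} → Fin p) := Classical.choose (exists_code0 σ)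

theorem cd_spec {p m r : ℕ} [Fact p.Prime] (σ : Skel0 m r) (G G' : Type) [Group G] [Group G']
    (x : Fin m → G) (x' : Fin m → G') (D : Deco0 p m r σ G x) (D' : Deco0 p m r σ G' x')
    (h : cd σ G x D = cd σ G' x' D') : SameDigits0 D D' :=
  Classical.choose_spec (exists_code0 σ) G G' x x' D D' h

/-- the type of codes -/
abbrev CodeT (p m r B : ℕ) : Type :=
  Option (Σ σ : {σ : Skel0 m r // nfree0 σ ≤ B}, ({i : Idx0 m r // free0 σ.1 i} → Fin p))

theorem sigma_case {p m r B : ℕ} [Fact p.Prime] (σ σ' : {σ : Skel0 m r // nfree0 σ ≤ B})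
    (G G' : Type) [Group G] [Group G'] (x : Fin m → G) (x' : Fin m → G')
    (D : Deco0 p m r σ.1 G x) (D' : Deco0 p m r σ'.1 G' x')
    (h : (some ⟨σ, cd σ.1 G x D⟩ : CodeT p m r B) = some ⟨σ', cd σ'.1 G' x' D'⟩) :
    ∃ φ : G ≃* G', ∀ i, φ (x i) = x' i := by
  have h' := Option.some.inj h
  obtain ⟨h1, h2⟩ := Sigma.mk.inj_iff.1 h'
  subst h1
  exact iso_of_sameDigits0 D D' (cd_spec σ.1 G G' x x' D D' (eq_of_heq h2))

instance finIdx (m r : ℕ) : Finite (Idx0 m r) := inferInstance

theorem card_codeT {p m r B : ℕ} [Fact p.Prime] : Finite (CodeT p m r B) ∧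
    Nat.card (CodeT p m r B) ≤ (m + r + 1) ^ (4 * (m + r)) * p ^ B + 1 := by
  classical
  have hp : p.Prime := Fact.out
  obtain ⟨hf, hc⟩ := card_skel0_le m r
  have := hf
  have : Finite {σ : Skel0 m r // nfree0 σ ≤ B} := inferInstance
  refine ⟨inferInstance, ?_⟩
  have : Fintype {σ : Skel0 m r // nfree0 σ ≤ B} := Fintype.ofFinite _
  rw [Finite.card_option, Nat.card_sigma]
  apply Nat.add_le_add_right
  calc ∑ σ : {σ : Skel0 m r // nfree0 σ ≤ B}, Nat.card ({i : Idx0 m r // free0 σ.1 i} → Fin p)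
      ≤ ∑ _σ : {σ : Skel0 m r // nfree0 σ ≤ B}, p ^ B := by
        apply Finset.sum_le_sum
        intro σ _
        rw [Nat.card_fun, Nat.card_fin]
        exact Nat.pow_le_pow_right hp.pos σ.2
    _ = Nat.card {σ : Skel0 m r // nfree0 σ ≤ B} * p ^ B := by
        rw [Finset.sum_const, smul_eq_mul, Finset.card_univ, Nat.card_eq_fintype_card]
    _ ≤ Nat.card (Skel0 m r) * p ^ B :=
        Nat.mul_le_mul_right _ (Nat.card_le_card_of_injective _ Subtype.val_injective)
    _ ≤ _ := Nat.mul_le_mul_right _ hc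

/-- the code of a group with coordinates -/
noncomputable def codeF {p : ℕ} [Fact p.Prime] {m r C₃ R₀ B : ℕ}
    (hB : ∀ (σ : Skel0 m r) (R₁ R : ℕ), σ.Y.card ≤ 3 * R₁ → σ.K.card + R₁ = r →
      σ.K'.card + R = r → R₁ ≤ C₃ → R₀ ≤ R → nfree0 σ ≤ B)
    (G : Type) [Group G] (u : G → Vp p m) : CodeT p m r B :=
  open Classical in
  if h : OK p m r C₃ R₀ G u then
    some ⟨Classical.choose (Classical.choose_spec (exists_data hB G u h)),
      cd _ G (Classical.choose (exists_data hB G u h))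
        (Classical.choice (Classical.choose_spec
          (Classical.choose_spec (exists_data hB G u h))).2)⟩
  else none

end J_exists_codes

/-- TARGET -/
theorem exists_codes (p : ℕ) (hp : p.Prime) (m r C₃ R₀ B : ℕ)
    (hB : ∀ (σ : Skel0 m r) (R₁ R : ℕ), σ.Y.card ≤ 3 * R₁ → σ.K.card + R₁ = r →
      σ.K'.card + R = r → R₁ ≤ C₃ → R₀ ≤ R → nfree0 σ ≤ B) :
    ∃ (C : Type) (_ : Finite C) (code : ∀ (G : Type) [Group G], (G → Vp p m) → C),
      Nat.card C ≤ (m + r + 1) ^ (4 * (m + r)) * p ^ B + 1 ∧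
      ∀ (G G' : Type) [Group G] [Group G'] (u : G → Vp p m) (u' : G' → Vp p m),
        Nat.card G = p ^ (m + r) → Nat.card G' = p ^ (m + r) →
        Nat.card (FrP p G) = p ^ r → Nat.card (FrP p G') = p ^ r →
        Nat.card (FrP p G) ≤ p ^ C₃ * Nat.card (ZF p G) →
        Nat.card (FrP p G') ≤ p ^ C₃ * Nat.card (ZF p G') →
        p ^ R₀ * Nat.card (K1 p G) ≤ Nat.card (FrP p G) →
        p ^ R₀ * Nat.card (K1 p G') ≤ Nat.card (FrP p G') →
        IsCrd p m G u → IsCrd p m G' u' → code G u = code G' u' → SameCrd u u' := by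
  have : Fact p.Prime := ⟨hp⟩
  refine ⟨J_exists_codes.CodeT p m r B, J_exists_codes.card_codeT.1,
    fun G _ u => J_exists_codes.codeF hB G u, J_exists_codes.card_codeT.2, ?_⟩
  intro G G' _ _ u u' h1 h1' h2 h2' h3 h3' h4 h4' h5 h5' hcode
  have hok : J_exists_codes.OK p m r C₃ R₀ G u := ⟨h1, h2, h3, h4, h5⟩
  have hok' : J_exists_codes.OK p m r C₃ R₀ G' u' := ⟨h1', h2', h3', h4', h5'⟩
  simp only [J_exists_codes.codeF, dif_pos hok, dif_pos hok'] at hcode
  obtain ⟨φ, hφ⟩ := J_exists_codes.sigma_case _ _ G G' _ _ _ _ hcode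
  refine ⟨φ, ?_⟩
  have hx := (Classical.choose_spec
    (Classical.choose_spec (J_exists_codes.exists_data hB G u hok))).1
  have hx' := (Classical.choose_spec
    (Classical.choose_spec (J_exists_codes.exists_data hB G' u' hok'))).1
  set x := Classical.choose (J_exists_codes.exists_data hB G u hok) with hxd
  set x' := Classical.choose (J_exists_codes.exists_data hB G' u' hok') with hxd'
  have hfin : Finite G := Nat.finite_of_card_ne_zero (by
    rw [h1]; exact pow_ne_zero _ hp.ne_zero)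
  have hpg : IsPGroup p G := IsPGroup.of_card h1
  have htop : Subgroup.closure (Set.range x) = ⊤ := by
    rw [eq_top_iff]
    apply nongen hpg ⊤ _ le_top
    have := J_exists_codes.gen_top h5 x hx
    rw [FrP] at this
    rw [this]
  have heq : (J_exists_codes.toHom h5').comp φ.toMonoidHom = J_exists_codes.toHom h5 := by
    apply MonoidHom.eq_of_eqOn_dense htop
    rintro _ ⟨i, rfl⟩
    change Multiplicative.ofAdd (u' (φ (x i))) = Multiplicative.ofAdd (u (x i))
    rw [hφ, hx', hx]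
  intro a
  have := DFunLike.congr_fun heq a
  exact Multiplicative.ofAdd.injective this

end Pool.Agent.Helper252_Enum

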