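import Pool.Agent.Helper252_Enum.Defs2

set_option autoImplicit false

open scoped commutatorElement

namespace Pool.Agent.Helper252_Enum

/-
PROOF OF THE TARGET.
G is finite, F = FrP p G is normal and contains all commutators and p-th powers; G/F is elementary abelian of order p^m, so it is isomorphic (as additive group / ZMod p-module) to Vp p m (Module.finrank = m; LinearEquiv to Fin m → ZMod p). So there is one u₀ with IsCrd. For any u with IsCrd there is a unique additive
(so ZMod p-linear) automorphism g of Vp p m with u = g ∘ u₀ (both have kernel F and are surjective), and conversely g ∘ u₀ is IsCrd. So the number is the number of linear automorphisms of (ZMod p)^m, i.e. Matrix.GeneralLinearGroup: Matrix.card_GL_field : Nat.card (GL (Fin n) 𝔽) = ∏ i : Fin n, (q ^ n - q ^ i). gl p m = SS p m m =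
∏ i ∈ range m, (p^m - p^i) (Finset.prod_range / Fin.prod_univ_eq_prod_range).
-/

namespace J_card_crd

theorem frp_comm (p : ℕ) {G : Type} [Group G] (a b : G) : ⁅a, b⁆ ∈ FrP p G :=
  Subgroup.subset_closure (Or.inl ⟨a, Subgroup.mem_top _, b, Subgroup.mem_top _, rfl⟩)

theorem frp_pow (p : ℕ) {G : Type} [Group G] (a : G) : a ^ p ∈ FrP p G :=
  Subgroup.subset_closure (Or.inr ⟨a, Subgroup.mem_top _, rfl⟩)

theorem frp_normal (p : ℕ) (G : Type) [Group G] : (FrP p G).Normal := by
  refine ⟨fun a ha g => ?_⟩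
  have h : g * a * g⁻¹ = ⁅g, a⁆ * a := by rw [commutatorElement_def]; group
  rw [h]
  exact mul_mem (frp_comm p g a) ha

theorem exists_addEquiv' {p : ℕ} [Fact p.Prime] (m : ℕ) (A : Type) [AddCommGroup A]
    [Module (ZMod p) A] (hc : Nat.card A = p ^ m) : Nonempty (A ≃+ Vp p m) := by
  have hp : p.Prime := Fact.out
  have hfin : Finite A := Nat.finite_of_card_ne_zero (by rw [hc]; exact pow_ne_zero _ hp.ne_zero)
  have hmf : Module.Finite (ZMod p) A := Module.Finite.of_finite
  have hfr : Module.finrank (ZMod p) A = m := by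
    have h1 := Module.natCard_eq_pow_finrank (K := ZMod p) (V := A)
    rw [hc, Nat.card_zmod] at h1
    exact (Nat.pow_right_injective hp.two_le h1).symm
  have hfr' : Module.finrank (ZMod p) A = Module.finrank (ZMod p) (Vp p m) := by
    rw [hfr]; simp
  exact ⟨(LinearEquiv.ofFinrankEq A (Vp p m) hfr').toAddEquiv⟩

theorem exists_addEquiv {p : ℕ} [Fact p.Prime] (m : ℕ) (A : Type) [AddCommGroup A]
    (hA : ∀ x : A, p • x = 0) (hc : Nat.card A = p ^ m) : Nonempty (A ≃+ Vp p m) :=
  @exists_addEquiv' p _ m A _ (AddCommGroup.zmodModule hA) hc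

theorem exists_crd {p : ℕ} [Fact p.Prime] (m r : ℕ) (G : Type) [Group G]
    (hG : Nat.card G = p ^ (m + r)) (hr : Nat.card (FrP p G) = p ^ r) :
    ∃ u : G → Vp p m, IsCrd p m G u := by
  have hp : p.Prime := Fact.out
  have hfin : Finite G := Nat.finite_of_card_ne_zero (by rw [hG]; exact pow_ne_zero _ hp.ne_zero)
  have hN : (FrP p G).Normal := frp_normal p G
  have hcomm : ∀ x y : G ⧸ FrP p G, x * y = y * x := by
    intro x y
    induction x using QuotientGroup.induction_on with
    | H a =>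
      induction y using QuotientGroup.induction_on with
      | H b =>
        rw [← QuotientGroup.mk_mul, ← QuotientGroup.mk_mul, QuotientGroup.eq]
        have h : (a * b)⁻¹ * (b * a) = ⁅b⁻¹, a⁻¹⁆ := by rw [commutatorElement_def]; group
        rw [h]
        exact frp_comm p _ _
  let _ : CommGroup (G ⧸ FrP p G) := { (inferInstance : Group (G ⧸ FrP p G)) with
    mul_comm := hcomm }
  have hpx : ∀ x : Additive (G ⧸ FrP p G), p • x = 0 := by
    intro x
    obtain ⟨y, rfl⟩ := Additive.ofMul.surjective x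
    rw [← ofMul_pow]
    induction y using QuotientGroup.induction_on with
    | H a =>
      rw [← QuotientGroup.mk_pow, (QuotientGroup.eq_one_iff _).2 (frp_pow p a)]
      rfl
  have hcard : Nat.card (Additive (G ⧸ FrP p G)) = p ^ m := by
    have h1 := Subgroup.card_eq_card_quotient_mul_card_subgroup (FrP p G)
    rw [hG, hr, pow_add] at h1
    exact (Nat.eq_of_mul_eq_mul_right (pow_pos hp.pos r) h1).symm
  obtain ⟨e⟩ := exists_addEquiv m (Additive (G ⧸ FrP p G)) hpx hcard
  refine ⟨fun a => e (Additive.ofMul (QuotientGroup.mk a)), ⟨fun a b => ?_, fun v => ?_,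
    fun a => ?_⟩⟩
  · rw [QuotientGroup.mk_mul, ofMul_mul, map_add]
  · obtain ⟨x, rfl⟩ := e.surjective v
    obtain ⟨y, rfl⟩ := Additive.ofMul.surjective x
    obtain ⟨a, rfl⟩ := QuotientGroup.mk_surjective y
    exact ⟨a, rfl⟩
  · rw [AddEquiv.map_eq_zero_iff, ofMul_eq_zero, QuotientGroup.eq_one_iff]

theorem crd_one {p m : ℕ} {G : Type} [Group G] {u : G → Vp p m} (hu : IsCrd p m G u) :
    u 1 = 0 := by
  have := hu.map_mul 1 1
  rw [one_mul] at this
  simpa using this

theorem crd_eq_iff {p m : ℕ} {G : Type} [Group G] {u : G → Vp p m} (hu : IsCrd p m G u)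
    (a b : G) : u a = u b ↔ a⁻¹ * b ∈ FrP p G := by
  rw [← hu.ker]
  have h : u b = u a + u (a⁻¹ * b) := by rw [← hu.map_mul, mul_inv_cancel_left]
  constructor
  · intro h1
    rw [← h1] at h
    simpa using h
  · intro h1
    rw [h, h1, add_zero]

theorem exists_equiv {p : ℕ} [Fact p.Prime] {m : ℕ} {G : Type} [Group G] {u₀ u : G → Vp p m}
    (hu₀ : IsCrd p m G u₀) (hu : IsCrd p m G u) :
    ∃ g : Vp p m ≃ₗ[ZMod p] Vp p m, (fun a => g (u₀ a)) = u := by
  let s : Vp p m → G := fun v => (hu₀.surj v).choose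
  have hs : ∀ v, u₀ (s v) = v := fun v => (hu₀.surj v).choose_spec
  have key : ∀ a, u (s (u₀ a)) = u a := by
    intro a
    rw [crd_eq_iff hu, ← crd_eq_iff hu₀, hs]
  let g₀ : Vp p m →+ Vp p m :=
    { toFun := fun v => u (s v)
      map_zero' := by
        have h1 := key 1
        rw [crd_one hu₀, crd_one hu] at h1
        exact h1
      map_add' := fun v w => by
        have h1 := key (s v * s w)
        rw [hu₀.map_mul, hs, hs, hu.map_mul] at h1
        exact h1 }
  let g₁ : Vp p m →ₗ[ZMod p] Vp p m := g₀.toZModLinearMap p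
  have hg₁ : ∀ a, g₁ (u₀ a) = u a := key
  have hbij : Function.Bijective g₁ := by
    constructor
    · rw [← LinearMap.ker_eq_bot, LinearMap.ker_eq_bot']
      intro v hv
      have h1 : u (s v) = 0 := hv
      rw [hu.ker, ← hu₀.ker, hs] at h1
      exact h1
    · intro w
      obtain ⟨a, ha⟩ := hu.surj w
      exact ⟨u₀ a, (hg₁ a).trans ha⟩
  exact ⟨LinearEquiv.ofBijective g₁ hbij, funext hg₁⟩

theorem comp_crd {p m : ℕ} {G : Type} [Group G] {u₀ : G → Vp p m} (hu₀ : IsCrd p m G u₀)
    (g : Vp p m ≃ₗ[ZMod p] Vp p m) : IsCrd p m G (fun a => g (u₀ a)) := by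
  refine ⟨fun a b => ?_, fun v => ?_, fun a => ?_⟩
  · rw [hu₀.map_mul, map_add]
  · obtain ⟨a, ha⟩ := hu₀.surj (g.symm v)
    exact ⟨a, by rw [ha, LinearEquiv.apply_symm_apply]⟩
  · rw [LinearEquiv.map_eq_zero_iff, hu₀.ker]

theorem card_lin (p m : ℕ) [Fact p.Prime] :
    Nat.card (Vp p m ≃ₗ[ZMod p] Vp p m) = gl p m := by
  have h1 : Nat.card (Matrix.GeneralLinearGroup (Fin m) (ZMod p)) =
      Nat.card (Vp p m ≃ₗ[ZMod p] Vp p m) :=
    Nat.card_congr ((Matrix.GeneralLinearGroup.toLin).toEquiv.trans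
      (LinearMap.GeneralLinearGroup.generalLinearEquiv (ZMod p) (Vp p m)).toEquiv)
  rw [← h1, Matrix.card_GL_field, ZMod.card, gl, SS, Finset.prod_range]

end J_card_crd

/-- TARGET -/
theorem card_crd {p : ℕ} [Fact p.Prime] (m r : ℕ) (G : Type) [Group G]
    (hG : Nat.card G = p ^ (m + r)) (hr : Nat.card (FrP p G) = p ^ r) :
    Nat.card {u : G → Vp p m // IsCrd p m G u} = gl p m := by
  obtain ⟨u₀, hu₀⟩ := J_card_crd.exists_crd m r G hG hr
  rw [← J_card_crd.card_lin]
  symm
  let Φ : (Vp p m ≃ₗ[ZMod p] Vp p m) → {u : G → Vp p m // IsCrd p m G u} :=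
    fun g => ⟨fun a => g (u₀ a), J_card_crd.comp_crd hu₀ g⟩
  refine Nat.card_eq_of_bijective Φ ⟨?_, ?_⟩
  · intro g g' h
    have h1 : (fun a => g (u₀ a)) = fun a => g' (u₀ a) := congrArg Subtype.val h
    ext1 v
    obtain ⟨a, rfl⟩ := hu₀.surj v
    exact congrFun h1 a
  · rintro ⟨u, hu⟩
    obtain ⟨g, hg⟩ := J_card_crd.exists_equiv hu₀ hu
    exact ⟨g, Subtype.ext hg⟩

end Pool.Agent.Helper252_Enum
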