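import Pool.Agent.Helper252_Enum.Q11_card_crd

set_option autoImplicit false

open scoped commutatorElement

namespace Pool.Agent.Helper252_Enum

/-
PROOF OF THE TARGET.
Let Q be the Quot. For q ∈ Q let a(q) = Quot.out. For each q the set U_q = {u // IsCrd p m (𝒢 (a q)) u} has gl p m elements (card_crd), gl p m > 0. Consider the map Φ : (Σ q, U_q) → C, (q,u) ↦ code (a q) u. If Φ(q,u) = Φ(q',u') then SameCrd u u' by hcode, in particular 𝒢 (a q) ≃* 𝒢 (a q'), so q = q'
(Quot.sound, Quot.out_eq), and u' lies in the orbit {u' // IsCrd u' ∧ SameCrd u u'} of u, which has at most A elements (hA). So every fibre of Φ has at most A elements; C finite. Hence |Σ q, U_q| <= A |C|. Finiteness of Q: q ↦ Φ(q, some u) is injective into C. Then |Q| gl p m = |Σ q, U_q| (Nat.card_sigma) <= A |C|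
(e.g. Finset.card_le_mul_card_image, or Nat.card of the sigma of fibres).
-/

namespace J_orb_count

theorem gl_pos {p : ℕ} (hp : 2 ≤ p) (m : ℕ) : 0 < gl p m := by
  unfold gl SS
  apply Finset.prod_pos
  intro i hi
  have : p ^ i < p ^ m := Nat.pow_lt_pow_right (by omega) (Finset.mem_range.mp hi)
  omega

end J_orb_count

/-- TARGET -/
theorem orb_count {p : ℕ} [Fact p.Prime] (m r A : ℕ) (α : Type) (𝒢 : α → Type)
    [∀ a, Group (𝒢 a)] (hcard : ∀ a, Nat.card (𝒢 a) = p ^ (m + r))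
    (hF : ∀ a, Nat.card (FrP p (𝒢 a)) = p ^ r) (hA : ∀ a, SmallIm p m A (𝒢 a))
    (C : Type) [Finite C] (code : ∀ a, (𝒢 a → Vp p m) → C)
    (hcode : ∀ a b u u', IsCrd p m (𝒢 a) u → IsCrd p m (𝒢 b) u' → code a u = code b u' →
      SameCrd u u') :
    Nat.card (Quot fun a b => Nonempty (𝒢 a ≃* 𝒢 b)) * gl p m ≤ A * Nat.card C := by
  classical
  have hp2 : 2 ≤ p := (Fact.out : p.Prime).two_le
  have hgl : 0 < gl p m := J_orb_count.gl_pos hp2 m
  set Q := Quot fun a b => Nonempty (𝒢 a ≃* 𝒢 b) with hQ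
  let U : Q → Type := fun q => {u : 𝒢 q.out → Vp p m // IsCrd p m (𝒢 q.out) u}
  have hU : ∀ q : Q, Nat.card (U q) = gl p m := fun q =>
    card_crd m r (𝒢 q.out) (hcard _) (hF _)
  have hUfin : ∀ q : Q, Finite (U q) := fun q =>
    Nat.finite_of_card_ne_zero (by rw [hU q]; exact hgl.ne')
  have hUne : ∀ q : Q, Nonempty (U q) := fun q =>
    (Nat.card_pos_iff.mp (by rw [hU q]; exact hgl)).1
  let Φ : (Σ q, U q) → C := fun s => code s.1.out s.2.1
  have hsame : ∀ s t : (Σ q, U q), Φ s = Φ t → s.1 = t.1 := by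
    intro s t hst
    obtain ⟨φ, -⟩ := hcode _ _ _ _ s.2.2 t.2.2 hst
    rw [← Quot.out_eq s.1, ← Quot.out_eq t.1]
    exact Quot.sound ⟨φ⟩
  have hQfin : Finite Q := by
    refine Finite.of_injective (fun q => Φ ⟨q, Classical.choice (hUne q)⟩) ?_
    intro q q' h
    exact hsame _ _ h
  have hSfin : Finite (Σ q, U q) := inferInstance
  have hS : Nat.card (Σ q, U q) = Nat.card Q * gl p m := by
    have := Fintype.ofFinite Q
    rw [Nat.card_sigma]
    simp only [hU]
    rw [Finset.sum_const, Finset.card_univ, smul_eq_mul, Nat.card_eq_fintype_card]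
  rw [← hS]
  have hfib : ∀ c : C, Nat.card {s : (Σ q, U q) // Φ s = c} ≤ A := by
    intro c
    rcases isEmpty_or_nonempty {s : (Σ q, U q) // Φ s = c} with he | ⟨⟨⟨q₀, u₀⟩, h₀⟩⟩
    · rw [Nat.card_of_isEmpty]; exact Nat.zero_le _
    · have hle := hA q₀.out u₀.1 u₀.2
      refine le_trans ?_ hle
      let D := {u' : 𝒢 q₀.out → Vp p m // IsCrd p m (𝒢 q₀.out) u' ∧ SameCrd u₀.1 u'}
      let g : D → (Σ q, U q) := fun d => ⟨q₀, ⟨d.1, d.2.1⟩⟩
      have hDfin : Finite D := by
        have := hUfin q₀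
        refine Finite.of_injective (fun d : D => (⟨d.1, d.2.1⟩ : U q₀)) ?_
        intro d d' h
        exact Subtype.ext (congrArg (fun z : U q₀ => z.1) h)
      have hsub : {s : (Σ q, U q) | Φ s = c} ⊆ Set.range g := by
        rintro ⟨q, u⟩ hs
        have hs' : Φ ⟨q, u⟩ = c := hs
        have hq : q₀ = q := hsame ⟨q₀, u₀⟩ ⟨q, u⟩ (h₀.trans hs'.symm)
        subst hq
        refine ⟨⟨u.1, u.2, hcode _ _ _ _ u₀.2 u.2 (h₀.trans hs'.symm)⟩, rfl⟩
      calc Nat.card {s : (Σ q, U q) // Φ s = c} ≤ Nat.card (Set.range g) :=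
            Nat.card_mono (Set.toFinite _) hsub
        _ ≤ Nat.card D := Finite.card_range_le g
  have hC := Fintype.ofFinite C
  rw [← Nat.card_congr (Equiv.sigmaFiberEquiv Φ), Nat.card_sigma]
  calc ∑ c, Nat.card {s : (Σ q, U q) // Φ s = c} ≤ ∑ _c : C, A :=
        Finset.sum_le_sum fun c _ => hfib c
    _ = A * Nat.card C := by
        rw [Finset.sum_const, Finset.card_univ, smul_eq_mul, Nat.card_eq_fintype_card, mul_comm]

end Pool.Agent.Helper252_Enum
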