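import Pool.Agent.Helper252_Enum.Defs2

set_option autoImplicit false

open scoped commutatorElement

namespace Pool.Agent.Helper252_Enum

/-
PROOF OF THE TARGET.
gl p m = ∏_{i<m} (p^m - p^i) = p^(m^2) ∏_{j=1}^m (1 - p^(-j)), and for x = 1/p <= 1/2: ∏_{j=1}^m (1 - x^j) >= 1 - x - x^2 + x^(m+1) for m >= 1 by induction (P_m (1 - x^(m+1)) >= (1-x-x^2+x^(m+1)) - x^(m+1)(1 - x - x^2 + x^(m+1)) >= 1-x-x^2+x^(m+2) as x^(m+3) >= x^(2m+2)). So it is >= 1 - x - x^2 >= 1/4 >= 1/p^2.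
m = 0: 1 <= p^2. (Work in ℝ or ℚ and cast.)
-/

namespace J_gl_ge

theorem prod_ge (x : ℝ) (h0 : 0 ≤ x) (h1 : x ≤ 1 / 2) (m : ℕ) (hm : 1 ≤ m) :
    1 - x - x ^ 2 + x ^ (m + 1) ≤ ∏ j ∈ Finset.range m, (1 - x ^ (j + 1)) := by
  induction m, hm using Nat.le_induction with
  | base => simp
  | succ m hm ih =>
    rw [Finset.prod_range_succ]
    have hx : x ≤ 1 := h1.trans (by norm_num)
    have h2 : x ^ (m + 1) ≤ 1 := pow_le_one₀ h0 hx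
    have h3 : x ^ (m + 1) ≤ x ^ 2 := pow_le_pow_of_le_one h0 hx (by omega)
    have h4 : 0 ≤ x ^ (m + 1) := pow_nonneg h0 _
    have h5 : (1 - x - x ^ 2 + x ^ (m + 1)) * (1 - x ^ (m + 1)) ≤
        (∏ j ∈ Finset.range m, (1 - x ^ (j + 1))) * (1 - x ^ (m + 1)) :=
      mul_le_mul_of_nonneg_right ih (by linarith)
    refine le_trans ?_ h5
    have h6 : x ^ (m + 1 + 1) = x ^ (m + 1) * x := pow_succ _ _
    rw [h6]
    nlinarith [mul_nonneg h4 (sub_nonneg.2 h3)]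

theorem prod_ge' (x : ℝ) (h0 : 0 ≤ x) (h1 : x ≤ 1 / 2) (m : ℕ) :
    x ^ 2 ≤ ∏ j ∈ Finset.range m, (1 - x ^ (j + 1)) := by
  rcases Nat.eq_zero_or_pos m with rfl | hm
  · simp only [Finset.range_zero, Finset.prod_empty]
    nlinarith
  · refine le_trans ?_ (prod_ge x h0 h1 m hm)
    have : 0 ≤ x ^ (m + 1) := pow_nonneg h0 _
    nlinarith

theorem gl_eq (p m : ℕ) (hp : 0 < p) : (gl p m : ℝ) =
    (p : ℝ) ^ (m ^ 2) * ∏ j ∈ Finset.range m, (1 - ((p : ℝ)⁻¹) ^ (j + 1)) := by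
  have hp0 : (p : ℝ) ≠ 0 := by exact_mod_cast hp.ne'
  rw [← Finset.prod_range_reflect]
  have h1 : (p : ℝ) ^ (m ^ 2) = ∏ _j ∈ Finset.range m, (p : ℝ) ^ m := by
    rw [Finset.prod_const, Finset.card_range, ← pow_mul, sq]
  rw [h1, ← Finset.prod_mul_distrib]
  unfold gl SS
  rw [Nat.cast_prod]
  apply Finset.prod_congr rfl
  intro i hi
  have hi' : i < m := Finset.mem_range.1 hi
  rw [Nat.cast_sub (Nat.pow_le_pow_right hp hi'.le), Nat.cast_pow, Nat.cast_pow]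
  have e : m - 1 - i + 1 = m - i := by omega
  rw [e, mul_sub, mul_one, inv_pow]
  congr 1
  have e2 : (p : ℝ) ^ m = (p : ℝ) ^ i * (p : ℝ) ^ (m - i) := by
    rw [← pow_add]
    congr 1
    omega
  rw [e2, mul_assoc, mul_inv_cancel₀ (pow_ne_zero _ hp0), mul_one]

end J_gl_ge

/-- TARGET -/
theorem gl_ge (p m : ℕ) (hp : p.Prime) : p ^ (m ^ 2) ≤ p ^ 2 * gl p m := by
  have hp0 : (0 : ℝ) < p := by exact_mod_cast hp.pos
  have h2 : (2 : ℝ) ≤ p := by exact_mod_cast hp.two_le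
  have hx : ((p : ℝ)⁻¹) ≤ 1 / 2 := by
    rw [one_div]
    exact inv_anti₀ (by norm_num) h2
  have h1 := J_gl_ge.prod_ge' ((p : ℝ)⁻¹) (by positivity) hx m
  have h3 : ((p ^ (m ^ 2) : ℕ) : ℝ) ≤ ((p ^ 2 * gl p m : ℕ) : ℝ) := by
    rw [Nat.cast_mul, J_gl_ge.gl_eq p m hp.pos, Nat.cast_pow, Nat.cast_pow]
    calc (p : ℝ) ^ (m ^ 2) = (p : ℝ) ^ 2 * ((p : ℝ) ^ (m ^ 2) * ((p : ℝ)⁻¹) ^ 2) := by
          rw [inv_pow]
          field_simp
      _ ≤ _ := by gcongr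
  exact_mod_cast h3

end Pool.Agent.Helper252_Enum

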