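import Pool.Agent.Helper252_Enum.Q10_exists_codes
import Pool.Agent.Helper252_Enum.Q08_nfree0_le
import Pool.Agent.Helper252_Enum.Q11_card_crd

set_option autoImplicit false

open scoped commutatorElement

namespace Pool.Agent.Helper252_Enum

namespace J_E2

lemma pow_big (s : ℕ) (hs : 14 ≤ s) : 800 * (s + 1) ≤ 2 ^ s := by
  induction s, hs using Nat.le_induction with
  | base => norm_num
  | succ s hs ih =>
    rw [pow_succ]
    omega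

lemma gl_pos {p m : ℕ} (hp : p.Prime) : 0 < gl p m := by
  unfold gl SS
  apply Finset.prod_pos
  intro i hi
  have := Nat.pow_lt_pow_right hp.one_lt (Finset.mem_range.1 hi)
  omega

lemma numerics (c n m r y₀ : ℝ) (hmr : m + r = n) (h1 : 19 * n ≤ 60 * r) (h2 : 60 * r ≤ 21 * n)
    (hn : 100 * (c + 2) ≤ n) (hn0 : 1 ≤ n) (hc : 0 ≤ c) :
    r * m ^ 2 / 2 + m * (r - 3 * m) / 2 + c * n + n ^ 2 / 200 + 2 ≤
      2 * n ^ 3 / 27 - 47 * n ^ 2 / 100 := by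
  have hr : r = n - m := by linarith
  have hm : 65 / 100 * n ≤ m := by linarith
  have hm0 : 0 ≤ m := by linarith
  have e1 : r * m ^ 2 ≤ 4 * n ^ 3 / 27 := by
    have : 4 * n ^ 3 / 27 - r * m ^ 2 = (m - 2 * n / 3) ^ 2 * (m + n / 3) := by
      rw [hr]; ring
    have h3 : 0 ≤ (m - 2 * n / 3) ^ 2 * (m + n / 3) := by
      apply mul_nonneg (sq_nonneg _)
      linarith
    linarith
  have e2 : m * (r - 3 * m) ≤ - (104 / 100 * n ^ 2) := by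
    have h3 : 160 / 100 * n ≤ 3 * m - r := by linarith
    have h4 : (65 / 100 * n) * (160 / 100 * n) ≤ m * (3 * m - r) :=
      mul_le_mul hm h3 (by linarith) hm0
    nlinarith
  have e3 : c * n + 2 ≤ n ^ 2 / 100 := by
    nlinarith
  nlinarith

end J_E2

open J_E2 in
/-- TARGET -/
theorem E2 : ∀ C₃ : ℕ, ∃ n₀ : ℕ, ∀ (p : ℕ), p.Prime → ∀ m r n : ℕ, n₀ ≤ n → m + r = n →
    19 * n ≤ 60 * r → 60 * r ≤ 21 * n →
    ∀ (α : Type) (𝒢 : α → Type) [∀ a, Group (𝒢 a)], (∀ a, Nat.card (𝒢 a) = p ^ n) →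
    (∀ a, Nat.card (FrP p (𝒢 a)) = p ^ r) →
    (∀ a, Nat.card (FrP p (𝒢 a)) ≤ p ^ C₃ * Nat.card (ZF p (𝒢 a))) →
    (∀ a, p ^ 3 * Nat.card (K1 p (𝒢 a)) ≤ Nat.card (FrP p (𝒢 a))) →
    Nat.card (Quot fun a b => Nonempty (𝒢 a ≃* 𝒢 b)) ≤ p ^ (2 * n ^ 3 / 27 - 47 * n ^ 2 / 100) := by
  classical
  intro C₃
  refine ⟨11200 + 1000 * C₃ + 100 * (3 * C₃ ^ 2 + 10 * C₃ + 7), ?_⟩
  intro p hp m r n hn hmr h1 h2 α 𝒢 _ hG hFr hZF hK1
  haveI : Fact p.Prime := ⟨hp⟩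
  -- real versions
  have hnR : (11200 : ℝ) + 1000 * C₃ + 100 * (3 * (C₃ : ℝ) ^ 2 + 10 * C₃ + 7) ≤ n := by
    exact_mod_cast hn
  have hC0 : (0 : ℝ) ≤ C₃ := Nat.cast_nonneg _
  have hC2 : (0 : ℝ) ≤ (C₃ : ℝ) ^ 2 := sq_nonneg _
  have hn11 : (11200 : ℝ) ≤ n := by linarith
  have hmrR : (m : ℝ) + r = n := by exact_mod_cast hmr
  have h1R : 19 * (n : ℝ) ≤ 60 * r := by exact_mod_cast h1
  have h2R : 60 * (r : ℝ) ≤ 21 * n := by exact_mod_cast h2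
  set y₀ : ℝ := 3 * C₃ with hy₀
  have hy0 : 0 ≤ y₀ := by positivity
  have hm65 : 65 / 100 * (n : ℝ) ≤ m := by linarith
  have hym : y₀ ≤ m / 2 := by linarith
  have hm1000 : (1000 : ℝ) ≤ m := by linarith
  have hr3 : (3 : ℝ) ≤ r := by linarith
  set c : ℝ := 3 * (C₃ : ℝ) ^ 2 + 10 * C₃ + 5 with hc
  set β : ℝ := r * (m * (m - 1) / 2) + m * r - 3 * ((m - y₀) * (m - y₀ - 1) / 2 - r)
    + (3 * C₃ + 1) * C₃ * r with hβ
  have hQ0 : 0 ≤ (m - y₀) * (m - y₀ - 1) / 2 - r := by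
    have h3 : (m : ℝ) / 2 ≤ m - y₀ := by linarith
    have h4 : (m : ℝ) / 2 - 1 ≤ m - y₀ - 1 := by linarith
    have h5 : (m : ℝ) / 2 * (m / 2 - 1) ≤ (m - y₀) * (m - y₀ - 1) :=
      mul_le_mul h3 h4 (by linarith) (by linarith)
    have h6 : (r : ℝ) ≤ m := by linarith
    nlinarith
  have hβ0 : 0 ≤ β := by
    have h3 : (m - y₀) * (m - y₀ - 1) ≤ m * ((m : ℝ) - 1) :=
      mul_le_mul (by linarith) (by linarith) (by linarith) (by linarith)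
    have h4 : 3 * (m * ((m : ℝ) - 1) / 2) ≤ r * (m * ((m : ℝ) - 1) / 2) := by
      apply mul_le_mul_of_nonneg_right hr3
      have : 0 ≤ (m : ℝ) * (m - 1) := mul_nonneg (by linarith) (by linarith)
      linarith
    have h5 : 0 ≤ (m : ℝ) * r := by positivity
    have h6 : 0 ≤ (3 * (C₃ : ℝ) + 1) * C₃ * r := by positivity
    rw [hβ]
    linarith
  have hB : ∀ (σ : Skel0 m r) (R₁ R : ℕ), σ.Y.card ≤ 3 * R₁ → σ.K.card + R₁ = r →
      σ.K'.card + R = r → R₁ ≤ C₃ → 3 ≤ R → nfree0 σ ≤ ⌊β⌋₊ := by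
    intro σ R₁ R hY hK hK' hR₁ hR
    apply Nat.le_floor
    have hKR : (σ.K.card : ℝ) + R₁ = r := by exact_mod_cast hK
    have hKR' : (σ.K'.card : ℝ) + R = r := by exact_mod_cast hK'
    have hYR : (σ.Y.card : ℝ) ≤ 3 * R₁ := by exact_mod_cast hY
    have hR₁R : (R₁ : ℝ) ≤ C₃ := by exact_mod_cast hR₁
    have hRR : (3 : ℝ) ≤ R := by exact_mod_cast hR
    have hR₁0 : (0 : ℝ) ≤ R₁ := Nat.cast_nonneg _
    have hmain := nfree0_le σ (σ.Y.card : ℝ) (R : ℝ) (R₁ : ℝ) rfl (by linarith) (by linarith)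
    set y : ℝ := (σ.Y.card : ℝ) with hy
    have hyn : 0 ≤ y := Nat.cast_nonneg _
    have hyy : y ≤ y₀ := by linarith
    have h3 : (m - y₀) * (m - y₀ - 1) ≤ (m - y) * (m - y - 1) :=
      mul_le_mul (by linarith) (by linarith) (by linarith) (by linarith)
    have h4 : 0 ≤ (m - y) * (m - y - 1) / 2 - r := by linarith
    have h5 : 3 * ((m - y₀) * (m - y₀ - 1) / 2 - r) ≤ R * ((m - y) * (m - y - 1) / 2 - r) := by
      have h6 : 3 * ((m - y) * (m - y - 1) / 2 - r) ≤ R * ((m - y) * (m - y - 1) / 2 - r) :=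
        mul_le_mul_of_nonneg_right hRR h4
      linarith
    have h7 : (y + 1) * R₁ ≤ (3 * (C₃ : ℝ) + 1) * C₃ :=
      mul_le_mul (by linarith) hR₁R hR₁0 (by linarith)
    have h8 : (y + 1) * R₁ * r ≤ (3 * (C₃ : ℝ) + 1) * C₃ * r :=
      mul_le_mul_of_nonneg_right h7 (by linarith)
    rw [hβ]
    nlinarith
  obtain ⟨C, hCfin, code, hCcard, hcode⟩ := exists_codes p hp m r C₃ 3 ⌊β⌋₊ hB
  -- coordinates
  have hcrd : ∀ a, ∃ u : 𝒢 a → Vp p m, IsCrd p m (𝒢 a) u := by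
    intro a
    have h3 := card_crd (p := p) m r (𝒢 a) (by rw [hmr]; exact hG a) (hFr a)
    have h4 : Nat.card {u : 𝒢 a → Vp p m // IsCrd p m (𝒢 a) u} ≠ 0 := by
      rw [h3]; exact (gl_pos hp).ne'
    have h5 : Nonempty {u : 𝒢 a → Vp p m // IsCrd p m (𝒢 a) u} := by
      by_contra hcon
      rw [not_nonempty_iff] at hcon
      exact h4 Nat.card_of_isEmpty
    obtain ⟨u, hu⟩ := h5
    exact ⟨u, hu⟩
  choose u hu using hcrd
  have hcardle : Nat.card (Quot fun a b => Nonempty (𝒢 a ≃* 𝒢 b)) ≤ Nat.card C := by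
    refine Nat.card_le_card_of_injective
      (fun q : Quot (fun a b => Nonempty (𝒢 a ≃* 𝒢 b)) => code (𝒢 q.out) (u q.out)) ?_
    intro q q' hqq
    simp only at hqq
    obtain ⟨φ, _⟩ := hcode (𝒢 q.out) (𝒢 q'.out) (u q.out) (u q'.out)
      (by rw [hmr]; exact hG _) (by rw [hmr]; exact hG _) (hFr _) (hFr _) (hZF _) (hZF _)
      (hK1 _) (hK1 _) (hu _) (hu _) hqq
    rw [← Quot.out_eq q, ← Quot.out_eq q']
    exact Quot.sound ⟨φ⟩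
  refine hcardle.trans (hCcard.trans ?_)
  -- final numerics
  set s : ℕ := n / 800 with hs
  have hn11N : 11200 ≤ n := by exact_mod_cast hn11
  have hs14 : 14 ≤ s := by
    have h3 : 11200 / 800 ≤ n / 800 := Nat.div_le_div_right hn11N
    have h4 : 11200 / 800 = 14 := by norm_num
    rw [hs, ← h4]
    exact h3
  have hns : n + 1 ≤ 2 ^ s := by
    have h3 := pow_big s hs14
    have h4 : n < 800 * (s + 1) := by
      rw [hs]; omega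
    omega
  have h4ns : 4 * n * s ≤ n ^ 2 / 200 := by
    rw [Nat.le_div_iff_mul_le (by norm_num)]
    have h3 : 800 * s ≤ n := by rw [hs]; exact Nat.mul_div_le n 800
    calc 4 * n * s * 200 = n * (800 * s) := by ring
      _ ≤ n * n := Nat.mul_le_mul_left _ h3
      _ = n ^ 2 := by ring
  have hpw : (m + r + 1) ^ (4 * (m + r)) ≤ p ^ (4 * n * s) := by
    rw [hmr]
    calc (n + 1) ^ (4 * n) ≤ (2 ^ s) ^ (4 * n) := Nat.pow_le_pow_left hns _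
      _ = 2 ^ (4 * n * s) := by rw [← pow_mul]; congr 1; ring
      _ ≤ p ^ (4 * n * s) := Nat.pow_le_pow_left hp.two_le _
  have hstep : (m + r + 1) ^ (4 * (m + r)) * p ^ ⌊β⌋₊ + 1 ≤ p ^ (4 * n * s + ⌊β⌋₊ + 1) := by
    have h3 : (m + r + 1) ^ (4 * (m + r)) * p ^ ⌊β⌋₊ ≤ p ^ (4 * n * s + ⌊β⌋₊) := by
      rw [pow_add]
      exact Nat.mul_le_mul_right _ hpw
    have h4 : 1 ≤ p ^ (4 * n * s + ⌊β⌋₊) := Nat.one_le_pow _ _ hp.pos
    have h5 : 2 * p ^ (4 * n * s + ⌊β⌋₊) ≤ p ^ (4 * n * s + ⌊β⌋₊ + 1) := by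
      rw [pow_succ, mul_comm]
      exact Nat.mul_le_mul_left _ hp.two_le
    omega
  refine hstep.trans (Nat.pow_le_pow_right hp.pos ?_)
  have hfl : (⌊β⌋₊ : ℝ) ≤ β := Nat.floor_le hβ0
  have hβle : β ≤ r * (m : ℝ) ^ 2 / 2 + m * (r - 3 * m) / 2 + c * n := by
    have h3 : (m - y₀) * (m - y₀ - 1) = (m : ℝ) ^ 2 - (2 * y₀ + 1) * m + y₀ * (y₀ + 1) := by ring
    have h4 : 0 ≤ y₀ * (y₀ + 1) := by positivity
    have h5 : (m : ℝ) ≤ n := by linarith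
    have h6 : (r : ℝ) ≤ n := by linarith
    have h7 : 3 / 2 * (2 * y₀ + 1) * m ≤ 3 / 2 * (2 * y₀ + 1) * n :=
      mul_le_mul_of_nonneg_left h5 (by positivity)
    have h8 : (3 + (3 * (C₃ : ℝ) + 1) * C₃) * r ≤ (3 + (3 * (C₃ : ℝ) + 1) * C₃) * n :=
      mul_le_mul_of_nonneg_left h6 (by positivity)
    have h9 : (3 / 2 * (2 * y₀ + 1) + (3 + (3 * (C₃ : ℝ) + 1) * C₃)) * n ≤ c * n := by
      apply mul_le_mul_of_nonneg_right _ (by linarith)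
      rw [hc, hy₀]
      nlinarith
    rw [hβ, h3]
    nlinarith
  have hnum := numerics c n m r y₀ hmrR h1R h2R (by rw [hc]; linarith) (by linarith) (by positivity)
  have hfin : ((4 * n * s + ⌊β⌋₊ + 1 : ℕ) : ℝ) + ((47 * n ^ 2 / 100 : ℕ) : ℝ) + 1 ≤
      2 * (n : ℝ) ^ 3 / 27 := by
    have h3 : ((4 * n * s : ℕ) : ℝ) ≤ (n : ℝ) ^ 2 / 200 := by
      have h4 : ((n ^ 2 / 200 : ℕ) : ℝ) ≤ ((n ^ 2 : ℕ) : ℝ) / ((200 : ℕ) : ℝ) := Nat.cast_div_le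
      have h5 : ((4 * n * s : ℕ) : ℝ) ≤ ((n ^ 2 / 200 : ℕ) : ℝ) := by exact_mod_cast h4ns
      push_cast at h4 h5 ⊢
      linarith
    have h4 : ((47 * n ^ 2 / 100 : ℕ) : ℝ) ≤ ((47 * n ^ 2 : ℕ) : ℝ) / ((100 : ℕ) : ℝ) :=
      Nat.cast_div_le
    push_cast at h3 h4 ⊢
    linarith
  have hA : 2 * (n : ℝ) ^ 3 / 27 ≤ ((2 * n ^ 3 / 27 : ℕ) : ℝ) + 1 := by
    have h3 : 2 * n ^ 3 < 27 * (2 * n ^ 3 / 27 + 1) := by
      have := Nat.lt_mul_div_succ (2 * n ^ 3) (show 0 < 27 by norm_num)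
      exact this
    have h4 : (2 * (n : ℝ) ^ 3) < 27 * (((2 * n ^ 3 / 27 : ℕ) : ℝ) + 1) := by exact_mod_cast h3
    linarith
  have hlast : ((4 * n * s + ⌊β⌋₊ + 1 : ℕ) : ℝ) + ((47 * n ^ 2 / 100 : ℕ) : ℝ) ≤
      ((2 * n ^ 3 / 27 : ℕ) : ℝ) := by linarith
  have hlast' : (4 * n * s + ⌊β⌋₊ + 1) + (47 * n ^ 2 / 100) ≤ 2 * n ^ 3 / 27 := by
    exact_mod_cast hlast
  exact Nat.le_sub_of_add_le hlast'

end Pool.Agent.Helper252_Enum
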