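import Pool.Agent.Helper252_Enum.Q10_exists_codes
import Pool.Agent.Helper252_Enum.Q08_nfree0_le
import Pool.Agent.Helper252_Enum.Q12_orb_count
import Pool.Agent.Helper252_Enum.Q13_gl_ge

set_option autoImplicit false

open scoped commutatorElement

namespace Pool.Agent.Helper252_Enum

/-
PROOF OF THE TARGET.
As E2 with C₃ = 2, R₀ = 1 and orb_count. |FrP| <= p^2 |K1| <= p^2 |ZF| (K1 <= ZF). Let B be the integer part of β = r m(m-1)/2 + m r - ((m-6)(m-7)/2 - r) + 14 r. hB: for y <= 3R₁ <= 6, R₁ <= 2, R >= 1: nfree0 σ <= r m(m-1)/2 - R((m-y)(m-y-1)/2 - r) + y R₁ r + m r + R₁ r <= β (n large). exists_codes gives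
C with |C| <= (n+1)^(4n) p^B + 1 and orb_count (A = p^(4 (m/100) m + 1)) gives Nat.card Quot * gl p m <= A |C|; gl p m >= p^(m^2)/p^2 (gl_ge). So Nat.card Quot <= p^(2 - m^2 + 4 (m/100) m + 1) * 2 (n+1)^(4n) p^B.
Numerics: exponent r m^2/2 + r m/2 - m^2/2 - m^2 + m^2/25 + O(n log n); r m^2/2 <= 2n^3/27 and r m/2 - 1.46 m^2 = m (r/2 - 1.46 m) <= -0.50 n^2 for r <= 0.35 n, m >= 0.65 n (r/2 - 1.46 m <= -0.774 n, times m >= 0.65 n). So the total is <= 2n^3/27 - 0.50 n^2 + o(n^2) <= 2 n^3/27 - 47 n^2/100 - 2.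
(Work with real exponents or multiply out in ℕ: to avoid division show p^(m^2) * card <= p^(2 + ...) ....)
-/

namespace J_E3

theorem two_pow_ge (q : ℕ) (hq : 12 ≤ q) : 200 * (q + 1) ≤ 2 ^ q := by
  induction q, hq using Nat.le_induction with
  | base => norm_num
  | succ q hq ih =>
    rw [pow_succ]
    omega

theorem succ_le_two_pow (n : ℕ) (hn : 3000 ≤ n) : n + 1 ≤ 2 ^ (n / 200) := by
  have h1 : 12 ≤ n / 200 := by omega
  have h2 := two_pow_ge (n / 200) h1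
  omega

/-- the real bound on the number of free digits -/
noncomputable def beta (m r : ℕ) : ℝ :=
  r * (m * (m - 1) / 2) + m * r - ((m - 6) * (m - 7) / 2 - r) + 14 * r

theorem beta_nonneg (m r : ℕ) (hm : 1 ≤ m) (hr : 2 ≤ r) : 0 ≤ beta m r := by
  unfold beta
  have h1 : (1 : ℝ) ≤ m := by exact_mod_cast hm
  have h2 : (2 : ℝ) ≤ r := by exact_mod_cast hr
  nlinarith [mul_nonneg (mul_nonneg (by linarith : (0 : ℝ) ≤ m) (by linarith : (0 : ℝ) ≤ m))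
    (by linarith : (0 : ℝ) ≤ (r : ℝ) - 1), mul_nonneg (by linarith : (0 : ℝ) ≤ m)
    (by linarith : (0 : ℝ) ≤ r)]

theorem nfree_le {m r n : ℕ} (hn : 3000 ≤ n) (hmr : m + r = n) (h1 : 19 * n ≤ 60 * r)
    (h2 : 60 * r ≤ 21 * n) (σ : Skel0 m r) (R₁ R : ℕ) (hY : σ.Y.card ≤ 3 * R₁)
    (hK : σ.K.card + R₁ = r) (hK' : σ.K'.card + R = r) (hR₁ : R₁ ≤ 2) (hR : 1 ≤ R) :
    (nfree0 σ : ℝ) ≤ beta m r := by
  have hR1 : (R : ℝ) = r - (σ.K'.card : ℝ) := by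
    have : ((σ.K'.card : ℝ)) + R = r := by exact_mod_cast hK'
    linarith
  have hR2 : (R₁ : ℝ) = r - (σ.K.card : ℝ) := by
    have : ((σ.K.card : ℝ)) + R₁ = r := by exact_mod_cast hK
    linarith
  have h := nfree0_le σ (σ.Y.card : ℝ) R R₁ rfl hR1 hR2
  have hy : σ.Y.card ≤ 6 := by omega
  have hm : 1950 ≤ m := by omega
  have hrm : r ≤ m := by omega
  set y : ℝ := (σ.Y.card : ℝ) with hy'
  have y0 : 0 ≤ y := Nat.cast_nonneg _
  have y6 : y ≤ 6 := by rw [hy']; exact_mod_cast hy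
  have R0 : (1 : ℝ) ≤ R := by exact_mod_cast hR
  have r0 : (0 : ℝ) ≤ r := Nat.cast_nonneg _
  have S2 : (R₁ : ℝ) ≤ 2 := by exact_mod_cast hR₁
  have S0 : (0 : ℝ) ≤ R₁ := Nat.cast_nonneg _
  have m0 : (1950 : ℝ) ≤ m := by exact_mod_cast hm
  have rm : (r : ℝ) ≤ m := by exact_mod_cast hrm
  have e1 : ((m : ℝ) - 6) * (m - 7) / 2 ≤ (m - y) * (m - y - 1) / 2 := by
    have a1 : (m : ℝ) - 6 ≤ m - y := by linarith
    have a2 : (m : ℝ) - 7 ≤ m - y - 1 := by linarith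
    have a3 : (0 : ℝ) ≤ (m : ℝ) - 7 := by linarith
    have a4 : (0 : ℝ) ≤ (m : ℝ) - y := by linarith
    have := mul_le_mul a1 a2 a3 a4
    linarith
  have e2 : (0 : ℝ) ≤ ((m : ℝ) - 6) * (m - 7) / 2 - r := by
    have a5 : (4 : ℝ) * m ≤ ((m : ℝ) - 6) * (m - 7) := by nlinarith
    linarith
  have e3 : ((m : ℝ) - 6) * (m - 7) / 2 - r ≤ R * ((m - y) * (m - y - 1) / 2) - R * r := by
    have a6 : ((m : ℝ) - 6) * (m - 7) / 2 - r ≤ (m - y) * (m - y - 1) / 2 - r := by linarith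
    have a7 : 0 ≤ (m - y) * (m - y - 1) / 2 - r := by linarith
    nlinarith [mul_le_mul_of_nonneg_right R0 a7]
  have e4 : y * R₁ * r ≤ 12 * r := by
    have : y * R₁ ≤ 12 := by nlinarith
    exact mul_le_mul_of_nonneg_right this r0
  have e5 : (R₁ : ℝ) * r ≤ 2 * r := mul_le_mul_of_nonneg_right S2 r0
  unfold beta
  linarith

theorem numerics {m r n B : ℕ} (hn : 3000 ≤ n) (hmr : m + r = n) (h1 : 19 * n ≤ 60 * r)
    (h2 : 60 * r ≤ 21 * n) (hB : (B : ℝ) ≤ beta m r) :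
    4 + 4 * (m / 100) * m + 4 * n * (n / 200) + B ≤
      m ^ 2 + (2 * n ^ 3 / 27 - 47 * n ^ 2 / 100) := by
  set E : ℕ := 2 * n ^ 3 / 27 - 47 * n ^ 2 / 100 with hE
  have hE1 : 2 * n ^ 3 / 27 ≤ E + 47 * n ^ 2 / 100 := by omega
  have hE2 : 2 * n ^ 3 ≤ 27 * (2 * n ^ 3 / 27) + 26 := by omega
  have hE3 : 100 * (47 * n ^ 2 / 100) ≤ 47 * n ^ 2 := by omega
  have r1 : ((2 * n ^ 3 / 27 : ℕ) : ℝ) ≤ (E : ℝ) + ((47 * n ^ 2 / 100 : ℕ) : ℝ) := by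
    exact_mod_cast hE1
  have r2 : 2 * (n : ℝ) ^ 3 ≤ 27 * ((2 * n ^ 3 / 27 : ℕ) : ℝ) + 26 := by
    exact_mod_cast hE2
  have r3 : 100 * ((47 * n ^ 2 / 100 : ℕ) : ℝ) ≤ 47 * (n : ℝ) ^ 2 := by
    exact_mod_cast hE3
  have r4 : 2 * (n : ℝ) ^ 3 / 27 - 1 - 47 * (n : ℝ) ^ 2 / 100 ≤ E := by linarith
  have q1 : 100 * ((m / 100 : ℕ) : ℝ) ≤ m := by
    have : 100 * (m / 100) ≤ m := by omega
    exact_mod_cast this
  have q2 : 200 * ((n / 200 : ℕ) : ℝ) ≤ n := by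
    have : 200 * (n / 200) ≤ n := by omega
    exact_mod_cast this
  have m0 : (0 : ℝ) ≤ m := Nat.cast_nonneg _
  have n0 : (3000 : ℝ) ≤ n := by exact_mod_cast hn
  have hN : (m : ℝ) + r = n := by exact_mod_cast hmr
  have g1 : 19 * (n : ℝ) ≤ 60 * r := by exact_mod_cast h1
  have g2 : 60 * (r : ℝ) ≤ 21 * n := by exact_mod_cast h2
  have t1 : 4 * ((m / 100 : ℕ) : ℝ) * m ≤ (m : ℝ) ^ 2 / 25 := by nlinarith
  have t2 : 4 * (n : ℝ) * ((n / 200 : ℕ) : ℝ) ≤ (n : ℝ) ^ 2 / 50 := by nlinarith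
  -- main inequality
  have am : (r : ℝ) * m ^ 2 / 2 ≤ 2 * (n : ℝ) ^ 3 / 27 := by
    rw [← hN]
    have r0 : (0 : ℝ) ≤ r := Nat.cast_nonneg _
    have : 0 ≤ ((m : ℝ) - 2 * r) ^ 2 * (4 * m + r) := by positivity
    nlinarith
  have q : (m : ℝ) * r / 2 - 73 * (m : ℝ) ^ 2 / 50 ≤ - (503 * (n : ℝ) ^ 2 / 1000) := by
    have b1 : (m : ℝ) ≥ 13 * n / 20 := by linarith
    have b2 : (r : ℝ) ≤ 7 * n / 20 := by linarith
    have b3 : (r : ℝ) / 2 - 73 * m / 50 ≤ - (774 * n / 1000) := by linarith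
    have b4 : (m : ℝ) * (r / 2 - 73 * m / 50) ≤ m * (- (774 * n / 1000)) :=
      mul_le_mul_of_nonneg_left b3 m0
    have b5 : (13 * (n : ℝ) / 20) * (774 * n / 1000) ≤ m * (774 * n / 1000) :=
      mul_le_mul_of_nonneg_right b1 (by positivity)
    nlinarith
  have lin : 13 * (m : ℝ) / 2 + 15 * r ≤ 15 * n := by
    rw [← hN]; linarith
  have hb : beta m r = r * m ^ 2 / 2 + (m * r / 2) - m ^ 2 / 2 + 13 * m / 2 + 15 * r - 21 := by
    unfold beta; ring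
  have key : 4 + (m : ℝ) ^ 2 / 25 + (n : ℝ) ^ 2 / 50 + beta m r ≤
      (m : ℝ) ^ 2 + (2 * (n : ℝ) ^ 3 / 27 - 1 - 47 * (n : ℝ) ^ 2 / 100) := by
    rw [hb]
    have c1 : 15 * (n : ℝ) ≤ 13 * (n : ℝ) ^ 2 / 1000 := by nlinarith
    linarith
  have fin : ((4 + 4 * (m / 100) * m + 4 * n * (n / 200) + B : ℕ) : ℝ) ≤
      ((m ^ 2 + E : ℕ) : ℝ) := by
    have z1 : ((4 + 4 * (m / 100) * m + 4 * n * (n / 200) + B : ℕ) : ℝ) =
        4 + 4 * ((m / 100 : ℕ) : ℝ) * m + 4 * n * ((n / 200 : ℕ) : ℝ) + B := by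
      simp only [Nat.cast_add, Nat.cast_mul, Nat.cast_ofNat]
    have z2 : ((m ^ 2 + E : ℕ) : ℝ) = (m : ℝ) ^ 2 + E := by
      simp only [Nat.cast_add, Nat.cast_pow]
    rw [z1, z2]
    linarith
  exact_mod_cast fin

theorem final {p m n B gl Q C : ℕ} (hp : 2 ≤ p) (hn : 3000 ≤ n) (E : ℕ)
    (hgl : p ^ (m ^ 2) ≤ p ^ 2 * gl)
    (hQ : Q * gl ≤ p ^ (4 * (m / 100) * m + 1) * C)
    (hC : C ≤ (n + 1) ^ (4 * n) * p ^ B + 1)
    (hE : 4 + 4 * (m / 100) * m + 4 * n * (n / 200) + B ≤ m ^ 2 + E) : Q ≤ p ^ E := by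
  have h1 : (n + 1) ^ (4 * n) ≤ p ^ (4 * n * (n / 200)) := by
    calc (n + 1) ^ (4 * n) ≤ (2 ^ (n / 200)) ^ (4 * n) :=
          Nat.pow_le_pow_left (succ_le_two_pow n hn) _
      _ = 2 ^ (4 * n * (n / 200)) := by rw [← pow_mul, mul_comm]
      _ ≤ p ^ (4 * n * (n / 200)) := Nat.pow_le_pow_left hp _
  have h2 : C ≤ p ^ (4 * n * (n / 200) + B + 1) := by
    have a1 : (n + 1) ^ (4 * n) * p ^ B ≤ p ^ (4 * n * (n / 200) + B) := by
      rw [pow_add]; exact Nat.mul_le_mul_right _ h1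
    have a2 : 1 ≤ p ^ (4 * n * (n / 200) + B) := Nat.one_le_pow _ _ (by omega)
    have a3 : p ^ (4 * n * (n / 200) + B + 1) = p ^ (4 * n * (n / 200) + B) * p := pow_succ _ _
    have a4 : p ^ (4 * n * (n / 200) + B) * 2 ≤ p ^ (4 * n * (n / 200) + B) * p :=
      Nat.mul_le_mul_left _ hp
    omega
  have h3 : p ^ (m ^ 2) * Q ≤ p ^ (m ^ 2) * p ^ E := by
    calc p ^ (m ^ 2) * Q ≤ (p ^ 2 * gl) * Q := Nat.mul_le_mul_right _ hgl
      _ = p ^ 2 * (Q * gl) := by ring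
      _ ≤ p ^ 2 * (p ^ (4 * (m / 100) * m + 1) * C) := Nat.mul_le_mul_left _ hQ
      _ ≤ p ^ 2 * (p ^ (4 * (m / 100) * m + 1) * p ^ (4 * n * (n / 200) + B + 1)) :=
          Nat.mul_le_mul_left _ (Nat.mul_le_mul_left _ h2)
      _ = p ^ (4 + 4 * (m / 100) * m + 4 * n * (n / 200) + B) := by
          rw [← pow_add, ← pow_add]; congr 1; ring
      _ ≤ p ^ (m ^ 2 + E) := Nat.pow_le_pow_right (by omega) hE
      _ = p ^ (m ^ 2) * p ^ E := pow_add _ _ _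
  exact Nat.le_of_mul_le_mul_left h3 (Nat.pow_pos (by omega))

end J_E3

/-- TARGET -/
theorem E3 : ∃ n₀ : ℕ, ∀ (p : ℕ), p.Prime → ∀ m r n : ℕ, n₀ ≤ n → m + r = n →
    19 * n ≤ 60 * r → 60 * r ≤ 21 * n →
    ∀ (α : Type) (𝒢 : α → Type) [∀ a, Group (𝒢 a)], (∀ a, Nat.card (𝒢 a) = p ^ n) →
    (∀ a, Nat.card (FrP p (𝒢 a)) = p ^ r) →
    (∀ a, Nat.card (FrP p (𝒢 a)) ≤ p ^ 2 * Nat.card (K1 p (𝒢 a))) →
    (∀ a, p * Nat.card (K1 p (𝒢 a)) ≤ Nat.card (FrP p (𝒢 a))) →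
    (∀ a, SmallIm p m (p ^ (4 * (m / 100) * m + 1)) (𝒢 a)) →
    Nat.card (Quot fun a b => Nonempty (𝒢 a ≃* 𝒢 b)) ≤ p ^ (2 * n ^ 3 / 27 - 47 * n ^ 2 / 100) := by
  refine ⟨3000, ?_⟩
  intro p hp m r n hn hmr h1 h2 α 𝒢 _ hcard hF hFK hKF hA
  have : Fact p.Prime := ⟨hp⟩
  have hm : 1 ≤ m := by omega
  have hr : 2 ≤ r := by omega
  obtain ⟨C, hCfin, code, hCcard, hcode⟩ := exists_codes p hp m r 2 1 ⌊J_E3.beta m r⌋₊ (by
    intro σ R₁ R hY hK hK' hR₁ hR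
    apply Nat.le_floor
    exact J_E3.nfree_le hn hmr h1 h2 σ R₁ R hY hK hK' hR₁ hR)
  have := hCfin
  have hfin : ∀ a, Finite (𝒢 a) := by
    intro a
    apply Nat.finite_of_card_ne_zero
    rw [hcard a]
    exact pow_ne_zero _ hp.ne_zero
  have hZ : ∀ a, Nat.card (FrP p (𝒢 a)) ≤ p ^ 2 * Nat.card (ZF p (𝒢 a)) := by
    intro a
    have := hfin a
    have hle : K1 p (𝒢 a) ≤ ZF p (𝒢 a) := by
      rintro x ⟨hx1, hx2, _⟩
      exact ⟨hx1, hx2⟩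
    have : Nat.card (K1 p (𝒢 a)) ≤ Nat.card (ZF p (𝒢 a)) :=
      Nat.card_le_card_of_injective (Subgroup.inclusion hle) (Subgroup.inclusion_injective hle)
    exact (hFK a).trans (Nat.mul_le_mul_left _ this)
  have hQ := orb_count m r (p ^ (4 * (m / 100) * m + 1)) α 𝒢
    (fun a => by rw [hcard a, hmr]) hF hA C (fun a => code (𝒢 a))
    (by
      intro a b u u' hu hu' hc
      exact hcode (𝒢 a) (𝒢 b) u u' (by rw [hcard a, hmr]) (by rw [hcard b, hmr]) (hF a) (hF b)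
        (hZ a) (hZ b) (by rw [pow_one]; exact hKF a) (by rw [pow_one]; exact hKF b) hu hu' hc)
  rw [hmr] at hCcard
  exact J_E3.final hp.two_le hn _ (gl_ge p m hp) hQ hCcard
    (J_E3.numerics hn hmr h1 h2 (Nat.floor_le (J_E3.beta_nonneg m r hm hr)))

end Pool.Agent.Helper252_Enum
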