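import Pool.Agent.Helper252_Enum.Defs2

set_option autoImplicit false

open scoped commutatorElement

namespace Pool.Agent.Helper252_Enum

namespace J_card_not_aGe

open Module

/-- the linear map attached to an additive automorphism -/
def lin {p m : ℕ} (g : Vp p m ≃+ Vp p m) : Vp p m →ₗ[ZMod p] Vp p m :=
  AddMonoidHom.toZModLinearMap p g.toAddMonoidHom

theorem lin_apply {p m : ℕ} (g : Vp p m ≃+ Vp p m) (v : Vp p m) : lin g v = g v := rfl

theorem lin_injective {p m : ℕ} : Function.Injective (lin : (Vp p m ≃+ Vp p m) → _) := by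
  intro g g' h
  ext1 v
  have := congrArg (fun F : Vp p m →ₗ[ZMod p] Vp p m => F v) h
  exact this

theorem card_lin (p m n : ℕ) [Fact p.Prime] :
    Nat.card ((Fin m → ZMod p) →ₗ[ZMod p] (Fin n → ZMod p)) = p ^ (m * n) := by
  rw [Nat.card_congr (LinearMap.toMatrix' (R := ZMod p) (m := Fin n) (n := Fin m)).toEquiv]
  show Nat.card (Fin n → Fin m → ZMod p) = _
  rw [Nat.card_eq_fintype_card]
  simp only [Fintype.card_pi, Finset.prod_const, Finset.card_univ, Fintype.card_fin,
    ZMod.card]
  rw [← pow_mul]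

/-- a map of rank at most `j` factors through `K^j` -/
theorem factor {K : Type*} [Field K] {V : Type*} [AddCommGroup V] [Module K V]
    [FiniteDimensional K V] (h : V →ₗ[K] V) (j : ℕ) (hj : finrank K (LinearMap.range h) ≤ j) :
    ∃ (α : V →ₗ[K] (Fin j → K)) (β : (Fin j → K) →ₗ[K] V), β ∘ₗ α = h := by
  set r := finrank K (LinearMap.range h) with hr
  let B := Module.finBasis K (LinearMap.range h)
  let s : (Fin j → K) →ₗ[K] (Fin r → K) := LinearMap.funLeft K K (Fin.castLE hj)
  have hs : Function.Surjective s :=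
    LinearMap.funLeft_surjective_of_injective K K _ (Fin.castLE_injective hj)
  let t : (Fin j → K) →ₗ[K] LinearMap.range h := B.equivFun.symm.toLinearMap ∘ₗ s
  have ht : Function.Surjective t := by
    intro y
    obtain ⟨z, hz⟩ := hs (B.equivFun y)
    refine ⟨z, ?_⟩
    show B.equivFun.symm (s z) = y
    rw [hz]
    exact B.equivFun.symm_apply_apply y
  obtain ⟨α, hα⟩ := Module.projective_lifting_property t h.rangeRestrict ht
  refine ⟨α, (LinearMap.range h).subtype ∘ₗ t, ?_⟩
  ext1 v
  have := congrArg (fun F : V →ₗ[K] LinearMap.range h => F v) hα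
  simp only [LinearMap.comp_apply] at this ⊢
  rw [this]
  rfl

theorem card_rank_le (p m j : ℕ) [Fact p.Prime] :
    Nat.card {h : Vp p m →ₗ[ZMod p] Vp p m // finrank (ZMod p) (LinearMap.range h) ≤ j} ≤
      p ^ (2 * j * m) := by
  have key : Nat.card {h : Vp p m →ₗ[ZMod p] Vp p m // finrank (ZMod p) (LinearMap.range h) ≤ j} ≤
      Nat.card ((Vp p m →ₗ[ZMod p] (Fin j → ZMod p)) × ((Fin j → ZMod p) →ₗ[ZMod p] Vp p m)) := by
    have : Finite (Vp p m →ₗ[ZMod p] (Fin j → ZMod p)) := DFunLike.finite _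
    have : Finite ((Fin j → ZMod p) →ₗ[ZMod p] Vp p m) := DFunLike.finite _
    apply Nat.card_le_card_of_surjective (fun q => (⟨q.2 ∘ₗ q.1, by
      calc finrank (ZMod p) (LinearMap.range (q.2 ∘ₗ q.1))
          ≤ finrank (ZMod p) (LinearMap.range q.2) :=
            Submodule.finrank_mono (LinearMap.range_comp_le_range _ _)
        _ ≤ finrank (ZMod p) (Fin j → ZMod p) := LinearMap.finrank_range_le _
        _ = j := by simp⟩ :
      {h : Vp p m →ₗ[ZMod p] Vp p m // finrank (ZMod p) (LinearMap.range h) ≤ j}))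
    rintro ⟨h, hh⟩
    obtain ⟨α, β, hαβ⟩ := factor h j hh
    exact ⟨(α, β), Subtype.ext hαβ⟩
  refine key.trans (le_of_eq ?_)
  rw [Nat.card_prod, card_lin, card_lin, ← pow_add]
  congr 1
  ring

/-- extension of a family by one vector -/
theorem extend_li {K : Type*} [Field K] {V : Type*} [AddCommGroup V] [Module K V] {b : ℕ}
    (g : V →ₗ[K] V) (w : Fin b → V)
    (hw : LinearIndependent K (Sum.elim w (fun i => g (w i)))) (v : V)
    (hv : v ∉ Submodule.span K (Set.range (Sum.elim w (fun i => g (w i)))))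
    (hgv : ∀ c : K, g v - c • v ∉ Submodule.span K (Set.range (Sum.elim w (fun i => g (w i))))) :
    LinearIndependent K (Sum.elim (Fin.cons v w : Fin (b + 1) → V)
      (fun i => g ((Fin.cons v w : Fin (b + 1) → V) i))) := by
  set P := Submodule.span K (Set.range (Sum.elim w (fun i => g (w i)))) with hP
  rw [Fintype.linearIndependent_iff]
  intro c hc
  rw [Fintype.sum_sum_type, Fin.sum_univ_succ, Fin.sum_univ_succ] at hc
  simp only [Sum.elim_inl, Sum.elim_inr, Fin.cons_zero, Fin.cons_succ] at hc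
  have m1 : ∑ i : Fin b, c (Sum.inl i.succ) • w i ∈ P :=
    Submodule.sum_mem _ fun i _ => Submodule.smul_mem _ _ (Submodule.subset_span ⟨Sum.inl i, rfl⟩)
  have m2 : ∑ i : Fin b, c (Sum.inr i.succ) • g (w i) ∈ P :=
    Submodule.sum_mem _ fun i _ => Submodule.smul_mem _ _ (Submodule.subset_span ⟨Sum.inr i, rfl⟩)
  have z1 : c (Sum.inr 0) = 0 := by
    by_contra hne
    apply hgv (-((c (Sum.inr 0))⁻¹ * c (Sum.inl 0)))
    have e : g v - (-((c (Sum.inr 0))⁻¹ * c (Sum.inl 0))) • v =
        -((c (Sum.inr 0))⁻¹ • (∑ i : Fin b, c (Sum.inl i.succ) • w i +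
          ∑ i : Fin b, c (Sum.inr i.succ) • g (w i))) := by
      have e2 : ∑ i : Fin b, c (Sum.inl i.succ) • w i + ∑ i : Fin b, c (Sum.inr i.succ) • g (w i) =
          -(c (Sum.inl 0) • v) - c (Sum.inr 0) • g v := by
        rw [← sub_eq_zero, ← hc]
        abel
      rw [e2, smul_sub, smul_neg, smul_smul, smul_smul, inv_mul_cancel₀ hne, one_smul, neg_smul]
      abel
    rw [e]
    exact Submodule.neg_mem _ (Submodule.smul_mem _ _ (Submodule.add_mem _ m1 m2))
  have z2 : c (Sum.inl 0) = 0 := by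
    by_contra hne
    apply hv
    rw [z1, zero_smul, zero_add] at hc
    have e : v = -((c (Sum.inl 0))⁻¹ • (∑ i : Fin b, c (Sum.inl i.succ) • w i +
          ∑ i : Fin b, c (Sum.inr i.succ) • g (w i))) := by
      have e2 : ∑ i : Fin b, c (Sum.inl i.succ) • w i + ∑ i : Fin b, c (Sum.inr i.succ) • g (w i) =
          -(c (Sum.inl 0) • v) := by
        rw [← sub_eq_zero, ← hc]
        abel
      rw [e2, smul_neg, neg_neg, smul_smul, inv_mul_cancel₀ hne, one_smul]
    rw [e]
    exact Submodule.neg_mem _ (Submodule.smul_mem _ _ (Submodule.add_mem _ m1 m2))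
  rw [z1, z2, zero_smul, zero_smul, zero_add, zero_add] at hc
  rw [Fintype.linearIndependent_iff] at hw
  have hc' := hw (Sum.elim (fun i => c (Sum.inl i.succ)) (fun i => c (Sum.inr i.succ))) (by
    rw [Fintype.sum_sum_type]
    simpa using hc)
  rintro (i | i)
  · refine Fin.cases z2 (fun k => ?_) i
    exact hc' (Sum.inl k)
  · refine Fin.cases z1 (fun k => ?_) i
    exact hc' (Sum.inr k)

/-- the map is scalar modulo a small subspace -/
theorem scalar_mod {K : Type*} [Field K] {V : Type*} [AddCommGroup V] [Module K V]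
    [FiniteDimensional K V] (g : V →ₗ[K] V) (P : Submodule K V)
    (hdim : finrank K P + 2 ≤ finrank K V) (h : ∀ v, v ∉ P → ∃ c : K, g v - c • v ∈ P) :
    ∃ c : K, ∀ x, g x - c • x ∈ P := by
  have hq : 2 ≤ finrank K (V ⧸ P) := by
    have := Submodule.finrank_quotient_add_finrank P
    omega
  have hmk : ∀ (x : V) (c : K), g x - c • x ∈ P ↔ P.mkQ (g x) = c • P.mkQ x := by
    intro x c
    rw [← map_smul, ← sub_eq_zero, ← map_sub]
    exact (Submodule.Quotient.mk_eq_zero P).symm
  have hmk0 : ∀ x : V, x ∈ P ↔ P.mkQ x = 0 := fun x => (Submodule.Quotient.mk_eq_zero P).symm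
  -- a vector `u` outside `P`
  obtain ⟨q, hq0⟩ : ∃ q : V ⧸ P, q ≠ 0 := by
    have : Nontrivial (V ⧸ P) := Module.nontrivial_of_finrank_pos (R := K) (by omega)
    exact exists_ne 0
  obtain ⟨u, rfl⟩ := Submodule.mkQ_surjective P q
  obtain ⟨l, hl⟩ := h u (fun hu => hq0 ((hmk0 u).1 hu))
  rw [hmk] at hl
  -- a vector outside the span of `u`
  obtain ⟨q1, hq1⟩ : ∃ q1 : V ⧸ P, q1 ∉ Submodule.span K {P.mkQ u} := by
    by_contra hcon
    push Not at hcon
    have htop : Submodule.span K {P.mkQ u} = ⊤ := by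
      rw [eq_top_iff]
      exact fun x _ => hcon x
    have h1 : finrank K (Submodule.span K {P.mkQ u}) = 1 := finrank_span_singleton hq0
    rw [htop, finrank_top] at h1
    omega
  obtain ⟨v0, rfl⟩ := Submodule.mkQ_surjective P q1
  have hind : ∀ x : V, P.mkQ x ∉ Submodule.span K {P.mkQ u} → P.mkQ (g x) = l • P.mkQ x := by
    intro x hx
    have hx0 : P.mkQ x ≠ 0 := fun h0 => hx (by rw [h0]; exact Submodule.zero_mem _)
    have hxu0 : P.mkQ (x + u) ≠ 0 := by
      intro h0
      apply hx
      rw [map_add] at h0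
      rw [eq_neg_of_add_eq_zero_left h0]
      exact Submodule.neg_mem _ (Submodule.mem_span_singleton_self _)
    obtain ⟨μ, hμ⟩ := h x (fun hu => hx0 ((hmk0 x).1 hu))
    obtain ⟨ν, hν⟩ := h (x + u) (fun hu => hxu0 ((hmk0 _).1 hu))
    rw [hmk] at hμ hν
    rw [map_add g, map_add P.mkQ, map_add P.mkQ, hμ, hl, smul_add] at hν
    have e1 : (μ - ν) • P.mkQ x = (ν - l) • P.mkQ u := by
      rw [sub_smul, sub_smul]
      rw [← sub_eq_zero] at hν ⊢
      rw [← hν]
      abel
    have e2 : μ = ν := by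
      by_contra hne
      apply hx
      have hne' : μ - ν ≠ 0 := sub_ne_zero.2 hne
      have e3 : P.mkQ x = ((μ - ν)⁻¹ * (ν - l)) • P.mkQ u := by
        rw [mul_smul, ← e1, smul_smul, inv_mul_cancel₀ hne', one_smul]
      rw [e3]
      exact Submodule.smul_mem _ _ (Submodule.mem_span_singleton_self _)
    rw [e2, sub_self, zero_smul] at e1
    have e4 : ν = l := by
      rcases smul_eq_zero.1 e1.symm with h0 | h0
      · exact sub_eq_zero.1 h0
      · exact absurd h0 hq0
    rw [hμ, e2, e4]
  refine ⟨l, fun x => ?_⟩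
  rw [hmk]
  by_cases hx : P.mkQ x ∈ Submodule.span K {P.mkQ u}
  · have hxv : P.mkQ (x + v0) ∉ Submodule.span K {P.mkQ u} := by
      intro h0
      apply hq1
      rw [map_add] at h0
      exact (Submodule.add_mem_iff_right _ hx).1 h0
    have e1 := hind _ hxv
    have e2 := hind _ hq1
    rw [map_add g, map_add P.mkQ, map_add P.mkQ, e2, smul_add] at e1
    exact add_right_cancel e1
  · exact hind x hx

/-- every automorphism in question is scalar up to a map of small rank -/
theorem small_rank {p m a : ℕ} [Fact p.Prime] (hm : 2 * a + 2 ≤ m) (g : Vp p m ≃+ Vp p m)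
    (hg : ¬ aGe g (a + 1)) :
    ∃ c : ZMod p, finrank (ZMod p) (LinearMap.range (lin g - c • LinearMap.id)) ≤ 2 * a := by
  have h0 : aGe g 0 := by
    refine ⟨Fin.elim0, ?_⟩
    have : IsEmpty (Fin 0 ⊕ Fin 0) := inferInstance
    exact linearIndependent_empty_type
  obtain ⟨b, hba, hb, hb'⟩ : ∃ b, b ≤ a ∧ aGe g b ∧ ¬ aGe g (b + 1) := by
    by_contra hcon
    push Not at hcon
    have : ∀ n, n ≤ a + 1 → aGe g n := by
      intro n
      induction n with
      | zero => intro _; exact h0
      | succ n ih => intro hn; exact hcon n (by omega) (ih (by omega))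
    exact hg (this (a + 1) le_rfl)
  obtain ⟨w, hw⟩ := hb
  set P := Submodule.span (ZMod p) (Set.range (Sum.elim w (fun i => lin g (w i)))) with hP
  have hPd : finrank (ZMod p) P ≤ 2 * b := by
    refine (finrank_range_le_card (R := ZMod p) (Sum.elim w (fun i => lin g (w i)))).trans ?_
    rw [Fintype.card_sum, Fintype.card_fin]
    omega
  have hV : finrank (ZMod p) (Vp p m) = m := by simp [Vp]
  obtain ⟨c, hc⟩ := scalar_mod (lin g) P (by rw [hV]; omega) (by
    intro v hv
    by_contra hcon
    push Not at hcon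
    apply hb'
    exact ⟨Fin.cons v w, extend_li (lin g) w hw v hv hcon⟩)
  refine ⟨c, ?_⟩
  have hle : LinearMap.range (lin g - c • LinearMap.id) ≤ P := by
    rintro _ ⟨x, rfl⟩
    have := hc x
    simpa using this
  calc finrank (ZMod p) (LinearMap.range (lin g - c • LinearMap.id)) ≤ finrank (ZMod p) P :=
        Submodule.finrank_mono hle
    _ ≤ 2 * a := by omega

end J_card_not_aGe

/-- TARGET -/
theorem card_not_aGe (p m a : ℕ) [Fact p.Prime] :
    Nat.card {g : Vp p m ≃+ Vp p m // ¬ aGe g (a + 1)} ≤ p ^ (4 * a * m + 1) := by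
  have hp : 0 < p := (Fact.out : p.Prime).pos
  have : Finite (Vp p m →ₗ[ZMod p] Vp p m) := DFunLike.finite _
  by_cases hm : 2 * a + 2 ≤ m
  · -- scalar plus small rank
    classical
    choose c hc using fun g : {g : Vp p m ≃+ Vp p m // ¬ aGe g (a + 1)} =>
      J_card_not_aGe.small_rank hm g.1 g.2
    have hinj : Function.Injective (fun g : {g : Vp p m ≃+ Vp p m // ¬ aGe g (a + 1)} =>
        ((c g, ⟨J_card_not_aGe.lin g.1 - c g • LinearMap.id, hc g⟩) :
          ZMod p × {h : Vp p m →ₗ[ZMod p] Vp p m //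
            Module.finrank (ZMod p) (LinearMap.range h) ≤ 2 * a})) := by
      intro g g' hgg
      simp only [Prod.mk.injEq, Subtype.mk.injEq] at hgg
      obtain ⟨h1, h2⟩ := hgg
      rw [h1] at h2
      have h3 : J_card_not_aGe.lin g.1 = J_card_not_aGe.lin g'.1 := sub_left_injective h2
      exact Subtype.ext (J_card_not_aGe.lin_injective h3)
    calc Nat.card {g : Vp p m ≃+ Vp p m // ¬ aGe g (a + 1)}
        ≤ Nat.card (ZMod p × {h : Vp p m →ₗ[ZMod p] Vp p m //
            Module.finrank (ZMod p) (LinearMap.range h) ≤ 2 * a}) :=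
          Nat.card_le_card_of_injective _ hinj
      _ = p * Nat.card {h : Vp p m →ₗ[ZMod p] Vp p m //
            Module.finrank (ZMod p) (LinearMap.range h) ≤ 2 * a} := by
          rw [Nat.card_prod, Nat.card_zmod]
      _ ≤ p * p ^ (2 * (2 * a) * m) := Nat.mul_le_mul_left _ (J_card_not_aGe.card_rank_le p m (2 * a))
      _ = p ^ (4 * a * m + 1) := by
          rw [← pow_succ']
          congr 1
          ring
  · calc Nat.card {g : Vp p m ≃+ Vp p m // ¬ aGe g (a + 1)}
        ≤ Nat.card (Vp p m →ₗ[ZMod p] Vp p m) :=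
          Nat.card_le_card_of_injective (fun g => J_card_not_aGe.lin g.1)
            (fun g g' h => Subtype.ext (J_card_not_aGe.lin_injective h))
      _ = p ^ (m * m) := J_card_not_aGe.card_lin p m m
      _ ≤ p ^ (4 * a * m + 1) := by
          apply Nat.pow_le_pow_right hp
          push Not at hm
          rcases Nat.eq_zero_or_pos a with h0 | h0
          · subst h0
            have : m ≤ 1 := by omega
            interval_cases m <;> simp
          · have h1 : m ≤ 2 * a + 1 := by omega
            nlinarith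

end Pool.Agent.Helper252_Enum
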