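import Pool.Agent.Helper252_Enum.Defs2

set_option autoImplicit false

open scoped commutatorElement

namespace Pool.Agent.Helper252_Enum

namespace J_card_compat_c

theorem ext_of_li {K ι V X : Type*} [Field K] [AddCommGroup V] [Module K V] [AddCommGroup X]
    [Module K X] (v : ι → V) (hv : LinearIndependent K v) (f : ι → X) :
    ∃ F : V →ₗ[K] X, ∀ i, F (v i) = f i := by
  obtain ⟨F, hF⟩ := ((Module.Basis.span hv).constr K f).exists_extend
  refine ⟨F, fun i => ?_⟩
  have h1 := LinearMap.congr_fun hF (Module.Basis.span hv i)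
  rw [Module.Basis.constr_basis, LinearMap.comp_apply, Submodule.subtype_apply,
    Module.Basis.span_apply] at h1
  exact h1

/-- complement of an independent family -/
theorem exists_compl {K V : Type*} [Field K] [AddCommGroup V] [Module K V] [FiniteDimensional K V]
    {ι : Type*} [Fintype ι] (v : ι → V) (hv : LinearIndependent K v) (n : ℕ)
    (hn : Fintype.card ι + n = Module.finrank K V) :
    ∃ u : Fin n → V, LinearIndependent K (Sum.elim v u) := by
  obtain ⟨Q, hQ⟩ := Submodule.exists_isCompl (Submodule.span K (Set.range v))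
  have h1 : Module.finrank K (Submodule.span K (Set.range v)) = Fintype.card ι :=
    finrank_span_eq_card hv
  have h2 := Submodule.finrank_add_eq_of_isCompl hQ
  have h3 : Module.finrank K Q = n := by omega
  let b := Module.finBasisOfFinrankEq K Q h3
  refine ⟨fun i => (b i : V), ?_⟩
  refine LinearIndependent.sum_type hv ?_ ?_
  · exact b.linearIndependent.map' Q.subtype Q.ker_subtype
  · refine hQ.disjoint.mono_right ?_
    rw [Submodule.span_le]
    rintro _ ⟨i, rfl⟩
    exact (b i).2

/-- alternating biadditive maps -/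
def Alt (p m r : ℕ) : AddSubgroup (Vp p m → Vp p m → Vp p r) where
  carrier := {c | (∀ v v' w, c (v + v') w = c v w + c v' w) ∧
      (∀ v w w', c v (w + w') = c v w + c v w') ∧ (∀ v, c v v = 0)}
  zero_mem' := ⟨fun v v' w => by simp, fun v w w' => by simp, fun v => rfl⟩
  add_mem' := by
    rintro c d ⟨h1, h2, h3⟩ ⟨h1', h2', h3'⟩
    refine ⟨fun v v' w => ?_, fun v w w' => ?_, fun v => ?_⟩
    · simp only [Pi.add_apply, h1, h1']; abel
    · simp only [Pi.add_apply, h2, h2']; abel
    · simp only [Pi.add_apply, h3, h3']; abel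
  neg_mem' := by
    rintro c ⟨h1, h2, h3⟩
    refine ⟨fun v v' w => ?_, fun v w w' => ?_, fun v => ?_⟩
    · simp only [Pi.neg_apply, h1]; abel
    · simp only [Pi.neg_apply, h2]; abel
    · simp only [Pi.neg_apply, h3]; abel

theorem add_ext {p m r : ℕ} (f g : Vp p m → Vp p r)
    (hf : ∀ v w, f (v + w) = f v + f w) (hg : ∀ v w, g (v + w) = g v + g w)
    (h : ∀ i, f (Pi.single i 1) = g (Pi.single i 1)) : f = g := by
  let F : Vp p m →ₗ[ZMod p] Vp p r := (AddMonoidHom.mk' f hf).toZModLinearMap p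
  let F' : Vp p m →ₗ[ZMod p] Vp p r := (AddMonoidHom.mk' g hg).toZModLinearMap p
  have h1 : F = F' := by
    refine (Pi.basisFun (ZMod p) (Fin m)).ext fun i => ?_
    rw [Pi.basisFun_apply]
    exact h i
  funext v
  exact LinearMap.congr_fun h1 v

theorem card_Alt (p m r : ℕ) [Fact p.Prime] :
    Nat.card (Alt p m r) ≤ p ^ (r * (m * (m - 1) / 2)) := by
  have hc : Nat.card ((Σ j : Fin m, Fin (j : ℕ)) → Vp p r) = p ^ (r * (m * (m - 1) / 2)) := by
    rw [Nat.card_eq_fintype_card, Fintype.card_fun, Fintype.card_sigma, Fintype.card_fun,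
      ZMod.card, Fintype.card_fin]
    simp only [Fintype.card_fin]
    rw [Fin.sum_univ_eq_sum_range (fun i => i) m, Finset.sum_range_id, ← pow_mul]
  rw [← hc]
  refine Nat.card_le_card_of_injective (fun (c : Alt p m r) (ij : Σ j : Fin m, Fin (j : ℕ)) =>
    c.1 (Pi.single (⟨ij.2, by have := ij.2.2; have := ij.1.2; omega⟩ : Fin m) 1)
      (Pi.single ij.1 1)) ?_
  rintro ⟨c, h1, h2, h3⟩ ⟨d, h1', h2', h3'⟩ hcd
  apply Subtype.ext
  change c = d
  have key : ∀ i j : Fin m, i < j → c (Pi.single i 1) (Pi.single j 1) =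
      d (Pi.single i 1) (Pi.single j 1) := by
    intro i j hij
    exact congrFun hcd ⟨j, ⟨(i : ℕ), hij⟩⟩
  have skew : ∀ (c : Vp p m → Vp p m → Vp p r), (∀ v v' w, c (v + v') w = c v w + c v' w) →
      (∀ v w w', c v (w + w') = c v w + c v w') → (∀ v, c v v = 0) → ∀ v w, c v w = -c w v := by
    intro c h1 h2 h3 v w
    have := h3 (v + w)
    rw [h1, h2, h2, h3, h3, zero_add, add_zero] at this
    exact eq_neg_of_add_eq_zero_left this
  have key2 : ∀ i j : Fin m, c (Pi.single i 1) (Pi.single j 1) =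
      d (Pi.single i 1) (Pi.single j 1) := by
    intro i j
    rcases lt_trichotomy i j with h | h | h
    · exact key i j h
    · subst h
      rw [h3, h3']
    · rw [skew c h1 h2 h3, skew d h1' h2' h3', key j i h]
  have key3 : ∀ i : Fin m, c (Pi.single i 1) = d (Pi.single i 1) := fun i =>
    add_ext _ _ (h2 _) (h2' _) fun j => key2 i j
  funext v w
  have := add_ext (fun v => c v w) (fun v => d v w) (fun v v' => h1 v v' w)
    (fun v v' => h1' v v' w) fun i => congrFun (key3 i) w
  exact congrFun this v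

end J_card_compat_c

/-- TARGET -/
theorem card_compat_c (p m r a : ℕ) [Fact p.Prime] (ha : 2 * a ≤ m) (g : Vp p m ≃+ Vp p m)
    (g' : Vp p r ≃+ Vp p r) (hg : aGe g a) :
    Nat.card {c : Vp p m → Vp p m → Vp p r // (∀ v v' w, c (v + v') w = c v w + c v' w) ∧
      (∀ v w w', c v (w + w') = c v w + c v w') ∧ (∀ v, c v v = 0) ∧
      ∀ v w, c (g v) (g w) = g' (c v w)} * p ^ (r * (a * (m - 2 * a)))
      ≤ p ^ (r * (m * (m - 1) / 2)) := by
  classical
  obtain ⟨w, hw⟩ := hg
  obtain ⟨u, hu⟩ := J_card_compat_c.exists_compl (K := ZMod p) (Sum.elim w (fun i => g (w i))) hw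
    (m - 2 * a) (by
      rw [Fintype.card_sum, Fintype.card_fin, Module.finrank_fintype_fun_eq_card,
        Fintype.card_fin]
      omega)
  -- the coordinate functionals of `g (w i)`
  have hμ : ∀ i : Fin a, ∃ μ : Vp p m →ₗ[ZMod p] ZMod p, (∀ i', μ (w i') = 0) ∧
      (∀ i', μ (g (w i')) = if i' = i then 1 else 0) ∧ ∀ j, μ (u j) = 0 := by
    intro i
    obtain ⟨μ, hμ⟩ := J_card_compat_c.ext_of_li _ hu
      (Sum.elim (Sum.elim (fun _ => 0) (fun i' => if i' = i then (1 : ZMod p) else 0)) (fun _ => 0))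
    exact ⟨μ, fun i' => hμ (Sum.inl (Sum.inl i')), fun i' => hμ (Sum.inl (Sum.inr i')),
      fun j => hμ (Sum.inr j)⟩
  choose μ hμ1 hμ2 hμ3 using hμ
  let gL : Vp p m →ₗ[ZMod p] Vp p m := (g : Vp p m →+ Vp p m).toZModLinearMap p
  have hwu : LinearIndependent (ZMod p) (Sum.elim w u) := by
    have h1 := hu.comp (Sum.map Sum.inl id) (Sum.map_injective.2 ⟨Sum.inl_injective,
      Function.injective_id⟩)
    have h2 : (Sum.elim (Sum.elim w fun i => g (w i)) u) ∘ (Sum.map Sum.inl id) = Sum.elim w u := by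
      funext x
      rcases x with x | x <;> rfl
    rwa [h2] at h1
  have hgwu : LinearIndependent (ZMod p) (gL ∘ Sum.elim w u) := by
    refine hwu.map' gL ?_
    rw [LinearMap.ker_eq_bot]
    exact g.injective
  let T : J_card_compat_c.Alt p m r →+ (Fin a × Fin (m - 2 * a) → Vp p r) :=
    { toFun := fun c ij => c.1 (g (w ij.1)) (g (u ij.2)) - g' (c.1 (w ij.1) (u ij.2))
      map_zero' := by
        funext ij
        change (0 : Vp p r) - g' 0 = 0
        rw [map_zero, sub_zero]
      map_add' := by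
        intro c d
        funext ij
        change (c.1 _ _ + d.1 _ _) - g' (c.1 _ _ + d.1 _ _) = (c.1 _ _ - g' _) + (d.1 _ _ - g' _)
        rw [map_add]
        abel }
  have hT : Function.Surjective T := by
    intro t
    have hf : ∀ i : Fin a, ∃ f : Vp p m →ₗ[ZMod p] Vp p r, (∀ i', f (g (w i')) = 0) ∧
        ∀ j, f (g (u j)) = t (i, j) := by
      intro i
      obtain ⟨f, hf⟩ := J_card_compat_c.ext_of_li _ hgwu
        (Sum.elim (fun _ => (0 : Vp p r)) (fun j => t (i, j)))
      exact ⟨f, fun i' => hf (Sum.inl i'), fun j => hf (Sum.inr j)⟩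
    choose f hf1 hf2 using hf
    refine ⟨⟨fun x y => ∑ i, (μ i x • f i y - μ i y • f i x), ?_, ?_, ?_⟩, ?_⟩
    · intro v v' w
      rw [← Finset.sum_add_distrib]
      refine Finset.sum_congr rfl fun i _ => ?_
      rw [map_add, map_add, add_smul, smul_add]
      abel
    · intro v w w'
      rw [← Finset.sum_add_distrib]
      refine Finset.sum_congr rfl fun i _ => ?_
      rw [map_add, map_add, add_smul, smul_add]
      abel
    · intro v
      refine Finset.sum_eq_zero fun i _ => ?_
      rw [sub_self]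
    · funext ⟨i, j⟩
      change (∑ i', (μ i' (g (w i)) • f i' (g (u j)) - μ i' (g (u j)) • f i' (g (w i)))) -
        g' (∑ i', (μ i' (w i) • f i' (u j) - μ i' (u j) • f i' (w i))) = t (i, j)
      have e1 : (∑ i', (μ i' (w i) • f i' (u j) - μ i' (u j) • f i' (w i))) = 0 := by
        refine Finset.sum_eq_zero fun i' _ => ?_
        rw [hμ1, hμ3, zero_smul, zero_smul, sub_zero]
      have e2 : (∑ i', (μ i' (g (w i)) • f i' (g (u j)) - μ i' (g (u j)) • f i' (g (w i)))) =
          t (i, j) := by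
        rw [Finset.sum_eq_single i]
        · rw [hμ2, if_pos rfl, one_smul, hf1, smul_zero, sub_zero, hf2]
        · intro i' _ hne
          rw [hμ2, if_neg (Ne.symm hne), zero_smul, hf1, smul_zero, sub_zero]
        · intro h
          exact absurd (Finset.mem_univ i) h
      rw [e1, e2, map_zero, sub_zero]
  have hcard1 : Nat.card (J_card_compat_c.Alt p m r) =
      Nat.card (Fin a × Fin (m - 2 * a) → Vp p r) * Nat.card T.ker := by
    rw [AddSubgroup.card_eq_card_quotient_mul_card_addSubgroup T.ker]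
    congr 1
    exact Nat.card_congr (QuotientAddGroup.quotientKerEquivOfSurjective T hT).toEquiv
  have hcard2 : Nat.card (Fin a × Fin (m - 2 * a) → Vp p r) = p ^ (r * (a * (m - 2 * a))) := by
    rw [Nat.card_eq_fintype_card, Fintype.card_fun, Fintype.card_fun, ZMod.card,
      Fintype.card_fin, Fintype.card_prod, Fintype.card_fin, Fintype.card_fin, ← pow_mul]
  have hle : Nat.card {c : Vp p m → Vp p m → Vp p r // (∀ v v' w, c (v + v') w = c v w + c v' w) ∧
      (∀ v w w', c v (w + w') = c v w + c v w') ∧ (∀ v, c v v = 0) ∧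
      ∀ v w, c (g v) (g w) = g' (c v w)} ≤ Nat.card T.ker := by
    refine Nat.card_le_card_of_injective
      (fun c => (⟨⟨c.1, c.2.1, c.2.2.1, c.2.2.2.1⟩, ?_⟩ : T.ker)) ?_
    · rw [AddMonoidHom.mem_ker]
      funext ij
      change c.1 _ _ - g' (c.1 _ _) = 0
      rw [c.2.2.2.2, sub_self]
    · intro c d hcd
      apply Subtype.ext
      have h1 : (⟨c.1, c.2.1, c.2.2.1, c.2.2.2.1⟩ : J_card_compat_c.Alt p m r) =
          ⟨d.1, d.2.1, d.2.2.1, d.2.2.2.1⟩ := congrArg Subtype.val hcd
      exact congrArg (fun z : J_card_compat_c.Alt p m r => (z : Vp p m → Vp p m → Vp p r)) h1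
  calc _ ≤ Nat.card T.ker * p ^ (r * (a * (m - 2 * a))) := Nat.mul_le_mul_right _ hle
    _ = Nat.card (J_card_compat_c.Alt p m r) := by rw [hcard1, hcard2, mul_comm]
    _ ≤ _ := J_card_compat_c.card_Alt p m r

end Pool.Agent.Helper252_Enum
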