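import Pool.Agent.Helper252_Enum.Defs2

set_option autoImplicit false

open scoped commutatorElement

namespace Pool.Agent.Helper252_Enum

/-
PROOF OF THE TARGET.
V = Vp p m with standard basis e_i, W = Vp p r, N = m(m+1)/2. Restriction to the basis gives a bijection between {(c,q) : IsTD} and (I → W), where I = {(i,j) : i<j} ⊕ Fin m has N elements: (c,q) ↦ (c(e_i,e_j), q(e_i)). Injective: c is biadditive so ZMod p-bilinear, alternating; q(v+w) = q v + q w + [p=2] c v w determines q from its values on the e_i
(q(0) = 0: q 0 = q 0 + q 0 + 0; for k : ℕ, q(k v) = k q(v) (+ (k choose 2) c v v = 0)). Surjective: given values b_ij (i<j), d_i, put c(v,w) = Σ_{i<j} (v_i w_j - v_j w_i) b_ij and q(v) = Σ v_i d_i for p odd, q(v) = Σ v_i d_i + Σ_{i<j} v_i v_j b_ij for p = 2 (in ZMod 2, v_i^2 = v_i; check q(v+w) - q v - q w = Σ_{i<j} (v_i w_j + w_i v_j) b_ij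
= c v w as -1 = 1). Spans ⇔ the values b_ij, d_i span W (all values of c and q are in the span of the basis values and conversely). So the count is the number of spanning families of N vectors in (ZMod p)^r = number of r × N matrices of rank r = number of linearly independent r-tuples in (ZMod p)^N (rows) = ∏_{i<r} (p^N - p^i)
(Mathlib: card_linearIndependent, for r <= N; for r > N both sides are 0: the factor i = N vanishes).
-/

namespace J_card_TD_spans

open Finset Module

/-- index set of the basis values -/
abbrev Ix (m : ℕ) : Type := {x : Fin m × Fin m // x.1 < x.2} ⊕ Fin m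

theorem card_pairs (m : ℕ) : Fintype.card {x : Fin m × Fin m // x.1 < x.2} * 2 = m * (m - 1) := by
  rw [Fintype.card_subtype, Finset.card_filter, Fintype.sum_prod_type_right]
  have h : ∀ j : Fin m, ∑ i : Fin m, (if i < j then 1 else 0) = (j : ℕ) := by
    intro j
    rw [← Finset.card_filter]
    have : (univ.filter fun i : Fin m => i < j) = Finset.Iio j := by
      ext i; simp
    rw [this, Fin.card_Iio]
  rw [Finset.sum_congr rfl fun j _ => h j, Fin.sum_univ_eq_sum_range (fun i => i) m,
    Finset.sum_range_id_mul_two]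

theorem card_Ix (m : ℕ) : Fintype.card (Ix m) = m * (m + 1) / 2 := by
  rw [Fintype.card_sum, Fintype.card_fin]
  have h := card_pairs m
  symm
  refine Nat.div_eq_of_eq_mul_left (by norm_num) ?_
  rw [add_mul, h]
  cases m with
  | zero => rfl
  | succ k => simp only [Nat.add_sub_cancel]; ring

variable {p m r : ℕ} [Fact p.Prime]

/-- basis vectors -/
def ev (p m : ℕ) (i : Fin m) : Vp p m := Pi.single i 1

/-- basis values -/
def vals (c : Vp p m → Vp p m → Vp p r) (q : Vp p m → Vp p r) : Ix m → Vp p r
  | Sum.inl x => c (ev p m x.1.1) (ev p m x.1.2)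
  | Sum.inr i => q (ev p m i)

/-- the bilinear map with given values -/
def mkc (a : Ix m → Vp p r) (v w : Vp p m) : Vp p r :=
  ∑ x : {x : Fin m × Fin m // x.1 < x.2}, (v x.1.1 * w x.1.2 - v x.1.2 * w x.1.1) • a (Sum.inl x)

/-- the power map with given values -/
def mkq (a : Ix m → Vp p r) (v : Vp p m) : Vp p r :=
  (∑ i, v i • a (Sum.inr i)) + if p = 2 then
    ∑ x : {x : Fin m × Fin m // x.1 < x.2}, (v x.1.1 * v x.1.2) • a (Sum.inl x) else 0

theorem mk_isTD (a : Ix m → Vp p r) : IsTD p m r (mkc a) (mkq a) where
  add_left := by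
    intro v v' w
    unfold mkc
    rw [← Finset.sum_add_distrib]
    refine Finset.sum_congr rfl fun x _ => ?_
    rw [← add_smul]
    congr 1
    simp only [Pi.add_apply]
    ring
  add_right := by
    intro v w w'
    unfold mkc
    rw [← Finset.sum_add_distrib]
    refine Finset.sum_congr rfl fun x _ => ?_
    rw [← add_smul]
    congr 1
    simp only [Pi.add_apply]
    ring
  alt := by
    intro v
    unfold mkc
    refine Finset.sum_eq_zero fun x _ => ?_
    rw [mul_comm, sub_self, zero_smul]
  pw := by
    intro v w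
    unfold mkq mkc
    have h1 : ∑ i, (v + w) i • a (Sum.inr i) = (∑ i, v i • a (Sum.inr i)) +
        ∑ i, w i • a (Sum.inr i) := by
      rw [← Finset.sum_add_distrib]
      refine Finset.sum_congr rfl fun i _ => ?_
      rw [Pi.add_apply, add_smul]
    rw [h1]
    by_cases hp : p = 2
    · rw [if_pos hp, if_pos hp, if_pos hp, if_pos hp]
      have h2 : ∑ x : {x : Fin m × Fin m // x.1 < x.2},
          ((v + w) x.1.1 * (v + w) x.1.2) • a (Sum.inl x) =
          (∑ x : {x : Fin m × Fin m // x.1 < x.2}, (v x.1.1 * v x.1.2) • a (Sum.inl x)) +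
          (∑ x : {x : Fin m × Fin m // x.1 < x.2}, (w x.1.1 * w x.1.2) • a (Sum.inl x)) +
          ∑ x : {x : Fin m × Fin m // x.1 < x.2},
            (v x.1.1 * w x.1.2 - v x.1.2 * w x.1.1) • a (Sum.inl x) := by
        rw [← Finset.sum_add_distrib, ← Finset.sum_add_distrib]
        refine Finset.sum_congr rfl fun x _ => ?_
        rw [← add_smul, ← add_smul]
        congr 1
        have h2 : (2 : ZMod p) = 0 := by
          have h3 : ((p : ℕ) : ZMod p) = 0 := ZMod.natCast_self p
          have h4 : ((p : ℕ) : ZMod p) = ((2 : ℕ) : ZMod p) := congrArg Nat.cast hp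
          rw [h4] at h3
          exact_mod_cast h3
        simp only [Pi.add_apply]
        linear_combination (v x.1.2 * w x.1.1) * h2
      rw [h2]
      abel
    · rw [if_neg hp, if_neg hp, if_neg hp, if_neg hp]
      abel

theorem vals_mk (a : Ix m → Vp p r) : vals (mkc a) (mkq a) = a := by
  funext y
  rcases y with ⟨⟨i, j⟩, hij⟩ | i
  · show mkc a (ev p m i) (ev p m j) = _
    unfold mkc
    rw [Finset.sum_eq_single ⟨(i, j), hij⟩]
    · have hne : i ≠ j := ne_of_lt hij
      simp [ev, hne, hne.symm]
    · rintro ⟨⟨k, l⟩, hkl⟩ _ hne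
      have h1 : ¬ (k = i ∧ l = j) := by
        rintro ⟨rfl, rfl⟩
        exact hne rfl
      have h2 : ¬ (l = i ∧ k = j) := by
        rintro ⟨rfl, rfl⟩
        exact absurd hkl (not_lt.2 (le_of_lt hij))
      have : (ev p m i k * ev p m j l - ev p m i l * ev p m j k) = 0 := by
        simp only [ev, Pi.single_apply]
        by_cases a1 : k = i
        · have a2 : l ≠ j := fun h => h1 ⟨a1, h⟩
          have a3 : ¬ (l = i ∧ k = j) := h2
          rw [if_neg a2]
          by_cases a4 : l = i
          · have a5 : k ≠ j := fun h => h2 ⟨a4, h⟩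
            rw [if_neg a5]; ring
          · rw [if_neg a4]; ring
        · rw [if_neg a1]
          by_cases a4 : l = i
          · have a5 : k ≠ j := fun h => h2 ⟨a4, h⟩
            rw [if_neg a5]; ring
          · rw [if_neg a4]; ring
      show (ev p m i k * ev p m j l - ev p m i l * ev p m j k) • _ = 0
      rw [this, zero_smul]
    · intro h
      exact absurd (Finset.mem_univ _) h
  · show mkq a (ev p m i) = _
    unfold mkq
    have h1 : ∑ k, ev p m i k • a (Sum.inr k) = a (Sum.inr i) := by
      rw [Finset.sum_eq_single i]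
      · simp [ev]
      · intro k _ hk
        simp [ev, hk]
      · intro h
        exact absurd (Finset.mem_univ _) h
    have h2 : ∑ x : {x : Fin m × Fin m // x.1 < x.2},
        (ev p m i x.1.1 * ev p m i x.1.2) • a (Sum.inl x) = 0 := by
      refine Finset.sum_eq_zero ?_
      rintro ⟨⟨k, l⟩, hkl⟩ _
      have hkl' : k < l := hkl
      have : ev p m i k * ev p m i l = 0 := by
        simp only [ev, Pi.single_apply]
        by_cases a1 : k = i
        · have a2 : l ≠ i := fun h => by rw [a1, h] at hkl'; exact lt_irrefl _ hkl'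
          rw [if_neg a2, mul_zero]
        · rw [if_neg a1, zero_mul]
      show (ev p m i k * ev p m i l) • _ = 0
      rw [this, zero_smul]
    rw [h1, h2]
    simp

/-- an additive map vanishing on the basis vectors is zero -/
theorem add_ext_zero (D : Vp p m → Vp p r) (hD : ∀ v w, D (v + w) = D v + D w)
    (h0 : ∀ i, D (ev p m i) = 0) : ∀ v, D v = 0 := by
  let F : Vp p m →+ Vp p r := AddMonoidHom.mk' D hD
  let L : Vp p m →ₗ[ZMod p] Vp p r := F.toZModLinearMap p
  have hL : L = 0 := by
    refine LinearMap.pi_ext' fun i => ?_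
    refine LinearMap.ext_ring ?_
    exact h0 i
  intro v
  exact congrArg (fun T : Vp p m →ₗ[ZMod p] Vp p r => T v) hL

theorem anti {c : Vp p m → Vp p m → Vp p r} {q : Vp p m → Vp p r} (h : IsTD p m r c q)
    (v w : Vp p m) : c w v = - c v w := by
  have h1 := h.alt (v + w)
  rw [h.add_left, h.add_right, h.add_right, h.alt, h.alt, zero_add, add_zero] at h1
  exact eq_neg_of_add_eq_zero_right h1

theorem vals_inj {c c' : Vp p m → Vp p m → Vp p r} {q q' : Vp p m → Vp p r}
    (h : IsTD p m r c q) (h' : IsTD p m r c' q') (he : vals c q = vals c' q') :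
    c = c' ∧ q = q' := by
  have h1 : ∀ i j, c (ev p m i) (ev p m j) = c' (ev p m i) (ev p m j) := by
    intro i j
    rcases lt_trichotomy i j with hij | hij | hij
    · exact congrFun he (Sum.inl ⟨(i, j), hij⟩)
    · subst hij
      rw [h.alt, h'.alt]
    · rw [anti h (ev p m j), anti h' (ev p m j)]
      exact congrArg Neg.neg (congrFun he (Sum.inl ⟨(j, i), hij⟩))
  have h2 : ∀ i w, c (ev p m i) w = c' (ev p m i) w := by
    intro i w
    have := add_ext_zero (fun w => c (ev p m i) w - c' (ev p m i) w)
      (fun v w => by simp only [h.add_right, h'.add_right]; abel)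
      (fun j => by rw [h1 i j, sub_self]) w
    exact sub_eq_zero.1 this
  have h3 : ∀ v w, c v w = c' v w := by
    intro v w
    have := add_ext_zero (fun v => c v w - c' v w)
      (fun v w => by simp only [h.add_left, h'.add_left]; abel)
      (fun j => by rw [h2 j w, sub_self]) v
    exact sub_eq_zero.1 this
  have hc : c = c' := funext fun v => funext fun w => h3 v w
  subst hc
  refine ⟨rfl, funext fun v => ?_⟩
  have := add_ext_zero (fun v => q v - q' v)
    (fun v w => by simp only [h.pw, h'.pw]; abel)
    (fun j => by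
      have : q (ev p m j) = q' (ev p m j) := congrFun he (Sum.inr j)
      rw [this, sub_self]) v
  exact sub_eq_zero.1 this

theorem eq_mk {c : Vp p m → Vp p m → Vp p r} {q : Vp p m → Vp p r}
    (h : IsTD p m r c q) : c = mkc (vals c q) ∧ q = mkq (vals c q) :=
  vals_inj h (mk_isTD _) (vals_mk _).symm

theorem spans_iff {c : Vp p m → Vp p m → Vp p r} {q : Vp p m → Vp p r}
    (h : IsTD p m r c q) : Spans c q ↔ Submodule.span (ZMod p) (Set.range (vals c q)) = ⊤ := by
  constructor
  · intro hS
    rw [eq_top_iff]
    have h1 : AddSubgroup.closure ({x | ∃ v w, x = c v w} ∪ {x | ∃ v, x = q v}) ≤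
        (Submodule.span (ZMod p) (Set.range (vals c q))).toAddSubgroup := by
      rw [AddSubgroup.closure_le]
      obtain ⟨hc, hq⟩ := eq_mk h
      have hm : ∀ y, vals c q y ∈ Submodule.span (ZMod p) (Set.range (vals c q)) := fun y =>
        Submodule.subset_span ⟨y, rfl⟩
      rintro x (⟨v, w, rfl⟩ | ⟨v, rfl⟩)
      · show c v w ∈ Submodule.span (ZMod p) (Set.range (vals c q))
        have : c v w = mkc (vals c q) v w := congrFun (congrFun hc v) w
        rw [this]
        exact Submodule.sum_mem _ fun y _ => Submodule.smul_mem _ _ (hm _)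
      · show q v ∈ Submodule.span (ZMod p) (Set.range (vals c q))
        have : q v = mkq (vals c q) v := congrFun hq v
        rw [this]
        refine Submodule.add_mem _
          (Submodule.sum_mem _ fun y _ => Submodule.smul_mem _ _ (hm _)) ?_
        split_ifs
        · exact Submodule.sum_mem _ fun y _ => Submodule.smul_mem _ _ (hm _)
        · exact Submodule.zero_mem _
    intro x _
    unfold Spans at hS
    rw [hS] at h1
    exact h1 (AddSubgroup.mem_top x)
  · intro hS
    unfold Spans
    rw [eq_top_iff]
    have h1 : Submodule.span (ZMod p) (Set.range (vals c q)) ≤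
        AddSubgroup.toZModSubmodule p
          (AddSubgroup.closure ({x | ∃ v w, x = c v w} ∪ {x | ∃ v, x = q v})) := by
      rw [Submodule.span_le]
      rintro x ⟨y, rfl⟩
      refine AddSubgroup.subset_closure ?_
      rcases y with y | i
      · exact Or.inl ⟨_, _, rfl⟩
      · exact Or.inr ⟨_, rfl⟩
    intro x _
    rw [hS] at h1
    exact h1 Submodule.mem_top

/-- transposition -/
theorem span_iff_indep {ι : Type} [Fintype ι] (a : ι → (Fin r → ZMod p)) :
    Submodule.span (ZMod p) (Set.range a) = ⊤ ↔
      LinearIndependent (ZMod p) (fun k : Fin r => fun i : ι => a i k) := by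
  let A : Matrix (Fin r) ι (ZMod p) := fun k i => a i k
  have h1 : (Set.range a).finrank (ZMod p) = A.rank := by
    rw [Matrix.rank_eq_finrank_span_cols]
    rfl
  have h2 : (Set.range (fun k : Fin r => fun i : ι => a i k)).finrank (ZMod p) = A.rank := by
    rw [Matrix.rank_eq_finrank_span_row]
    rfl
  rw [linearIndependent_iff_card_eq_finrank_span, h2, ← h1, Fintype.card_fin]
  constructor
  · intro h
    unfold Set.finrank
    rw [h, finrank_top, Module.finrank_fin_fun]
  · intro h
    refine Submodule.eq_top_of_finrank_eq ?_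
    rw [Module.finrank_fin_fun]
    exact h.symm

theorem card_indep (N : ℕ) (ι : Type) [Fintype ι] (hN : Fintype.card ι = N) :
    Nat.card {b : Fin r → (ι → ZMod p) // LinearIndependent (ZMod p) b} = SS p N r := by
  have hf : finrank (ZMod p) (ι → ZMod p) = N := by rw [Module.finrank_fintype_fun_eq_card, hN]
  by_cases hr : r ≤ N
  · have h := card_linearIndependent (K := ZMod p) (V := ι → ZMod p) (k := r) (by rw [hf]; exact hr)
    rw [h, hf, ZMod.card, SS]
    exact Fin.prod_univ_eq_prod_range (fun i => p ^ N - p ^ i) r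
  · have h1 : SS p N r = 0 := by
      unfold SS
      refine Finset.prod_eq_zero (Finset.mem_range.2 (not_le.1 hr)) ?_
      exact Nat.sub_self _
    rw [h1]
    have : IsEmpty {b : Fin r → (ι → ZMod p) // LinearIndependent (ZMod p) b} := by
      refine ⟨fun b => hr ?_⟩
      have := b.2.fintype_card_le_finrank
      rw [hf, Fintype.card_fin] at this
      exact this
    exact Nat.card_of_isEmpty

end J_card_TD_spans

open J_card_TD_spans in
/-- TARGET -/
theorem card_TD_spans (p m r : ℕ) [Fact p.Prime] :
    Nat.card {cq : (Vp p m → Vp p m → Vp p r) × (Vp p m → Vp p r) //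
      IsTD p m r cq.1 cq.2 ∧ Spans cq.1 cq.2} = SS p (m * (m + 1) / 2) r := by
  rw [← card_indep (p := p) (r := r) (m * (m + 1) / 2) (Ix m) (card_Ix m)]
  refine Nat.card_congr (Equiv.ofBijective
    (fun cq => ⟨fun k i => vals cq.1.1 cq.1.2 i k,
      (span_iff_indep _).1 ((spans_iff cq.2.1).1 cq.2.2)⟩) ⟨?_, ?_⟩)
  · rintro ⟨⟨c, q⟩, h1, h2⟩ ⟨⟨c', q'⟩, h1', h2'⟩ h
    have h3 : (fun (k : Fin r) (i : Ix m) => vals c q i k) = fun k i => vals c' q' i k :=
      congrArg Subtype.val h
    have h4 : vals c q = vals c' q' := by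
      funext i k
      exact congrFun (congrFun h3 k) i
    obtain ⟨h5, h6⟩ := vals_inj h1 h1' h4
    refine Subtype.ext ?_
    exact Prod.ext h5 h6
  · rintro ⟨b, hb⟩
    have h1 : Submodule.span (ZMod p) (Set.range (fun i : Ix m => fun k : Fin r => b k i)) = ⊤ :=
      (span_iff_indep _).2 hb
    have h2 := mk_isTD (p := p) (m := m) (r := r) (fun i k => b k i)
    refine ⟨⟨(mkc fun i k => b k i, mkq fun i k => b k i), h2, ?_⟩, ?_⟩
    · refine (spans_iff h2).2 ?_
      rw [vals_mk]
      exact h1
    · refine Subtype.ext ?_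
      show (fun (k : Fin r) (i : Ix m) => vals (mkc fun i k => b k i) (mkq fun i k => b k i) i k) = b
      rw [vals_mk]

end Pool.Agent.Helper252_Enum
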