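import Pool.Agent.Helper252_Enum.Q17_card_compat_c

set_option autoImplicit false

open scoped commutatorElement

namespace Pool.Agent.Helper252_Enum

/-
PROOF OF THE TARGET.
The set is contained in the union over pairs (g, g') with aGe g a of {(c,q) | IsTD c q, Compat c q g g'}. There are at most p^(m^2) additive automorphisms g of (ZMod p)^m (an additive map is ZMod p-linear, hence determined by the images of the standard basis; simply: injection into Fin m → Vp p m) and at most p^(r^2) g'.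
For a fixed pair: c lies in the set of card_compat_c, and for fixed c two maps q, q2 with IsTD c q, IsTD c q2 differ by an additive map Vp p m → Vp p r, so there are at most p^(r m) of them. So N * p^(r a (m-2a)) <= p^(m^2) p^(r^2) p^(r m) * (card_compat_c number * p^(r a (m-2a))) <= p^(m^2 + r^2 + r m + r (m(m-1)/2)) and m + m(m-1)/2 = m(m+1)/2.
(Everything is finite: Vp p m is a finite type.)
-/


namespace J_card_TD_aGe

theorem addEquiv_inj (p m : ℕ) [Fact p.Prime] :
    Function.Injective (fun (g : Vp p m ≃+ Vp p m) (i : Fin m) => g (Pi.single i 1)) := by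
  intro g h hgh
  have key : (g.toAddMonoidHom.toZModLinearMap p) = (h.toAddMonoidHom.toZModLinearMap p) := by
    refine (Pi.basisFun (ZMod p) (Fin m)).ext fun i => ?_
    have := congrFun hgh i
    simpa using this
  ext1 v
  have := LinearMap.congr_fun key v
  simpa using this

theorem finite_addEquiv (p m : ℕ) [Fact p.Prime] : Finite (Vp p m ≃+ Vp p m) :=
  Finite.of_injective _ (addEquiv_inj p m)

theorem card_addEquiv (p m : ℕ) [Fact p.Prime] :
    Nat.card (Vp p m ≃+ Vp p m) ≤ p ^ (m ^ 2) := by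
  refine (Nat.card_le_card_of_injective _ (addEquiv_inj p m)).trans (le_of_eq ?_)
  simp [Nat.card_eq_fintype_card, ZMod.card, ← pow_mul, sq]

theorem q_inj (p m r : ℕ) [Fact p.Prime] (c : Vp p m → Vp p m → Vp p r)
    (q q2 : Vp p m → Vp p r) (h : IsTD p m r c q) (h2 : IsTD p m r c q2)
    (hb : ∀ i, q (Pi.single i 1) = q2 (Pi.single i 1)) : q = q2 := by
  let d : Vp p m →+ Vp p r := AddMonoidHom.mk' (fun v => q v - q2 v) (by
    intro v w
    simp only [h.pw, h2.pw]
    abel)
  have key : d.toZModLinearMap p = 0 := by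
    refine (Pi.basisFun (ZMod p) (Fin m)).ext fun i => ?_
    simp [d, hb i]
  funext v
  have := LinearMap.congr_fun key v
  simpa [d, sub_eq_zero] using this

end J_card_TD_aGe

/-- TARGET -/
theorem card_TD_aGe (p m r a : ℕ) [Fact p.Prime] (ha : 2 * a ≤ m) :
    Nat.card {cq : (Vp p m → Vp p m → Vp p r) × (Vp p m → Vp p r) //
      IsTD p m r cq.1 cq.2 ∧ ∃ (g : Vp p m ≃+ Vp p m) (g' : Vp p r ≃+ Vp p r),
        aGe g a ∧ Compat cq.1 cq.2 g g'} *
      p ^ (r * (a * (m - 2 * a))) ≤ p ^ (m ^ 2 + r ^ 2 + r * (m * (m + 1) / 2)) := by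
  classical
  have hp : p.Prime := Fact.out
  have := J_card_TD_aGe.finite_addEquiv p m
  have := J_card_TD_aGe.finite_addEquiv p r
  let I : Type := {gg : (Vp p m ≃+ Vp p m) × (Vp p r ≃+ Vp p r) // aGe gg.1 a}
  let C : I → Type := fun gg => {c : Vp p m → Vp p m → Vp p r //
      (∀ v v' w, c (v + v') w = c v w + c v' w) ∧
      (∀ v w w', c v (w + w') = c v w + c v w') ∧ (∀ v, c v v = 0) ∧
      ∀ v w, c (gg.1.1 v) (gg.1.1 w) = gg.1.2 (c v w)}
  have : Finite I := Subtype.finite
  have : Fintype I := Fintype.ofFinite I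
  have : ∀ gg, Finite (C gg) := fun gg => Subtype.finite
  -- the injection
  let F : {cq : (Vp p m → Vp p m → Vp p r) × (Vp p m → Vp p r) //
      IsTD p m r cq.1 cq.2 ∧ ∃ (g : Vp p m ≃+ Vp p m) (g' : Vp p r ≃+ Vp p r),
        aGe g a ∧ Compat cq.1 cq.2 g g'} → (Σ gg : I, C gg × (Fin m → Vp p r)) :=
    fun x => ⟨⟨(x.2.2.choose, x.2.2.choose_spec.choose), x.2.2.choose_spec.choose_spec.1⟩,
      ⟨x.1.1, x.2.1.add_left, x.2.1.add_right, x.2.1.alt,
        x.2.2.choose_spec.choose_spec.2.1⟩, fun i => x.1.2 (Pi.single i 1)⟩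
  let G : (Σ gg : I, C gg × (Fin m → Vp p r)) →
      (Vp p m → Vp p m → Vp p r) × (Fin m → Vp p r) := fun y => (y.2.1.1, y.2.2)
  have hF : Function.Injective F := by
    intro x y hxy
    have h1 : G (F x) = G (F y) := by rw [hxy]
    have h2 : x.1.1 = y.1.1 := (congrArg Prod.fst h1 : (G (F x)).1 = (G (F y)).1)
    have h3 : (fun i => x.1.2 (Pi.single i 1)) = (fun i => y.1.2 (Pi.single i 1)) :=
      (congrArg Prod.snd h1 : (G (F x)).2 = (G (F y)).2)
    apply Subtype.ext
    refine Prod.ext h2 ?_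
    refine J_card_TD_aGe.q_inj p m r x.1.1 x.1.2 y.1.2 x.2.1 (by rw [h2]; exact y.2.1) ?_
    intro i
    exact congrFun h3 i
  have hle := Nat.card_le_card_of_injective F hF
  have hsig : Nat.card (Σ gg : I, C gg × (Fin m → Vp p r)) =
      ∑ gg : I, Nat.card (C gg) * p ^ (r * m) := by
    rw [Nat.card_sigma]
    refine Finset.sum_congr rfl fun gg _ => ?_
    rw [Nat.card_prod]
    congr 1
    simp [Nat.card_eq_fintype_card, ZMod.card, ← pow_mul]
  have hI : Nat.card I ≤ p ^ (m ^ 2) * p ^ (r ^ 2) := by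
    refine (Nat.card_le_card_of_injective (Subtype.val : I → _) Subtype.val_injective).trans ?_
    rw [Nat.card_prod]
    exact Nat.mul_le_mul (J_card_TD_aGe.card_addEquiv p m) (J_card_TD_aGe.card_addEquiv p r)
  have hC : ∀ gg : I, Nat.card (C gg) * p ^ (r * (a * (m - 2 * a))) ≤
      p ^ (r * (m * (m - 1) / 2)) := fun gg =>
    card_compat_c p m r a ha gg.1.1 gg.1.2 gg.2
  have hexp : r * (m * (m - 1) / 2) + r * m = r * (m * (m + 1) / 2) := by
    rw [← mul_add]
    congr 1
    rcases m with _ | m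
    · rfl
    · have h1 : (m + 1) * (m + 1 + 1) = (m + 1) * (m + 1 - 1) + (m + 1) * 2 := by
        simp only [Nat.add_sub_cancel]; ring
      rw [h1, Nat.add_mul_div_right _ _ (by norm_num)]
  calc _ ≤ (∑ gg : I, Nat.card (C gg) * p ^ (r * m)) * p ^ (r * (a * (m - 2 * a))) :=
        Nat.mul_le_mul_right _ (hle.trans hsig.le)
    _ = ∑ gg : I, (Nat.card (C gg) * p ^ (r * (a * (m - 2 * a)))) * p ^ (r * m) := by
        rw [Finset.sum_mul]
        exact Finset.sum_congr rfl fun gg _ => by ring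
    _ ≤ ∑ gg : I, p ^ (r * (m * (m - 1) / 2)) * p ^ (r * m) :=
        Finset.sum_le_sum fun gg _ => Nat.mul_le_mul_right _ (hC gg)
    _ = Nat.card I * p ^ (r * (m * (m + 1) / 2)) := by
        rw [Finset.sum_const, Finset.card_univ, smul_eq_mul, ← Nat.card_eq_fintype_card,
          ← pow_add, hexp]
    _ ≤ (p ^ (m ^ 2) * p ^ (r ^ 2)) * p ^ (r * (m * (m + 1) / 2)) :=
        Nat.mul_le_mul_right _ hI
    _ = _ := by rw [← pow_add, ← pow_add]

end Pool.Agent.Helper252_Enum
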