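import Pool.Agent.Helper252_Enum.Q17_card_compat_c
import Pool.Agent.Helper252_Enum.Q16_card_not_aGe

set_option autoImplicit false

open scoped commutatorElement

namespace Pool.Agent.Helper252_Enum

/-
PROOF OF THE TARGET.
Sum over pairs (g,g'), g ≠ refl. There are at most p^(r^2) maps g'. Let V = Vp p m, W = Vp p r (dimension m, r over ZMod p, additive maps are linear).
(A) g with ¬ aGe g 1: every v and g v are dependent, so (g injective, m >= 2) g is a scalar λ ≠ 0, and λ ≠ 1, so p is odd (p ≥ 3; for p = 2 there is no such g). At most p such g. For fixed g': c(λv,λw) = λ^2 c(v,w) = g'(c(v,w)), q(λ v) = λ q(v) = g'(q v) (q additive since p ≠ 2): c has values in W2 = ker(g' - λ^2) and q in W1 = ker(g' - λ), W1 ⊓ W2 = ⊥ as λ ≠ λ^2,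
so dim W1 + dim W2 <= r, and the number of (c,q) is at most p^(e2 m(m-1)/2 + e1 m) <= p^(r m(m-1)/2) as m <= m(m-1)/2 (m >= 3). Total (A) <= p^(1 + r^2 + r m(m-1)/2), times p^(r m) gives p^(1 + r^2 + r m(m+1)/2).
(B) g with aGe g 1: let a >= 1 be maximal with aGe g a; 2a <= m (2a independent vectors). By card_not_aGe there are at most p^(4am+1) such g, and of course at most p^(m^2). Let b = min a (m/4) >= 1 (m >= 4); aGe g b (aGe is monotone downwards: restrict the family w). card_compat_c with b: number of c times p^(r b (m-2b)) is <= p^(r m(m-1)/2); number of q for given c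
is at most p^(r m) (differences are additive maps V → W). So the number N_a of (c,q) for all g with this a and all g' satisfies N_a * p^(r b (m-2b)) <= p^(min(4am+1, m^2) + r^2 + r m(m+1)/2). Claim: min(4am+1, m^2) + r m <= r b (m-2b) + 2r + 8m for large n (r >= 19n/60, m >= 39n/60):
 a = 1: 4m+1 + rm <= r(m-2) + 2r + 8m. OK.  2 <= a <= m/4 (b = a): need 4am + 1 + rm <= r a (m-2a) + 2r + 8m. The function F(a) = r a(m - 2a) - 4 a m is concave in a, so it is enough to check a = 2: r(2m-8) - 8m >= rm - 2r - 8m + 1 iff rm >= 6r + 1; and a = m/4 (real): r m^2/8 - m^2 >= rm - 2r - 8m + 1, true for large n.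
 a > m/4: b = m/4 (floor), b >= (m-3)/4, m - 2b >= m/2: r b (m-2b) >= r (m-3) m/8 >= m^2 + rm for large n.
So N_a * p^(rm) <= p^(r^2 + r m(m+1)/2 + 2r + 8m), and there are at most m values of a, m <= 2^m <= p^m, plus (A): total <= p^(... + 2r + 8m) * (p^m + 1) <= p^(r^2 + r(m(m+1)/2) + 2r + 10 m).
(You do not need Spans.) Suggested structure: lemma 1: for fixed g, g' with aGe g b: card{(c,q) IsTD, Compat} * p^(r b (m-2b)) <= p^(r m(m+1)/2); lemma 2: the scalar case; lemma 3: the union bound.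
-/

namespace J_card_TD_nontriv

open Finset

theorem union_bound {α β : Type} [Finite α] [Finite β] (Q : β → α → Prop) (D B : ℕ)
    (h : ∀ b, Nat.card {x : α // Q b x} * D ≤ B) :
    Nat.card {x : α // ∃ b, Q b x} * D ≤ Nat.card β * B := by
  classical
  have := Fintype.ofFinite β
  have h1 : Nat.card {x : α // ∃ b, Q b x} ≤ Nat.card (Σ b : β, {x : α // Q b x}) := by
    refine Nat.card_le_card_of_surjective (fun y => ⟨y.2.1, y.1, y.2.2⟩) ?_
    rintro ⟨x, b, hb⟩
    exact ⟨⟨b, x, hb⟩, rfl⟩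
  rw [Nat.card_sigma] at h1
  calc _ ≤ (∑ b, Nat.card {x : α // Q b x}) * D := Nat.mul_le_mul_right _ h1
    _ = ∑ b, Nat.card {x : α // Q b x} * D := Finset.sum_mul _ _ _
    _ ≤ ∑ b : β, B := Finset.sum_le_sum fun b _ => h b
    _ = Nat.card β * B := by simp [Nat.card_eq_fintype_card]

theorem card_Vp (p m : ℕ) [Fact p.Prime] : Nat.card (Vp p m) = p ^ m := by
  unfold Vp
  rw [Nat.card_fun, Nat.card_zmod, Nat.card_fin]

theorem card_fVp (p m r : ℕ) [Fact p.Prime] : Nat.card (Fin m → Vp p r) = p ^ (r * m) := by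
  rw [Nat.card_fun, card_Vp, Nat.card_fin, ← pow_mul]

theorem add_ext {p m r : ℕ} [Fact p.Prime] {f f' : Vp p m → Vp p r} (hf : ∀ v w, f (v + w) = f v + f w)
    (hf' : ∀ v w, f' (v + w) = f' v + f' w) (h : ∀ i, f (Pi.single i 1) = f' (Pi.single i 1)) : f = f' := by
  let F : Vp p m →ₗ[ZMod p] Vp p r := (AddMonoidHom.mk' f hf).toZModLinearMap p
  let F' : Vp p m →ₗ[ZMod p] Vp p r := (AddMonoidHom.mk' f' hf').toZModLinearMap p
  have e : F = F' := (Pi.basisFun (ZMod p) (Fin m)).ext fun i => by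
    rw [Pi.basisFun_apply]; exact h i
  ext1 v
  exact congrArg (fun G : Vp p m →ₗ[ZMod p] Vp p r => G v) e

theorem smul_of_add {p m r : ℕ} {f : Vp p m → Vp p r} (hf : ∀ v w, f (v + w) = f v + f w)
    (t : ZMod p) (v : Vp p m) : f (t • v) = t • f v :=
  ((AddMonoidHom.mk' f hf).toZModLinearMap p).map_smul t v

theorem count_q (p m r : ℕ) [Fact p.Prime] (C : (Vp p m → Vp p m → Vp p r) → Prop) :
    Nat.card {cq : (Vp p m → Vp p m → Vp p r) × (Vp p m → Vp p r) //
      C cq.1 ∧ ∀ v w, cq.2 (v + w) = cq.2 v + cq.2 w + if p = 2 then cq.1 v w else 0} ≤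
    Nat.card {c : Vp p m → Vp p m → Vp p r // C c} * p ^ (r * m) := by
  rw [← card_fVp p m r, ← Nat.card_prod]
  refine Nat.card_le_card_of_injective
    (fun x => (⟨x.1.1, x.2.1⟩, fun i => x.1.2 (Pi.single i 1))) ?_
  rintro ⟨⟨c, q⟩, h1, h2⟩ ⟨⟨c', q'⟩, h1', h2'⟩ h
  simp only [Prod.mk.injEq, Subtype.mk.injEq] at h h2 h2'
  obtain ⟨h3, h4⟩ := h
  subst h3
  have e : (fun v => q v - q' v) = fun _ => 0 := by
    refine add_ext (fun v w => ?_) (fun v w => by simp) (fun i => ?_)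
    · rw [h2, h2']; abel
    · have := congrFun h4 i
      rw [this, sub_self]
  have : q = q' := by
    ext1 v
    exact sub_eq_zero.1 (congrFun e v)
  subst this
  rfl

theorem F_bound (p m r b : ℕ) [Fact p.Prime] (hb : 2 * b ≤ m) (g : Vp p m ≃+ Vp p m)
    (g' : Vp p r ≃+ Vp p r) (hg : aGe g b) :
    Nat.card {cq : (Vp p m → Vp p m → Vp p r) × (Vp p m → Vp p r) //
      IsTD p m r cq.1 cq.2 ∧ Compat cq.1 cq.2 g g'} * p ^ (r * (b * (m - 2 * b))) ≤
    p ^ (r * (m * (m - 1) / 2)) * p ^ (r * m) := by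
  have h1 := card_compat_c p m r b hb g g' hg
  have h2 := count_q p m r (fun c => (∀ v v' w, c (v + v') w = c v w + c v' w) ∧
      (∀ v w w', c v (w + w') = c v w + c v w') ∧ (∀ v, c v v = 0) ∧
      ∀ v w, c (g v) (g w) = g' (c v w))
  have h3 : Nat.card {cq : (Vp p m → Vp p m → Vp p r) × (Vp p m → Vp p r) //
      IsTD p m r cq.1 cq.2 ∧ Compat cq.1 cq.2 g g'} ≤
      Nat.card {cq : (Vp p m → Vp p m → Vp p r) × (Vp p m → Vp p r) //
      ((∀ v v' w, cq.1 (v + v') w = cq.1 v w + cq.1 v' w) ∧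
      (∀ v w w', cq.1 v (w + w') = cq.1 v w + cq.1 v w') ∧ (∀ v, cq.1 v v = 0) ∧
      ∀ v w, cq.1 (g v) (g w) = g' (cq.1 v w)) ∧
      ∀ v w, cq.2 (v + w) = cq.2 v + cq.2 w + if p = 2 then cq.1 v w else 0} := by
    refine Nat.card_le_card_of_injective (fun x => ⟨x.1, ⟨x.2.1.add_left, x.2.1.add_right, x.2.1.alt, x.2.2.1⟩, x.2.1.pw⟩) ?_
    intro x y h
    simp only [Subtype.mk.injEq] at h
    exact Subtype.ext h
  calc _ ≤ _ := Nat.mul_le_mul_right _ (h3.trans h2)
    _ = _ := by rw [mul_right_comm]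
    _ ≤ _ := Nat.mul_le_mul_right _ h1

theorem aGe_mono {p m : ℕ} {g : Vp p m → Vp p m} {a b : ℕ} (h : aGe g a) (hb : b ≤ a) : aGe g b := by
  obtain ⟨w, hw⟩ := h
  refine ⟨fun i => w (Fin.castLE hb i), ?_⟩
  have h1 := hw.comp (Sum.map (Fin.castLE hb) (Fin.castLE hb))
    (Sum.map_injective.2 ⟨Fin.castLE_injective hb, Fin.castLE_injective hb⟩)
  convert h1 using 1
  ext i
  rcases i with i | i <;> rfl

theorem aGe_le {p m : ℕ} [Fact p.Prime] {g : Vp p m → Vp p m} {a : ℕ} (h : aGe g a) : 2 * a ≤ m := by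
  obtain ⟨w, hw⟩ := h
  have h1 := hw.fintype_card_le_finrank
  rw [Module.finrank_fin_fun, Fintype.card_sum, Fintype.card_fin] at h1
  omega

theorem aGe_zero {p m : ℕ} (g : Vp p m → Vp p m) : aGe g 0 :=
  ⟨fun i => i.elim0, linearIndependent_empty_type⟩

/-- the scalar case: the shape of `g` -/
theorem scalar {p m : ℕ} [Fact p.Prime] (g : Vp p m ≃+ Vp p m) (h : ¬ aGe g 1) :
    ∃ t : ZMod p, ∀ v, g v = t • v := by
  obtain ⟨t, ht⟩ := LinearMap.exists_eq_smul_id_of_forall_notLinearIndependent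
    (f := g.toAddMonoidHom.toZModLinearMap p) (fun v hv => by
      apply h
      refine ⟨fun _ => v, ?_⟩
      have h1 := hv.comp (Sum.elim (fun _ : Fin 1 => (0 : Fin 2)) (fun _ : Fin 1 => (1 : Fin 2))) (by
        rintro (i | i) (j | j) hij
        · congr 1; exact Subsingleton.elim _ _
        · simp at hij
        · simp at hij
        · congr 1; exact Subsingleton.elim _ _)
      have e : Sum.elim (fun _ : Fin 1 => v) (fun i : Fin 1 => g ((fun _ : Fin 1 => v) i)) =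
          ![v, (g.toAddMonoidHom.toZModLinearMap p) v] ∘
          Sum.elim (fun _ : Fin 1 => (0 : Fin 2)) (fun _ : Fin 1 => (1 : Fin 2)) := by
        ext i
        rcases i with i | i <;> rfl
      rw [e]
      exact h1)
  refine ⟨t, fun v => ?_⟩
  have := congrArg (fun G : Vp p m →ₗ[ZMod p] Vp p m => G v) ht
  simpa using this

theorem z2 : ∀ t : ZMod 2, t ≠ 1 → t ≠ 0 → False := by decide

theorem bi_smul {p m r : ℕ} {c : Vp p m → Vp p m → Vp p r}
    (h1 : ∀ v v' w, c (v + v') w = c v w + c v' w) (h2 : ∀ v w w', c v (w + w') = c v w + c v w')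
    (t : ZMod p) (v w : Vp p m) : c (t • v) (t • w) = (t * t) • c v w := by
  have e1 : c (t • v) (t • w) = t • c v (t • w) := smul_of_add (f := fun x => c x (t • w)) (fun a b => h1 a b _) t v
  have e2 : c v (t • w) = t • c v w := smul_of_add (f := fun x => c v x) (fun a b => h2 v a b) t w
  rw [e1, e2, smul_smul]

theorem bi_ext {p m r : ℕ} [Fact p.Prime] {c c' : Vp p m → Vp p m → Vp p r}
    (h1 : ∀ v v' w, c (v + v') w = c v w + c v' w) (h2 : ∀ v w w', c v (w + w') = c v w + c v w')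
    (h3 : ∀ v, c v v = 0)
    (h1' : ∀ v v' w, c' (v + v') w = c' v w + c' v' w) (h2' : ∀ v w w', c' v (w + w') = c' v w + c' v w')
    (h3' : ∀ v, c' v v = 0)
    (h : ∀ j i : Fin m, i < j → c (Pi.single i 1) (Pi.single j 1) = c' (Pi.single i 1) (Pi.single j 1)) : c = c' := by
  have anti : ∀ {d : Vp p m → Vp p m → Vp p r}, (∀ v v' w, d (v + v') w = d v w + d v' w) →
      (∀ v w w', d v (w + w') = d v w + d v w') → (∀ v, d v v = 0) → ∀ v w, d v w = - d w v := by
    intro d g1 g2 g3 v w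
    have := g3 (v + w)
    rw [g1, g2, g2, g3, g3, zero_add, add_zero] at this
    exact eq_neg_of_add_eq_zero_left this
  have h4 : ∀ i j : Fin m, c (Pi.single i 1) (Pi.single j 1) = c' (Pi.single i 1) (Pi.single j 1) := by
    intro i j
    rcases lt_trichotomy i j with hij | hij | hij
    · exact h j i hij
    · subst hij; rw [h3, h3']
    · rw [anti h1 h2 h3, anti h1' h2' h3', h i j hij]
  have h5 : ∀ i : Fin m, c (Pi.single i 1) = c' (Pi.single i 1) := fun i =>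
    add_ext (fun v w => h2 _ v w) (fun v w => h2' _ v w) (h4 i)
  ext1 v
  ext1 w
  exact congrFun (add_ext (f := fun x => c x w) (f' := fun x => c' x w) (fun a b => h1 a b w) (fun a b => h1' a b w)
    (fun i => congrFun (h5 i) w)) v

theorem card_pairs (m : ℕ) : Nat.card (Σ j : Fin m, Fin j.val) = m * (m - 1) / 2 := by
  rw [Nat.card_sigma]
  simp only [Nat.card_fin]
  rw [Fin.sum_univ_eq_sum_range (fun i => i) m, Finset.sum_range_id]

/-- the scalar case: the count -/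
theorem scalar_bound (p m r : ℕ) [Fact p.Prime] (hm : 3 ≤ m) (g : Vp p m ≃+ Vp p m)
    (g' : Vp p r ≃+ Vp p r) (hg : ¬ aGe g 1) (hg1 : g ≠ AddEquiv.refl _) :
    Nat.card {cq : (Vp p m → Vp p m → Vp p r) × (Vp p m → Vp p r) //
      IsTD p m r cq.1 cq.2 ∧ Compat cq.1 cq.2 g g'} ≤ p ^ (r * (m * (m - 1) / 2)) := by
  obtain ⟨t, ht⟩ := scalar g hg
  have t1 : t ≠ 1 := by
    rintro rfl
    apply hg1
    ext1 v
    rw [ht, one_smul]; rfl
  have t0 : t ≠ 0 := by
    rintro rfl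
    have h1 : g (Pi.single ⟨0, by omega⟩ 1) = g 0 := by rw [ht, ht, zero_smul, smul_zero]
    have h2 := congrFun (g.injective h1) ⟨0, by omega⟩
    rw [Pi.single_eq_same] at h2
    exact one_ne_zero h2
  have tt : t * t ≠ t := by
    intro h
    apply t1
    exact mul_left_cancel₀ t0 (by rw [h, mul_one])
  have hp2 : p ≠ 2 := by
    rintro rfl
    exact z2 t t1 t0
  set W1 := {x : Vp p r // g' x = t • x} with hW1
  set W2 := {x : Vp p r // g' x = (t * t) • x} with hW2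
  have hc1 : Nat.card W1 * Nat.card W2 ≤ p ^ r := by
    rw [← Nat.card_prod, ← card_Vp p r]
    refine Nat.card_le_card_of_injective (fun x => x.1.1 + x.2.1) ?_
    rintro ⟨⟨a, ha⟩, ⟨b, hb⟩⟩ ⟨⟨a', ha'⟩, ⟨b', hb'⟩⟩ h
    simp only at h
    have h1 : a - a' = b' - b := by rw [sub_eq_sub_iff_add_eq_add, h, add_comm b' a']
    have h2 : g' (a - a') = t • (a - a') := by rw [map_sub, ha, ha', smul_sub]
    have h3 : g' (b' - b) = (t * t) • (b' - b) := by rw [map_sub, hb, hb', smul_sub]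
    rw [h1, h3] at h2
    have h4 : (t * t - t) • (b' - b) = 0 := by rw [sub_smul, h2, sub_self]
    rcases smul_eq_zero.1 h4 with h5 | h5
    · exact absurd (sub_eq_zero.1 h5) tt
    · rw [h5] at h1
      have e1 := sub_eq_zero.1 h1
      have e2 := sub_eq_zero.1 h5
      subst e1; subst e2; rfl
  have hW1pos : 1 ≤ Nat.card W1 := by
    have : Nonempty W1 := ⟨⟨0, by rw [map_zero, smul_zero]⟩⟩
    exact Nat.card_pos
  have hinj : Nat.card {cq : (Vp p m → Vp p m → Vp p r) × (Vp p m → Vp p r) //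
      IsTD p m r cq.1 cq.2 ∧ Compat cq.1 cq.2 g g'} ≤ Nat.card (((Σ j : Fin m, Fin j.val) → W2) × (Fin m → W1)) := by
    refine Nat.card_le_card_of_injective (fun x =>
      (fun ij => ⟨x.1.1 (Pi.single (Fin.castLE ij.1.isLt.le ij.2) 1) (Pi.single ij.1 1), ?_⟩,
       fun i => ⟨x.1.2 (Pi.single i 1), ?_⟩)) ?_
    · have h1 := x.2.2.1 (Pi.single (Fin.castLE ij.1.isLt.le ij.2) 1) (Pi.single ij.1 1)
      rw [ht, ht, bi_smul x.2.1.add_left x.2.1.add_right] at h1
      exact h1.symm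
    · have h1 := x.2.2.2 (Pi.single i 1)
      rw [ht, smul_of_add (f := x.1.2) (fun v w => by rw [x.2.1.pw, if_neg hp2, add_zero])] at h1
      exact h1.symm
    · rintro ⟨⟨c, q⟩, h1, h2⟩ ⟨⟨c', q'⟩, h1', h2'⟩ h
      simp only [Prod.mk.injEq] at h
      obtain ⟨h3, h4⟩ := h
      have e1 : c = c' := by
        refine bi_ext h1.add_left h1.add_right h1.alt h1'.add_left h1'.add_right h1'.alt (fun j i hij => ?_)
        have := congrArg Subtype.val (congrFun h3 ⟨j, ⟨i.val, hij⟩⟩)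
        exact this
      have e2 : q = q' := by
        refine add_ext (fun v w => ?_) (fun v w => ?_) (fun i => ?_)
        · have := h1.pw v w
          simpa [hp2] using this
        · have := h1'.pw v w
          simpa [hp2] using this
        · exact congrArg Subtype.val (congrFun h4 i)
      subst e1; subst e2; rfl
  refine hinj.trans ?_
  rw [Nat.card_prod, Nat.card_fun, Nat.card_fun, card_pairs, Nat.card_fin]
  have hM : m ≤ m * (m - 1) / 2 := by
    rw [Nat.le_div_iff_mul_le (by norm_num)]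
    exact Nat.mul_le_mul_left m (by omega)
  calc Nat.card W2 ^ (m * (m - 1) / 2) * Nat.card W1 ^ m
      ≤ Nat.card W2 ^ (m * (m - 1) / 2) * Nat.card W1 ^ (m * (m - 1) / 2) :=
        Nat.mul_le_mul_left _ (Nat.pow_le_pow_right hW1pos hM)
    _ = (Nat.card W1 * Nat.card W2) ^ (m * (m - 1) / 2) := by rw [mul_pow, mul_comm]
    _ ≤ (p ^ r) ^ (m * (m - 1) / 2) := Nat.pow_le_pow_left hc1 _
    _ = p ^ (r * (m * (m - 1) / 2)) := by rw [← pow_mul]

theorem card_aut (p r : ℕ) [Fact p.Prime] : Nat.card (Vp p r ≃+ Vp p r) ≤ p ^ (r ^ 2) := by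
  have h : Nat.card (Fin r → Vp p r) = p ^ (r ^ 2) := by rw [card_fVp, sq]
  rw [← h]
  refine Nat.card_le_card_of_injective (fun g i => g (Pi.single i 1)) ?_
  intro g g' hgg
  have := add_ext (f := g) (f' := g') (fun v w => map_add _ _ _) (fun v w => map_add _ _ _) (fun i => congrFun hgg i)
  exact DFunLike.coe_injective this

theorem class_bound (p m r : ℕ) [Fact p.Prime] (A : (Vp p m ≃+ Vp p m) → Prop) (D B NA : ℕ)
    (hA : Nat.card {g // A g} ≤ NA)
    (h : ∀ g, A g → ∀ g' : Vp p r ≃+ Vp p r,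
      Nat.card {cq : (Vp p m → Vp p m → Vp p r) × (Vp p m → Vp p r) //
        IsTD p m r cq.1 cq.2 ∧ Compat cq.1 cq.2 g g'} * D ≤ B) :
    Nat.card {cq : (Vp p m → Vp p m → Vp p r) × (Vp p m → Vp p r) //
      ∃ b : {g // A g} × (Vp p r ≃+ Vp p r), IsTD p m r cq.1 cq.2 ∧ Compat cq.1 cq.2 b.1.1 b.2} * D ≤
      NA * p ^ (r ^ 2) * B := by
  have h1 := union_bound (α := (Vp p m → Vp p m → Vp p r) × (Vp p m → Vp p r))
    (β := {g // A g} × (Vp p r ≃+ Vp p r))
    (fun b cq => IsTD p m r cq.1 cq.2 ∧ Compat cq.1 cq.2 b.1.1 b.2) D B (fun b => h b.1.1 b.1.2 b.2)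
  refine h1.trans (Nat.mul_le_mul_right _ ?_)
  rw [Nat.card_prod]
  exact Nat.mul_le_mul hA (card_aut p r)

theorem num1 {m r k : ℕ} (hk : 1 ≤ k) (hk4 : k ≤ m / 4) (hm : 40 ≤ m) (hr : 16 ≤ r) :
    4 * k * m + 1 + r * m ≤ r * (k * (m - 2 * k)) + 2 * r + 8 * m := by
  obtain ⟨d, hd⟩ : ∃ d, m = d + 2 * k := ⟨m - 2 * k, by omega⟩
  have hd' : m - 2 * k = d := by omega
  have hkd : 2 * k ≤ d := by omega
  rw [hd', hd]
  have hd20 : 20 ≤ d := by omega
  obtain ⟨j, rfl⟩ : ∃ j, k = j + 1 := ⟨k - 1, by omega⟩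
  obtain ⟨e, rfl⟩ : ∃ e, d = e + 4 := ⟨d - 4, by omega⟩
  obtain ⟨s, rfl⟩ : ∃ s, r = s + 16 := ⟨r - 16, by omega⟩
  rcases Nat.eq_zero_or_pos j with hj | hj
  · subst hj; nlinarith
  · obtain ⟨i, rfl⟩ : ∃ i, j = i + 1 := ⟨j - 1, by omega⟩
    obtain ⟨f, rfl⟩ : ∃ f, e = f + 2 * i := ⟨e - 2 * i, by omega⟩
    nlinarith [Nat.zero_le (s * i), Nat.zero_le (s * f), Nat.zero_le (i * f), Nat.zero_le (s * i * f), Nat.zero_le (s * i * i),
      Nat.zero_le (i * i)]

theorem num2 {m r : ℕ} (hm : 40 ≤ m) (h : 19 * m ≤ 41 * r) :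
    m ^ 2 + r * m ≤ r * ((m / 4) * (m - 2 * (m / 4))) + 2 * r + 8 * m := by
  set b := m / 4 with hb
  obtain ⟨s, hs⟩ : ∃ s, m = 4 * b + s := ⟨m - 4 * b, by omega⟩
  have h1 : m - 2 * b = 2 * b + s := by omega
  have hb7 : 10 ≤ b := by omega
  have h2 : 16 * m ≤ 5 * (b * (2 * b + s)) := by nlinarith
  have h3 := Nat.mul_le_mul_left r h2
  have h4 := Nat.mul_le_mul_left m h
  rw [h1]
  nlinarith

theorem exists_level {p m : ℕ} [Fact p.Prime] (g : Vp p m → Vp p m) : ∃ k : Fin (m + 1), aGe g k.val ∧ ¬ aGe g (k.val + 1) := by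
  by_contra hcon
  push Not at hcon
  have : ∀ k, k ≤ m + 1 → aGe g k := by
    intro k
    induction k with
    | zero => intro _; exact aGe_zero g
    | succ k ih => intro hk; exact hcon ⟨k, by omega⟩ (ih (by omega))
  have := aGe_le (this (m + 1) le_rfl)
  omega

end J_card_TD_nontriv

/-- TARGET -/
theorem card_TD_nontriv : ∃ n₀ : ℕ, ∀ (p : ℕ), p.Prime → ∀ m r n : ℕ, n₀ ≤ n → m + r = n →
    19 * n ≤ 60 * r → 60 * r ≤ 21 * n →
    Nat.card {cq : (Vp p m → Vp p m → Vp p r) × (Vp p m → Vp p r) //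
      IsTD p m r cq.1 cq.2 ∧ Spans cq.1 cq.2 ∧
        ∃ (g : Vp p m ≃+ Vp p m) (g' : Vp p r ≃+ Vp p r), g ≠ AddEquiv.refl _ ∧
          Compat cq.1 cq.2 g g'} *
      p ^ (r * m) ≤ p ^ (r ^ 2 + r * (m * (m + 1) / 2) + 2 * r + 10 * m) := by
  open J_card_TD_nontriv in
  refine ⟨100, fun p hp m r n hn hmr h1 h2 => ?_⟩
  have hpf : Fact p.Prime := ⟨hp⟩
  have hm40 : 40 ≤ m := by omega
  have hr16 : 16 ≤ r := by omega
  have h19 : 19 * m ≤ 41 * r := by omega
  have hM : m * (m + 1) / 2 = m * (m - 1) / 2 + m := by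
    obtain ⟨l, rfl⟩ : ∃ l, m = l + 1 := ⟨m - 1, by omega⟩
    rw [Nat.add_sub_cancel, show (l + 1) * (l + 1 + 1) = (l + 1) * l + (l + 1) * 2 by ring, Nat.add_mul_div_right _ _ (by norm_num)]
  set M := m * (m - 1) / 2 with hMdef
  set T := r ^ 2 + r * (m * (m + 1) / 2) + 2 * r + 8 * m with hT
  have hTM : T = r ^ 2 + r * M + r * m + 2 * r + 8 * m := by rw [hT, hM]; ring
  have hp1 : 1 ≤ p := hp.one_le
  let A : Fin (m + 1) → (Vp p m ≃+ Vp p m) → Prop := fun k g => g ≠ AddEquiv.refl _ ∧ aGe g k.val ∧ ¬ aGe g (k.val + 1)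
  let Q : Fin (m + 1) → (Vp p m → Vp p m → Vp p r) × (Vp p m → Vp p r) → Prop := fun k cq =>
    ∃ b : {g // A k g} × (Vp p r ≃+ Vp p r), IsTD p m r cq.1 cq.2 ∧ Compat cq.1 cq.2 b.1.1 b.2
  have hmain : ∀ k : Fin (m + 1), Nat.card {cq // Q k cq} * p ^ (r * m) ≤ p ^ T := by
    intro k
    have hsub : ∀ a : ℕ, Nat.card {g // A k g} ≤ Nat.card {g : Vp p m ≃+ Vp p m // ¬ aGe g (k.val + 1)} := fun _ =>
      Nat.card_le_card_of_injective (fun x => ⟨x.1, x.2.2.2⟩) (fun x y h => Subtype.ext (by simpa using h))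
    have hNA1 : Nat.card {g // A k g} ≤ p ^ (4 * k.val * m + 1) := (hsub 0).trans (card_not_aGe p m k.val)
    have hNA2 : Nat.card {g // A k g} ≤ p ^ (m ^ 2) :=
      (Nat.card_le_card_of_injective (fun x => x.1) (fun x y h => Subtype.ext h)).trans (card_aut p m)
    -- the general step
    have step : ∀ b E : ℕ, b ≤ k.val → 2 * b ≤ m → Nat.card {g // A k g} ≤ p ^ E →
        E + r * m ≤ r * (b * (m - 2 * b)) + 2 * r + 8 * m → Nat.card {cq // Q k cq} * p ^ (r * m) ≤ p ^ T := by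
      intro b E hbk hbm hE hnum
      have h3 := class_bound p m r (A k) (p ^ (r * (b * (m - 2 * b)))) (p ^ (r * M) * p ^ (r * m)) (p ^ E) hE
        (fun g hg g' => F_bound p m r b hbm g g' (aGe_mono hg.2.1 hbk))
      have h4 : 0 < p ^ (r * (b * (m - 2 * b))) := pow_pos hp.pos _
      refine Nat.le_of_mul_le_mul_right ?_ h4
      calc Nat.card {cq // Q k cq} * p ^ (r * m) * p ^ (r * (b * (m - 2 * b)))
          = (Nat.card {cq // Q k cq} * p ^ (r * (b * (m - 2 * b)))) * p ^ (r * m) := by ring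
        _ ≤ (p ^ E * p ^ (r ^ 2) * (p ^ (r * M) * p ^ (r * m))) * p ^ (r * m) := Nat.mul_le_mul_right _ h3
        _ = p ^ (E + r ^ 2 + (r * M + r * m) + r * m) := by rw [← pow_add, ← pow_add, ← pow_add, ← pow_add]
        _ ≤ p ^ (T + r * (b * (m - 2 * b))) := Nat.pow_le_pow_right hp1 (by rw [hTM]; omega)
        _ = p ^ T * p ^ (r * (b * (m - 2 * b))) := pow_add _ _ _
    rcases Nat.eq_zero_or_pos k.val with hk0 | hk0
    · have h3 := class_bound p m r (A k) 1 (p ^ (r * M)) (p ^ (4 * k.val * m + 1)) hNA1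
        (fun g hg g' => by
          rw [mul_one]
          exact scalar_bound p m r (by omega) g g' (by simpa [hk0] using hg.2.2) hg.1)
      rw [mul_one, hk0] at h3
      calc Nat.card {cq // Q k cq} * p ^ (r * m)
          ≤ (p ^ (4 * 0 * m + 1) * p ^ (r ^ 2) * p ^ (r * M)) * p ^ (r * m) := Nat.mul_le_mul_right _ h3
        _ = p ^ (4 * 0 * m + 1 + r ^ 2 + r * M + r * m) := by rw [← pow_add, ← pow_add, ← pow_add]
        _ ≤ p ^ T := Nat.pow_le_pow_right hp1 (by rw [hTM]; omega)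
    · rcases le_or_gt k.val (m / 4) with hk4 | hk4
      · exact step k.val _ le_rfl (by omega) hNA1 (num1 hk0 hk4 hm40 hr16)
      · exact step (m / 4) _ hk4.le (by omega) hNA2 (num2 hm40 h19)
  have hU := union_bound Q (p ^ (r * m)) (p ^ T) hmain
  have hX : Nat.card {cq : (Vp p m → Vp p m → Vp p r) × (Vp p m → Vp p r) //
      IsTD p m r cq.1 cq.2 ∧ Spans cq.1 cq.2 ∧
        ∃ (g : Vp p m ≃+ Vp p m) (g' : Vp p r ≃+ Vp p r), g ≠ AddEquiv.refl _ ∧
          Compat cq.1 cq.2 g g'} ≤ Nat.card {cq // ∃ k, Q k cq} := by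
    refine Nat.card_le_card_of_injective (fun x => ⟨x.1, ?_⟩) (fun x y h => Subtype.ext (by simpa using h))
    obtain ⟨h3, -, g, g', h4, h5⟩ := x.2
    obtain ⟨k, hk⟩ := exists_level g
    exact ⟨k, ⟨⟨g, h4, hk⟩, g'⟩, h3, h5⟩
  have hm2 : m + 1 ≤ p ^ m := (Nat.lt_two_pow_self (n := m)).trans_le (Nat.pow_le_pow_left hp.two_le m)
  calc _ ≤ Nat.card {cq // ∃ k, Q k cq} * p ^ (r * m) := Nat.mul_le_mul_right _ hX
    _ ≤ Nat.card (Fin (m + 1)) * p ^ T := hU
    _ = (m + 1) * p ^ T := by rw [Nat.card_fin]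
    _ ≤ p ^ m * p ^ T := Nat.mul_le_mul_right _ hm2
    _ = p ^ (m + T) := (pow_add _ _ _).symm
    _ ≤ _ := Nat.pow_le_pow_right hp1 (by omega)

end Pool.Agent.Helper252_Enum
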