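import Pool.Agent.Helper252_Enum.Defs2

set_option autoImplicit false

open scoped commutatorElement

namespace Pool.Agent.Helper252_Enum

/-
PROOF OF THE TARGET.
For v ∈ Vp p m choose a with u a = v and put g v = u' a. Well defined: u a = u b → u (a b⁻¹) = 0 (u additive on products: u 1 = 0, u b⁻¹ = - u b) → a b⁻¹ ∈ FrP → u' a = u' b. Additive, injective by symmetry, surjective.
-/

namespace J_trans_of_crd

theorem u_one {p m : ℕ} {G : Type} [Group G] {u : G → Vp p m} (hu : IsCrd p m G u) : u 1 = 0 := by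
  have h := hu.map_mul 1 1
  rw [mul_one] at h
  exact left_eq_add.1 h

theorem u_inv {p m : ℕ} {G : Type} [Group G] {u : G → Vp p m} (hu : IsCrd p m G u) (a : G) :
    u a⁻¹ = - u a := by
  have h := hu.map_mul a⁻¹ a
  rw [inv_mul_cancel, u_one hu] at h
  exact eq_neg_of_add_eq_zero_left h.symm

theorem u_eq_iff {p m : ℕ} {G : Type} [Group G] {u : G → Vp p m} (hu : IsCrd p m G u) (a b : G) :
    u a = u b ↔ a * b⁻¹ ∈ FrP p G := by
  rw [← hu.ker, hu.map_mul, u_inv hu, ← sub_eq_add_neg, sub_eq_zero]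

end J_trans_of_crd

open J_trans_of_crd in
/-- TARGET -/
theorem trans_of_crd {p : ℕ} [Fact p.Prime] (m : ℕ) (G : Type) [Group G] (u u' : G → Vp p m)
    (hu : IsCrd p m G u) (hu' : IsCrd p m G u') :
    ∃ g : Vp p m ≃+ Vp p m, ∀ a, u' a = g (u a) := by
  classical
  choose s hs using hu.surj
  choose s' hs' using hu'.surj
  have h1 : ∀ a b, u a = u b ↔ u' a = u' b := fun a b => by rw [u_eq_iff hu, u_eq_iff hu']
  refine ⟨{ toFun := fun v => u' (s v), invFun := fun w => u (s' w), left_inv := ?_,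
            right_inv := ?_, map_add' := ?_ }, ?_⟩
  · intro v
    show u (s' (u' (s v))) = v
    have h2 : u (s' (u' (s v))) = u (s v) := (h1 _ _).2 (hs' _)
    rw [h2, hs]
  · intro w
    show u' (s (u (s' w))) = w
    have h2 : u' (s (u (s' w))) = u' (s' w) := (h1 _ _).1 (hs _)
    rw [h2, hs']
  · intro v w
    show u' (s (v + w)) = u' (s v) + u' (s w)
    rw [← hu'.map_mul]
    apply (h1 _ _).1
    rw [hs, hu.map_mul, hs, hs]
  · intro a
    show u' a = u' (s (u a))
    apply (h1 _ _).1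
    rw [hs]

end Pool.Agent.Helper252_Enum
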