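import Pool.Agent.Helper252_Enum.Defs2

set_option autoImplicit false

open scoped commutatorElement

namespace Pool.Agent.Helper252_Enum

/-
PROOF OF THE TARGET.
F = FrP p G = PC p ⊤ ⊤, T = TT p G = PC p F ⊤ (contains [F,G] and F^p). w is additive on F with kernel T, so for f ∈ F, t ∈ T (T <= F): w(f t) = w f = w(t f). All commutators and p-th powers are in F. For f ∈ F, g ∈ G: g f g⁻¹ = ⁅g,f⁆ f, ⁅g,f⁆ = ⁅f,g⁆⁻¹ ∈ T, so w(g f g⁻¹) = w f.
add_left: u surjective, v = u a, v' = u a', w = u b: ⁅a a', b⁆ = (a ⁅a',b⁆ a⁻¹) ⁅a,b⁆ so c(v+v', w) = w(⁅a a', b⁆) = w ⁅a',b⁆ + w ⁅a,b⁆. add_right similarly; alt: ⁅a,a⁆ = 1, w 1 = 0.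
pw: q(u a + u b) = w((ab)^p). In the quotient G/T the image of F is central and elementary abelian, so G/T has class <= 2 and (ab)^p = a^p b^p ⁅b,a⁆^(p(p-1)/2) modulo T; p odd: p divides p(p-1)/2 and ⁅b,a⁆^p ∈ T; p = 2: w ⁅b,a⁆ = - w ⁅a,b⁆ = w ⁅a,b⁆ in ZMod 2 vectors. (Work in the quotient group, or prove by induction on k:
(ab)^k = a^k b^k ⁅b,a⁆^(k(k-1)/2) t with t ∈ T; T is normal in G as F is normal.) F is normal in G (generated by a set invariant under conjugation), likewise T.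
Spans: the set {x ∈ F | w x ∈ AddSubgroup.closure ...} is a subgroup containing the generators of F (commutators: w ⁅a,b⁆ = c(u a)(u b), p-th powers: w(a^p) = q (u a)), so it is F; w maps F onto everything.
-/

namespace J_isTD_of_hasTD

theorem comm_mem_Fr (p : ℕ) {G : Type*} [Group G] (a b : G) : ⁅a, b⁆ ∈ FrP p G :=
  Subgroup.subset_closure (Or.inl ⟨a, Subgroup.mem_top _, b, Subgroup.mem_top _, rfl⟩)

theorem pow_mem_Fr (p : ℕ) {G : Type*} [Group G] (a : G) : a ^ p ∈ FrP p G :=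
  Subgroup.subset_closure (Or.inr ⟨a, Subgroup.mem_top _, rfl⟩)

theorem comm_mem_TT (p : ℕ) {G : Type*} [Group G] (a : G) (ha : a ∈ FrP p G) (b : G) :
    ⁅a, b⁆ ∈ TT p G :=
  Subgroup.subset_closure (Or.inl ⟨a, ha, b, Subgroup.mem_top _, rfl⟩)

theorem TT_le (p : ℕ) (G : Type*) [Group G] : TT p G ≤ FrP p G := by
  unfold TT PC
  rw [Subgroup.closure_le]
  rintro x (⟨a, _, b, _, rfl⟩ | ⟨a, _, rfl⟩)
  · exact comm_mem_Fr p a b
  · exact pow_mem_Fr p a

theorem Fr_normal (p : ℕ) (G : Type*) [Group G] : (FrP p G).Normal := by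
  refine ⟨fun f hf g => ?_⟩
  have h1 : g * f * g⁻¹ = ⁅g, f⁆ * f := by
    simp only [commutatorElement_def]
    group
  rw [h1]
  exact Subgroup.mul_mem _ (comm_mem_Fr p g f) hf

theorem TT_normal (p : ℕ) (G : Type*) [Group G] : (TT p G).Normal := by
  refine ⟨fun f hf g => ?_⟩
  have h1 : g * f * g⁻¹ = ⁅f, g⁆⁻¹ * f := by
    simp only [commutatorElement_def]
    group
  rw [h1]
  exact Subgroup.mul_mem _ (Subgroup.inv_mem _ (comm_mem_TT p f (TT_le p G hf) g)) hf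

/-- powers of a product in a group of class two -/
theorem mul_pow_class2 {H : Type*} [Group H] (a b : H) (ha : Commute ⁅b, a⁆ a)
    (hb : Commute ⁅b, a⁆ b) (k : ℕ) : (a * b) ^ k = a ^ k * b ^ k * ⁅b, a⁆ ^ k.choose 2 := by
  have hba : b * a = ⁅b, a⁆ * (a * b) := by
    simp only [commutatorElement_def]
    group
  have h1 : ∀ k : ℕ, b ^ k * a = ⁅b, a⁆ ^ k * (a * b ^ k) := by
    intro k
    induction k with
    | zero => simp
    | succ k ih =>
      calc b ^ (k + 1) * a = b ^ k * (b * a) := by rw [pow_succ, mul_assoc]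
        _ = b ^ k * (⁅b, a⁆ * (a * b)) := by rw [hba]
        _ = (b ^ k * ⁅b, a⁆) * (a * b) := by rw [mul_assoc]
        _ = (⁅b, a⁆ * b ^ k) * (a * b) := by rw [(hb.pow_right k).eq]
        _ = ⁅b, a⁆ * (b ^ k * a) * b := by simp only [mul_assoc]
        _ = ⁅b, a⁆ * (⁅b, a⁆ ^ k * (a * b ^ k)) * b := by rw [ih]
        _ = ⁅b, a⁆ ^ (k + 1) * (a * b ^ (k + 1)) := by
          rw [pow_succ' ⁅b, a⁆, pow_succ b]
          simp only [mul_assoc]
  induction k with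
  | zero => simp
  | succ k ih =>
    have h2 : Commute ⁅b, a⁆ (a * b) := ha.mul_right hb
    have h3 : (k + 1).choose 2 = k + k.choose 2 := by
      rw [Nat.choose_succ_succ' k 1, Nat.choose_one_right]
    calc (a * b) ^ (k + 1) = a ^ k * b ^ k * ⁅b, a⁆ ^ k.choose 2 * (a * b) := by rw [pow_succ, ih]
      _ = a ^ k * b ^ k * ((a * b) * ⁅b, a⁆ ^ k.choose 2) := by
        rw [mul_assoc, (h2.pow_left _).eq]
      _ = a ^ k * (b ^ k * a) * b * ⁅b, a⁆ ^ k.choose 2 := by simp only [mul_assoc]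
      _ = a ^ k * (⁅b, a⁆ ^ k * (a * b ^ k)) * b * ⁅b, a⁆ ^ k.choose 2 := by rw [h1]
      _ = a ^ k * (⁅b, a⁆ ^ k * (a * b ^ (k + 1))) * ⁅b, a⁆ ^ k.choose 2 := by
        rw [pow_succ b]
        simp only [mul_assoc]
      _ = a ^ k * ((a * b ^ (k + 1)) * ⁅b, a⁆ ^ k) * ⁅b, a⁆ ^ k.choose 2 := by
        rw [((ha.mul_right (hb.pow_right (k + 1))).pow_left k).eq]
      _ = a ^ (k + 1) * b ^ (k + 1) * ⁅b, a⁆ ^ (k + 1).choose 2 := by
        rw [h3, pow_add ⁅b, a⁆, pow_succ a]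
        simp only [mul_assoc]

theorem pow_modT (p : ℕ) (G : Type*) [Group G] (a b : G) :
    ((a * b) ^ p)⁻¹ * (a ^ p * b ^ p * ⁅b, a⁆ ^ p.choose 2) ∈ TT p G := by
  have := TT_normal p G
  rw [← QuotientGroup.eq]
  have hc : ∀ g : G, Commute ((⁅b, a⁆ : G) : G ⧸ TT p G) (g : G ⧸ TT p G) := by
    intro g
    have h1 : ((⁅⁅b, a⁆, g⁆ : G) : G ⧸ TT p G) = 1 :=
      (QuotientGroup.eq_one_iff _).2 (comm_mem_TT p _ (comm_mem_Fr p b a) g)
    have h2 : ⁅((⁅b, a⁆ : G) : G ⧸ TT p G), (g : G ⧸ TT p G)⁆ = 1 := by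
      rw [← h1]; rfl
    exact commutatorElement_eq_one_iff_commute.1 h2
  have h3 := mul_pow_class2 (a : G ⧸ TT p G) (b : G ⧸ TT p G) (hc a) (hc b) p
  exact h3

end J_isTD_of_hasTD

/-- TARGET -/
theorem isTD_of_hasTD {p : ℕ} [Fact p.Prime] (m r : ℕ) (G : Type) [Group G] [Finite G]
    (u : G → Vp p m) (w : G → Vp p r) (c : Vp p m → Vp p m → Vp p r) (q : Vp p m → Vp p r)
    (h : HasTD p m r G u w c q) : IsTD p m r c q ∧ Spans c q := by
  have hp : p.Prime := Fact.out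
  have w1 : w 1 = 0 := by
    have h1 := h.w_mul 1 (Subgroup.one_mem _) 1 (Subgroup.one_mem _)
    rw [mul_one] at h1
    exact left_eq_add.1 h1
  have winv : ∀ a ∈ FrP p G, w a⁻¹ = - w a := by
    intro a ha
    have h1 := h.w_mul a⁻¹ (Subgroup.inv_mem _ ha) a ha
    rw [inv_mul_cancel, w1] at h1
    exact eq_neg_of_add_eq_zero_left h1.symm
  have wconj : ∀ g : G, ∀ f ∈ FrP p G, w (g * f * g⁻¹) = w f := by
    intro g f hf
    have h1 : g * f * g⁻¹ = ⁅f, g⁆⁻¹ * f := by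
      simp only [commutatorElement_def]
      group
    have h2 := J_isTD_of_hasTD.comm_mem_TT p f hf g
    have h3 := (J_isTD_of_hasTD.TT_le p G) h2
    rw [h1, h.w_mul _ (Subgroup.inv_mem _ h3) f hf, winv _ h3, (h.w_ker _ h3).2 h2]
    simp
  have wpow : ∀ f ∈ FrP p G, ∀ n : ℕ, w (f ^ n) = n • w f := by
    intro f hf n
    induction n with
    | zero => rw [pow_zero, w1, zero_smul]
    | succ n ih => rw [pow_succ, h.w_mul _ (Subgroup.pow_mem _ hf n) f hf, ih, succ_nsmul]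
  have hanti : ∀ a b : G, w ⁅b, a⁆ = - w ⁅a, b⁆ := by
    intro a b
    rw [← winv _ (J_isTD_of_hasTD.comm_mem_Fr p a b), commutatorElement_inv]
  have hleft : ∀ a a' b : G, w ⁅a * a', b⁆ = w ⁅a, b⁆ + w ⁅a', b⁆ := by
    intro a a' b
    have h1 : ⁅a * a', b⁆ = (a * ⁅a', b⁆ * a⁻¹) * ⁅a, b⁆ := by
      simp only [commutatorElement_def]
      group
    rw [h1, h.w_mul _ ((J_isTD_of_hasTD.Fr_normal p G).conj_mem _
      (J_isTD_of_hasTD.comm_mem_Fr p a' b) a) _ (J_isTD_of_hasTD.comm_mem_Fr p a b),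
      wconj _ _ (J_isTD_of_hasTD.comm_mem_Fr p a' b), add_comm]
  have hL : ∀ v v' x, c (v + v') x = c v x + c v' x := by
    intro v v' x
    obtain ⟨a, rfl⟩ := h.crd.surj v
    obtain ⟨a', rfl⟩ := h.crd.surj v'
    obtain ⟨b, rfl⟩ := h.crd.surj x
    rw [← h.crd.map_mul, h.hc, h.hc, h.hc, hleft]
  have hA : ∀ v x, c v x = - c x v := by
    intro v x
    obtain ⟨a, rfl⟩ := h.crd.surj v
    obtain ⟨b, rfl⟩ := h.crd.surj x
    rw [h.hc, h.hc, hanti b a]
  refine ⟨⟨hL, ?_, ?_, ?_⟩, ?_⟩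
  · intro v x x'
    rw [hA v (x + x'), hL, hA v x, hA v x']
    abel
  · intro v
    obtain ⟨a, rfl⟩ := h.crd.surj v
    rw [h.hc, commutatorElement_self, w1]
  · intro v x
    obtain ⟨a, rfl⟩ := h.crd.surj v
    obtain ⟨b, rfl⟩ := h.crd.surj x
    rw [← h.crd.map_mul, h.hq, h.hq, h.hq, h.hc]
    have hT := J_isTD_of_hasTD.pow_modT p G a b
    have m1 := J_isTD_of_hasTD.pow_mem_Fr p (a * b)
    have m2 := J_isTD_of_hasTD.pow_mem_Fr p a
    have m3 := J_isTD_of_hasTD.pow_mem_Fr p b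
    have m4 := J_isTD_of_hasTD.comm_mem_Fr p b a
    have m5 : ⁅b, a⁆ ^ p.choose 2 ∈ FrP p G := Subgroup.pow_mem _ m4 _
    have m6 : a ^ p * b ^ p * ⁅b, a⁆ ^ p.choose 2 ∈ FrP p G :=
      Subgroup.mul_mem _ (Subgroup.mul_mem _ m2 m3) m5
    have h1 := (h.w_ker _ ((J_isTD_of_hasTD.TT_le p G) hT)).2 hT
    rw [h.w_mul _ (Subgroup.inv_mem _ m1) _ m6, winv _ m1, h.w_mul _ (Subgroup.mul_mem _ m2 m3) _ m5,
      h.w_mul _ m2 _ m3, wpow _ m4, hanti a b] at h1
    have h2 : w ((a * b) ^ p) = w (a ^ p) + w (b ^ p) + p.choose 2 • (- w ⁅a, b⁆) := by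
      have := neg_add_eq_zero.1 h1
      exact this
    rw [h2]
    congr 1
    by_cases hp2 : p = 2
    · rw [if_pos hp2]
      subst hp2
      funext i
      simp only [Nat.choose_self, one_smul, Pi.neg_apply]
      exact ZMod.neg_eq_self_mod_two _
    · rw [if_neg hp2]
      have hlt : 2 < p := lt_of_le_of_ne hp.two_le (Ne.symm hp2)
      obtain ⟨k, hk⟩ := hp.dvd_choose_self (by norm_num : 2 ≠ 0) hlt
      rw [hk]
      funext i
      simp
  · unfold Spans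
    rw [eq_top_iff]
    intro x _
    obtain ⟨a, ha, rfl⟩ := h.w_surj x
    have key : ∀ a (ha : a ∈ Subgroup.closure ({x : G | ∃ a ∈ (⊤ : Subgroup G), ∃ b ∈ (⊤ : Subgroup G), x = ⁅a, b⁆} ∪
        {x : G | ∃ a ∈ (⊤ : Subgroup G), x = a ^ p})),
        w a ∈ AddSubgroup.closure ({x | ∃ v w, x = c v w} ∪ {x | ∃ v, x = q v}) := by
      intro a ha
      induction ha using Subgroup.closure_induction with
      | mem x hx =>
        rcases hx with ⟨a, _, b, _, rfl⟩ | ⟨a, _, rfl⟩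
        · exact AddSubgroup.subset_closure (Or.inl ⟨u a, u b, (h.hc a b).symm⟩)
        · exact AddSubgroup.subset_closure (Or.inr ⟨u a, (h.hq a).symm⟩)
      | one => rw [w1]; exact AddSubgroup.zero_mem _
      | mul x y hx hy ihx ihy =>
        rw [h.w_mul x hx y hy]
        exact AddSubgroup.add_mem _ ihx ihy
      | inv x hx ihx =>
        rw [winv x hx]
        exact AddSubgroup.neg_mem _ ihx
    exact key a ha

end Pool.Agent.Helper252_Enum

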