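import Pool.Agent.Helper252_Enum.R04_isTD_of_hasTD

set_option autoImplicit false

open scoped commutatorElement

namespace Pool.Agent.Helper252_Enum

/-
PROOF OF THE TARGET.
F = FrP p G, T = TT p G = PC p F ⊤ <= F, both normal. T has order p^s dividing p^r, so s <= r. F/T is abelian of exponent p (T contains [F,G] and F^p), of order p^(r-s), so isomorphic to Vp p (r-s) = (Fin (r-s) → ZMod p) (Module (ZMod p) structure on Additive (F ⧸ T.subgroupOf F): AddCommGroup.zmodModule; finrank r-s; LinearEquiv to Fin _ → ZMod p).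
w := this map on F and 0 off F. c v v' := w ⁅a, b⁆ for chosen a, b with u a = v, u b = v'; q v := w (a^p). Independence of the choice: if u a = u a' then a' = a f with f ∈ F; modulo T the element f is central and f^p = 1, so ⁅a f, b⁆ ≡ ⁅a,b⁆, (a f)^p ≡ a^p modulo T. So hc, hq hold for all a, b. Then isTD_of_hasTD gives the rest.
-/

namespace J_exists_TD

theorem pc_normal {G : Type*} [Group G] (p : ℕ) (A : Subgroup G) (hA : A.Normal) :
    (PC p A (⊤ : Subgroup G)).Normal := by
  constructor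
  intro n hn g
  unfold PC at hn ⊢
  induction hn using Subgroup.closure_induction with
  | mem x hx =>
    apply Subgroup.subset_closure
    rcases hx with ⟨a, ha, b, hb, rfl⟩ | ⟨a, ha, rfl⟩
    · left
      refine ⟨g * a * g⁻¹, hA.conj_mem a ha g, g * b * g⁻¹, Subgroup.mem_top _, ?_⟩
      simp only [commutatorElement_def]
      group
    · right
      exact ⟨g * a * g⁻¹, hA.conj_mem a ha g, (conj_pow).symm⟩
  | one => simp
  | mul x y _ _ hx hy =>
    have h1 : g * (x * y) * g⁻¹ = (g * x * g⁻¹) * (g * y * g⁻¹) := by group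
    rw [h1]
    exact Subgroup.mul_mem _ hx hy
  | inv x _ hx =>
    have h1 : g * x⁻¹ * g⁻¹ = (g * x * g⁻¹)⁻¹ := by group
    rw [h1]
    exact Subgroup.inv_mem _ hx

theorem fr_normal (p : ℕ) (G : Type*) [Group G] : (FrP p G).Normal :=
  pc_normal p _ inferInstance

theorem tt_normal (p : ℕ) (G : Type*) [Group G] : (TT p G).Normal :=
  pc_normal p _ (fr_normal p G)

theorem tt_le (p : ℕ) (G : Type*) [Group G] : TT p G ≤ FrP p G := by
  unfold TT FrP PC
  apply Subgroup.closure_mono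
  rintro x (⟨a, _, b, _, rfl⟩ | ⟨a, _, rfl⟩)
  · exact Or.inl ⟨a, Subgroup.mem_top _, b, Subgroup.mem_top _, rfl⟩
  · exact Or.inr ⟨a, Subgroup.mem_top _, rfl⟩

theorem comm_mem_fr (p : ℕ) {G : Type*} [Group G] (a b : G) : ⁅a, b⁆ ∈ FrP p G :=
  Subgroup.subset_closure (Or.inl ⟨a, Subgroup.mem_top _, b, Subgroup.mem_top _, rfl⟩)

theorem pow_mem_fr (p : ℕ) {G : Type*} [Group G] (a : G) : a ^ p ∈ FrP p G :=
  Subgroup.subset_closure (Or.inr ⟨a, Subgroup.mem_top _, rfl⟩)

theorem comm_mem_tt (p : ℕ) {G : Type*} [Group G] {a : G} (ha : a ∈ FrP p G) (b : G) :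
    ⁅a, b⁆ ∈ TT p G :=
  Subgroup.subset_closure (Or.inl ⟨a, ha, b, Subgroup.mem_top _, rfl⟩)

theorem pow_mem_tt (p : ℕ) {G : Type*} [Group G] {a : G} (ha : a ∈ FrP p G) : a ^ p ∈ TT p G :=
  Subgroup.subset_closure (Or.inr ⟨a, ha, rfl⟩)

theorem exists_equiv0 {p : ℕ} [Fact p.Prime] {A : Type} [AddCommGroup A] [Finite A]
    [Module (ZMod p) A] {k : ℕ} (hk : Nat.card A = p ^ k) : Nonempty (A ≃+ (Fin k → ZMod p)) := by
  let b := Module.finBasis (ZMod p) A
  have h1 : Nat.card A = p ^ Module.finrank (ZMod p) A := by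
    rw [Nat.card_congr b.equivFun.toEquiv, Nat.card_fun, Nat.card_zmod, Nat.card_fin]
  rw [hk] at h1
  have h3 : k = Module.finrank (ZMod p) A :=
    Nat.pow_right_injective (Fact.out : p.Prime).two_le h1
  rw [h3]
  exact ⟨b.equivFun.toAddEquiv⟩

/-- a finite elementary abelian group written multiplicatively has coordinates -/
theorem exists_equiv {p : ℕ} [Fact p.Prime] {A : Type} [CommGroup A] [Finite A]
    (hp : ∀ a : A, a ^ p = 1) {k : ℕ} (hk : Nat.card A = p ^ k) :
    Nonempty (Additive A ≃+ Vp p k) := by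
  haveI : Finite (Additive A) := inferInstanceAs (Finite A)
  have h0 : ∀ x : Additive A, p • x = 0 := fun x => congrArg Additive.ofMul (hp (Additive.toMul x))
  exact @exists_equiv0 p _ (Additive A) _ _ (AddCommGroup.zmodModule h0) k hk

end J_exists_TD

open J_exists_TD in
/-- TARGET -/
theorem exists_TD {p : ℕ} [Fact p.Prime] (m r s : ℕ) (G : Type) [Group G] [Finite G]
    (u : G → Vp p m) (hu : IsCrd p m G u)
    (hr : Nat.card (FrP p G) = p ^ r) (hs : Nat.card (TT p G) = p ^ s) :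
    s ≤ r ∧ ∃ w c q, HasTD p m (r - s) G u w c q ∧ IsTD p m (r - s) c q ∧ Spans c q := by
  classical
  have hp : p.Prime := Fact.out
  haveI hFn := fr_normal p G
  haveI hTn := tt_normal p G
  have hTF := tt_le p G
  have hsr : s ≤ r := by
    have h1 := Subgroup.card_dvd_of_le hTF
    rw [hr, hs] at h1
    exact (Nat.pow_dvd_pow_iff_le_right hp.one_lt).1 h1
  refine ⟨hsr, ?_⟩
  set π : G →* G ⧸ TT p G := QuotientGroup.mk' (TT p G) with hπ
  have hπ1 : ∀ x, π x = 1 ↔ x ∈ TT p G := fun x => QuotientGroup.eq_one_iff x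
  have hcen : ∀ f ∈ FrP p G, ∀ g, Commute (π f) g := by
    intro f hf g
    obtain ⟨b, rfl⟩ := QuotientGroup.mk'_surjective (TT p G) g
    have h1 : π ⁅f, b⁆ = 1 := (hπ1 _).2 (comm_mem_tt p hf b)
    rw [map_commutatorElement] at h1
    exact commutatorElement_eq_one_iff_commute.1 h1
  have hpow : ∀ f ∈ FrP p G, (π f) ^ p = 1 := by
    intro f hf
    rw [← map_pow]
    exact (hπ1 _).2 (pow_mem_tt p hf)
  set Fb : Subgroup (G ⧸ TT p G) := (FrP p G).map π with hFb
  letI : CommGroup Fb :=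
    { (inferInstance : Group Fb) with
      mul_comm := by
        rintro ⟨x, hx⟩ ⟨y, hy⟩
        obtain ⟨f, hf, rfl⟩ := Subgroup.mem_map.1 hx
        exact Subtype.ext (hcen f hf y) }
  have hcard : Nat.card Fb = p ^ (r - s) := by
    have h1 : Nat.card (FrP p G) = Nat.card (TT p G) * Nat.card Fb := by
      have e1 : (TT p G).subgroupOf (FrP p G) = (π.subgroupMap (FrP p G)).ker := by
        ext x
        rw [Subgroup.mem_subgroupOf, MonoidHom.mem_ker, ← hπ1]
        constructor
        · intro h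
          exact Subtype.ext h
        · intro h
          exact congrArg Subtype.val h
      have e2 : Nat.card ((π.subgroupMap (FrP p G)).ker) = Nat.card (TT p G) := by
        rw [← e1]
        exact Nat.card_congr (Subgroup.subgroupOfEquivOfLe hTF).toEquiv
      have e3 := Subgroup.card_eq_card_quotient_mul_card_subgroup (π.subgroupMap (FrP p G)).ker
      have e4 : Nat.card ((FrP p G) ⧸ (π.subgroupMap (FrP p G)).ker) = Nat.card Fb :=
        Nat.card_congr (QuotientGroup.quotientKerEquivOfSurjective _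
          (π.subgroupMap_surjective (FrP p G))).toEquiv
      rw [e3, e4, e2, mul_comm]
    rw [hr, hs] at h1
    have h2 : p ^ r = p ^ s * p ^ (r - s) := by
      rw [← pow_add]; congr 1; omega
    rw [h2] at h1
    exact (Nat.eq_of_mul_eq_mul_left (pow_pos hp.pos s) h1).symm
  obtain ⟨e⟩ := exists_equiv (p := p) (A := Fb) (by
    rintro ⟨x, hx⟩
    obtain ⟨f, hf, rfl⟩ := Subgroup.mem_map.1 hx
    exact Subtype.ext (hpow f hf)) hcard
  have hmem : ∀ a ∈ FrP p G, π a ∈ Fb := fun a ha => Subgroup.mem_map_of_mem π ha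
  obtain ⟨w, hw⟩ : ∃ w : G → Vp p (r - s), w = fun a => if h : a ∈ FrP p G then
      e (Additive.ofMul (⟨π a, hmem a h⟩ : Fb)) else 0 := ⟨_, rfl⟩
  have hw1 : ∀ a (h : a ∈ FrP p G), w a = e (Additive.ofMul (⟨π a, hmem a h⟩ : Fb)) := by
    intro a h
    rw [hw]
    exact dif_pos h
  have hwc : ∀ a ∈ FrP p G, ∀ b ∈ FrP p G, π a = π b → w a = w b := by
    intro a ha b hb hab
    rw [hw1 a ha, hw1 b hb]
    congr 2
    exact Subtype.ext hab
  have hu1 : u 1 = 0 := by
    have := hu.map_mul 1 1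
    rw [mul_one] at this
    simpa using this
  have hui : ∀ a, u a⁻¹ = - u a := by
    intro a
    have := hu.map_mul a⁻¹ a
    rw [inv_mul_cancel, hu1] at this
    exact eq_neg_of_add_eq_zero_left this.symm
  have huf : ∀ a b, u a = u b → ∃ f ∈ FrP p G, a = b * f := by
    intro a b hab
    refine ⟨b⁻¹ * a, ?_, by group⟩
    rw [← hu.ker, hu.map_mul, hui, hab]
    simp
  have hcc : ∀ a b a' b', u a = u a' → u b = u b' → w ⁅a, b⁆ = w ⁅a', b'⁆ := by
    intro a b a' b' h1 h2
    obtain ⟨f, hf, rfl⟩ := huf a a' h1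
    obtain ⟨g, hg, rfl⟩ := huf b b' h2
    apply hwc _ (comm_mem_fr p _ _) _ (comm_mem_fr p _ _)
    rw [map_commutatorElement, map_commutatorElement, map_mul, map_mul]
    have c1 := hcen f hf
    have c2 := hcen g hg
    simp only [commutatorElement_def, mul_inv_rev]
    have d1 := (c1 (π b')).eq
    have d2 := (c1 (π g)).eq
    have d3 := (c2 (π a')).eq
    calc π a' * π f * (π b' * π g) * ((π f)⁻¹ * (π a')⁻¹) * ((π g)⁻¹ * (π b')⁻¹)
        = π a' * (π f * (π b' * π g * (π f)⁻¹)) * (π a')⁻¹ * ((π g)⁻¹ * (π b')⁻¹) := by group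
      _ = π a' * ((π b' * π g * (π f)⁻¹) * π f) * (π a')⁻¹ * ((π g)⁻¹ * (π b')⁻¹) := by
          rw [(c1 (π b' * π g * (π f)⁻¹)).eq]
      _ = π a' * π b' * (π g * (π a')⁻¹) * ((π g)⁻¹ * (π b')⁻¹) := by group
      _ = π a' * π b' * ((π a')⁻¹ * π g) * ((π g)⁻¹ * (π b')⁻¹) := by
          rw [(c2 (π a')⁻¹).eq]
      _ = π a' * π b' * (π a')⁻¹ * (π b')⁻¹ := by group
  have hqq : ∀ a a', u a = u a' → w (a ^ p) = w (a' ^ p) := by
    intro a a' h1
    obtain ⟨f, hf, rfl⟩ := huf a a' h1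
    apply hwc _ (pow_mem_fr p _) _ (pow_mem_fr p _)
    rw [map_pow, map_pow, map_mul, (hcen f hf (π a')).symm.mul_pow, hpow f hf, mul_one]
  set sec := Function.surjInv hu.surj with hsec
  have hse : ∀ v, u (sec v) = v := Function.surjInv_eq hu.surj
  have hTD : HasTD p m (r - s) G u w (fun v v' => w ⁅sec v, sec v'⁆) (fun v => w (sec v ^ p)) := by
    refine ⟨hu, ?_, ?_, ?_, ?_, ?_, ?_⟩
    · intro a ha b hb
      rw [hw1 a ha, hw1 b hb, hw1 (a * b) (Subgroup.mul_mem _ ha hb), ← map_add, ← ofMul_mul]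
      congr 2
    · intro a ha
      rw [hw]
      exact dif_neg ha
    · intro x
      obtain ⟨y, hy⟩ := e.surjective x
      obtain ⟨⟨z, hz⟩, rfl⟩ : ∃ z : Fb, Additive.ofMul z = y := ⟨Additive.toMul y, rfl⟩
      obtain ⟨f, hf, rfl⟩ := Subgroup.mem_map.1 hz
      exact ⟨f, hf, by rw [hw1 f hf]; exact hy⟩
    · intro a ha
      rw [hw1 a ha, ← hπ1]
      constructor
      · intro h
        have h2 := e.injective (h.trans (map_zero e).symm)
        exact congrArg Subtype.val (congrArg Additive.toMul h2)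
      · intro h
        have h2 : (⟨π a, hmem a ha⟩ : Fb) = 1 := Subtype.ext h
        rw [h2, ofMul_one, map_zero]
    · intro a b
      exact hcc _ _ _ _ (hse _) (hse _)
    · intro a
      exact hqq _ _ (hse _)
  exact ⟨w, _, _, hTD, isTD_of_hasTD m (r - s) G u w _ _ hTD⟩

end Pool.Agent.Helper252_Enum
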