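import Pool.Agent.Helper252_Enum.Defs2

set_option autoImplicit false

open scoped commutatorElement

namespace Pool.Agent.Helper252_Enum

/-
PROOF OF THE TARGET.
φ maps F = FrP p G onto itself and T = TT p G onto itself (they are closures of sets invariant under automorphisms; φ is bijective). For x ∈ Vp p r choose a ∈ F with w a = x and put g' x = w (φ a). Well defined (w a = w b, a, b ∈ F → w (a b⁻¹) = 0 → a b⁻¹ ∈ T → φ(a b⁻¹) ∈ T → w(φ a) = w(φ b)), additive, bijective (the inverse comes from φ.symm). So w(φ a) = g'(w a) for a ∈ F.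
c (g v)(g v') with v = u a, v' = u b: c (u (φ a)) (u (φ b)) = w ⁅φ a, φ b⁆ = w (φ ⁅a,b⁆) = g' (w ⁅a,b⁆) = g' (c v v'). q (g v) = w ((φ a)^p) = g' (w (a^p)) = g' (q v).
-/

namespace J_compat_of_aut

theorem map_PC {G : Type*} [Group G] (p : ℕ) (φ : G ≃* G) (A B : Subgroup G)
    (hA : ∀ a ∈ A, φ a ∈ A) (hB : ∀ b ∈ B, φ b ∈ B) :
    ∀ x ∈ PC p A B, φ x ∈ PC p A B := by
  intro x hx
  refine Subgroup.closure_induction (p := fun x _ => φ x ∈ PC p A B) ?_ ?_ ?_ ?_ hx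
  · rintro y (⟨a, ha, b, hb, rfl⟩ | ⟨a, ha, rfl⟩)
    · rw [map_commutatorElement]
      exact Subgroup.subset_closure (Or.inl ⟨_, hA a ha, _, hB b hb, rfl⟩)
    · rw [map_pow]
      exact Subgroup.subset_closure (Or.inr ⟨_, hA a ha, rfl⟩)
  · rw [map_one]; exact Subgroup.one_mem _
  · intro a b _ _ ha hb
    rw [map_mul]; exact Subgroup.mul_mem _ ha hb
  · intro a _ ha
    rw [map_inv]; exact Subgroup.inv_mem _ ha

theorem map_FrP {G : Type*} [Group G] (p : ℕ) (φ : G ≃* G) :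
    ∀ x ∈ FrP p G, φ x ∈ FrP p G :=
  map_PC p φ _ _ (fun _ _ => Subgroup.mem_top _) (fun _ _ => Subgroup.mem_top _)

theorem map_TT {G : Type*} [Group G] (p : ℕ) (φ : G ≃* G) :
    ∀ x ∈ TT p G, φ x ∈ TT p G :=
  map_PC p φ _ _ (map_FrP p φ) (fun _ _ => Subgroup.mem_top _)

theorem exists_map {p : ℕ} (m r : ℕ) (G : Type) [Group G]
    (u : G → Vp p m) (w : G → Vp p r) (c : Vp p m → Vp p m → Vp p r) (q : Vp p m → Vp p r)
    (h : HasTD p m r G u w c q) (φ : G ≃* G) :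
    ∃ F : Vp p r → Vp p r, ∀ a ∈ FrP p G, F (w a) = w (φ a) := by
  choose s hs1 hs2 using h.w_surj
  refine ⟨fun x => w (φ (s x)), ?_⟩
  intro a ha
  have hb := hs1 (w a)
  have hab := hs2 (w a)
  set b := s (w a) with hbdef
  -- b⁻¹ * a ∈ TT
  have h1 : b⁻¹ * a ∈ FrP p G := Subgroup.mul_mem _ (Subgroup.inv_mem _ hb) ha
  have h2 : w (b⁻¹ * a) = 0 := by
    have h3 := h.w_mul b hb (b⁻¹ * a) h1
    rw [mul_inv_cancel_left, hab] at h3
    exact left_eq_add.mp h3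
  have h4 : b⁻¹ * a ∈ TT p G := (h.w_ker _ h1).mp h2
  have h5 : w (φ (b⁻¹ * a)) = 0 := (h.w_ker _ (map_FrP p φ _ h1)).mpr (map_TT p φ _ h4)
  have h6 := h.w_mul (φ b) (map_FrP p φ _ hb) (φ (b⁻¹ * a)) (map_FrP p φ _ h1)
  rw [← map_mul, mul_inv_cancel_left, h5, add_zero] at h6
  exact h6.symm

end J_compat_of_aut

/-- TARGET -/
theorem compat_of_aut {p : ℕ} [Fact p.Prime] (m r : ℕ) (G : Type) [Group G] [Finite G]
    (u : G → Vp p m) (w : G → Vp p r) (c : Vp p m → Vp p m → Vp p r) (q : Vp p m → Vp p r)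
    (h : HasTD p m r G u w c q) (φ : G ≃* G) (g : Vp p m ≃+ Vp p m)
    (hφ : ∀ a, u (φ a) = g (u a)) : ∃ g' : Vp p r ≃+ Vp p r, Compat c q g g' := by
  obtain ⟨F, hF⟩ := J_compat_of_aut.exists_map m r G u w c q h φ
  obtain ⟨F', hF'⟩ := J_compat_of_aut.exists_map m r G u w c q h φ.symm
  have hleft : Function.LeftInverse F' F := by
    intro x
    obtain ⟨a, ha, rfl⟩ := h.w_surj x
    rw [hF a ha, hF' _ (J_compat_of_aut.map_FrP p φ a ha), MulEquiv.symm_apply_apply]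
  have hright : Function.RightInverse F' F := by
    intro x
    obtain ⟨a, ha, rfl⟩ := h.w_surj x
    rw [hF' a ha, hF _ (J_compat_of_aut.map_FrP p φ.symm a ha), MulEquiv.apply_symm_apply]
  have hadd : ∀ x y, F (x + y) = F x + F y := by
    intro x y
    obtain ⟨a, ha, rfl⟩ := h.w_surj x
    obtain ⟨b, hb, rfl⟩ := h.w_surj y
    rw [← h.w_mul a ha b hb, hF _ (Subgroup.mul_mem _ ha hb), hF a ha, hF b hb, map_mul,
      h.w_mul _ (J_compat_of_aut.map_FrP p φ a ha) _ (J_compat_of_aut.map_FrP p φ b hb)]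
  refine ⟨{ toFun := F, invFun := F', left_inv := hleft, right_inv := hright,
            map_add' := hadd }, ?_, ?_⟩
  · intro v v'
    obtain ⟨a, rfl⟩ := h.crd.surj v
    obtain ⟨b, rfl⟩ := h.crd.surj v'
    rw [← hφ a, ← hφ b, h.hc, h.hc, ← map_commutatorElement]
    exact (hF _ (Subgroup.subset_closure
      (Or.inl ⟨a, Subgroup.mem_top _, b, Subgroup.mem_top _, rfl⟩))).symm
  · intro v
    obtain ⟨a, rfl⟩ := h.crd.surj v
    rw [← hφ a, h.hq, h.hq, ← map_pow]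
    exact (hF _ (Subgroup.subset_closure (Or.inr ⟨a, Subgroup.mem_top _, rfl⟩))).symm

end Pool.Agent.Helper252_Enum
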