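import Pool.Agent.Helper252_Enum.P1_nongen
import Pool.Agent.Helper252_Enum.P5_card_closure
import Pool.Agent.Helper252_Enum.Defs2

set_option autoImplicit false

open scoped commutatorElement

namespace Pool.Agent.Helper252_Enum

/-
PROOF OF THE TARGET.
F = FrP p G = PC p ⊤ ⊤, F' = FrP p G'. TT = PC p F ⊤ = ⊥ means that F is central in G (all ⁅f,g⁆ = 1) and f^p = 1 for f ∈ F; same for G'. w restricted to F is a bijection F → Vp p r (additive, surjective, trivial kernel), u : G → Vp p m is onto with kernel F, so |F| = p^r, |G| = p^(m+r). Same for G'.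
Let E = {(a,b) ∈ G × G' | a ∈ F, b ∈ F', w a = w' b}, a central subgroup of G × G' of order p^r. For i : Fin m choose x i ∈ G with u (x i) = Pi.single i 1 and x' i ∈ G' with u' (x' i) = Pi.single i 1, X i = (x i, x' i). ⁅X i, X j⁆ ∈ E since w ⁅x i,x j⁆ = c(e_i)(e_j) = w' ⁅x' i,x' j⁆, X i ^ p ∈ E since w(x i ^p) = q(e_i) = w'(x' i ^ p).
L = closure(range X) ⊔ E has order at most p^m |E| = p^(m+r) by card_closure_sup_le. The projections L → G and L → G' are onto: the image contains F (projection of E: w' is onto) and the x i, and closure(range x) ⊔ F = ⊤ (u maps closure(range x) onto Vp p m). So |L| = p^(m+r) and both projections are bijective: L is the graph of an isomorphism φ : G ≃* G'.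
For (a,b) ∈ L: u a = u' b (true on generators; closed under products and inverses), and if a ∈ F then b ∈ F' (as u' b = 0) and (a,b) ∈ L, while (a,b₂) ∈ E ⊆ L for b₂ with w' b₂ = w a, so b = b₂ by bijectivity: w' (φ a) = w a. If a ∉ F then φ a ∉ F' and both are 0 (w_off). (nongen is not needed.)
-/


namespace J_iso_of_TD

variable {p : ℕ} {G : Type} [Group G]

theorem crd_one {m : ℕ} {u : G → Vp p m} (h : IsCrd p m G u) : u 1 = 0 := by
  have := h.map_mul 1 1
  rw [mul_one] at this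
  exact left_eq_add.1 this

theorem crd_inv {m : ℕ} {u : G → Vp p m} (h : IsCrd p m G u) (a : G) : u a⁻¹ = - u a := by
  have := h.map_mul a⁻¹ a
  rw [inv_mul_cancel, crd_one h] at this
  exact eq_neg_of_add_eq_zero_left this.symm

theorem crd_pow {m : ℕ} {u : G → Vp p m} (h : IsCrd p m G u) (a : G) (n : ℕ) :
    u (a ^ n) = n • u a := by
  induction n with
  | zero => rw [pow_zero, zero_smul, crd_one h]
  | succ n ih => rw [pow_succ, h.map_mul, ih, succ_nsmul]

theorem w_one {m r : ℕ} {u : G → Vp p m} {w : G → Vp p r} {c : Vp p m → Vp p m → Vp p r}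
    {q : Vp p m → Vp p r} (h : HasTD p m r G u w c q) : w 1 = 0 :=
  (h.w_ker 1 (Subgroup.one_mem _)).2 (Subgroup.one_mem _)

theorem w_inv {m r : ℕ} {u : G → Vp p m} {w : G → Vp p r} {c : Vp p m → Vp p m → Vp p r}
    {q : Vp p m → Vp p r} (h : HasTD p m r G u w c q) {a : G} (ha : a ∈ FrP p G) :
    w a⁻¹ = - w a := by
  have := h.w_mul a⁻¹ (Subgroup.inv_mem _ ha) a ha
  rw [inv_mul_cancel, w_one h] at this
  exact eq_neg_of_add_eq_zero_left this.symm

theorem w_inj {m r : ℕ} {u : G → Vp p m} {w : G → Vp p r} {c : Vp p m → Vp p m → Vp p r}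
    {q : Vp p m → Vp p r} (h : HasTD p m r G u w c q) (hT : TT p G = ⊥) {a b : G}
    (ha : a ∈ FrP p G) (hb : b ∈ FrP p G) (hab : w a = w b) : a = b := by
  have h1 : w (a⁻¹ * b) = 0 := by
    rw [h.w_mul _ (Subgroup.inv_mem _ ha) _ hb, w_inv h ha, hab, neg_add_cancel]
  have h2 := (h.w_ker _ (Subgroup.mul_mem _ (Subgroup.inv_mem _ ha) hb)).1 h1
  rw [hT, Subgroup.mem_bot] at h2
  exact inv_mul_eq_one.1 h2

theorem F_comm (hT : TT p G = ⊥) {a : G} (ha : a ∈ FrP p G) (g : G) : g * a * g⁻¹ = a := by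
  have h1 : ⁅a, g⁆ ∈ TT p G := Subgroup.subset_closure (Or.inl ⟨a, ha, g, Subgroup.mem_top _, rfl⟩)
  rw [hT, Subgroup.mem_bot, commutatorElement_eq_one_iff_mul_comm] at h1
  rw [← h1, mul_inv_cancel_right]

theorem comm_mem_F (a b : G) : ⁅a, b⁆ ∈ FrP p G :=
  Subgroup.subset_closure (Or.inl ⟨a, Subgroup.mem_top _, b, Subgroup.mem_top _, rfl⟩)

theorem pow_mem_F (a : G) : a ^ p ∈ FrP p G :=
  Subgroup.subset_closure (Or.inr ⟨a, Subgroup.mem_top _, rfl⟩)

theorem card_Vp [Fact p.Prime] (m : ℕ) : Nat.card (Vp p m) = p ^ m := by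
  rw [Nat.card_fun, Nat.card_zmod, Nat.card_fin]

theorem card_G [Fact p.Prime] [Finite G] {m r : ℕ} {u : G → Vp p m} {w : G → Vp p r}
    {c : Vp p m → Vp p m → Vp p r} {q : Vp p m → Vp p r} (h : HasTD p m r G u w c q)
    (hT : TT p G = ⊥) : Nat.card G = p ^ m * p ^ r := by
  let U : G →* Multiplicative (Vp p m) :=
    { toFun := fun a => Multiplicative.ofAdd (u a)
      map_one' := by rw [crd_one h.crd]; rfl
      map_mul' := fun a b => by rw [h.crd.map_mul]; rfl }
  have hk : U.ker = FrP p G := by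
    ext a
    rw [MonoidHom.mem_ker, ← h.crd.ker]
    rfl
  have hs : Function.Surjective U := fun v => by
    obtain ⟨a, ha⟩ := h.crd.surj (Multiplicative.toAdd v)
    exact ⟨a, congrArg Multiplicative.ofAdd ha⟩
  have h1 := Subgroup.card_eq_card_quotient_mul_card_subgroup U.ker
  have h2 : Nat.card (G ⧸ U.ker) = p ^ m := by
    rw [Nat.card_congr (QuotientGroup.quotientKerEquivOfSurjective U hs).toEquiv, ← card_Vp m]
    rfl
  have h3 : Nat.card U.ker = p ^ r := by
    rw [hk, ← card_Vp r]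
    refine Nat.card_congr (Equiv.ofBijective (fun a : FrP p G => w a.1) ⟨?_, ?_⟩)
    · intro a b hab
      exact Subtype.ext (w_inj h hT a.2 b.2 hab)
    · intro x
      obtain ⟨a, ha, hx⟩ := h.w_surj x
      exact ⟨⟨a, ha⟩, hx⟩
  rw [h1, h2, h3]

theorem top_of {m : ℕ} [Fact p.Prime] {u : G → Vp p m} (h : IsCrd p m G u) (x : Fin m → G)
    (hx : ∀ i, u (x i) = Pi.single i 1) (M : Subgroup G) (h1 : ∀ i, x i ∈ M)
    (h2 : FrP p G ≤ M) : M = ⊤ := by
  classical
  rw [eq_top_iff]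
  rintro g -
  have key : ∀ S : Finset (Fin m), ∃ y ∈ M, u y = ∑ i ∈ S, Pi.single i (u g i) := by
    intro S
    induction S using Finset.induction_on with
    | empty => exact ⟨1, M.one_mem, by rw [crd_one h, Finset.sum_empty]⟩
    | insert i S hi ih =>
      obtain ⟨y, hy, hu⟩ := ih
      refine ⟨x i ^ (u g i).val * y, M.mul_mem (M.pow_mem (h1 i) _) hy, ?_⟩
      rw [h.map_mul, Finset.sum_insert hi, hu, crd_pow h, hx]
      congr 1
      funext j
      rw [Pi.smul_apply]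
      by_cases hj : j = i
      · subst hj
        rw [Pi.single_eq_same, Pi.single_eq_same, nsmul_one, ZMod.natCast_zmod_val]
      · rw [Pi.single_eq_of_ne hj, Pi.single_eq_of_ne hj, smul_zero]
  obtain ⟨y, hy, hu⟩ := key Finset.univ
  rw [Finset.univ_sum_single] at hu
  have h3 : y⁻¹ * g ∈ FrP p G := by
    rw [← h.ker, h.map_mul, crd_inv h, hu, neg_add_cancel]
  have h4 := M.mul_mem hy (h2 h3)
  rwa [mul_inv_cancel_left] at h4

/-- the central subgroup -/
def EE {m r : ℕ} {G' : Type} [Group G'] {u : G → Vp p m} {w : G → Vp p r}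
    {u' : G' → Vp p m} {w' : G' → Vp p r} {c : Vp p m → Vp p m → Vp p r} {q : Vp p m → Vp p r}
    (h : HasTD p m r G u w c q) (h' : HasTD p m r G' u' w' c q) : Subgroup (G × G') where
  carrier := {z | z.1 ∈ FrP p G ∧ z.2 ∈ FrP p G' ∧ w z.1 = w' z.2}
  one_mem' := ⟨Subgroup.one_mem _, Subgroup.one_mem _, by rw [Prod.fst_one, Prod.snd_one, w_one h, w_one h']⟩
  mul_mem' := by
    rintro a b ⟨a1, a2, a3⟩ ⟨b1, b2, b3⟩
    refine ⟨Subgroup.mul_mem _ a1 b1, Subgroup.mul_mem _ a2 b2, ?_⟩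
    rw [Prod.fst_mul, Prod.snd_mul, h.w_mul _ a1 _ b1, h'.w_mul _ a2 _ b2, a3, b3]
  inv_mem' := by
    rintro a ⟨a1, a2, a3⟩
    refine ⟨Subgroup.inv_mem _ a1, Subgroup.inv_mem _ a2, ?_⟩
    rw [Prod.fst_inv, Prod.snd_inv, w_inv h a1, w_inv h' a2, a3]

end J_iso_of_TD

/-- TARGET -/
theorem iso_of_TD {p : ℕ} [Fact p.Prime] (m r : ℕ) (G G' : Type) [Group G] [Group G']
    [Finite G] [Finite G'] (hpG : IsPGroup p G) (hpG' : IsPGroup p G')
    (hT : TT p G = ⊥) (hT' : TT p G' = ⊥)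
    (u : G → Vp p m) (w : G → Vp p r) (u' : G' → Vp p m) (w' : G' → Vp p r)
    (c : Vp p m → Vp p m → Vp p r) (q : Vp p m → Vp p r)
    (h : HasTD p m r G u w c q) (h' : HasTD p m r G' u' w' c q) :
    ∃ φ : G ≃* G', (∀ a, u' (φ a) = u a) ∧ ∀ a, w' (φ a) = w a := by
  classical
  choose x hx using fun i : Fin m => h.crd.surj (Pi.single i 1)
  choose x' hx' using fun i : Fin m => h'.crd.surj (Pi.single i 1)
  let X : Fin m → G × G' := fun i => (x i, x' i)
  let E : Subgroup (G × G') := J_iso_of_TD.EE h h'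
  have hE : ∀ z : G × G', z ∈ E ↔ z.1 ∈ FrP p G ∧ z.2 ∈ FrP p G' ∧ w z.1 = w' z.2 := fun z => Iff.rfl
  have hcE : Nat.card E ≤ p ^ r := by
    rw [← J_iso_of_TD.card_Vp (p := p) r]
    refine Nat.card_le_card_of_injective (fun z : E => w z.1.1) ?_
    rintro ⟨a, a1, a2, a3⟩ ⟨b, b1, b2, b3⟩ hab
    have e1 : w a.1 = w b.1 := hab
    have e2 : w' a.2 = w' b.2 := by rw [← a3, ← b3, e1]
    exact Subtype.ext (Prod.ext (J_iso_of_TD.w_inj h hT a1 b1 e1) (J_iso_of_TD.w_inj h' hT' a2 b2 e2))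
  let L : Subgroup (G × G') := Subgroup.closure (X '' ((Finset.univ : Finset (Fin m)) : Set (Fin m))) ⊔ E
  have hcL : Nat.card L ≤ p ^ m * p ^ r := by
    have h1 := card_closure_sup_le (Fact.out : p.Prime).pos E X (Finset.univ : Finset (Fin m))
      (fun i _ z hz => by
        have e1 : X i * z * (X i)⁻¹ = z := Prod.ext (J_iso_of_TD.F_comm hT hz.1 _)
          (J_iso_of_TD.F_comm hT' hz.2.1 _)
        rw [e1]; exact hz)
      (fun i _ => ⟨J_iso_of_TD.pow_mem_F (x i), J_iso_of_TD.pow_mem_F (x' i), by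
        show w (x i ^ p) = w' (x' i ^ p)
        rw [← h.hq, ← h'.hq, hx, hx']⟩)
      (fun i _ j _ => ⟨J_iso_of_TD.comm_mem_F (x i) (x j), J_iso_of_TD.comm_mem_F (x' i) (x' j), by
        show w ⁅x i, x j⁆ = w' ⁅x' i, x' j⁆
        rw [← h.hc, ← h'.hc, hx, hx', hx, hx']⟩)
    rw [Finset.card_univ, Fintype.card_fin] at h1
    exact h1.trans (Nat.mul_le_mul_left _ hcE)
  have hXL : ∀ i, X i ∈ L := fun i =>
    Subgroup.mem_sup_left (Subgroup.subset_closure ⟨i, Finset.mem_coe.2 (Finset.mem_univ _), rfl⟩)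
  have hEL : E ≤ L := le_sup_right
  have t1 : L.map (MonoidHom.fst G G') = ⊤ := by
    refine J_iso_of_TD.top_of h.crd x hx _ (fun i => ⟨X i, hXL i, rfl⟩) ?_
    intro a ha
    obtain ⟨b, hb, hw⟩ := h'.w_surj (w a)
    exact ⟨(a, b), hEL ⟨ha, hb, hw.symm⟩, rfl⟩
  have t2 : L.map (MonoidHom.snd G G') = ⊤ := by
    refine J_iso_of_TD.top_of h'.crd x' hx' _ (fun i => ⟨X i, hXL i, rfl⟩) ?_
    intro b hb
    obtain ⟨a, ha, hw⟩ := h.w_surj (w' b)
    exact ⟨(a, b), hEL ⟨ha, hb, hw⟩, rfl⟩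
  let f1 : L →* G := (MonoidHom.fst G G').comp L.subtype
  let f2 : L →* G' := (MonoidHom.snd G G').comp L.subtype
  have s1 : Function.Surjective f1 := by
    intro a
    have : a ∈ L.map (MonoidHom.fst G G') := by rw [t1]; trivial
    obtain ⟨z, hz, rfl⟩ := this
    exact ⟨⟨z, hz⟩, rfl⟩
  have s2 : Function.Surjective f2 := by
    intro a
    have : a ∈ L.map (MonoidHom.snd G G') := by rw [t2]; trivial
    obtain ⟨z, hz, rfl⟩ := this
    exact ⟨⟨z, hz⟩, rfl⟩
  have b1 : Function.Bijective f1 := s1.bijective_of_nat_card_le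
    (by rw [J_iso_of_TD.card_G h hT]; exact hcL)
  have b2 : Function.Bijective f2 := s2.bijective_of_nat_card_le
    (by rw [J_iso_of_TD.card_G h' hT']; exact hcL)
  let e1 : L ≃* G := MulEquiv.ofBijective f1 b1
  let e2 : L ≃* G' := MulEquiv.ofBijective f2 b2
  -- compatibility of the coordinates on `L`
  let Q : Subgroup (G × G') :=
    { carrier := {z | u z.1 = u' z.2}
      one_mem' := by
        show u 1 = u' 1
        rw [J_iso_of_TD.crd_one h.crd, J_iso_of_TD.crd_one h'.crd]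
      mul_mem' := by
        intro a b ha hb
        show u (a.1 * b.1) = u' (a.2 * b.2)
        rw [h.crd.map_mul, h'.crd.map_mul, show u a.1 = u' a.2 from ha, show u b.1 = u' b.2 from hb]
      inv_mem' := by
        intro a ha
        show u (a.1)⁻¹ = u' (a.2)⁻¹
        rw [J_iso_of_TD.crd_inv h.crd, J_iso_of_TD.crd_inv h'.crd, show u a.1 = u' a.2 from ha] }
  have hLQ : L ≤ Q := by
    refine sup_le ?_ ?_
    · rw [Subgroup.closure_le]
      rintro _ ⟨i, _, rfl⟩
      show u (x i) = u' (x' i)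
      rw [hx, hx']
    · intro z hz
      show u z.1 = u' z.2
      rw [(h.crd.ker _).2 hz.1, (h'.crd.ker _).2 hz.2.1]
  have key : ∀ z : L, u (e1 z) = u' (e2 z) := fun z => hLQ z.2
  have hu : ∀ a, u' ((e1.symm.trans e2) a) = u a := by
    intro a
    rw [MulEquiv.trans_apply, ← key, MulEquiv.apply_symm_apply]
  refine ⟨e1.symm.trans e2, hu, ?_⟩
  intro a
  by_cases ha : a ∈ FrP p G
  · obtain ⟨b, hb, hw⟩ := h'.w_surj (w a)
    have hz : ((a, b) : G × G') ∈ L := hEL ⟨ha, hb, hw.symm⟩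
    have e3 : e1.symm a = ⟨(a, b), hz⟩ := by
      rw [MulEquiv.symm_apply_eq]
      rfl
    rw [MulEquiv.trans_apply, e3]
    exact hw
  · rw [h.w_off a ha, h'.w_off]
    intro hb
    apply ha
    rw [← h.crd.ker, ← hu a, h'.crd.ker]
    exact hb

end Pool.Agent.Helper252_Enum
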