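import Pool.Agent.Helper252_Enum.R07_iso_of_TD

set_option autoImplicit false

open scoped commutatorElement

namespace Pool.Agent.Helper252_Enum

/-
PROOF OF THE TARGET.
Let Ḡ = G ⧸ TT p G, π the quotient map, F = FrP p G, T = TT p G = PC p F ⊤ <= F. Then FrP p Ḡ = F.map π (PC commutes with surjective homomorphisms) and TT p Ḡ = T.map π = ⊥. Define ū (π a) = u a (well defined as T <= F = ker u), w̄ (π a) = w a (for a ∈ F: w is additive on F and w = 0 on T; for a ∉ F both 0; π a ∈ F.map π iff a ∈ F as T <= F).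
Then HasTD p m r Ḡ ū w̄ c q: all fields follow (w_ker: w̄ x = 0 iff x ∈ TT p Ḡ = ⊥). Ḡ is finite, a p-group. Apply iso_of_TD to Ḡ and Ḡ'.
-/

namespace J_quot_iso_of_TD

lemma TT_le (p : ℕ) (G : Type*) [Group G] : TT p G ≤ FrP p G := by
  unfold TT FrP PC
  rw [Subgroup.closure_le]
  rintro x (⟨a, _, b, _, rfl⟩ | ⟨a, _, rfl⟩)
  · exact Subgroup.subset_closure (Or.inl ⟨a, Subgroup.mem_top _, b, Subgroup.mem_top _, rfl⟩)
  · exact Subgroup.subset_closure (Or.inr ⟨a, Subgroup.mem_top _, rfl⟩)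

lemma map_PC {G H : Type*} [Group G] [Group H] (f : G →* H) (p : ℕ) (A B : Subgroup G) :
    (PC p A B).map f = PC p (A.map f) (B.map f) := by
  unfold PC
  rw [MonoidHom.map_closure]
  congr 1
  ext y
  constructor
  · rintro ⟨x, ⟨a, ha, b, hb, rfl⟩ | ⟨a, ha, rfl⟩, rfl⟩
    · refine Or.inl ⟨f a, Subgroup.mem_map_of_mem f ha, f b, Subgroup.mem_map_of_mem f hb, ?_⟩
      rw [map_commutatorElement]
    · refine Or.inr ⟨f a, Subgroup.mem_map_of_mem f ha, ?_⟩
      rw [map_pow]
  · rintro (⟨_, ⟨a, ha, rfl⟩, _, ⟨b, hb, rfl⟩, rfl⟩ | ⟨_, ⟨a, ha, rfl⟩, rfl⟩)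
    · exact ⟨⁅a, b⁆, Or.inl ⟨a, ha, b, hb, rfl⟩, by rw [map_commutatorElement]⟩
    · exact ⟨a ^ p, Or.inr ⟨a, ha, rfl⟩, by rw [map_pow]⟩

lemma FrP_quot (p : ℕ) (G : Type*) [Group G] [(TT p G).Normal] :
    FrP p (G ⧸ TT p G) = (FrP p G).map (QuotientGroup.mk' (TT p G)) := by
  unfold FrP
  rw [map_PC, Subgroup.map_top_of_surjective _ (QuotientGroup.mk'_surjective _)]

lemma TT_quot (p : ℕ) (G : Type*) [Group G] [(TT p G).Normal] :
    TT p (G ⧸ TT p G) = ⊥ := by
  have h1 : TT p (G ⧸ TT p G) = (TT p G).map (QuotientGroup.mk' (TT p G)) := by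
    have h0 := map_PC (QuotientGroup.mk' (TT p G)) p (FrP p G) ⊤
    rw [Subgroup.map_top_of_surjective _ (QuotientGroup.mk'_surjective _), ← FrP_quot] at h0
    exact h0.symm
  rw [h1, QuotientGroup.map_mk'_self]

lemma mem_FrP_quot (p : ℕ) (G : Type*) [Group G] [(TT p G).Normal] (a : G) :
    ((a : G ⧸ TT p G) ∈ FrP p (G ⧸ TT p G)) ↔ a ∈ FrP p G := by
  rw [FrP_quot]
  constructor
  · rintro ⟨b, hb, hab⟩
    have h1 : b⁻¹ * a ∈ TT p G := QuotientGroup.eq.1 hab
    have h2 := (FrP p G).mul_mem hb (TT_le p G h1)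
    rwa [mul_inv_cancel_left] at h2
  · intro ha
    exact ⟨a, ha, rfl⟩

lemma hasTD_quot {p : ℕ} (m r : ℕ) (G : Type) [Group G] [(TT p G).Normal]
    (u : G → Vp p m) (w : G → Vp p r) (c : Vp p m → Vp p m → Vp p r) (q : Vp p m → Vp p r)
    (h : HasTD p m r G u w c q) :
    HasTD p m r (G ⧸ TT p G) (fun x => u x.out) (fun x => w x.out) c q := by
  have hu : ∀ a : G, u ((a : G ⧸ TT p G).out) = u a := by
    intro a
    obtain ⟨t, ht⟩ := QuotientGroup.mk_out_eq_mul (TT p G) a
    rw [ht, h.crd.map_mul, (h.crd.ker _).2 (TT_le p G t.2), add_zero]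
  have hw : ∀ a : G, w ((a : G ⧸ TT p G).out) = w a := by
    intro a
    obtain ⟨t, ht⟩ := QuotientGroup.mk_out_eq_mul (TT p G) a
    rw [ht]
    by_cases ha : a ∈ FrP p G
    · rw [h.w_mul a ha _ (TT_le p G t.2), (h.w_ker _ (TT_le p G t.2)).2 t.2, add_zero]
    · rw [h.w_off a ha, h.w_off]
      intro h2
      have h3 := (FrP p G).mul_mem h2 ((FrP p G).inv_mem (TT_le p G t.2))
      rw [mul_inv_cancel_right] at h3
      exact ha h3
  refine ⟨⟨?_, ?_, ?_⟩, ?_, ?_, ?_, ?_, ?_, ?_⟩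
  · intro x y
    induction x using QuotientGroup.induction_on with
    | H a =>
    induction y using QuotientGroup.induction_on with
    | H b =>
    rw [← QuotientGroup.mk_mul]
    simp only [hu]
    exact h.crd.map_mul a b
  · intro v
    obtain ⟨a, ha⟩ := h.crd.surj v
    exact ⟨(a : G ⧸ TT p G), by simp only [hu]; exact ha⟩
  · intro x
    induction x using QuotientGroup.induction_on with
    | H a =>
    simp only [hu]
    rw [mem_FrP_quot]
    exact h.crd.ker a
  · intro x hx y hy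
    induction x using QuotientGroup.induction_on with
    | H a =>
    induction y using QuotientGroup.induction_on with
    | H b =>
    rw [mem_FrP_quot] at hx hy
    rw [← QuotientGroup.mk_mul]
    simp only [hw]
    exact h.w_mul a hx b hy
  · intro x hx
    induction x using QuotientGroup.induction_on with
    | H a =>
    rw [mem_FrP_quot] at hx
    simp only [hw]
    exact h.w_off a hx
  · intro v
    obtain ⟨a, ha, hv⟩ := h.w_surj v
    exact ⟨(a : G ⧸ TT p G), (mem_FrP_quot p G a).2 ha, by simp only [hw]; exact hv⟩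
  · intro x hx
    induction x using QuotientGroup.induction_on with
    | H a =>
    rw [mem_FrP_quot] at hx
    rw [TT_quot, Subgroup.mem_bot]
    simp only [hw]
    rw [h.w_ker a hx]
    exact (QuotientGroup.eq_one_iff a).symm
  · intro x y
    induction x using QuotientGroup.induction_on with
    | H a =>
    induction y using QuotientGroup.induction_on with
    | H b =>
    have e1 : ⁅(a : G ⧸ TT p G), (b : G ⧸ TT p G)⁆ = ((⁅a, b⁆ : G) : G ⧸ TT p G) := rfl
    rw [e1]
    simp only [hw, hu]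
    exact h.hc a b
  · intro x
    induction x using QuotientGroup.induction_on with
    | H a =>
    rw [← QuotientGroup.mk_pow]
    simp only [hw, hu]
    exact h.hq a

end J_quot_iso_of_TD

/-- TARGET -/
theorem quot_iso_of_TD {p : ℕ} [Fact p.Prime] (m r : ℕ) (G G' : Type) [Group G] [Group G']
    [Finite G] [Finite G'] (hpG : IsPGroup p G) (hpG' : IsPGroup p G')
    [(TT p G).Normal] [(TT p G').Normal]
    (u : G → Vp p m) (w : G → Vp p r) (u' : G' → Vp p m) (w' : G' → Vp p r)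
    (c : Vp p m → Vp p m → Vp p r) (q : Vp p m → Vp p r)
    (h : HasTD p m r G u w c q) (h' : HasTD p m r G' u' w' c q) :
    Nonempty (G ⧸ TT p G ≃* G' ⧸ TT p G') := by
  obtain ⟨φ, _, _⟩ := iso_of_TD m r (G ⧸ TT p G) (G' ⧸ TT p G') (hpG.to_quotient _) (hpG'.to_quotient _)
    (J_quot_iso_of_TD.TT_quot p G) (J_quot_iso_of_TD.TT_quot p G')
    (fun x => u x.out) (fun x => w x.out) (fun x => u' x.out) (fun x => w' x.out) c q
    (J_quot_iso_of_TD.hasTD_quot m r G u w c q h) (J_quot_iso_of_TD.hasTD_quot m r G' u' w' c q h')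
  exact ⟨φ⟩

end Pool.Agent.Helper252_Enum


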