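import Pool.Agent.Helper252_Enum.Defs2

set_option autoImplicit false

open scoped commutatorElement

namespace Pool.Agent.Helper252_Enum

/-
PROOF OF THE TARGET.
An additive automorphism of Fin r → ZMod p is ZMod p-linear, so the number is the order of the general linear group: Matrix.card_GL_field : Nat.card (GL (Fin n) 𝔽) = ∏ i : Fin n, (Fintype.card 𝔽 ^ n - Fintype.card 𝔽 ^ (i : ℕ)) (or Nat.card). gl p r = SS p r r = ∏ i ∈ range r, (p^r - p^i) (Finset.prod_range).
GL (Fin r) (ZMod p) = (Matrix ..)ˣ ≃ (Vp p r ≃ₗ[ZMod p] Vp p r) (LinearMap.toMatrix, Matrix.GeneralLinearGroup.toLin, LinearMap.GeneralLinearGroup.generalLinearEquiv) ≃ (Vp p r ≃+ Vp p r) (AddEquiv linear over ZMod p: AddMonoidHom.toZModLinearMap).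
-/

namespace J_card_addAut

noncomputable def linE (p r : ℕ) : (Vp p r ≃+ Vp p r) ≃ (Vp p r ≃ₗ[ZMod p] Vp p r) where
  toFun e :=
    { (AddMonoidHom.toZModLinearMap p (e : Vp p r →+ Vp p r)) with
      invFun := e.symm
      left_inv := e.left_inv
      right_inv := e.right_inv }
  invFun e := e.toAddEquiv
  left_inv e := by
    ext x
    rfl
  right_inv e := by
    ext x
    rfl

end J_card_addAut

/-- TARGET -/
theorem card_addAut (p r : ℕ) [Fact p.Prime] : Nat.card (Vp p r ≃+ Vp p r) = gl p r := by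
  rw [Nat.card_congr (J_card_addAut.linE p r),
    ← Nat.card_congr (LinearMap.GeneralLinearGroup.generalLinearEquiv (ZMod p) (Vp p r)).toEquiv,
    ← Nat.card_congr (Matrix.GeneralLinearGroup.toLin (n := Fin r) (R := ZMod p)).toEquiv,
    Matrix.card_GL_field, ZMod.card, gl, SS, Finset.prod_range]

end Pool.Agent.Helper252_Enum
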