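import Pool.Agent.Helper252_Enum.R05_exists_TD
import Pool.Agent.Helper252_Enum.R09_card_addAut

set_option autoImplicit false

open scoped commutatorElement

namespace Pool.Agent.Helper252_Enum

namespace J_card_w

theorem inj {p m r : ℕ} {G : Type} [Group G] {u : G → Vp p m} {w : G → Vp p r}
    {c : Vp p m → Vp p m → Vp p r} {q : Vp p m → Vp p r} (h : HasTD p m r G u w c q)
    (hT : TT p G = ⊥) {a b : G} (ha : a ∈ FrP p G) (hb : b ∈ FrP p G) (hab : w a = w b) :
    a = b := by
  have h1 : a * b⁻¹ ∈ FrP p G := Subgroup.mul_mem _ ha (Subgroup.inv_mem _ hb)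
  have h2 := h.w_mul _ h1 b hb
  rw [inv_mul_cancel_right, hab] at h2
  have h3 : w (a * b⁻¹) = 0 := by
    have := h2.symm
    rwa [add_eq_right] at this
  have h4 := (h.w_ker _ h1).mp h3
  rw [hT, Subgroup.mem_bot, mul_inv_eq_one] at h4
  exact h4

theorem comp {p m r : ℕ} {G : Type} [Group G] {u : G → Vp p m} {w : G → Vp p r}
    {c : Vp p m → Vp p m → Vp p r} {q : Vp p m → Vp p r} (h : HasTD p m r G u w c q)
    (e : Vp p r ≃+ Vp p r) :
    HasTD p m r G u (fun a => e (w a)) (fun v v' => e (c v v')) (fun v => e (q v)) where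
  crd := h.crd
  w_mul := by
    intro a ha b hb
    rw [h.w_mul a ha b hb, map_add]
  w_off := by
    intro a ha
    rw [h.w_off a ha, map_zero]
  w_surj := by
    intro x
    obtain ⟨a, ha, hx⟩ := h.w_surj (e.symm x)
    exact ⟨a, ha, by rw [hx, AddEquiv.apply_symm_apply]⟩
  w_ker := by
    intro a ha
    rw [← h.w_ker a ha]
    exact map_eq_zero_iff e e.injective
  hc := by
    intro a b
    rw [h.hc]
  hq := by
    intro a
    rw [h.hq]

/-- A section of the coordinate map. -/
theorem sec {p m r : ℕ} {G : Type} [Group G] {u : G → Vp p m} {w : G → Vp p r}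
    {c : Vp p m → Vp p m → Vp p r} {q : Vp p m → Vp p r} (h : HasTD p m r G u w c q)
    (hT : TT p G = ⊥) : ∃ s : Vp p r → G, (∀ x, s x ∈ FrP p G) ∧ (∀ x, w (s x) = x) ∧
      (∀ a ∈ FrP p G, s (w a) = a) ∧ ∀ x y, s (x + y) = s x * s y := by
  choose s hs1 hs2 using h.w_surj
  refine ⟨s, hs1, hs2, ?_, ?_⟩
  · intro a ha
    exact inj h hT (hs1 _) ha (hs2 _)
  · intro x y
    refine inj h hT (hs1 _) (Subgroup.mul_mem _ (hs1 x) (hs1 y)) ?_
    rw [hs2, h.w_mul _ (hs1 x) _ (hs1 y), hs2, hs2]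

end J_card_w

/-- TARGET -/
theorem card_w {p : ℕ} [Fact p.Prime] (m r : ℕ) (G : Type) [Group G] [Finite G]
    (u : G → Vp p m) (hu : IsCrd p m G u) (hr : Nat.card (FrP p G) = p ^ r) (hT : TT p G = ⊥) :
    Nat.card {w : G → Vp p r // ∃ c q, HasTD p m r G u w c q} = gl p r := by
  have hs : Nat.card (TT p G) = p ^ 0 := by
    rw [hT, pow_zero]
    exact Subgroup.card_bot
  obtain ⟨-, w0, c0, q0, hTD, -, -⟩ := exists_TD m r 0 G u hu hr hs
  have h0 : HasTD p m r G u w0 c0 q0 := hTD
  rw [← card_addAut p r]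
  symm
  let f : (Vp p r ≃+ Vp p r) → {w : G → Vp p r // ∃ c q, HasTD p m r G u w c q} :=
    fun e => ⟨fun a => e (w0 a), _, _, J_card_w.comp h0 e⟩
  refine Nat.card_congr (Equiv.ofBijective f ⟨?_, ?_⟩)
  · intro e e' hee
    ext1 x
    obtain ⟨a, -, hx⟩ := h0.w_surj x
    have := congrFun (congrArg Subtype.val hee) a
    have h1 : e (w0 a) = e' (w0 a) := this
    have hx' : w0 a = x := hx
    rwa [hx'] at h1
  · rintro ⟨w, c, q, hw⟩
    obtain ⟨s0, a1, a2, a3, a4⟩ := J_card_w.sec h0 hT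
    obtain ⟨s, b1, b2, b3, b4⟩ := J_card_w.sec hw hT
    let e : Vp p r ≃+ Vp p r :=
      { toFun := fun x => w (s0 x)
        invFun := fun x => w0 (s x)
        left_inv := by
          intro x
          show w0 (s (w (s0 x))) = x
          rw [b3 _ (a1 x), a2]
        right_inv := by
          intro x
          show w (s0 (w0 (s x))) = x
          rw [a3 _ (b1 x), b2]
        map_add' := by
          intro x y
          show w (s0 (x + y)) = w (s0 x) + w (s0 y)
          rw [a4, hw.w_mul _ (a1 x) _ (a1 y)] }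
    refine ⟨e, ?_⟩
    apply Subtype.ext
    funext a
    show e (w0 a) = w a
    by_cases ha : a ∈ FrP p G
    · show w (s0 (w0 a)) = w a
      rw [a3 a ha]
    · rw [h0.w_off a ha, hw.w_off a ha, map_zero]

end Pool.Agent.Helper252_Enum
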