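import Pool.Agent.Helper252_Enum.R04_isTD_of_hasTD
import Pool.Agent.Helper252_Enum.R07_iso_of_TD
import Pool.Agent.Helper252_Enum.Q11_card_crd
import Pool.Agent.Helper252_Enum.R10_card_w

set_option autoImplicit false

open scoped commutatorElement

namespace Pool.Agent.Helper252_Enum

/-
PROOF OF THE TARGET.
Let Q be the Quot, for x ∈ Q let a(x) = Quot.out. Let S = Σ x : Q, Σ u : {u // IsCrd p m (𝒢 (a x)) u}, {w : 𝒢 (a x) → Vp p r // ∃ c q, HasTD p m r _ u w c q}; |S| = |Q| gl p m gl p r (card_crd, card_w, each 𝒢 a is finite of order p^(m+r), a p-group; Q is finite, e.g. by injection into isomorphism classes or the map below).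
For a triple in S the pair (c,q) with HasTD is unique (u is surjective, hc and hq determine c and q): this gives Φ : S → X. If Φ(x,u,w) = Φ(x1,u1,w1) = (c,q) then iso_of_TD gives φ : 𝒢 (a x) ≃* 𝒢 (a x1) with u1 (φ y) = u y, so x = x1 (Quot.sound and Quot.out_eq) and SameCrd u u1. By hA there are at most A possibilities for u1 and w1 is determined by u1, c, q:
w1 ⁅y,z⁆ = c (u1 y) (u1 z), w1 (y^p) = q (u1 y), w1 additive on FrP which is generated by these elements, w1 = 0 off FrP. So each fibre of Φ has at most A elements and |S| <= A |X| (X is finite, a set in a finite type).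
Finiteness of Q: with gl > 0 each x has a triple and Φ of chosen triples is injective on Q.
-/

namespace J_td_count

theorem w_unique {p m r : ℕ} {G : Type} [Group G] {u : G → Vp p m} {w w' : G → Vp p r}
    {c : Vp p m → Vp p m → Vp p r} {q : Vp p m → Vp p r}
    (h : HasTD p m r G u w c q) (h' : HasTD p m r G u w' c q) : w = w' := by
  funext x
  by_cases hx : x ∈ FrP p G
  · have h1 : w 1 = 0 := by
      have := h.w_mul 1 (Subgroup.one_mem _) 1 (Subgroup.one_mem _)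
      rw [mul_one] at this
      exact left_eq_add.1 this
    have h1' : w' 1 = 0 := by
      have := h'.w_mul 1 (Subgroup.one_mem _) 1 (Subgroup.one_mem _)
      rw [mul_one] at this
      exact left_eq_add.1 this
    refine Subgroup.closure_induction (p := fun y _ => w y = w' y) ?_ ?_ ?_ ?_ hx
    · rintro y (⟨a, _, b, _, rfl⟩ | ⟨a, _, rfl⟩)
      · rw [← h.hc, ← h'.hc]
      · rw [← h.hq, ← h'.hq]
    · rw [h1, h1']
    · intro y z hy hz hwy hwz
      rw [h.w_mul y hy z hz, h'.w_mul y hy z hz, hwy, hwz]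
    · intro y hy hwy
      have h2 := h.w_mul y hy y⁻¹ (Subgroup.inv_mem _ hy)
      have h3 := h'.w_mul y hy y⁻¹ (Subgroup.inv_mem _ hy)
      rw [mul_inv_cancel, h1] at h2
      rw [mul_inv_cancel, h1'] at h3
      rw [eq_neg_of_add_eq_zero_right h2.symm, eq_neg_of_add_eq_zero_right h3.symm, hwy]
  · rw [h.w_off x hx, h'.w_off x hx]

theorem card_le_mul {S X : Type} [Finite S] [Finite X] (f : S → X) (A : ℕ)
    (h : ∀ x, Nat.card {s // f s = x} ≤ A) : Nat.card S ≤ A * Nat.card X := by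
  classical
  have := Fintype.ofFinite S
  have := Fintype.ofFinite X
  rw [Nat.card_eq_fintype_card, Nat.card_eq_fintype_card, ← Finset.card_univ, ← Finset.card_univ]
  refine Finset.card_le_mul_card_image_of_maps_to (f := f) (fun _ _ => Finset.mem_univ _) A ?_
  intro x _
  have h1 := h x
  rw [Nat.card_eq_fintype_card, Fintype.card_subtype] at h1
  exact h1

theorem gl_pos {p : ℕ} [Fact p.Prime] (m : ℕ) : 0 < gl p m := by
  unfold gl SS
  refine Finset.prod_pos fun i hi => ?_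
  have : p ^ i < p ^ m :=
    Nat.pow_lt_pow_right (Fact.out : p.Prime).one_lt (Finset.mem_range.1 hi)
  omega

end J_td_count

/-- TARGET -/
theorem td_count {p : ℕ} [Fact p.Prime] (m r A : ℕ) (α : Type) (𝒢 : α → Type)
    [∀ a, Group (𝒢 a)] (hcard : ∀ a, Nat.card (𝒢 a) = p ^ (m + r))
    (hF : ∀ a, Nat.card (FrP p (𝒢 a)) = p ^ r) (hT : ∀ a, TT p (𝒢 a) = ⊥)
    (hA : ∀ a, SmallIm p m A (𝒢 a))
    (X : Set ((Vp p m → Vp p m → Vp p r) × (Vp p m → Vp p r)))
    (hX : ∀ a u w c q, HasTD p m r (𝒢 a) u w c q → (c, q) ∈ X) :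
    Nat.card (Quot fun a b => Nonempty (𝒢 a ≃* 𝒢 b)) * (gl p m * gl p r) ≤ A * Nat.card X := by
  classical
  have hfin : ∀ a, Finite (𝒢 a) := fun a => Nat.finite_of_card_ne_zero (by
    rw [hcard a]; exact pow_ne_zero _ (Fact.out : p.Prime).ne_zero)
  have hpG : ∀ a, IsPGroup p (𝒢 a) := fun a => IsPGroup.of_card (hcard a)
  rcases finite_or_infinite (Quot fun a b => Nonempty (𝒢 a ≃* 𝒢 b)) with hQ | hQ
  swap
  · rw [Nat.card_eq_zero_of_infinite, zero_mul]
    exact Nat.zero_le _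
  let Q : Type := Quot fun a b => Nonempty (𝒢 a ≃* 𝒢 b)
  let rep : Q → α := fun x => x.out
  let U : Q → Type := fun x => {u : 𝒢 (rep x) → Vp p m // IsCrd p m (𝒢 (rep x)) u}
  let W : (x : Q) → U x → Type := fun x u =>
    {w : 𝒢 (rep x) → Vp p r // ∃ c q, HasTD p m r (𝒢 (rep x)) u.1 w c q}
  have hU : ∀ x, Nonempty (U x ≃ Fin (gl p m)) := by
    intro x
    have h1 : Nat.card (U x) = gl p m := card_crd m r (𝒢 (rep x)) (hcard _) (hF _)
    have : Finite (U x) := Nat.finite_of_card_ne_zero (by rw [h1]; exact (J_td_count.gl_pos m).ne')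
    exact ⟨Finite.equivFinOfCardEq h1⟩
  have hW : ∀ x u, Nonempty (W x u ≃ Fin (gl p r)) := by
    intro x u
    have h1 : Nat.card (W x u) = gl p r := card_w m r (𝒢 (rep x)) u.1 u.2 (hF _) (hT _)
    have : Finite (W x u) := Nat.finite_of_card_ne_zero (by rw [h1]; exact (J_td_count.gl_pos r).ne')
    exact ⟨Finite.equivFinOfCardEq h1⟩
  have eU : ∀ x, U x ≃ Fin (gl p m) := fun x => Classical.choice (hU x)
  have eW : ∀ x u, W x u ≃ Fin (gl p r) := fun x u => Classical.choice (hW x u)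
  let S : Type := Σ x : Q, Σ u : U x, W x u
  let eS : S ≃ Q × (Fin (gl p m) × Fin (gl p r)) :=
    (Equiv.sigmaCongrRight fun x => (Equiv.sigmaCongrRight fun u => eW x u).trans
      ((Equiv.sigmaEquivProd _ _).trans ((eU x).prodCongr (Equiv.refl _)))).trans
      (Equiv.sigmaEquivProd _ _)
  have hcardS : Nat.card S = Nat.card Q * (gl p m * gl p r) := by
    rw [Nat.card_congr eS, Nat.card_prod, Nat.card_prod, Nat.card_fin, Nat.card_fin]
  have hQ' : Finite Q := hQ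
  have hSfin : Finite S := Finite.of_equiv _ eS.symm
  change Nat.card Q * (gl p m * gl p r) ≤ A * Nat.card X
  rw [← hcardS]
  -- the map
  have hex : ∀ s : S, ∃ z : X, HasTD p m r (𝒢 (rep s.1)) s.2.1.1 s.2.2.1 z.1.1 z.1.2 := by
    rintro ⟨x, u, w, c, q, h⟩
    exact ⟨⟨(c, q), hX _ _ _ _ _ h⟩, h⟩
  choose Φ hΦ using hex
  refine J_td_count.card_le_mul Φ A ?_
  intro z
  by_cases hne : Nonempty {s // Φ s = z}
  swap
  · rw [not_nonempty_iff] at hne
    rw [Nat.card_of_isEmpty]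
    exact Nat.zero_le _
  obtain ⟨⟨⟨x₀, u₀, w₀⟩, hs₀⟩⟩ := hne
  have hTD₀ : HasTD p m r (𝒢 (rep x₀)) u₀.1 w₀.1 z.1.1 z.1.2 := by
    have := hΦ ⟨x₀, u₀, w₀⟩
    rw [hs₀] at this
    exact this
  let U' : Type := {u' : 𝒢 (rep x₀) → Vp p m // IsCrd p m (𝒢 (rep x₀)) u' ∧ SameCrd u₀.1 u'}
  have hU' : Nat.card U' ≤ A := hA (rep x₀) u₀.1 u₀.2
  let g : U' → S := fun u' =>
    if h : ∃ w : 𝒢 (rep x₀) → Vp p r, HasTD p m r (𝒢 (rep x₀)) u'.1 w z.1.1 z.1.2 then
      ⟨x₀, ⟨u'.1, u'.2.1⟩, ⟨h.choose, _, _, h.choose_spec⟩⟩ else ⟨x₀, u₀, w₀⟩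
  have hsub : {s | Φ s = z} ⊆ Set.range g := by
    rintro ⟨x, u, w⟩ hs
    have hTD : HasTD p m r (𝒢 (rep x)) u.1 w.1 z.1.1 z.1.2 := by
      have := hΦ ⟨x, u, w⟩
      rw [show Φ ⟨x, u, w⟩ = z from hs] at this
      exact this
    obtain ⟨φ, hφ1, hφ2⟩ := iso_of_TD m r (𝒢 (rep x₀)) (𝒢 (rep x)) (hpG _) (hpG _) (hT _) (hT _)
      u₀.1 w₀.1 u.1 w.1 z.1.1 z.1.2 hTD₀ hTD
    have hx : x₀ = x := by
      have h1 : (Quot.mk _ (rep x₀) : Q) = Quot.mk _ (rep x) := Quot.sound ⟨φ⟩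
      rwa [Quot.out_eq, Quot.out_eq] at h1
    subst hx
    refine ⟨⟨u.1, u.2, φ, hφ1⟩, ?_⟩
    have hex' : ∃ w' : 𝒢 (rep x₀) → Vp p r, HasTD p m r (𝒢 (rep x₀)) u.1 w' z.1.1 z.1.2 :=
      ⟨w.1, hTD⟩
    simp only [g]
    rw [dif_pos hex']
    have hw : hex'.choose = w.1 := J_td_count.w_unique hex'.choose_spec hTD
    have hw' : (⟨hex'.choose, _, _, hex'.choose_spec⟩ : W x₀ u) = w := Subtype.ext hw
    exact congrArg (fun w' : W x₀ u => (⟨x₀, u, w'⟩ : S)) hw'
  have hfU' : Finite U' := by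
    have : Finite (𝒢 (rep x₀) → Vp p m) := inferInstance
    infer_instance
  calc Nat.card {s // Φ s = z} = Set.ncard {s | Φ s = z} := rfl
    _ ≤ Set.ncard (Set.range g) := Set.ncard_le_ncard hsub (Set.toFinite _)
    _ = Nat.card (Set.range g) := rfl
    _ ≤ Nat.card U' := Finite.card_range_le g
    _ ≤ A := hU'

end Pool.Agent.Helper252_Enum
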