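import Pool.Agent.Helper252_Enum.R11_td_count
import Pool.Agent.Helper252_Enum.R04_isTD_of_hasTD
import Pool.Agent.Helper252_Enum.Q18_card_TD_spans

set_option autoImplicit false

open scoped commutatorElement

namespace Pool.Agent.Helper252_Enum

/-
PROOF OF THE TARGET.
td_count with A = 1 and X = {cq | IsTD p m r cq.1 cq.2 ∧ Spans cq.1 cq.2}; isTD_of_hasTD gives hX (each 𝒢 a is finite since its Nat.card is positive), card_TD_spans gives |X|.
-/

/-- TARGET -/
theorem main_class {p : ℕ} [Fact p.Prime] (m r : ℕ) (α : Type) (𝒢 : α → Type)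
    [∀ a, Group (𝒢 a)] (hcard : ∀ a, Nat.card (𝒢 a) = p ^ (m + r))
    (hF : ∀ a, Nat.card (FrP p (𝒢 a)) = p ^ r) (hT : ∀ a, TT p (𝒢 a) = ⊥)
    (hA : ∀ a, SmallIm p m 1 (𝒢 a)) :
    Nat.card (Quot fun a b => Nonempty (𝒢 a ≃* 𝒢 b)) * (gl p m * gl p r) ≤
      SS p (m * (m + 1) / 2) r := by
  have hX : ∀ a u w c q, HasTD p m r (𝒢 a) u w c q →
      (c, q) ∈ {cq : (Vp p m → Vp p m → Vp p r) × (Vp p m → Vp p r) |
        IsTD p m r cq.1 cq.2 ∧ Spans cq.1 cq.2} := by
    intro a u w c q h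
    have hp : 0 < p := (Fact.out : p.Prime).pos
    haveI : Finite (𝒢 a) := Nat.finite_of_card_ne_zero (by
      rw [hcard a]; exact (pow_pos hp _).ne')
    exact isTD_of_hasTD m r (𝒢 a) u w c q h
  have h := td_count m r 1 α 𝒢 hcard hF hT hA _ hX
  rw [one_mul] at h
  refine h.trans (le_of_eq ?_)
  exact card_TD_spans p m r

end Pool.Agent.Helper252_Enum
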