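import Pool.Agent.Helper252_Enum.R11_td_count
import Pool.Agent.Helper252_Enum.R04_isTD_of_hasTD
import Pool.Agent.Helper252_Enum.R03_trans_of_crd
import Pool.Agent.Helper252_Enum.R06_compat_of_aut
import Pool.Agent.Helper252_Enum.R02_card_TD_nontriv
import Pool.Agent.Helper252_Enum.Q13_gl_ge

set_option autoImplicit false

open scoped commutatorElement

namespace Pool.Agent.Helper252_Enum

/-
PROOF OF THE TARGET.
X = {cq | IsTD ∧ Spans ∧ ∃ g g', g ≠ AddEquiv.refl _ ∧ Compat cq.1 cq.2 g g'} and A = p^(4 (m/100) m + 1) in td_count.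
hX: let HasTD p m r (𝒢 a) u w c q; isTD_of_hasTD gives IsTD, Spans. ¬ SmallIm p m 1: there is u0 with IsCrd and more than one element in {u' // IsCrd u' ∧ SameCrd u0 u'} (finite), u0 itself being one (φ = refl), so there is u1 ≠ u0 with φ : 𝒢 a ≃* 𝒢 a, u1 (φ y) = u0 y. trans_of_crd: u1 = h ∘ u0 with h ≠ refl, so u0 (φ y) = h⁻¹ (u0 y). trans_of_crd again: u = k ∘ u0 so
u (φ y) = (k h⁻¹ k⁻¹) (u y), and g := k h⁻¹ k⁻¹ ≠ refl. compat_of_aut gives g' with Compat c q g g'.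
td_count: Quot * (gl p m * gl p r) <= A |X|; card_TD_nontriv: |X| p^(rm) <= p^(r^2 + r(m(m+1)/2) + 2r + 10m); gl_ge for m and for r: p^(m^2) <= p^2 gl p m, p^(r^2) <= p^2 gl p r. So Quot * p^(m^2 + r^2 + r m) <= p^(4 + 4(m/100)m + 1 + r^2 + r(m(m+1)/2) + 2r + 10m), hence (p^a Quot <= p^b, b - a <= e gives Quot <= p^e)
it is enough: r (m(m+1)/2) + 4 (m/100) m + 2r + 10 m + 5 <= r m + m^2 + (2n^3/27 - 47n^2/100) for n large. In reals: r m^2/2 <= 2n^3/27 (AM-GM, m + r = n), rm/2 - rm - m^2 + m^2/25 = -(rm/2 + 0.96 m^2) <= -0.51 n^2 for 19n/60 <= r <= 21n/60, m = n - r >= 39n/60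
(rm/2 + 0.96 m^2 = m (r/2 + 0.96 m) = m (n/2 + 0.46 m) >= 0.65 (0.5 + 0.299) n^2 = 0.519 n^2). The natural number divisions cost at most 2.
-/

namespace J_E4

theorem arith (m r n : ℕ) (hn : 400 ≤ n) (hmr : m + r = n) (h1 : 19 * n ≤ 60 * r)
    (h2 : 60 * r ≤ 21 * n) :
    4 + (4 * (m / 100) * m + 1) + (r ^ 2 + r * (m * (m + 1) / 2) + 2 * r + 10 * m) ≤
      (m ^ 2 + r ^ 2 + r * m) + (2 * n ^ 3 / 27 - 47 * n ^ 2 / 100) := by
  have e1 : 2 * (m * (m + 1) / 2) ≤ m * (m + 1) := Nat.mul_div_le _ _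
  have e2 : 100 * (m / 100) ≤ m := Nat.mul_div_le _ _
  have e3 : 2 * n ^ 3 < 27 * (2 * n ^ 3 / 27) + 27 := by
    have := Nat.lt_div_mul_add (a := 2 * n ^ 3) (b := 27) (by norm_num)
    omega
  have e4 : 100 * (47 * n ^ 2 / 100) ≤ 47 * n ^ 2 := Nat.mul_div_le _ _
  generalize m * (m + 1) / 2 = q at *
  generalize m / 100 = t at *
  generalize 2 * n ^ 3 / 27 = A at *
  generalize 47 * n ^ 2 / 100 = B at *
  have key : (4 : ℝ) + (4 * t * m + 1) + (r ^ 2 + r * q + 2 * r + 10 * m) ≤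
      (m ^ 2 + r ^ 2 + r * m) + (A - B) := by
    have f1 : (2 : ℝ) * q ≤ m * (m + 1) := by exact_mod_cast e1
    have f2 : (100 : ℝ) * t ≤ m := by exact_mod_cast e2
    have f3 : (2 : ℝ) * n ^ 3 < 27 * A + 27 := by exact_mod_cast e3
    have f4 : (100 : ℝ) * B ≤ 47 * n ^ 2 := by exact_mod_cast e4
    have f5 : (m : ℝ) + r = n := by exact_mod_cast hmr
    have f6 : (60 : ℝ) * r ≤ 21 * n := by exact_mod_cast h2
    have f7 : (400 : ℝ) ≤ n := by exact_mod_cast hn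
    have f8 : (0 : ℝ) ≤ r := Nat.cast_nonneg r
    have f9 : (0 : ℝ) ≤ m := Nat.cast_nonneg m
    have g1 : 27 * ((r : ℝ) * m ^ 2) ≤ 4 * n ^ 3 := by
      rw [← f5]
      have : 4 * ((m : ℝ) + r) ^ 3 - 27 * (r * m ^ 2) = (m - 2 * r) ^ 2 * (r + 4 * m) := by ring
      have h : 0 ≤ ((m : ℝ) - 2 * r) ^ 2 * (r + 4 * m) := by positivity
      linarith
    have g2 : (r : ℝ) * (2 * q) ≤ r * (m * (m + 1)) := mul_le_mul_of_nonneg_left f1 f8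
    have g3 : (100 : ℝ) * t * m ≤ m * m := mul_le_mul_of_nonneg_right f2 f9
    have g4 : (39 : ℝ) * n ≤ 60 * m := by linarith
    have g5 : 0.519 * (n : ℝ) ^ 2 ≤ r * m / 2 + 0.96 * m ^ 2 := by
      have hr : (r : ℝ) = n - m := by linarith
      rw [hr]
      nlinarith [g4, f7]
    have g6 : (12 : ℝ) * n + 7 ≤ 0.049 * n ^ 2 := by nlinarith [f7]
    have g7 : (2 : ℝ) * r + 10 * m ≤ 12 * n := by linarith
    nlinarith [g1, g2, g3, g5, g6, g7, f3, f4]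
  have key2 : 4 + (4 * t * m + 1) + (r ^ 2 + r * q + 2 * r + 10 * m) + B ≤
      (m ^ 2 + r ^ 2 + r * m) + A := by
    have : (4 : ℝ) + (4 * t * m + 1) + (r ^ 2 + r * q + 2 * r + 10 * m) + B ≤
      (m ^ 2 + r ^ 2 + r * m) + A := by linarith
    exact_mod_cast this
  omega

theorem mem_X {p : ℕ} [Fact p.Prime] (m r : ℕ) (G : Type) [Group G] [Finite G]
    (hS : ¬ SmallIm p m 1 G)
    (u : G → Vp p m) (w : G → Vp p r) (c : Vp p m → Vp p m → Vp p r) (q : Vp p m → Vp p r)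
    (h : HasTD p m r G u w c q) :
    ∃ (g : Vp p m ≃+ Vp p m) (g' : Vp p r ≃+ Vp p r), g ≠ AddEquiv.refl _ ∧ Compat c q g g' := by
  classical
  unfold SmallIm at hS
  push Not at hS
  obtain ⟨u0, hu0, hlt⟩ := hS
  have hfin : Finite {u' : G → Vp p m // IsCrd p m G u' ∧ SameCrd u0 u'} :=
    Nat.finite_of_card_ne_zero (by omega)
  rw [Finite.one_lt_card_iff_nontrivial] at hlt
  obtain ⟨u1, hu1, hne⟩ : ∃ u1 : G → Vp p m, (IsCrd p m G u1 ∧ SameCrd u0 u1) ∧ u1 ≠ u0 := by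
    obtain ⟨a, b, hab⟩ := hlt.exists_pair_ne
    by_cases ha : a.1 = u0
    · refine ⟨b.1, b.2, ?_⟩
      intro hb
      exact hab (Subtype.ext (ha.trans hb.symm))
    · exact ⟨a.1, a.2, ha⟩
  obtain ⟨hu1c, φ, hφ⟩ := hu1
  obtain ⟨k1, hk1⟩ := trans_of_crd m G u0 u1 hu0 hu1c
  obtain ⟨k, hk⟩ := trans_of_crd m G u0 u hu0 h.crd
  have h1 : ∀ y, u0 (φ y) = k1.symm (u0 y) := by
    intro y
    rw [← hφ y, hk1 (φ y), AddEquiv.symm_apply_apply]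
  have h2 : ∀ y, u (φ y) = (k.symm.trans (k1.symm.trans k)) (u y) := by
    intro y
    rw [hk (φ y), h1 y, hk y, AddEquiv.trans_apply, AddEquiv.trans_apply,
      AddEquiv.symm_apply_apply]
  obtain ⟨g', hg'⟩ := compat_of_aut m r G u w c q h φ _ h2
  refine ⟨_, g', ?_, hg'⟩
  intro hid
  apply hne
  funext y
  rw [hk1 y]
  have h3 := DFunLike.congr_fun hid (k (k1 (u0 y)))
  rw [AddEquiv.trans_apply, AddEquiv.trans_apply, AddEquiv.symm_apply_apply,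
    AddEquiv.symm_apply_apply, AddEquiv.refl_apply] at h3
  exact (k.injective h3).symm

theorem final_ineq (p Q GM GR N m r tm B e : ℕ) (hp : 0 < p)
    (h1 : Q * (GM * GR) ≤ p ^ tm * N) (h2 : N * p ^ (r * m) ≤ p ^ B)
    (h3 : p ^ (m ^ 2) ≤ p ^ 2 * GM) (h4 : p ^ (r ^ 2) ≤ p ^ 2 * GR)
    (h5 : 4 + tm + B ≤ (m ^ 2 + r ^ 2 + r * m) + e) : Q ≤ p ^ e := by
  have h6 : Q * p ^ (m ^ 2 + r ^ 2 + r * m) ≤ p ^ (4 + tm + B) := by
    calc Q * p ^ (m ^ 2 + r ^ 2 + r * m)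
        = Q * (p ^ (m ^ 2) * p ^ (r ^ 2)) * p ^ (r * m) := by rw [pow_add, pow_add]; ring
      _ ≤ Q * ((p ^ 2 * GM) * (p ^ 2 * GR)) * p ^ (r * m) := by gcongr
      _ = p ^ 4 * (Q * (GM * GR)) * p ^ (r * m) := by ring
      _ ≤ p ^ 4 * (p ^ tm * N) * p ^ (r * m) := by gcongr
      _ = p ^ 4 * p ^ tm * (N * p ^ (r * m)) := by ring
      _ ≤ p ^ 4 * p ^ tm * p ^ B := by gcongr
      _ = p ^ (4 + tm + B) := by rw [pow_add, pow_add]
  have h7 : Q * p ^ (m ^ 2 + r ^ 2 + r * m) ≤ p ^ e * p ^ (m ^ 2 + r ^ 2 + r * m) := by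
    rw [← pow_add]
    refine h6.trans (Nat.pow_le_pow_right hp ?_)
    omega
  exact Nat.le_of_mul_le_mul_right h7 (pow_pos hp _)

end J_E4

/-- TARGET -/
theorem E4 : ∃ n₀ : ℕ, ∀ (p : ℕ), p.Prime → ∀ m r n : ℕ, n₀ ≤ n → m + r = n →
    19 * n ≤ 60 * r → 60 * r ≤ 21 * n →
    ∀ (α : Type) (𝒢 : α → Type) [∀ a, Group (𝒢 a)], (∀ a, Nat.card (𝒢 a) = p ^ n) →
    (∀ a, Nat.card (FrP p (𝒢 a)) = p ^ r) → (∀ a, TT p (𝒢 a) = ⊥) →
    (∀ a, SmallIm p m (p ^ (4 * (m / 100) * m + 1)) (𝒢 a)) →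
    (∀ a, ¬ SmallIm p m 1 (𝒢 a)) →
    Nat.card (Quot fun a b => Nonempty (𝒢 a ≃* 𝒢 b)) ≤ p ^ (2 * n ^ 3 / 27 - 47 * n ^ 2 / 100) := by
  obtain ⟨n₁, hn₁⟩ := card_TD_nontriv
  refine ⟨max n₁ 400, ?_⟩
  intro p hp m r n hn hmr hr1 hr2 α 𝒢 _ hcard hF hT hA hS
  haveI : Fact p.Prime := ⟨hp⟩
  have hfin : ∀ a, Finite (𝒢 a) := fun a => Nat.finite_of_card_ne_zero (by
    rw [hcard a]; exact (pow_pos hp.pos n).ne')
  have hn1 : n₁ ≤ n := (le_max_left _ _).trans hn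
  have hn2 : 400 ≤ n := (le_max_right _ _).trans hn
  have h2 := hn₁ p hp m r n hn1 hmr hr1 hr2
  have h1 := td_count m r (p ^ (4 * (m / 100) * m + 1)) α 𝒢
    (fun a => by rw [hcard a, hmr]) hF hT hA
    {cq | IsTD p m r cq.1 cq.2 ∧ Spans cq.1 cq.2 ∧
        ∃ (g : Vp p m ≃+ Vp p m) (g' : Vp p r ≃+ Vp p r), g ≠ AddEquiv.refl _ ∧
          Compat cq.1 cq.2 g g'}
    (fun a u w c q h => by
      haveI := hfin a
      obtain ⟨k1, k2⟩ := isTD_of_hasTD m r (𝒢 a) u w c q h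
      exact ⟨k1, k2, J_E4.mem_X m r (𝒢 a) (hS a) u w c q h⟩)
  exact J_E4.final_ineq p _ _ _ _ m r _ _ _ hp.pos h1 h2 (gl_ge p m hp) (gl_ge p r hp)
    (J_E4.arith m r n hn2 hmr hr1 hr2)

end Pool.Agent.Helper252_Enum
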