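import Pool.Agent.Helper252_Enum.P1_nongen
import Pool.Agent.Helper252_Enum.Defs2

set_option autoImplicit false

open scoped commutatorElement

namespace Pool.Agent.Helper252_Enum

/-
PROOF OF THE TARGET.
F = FrP p G = PC p ⊤ ⊤ (normal, contains all commutators and p-th powers), K = K1 p G <= F, K central in G. For a finset Y of G let N_Y = PC p ⟨Y⟩ ⟨Y⟩ ⊔ K where ⟨Y⟩ = closure Y; N_∅ = K, N_Y <= F, N is monotone in Y. Claim: if N_Y ≠ F then there are a, b ∈ G with N_(Y ∪ {a,b}) ≠ N_Y. Otherwise N_(Y ∪ {a,b}) = N_Y =: N for all a, b ∈ G; so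
⁅a,b⁆ ∈ N, a^p ∈ N for all a, b, so F = PC p ⊤ ⊤ <= N, contradiction. (No normality needed, since all a, b ∈ G are allowed.) Each step at least multiplies the order |N_Y| by p (orders of subgroups of a p-group are powers of p, proper inclusion), and p^2 |K| >= |F|, so after at most two steps N_Y = F, with |Y| <= 4.
-/

namespace J_exists_small_H

theorem PC_mono {G : Type*} [Group G] {p : ℕ} {A A' B B' : Subgroup G} (hA : A ≤ A')
    (hB : B ≤ B') : PC p A B ≤ PC p A' B' := by
  unfold PC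
  apply Subgroup.closure_mono
  rintro x (⟨a, ha, b, hb, rfl⟩ | ⟨a, ha, rfl⟩)
  · exact Or.inl ⟨a, hA ha, b, hB hb, rfl⟩
  · exact Or.inr ⟨a, hA ha, rfl⟩

theorem comm_mem_PC {G : Type*} [Group G] {p : ℕ} {A B : Subgroup G} {a b : G} (ha : a ∈ A)
    (hb : b ∈ B) : ⁅a, b⁆ ∈ PC p A B :=
  Subgroup.subset_closure (Or.inl ⟨a, ha, b, hb, rfl⟩)

theorem pow_mem_PC {G : Type*} [Group G] {p : ℕ} {A B : Subgroup G} {a : G} (ha : a ∈ A) :
    a ^ p ∈ PC p A B :=
  Subgroup.subset_closure (Or.inr ⟨a, ha, rfl⟩)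

theorem K1_le (p : ℕ) (G : Type*) [Group G] : K1 p G ≤ FrP p G := fun _ hx => hx.1

/-- the subgroup `N_Y` -/
def NN (p : ℕ) {G : Type*} [Group G] (Y : Finset G) : Subgroup G :=
  PC p (Subgroup.closure (Y : Set G)) (Subgroup.closure (Y : Set G)) ⊔ K1 p G

theorem NN_le (p : ℕ) {G : Type*} [Group G] (Y : Finset G) : NN p Y ≤ FrP p G :=
  sup_le (PC_mono le_top le_top) (K1_le p G)

theorem NN_mono (p : ℕ) {G : Type*} [Group G] {Y Y' : Finset G} (h : Y ⊆ Y') :
    NN p Y ≤ NN p Y' := by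
  have hc : Subgroup.closure (Y : Set G) ≤ Subgroup.closure (Y' : Set G) :=
    Subgroup.closure_mono (by exact_mod_cast h)
  exact sup_le_sup_right (PC_mono hc hc) _

open Classical in
theorem step (p : ℕ) {G : Type*} [Group G] (Y : Finset G) (h : NN p Y ≠ FrP p G) :
    ∃ a b : G, NN p Y < NN p (insert a (insert b Y)) := by
  by_contra hcon
  push Not at hcon
  apply h
  refine le_antisymm (NN_le p Y) ?_
  have key : ∀ a b : G, NN p (insert a (insert b Y)) ≤ NN p Y := by
    intro a b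
    have h1 : NN p Y ≤ NN p (insert a (insert b Y)) :=
      NN_mono p ((Finset.subset_insert _ _).trans (Finset.subset_insert _ _))
    have h2 := hcon a b
    rw [lt_iff_le_not_ge] at h2
    by_contra h3
    exact h2 ⟨h1, h3⟩
  have ha : ∀ a b : G, a ∈ Subgroup.closure ((insert a (insert b Y) : Finset G) : Set G) :=
    fun a b => Subgroup.subset_closure (by simp)
  have hb : ∀ a b : G, b ∈ Subgroup.closure ((insert a (insert b Y) : Finset G) : Set G) :=
    fun a b => Subgroup.subset_closure (by simp)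
  unfold FrP PC
  rw [Subgroup.closure_le]
  rintro x (⟨a, _, b, _, rfl⟩ | ⟨a, _, rfl⟩)
  · exact key a b (le_sup_left (a := PC p _ _) (comm_mem_PC (ha a b) (hb a b)))
  · exact key a a (le_sup_left (a := PC p _ _) (pow_mem_PC (ha a a)))

theorem card_lt {p : ℕ} [Fact p.Prime] {G : Type} [Group G] [Finite G] (hG : IsPGroup p G)
    {A B : Subgroup G} (h : A < B) : p * Nat.card A ≤ Nat.card B := by
  have hp : 1 < p := (Fact.out : p.Prime).one_lt
  obtain ⟨a, ha⟩ := (IsPGroup.iff_card.1 (hG.to_subgroup A))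
  obtain ⟨b, hb⟩ := (IsPGroup.iff_card.1 (hG.to_subgroup B))
  have hlt : Nat.card A < Nat.card B := by
    refine lt_of_le_of_ne (Nat.le_of_dvd Nat.card_pos (Subgroup.card_dvd_of_le h.le)) ?_
    intro e
    exact h.ne (Subgroup.eq_of_le_of_card_ge h.le e.ge)
  rw [ha, hb] at hlt ⊢
  have hab : a < b := (Nat.pow_lt_pow_iff_right hp).1 hlt
  calc p * p ^ a = p ^ (a + 1) := by rw [pow_succ, mul_comm]
    _ ≤ p ^ b := Nat.pow_le_pow_right hp.le hab

end J_exists_small_H

/-- TARGET -/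
theorem exists_small_H {p : ℕ} [Fact p.Prime] (G : Type) [Group G] [Finite G] (hG : IsPGroup p G)
    (h : Nat.card (FrP p G) ≤ p ^ 2 * Nat.card (K1 p G)) :
    ∃ Y : Finset G, Y.card ≤ 4 ∧
      FrP p G = PC p (Subgroup.closure (Y : Set G)) (Subgroup.closure (Y : Set G)) ⊔ K1 p G := by
  classical
  by_cases h0 : J_exists_small_H.NN p (∅ : Finset G) = FrP p G
  · exact ⟨∅, by simp, h0.symm⟩
  obtain ⟨a, b, hab⟩ := J_exists_small_H.step p (∅ : Finset G) h0
  set Y1 : Finset G := insert a (insert b ∅) with hY1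
  have hY1c : Y1.card ≤ 2 := Finset.card_le_two
  by_cases h1 : J_exists_small_H.NN p Y1 = FrP p G
  · exact ⟨Y1, by omega, h1.symm⟩
  obtain ⟨c, d, hcd⟩ := J_exists_small_H.step p Y1 h1
  set Y2 : Finset G := insert c (insert d Y1) with hY2
  have hY2c : Y2.card ≤ 4 := by
    have e1 := Finset.card_insert_le c (insert d Y1)
    have e2 := Finset.card_insert_le d Y1
    calc Y2.card = (insert c (insert d Y1)).card := rfl
      _ ≤ 4 := by omega
  refine ⟨Y2, hY2c, ?_⟩
  have e1 := J_exists_small_H.card_lt hG hab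
  have e2 := J_exists_small_H.card_lt hG hcd
  have e3 : Nat.card (K1 p G) ≤ Nat.card (J_exists_small_H.NN p (∅ : Finset G)) :=
    Nat.le_of_dvd Nat.card_pos (Subgroup.card_dvd_of_le le_sup_right)
  have e4 : Nat.card (FrP p G) ≤ Nat.card (J_exists_small_H.NN p Y2) := by
    calc Nat.card (FrP p G) ≤ p ^ 2 * Nat.card (K1 p G) := h
      _ ≤ p ^ 2 * Nat.card (J_exists_small_H.NN p (∅ : Finset G)) := Nat.mul_le_mul_left _ e3
      _ = p * (p * Nat.card (J_exists_small_H.NN p (∅ : Finset G))) := by ring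
      _ ≤ p * Nat.card (J_exists_small_H.NN p Y1) := Nat.mul_le_mul_left _ e1
      _ ≤ Nat.card (J_exists_small_H.NN p Y2) := e2
  exact (Subgroup.eq_of_le_of_card_ge (J_exists_small_H.NN_le p Y2) e4).symm

end Pool.Agent.Helper252_Enum
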