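import Pool.Agent.Helper252_Enum.Defs2

set_option autoImplicit false

open scoped commutatorElement

namespace Pool.Agent.Helper252_Enum

/-
PROOF OF THE TARGET.
F = FrP p G = PC p ⊤ ⊤, K = K1 p G (central elements of F with k^p = 1), P = PC p H H <= H. L := H ⊔ F = H ⊔ K (F = P ⊔ K). T' := PC p F L = subgroup generated by ⁅f,l⁆ (f ∈ F, l ∈ L) and f^p (f ∈ F).
(1) T' <= P: elements of F = P ⊔ K are f = x k with x ∈ P, k ∈ K central; elements of L are l = h k' with h ∈ H, k' ∈ K. ⁅xk, hk'⁆ = ⁅x,h⁆ ∈ P (x ∈ P <= H, so ⁅x,h⁆ with x, h ∈ H is a generator of P), (xk)^p = x^p k^p = x^p ∈ P.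
(2) TT p G = PC p F ⊤ <= T'. L contains F, hence all commutators, so L is normal in G, F is normal, T' is normal. Work in Ḡ = G/T' (or with congruences): the image of F commutes with the image of L, and f^p = 1 for f ∈ F. To show ⁅f,g⁆ ∈ T' for f ∈ F, g ∈ G; f is a product of elements of K (central) and of generators of P = PC p H H, namely ⁅h,h'⁆ and h^p with h, h' ∈ H.
The set {f ∈ F | ∀ g, ⁅f,g⁆ ∈ T'} is a subgroup (T' normal). For f = ⁅h,h'⁆: three subgroups lemma (Hall-Witt identity): modulo T', ⁅h',g⁆ ∈ F commutes with h ∈ L and ⁅g,h⁆ ∈ F commutes with h' ∈ L, so ⁅⁅h,h'⁆,g⁆ ∈ T' (Mathlib: Subgroup.commutator_commutator_eq_bot_of_rotate applied in G ⧸ T' to the images of H, H, ⊤, or the element version of the Hall-Witt identity).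
For f = h^p: modulo T', ⁅h,g⁆ ∈ F commutes with h, so ⁅h^p,g⁆ = ⁅h,g⁆^p ∈ F^p <= T'. And f^p ∈ T' for f ∈ F by definition. So TT p G <= T' <= P.
-/

namespace J_TT_le_of

theorem comm_eq {Q : Type*} [Group Q] (x y : Q) : ⁅x, y⁆ = (x * y) * (y * x)⁻¹ := by
  rw [commutatorElement_def, mul_inv_rev]
  simp only [mul_assoc]

theorem key1 {Q : Type*} [Group Q] {a b u v : Q} (hua : Commute u a) (hub : Commute u b)
    (hva : Commute v a) (huv : Commute u v) : ⁅a * u, b * v⁆ = ⁅a, b⁆ := by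
  rw [comm_eq, comm_eq a b]
  have h1 : a * u * (b * v) = a * b * (u * v) := by
    calc a * u * (b * v) = a * (u * b) * v := by simp only [mul_assoc]
      _ = a * (b * u) * v := by rw [hub.eq]
      _ = a * b * (u * v) := by simp only [mul_assoc]
  have h2 : b * v * (a * u) = b * a * (u * v) := by
    calc b * v * (a * u) = b * (v * a) * u := by simp only [mul_assoc]
      _ = b * (a * v) * u := by rw [hva.eq]
      _ = b * a * (v * u) := by simp only [mul_assoc]
      _ = b * a * (u * v) := by rw [huv.eq]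
  rw [h1, h2, mul_inv_rev]
  simp [mul_assoc]

theorem closure_normal_aux {G : Type*} [Group G] {S : Set G}
    (h : ∀ x ∈ S, ∀ g : G, g * x * g⁻¹ ∈ S) : (Subgroup.closure S).Normal := by
  refine ⟨fun t ht g => ?_⟩
  induction ht using Subgroup.closure_induction with
  | mem x hx => exact Subgroup.subset_closure (h x hx g)
  | one => simp
  | mul x y _ _ hx hy =>
    have : g * (x * y) * g⁻¹ = (g * x * g⁻¹) * (g * y * g⁻¹) := by group
    rw [this]
    exact Subgroup.mul_mem _ hx hy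
  | inv x _ hx =>
    have : g * x⁻¹ * g⁻¹ = (g * x * g⁻¹)⁻¹ := by group
    rw [this]
    exact Subgroup.inv_mem _ hx

theorem comm_memF {p : ℕ} {G : Type*} [Group G] (a b : G) : ⁅a, b⁆ ∈ FrP p G :=
  Subgroup.subset_closure (Or.inl ⟨a, Subgroup.mem_top a, b, Subgroup.mem_top b, rfl⟩)

theorem normal_of_F {p : ℕ} {G : Type*} [Group G] {L : Subgroup G} (hL : FrP p G ≤ L) :
    L.Normal := by
  refine ⟨fun f hf g => ?_⟩
  have : g * f * g⁻¹ = ⁅g, f⁆ * f := by rw [commutatorElement_def]; group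
  rw [this]
  exact L.mul_mem (hL (comm_memF g f)) hf

theorem PC_normal {p : ℕ} {G : Type*} [Group G] {A B : Subgroup G} (hA : A.Normal)
    (hB : B.Normal) : (PC p A B).Normal := by
  refine closure_normal_aux ?_
  rintro x (⟨a, ha, b, hb, rfl⟩ | ⟨a, ha, rfl⟩) g
  · refine Or.inl ⟨g * a * g⁻¹, hA.conj_mem a ha g, g * b * g⁻¹, hB.conj_mem b hb g, ?_⟩
    simp only [commutatorElement_def]
    group
  · refine Or.inr ⟨g * a * g⁻¹, hA.conj_mem a ha g, ?_⟩
    rw [conj_pow]

end J_TT_le_of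

/-- TARGET -/
theorem TT_le_of {p : ℕ} [Fact p.Prime] (G : Type) [Group G] [Finite G] (H : Subgroup G)
    (hH : FrP p G = PC p H H ⊔ K1 p G) : TT p G ≤ PC p H H := by
  have hPH : PC p H H ≤ H := by
    refine (Subgroup.closure_le _).mpr ?_
    rintro x (⟨a, ha, b, hb, rfl⟩ | ⟨a, ha, rfl⟩)
    · rw [commutatorElement_def]
      exact H.mul_mem (H.mul_mem (H.mul_mem ha hb) (H.inv_mem ha)) (H.inv_mem hb)
    · exact H.pow_mem ha p
  have hKc : ∀ k ∈ K1 p G, ∀ g : G, Commute k g := by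
    rintro k ⟨_, hk, _⟩ g
    exact (Subgroup.mem_center_iff.mp hk g).symm
  have hKn : (K1 p G).Normal := by
    refine ⟨fun k hk g => ?_⟩
    have : g * k * g⁻¹ = k := by
      rw [← (hKc k hk g).eq, mul_inv_cancel_right]
    rw [this]
    exact hk
  set L : Subgroup G := H ⊔ FrP p G with hLdef
  have hFL : FrP p G ≤ L := le_sup_right
  have hHL : H ≤ L := le_sup_left
  have hFn : (FrP p G).Normal := J_TT_le_of.normal_of_F le_rfl
  have hLn : L.Normal := J_TT_le_of.normal_of_F hFL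
  have hLK : L = H ⊔ K1 p G := by
    rw [hLdef, hH, ← sup_assoc, sup_eq_left.mpr hPH]
  have hTn : (PC p (FrP p G) L).Normal := J_TT_le_of.PC_normal hFn hLn
  have hFdec : ∀ f ∈ FrP p G, ∃ x ∈ PC p H H, ∃ k ∈ K1 p G, x * k = f := by
    intro f hf
    rw [hH] at hf
    exact Subgroup.mem_sup_of_normal_right.mp hf
  have hLdec : ∀ l ∈ L, ∃ x ∈ H, ∃ k ∈ K1 p G, x * k = l := by
    intro l hl
    rw [hLK] at hl
    exact Subgroup.mem_sup_of_normal_right.mp hl
  have hstep1 : PC p (FrP p G) L ≤ PC p H H := by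
    refine (Subgroup.closure_le _).mpr ?_
    rintro y (⟨f, hf, l, hl, rfl⟩ | ⟨f, hf, rfl⟩)
    · obtain ⟨x, hx, k, hk, rfl⟩ := hFdec f hf
      obtain ⟨h, hh, k', hk', rfl⟩ := hLdec l hl
      rw [J_TT_le_of.key1 (hKc k hk x) (hKc k hk h) (hKc k' hk' x) (hKc k hk k')]
      exact Subgroup.subset_closure (Or.inl ⟨x, hPH hx, h, hh, rfl⟩)
    · obtain ⟨x, hx, k, hk, rfl⟩ := hFdec f hf
      rw [(hKc k hk x).symm.mul_pow, hk.2.2, mul_one]
      exact Subgroup.subset_closure (Or.inr ⟨x, hPH hx, rfl⟩)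
  refine le_trans ?_ hstep1
  set T : Subgroup G := PC p (FrP p G) L with hT
  let φ : G →* G ⧸ T := QuotientGroup.mk' T
  have hφ : ∀ x : G, φ x = 1 ↔ x ∈ T := fun x => QuotientGroup.eq_one_iff x
  have hFLc : ∀ f ∈ FrP p G, ∀ l ∈ L, Commute (φ f) (φ l) := by
    intro f hf l hl
    have h1 : ⁅f, l⁆ ∈ T := Subgroup.subset_closure (Or.inl ⟨f, hf, l, hl, rfl⟩)
    rw [← hφ, map_commutatorElement, commutatorElement_eq_one_iff_commute] at h1
    exact h1
  have hFp : ∀ f ∈ FrP p G, (φ f) ^ p = 1 := by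
    intro f hf
    rw [← map_pow, hφ]
    exact Subgroup.subset_closure (Or.inr ⟨f, hf, rfl⟩)
  have hconj : ∀ h ∈ H, ∀ g : G, ∃ f ∈ FrP p G, φ g * φ h * (φ g)⁻¹ = φ h * φ f := by
    intro h _ g
    refine ⟨⁅h⁻¹, g⁆, J_TT_le_of.comm_memF _ _, ?_⟩
    simp only [commutatorElement_def, map_mul, map_inv]
    group
  have hFc : ∀ f ∈ FrP p G, ∀ g : G, Commute (φ f) (φ g) := by
    have hle : FrP p G ≤ (Subgroup.center (G ⧸ T)).comap φ := by
      rw [hH]
      refine sup_le ((Subgroup.closure_le _).mpr ?_) ?_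
      · rintro y (⟨h, hh, h', hh', rfl⟩ | ⟨h, hh, rfl⟩)
        · change φ ⁅h, h'⁆ ∈ Subgroup.center (G ⧸ T)
          rw [Subgroup.mem_center_iff]
          intro q
          obtain ⟨g, rfl⟩ := QuotientGroup.mk'_surjective T q
          obtain ⟨u, hu, hu'⟩ := hconj h hh g
          obtain ⟨v, hv, hv'⟩ := hconj h' hh' g
          have e1 : φ g * φ ⁅h, h'⁆ * (φ g)⁻¹ = φ ⁅h, h'⁆ := by
            calc φ g * φ ⁅h, h'⁆ * (φ g)⁻¹
                = ⁅φ g * φ h * (φ g)⁻¹, φ g * φ h' * (φ g)⁻¹⁆ := by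
                  simp only [commutatorElement_def, map_mul, map_inv]
                  group
              _ = ⁅φ h * φ u, φ h' * φ v⁆ := by rw [hu', hv']
              _ = ⁅φ h, φ h'⁆ := J_TT_le_of.key1 (hFLc u hu h (hHL hh))
                  (hFLc u hu h' (hHL hh')) (hFLc v hv h (hHL hh)) (hFLc u hu v (hFL hv))
              _ = φ ⁅h, h'⁆ := (map_commutatorElement φ h h').symm
          exact mul_inv_eq_iff_eq_mul.mp e1
        · change φ (h ^ p) ∈ Subgroup.center (G ⧸ T)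
          rw [Subgroup.mem_center_iff]
          intro q
          obtain ⟨g, rfl⟩ := QuotientGroup.mk'_surjective T q
          obtain ⟨u, hu, hu'⟩ := hconj h hh g
          have e1 : φ g * φ (h ^ p) * (φ g)⁻¹ = φ (h ^ p) := by
            rw [map_pow, ← conj_pow, hu', (hFLc u hu h (hHL hh)).symm.mul_pow, hFp u hu, mul_one]
          exact mul_inv_eq_iff_eq_mul.mp e1
      · intro k hk
        change φ k ∈ Subgroup.center (G ⧸ T)
        rw [Subgroup.mem_center_iff]
        intro q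
        obtain ⟨g, rfl⟩ := QuotientGroup.mk'_surjective T q
        change φ g * φ k = φ k * φ g
        rw [← map_mul, ← map_mul, (hKc k hk g).eq]
    intro f hf g
    have := hle hf
    rw [Subgroup.mem_comap, Subgroup.mem_center_iff] at this
    exact (this (φ g)).symm
  refine (Subgroup.closure_le _).mpr ?_
  rintro y (⟨f, hf, g, _, rfl⟩ | ⟨f, hf, rfl⟩)
  · change ⁅f, g⁆ ∈ T
    rw [← hφ, map_commutatorElement, commutatorElement_eq_one_iff_commute]
    exact hFc f hf g
  · exact Subgroup.subset_closure (Or.inr ⟨f, hf, rfl⟩)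

end Pool.Agent.Helper252_Enum
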