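import Pool.Agent.Helper252_Enum.P4_exists_series
import Pool.Agent.Helper252_Enum.P5_card_closure
import Pool.Agent.Helper252_Enum.Defs2

set_option autoImplicit false

open scoped commutatorElement

namespace Pool.Agent.Helper252_Enum

/-
PROOF OF THE TARGET.
H = closure Y, P = PC p H H, K = K1 p G (central in G, elementary abelian: k^p = 1), F = FrP p G >= P. Z0 := P ⊓ K. |P : Z0| = |P ⊔ K : K| <= |F : K| <= p^2 (P <= F). |H : P| <= p^4: card_closure_sup_le applied with N = P and the at most 4 elements of Y (they normalise P, have p-th powers and commutators in P): |closure Y ⊔ P| <= p^4 |P|. So |H : Z0| = p^b with b <= 6.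
Choose a central series of H through Z0: apply exists_series to the group H (a finite p-group) with A = Z0 (as a subgroup of H, normal as central), B = ⊤: subgroups N k of H (order p^k) with N s = Z0, N (s+b) = ⊤, and [N (k+1), H] <= N k. Choose h_k ∈ N (s+k+1) \ N (s+k) for k < b. Then every element of N (s+k) is a product of h_(k-1)^..., ..., h_0^... and an element of Z0.
For j < i: ⁅h_j, h_i⁆ ∈ N (s+j) = D_j Z0 where D_j = closure{h_0..h_(j-1)}; write ⁅h_j,h_i⁆ = d z_ij with d ∈ D_j, z_ij ∈ Z0, and h_i^p = d z_i, d ∈ D_i, z_i ∈ Z0. Let Z1 = closure of the b(b-1)/2 + b = b(b+1)/2 <= 21 elements z_ij, z_i: |Z1| <= p^21 (central of order dividing p: card_closure_sup_le with N = ⊥). E_k := D_k ⊔ Z1. Then h_k normalises E_k, h_k^p ∈ E_k so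
|E_(k+1)| <= p |E_k| (h_l with l >= k normalises E_k because ⁅h_j,h_l⁆ ∈ D_j Z1 for j < k). So |E_b| <= p^b p^21 <= p^27. E_b ⊔ Z0 = H, so E_b is normal in H (Z0 central), and H/E_b is a quotient of Z0, so abelian of exponent p; so all commutators and p-th powers of elements of H are in E_b: P <= E_b, |P| <= p^27.
-/


namespace J_card_PC_le

section

variable {G : Type*} [Group G] {p r : ℕ} {N : ℕ → Subgroup G}

theorem mono' (hN : Series p r N) {i j : ℕ} (hij : i ≤ j) (hj : j ≤ r) : N i ≤ N j := by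
  induction j, hij using Nat.le_induction with
  | base => exact le_rfl
  | succ j hij ih => exact (ih (by omega)).trans (hN.mono j (by omega))

theorem zero_bot (hN : Series p r N) : N 0 = ⊥ := by
  have h := hN.card 0 (Nat.zero_le r)
  rw [pow_zero] at h
  exact Subgroup.card_eq_one.1 h

theorem comm_mem (hN : Series p r N) {k : ℕ} (hk : k ≤ r) {h : G} (hh : h ∈ N k) (g : G) :
    ⁅h, g⁆ ∈ N k := by
  rcases Nat.eq_zero_or_pos k with h0 | h0
  · subst h0
    rw [zero_bot hN, Subgroup.mem_bot] at hh ⊢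
    subst hh
    simp
  · obtain ⟨l, rfl⟩ : ∃ l, k = l + 1 := ⟨k - 1, by omega⟩
    exact hN.mono l (by omega) (hN.central l (by omega) h hh g)

theorem conj_mem (hN : Series p r N) {k : ℕ} (hk : k ≤ r) {h : G} (hh : h ∈ N k) (g : G) :
    g * h * g⁻¹ ∈ N k := by
  have h1 := comm_mem hN hk ((N k).inv_mem hh) g
  have h2 : g * h * g⁻¹ = h * ⁅h⁻¹, g⁆ := by
    rw [commutatorElement_def]
    group
  rw [h2]
  exact (N k).mul_mem hh h1

theorem normal (hN : Series p r N) {k : ℕ} (hk : k ≤ r) : (N k).Normal :=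
  ⟨fun _ hh g => conj_mem hN hk hh g⟩

theorem card_quot [Finite G] [Fact p.Prime] (hN : Series p r N) {l : ℕ} (hl : l < r) :
    Nat.card (N (l + 1) ⧸ (N l).subgroupOf (N (l + 1))) = p := by
  have hp : 0 < p := (Fact.out : p.Prime).pos
  have h1 := Subgroup.card_mul_index ((N l).subgroupOf (N (l + 1)))
  have h2 : Nat.card ((N l).subgroupOf (N (l + 1))) = Nat.card (N l) :=
    Nat.card_congr (Subgroup.subgroupOfEquivOfLe (hN.mono l hl)).toEquiv
  rw [h2, hN.card l hl.le, hN.card (l + 1) hl, pow_succ] at h1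
  exact Nat.eq_of_mul_eq_mul_left (pow_pos hp l) h1

theorem div_lem [Finite G] [Fact p.Prime] (hN : Series p r N) {l : ℕ} (hl : l < r) {f h : G}
    (hf : f ∈ N (l + 1)) (hf' : f ∉ N l) (hh : h ∈ N (l + 1)) :
    ∃ e < p, ∃ h' ∈ N l, h = f ^ e * h' := by
  have hp : 0 < p := (Fact.out : p.Prime).pos
  have hnorm : (N l).Normal := normal hN hl.le
  have hc := card_quot hN hl
  have h1 : ((⟨f, hf⟩ : N (l + 1)) : N (l + 1) ⧸ (N l).subgroupOf (N (l + 1))) ≠ 1 := by
    intro h0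
    rw [QuotientGroup.eq_one_iff, Subgroup.mem_subgroupOf] at h0
    exact hf' h0
  have h2 := mem_powers_of_prime_card (g' := ((⟨h, hh⟩ : N (l + 1)) :
    N (l + 1) ⧸ (N l).subgroupOf (N (l + 1)))) hc h1
  obtain ⟨n, hn⟩ := h2
  have h3 : ((⟨f, hf⟩ : N (l + 1)) : N (l + 1) ⧸ (N l).subgroupOf (N (l + 1))) ^ p = 1 := by
    rw [← hc]
    exact pow_card_eq_one'
  refine ⟨n % p, Nat.mod_lt _ hp, (f ^ (n % p))⁻¹ * h, ?_, by group⟩
  have h4 : ((⟨f, hf⟩ : N (l + 1)) : N (l + 1) ⧸ (N l).subgroupOf (N (l + 1))) ^ (n % p) =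
      ((⟨h, hh⟩ : N (l + 1)) : N (l + 1) ⧸ (N l).subgroupOf (N (l + 1))) := by
    rw [← hn]
    simp only
    rw [← Nat.mod_add_div n p, pow_add, pow_mul, h3, one_pow, mul_one, Nat.mod_add_div]
  rw [← QuotientGroup.mk_pow, QuotientGroup.eq, Subgroup.mem_subgroupOf] at h4
  exact h4

theorem pow_mem [Finite G] [Fact p.Prime] (hN : Series p r N) {l : ℕ} (hl : l < r) {h : G}
    (hh : h ∈ N (l + 1)) : h ^ p ∈ N l := by
  have hnorm : (N l).Normal := normal hN hl.le
  have hc := card_quot hN hl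
  have h3 : ((⟨h, hh⟩ : N (l + 1)) : N (l + 1) ⧸ (N l).subgroupOf (N (l + 1))) ^ p = 1 := by
    rw [← hc]
    exact pow_card_eq_one'
  rw [← QuotientGroup.mk_pow, QuotientGroup.eq_one_iff, Subgroup.mem_subgroupOf] at h3
  exact h3

end

section

variable {G : Type*} [Group G]

theorem Sp_mono (f : ℕ → G) {j k : ℕ} (h : j ≤ k) : Sp f j ≤ Sp f k :=
  Subgroup.closure_mono (Set.image_mono (Set.Iio_subset_Iio h))

theorem mem_Sp_of_lt (f : ℕ → G) {j k : ℕ} (h : j < k) : f j ∈ Sp f k :=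
  Subgroup.subset_closure ⟨j, h, rfl⟩

theorem Sp_zero (f : ℕ → G) : Sp f 0 = ⊥ := by
  simp [Sp]

theorem Sp_succ (f : ℕ → G) (k : ℕ) : Sp f (k + 1) = Subgroup.closure {f k} ⊔ Sp f k := by
  unfold Sp
  rw [← Subgroup.closure_union]
  congr 1
  ext y
  simp only [Set.mem_image, Set.mem_Iio, Set.mem_union, Set.mem_singleton_iff]
  constructor
  · rintro ⟨j, hj, rfl⟩
    rcases Nat.lt_succ_iff_lt_or_eq.mp hj with h | h
    · exact Or.inr ⟨j, h, rfl⟩
    · left; rw [h]
  · rintro (h | ⟨j, hj, rfl⟩)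
    · exact ⟨k, Nat.lt_succ_self k, h.symm⟩
    · exact ⟨j, Nat.lt_succ_of_lt hj, rfl⟩

theorem relIndex_pos [Finite G] (H K : Subgroup G) : H.relIndex K ≠ 0 := by
  have h := Subgroup.relIndex_dvd_card (H := H) (K := K)
  intro h0
  rw [h0] at h
  have h1 := Nat.eq_zero_of_zero_dvd h
  have h2 : 0 < Nat.card K := Nat.card_pos
  omega

theorem card_eq [Finite G] (C K : Subgroup G) :
    Nat.card (K ⊓ C : Subgroup G) * C.relIndex K = Nat.card K := by
  have h1 := Subgroup.relIndex_mul_relIndex (⊥ : Subgroup G) (K ⊓ C) K bot_le inf_le_left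
  rw [Subgroup.relIndex_bot_left, Subgroup.relIndex_bot_left, Subgroup.inf_relIndex_left] at h1
  exact h1

theorem le_iff [Finite G] (C K : Subgroup G) (m : ℕ) :
    Nat.card K ≤ m * Nat.card (K ⊓ C : Subgroup G) ↔ C.relIndex K ≤ m := by
  have h1 := card_eq C K
  have h2 : 0 < Nat.card (K ⊓ C : Subgroup G) := Nat.card_pos
  constructor
  · intro h
    rw [← h1, mul_comm m] at h
    exact Nat.le_of_mul_le_mul_left h h2
  · intro h
    rw [← h1, mul_comm m]
    exact Nat.mul_le_mul_left _ h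

theorem card_mono [Finite G] {A B : Subgroup G} (h : A ≤ B) : Nat.card A ≤ Nat.card B :=
  Nat.card_le_card_of_injective (Subgroup.inclusion h) (Subgroup.inclusion_injective h)

end

/-- Polycyclic data of a finite `p`-group modulo a normal subgroup of index at most `p ^ 6`. -/
theorem pc_data {H : Type*} [Group H] [Finite H] {p : ℕ} [Fact p.Prime] (hH : IsPGroup p H)
    (Z : Subgroup H) [Z.Normal] (hcard : Nat.card H ≤ p ^ 6 * Nat.card Z) :
    ∃ (b : ℕ) (h : ℕ → H), b ≤ 6 ∧ (∀ i < b, ∀ g, ⁅h i, g⁆ ∈ Sp h i ⊔ Z) ∧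
      (∀ i < b, h i ^ p ∈ Sp h i ⊔ Z) ∧ Sp h b ⊔ Z = ⊤ := by
  have hp : p.Prime := Fact.out
  obtain ⟨s, hs⟩ := (IsPGroup.iff_card (p := p)).1 (hH.to_subgroup Z)
  obtain ⟨r, hr⟩ := (IsPGroup.iff_card (p := p)).1 (hH.to_subgroup (⊤ : Subgroup H))
  have hr' : Nat.card H = p ^ r := by rw [← hr]; exact (Subgroup.card_top).symm
  have hsr : s ≤ r := by
    have h1 : Nat.card Z ≤ Nat.card (⊤ : Subgroup H) := card_mono le_top
    rw [hs, hr] at h1
    exact (Nat.pow_le_pow_iff_right hp.one_lt).1 h1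
  have hr6 : r ≤ 6 + s := by
    rw [hr', hs, ← pow_add] at hcard
    exact (Nat.pow_le_pow_iff_right hp.one_lt).1 hcard
  obtain ⟨N, hN, hNs, hNr⟩ := exists_series hH Z ⊤ le_top s r hs hr
  have hex : ∀ k : ℕ, ∃ x : H, k < r - s → x ∈ N (s + k + 1) ∧ x ∉ N (s + k) := by
    intro k
    by_cases hk : k < r - s
    · have h1 := hN.card (s + k) (by omega)
      have h2 := hN.card (s + k + 1) (by omega)
      have h3 : ¬ N (s + k + 1) ≤ N (s + k) := by
        intro hle
        have h4 := card_mono hle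
        rw [h1, h2] at h4
        have h5 := (Nat.pow_le_pow_iff_right hp.one_lt).1 h4
        omega
      obtain ⟨x, hx, hx'⟩ := SetLike.not_le_iff_exists.1 h3
      exact ⟨x, fun _ => ⟨hx, hx'⟩⟩
    · exact ⟨1, fun h => absurd h hk⟩
  choose h hh using hex
  have key : ∀ k, k ≤ r - s → Sp h k ⊔ Z = N (s + k) := by
    intro k
    induction k with
    | zero =>
      intro _
      rw [Sp_zero, bot_sup_eq, Nat.add_zero, hNs]
    | succ k ih =>
      intro hk
      have ihk := ih (by omega)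
      obtain ⟨hf1, hf2⟩ := hh k (by omega)
      rw [Sp_succ, sup_assoc, ihk]
      apply le_antisymm
      · refine sup_le ?_ (hN.mono (s + k) (by omega))
        rw [Subgroup.closure_le]
        rintro x hx
        rw [Set.mem_singleton_iff] at hx
        subst hx
        exact hf1
      · intro x hx
        obtain ⟨e, -, x', hx', he⟩ := div_lem hN (l := s + k) (by omega) hf1 hf2 hx
        rw [he]
        refine Subgroup.mul_mem _ (Subgroup.pow_mem _ ?_ e) (Subgroup.mem_sup_right hx')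
        exact Subgroup.mem_sup_left (Subgroup.subset_closure rfl)
  refine ⟨r - s, h, by omega, ?_, ?_, ?_⟩
  · intro i hi g
    rw [key i hi.le]
    exact hN.central (s + i) (by omega) _ (hh i hi).1 g
  · intro i hi
    rw [key i hi.le]
    exact pow_mem hN (by omega) (hh i hi).1
  · rw [key (r - s) le_rfl, Nat.add_sub_cancel' hsr, hNr]

theorem card_pairs (b : ℕ) (hb : b ≤ 6) :
    ((Finset.range b ×ˢ Finset.range b).filter (fun x : ℕ × ℕ => x.2 ≤ x.1)).card ≤ 21 := by
  interval_cases b <;> decide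

theorem lemB {H : Type*} [Group H] [Finite H] {p : ℕ} [Fact p.Prime] (hH : IsPGroup p H)
    (Z : Subgroup H) (hZc : ∀ z ∈ Z, ∀ g : H, g * z = z * g) (hZp : ∀ z ∈ Z, z ^ p = 1)
    (hcard : Nat.card H ≤ p ^ 6 * Nat.card Z) :
    Nat.card (PC p (⊤ : Subgroup H) ⊤) ≤ p ^ 27 := by
  have hp : p.Prime := Fact.out
  have hZn : Z.Normal := ⟨fun z hz g => by rw [hZc z hz g]; simpa using hz⟩
  obtain ⟨b, h, hb, hc, hpw, htop⟩ := pc_data hH Z hcard
  have h3 : ∀ x : ℕ × ℕ, ∃ z ∈ Z,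
      (x.2 < x.1 → x.1 < b → ∃ d ∈ Sp h x.2, ⁅h x.2, h x.1⁆ = d * z) ∧
      (x.2 = x.1 → x.1 < b → ∃ d ∈ Sp h x.1, h x.1 ^ p = d * z) := by
    rintro ⟨i, j⟩
    by_cases hib : i < b
    · rcases lt_trichotomy j i with hji | hji | hji
      · obtain ⟨d, hd, z, hz, hdz⟩ :=
          Subgroup.mem_sup_of_normal_right.1 (hc j (hji.trans hib) (h i))
        exact ⟨z, hz, fun _ _ => ⟨d, hd, hdz.symm⟩, fun he => absurd he (ne_of_lt hji)⟩
      · obtain ⟨d, hd, z, hz, hdz⟩ := Subgroup.mem_sup_of_normal_right.1 (hpw i hib)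
        exact ⟨z, hz, fun hl => absurd hji (ne_of_lt hl), fun _ _ => ⟨d, hd, hdz.symm⟩⟩
      · exact ⟨1, Z.one_mem, fun hl => absurd hl (by simp only; omega),
          fun he => absurd he (by simp only; omega)⟩
    · exact ⟨1, Z.one_mem, fun _ hl => absurd hl hib, fun _ hl => absurd hl hib⟩
  choose zz hzZ hz1 hz2 using h3
  set S : Finset (ℕ × ℕ) := (Finset.range b ×ˢ Finset.range b).filter (fun x => x.2 ≤ x.1) with hS
  have hmemS : ∀ i j, i < b → j ≤ i → (i, j) ∈ S := by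
    intro i j hi hj
    rw [hS, Finset.mem_filter, Finset.mem_product, Finset.mem_range, Finset.mem_range]
    exact ⟨⟨hi, by simp only; omega⟩, hj⟩
  set Z1 : Subgroup H := Subgroup.closure (zz '' (S : Set (ℕ × ℕ))) with hZ1
  have hZ1Z : Z1 ≤ Z := by
    rw [hZ1, Subgroup.closure_le]
    rintro _ ⟨x, -, rfl⟩
    exact hzZ x
  have hcZ1 : Nat.card Z1 ≤ p ^ 21 := by
    have h1 := card_closure_sup_le (p := p) hp.pos (⊥ : Subgroup H) zz S
      (by
        intro i _ x hx
        rw [Subgroup.mem_bot] at hx ⊢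
        rw [hx]; simp)
      (by
        intro i _
        rw [Subgroup.mem_bot]
        exact hZp _ (hzZ i))
      (by
        intro i _ j _
        rw [Subgroup.mem_bot, commutatorElement_eq_one_iff_mul_comm]
        exact (hZc _ (hzZ j) _))
    rw [sup_bot_eq, Subgroup.card_bot, mul_one] at h1
    exact h1.trans (Nat.pow_le_pow_right hp.pos (card_pairs b hb))
  have hcomm : ∀ i j, i < b → j < i → ⁅h i, h j⁆ ∈ Sp h i ⊔ Z1 := by
    intro i j hi hj
    obtain ⟨d, hd, hdz⟩ := hz1 (i, j) hj hi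
    have h1 : ⁅h i, h j⁆ = (d * zz (i, j))⁻¹ := by
      rw [← hdz, commutatorElement_inv]
    rw [h1]
    refine Subgroup.inv_mem _ (Subgroup.mul_mem _ (Subgroup.mem_sup_left (Sp_mono h hj.le hd))
      (Subgroup.mem_sup_right (Subgroup.subset_closure ⟨(i, j), hmemS i j hi hj.le, rfl⟩)))
  have hpow : ∀ i, i < b → h i ^ p ∈ Sp h i ⊔ Z1 := by
    intro i hi
    obtain ⟨d, hd, hdz⟩ := hz2 (i, i) rfl hi
    simp only at hdz hd
    rw [hdz]
    exact Subgroup.mul_mem _ (Subgroup.mem_sup_left hd)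
      (Subgroup.mem_sup_right (Subgroup.subset_closure ⟨(i, i), hmemS i i hi le_rfl, rfl⟩))
  have hE : ∀ k, k ≤ b → Nat.card (Sp h k ⊔ Z1 : Subgroup H) ≤ p ^ k * Nat.card Z1 := by
    intro k
    induction k with
    | zero =>
      intro _
      rw [Sp_zero, bot_sup_eq, pow_zero, one_mul]
    | succ k ih =>
      intro hk
      have ihk := ih (by omega)
      have h1 := card_closure_sup_le (p := p) hp.pos (Sp h k ⊔ Z1) h {k}
        (by
          intro i hi
          rw [Finset.mem_singleton] at hi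
          subst hi
          have hle : Sp h i ⊔ Z1 ≤ (Sp h i ⊔ Z1).comap (MulAut.conj (h i)).toMonoidHom := by
            refine sup_le ?_ ?_
            · unfold Sp
              rw [Subgroup.closure_le]
              rintro _ ⟨j, hj, rfl⟩
              change h i * h j * (h i)⁻¹ ∈ Sp h i ⊔ Z1
              have h2 : h i * h j * (h i)⁻¹ = ⁅h i, h j⁆ * h j := by
                rw [commutatorElement_def]; group
              rw [h2]
              exact Subgroup.mul_mem _ (hcomm i j (by omega) hj)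
                (Subgroup.mem_sup_left (mem_Sp_of_lt h hj))
            · intro z hz
              change h i * z * (h i)⁻¹ ∈ Sp h i ⊔ Z1
              rw [hZc z (hZ1Z hz), mul_inv_cancel_right]
              exact Subgroup.mem_sup_right hz
          intro x hx
          exact hle hx)
        (by
          intro i hi
          rw [Finset.mem_singleton] at hi
          subst hi
          exact hpow i (by omega))
        (by
          intro i hi j hj
          rw [Finset.mem_singleton] at hi hj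
          subst hi
          subst hj
          rw [commutatorElement_self]
          exact Subgroup.one_mem _)
      rw [Finset.coe_singleton, Set.image_singleton, Finset.card_singleton, pow_one,
        ← sup_assoc, ← Sp_succ] at h1
      calc Nat.card (Sp h (k + 1) ⊔ Z1 : Subgroup H) ≤ p * Nat.card (Sp h k ⊔ Z1 : Subgroup H) := h1
        _ ≤ p * (p ^ k * Nat.card Z1) := Nat.mul_le_mul_left _ ihk
        _ = p ^ (k + 1) * Nat.card Z1 := by rw [pow_succ]; ring
  have hdec : ∀ x : H, ∃ e ∈ Sp h b, ∃ z ∈ Z, x = e * z := by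
    intro x
    have hx : x ∈ Sp h b ⊔ Z := by rw [htop]; exact Subgroup.mem_top x
    obtain ⟨d, hd, z, hz, hdz⟩ := Subgroup.mem_sup_of_normal_right.1 hx
    exact ⟨d, hd, z, hz, hdz.symm⟩
  have hPC : PC p (⊤ : Subgroup H) ⊤ ≤ Sp h b ⊔ Z1 := by
    unfold PC
    rw [Subgroup.closure_le]
    rintro x (⟨a, -, c, -, rfl⟩ | ⟨a, -, rfl⟩)
    · obtain ⟨e, he, z, hz, rfl⟩ := hdec a
      obtain ⟨e', he', z', hz', rfl⟩ := hdec c
      have h1 : ⁅e * z, e' * z'⁆ = ⁅e, e'⁆ := by
        rw [commutatorElement_def, commutatorElement_def, mul_inv_rev, mul_inv_rev]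
        have hz1' : ∀ g, g * z⁻¹ = z⁻¹ * g := hZc _ (Z.inv_mem hz)
        have hz2' : ∀ g, g * z'⁻¹ = z'⁻¹ * g := hZc _ (Z.inv_mem hz')
        calc e * z * (e' * z') * (z⁻¹ * e⁻¹) * (z'⁻¹ * e'⁻¹)
            = e * z * (e' * z') * (z⁻¹ * e⁻¹) * z'⁻¹ * e'⁻¹ := by group
          _ = z'⁻¹ * (e * z * (e' * z') * (z⁻¹ * e⁻¹)) * e'⁻¹ := by rw [hz2']
          _ = z'⁻¹ * ((e * z * (e' * z') * z⁻¹) * e⁻¹) * e'⁻¹ := by group
          _ = z'⁻¹ * ((z⁻¹ * (e * z * (e' * z'))) * e⁻¹) * e'⁻¹ := by rw [hz1']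
          _ = z'⁻¹ * ((z⁻¹ * ((e * z) * e' * z')) * e⁻¹) * e'⁻¹ := by group
          _ = z'⁻¹ * ((z⁻¹ * ((z * e) * e' * z')) * e⁻¹) * e'⁻¹ := by rw [hZc z hz e]
          _ = z'⁻¹ * ((e * e') * z') * e⁻¹ * e'⁻¹ := by group
          _ = z'⁻¹ * (z' * (e * e')) * e⁻¹ * e'⁻¹ := by rw [hZc z' hz']
          _ = e * e' * e⁻¹ * e'⁻¹ := by group
      rw [SetLike.mem_coe, h1, commutatorElement_def]
      exact Subgroup.mem_sup_left (Subgroup.mul_mem _ (Subgroup.mul_mem _
        (Subgroup.mul_mem _ he he') (Subgroup.inv_mem _ he)) (Subgroup.inv_mem _ he'))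
    · obtain ⟨e, he, z, hz, rfl⟩ := hdec a
      have h1 : (e * z) ^ p = e ^ p := by
        have hcm : Commute e z := hZc z hz e
        rw [hcm.mul_pow, hZp z hz, mul_one]
      rw [SetLike.mem_coe, h1]
      exact Subgroup.mem_sup_left (Subgroup.pow_mem _ he p)
  calc Nat.card (PC p (⊤ : Subgroup H) ⊤) ≤ Nat.card (Sp h b ⊔ Z1 : Subgroup H) := card_mono hPC
    _ ≤ p ^ b * Nat.card Z1 := hE b le_rfl
    _ ≤ p ^ 6 * p ^ 21 := Nat.mul_le_mul (Nat.pow_le_pow_right hp.pos hb) hcZ1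
    _ = p ^ 27 := by rw [← pow_add]

theorem PC_le_self {G : Type*} [Group G] (p : ℕ) (H : Subgroup G) : PC p H H ≤ H := by
  unfold PC
  rw [Subgroup.closure_le]
  rintro x (⟨a, ha, c, hc, rfl⟩ | ⟨a, ha, rfl⟩)
  · rw [SetLike.mem_coe, commutatorElement_def]
    exact Subgroup.mul_mem _ (Subgroup.mul_mem _
        (Subgroup.mul_mem _ ha hc) (Subgroup.inv_mem _ ha)) (Subgroup.inv_mem _ hc)
  · exact Subgroup.pow_mem _ ha p

theorem card_PC_eq {G : Type*} [Group G] [Finite G] (p : ℕ) (H : Subgroup G) :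
    Nat.card (PC p H H) ≤ Nat.card (PC p (⊤ : Subgroup H) ⊤) := by
  have h1 : PC p H H ≤ (PC p (⊤ : Subgroup H) ⊤).map H.subtype := by
    conv_lhs => unfold PC
    rw [Subgroup.closure_le]
    rintro x (⟨a, ha, c, hc, rfl⟩ | ⟨a, ha, rfl⟩)
    · exact ⟨⁅(⟨a, ha⟩ : H), ⟨c, hc⟩⁆,
        Subgroup.subset_closure (Or.inl ⟨⟨a, ha⟩, Subgroup.mem_top _, ⟨c, hc⟩,
          Subgroup.mem_top _, rfl⟩), rfl⟩
    · exact ⟨(⟨a, ha⟩ : H) ^ p,
        Subgroup.subset_closure (Or.inr ⟨⟨a, ha⟩, Subgroup.mem_top _, rfl⟩), rfl⟩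
  refine (card_mono h1).trans ?_
  exact (Nat.card_congr (Subgroup.equivMapOfInjective (PC p (⊤ : Subgroup H) ⊤) H.subtype
    H.subtype_injective).toEquiv).symm.le

end J_card_PC_le

/-- TARGET -/
theorem card_PC_le {p : ℕ} [Fact p.Prime] (G : Type) [Group G] [Finite G] (hG : IsPGroup p G)
    (h : Nat.card (FrP p G) ≤ p ^ 2 * Nat.card (K1 p G)) (Y : Finset G) (hY : Y.card ≤ 4) :
    Nat.card (PC p (Subgroup.closure (Y : Set G)) (Subgroup.closure (Y : Set G))) ≤ p ^ 27 := by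
  have hp : p.Prime := Fact.out
  set H : Subgroup G := Subgroup.closure (Y : Set G) with hHdef
  have hYH : ∀ y ∈ Y, y ∈ H := fun y hy => Subgroup.subset_closure hy
  have hPH : PC p H H ≤ H := J_card_PC_le.PC_le_self p H
  have hPF : PC p H H ≤ FrP p G := by
    unfold FrP PC
    apply Subgroup.closure_mono
    rintro x (⟨a, ha, c, hc, rfl⟩ | ⟨a, ha, rfl⟩)
    · exact Or.inl ⟨a, Subgroup.mem_top _, c, Subgroup.mem_top _, rfl⟩
    · exact Or.inr ⟨a, Subgroup.mem_top _, rfl⟩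
  have hKF : K1 p G ≤ FrP p G := fun x hx => hx.1
  have hcP : ∀ a ∈ H, ∀ c ∈ H, ⁅a, c⁆ ∈ PC p H H := fun a ha c hc =>
    Subgroup.subset_closure (Or.inl ⟨a, ha, c, hc, rfl⟩)
  have hpP : ∀ a ∈ H, a ^ p ∈ PC p H H := fun a ha =>
    Subgroup.subset_closure (Or.inr ⟨a, ha, rfl⟩)
  have h1 : Nat.card H ≤ p ^ 4 * Nat.card (PC p H H) := by
    have h2 := card_closure_sup_le (p := p) hp.pos (PC p H H) (fun y : G => y) Y
      (by
        intro y hy x hx
        have h3 : y * x * y⁻¹ = ⁅y, x⁆ * x := by rw [commutatorElement_def]; group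
        rw [h3]
        exact Subgroup.mul_mem _ (hcP y (hYH y hy) x (hPH hx)) hx)
      (fun y hy => hpP y (hYH y hy))
      (fun y hy y' hy' => hcP y (hYH y hy) y' (hYH y' hy'))
    rw [Set.image_id'] at h2
    calc Nat.card H ≤ Nat.card (H ⊔ PC p H H : Subgroup G) := J_card_PC_le.card_mono le_sup_left
      _ ≤ p ^ Y.card * Nat.card (PC p H H) := h2
      _ ≤ p ^ 4 * Nat.card (PC p H H) :=
        Nat.mul_le_mul_right _ (Nat.pow_le_pow_right hp.pos hY)
  have h2 : Nat.card (PC p H H) ≤ p ^ 2 * Nat.card (PC p H H ⊓ K1 p G : Subgroup G) := by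
    rw [J_card_PC_le.le_iff]
    have h3 : (K1 p G).relIndex (FrP p G) ≤ p ^ 2 := by
      rw [← J_card_PC_le.le_iff, inf_eq_right.2 hKF]
      exact h
    exact (Subgroup.relIndex_le_of_le_right hPF (J_card_PC_le.relIndex_pos _ _)).trans h3
  have h3 : Nat.card (PC p H H ⊓ K1 p G : Subgroup G) ≤ Nat.card ((K1 p G).subgroupOf H) := by
    refine Nat.card_le_card_of_injective
      (fun x : (PC p H H ⊓ K1 p G : Subgroup G) =>
        (⟨⟨x.1, hPH x.2.1⟩, x.2.2⟩ : (K1 p G).subgroupOf H)) ?_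
    intro x y hxy
    have h4 := congrArg (fun z : (K1 p G).subgroupOf H => ((z : H) : G)) hxy
    exact Subtype.ext h4
  have h4 : Nat.card H ≤ p ^ 6 * Nat.card ((K1 p G).subgroupOf H) := by
    calc Nat.card H ≤ p ^ 4 * Nat.card (PC p H H) := h1
      _ ≤ p ^ 4 * (p ^ 2 * Nat.card ((K1 p G).subgroupOf H)) :=
        Nat.mul_le_mul_left _ (h2.trans (Nat.mul_le_mul_left _ h3))
      _ = p ^ 6 * Nat.card ((K1 p G).subgroupOf H) := by ring
  refine (J_card_PC_le.card_PC_eq p H).trans ?_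
  refine J_card_PC_le.lemB (hG.to_subgroup H) ((K1 p G).subgroupOf H) ?_ ?_ h4
  · intro z hz g
    have hz' : (z : G) ∈ K1 p G := Subgroup.mem_subgroupOf.1 hz
    apply Subtype.ext
    exact Subgroup.mem_center_iff.1 hz'.2.1 (g : G)
  · intro z hz
    have hz' : (z : G) ∈ K1 p G := Subgroup.mem_subgroupOf.1 hz
    apply Subtype.ext
    exact hz'.2.2

end Pool.Agent.Helper252_Enum
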