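import Pool.Agent.Helper252_Enum.R14_exists_small_H
import Pool.Agent.Helper252_Enum.R15_TT_le_of
import Pool.Agent.Helper252_Enum.R16_card_PC_le

set_option autoImplicit false

open scoped commutatorElement

namespace Pool.Agent.Helper252_Enum

/-
PROOF OF THE TARGET.
Immediate: exists_small_H gives Y, TT_le_of with H = closure Y gives TT <= PC p H H and card_PC_le bounds it (Subgroup.card_le_of_le / Nat.card_le_card_of_injective; everything finite).
-/

/-- TARGET -/
theorem card_TT_le {p : ℕ} [Fact p.Prime] (G : Type) [Group G] [Finite G] (hG : IsPGroup p G)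
    (h : Nat.card (FrP p G) ≤ p ^ 2 * Nat.card (K1 p G)) : Nat.card (TT p G) ≤ p ^ 27 := by
  obtain ⟨Y, hY, hF⟩ := exists_small_H G hG h
  have h1 := TT_le_of G (Subgroup.closure (Y : Set G)) hF
  have h2 := card_PC_le G hG h Y hY
  refine le_trans ?_ h2
  exact Nat.card_le_card_of_injective (Subgroup.inclusion h1) (Subgroup.inclusion_injective h1)


end Pool.Agent.Helper252_Enum
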