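import Pool.Agent.Helper252_Enum.P5_card_closure
import Pool.Agent.Helper252_Enum.Defs2

set_option autoImplicit false

open scoped commutatorElement

namespace Pool.Agent.Helper252_Enum

/-
PROOF OF THE TARGET.
(See ChainFacts.lean and Iso.lean on origin/main under Pool/Agent/Helper252_Enum: existence and uniqueness of normal forms nf f a k for a Chain, dig_spec and so on are proved there; copy what you need.) In G × G' put e k = (f k, f' k), E_k = Sp e k. Claim: |E_k| = p^k for k <= n and every e l (l < n) normalises E_k. nf e a k = (nf f a k, nf f' a k).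
If two elements h ∈ Sp f n, h' ∈ Sp f' n have the same digits then (h,h') = nf e a n; since h = f k ^ p lies in Sp f k (order p^(k+1) for Sp f (k+1), central series) its digits vanish for j >= k, so (f k ^ p, f' k ^ p) = nf e a k ∈ E_k by h1. Similarly (⁅f k, f l⁆, ⁅f' k, f' l⁆) ∈ E_k for k < l < n by h2 (Chain.central puts ⁅f k, f l⁆ in Sp f k).
Normalisation: for j < k and l >= j: ⁅e j, e l⁆ ∈ E_j ≤ E_k; for l < k the element e l is itself in E_k. So every e l normalises E_k (E_k is generated by e j, j<k, and e l e j e l⁻¹ = ⁅e l, e j⁆ e j). Then |E_(k+1)| <= p |E_k| (card_closure_sup_le with a single element), so |E_n| <= p^n, and the first projection maps E_n onto Sp f n = G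
(|Sp f n| = p^n = |G|), so it is bijective; the same for the second. So E_n is the graph of an isomorphism φ with φ (f k) = f' k.
-/

namespace J_iso_of_law


section
variable {G : Type*} [Group G]

theorem Sp_mono (f : ℕ → G) {j k : ℕ} (h : j ≤ k) : Sp f j ≤ Sp f k :=
  Subgroup.closure_mono (Set.image_mono (Set.Iio_subset_Iio h))

theorem mem_Sp_of_lt (f : ℕ → G) {j k : ℕ} (h : j < k) : f j ∈ Sp f k :=
  Subgroup.subset_closure ⟨j, h, rfl⟩

theorem Sp_zero (f : ℕ → G) : Sp f 0 = ⊥ := by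
  simp [Sp]

theorem Sp_succ (f : ℕ → G) (k : ℕ) : Sp f (k + 1) = Subgroup.closure {f k} ⊔ Sp f k := by
  unfold Sp
  rw [← Subgroup.closure_union]
  congr 1
  ext y
  simp only [Set.mem_image, Set.mem_Iio, Set.mem_union, Set.mem_singleton_iff]
  constructor
  · rintro ⟨j, hj, rfl⟩
    rcases Nat.lt_succ_iff_lt_or_eq.mp hj with h | h
    · exact Or.inr ⟨j, h, rfl⟩
    · left; rw [h]
  · rintro (h | ⟨j, hj, rfl⟩)
    · exact ⟨k, Nat.lt_succ_self k, h.symm⟩
    · exact ⟨j, Nat.lt_succ_of_lt hj, rfl⟩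

theorem nf_mem (f : ℕ → G) (a : ℕ → ℕ) (k : ℕ) : nf f a k ∈ Sp f k := by
  induction k with
  | zero => exact Subgroup.one_mem _
  | succ k ih =>
    exact Subgroup.mul_mem _ (Subgroup.pow_mem _ (mem_Sp_of_lt f (Nat.lt_succ_self k)) _)
      (Sp_mono f (Nat.le_succ k) ih)

theorem nf_congr (f : ℕ → G) (a b : ℕ → ℕ) (k : ℕ) (h : ∀ j, j < k → a j = b j) :
    nf f a k = nf f b k := by
  induction k with
  | zero => rfl
  | succ k ih =>
    simp only [nf]
    rw [h k (Nat.lt_succ_self k), ih (fun j hj => h j (Nat.lt_succ_of_lt hj))]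

theorem nf_eq_of_zero (f : ℕ → G) (a : ℕ → ℕ) {k r : ℕ} (hkr : k ≤ r)
    (h : ∀ j, k ≤ j → j < r → a j = 0) : nf f a r = nf f a k := by
  induction r, hkr using Nat.le_induction with
  | base => rfl
  | succ r hr ih =>
    simp only [nf]
    rw [h r hr (Nat.lt_succ_self r), pow_zero, one_mul]
    exact ih (fun j h1 h2 => h j h1 (Nat.lt_succ_of_lt h2))

theorem nf_pair {G' : Type*} [Group G'] (f : ℕ → G) (f' : ℕ → G') (a : ℕ → ℕ) (k : ℕ) :
    nf (fun i => (f i, f' i)) a k = (nf f a k, nf f' a k) := by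
  induction k with
  | zero => rfl
  | succ k ih => simp only [nf, ih]; rfl

end

section chainsec

variable {G : Type*} [Group G] {p r : ℕ} {f : ℕ → G}

theorem chain_normal (hf : Chain p r f) {k : ℕ} (hk : k ≤ r) : (Sp f k).Normal := by
  constructor
  intro n hn g
  induction hn using Subgroup.closure_induction with
  | mem x hx =>
    obtain ⟨j, hj, rfl⟩ := hx
    have h1 : ⁅f j, g⁆ ∈ Sp f k := Sp_mono f (le_of_lt hj) (hf.central j (lt_of_lt_of_le hj hk) g)
    have h2 : g * f j * g⁻¹ = ⁅f j, g⁆⁻¹ * f j := by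
      rw [commutatorElement_def]; group
    rw [h2]
    exact Subgroup.mul_mem _ (Subgroup.inv_mem _ h1) (mem_Sp_of_lt f hj)
  | one => simp
  | mul x y _ _ hx hy =>
    have : g * (x * y) * g⁻¹ = (g * x * g⁻¹) * (g * y * g⁻¹) := by group
    rw [this]; exact Subgroup.mul_mem _ hx hy
  | inv x _ hx =>
    have : g * x⁻¹ * g⁻¹ = (g * x * g⁻¹)⁻¹ := by group
    rw [this]; exact Subgroup.inv_mem _ hx

theorem chain_not_mem (hf : Chain p r f) (hp : p.Prime) {k : ℕ} (hk : k < r) : f k ∉ Sp f k := by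
  intro h
  have h1 : Sp f (k + 1) = Sp f k := by
    rw [Sp_succ, sup_eq_right, Subgroup.closure_le]
    simpa using h
  have h2 := hf.card (k + 1) hk
  rw [h1, hf.card k hk.le] at h2
  have := Nat.pow_right_injective hp.two_le h2
  omega

theorem chain_pow_mem (hf : Chain p r f) (hp : p.Prime) {k : ℕ} (hk : k < r) : f k ^ p ∈ Sp f k := by
  have hn := (chain_normal hf) hk.le
  have hle : Sp f k ≤ Sp f (k + 1) := Sp_mono f (Nat.le_succ k)
  have hidx : (Sp f k).relIndex (Sp f (k + 1)) = p := by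
    have h1 := Subgroup.card_mul_index ((Sp f k).subgroupOf (Sp f (k + 1)))
    have h2 : Nat.card ((Sp f k).subgroupOf (Sp f (k + 1))) = p ^ k := by
      rw [← hf.card k hk.le]
      exact Nat.card_congr (Subgroup.subgroupOfEquivOfLe hle).toEquiv
    rw [h2, hf.card (k + 1) hk, pow_succ] at h1
    exact Nat.eq_of_mul_eq_mul_left (pow_pos hp.pos k) h1
  have h3 := Subgroup.pow_index_mem ((Sp f k).subgroupOf (Sp f (k + 1)))
    ⟨f k, mem_Sp_of_lt f (Nat.lt_succ_self k)⟩
  have h4 : ((Sp f k).subgroupOf (Sp f (k + 1))).index = p := hidx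
  rw [h4] at h3
  simpa [Subgroup.mem_subgroupOf] using h3

theorem chain_pow_mem_iff (hf : Chain p r f) (hp : p.Prime) {k : ℕ} (hk : k < r) (z : ℤ) :
    f k ^ z ∈ Sp f k ↔ (p : ℤ) ∣ z := by
  constructor
  · intro h
    by_contra hd
    have hcop : IsCoprime (p : ℤ) z := by
      rw [Int.isCoprime_iff_gcd_eq_one]
      have : Int.gcd p z = Nat.gcd p z.natAbs := by simp [Int.gcd]
      rw [this]
      refine (Nat.Prime.coprime_iff_not_dvd hp).mpr ?_
      intro h2
      exact hd (Int.natCast_dvd.mpr h2)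
    obtain ⟨u, v, huv⟩ := hcop
    apply (chain_not_mem hf) hp hk
    have h1 : f k = (f k ^ (p : ℤ)) ^ u * (f k ^ z) ^ v := by
      rw [← zpow_mul, ← zpow_mul, ← zpow_add]
      have : (p : ℤ) * u + z * v = 1 := by linarith [huv, mul_comm u (p : ℤ), mul_comm v z]
      rw [this, zpow_one]
    rw [h1]
    refine Subgroup.mul_mem _ (Subgroup.zpow_mem _ ?_ _) (Subgroup.zpow_mem _ h _)
    rw [zpow_natCast]
    exact (chain_pow_mem hf) hp hk
  · rintro ⟨c, rfl⟩
    rw [zpow_mul, zpow_natCast]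
    exact Subgroup.zpow_mem _ ((chain_pow_mem hf) hp hk) _

theorem chain_exists_nf (hf : Chain p r f) (hp : p.Prime) {k : ℕ} (hk : k ≤ r) {h : G}
    (hh : h ∈ Sp f k) :
    ∃ a : ℕ → ℕ, (∀ j, a j < p) ∧ (∀ j, k ≤ j → a j = 0) ∧ h = nf f a k := by
  induction k generalizing h with
  | zero =>
    refine ⟨fun _ => 0, fun _ => hp.pos, fun _ _ => rfl, ?_⟩
    rw [Sp_zero, Subgroup.mem_bot] at hh
    rw [hh]; rfl
  | succ k ih =>
    have hkr : k < r := hk
    have hn := (chain_normal hf) hkr.le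
    rw [Sp_succ] at hh
    rw [← SetLike.mem_coe, Subgroup.mul_normal] at hh
    obtain ⟨u, hu, v, hv, rfl⟩ := Set.mem_mul.mp hh
    rw [SetLike.mem_coe, Subgroup.mem_closure_singleton] at hu
    obtain ⟨z, rfl⟩ := hu
    have hp0 : (p : ℤ) ≠ 0 := by exact_mod_cast hp.ne_zero
    have h1 : f k ^ z = f k ^ (z % p).toNat * (f k ^ ((p : ℤ) * (z / p))) := by
      have h2 : (((z % p).toNat : ℕ) : ℤ) = z % p := Int.toNat_of_nonneg (Int.emod_nonneg z hp0)
      rw [← zpow_natCast, h2, ← zpow_add]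
      congr 1
      have := Int.emod_add_mul_ediv z p
      linarith
    have h3 : f k ^ ((p : ℤ) * (z / p)) * v ∈ Sp f k :=
      Subgroup.mul_mem _ (((chain_pow_mem_iff hf) hp hkr _).mpr (dvd_mul_right _ _)) hv
    obtain ⟨a, ha1, ha2, ha3⟩ := ih hkr.le h3
    refine ⟨fun j => if j = k then (z % p).toNat else a j, ?_, ?_, ?_⟩
    · intro j
      by_cases hj : j = k
      · simp only [hj, if_true]
        have h5 := Int.emod_lt_of_pos z (by exact_mod_cast hp.pos : (0 : ℤ) < p)
        have h6 := Int.emod_nonneg z hp0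
        omega
      · simp only [hj, if_false]; exact ha1 j
    · intro j hj
      have : j ≠ k := by omega
      simp only [this, if_false]
      exact ha2 j (by omega)
    · simp only [nf, if_true]
      rw [h1, mul_assoc, ha3]
      congr 1
      apply nf_congr
      intro j hj
      have : j ≠ k := by omega
      simp [this]

/-- Normal forms agree above `k` iff they agree modulo `Sp f k`. -/
theorem chain_nf_coset (hf : Chain p r f) (hp : p.Prime) (a b : ℕ → ℕ) (ha : ∀ j, a j < p)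
    (hb : ∀ j, b j < p) {k t : ℕ} (hkt : k ≤ t) (ht : t ≤ r) :
    (nf f a t)⁻¹ * nf f b t ∈ Sp f k ↔ ∀ j, k ≤ j → j < t → a j = b j := by
  induction t, hkt using Nat.le_induction with
  | base =>
    constructor
    · intro _ j h1 h2; omega
    · intro _
      exact Subgroup.mul_mem _ (Subgroup.inv_mem _ (nf_mem f a k)) (nf_mem f b k)
  | succ t hkt ih =>
    have htr : t < r := ht
    have key : (nf f a (t + 1))⁻¹ * nf f b (t + 1) =
        (nf f a t)⁻¹ * (f t ^ ((b t : ℤ) - a t)) * nf f b t := by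
      simp only [nf]
      rw [zpow_sub, zpow_natCast, zpow_natCast]
      have hc : f t ^ b t * (f t ^ a t)⁻¹ = (f t ^ a t)⁻¹ * f t ^ b t := by
        have : Commute (f t ^ b t) ((f t ^ a t)⁻¹) :=
          ((Commute.refl (f t)).pow_pow (b t) (a t)).inv_right
        exact this.eq
      rw [hc]; group
    have hstep : (nf f a (t + 1))⁻¹ * nf f b (t + 1) ∈ Sp f k → a t = b t := by
      intro h
      rw [key] at h
      have h1 : (f t ^ ((b t : ℤ) - a t)) ∈ Sp f t := by
        have h2 := Subgroup.mul_mem _ (Subgroup.mul_mem _ (nf_mem f a t) (Sp_mono f hkt h))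
          (Subgroup.inv_mem _ (nf_mem f b t))
        have h3 : nf f a t * ((nf f a t)⁻¹ * (f t ^ ((b t : ℤ) - a t)) * nf f b t) *
            (nf f b t)⁻¹ = f t ^ ((b t : ℤ) - a t) := by group
        rwa [h3] at h2
      rw [(chain_pow_mem_iff hf) hp htr] at h1
      have h4 := ha t
      have h5 := hb t
      obtain ⟨c, hc⟩ := h1
      have h6 : c = 0 := by
        by_contra h7
        rcases lt_or_gt_of_ne h7 with h8 | h8
        · have : (p : ℤ) * c ≤ p * (-1) := mul_le_mul_of_nonneg_left (by omega) (by omega)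
          omega
        · have : (p : ℤ) * 1 ≤ p * c := mul_le_mul_of_nonneg_left (by omega) (by omega)
          omega
      rw [h6] at hc
      omega
    constructor
    · intro h j h1 h2
      have hab := hstep h
      rcases Nat.lt_succ_iff_lt_or_eq.mp h2 with h3 | h3
      · refine (ih htr.le).mp ?_ j h1 h3
        rw [key, hab] at h
        simpa using h
      · rw [h3]; exact hab
    · intro h
      rw [key, h t hkt (Nat.lt_succ_self t)]
      simp only [sub_self, zpow_zero, mul_one]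
      exact (ih htr.le).mpr (fun j h1 h2 => h j h1 (Nat.lt_succ_of_lt h2))

theorem chain_dig_spec (hf : Chain p r f) (hp : p.Prime) {h : G} (hh : h ∈ Sp f r) :
    (∀ j, dig p r f h j < p) ∧ (∀ j, r ≤ j → dig p r f h j = 0) ∧ h = nf f (dig p r f h) r := by
  have H : ∃ a : ℕ → ℕ, (∀ j, a j < p) ∧ (∀ j, r ≤ j → a j = 0) ∧ h = nf f a r :=
    (chain_exists_nf hf) hp le_rfl hh
  unfold dig
  rw [dif_pos H]
  exact Classical.choose_spec H

theorem chain_dig_nf (hf : Chain p r f) (hp : p.Prime) (a : ℕ → ℕ) (ha : ∀ j, a j < p) (j : ℕ)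
    (hj : j < r) : dig p r f (nf f a r) j = a j := by
  obtain ⟨h1, h2, h3⟩ := (chain_dig_spec hf) hp (nf_mem f a r)
  have h4 := ((chain_nf_coset hf) hp a (dig p r f (nf f a r)) ha h1 (Nat.zero_le r) le_rfl).mp
    (by rw [← h3]; simp)
  exact (h4 j (Nat.zero_le j) hj).symm

theorem chain_mem_Sp_iff (hf : Chain p r f) (hp : p.Prime) {h : G} (hh : h ∈ Sp f r) {k : ℕ}
    (hk : k ≤ r) : h ∈ Sp f k ↔ ∀ j, k ≤ j → dig p r f h j = 0 := by
  obtain ⟨h1, h2, h3⟩ := (chain_dig_spec hf) hp hh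
  constructor
  · intro hm
    have h4 := ((chain_nf_coset hf) hp (fun _ => 0) (dig p r f h) (fun _ => hp.pos) h1 hk le_rfl).mp (by
      rw [← h3]
      refine Subgroup.mul_mem _ (Subgroup.inv_mem _ ?_) hm
      rw [nf_eq_of_zero f (fun _ => 0) (Nat.zero_le r) (fun _ _ _ => rfl)]
      exact Subgroup.one_mem _)
    intro j hj
    rcases lt_or_ge j r with h5 | h5
    · exact (h4 j hj h5).symm
    · exact h2 j h5
  · intro hz
    rw [h3, nf_eq_of_zero f _ hk (fun j h4 _ => hz j h4)]
    exact nf_mem f _ k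

theorem chain_pair_mem {G' : Type*} [Group G'] {f' : ℕ → G'} (hf : Chain p r f) (hf' : Chain p r f')
    (hp : p.Prime) {h : G} {h' : G'} {k : ℕ} (hk : k ≤ r) (hh : h ∈ Sp f k) (hh' : h' ∈ Sp f' k)
    (heq : ∀ j, j < k → dig p r f h j = dig p r f' h' j) :
    (h, h') ∈ Sp (fun i => (f i, f' i)) k := by
  have a1 := (chain_dig_spec hf) hp (Sp_mono f hk hh)
  have a2 := (chain_dig_spec hf') hp (Sp_mono f' hk hh')
  have b1 := ((chain_mem_Sp_iff hf) hp (Sp_mono f hk hh) hk).mp hh
  have b2 := ((chain_mem_Sp_iff hf') hp (Sp_mono f' hk hh') hk).mp hh'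
  have e1 : h = nf f (dig p r f h) k := by
    conv_lhs => rw [a1.2.2]
    exact nf_eq_of_zero f _ hk (fun j h4 _ => b1 j h4)
  have e2 : h' = nf f' (dig p r f h) k := by
    conv_lhs => rw [a2.2.2]
    rw [nf_eq_of_zero f' _ hk (fun j h4 _ => b2 j h4)]
    exact nf_congr f' _ _ k (fun j hj => (heq j hj).symm)
  have : (h, h') = nf (fun i => (f i, f' i)) (dig p r f h) k := by
    rw [nf_pair, ← e1, ← e2]
  rw [this]
  exact nf_mem _ _ k


end chainsec

section mainsec
variable {p n : ℕ} {G G' : Type} [Group G] [Group G'] {f : ℕ → G} {f' : ℕ → G'}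

theorem e_pow (hp : p.Prime) (hf : Chain p n f) (hf' : Chain p n f')
    (h1 : ∀ k, k < n → dig p n f (f k ^ p) = dig p n f' (f' k ^ p)) {k : ℕ} (hk : k < n) :
    ((f k, f' k) : G × G') ^ p ∈ Sp (fun i => (f i, f' i)) k := by
  have h2 := chain_pair_mem hf hf' hp hk.le (chain_pow_mem hf hp hk) (chain_pow_mem hf' hp hk)
    (fun j _ => congrFun (h1 k hk) j)
  exact h2

theorem e_comm (hp : p.Prime) (hf : Chain p n f) (hf' : Chain p n f')
    (h2 : ∀ k l, k < l → l < n → dig p n f ⁅f k, f l⁆ = dig p n f' ⁅f' k, f' l⁆)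
    {k l : ℕ} (hkl : k < l) (hl : l < n) :
    ⁅((f k, f' k) : G × G'), (f l, f' l)⁆ ∈ Sp (fun i => (f i, f' i)) k := by
  have h3 := chain_pair_mem hf hf' hp (hkl.trans hl).le (hf.central k (hkl.trans hl) (f l))
    (hf'.central k (hkl.trans hl) (f' l)) (fun j _ => congrFun (h2 k l hkl hl) j)
  exact h3

theorem e_norm (hp : p.Prime) (hf : Chain p n f) (hf' : Chain p n f')
    (h2 : ∀ k l, k < l → l < n → dig p n f ⁅f k, f l⁆ = dig p n f' ⁅f' k, f' l⁆)
    {k l : ℕ} (hk : k ≤ n) (hl : l < n) (y : G × G') (hy : y ∈ Sp (fun i => (f i, f' i)) k) :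
    ((f l, f' l) : G × G') * y * (f l, f' l)⁻¹ ∈ Sp (fun i => (f i, f' i)) k := by
  set e : ℕ → G × G' := fun i => (f i, f' i) with he
  change e l * y * (e l)⁻¹ ∈ Sp e k
  refine Subgroup.closure_induction (p := fun y _ => e l * y * (e l)⁻¹ ∈ Sp e k) ?_ ?_ ?_ ?_ hy
  · rintro _ ⟨j, hj, rfl⟩
    have hj' : j < k := hj
    rcases lt_trichotomy j l with h | h | h
    · have h3 : ⁅e j, e l⁆ ∈ Sp e j := e_comm hp hf hf' h2 h hl
      have h4 : e l * e j * (e l)⁻¹ = ⁅e j, e l⁆⁻¹ * e j := by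
        rw [commutatorElement_def]; group
      rw [h4]
      exact Subgroup.mul_mem _ (Subgroup.inv_mem _ (Sp_mono e hj'.le h3)) (mem_Sp_of_lt e hj')
    · rw [h]
      rw [h] at hj'
      simpa using mem_Sp_of_lt e hj'
    · have h5 : e l ∈ Sp e k := mem_Sp_of_lt e (h.trans hj')
      exact Subgroup.mul_mem _ (Subgroup.mul_mem _ h5 (mem_Sp_of_lt e hj')) (Subgroup.inv_mem _ h5)
  · simp
  · intro a b _ _ ha hb
    have : e l * (a * b) * (e l)⁻¹ = (e l * a * (e l)⁻¹) * (e l * b * (e l)⁻¹) := by group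
    rw [this]; exact Subgroup.mul_mem _ ha hb
  · intro a _ ha
    have : e l * a⁻¹ * (e l)⁻¹ = (e l * a * (e l)⁻¹)⁻¹ := by group
    rw [this]; exact Subgroup.inv_mem _ ha

theorem e_card [Finite G] [Finite G'] (hp : p.Prime) (hf : Chain p n f) (hf' : Chain p n f')
    (h1 : ∀ k, k < n → dig p n f (f k ^ p) = dig p n f' (f' k ^ p))
    (h2 : ∀ k l, k < l → l < n → dig p n f ⁅f k, f l⁆ = dig p n f' ⁅f' k, f' l⁆)
    (k : ℕ) (hk : k ≤ n) :
    Nat.card (Sp (fun i => ((f i, f' i) : G × G')) k) ≤ p ^ k := by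
  set e : ℕ → G × G' := fun i => (f i, f' i) with he
  induction k with
  | zero => rw [Sp_zero]; simp
  | succ k ih =>
    have hkn : k < n := hk
    have h3 := card_closure_sup_le hp.pos (Sp e k) (fun _ : Unit => e k) Finset.univ
      (fun _ _ y hy => e_norm hp hf hf' h2 hkn.le hkn y hy)
      (fun _ _ => e_pow hp hf hf' h1 hkn)
      (fun _ _ _ _ => by rw [commutatorElement_self]; exact Subgroup.one_mem _)
    have h4 : ((fun _ : Unit => e k) '' ((Finset.univ : Finset Unit) : Set Unit)) = {e k} := by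
      ext y; simp [eq_comm]
    rw [h4, ← Sp_succ] at h3
    refine h3.trans ?_
    rw [Finset.card_univ, Fintype.card_unit, pow_one, pow_succ, mul_comm]
    exact Nat.mul_le_mul_right _ (ih hkn.le)

theorem map_fst (k : ℕ) :
    (Sp (fun i => ((f i, f' i) : G × G')) k).map (MonoidHom.fst G G') = Sp f k := by
  rw [Sp, MonoidHom.map_closure, ← Set.image_comp]; rfl

theorem map_snd (k : ℕ) :
    (Sp (fun i => ((f i, f' i) : G × G')) k).map (MonoidHom.snd G G') = Sp f' k := by
  rw [Sp, MonoidHom.map_closure, ← Set.image_comp]; rfl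

end mainsec

end J_iso_of_law

/-- TARGET -/
theorem iso_of_law {p n : ℕ} [Fact p.Prime] {G G' : Type} [Group G] [Group G']
    (hG : Nat.card G = p ^ n) (hG' : Nat.card G' = p ^ n) (f : ℕ → G) (f' : ℕ → G')
    (hf : Chain p n f) (hf' : Chain p n f')
    (h1 : ∀ k, k < n → dig p n f (f k ^ p) = dig p n f' (f' k ^ p))
    (h2 : ∀ k l, k < l → l < n → dig p n f ⁅f k, f l⁆ = dig p n f' ⁅f' k, f' l⁆) :
    ∃ φ : G ≃* G', ∀ k, k < n → φ (f k) = f' k := by
  have hp : p.Prime := Fact.out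
  haveI : Finite G := Nat.finite_of_card_ne_zero (by rw [hG]; exact pow_ne_zero _ hp.ne_zero)
  haveI : Finite G' := Nat.finite_of_card_ne_zero (by rw [hG']; exact pow_ne_zero _ hp.ne_zero)
  set e : ℕ → G × G' := fun i => (f i, f' i) with he
  have hcard : Nat.card (Sp e n) ≤ p ^ n := J_iso_of_law.e_card hp hf hf' h1 h2 n le_rfl
  have htop : Sp f n = ⊤ := by
    apply Subgroup.eq_top_of_card_eq
    rw [hf.card n le_rfl, hG]
  have htop' : Sp f' n = ⊤ := by
    apply Subgroup.eq_top_of_card_eq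
    rw [hf'.card n le_rfl, hG']
  let φ : Sp e n →* G := (MonoidHom.fst G G').comp (Sp e n).subtype
  let ψ : Sp e n →* G' := (MonoidHom.snd G G').comp (Sp e n).subtype
  have hφs : Function.Surjective φ := by
    intro g
    have h3 : g ∈ (Sp e n).map (MonoidHom.fst G G') := by
      rw [J_iso_of_law.map_fst, htop]; trivial
    obtain ⟨z, hz, rfl⟩ := h3
    exact ⟨⟨z, hz⟩, rfl⟩
  have hψs : Function.Surjective ψ := by
    intro g
    have h3 : g ∈ (Sp e n).map (MonoidHom.snd G G') := by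
      rw [J_iso_of_law.map_snd, htop']; trivial
    obtain ⟨z, hz, rfl⟩ := h3
    exact ⟨⟨z, hz⟩, rfl⟩
  have hc1 : Nat.card (Sp e n) = Nat.card G := by
    apply le_antisymm (hcard.trans hG.ge)
    exact Nat.card_le_card_of_surjective _ hφs
  have hc2 : Nat.card (Sp e n) = Nat.card G' := by
    apply le_antisymm (hcard.trans hG'.ge)
    exact Nat.card_le_card_of_surjective _ hψs
  have hφ : Function.Bijective φ := (Nat.bijective_iff_surjective_and_card _).mpr ⟨hφs, hc1⟩
  have hψ : Function.Bijective ψ := (Nat.bijective_iff_surjective_and_card _).mpr ⟨hψs, hc2⟩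
  refine ⟨(MulEquiv.ofBijective φ hφ).symm.trans (MulEquiv.ofBijective ψ hψ), ?_⟩
  intro k hk
  have hek : e k ∈ Sp e n := J_iso_of_law.mem_Sp_of_lt e hk
  have h3 : (MulEquiv.ofBijective φ hφ).symm (f k) = ⟨e k, hek⟩ := by
    rw [MulEquiv.symm_apply_eq]; rfl
  rw [MulEquiv.trans_apply, h3]
  rfl

end Pool.Agent.Helper252_Enum
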