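import Pool.Agent.Helper252_Enum.R18_iso_of_law
import Pool.Agent.Helper252_Enum.P4_exists_series

set_option autoImplicit false

open scoped commutatorElement

namespace Pool.Agent.Helper252_Enum

/-
PROOF OF THE TARGET.
(ChainFacts.lean on origin/main under Pool/Agent/Helper252_Enum has the facts on Chain, nf, dig: existence and uniqueness of digits; copy what you need.) s <= n if α is nonempty (p^s divides p^n; α empty: the left side is 0 or trivial).
For each class x ∈ X in the image of t choose a0(x) with t (a0 x) = x, let Q_x = 𝒢 (a0 x) ⧸ T (a0 x), a group of order p^(n-s), and choose a Chain ḡ of Q_x: exists_series for A = ⊥, B = ⊤ and elements ḡ_k ∈ N (k+1) \ N k (Chain p (n-s) ḡ). For each a choose an isomorphism θ_a : 𝒢 a ⧸ T a ≃* Q_(t a) (by ht), lifts g_(s+k) ∈ 𝒢 a of θ_a⁻¹ ḡ_k for k < n-s, and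
g_0, ..., g_(s-1) ∈ T a from a series of 𝒢 a through T a (exists_series with A = ⊥.. B = T a: order p^s, normal) so that g is a Chain p n in 𝒢 a with Sp g s = T a (Sp g (s+k) is the preimage of θ_a⁻¹ (Sp ḡ k)).
Let code a : (t a, digits) where digits records, for j < s, dig (g k ^ p) j (k < n) and dig ⁅g k, g l⁆ j (k < l < n): a function from (Fin n ⊕ {(k,l) : k < l}) × Fin s to Fin p, which makes p^(s n(n+1)/2) possibilities. The digits at positions j >= s of g k ^ p and ⁅g k, g l⁆ (for k >= s) are the digits (shifted by s) of ḡ_(k-s)^p and ⁅ḡ_(k-s), ḡ_(l-s)⁆ in Q_(t a): apply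
θ_a ∘ quotient map to the normal form (the g_j with j < s die) and use uniqueness of the digits in Q. For k < s the elements g k ^ p and ⁅g k, g l⁆ are in T a and have all digits at positions >= s equal to 0. So code a = code b implies iso_of_law for 𝒢 a, 𝒢 b. Hence the map Quot → X × (digits) given by code of Quot.out is injective and the bound follows.
-/

namespace J_ext_count

section
variable {G : Type*} [Group G]

theorem Sp_mono (f : ℕ → G) {j k : ℕ} (h : j ≤ k) : Sp f j ≤ Sp f k :=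
  Subgroup.closure_mono (Set.image_mono (Set.Iio_subset_Iio h))

theorem mem_Sp_of_lt (f : ℕ → G) {j k : ℕ} (h : j < k) : f j ∈ Sp f k :=
  Subgroup.subset_closure ⟨j, h, rfl⟩

theorem Sp_zero (f : ℕ → G) : Sp f 0 = ⊥ := by
  simp [Sp]

theorem Sp_succ (f : ℕ → G) (k : ℕ) : Sp f (k + 1) = Subgroup.closure {f k} ⊔ Sp f k := by
  unfold Sp
  rw [← Subgroup.closure_union]
  congr 1
  ext y
  simp only [Set.mem_image, Set.mem_Iio, Set.mem_union, Set.mem_singleton_iff]
  constructor
  · rintro ⟨j, hj, rfl⟩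
    rcases Nat.lt_succ_iff_lt_or_eq.mp hj with h | h
    · exact Or.inr ⟨j, h, rfl⟩
    · left; rw [h]
  · rintro (h | ⟨j, hj, rfl⟩)
    · exact ⟨k, Nat.lt_succ_self k, h.symm⟩
    · exact ⟨j, Nat.lt_succ_of_lt hj, rfl⟩

theorem nf_mem (f : ℕ → G) (a : ℕ → ℕ) (k : ℕ) : nf f a k ∈ Sp f k := by
  induction k with
  | zero => exact Subgroup.one_mem _
  | succ k ih =>
    exact Subgroup.mul_mem _ (Subgroup.pow_mem _ (mem_Sp_of_lt f (Nat.lt_succ_self k)) _)
      (Sp_mono f (Nat.le_succ k) ih)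

theorem nf_congr (f : ℕ → G) (a b : ℕ → ℕ) (k : ℕ) (h : ∀ j, j < k → a j = b j) :
    nf f a k = nf f b k := by
  induction k with
  | zero => rfl
  | succ k ih =>
    simp only [nf]
    rw [h k (Nat.lt_succ_self k), ih (fun j hj => h j (Nat.lt_succ_of_lt hj))]

theorem nf_eq_of_zero (f : ℕ → G) (a : ℕ → ℕ) {k r : ℕ} (hkr : k ≤ r)
    (h : ∀ j, k ≤ j → j < r → a j = 0) : nf f a r = nf f a k := by
  induction r, hkr using Nat.le_induction with
  | base => rfl
  | succ r hr ih =>
    simp only [nf]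
    rw [h r hr (Nat.lt_succ_self r), pow_zero, one_mul]
    exact ih (fun j h1 h2 => h j h1 (Nat.lt_succ_of_lt h2))

theorem nf_pair {G' : Type*} [Group G'] (f : ℕ → G) (f' : ℕ → G') (a : ℕ → ℕ) (k : ℕ) :
    nf (fun i => (f i, f' i)) a k = (nf f a k, nf f' a k) := by
  induction k with
  | zero => rfl
  | succ k ih => simp only [nf, ih]; rfl

end

variable {G : Type*} [Group G] {p r : ℕ} {f : ℕ → G}

theorem ch_normal (hf : Chain p r f) {k : ℕ} (hk : k ≤ r) : (Sp f k).Normal := by
  constructor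
  intro n hn g
  induction hn using Subgroup.closure_induction with
  | mem x hx =>
    obtain ⟨j, hj, rfl⟩ := hx
    have h1 : ⁅f j, g⁆ ∈ Sp f k := Sp_mono f (le_of_lt hj) (hf.central j (lt_of_lt_of_le hj hk) g)
    have h2 : g * f j * g⁻¹ = ⁅f j, g⁆⁻¹ * f j := by
      rw [commutatorElement_def]; group
    rw [h2]
    exact Subgroup.mul_mem _ (Subgroup.inv_mem _ h1) (mem_Sp_of_lt f hj)
  | one => simp
  | mul x y _ _ hx hy =>
    have : g * (x * y) * g⁻¹ = (g * x * g⁻¹) * (g * y * g⁻¹) := by group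
    rw [this]; exact Subgroup.mul_mem _ hx hy
  | inv x _ hx =>
    have : g * x⁻¹ * g⁻¹ = (g * x * g⁻¹)⁻¹ := by group
    rw [this]; exact Subgroup.inv_mem _ hx

theorem ch_not_mem (hf : Chain p r f) (hp : p.Prime) {k : ℕ} (hk : k < r) : f k ∉ Sp f k := by
  intro h
  have h1 : Sp f (k + 1) = Sp f k := by
    rw [Sp_succ, sup_eq_right, Subgroup.closure_le]
    simpa using h
  have h2 := hf.card (k + 1) hk
  rw [h1, hf.card k hk.le] at h2
  have := Nat.pow_right_injective hp.two_le h2
  omega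

theorem ch_pow_mem (hf : Chain p r f) (hp : p.Prime) {k : ℕ} (hk : k < r) : f k ^ p ∈ Sp f k := by
  have hn := (ch_normal hf) hk.le
  have hle : Sp f k ≤ Sp f (k + 1) := Sp_mono f (Nat.le_succ k)
  have hidx : (Sp f k).relIndex (Sp f (k + 1)) = p := by
    have h1 := Subgroup.card_mul_index ((Sp f k).subgroupOf (Sp f (k + 1)))
    have h2 : Nat.card ((Sp f k).subgroupOf (Sp f (k + 1))) = p ^ k := by
      rw [← hf.card k hk.le]
      exact Nat.card_congr (Subgroup.subgroupOfEquivOfLe hle).toEquiv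
    rw [h2, hf.card (k + 1) hk, pow_succ] at h1
    exact Nat.eq_of_mul_eq_mul_left (pow_pos hp.pos k) h1
  have h3 := Subgroup.pow_index_mem ((Sp f k).subgroupOf (Sp f (k + 1)))
    ⟨f k, mem_Sp_of_lt f (Nat.lt_succ_self k)⟩
  have h4 : ((Sp f k).subgroupOf (Sp f (k + 1))).index = p := hidx
  rw [h4] at h3
  simpa [Subgroup.mem_subgroupOf] using h3

theorem ch_pow_mem_iff (hf : Chain p r f) (hp : p.Prime) {k : ℕ} (hk : k < r) (z : ℤ) :
    f k ^ z ∈ Sp f k ↔ (p : ℤ) ∣ z := by
  constructor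
  · intro h
    by_contra hd
    have hcop : IsCoprime (p : ℤ) z := by
      rw [Int.isCoprime_iff_gcd_eq_one]
      have : Int.gcd p z = Nat.gcd p z.natAbs := by simp [Int.gcd]
      rw [this]
      refine (Nat.Prime.coprime_iff_not_dvd hp).mpr ?_
      intro h2
      exact hd (Int.natCast_dvd.mpr h2)
    obtain ⟨u, v, huv⟩ := hcop
    apply (ch_not_mem hf) hp hk
    have h1 : f k = (f k ^ (p : ℤ)) ^ u * (f k ^ z) ^ v := by
      rw [← zpow_mul, ← zpow_mul, ← zpow_add]
      have : (p : ℤ) * u + z * v = 1 := by linarith [huv, mul_comm u (p : ℤ), mul_comm v z]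
      rw [this, zpow_one]
    rw [h1]
    refine Subgroup.mul_mem _ (Subgroup.zpow_mem _ ?_ _) (Subgroup.zpow_mem _ h _)
    rw [zpow_natCast]
    exact (ch_pow_mem hf) hp hk
  · rintro ⟨c, rfl⟩
    rw [zpow_mul, zpow_natCast]
    exact Subgroup.zpow_mem _ ((ch_pow_mem hf) hp hk) _

theorem ch_exists_nf (hf : Chain p r f) (hp : p.Prime) {k : ℕ} (hk : k ≤ r) {h : G}
    (hh : h ∈ Sp f k) :
    ∃ a : ℕ → ℕ, (∀ j, a j < p) ∧ (∀ j, k ≤ j → a j = 0) ∧ h = nf f a k := by
  induction k generalizing h with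
  | zero =>
    refine ⟨fun _ => 0, fun _ => hp.pos, fun _ _ => rfl, ?_⟩
    rw [Sp_zero, Subgroup.mem_bot] at hh
    rw [hh]; rfl
  | succ k ih =>
    have hkr : k < r := hk
    have hn := (ch_normal hf) hkr.le
    rw [Sp_succ] at hh
    rw [← SetLike.mem_coe, Subgroup.mul_normal] at hh
    obtain ⟨u, hu, v, hv, rfl⟩ := Set.mem_mul.mp hh
    rw [SetLike.mem_coe, Subgroup.mem_closure_singleton] at hu
    obtain ⟨z, rfl⟩ := hu
    have hp0 : (p : ℤ) ≠ 0 := by exact_mod_cast hp.ne_zero
    have h1 : f k ^ z = f k ^ (z % p).toNat * (f k ^ ((p : ℤ) * (z / p))) := by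
      have h2 : (((z % p).toNat : ℕ) : ℤ) = z % p := Int.toNat_of_nonneg (Int.emod_nonneg z hp0)
      rw [← zpow_natCast, h2, ← zpow_add]
      congr 1
      have := Int.emod_add_mul_ediv z p
      linarith
    have h3 : f k ^ ((p : ℤ) * (z / p)) * v ∈ Sp f k :=
      Subgroup.mul_mem _ (((ch_pow_mem_iff hf) hp hkr _).mpr (dvd_mul_right _ _)) hv
    obtain ⟨a, ha1, ha2, ha3⟩ := ih hkr.le h3
    refine ⟨fun j => if j = k then (z % p).toNat else a j, ?_, ?_, ?_⟩
    · intro j
      by_cases hj : j = k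
      · simp only [hj, if_true]
        have h5 := Int.emod_lt_of_pos z (by exact_mod_cast hp.pos : (0 : ℤ) < p)
        have h6 := Int.emod_nonneg z hp0
        omega
      · simp only [hj, if_false]; exact ha1 j
    · intro j hj
      have : j ≠ k := by omega
      simp only [this, if_false]
      exact ha2 j (by omega)
    · simp only [nf, if_true]
      rw [h1, mul_assoc, ha3]
      congr 1
      apply nf_congr
      intro j hj
      have : j ≠ k := by omega
      simp [this]

/-- Normal forms agree above `k` iff they agree modulo `Sp f k`. -/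
theorem ch_nf_coset (hf : Chain p r f) (hp : p.Prime) (a b : ℕ → ℕ) (ha : ∀ j, a j < p)
    (hb : ∀ j, b j < p) {k t : ℕ} (hkt : k ≤ t) (ht : t ≤ r) :
    (nf f a t)⁻¹ * nf f b t ∈ Sp f k ↔ ∀ j, k ≤ j → j < t → a j = b j := by
  induction t, hkt using Nat.le_induction with
  | base =>
    constructor
    · intro _ j h1 h2; omega
    · intro _
      exact Subgroup.mul_mem _ (Subgroup.inv_mem _ (nf_mem f a k)) (nf_mem f b k)
  | succ t hkt ih =>
    have htr : t < r := ht
    have key : (nf f a (t + 1))⁻¹ * nf f b (t + 1) =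
        (nf f a t)⁻¹ * (f t ^ ((b t : ℤ) - a t)) * nf f b t := by
      simp only [nf]
      rw [zpow_sub, zpow_natCast, zpow_natCast]
      have hc : f t ^ b t * (f t ^ a t)⁻¹ = (f t ^ a t)⁻¹ * f t ^ b t := by
        have : Commute (f t ^ b t) ((f t ^ a t)⁻¹) :=
          ((Commute.refl (f t)).pow_pow (b t) (a t)).inv_right
        exact this.eq
      rw [hc]; group
    have hstep : (nf f a (t + 1))⁻¹ * nf f b (t + 1) ∈ Sp f k → a t = b t := by
      intro h
      rw [key] at h
      have h1 : (f t ^ ((b t : ℤ) - a t)) ∈ Sp f t := by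
        have h2 := Subgroup.mul_mem _ (Subgroup.mul_mem _ (nf_mem f a t) (Sp_mono f hkt h))
          (Subgroup.inv_mem _ (nf_mem f b t))
        have h3 : nf f a t * ((nf f a t)⁻¹ * (f t ^ ((b t : ℤ) - a t)) * nf f b t) *
            (nf f b t)⁻¹ = f t ^ ((b t : ℤ) - a t) := by group
        rwa [h3] at h2
      rw [(ch_pow_mem_iff hf) hp htr] at h1
      have h4 := ha t
      have h5 := hb t
      obtain ⟨c, hc⟩ := h1
      have h6 : c = 0 := by
        by_contra h7
        rcases lt_or_gt_of_ne h7 with h8 | h8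
        · have : (p : ℤ) * c ≤ p * (-1) := mul_le_mul_of_nonneg_left (by omega) (by omega)
          omega
        · have : (p : ℤ) * 1 ≤ p * c := mul_le_mul_of_nonneg_left (by omega) (by omega)
          omega
      rw [h6] at hc
      omega
    constructor
    · intro h j h1 h2
      have hab := hstep h
      rcases Nat.lt_succ_iff_lt_or_eq.mp h2 with h3 | h3
      · refine (ih htr.le).mp ?_ j h1 h3
        rw [key, hab] at h
        simpa using h
      · rw [h3]; exact hab
    · intro h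
      rw [key, h t hkt (Nat.lt_succ_self t)]
      simp only [sub_self, zpow_zero, mul_one]
      exact (ih htr.le).mpr (fun j h1 h2 => h j h1 (Nat.lt_succ_of_lt h2))

theorem ch_dig_spec (hf : Chain p r f) (hp : p.Prime) {h : G} (hh : h ∈ Sp f r) :
    (∀ j, dig p r f h j < p) ∧ (∀ j, r ≤ j → dig p r f h j = 0) ∧ h = nf f (dig p r f h) r := by
  have H : ∃ a : ℕ → ℕ, (∀ j, a j < p) ∧ (∀ j, r ≤ j → a j = 0) ∧ h = nf f a r :=
    (ch_exists_nf hf) hp le_rfl hh
  unfold dig
  rw [dif_pos H]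
  exact Classical.choose_spec H

theorem ch_dig_nf (hf : Chain p r f) (hp : p.Prime) (a : ℕ → ℕ) (ha : ∀ j, a j < p) (j : ℕ)
    (hj : j < r) : dig p r f (nf f a r) j = a j := by
  obtain ⟨h1, h2, h3⟩ := (ch_dig_spec hf) hp (nf_mem f a r)
  have h4 := ((ch_nf_coset hf) hp a (dig p r f (nf f a r)) ha h1 (Nat.zero_le r) le_rfl).mp
    (by rw [← h3]; simp)
  exact (h4 j (Nat.zero_le j) hj).symm


/-- Elements chosen in a series generate its members. -/
theorem ser_Sp {G : Type*} [Group G] {p r : ℕ} (hp : p.Prime) {N : ℕ → Subgroup G}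
    (hN : Series p r N) (f : ℕ → G) (h1 : ∀ k, k < r → f k ∈ N (k + 1))
    (h2 : ∀ k, k < r → f k ∉ N k) : ∀ k, k ≤ r → Sp f k = N k := by
  intro k
  induction k with
  | zero =>
    intro _
    rw [Sp_zero]
    have h3 := hN.card 0 (Nat.zero_le r)
    rw [pow_zero] at h3
    exact (Subgroup.card_eq_one.mp h3).symm
  | succ k ih =>
    intro hk
    have hkr : k < r := hk
    have e := ih hkr.le
    rw [Sp_succ, e]
    have hle : Subgroup.closure {f k} ⊔ N k ≤ N (k + 1) :=
      sup_le (by rw [Subgroup.closure_le]; simpa using h1 k hkr) (hN.mono k hkr)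
    refine le_antisymm hle ?_
    have hidx : (N k).relIndex (N (k + 1)) = p := by
      have h3 := Subgroup.card_mul_index ((N k).subgroupOf (N (k + 1)))
      have h4 : Nat.card ((N k).subgroupOf (N (k + 1))) = p ^ k := by
        rw [← hN.card k hkr.le]
        exact Nat.card_congr (Subgroup.subgroupOfEquivOfLe (hN.mono k hkr)).toEquiv
      rw [h4, hN.card (k + 1) hk, pow_succ] at h3
      exact Nat.eq_of_mul_eq_mul_left (pow_pos hp.pos k) h3
    have hmul := Subgroup.relIndex_mul_relIndex (N k) (Subgroup.closure {f k} ⊔ N k) (N (k + 1))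
      le_sup_right hle
    rw [hidx] at hmul
    have hdvd : (Subgroup.closure {f k} ⊔ N k).relIndex (N (k + 1)) ∣ p := Dvd.intro_left _ hmul
    rcases (Nat.dvd_prime hp).mp hdvd with h5 | h5
    · exact Subgroup.relIndex_eq_one.mp h5
    · exfalso
      rw [h5] at hmul
      have h6 : (N k).relIndex (Subgroup.closure {f k} ⊔ N k) = 1 :=
        Nat.eq_of_mul_eq_mul_right hp.pos (by rw [hmul, one_mul])
      have h7 : Subgroup.closure {f k} ⊔ N k ≤ N k := Subgroup.relIndex_eq_one.mp h6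
      exact h2 k hkr (h7 (Subgroup.mem_sup_left (Subgroup.mem_closure_singleton_self (f k))))

/-- Choosing elements in a series. -/
theorem ser_choose {G : Type*} [Group G] {p r : ℕ} (hp : p.Prime) {N : ℕ → Subgroup G}
    (hN : Series p r N) : ∃ f : ℕ → G, (∀ k, k < r → f k ∈ N (k + 1)) ∧ ∀ k, k < r → f k ∉ N k := by
  have H : ∀ k, ∃ x : G, k < r → x ∈ N (k + 1) ∧ x ∉ N k := by
    intro k
    by_cases hk : k < r
    · have h1 : ¬ N (k + 1) ≤ N k := by
        intro h
        have h2 : N (k + 1) = N k := le_antisymm h (hN.mono k hk)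
        have h3 := hN.card (k + 1) hk
        rw [h2, hN.card k hk.le] at h3
        have := Nat.pow_right_injective hp.two_le h3
        omega
      obtain ⟨x, hx, hx'⟩ := SetLike.not_le_iff_exists.mp h1
      exact ⟨x, fun _ => ⟨hx, hx'⟩⟩
    · exact ⟨1, fun h => absurd h hk⟩
  choose f hf using H
  exact ⟨f, fun k hk => (hf k hk).1, fun k hk => (hf k hk).2⟩

theorem exists_chain {p n : ℕ} [Fact p.Prime] {Q : Type} [Group Q] (hQ : Nat.card Q = p ^ n) :
    ∃ f : ℕ → Q, Chain p n f := by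
  have hp : p.Prime := Fact.out
  haveI : Finite Q := Nat.finite_of_card_ne_zero (by rw [hQ]; exact pow_ne_zero _ hp.ne_zero)
  have hG : IsPGroup p Q := IsPGroup.of_card hQ
  obtain ⟨N, hN, -, -⟩ := exists_series hG (⊥ : Subgroup Q) ⊤ bot_le 0 n (by simp)
    (by rw [Subgroup.card_top, hQ])
  obtain ⟨f, h1, h2⟩ := ser_choose hp hN
  have hSp := ser_Sp hp hN f h1 h2
  refine ⟨f, fun k hk => by rw [hSp k hk]; exact hN.card k hk, fun k hk g => ?_⟩
  rw [hSp k hk.le]
  exact hN.central k hk (f k) (h1 k hk) g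

/-- A chain adapted to a normal subgroup and to a chain of the quotient. -/
theorem exists_chain_lift {p : ℕ} [Fact p.Prime] {n s : ℕ} {G Q : Type} [Group G] [Group Q]
    (hG : Nat.card G = p ^ n) (T : Subgroup G) [T.Normal] (hT : Nat.card T = p ^ s) (hsn : s ≤ n)
    (π : G →* Q) (hπ : Function.Surjective π) (hker : π.ker = T) (q : ℕ → Q)
    (hq : Chain p (n - s) q) :
    ∃ g : ℕ → G, Chain p n g ∧ (∀ k, k < s → π (g k) = 1) ∧ ∀ k, π (g (s + k)) = q k := by
  have hp : p.Prime := Fact.out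
  haveI : Finite G := Nat.finite_of_card_ne_zero (by rw [hG]; exact pow_ne_zero _ hp.ne_zero)
  have hPG : IsPGroup p G := IsPGroup.of_card hG
  obtain ⟨N, hN, hNs, -⟩ := exists_series hPG T ⊤ le_top s n hT (by rw [Subgroup.card_top, hG])
  obtain ⟨f, h1, h2⟩ := ser_choose hp hN
  have hSpf := ser_Sp hp hN f h1 h2
  choose u hu using fun k => hπ (q k)
  let g : ℕ → G := fun k => if k < s then f k else u (k - s)
  have g1 : ∀ k, k < s → g k = f k := fun k hk => by simp [g, hk]
  have g2 : ∀ k, g (s + k) = u k := fun k => by simp [g]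
  have hs1 : ∀ k, k ≤ s → Sp g k = N k := by
    intro k hk
    rw [← hSpf k (hk.trans hsn)]
    unfold Sp
    congr 1
    apply Set.image_congr
    intro j hj
    exact g1 j (lt_of_lt_of_le hj hk)
  have p1 : ∀ k, k < s → π (g k) = 1 := by
    intro k hk
    rw [← MonoidHom.mem_ker, hker, ← hNs, ← hs1 s le_rfl]
    exact mem_Sp_of_lt g hk
  have p2 : ∀ k, π (g (s + k)) = q k := fun k => by rw [g2, hu]
  have hcomap : ∀ k, Sp g (s + k) = (Sp q k).comap π := by
    intro k
    have hT' : π.ker ≤ Sp g (s + k) := by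
      rw [hker, ← hNs, ← hs1 s le_rfl]
      exact Sp_mono g (Nat.le_add_right s k)
    rw [← Subgroup.comap_map_eq_self hT']
    congr 1
    unfold Sp
    rw [MonoidHom.map_closure]
    apply le_antisymm
    · rw [Subgroup.closure_le]
      rintro _ ⟨_, ⟨j, hj, rfl⟩, rfl⟩
      rcases lt_or_ge j s with h | h
      · rw [p1 j h]
        exact Subgroup.one_mem _
      · obtain ⟨i, rfl⟩ := Nat.exists_eq_add_of_le h
        rw [p2 i]
        exact Subgroup.subset_closure ⟨i, by simpa using hj, rfl⟩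
    · rw [Subgroup.closure_le]
      rintro _ ⟨j, hj, rfl⟩
      exact Subgroup.subset_closure ⟨g (s + j), ⟨s + j, by simpa using hj, rfl⟩, p2 j⟩
  refine ⟨g, ⟨?_, ?_⟩, p1, p2⟩
  · intro k hk
    rcases le_total k s with h | h
    · rw [hs1 k h]
      exact hN.card k hk
    · obtain ⟨i, rfl⟩ := Nat.exists_eq_add_of_le h
      have hi : i ≤ n - s := by omega
      rw [hcomap i]
      have e1 : ((Sp q i).comap π).index = (Sp q i).index := Subgroup.index_comap_of_surjective _ hπ
      have e2 := Subgroup.card_mul_index ((Sp q i).comap π)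
      have e3 := Subgroup.card_mul_index (Sp q i)
      have e4 : Nat.card Q * p ^ s = p ^ n := by
        have e5 := Subgroup.card_mul_index π.ker
        rw [Subgroup.index_ker, MonoidHom.range_eq_top.mpr hπ, Subgroup.card_top, hker, hT, hG] at e5
        rw [mul_comm]; exact e5
      rw [e1, hG] at e2
      rw [hq.card i hi] at e3
      have e6 : 0 < (Sp q i).index := by
        rcases Nat.eq_zero_or_pos (Sp q i).index with h0 | h0
        · rw [h0, mul_zero] at e3
          rw [← e3, zero_mul] at e4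
          exact absurd e4.symm (pow_ne_zero _ hp.ne_zero)
        · exact h0
      apply Nat.eq_of_mul_eq_mul_right e6
      rw [e2, ← e4, ← e3, pow_add]
      ring
  · intro k hk x
    rcases lt_or_ge k s with h | h
    · rw [hs1 k h.le, g1 k h]
      exact hN.central k hk (f k) (h1 k hk) x
    · obtain ⟨i, rfl⟩ := Nat.exists_eq_add_of_le h
      have hi : i < n - s := by omega
      rw [hcomap i, Subgroup.mem_comap, map_commutatorElement, p2]
      exact hq.central i hi (π x)

theorem nf_shift {G : Type*} [Group G] {s : ℕ} (g q : ℕ → G)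
    (h0 : ∀ k, k < s → g k = 1) (h1 : ∀ k, g (s + k) = q k) (a : ℕ → ℕ) (m : ℕ) :
    nf g a (s + m) = nf q (fun j => a (s + j)) m := by
  induction m with
  | zero =>
    have H : ∀ k, k ≤ s → nf g a k = 1 := by
      intro k
      induction k with
      | zero => intro _; rfl
      | succ k ih =>
        intro hk
        simp only [nf]
        rw [ih (by omega), h0 k (by omega), one_pow, one_mul]
    exact H s le_rfl
  | succ m ih =>
    show g (s + m) ^ a (s + m) * nf g a (s + m) = q m ^ a (s + m) * nf q (fun j => a (s + j)) m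
    rw [h1, ih]

theorem map_nf {G Q : Type*} [Group G] [Group Q] (π : G →* Q) (g : ℕ → G) (a : ℕ → ℕ) (m : ℕ) :
    π (nf g a m) = nf (fun k => π (g k)) a m := by
  induction m with
  | zero => exact map_one π
  | succ m ih => simp only [nf, map_mul, map_pow, ih]

theorem dig_shift {p : ℕ} (hp : p.Prime) {n s : ℕ} {G Q : Type} [Group G] [Group Q]
    (hsn : s ≤ n) (π : G →* Q) (g : ℕ → G) (q : ℕ → Q) (hg : Chain p n g)
    (hq : Chain p (n - s) q) (h0 : ∀ k, k < s → π (g k) = 1) (h1 : ∀ k, π (g (s + k)) = q k)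
    (h : G) (hh : h ∈ Sp g n) (j : ℕ) (hj : s + j < n) :
    dig p n g h (s + j) = dig p (n - s) q (π h) j := by
  obtain ⟨a1, a2, a3⟩ := ch_dig_spec hg hp hh
  have e : π h = nf q (fun j => dig p n g h (s + j)) (n - s) := by
    conv_lhs => rw [a3, map_nf]
    have hn : n = s + (n - s) := by omega
    conv_lhs => rw [hn]
    rw [nf_shift (s := s) (fun k => π (g k)) q h0 h1]
    rw [← hn]
  rw [e, ch_dig_nf hq hp _ (fun j => a1 _) j (by omega)]

theorem dig_lt {G : Type*} [Group G] {p r : ℕ} (hp : 0 < p) (f : ℕ → G) (h : G) (j : ℕ) :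
    dig p r f h j < p := by
  unfold dig
  split_ifs with H
  · exact (Classical.choose_spec H).1 j
  · exact hp

/-- The index set of the relations. -/
abbrev Ix (n : ℕ) : Type := Σ k : Fin n, Fin (k + 1)

theorem card_Ix (n : ℕ) : Nat.card (Ix n) = n * (n + 1) / 2 := by
  rw [Nat.card_eq_fintype_card, Fintype.card_sigma]
  simp only [Fintype.card_fin]
  rw [Fin.sum_univ_eq_sum_range (fun k => k + 1) n]
  have h := Finset.sum_range_id_mul_two (n + 1)
  rw [Finset.sum_range_succ'] at h
  simp only [Nat.add_sub_cancel, add_zero] at h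
  rw [mul_comm (n + 1) n] at h
  omega

/-- The relator with a given index. -/
def rel {G : Type*} [Group G] (p n : ℕ) (g : ℕ → G) (i : Ix n) : G :=
  if (i.2 : ℕ) = (i.1 : ℕ) then g i.1 ^ p else ⁅g i.2, g i.1⁆

theorem map_rel {G Q : Type*} [Group G] [Group Q] (π : G →* Q) (p n : ℕ) (g : ℕ → G) (i : Ix n) :
    π (rel p n g i) = rel p n (fun k => π (g k)) i := by
  unfold rel
  split_ifs
  · rw [map_pow]
  · rw [map_commutatorElement]

theorem per_class {p : ℕ} [Fact p.Prime] (n s : ℕ) (X : Type) (α : Type)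
    (𝒢 : α → Type) [∀ a, Group (𝒢 a)] (hcard : ∀ a, Nat.card (𝒢 a) = p ^ n)
    (T : ∀ a, Subgroup (𝒢 a)) [∀ a, (T a).Normal] (hT : ∀ a, Nat.card (T a) = p ^ s)
    (t : α → X) (ht : ∀ a b, t a = t b → Nonempty (𝒢 a ⧸ T a ≃* 𝒢 b ⧸ T b)) (x : X) :
    ∃ code : α → (Ix n → Fin s → Fin p), ∀ a b, t a = x → t b = x → code a = code b →
      Nonempty (𝒢 a ≃* 𝒢 b) := by
  have hp : p.Prime := Fact.out
  by_cases hx : ∃ a0, t a0 = x
  swap
  · exact ⟨fun _ _ _ => ⟨0, hp.pos⟩, fun a _ ha _ _ => absurd ⟨a, ha⟩ hx⟩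
  obtain ⟨a0, ha0⟩ := hx
  have hsn : s ≤ n := by
    have h := Subgroup.card_subgroup_dvd_card (T a0)
    rw [hT, hcard] at h
    exact (Nat.pow_dvd_pow_iff_le_right hp.one_lt).mp h
  have hQ : Nat.card (𝒢 a0 ⧸ T a0) = p ^ (n - s) := by
    have h := Subgroup.card_mul_index (T a0)
    rw [hT, hcard] at h
    have h2 : p ^ n = p ^ s * p ^ (n - s) := by rw [← pow_add]; congr 1; omega
    rw [h2] at h
    exact Nat.eq_of_mul_eq_mul_left (pow_pos hp.pos s) h
  obtain ⟨q, hq⟩ := exists_chain hQ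
  have H : ∀ a, ∃ g : ℕ → 𝒢 a, t a = x → Chain p n g ∧ ∃ π : 𝒢 a →* 𝒢 a0 ⧸ T a0,
      (∀ k, k < s → π (g k) = 1) ∧ ∀ k, π (g (s + k)) = q k := by
    intro a
    by_cases ha : t a = x
    · obtain ⟨θ⟩ := ht a a0 (ha.trans ha0.symm)
      obtain ⟨g, hg1, hg2, hg3⟩ := exists_chain_lift (hcard a) (T a) (hT a) hsn
        (θ.toMonoidHom.comp (QuotientGroup.mk' (T a)))
        (θ.surjective.comp (QuotientGroup.mk'_surjective (T a)))
        (by
          ext y
          rw [MonoidHom.mem_ker, MonoidHom.comp_apply]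
          have : θ.toMonoidHom (QuotientGroup.mk' (T a) y) = 1 ↔ QuotientGroup.mk' (T a) y = 1 :=
            θ.map_eq_one_iff
          rw [this, ← MonoidHom.mem_ker, QuotientGroup.ker_mk']) q hq
      exact ⟨g, fun _ => ⟨hg1, _, hg2, hg3⟩⟩
    · exact ⟨fun _ => 1, fun h => absurd h ha⟩
  choose g hg using H
  choose hch π hπ0 hπ1 using hg
  refine ⟨fun a i j => ⟨dig p n (g a) (rel p n (g a) i) j, dig_lt hp.pos _ _ _⟩, ?_⟩
  intro a b ha hb hab
  have htop : ∀ a, t a = x → Sp (g a) n = ⊤ := by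
    intro a ha
    haveI : Finite (𝒢 a) :=
      Nat.finite_of_card_ne_zero (by rw [hcard]; exact pow_ne_zero _ hp.ne_zero)
    apply Subgroup.eq_top_of_card_eq
    rw [(hch a ha).card n le_rfl, hcard]
  have hfun : (fun k => π a ha (g a k)) = fun k => π b hb (g b k) := by
    funext k
    rcases lt_or_ge k s with h | h
    · rw [hπ0 a ha k h, hπ0 b hb k h]
    · obtain ⟨i, rfl⟩ := Nat.exists_eq_add_of_le h
      rw [hπ1 a ha i, hπ1 b hb i]
  have key : ∀ i, dig p n (g a) (rel p n (g a) i) = dig p n (g b) (rel p n (g b) i) := by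
    intro i
    have ma : rel p n (g a) i ∈ Sp (g a) n := by rw [htop a ha]; exact Subgroup.mem_top _
    have mb : rel p n (g b) i ∈ Sp (g b) n := by rw [htop b hb]; exact Subgroup.mem_top _
    funext j
    rcases lt_or_ge j s with h | h
    · have h3 := congrFun (congrFun hab i) ⟨j, h⟩
      exact congrArg Fin.val h3
    · rcases lt_or_ge j n with h4 | h4
      · obtain ⟨j, rfl⟩ := Nat.exists_eq_add_of_le h
        rw [dig_shift hp hsn (π a ha) (g a) q (hch a ha) hq (hπ0 a ha) (hπ1 a ha) _ ma j h4,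
          dig_shift hp hsn (π b hb) (g b) q (hch b hb) hq (hπ0 b hb) (hπ1 b hb) _ mb j h4,
          map_rel, map_rel, hfun]
      · rw [(ch_dig_spec (hch a ha) hp ma).2.1 j h4, (ch_dig_spec (hch b hb) hp mb).2.1 j h4]
  obtain ⟨φ, -⟩ := iso_of_law (hcard a) (hcard b) (g a) (g b) (hch a ha) (hch b hb)
    (by
      intro k hk
      have h3 := key ⟨⟨k, hk⟩, ⟨k, Nat.lt_succ_self k⟩⟩
      simpa [rel] using h3)
    (by
      intro k l hkl hl
      have h3 := key ⟨⟨l, hl⟩, ⟨k, Nat.lt_succ_of_lt hkl⟩⟩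
      have hne : k ≠ l := hkl.ne
      simpa [rel, hne] using h3)
  exact ⟨φ⟩

end J_ext_count

/-- TARGET -/
theorem ext_count {p : ℕ} [Fact p.Prime] (n s : ℕ) (X : Type) [Finite X] (α : Type)
    (𝒢 : α → Type) [∀ a, Group (𝒢 a)] (hcard : ∀ a, Nat.card (𝒢 a) = p ^ n)
    (T : ∀ a, Subgroup (𝒢 a)) [∀ a, (T a).Normal] (hT : ∀ a, Nat.card (T a) = p ^ s)
    (t : α → X) (ht : ∀ a b, t a = t b → Nonempty (𝒢 a ⧸ T a ≃* 𝒢 b ⧸ T b)) :
    Nat.card (Quot fun a b => Nonempty (𝒢 a ≃* 𝒢 b)) ≤
      Nat.card X * p ^ (s * (n * (n + 1) / 2)) := by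
  have hp : p.Prime := Fact.out
  choose code hcode using J_ext_count.per_class n s X α 𝒢 hcard T hT t ht
  have hcardC : Nat.card (X × (J_ext_count.Ix n → Fin s → Fin p)) =
      Nat.card X * p ^ (s * (n * (n + 1) / 2)) := by
    rw [Nat.card_prod, Nat.card_fun, Nat.card_fun, J_ext_count.card_Ix, Nat.card_fin, Nat.card_fin,
      ← pow_mul]
  rw [← hcardC]
  haveI : Finite (J_ext_count.Ix n) := inferInstance
  refine Nat.card_le_card_of_injective
    (fun u : Quot fun a b => Nonempty (𝒢 a ≃* 𝒢 b) => (t u.out, code (t u.out) u.out)) ?_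
  intro u v huv
  simp only [Prod.mk.injEq] at huv
  obtain ⟨h1, h2⟩ := huv
  have h3 := hcode (t u.out) u.out v.out rfl h1.symm (by rw [h2, h1])
  rw [← Quot.out_eq u, ← Quot.out_eq v]
  exact Quot.sound h3


end Pool.Agent.Helper252_Enum
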