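import Pool.Agent.Helper252_Enum.Defs2

set_option autoImplicit false

open scoped commutatorElement

namespace Pool.Agent.Helper252_Enum

/-
PROOF OF THE TARGET.
Map the class of a to the isomorphism class of the group structure transported to Fin N (N > 0, so 𝒢 a is finite, Finite.equivFinOfCardEq or Nat.card_eq ... : 𝒢 a ≃ Fin N; Equiv.group). Group (Fin N) is a finite type (injective into Fin N → Fin N → Fin N, Group.ext / Group.toDivInvMonoid_injective and monoid ext: Group.ext says that a group structure is determined by its multiplication).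
The map a ↦ transported structure g_a ∈ Group (Fin N), choose for the Quot: Quot.out; if g_(out x) = g_(out y) then 𝒢 (out x) ≃* 𝒢 (out y), so x = y. So Quot injects into the finite type Group (Fin N).
-/

/-- TARGET -/
theorem quot_finite (N : ℕ) (hN : 0 < N) (α : Type) (𝒢 : α → Type) [∀ a, Group (𝒢 a)]
    (hcard : ∀ a, Nat.card (𝒢 a) = N) : Finite (Quot fun a b => Nonempty (𝒢 a ≃* 𝒢 b)) := by
  have hfin : ∀ a, Finite (𝒢 a) := fun a =>
    Nat.finite_of_card_ne_zero (by rw [hcard a]; exact hN.ne')
  have he : ∀ a, Nonempty (𝒢 a ≃ Fin N) := fun a => by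
    have := hfin a
    exact ⟨Finite.equivFinOfCardEq (hcard a)⟩
  choose e _ using fun a => exists_true_iff_nonempty.2 (he a)
  refine Finite.of_injective (β := Fin N → Fin N → Fin N)
    (fun q => fun i j => e q.out ((e q.out).symm i * (e q.out).symm j)) ?_
  intro x y hxy
  have hxy' : ∀ i j, e x.out ((e x.out).symm i * (e x.out).symm j) =
      e y.out ((e y.out).symm i * (e y.out).symm j) := fun i j => congrFun (congrFun hxy i) j
  have hm : Nonempty (𝒢 x.out ≃* 𝒢 y.out) := by
    refine ⟨{ toEquiv := (e x.out).trans (e y.out).symm, map_mul' := ?_ }⟩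
    intro a b
    have h := hxy' (e x.out a) (e x.out b)
    rw [Equiv.symm_apply_apply, Equiv.symm_apply_apply] at h
    show (e y.out).symm (e x.out (a * b)) = (e y.out).symm (e x.out a) * (e y.out).symm (e x.out b)
    rw [h, Equiv.symm_apply_apply]
  rw [← Quot.out_eq x, ← Quot.out_eq y]
  exact Quot.sound hm

end Pool.Agent.Helper252_Enum
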