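import Pool.Agent.Helper252_Enum.R20_quot_finite

set_option autoImplicit false

open scoped commutatorElement

namespace Pool.Agent.Helper252_Enum

/-
PROOF OF THE TARGET.
Q = Quot on α, Q_i = Quot on {a // P i a} (finite by quot_finite, also Q). Let ι : (Σ i : Fin k, Q_i) → Q be the natural map (Quot.map of Subtype.val), surjective by hP. So |Q| <= Σ_i |Q_i| (Nat.card_le_card_of_surjective, Nat.card_sigma; Finset.sum_range), and then cast to ℝ and use hB.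
-/

/-- TARGET -/
theorem quot_cover (N : ℕ) (hN : 0 < N) (α : Type) (𝒢 : α → Type) [∀ a, Group (𝒢 a)]
    (hcard : ∀ a, Nat.card (𝒢 a) = N) (k : ℕ) (B : ℕ → ℝ) (P : ℕ → α → Prop)
    (hP : ∀ a, ∃ i, i < k ∧ P i a)
    (hB : ∀ i, i < k →
      (Nat.card (Quot fun a b : {a : α // P i a} => Nonempty (𝒢 a.1 ≃* 𝒢 b.1)) : ℝ) ≤ B i) :
    (Nat.card (Quot fun a b => Nonempty (𝒢 a ≃* 𝒢 b)) : ℝ) ≤ ∑ i ∈ Finset.range k, B i := by
  have hfin : ∀ i : Fin k, Finite (Quot fun a b : {a : α // P i a} =>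
      Nonempty (𝒢 a.1 ≃* 𝒢 b.1)) := fun i =>
    quot_finite N hN {a : α // P i a} (fun a => 𝒢 a.1) (fun a => hcard a.1)
  let f : (Σ i : Fin k, Quot fun a b : {a : α // P i a} => Nonempty (𝒢 a.1 ≃* 𝒢 b.1)) →
      Quot fun a b => Nonempty (𝒢 a ≃* 𝒢 b) := fun x =>
    Quot.map Subtype.val (fun _ _ h => h) x.2
  have hf : Function.Surjective f := by
    intro y
    induction y using Quot.ind with
    | mk a =>
      obtain ⟨i, hi, ha⟩ := hP a
      exact ⟨⟨⟨i, hi⟩, Quot.mk _ ⟨a, ha⟩⟩, rfl⟩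
  have h1 := Nat.card_le_card_of_surjective f hf
  rw [Nat.card_sigma] at h1
  have h2 : (Nat.card (Quot fun a b => Nonempty (𝒢 a ≃* 𝒢 b)) : ℝ) ≤
      ∑ i : Fin k, (Nat.card (Quot fun a b : {a : α // P i a} =>
        Nonempty (𝒢 a.1 ≃* 𝒢 b.1)) : ℝ) := by
    exact_mod_cast h1
  rw [Finset.sum_range]
  exact h2.trans (Finset.sum_le_sum fun i _ => hB i i.2)

end Pool.Agent.Helper252_Enum
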