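import Pool.Agent.Helper252_Enum.R05_exists_TD
import Pool.Agent.Helper252_Enum.R03_trans_of_crd
import Pool.Agent.Helper252_Enum.R06_compat_of_aut
import Pool.Agent.Helper252_Enum.Q16_card_not_aGe
import Pool.Agent.Helper252_Enum.R08_quot_iso_of_TD
import Pool.Agent.Helper252_Enum.R19_ext_count
import Pool.Agent.Helper252_Enum.R01_card_TD_aGe
import Pool.Agent.Helper252_Enum.Q11_card_crd

set_option autoImplicit false

open scoped commutatorElement

namespace Pool.Agent.Helper252_Enum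

/-
PROOF OF THE TARGET.
Let A = p^(4(m/100)m+1), a0 = m/100 + 1 (2 a0 <= m as m >= 100... m/100+1 <= m/2). If α is empty the left side is 0. For each a: 𝒢 a is a finite p-group; not SmallIm: there is u0 with IsCrd whose orbit set O = {u' // IsCrd u' ∧ SameCrd u0 u'} has more than A elements. trans_of_crd: u' = h ∘ u0 with h : Vp p m ≃+ Vp p m, u' ↦ h is injective on O. By card_not_aGe (a := m/100) at most A of the h have
¬ aGe h (m/100+1), so some u' ∈ O has aGe h a0, with φ : 𝒢 a ≃* 𝒢 a, u' (φ y) = u0 y, i.e. h (u0 (φ y)) = u0 y; for ψ = φ.symm: u0 (ψ y) = h (u0 y). exists_TD for u0 (r, s): s <= r, w, c, q with HasTD p m (r-s) (𝒢 a) u0 w c q, IsTD, Spans; compat_of_aut (ψ, g := h) gives g' with Compat c q h g'.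
So t a := (c,q) is an element of X = {cq // IsTD p m (r-s) cq.1 cq.2 ∧ ∃ g g', aGe g a0 ∧ Compat cq.1 cq.2 g g'} (finite), and t a = t b implies 𝒢 a ⧸ TT ≃* 𝒢 b ⧸ TT by quot_iso_of_TD (TT p G = PC p (FrP p G) ⊤ is normal: closure of a conjugation invariant set; provide the instances). ext_count with T a = TT p (𝒢 a): Quot <= |X| p^(s n(n+1)/2).
card_TD_aGe p m (r-s) a0: |X| p^((r-s)(a0 (m-2a0))) <= p^(m^2 + (r-s)^2 + (r-s)(m(m+1)/2)). Multiply.
-/

namespace J_E5_fixed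

theorem PC_normal (p : ℕ) {G : Type*} [Group G] (A B : Subgroup G) (hA : A.Normal)
    (hB : B.Normal) : (PC p A B).Normal := by
  refine ⟨fun n hn g => ?_⟩
  unfold PC at hn ⊢
  induction hn using Subgroup.closure_induction with
  | mem x hx =>
    apply Subgroup.subset_closure
    rcases hx with ⟨a, ha, b, hb, rfl⟩ | ⟨a, ha, rfl⟩
    · left
      refine ⟨g * a * g⁻¹, hA.conj_mem a ha g, g * b * g⁻¹, hB.conj_mem b hb g, ?_⟩
      simp only [commutatorElement_def]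
      group
    · right
      refine ⟨g * a * g⁻¹, hA.conj_mem a ha g, ?_⟩
      rw [conj_pow]
  | one => simp
  | mul x y _ _ hx hy =>
    have h1 : g * (x * y) * g⁻¹ = (g * x * g⁻¹) * (g * y * g⁻¹) := by group
    rw [h1]
    exact Subgroup.mul_mem _ hx hy
  | inv x _ hx =>
    have h1 : g * x⁻¹ * g⁻¹ = (g * x * g⁻¹)⁻¹ := by group
    rw [h1]
    exact Subgroup.inv_mem _ hx

theorem top_normal (G : Type*) [Group G] : (⊤ : Subgroup G).Normal :=
  ⟨fun _ _ _ => Subgroup.mem_top _⟩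

theorem TT_normal (p : ℕ) (G : Type*) [Group G] : (TT p G).Normal :=
  PC_normal p _ _ (PC_normal p _ _ (top_normal G) (top_normal G)) (top_normal G)

/-- The automorphism with many moved independent vectors. -/
theorem exists_aut {p : ℕ} [Fact p.Prime] (m k : ℕ) (G : Type) [Group G]
    (hS : ¬ SmallIm p m (p ^ (4 * k * m + 1)) G) :
    ∃ (u : G → Vp p m) (h : Vp p m ≃+ Vp p m) (ψ : G ≃* G), IsCrd p m G u ∧ aGe h (k + 1) ∧
      ∀ y, u (ψ y) = h (u y) := by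
  unfold SmallIm at hS
  push Not at hS
  obtain ⟨u, hu, hlt⟩ := hS
  by_contra hcon
  push Not at hcon
  have hex : ∀ x : {u' : G → Vp p m // IsCrd p m G u' ∧ SameCrd u u'},
      ∃ g : Vp p m ≃+ Vp p m, (∀ a, x.1 a = g (u a)) ∧ ¬ aGe g (k + 1) := by
    rintro ⟨u', hu', φ, hφ⟩
    obtain ⟨g, hg⟩ := trans_of_crd m G u u' hu hu'
    refine ⟨g, hg, fun hag => ?_⟩
    obtain ⟨y, hy⟩ := hcon u g φ.symm hu hag
    apply hy
    have h1 := hφ (φ.symm y)
    rw [MulEquiv.apply_symm_apply, hg y] at h1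
    exact h1.symm
  choose F hF1 hF2 using hex
  have hfin : Finite (Vp p m ≃+ Vp p m) :=
    Finite.of_injective (fun g : Vp p m ≃+ Vp p m => (g : Vp p m → Vp p m))
      DFunLike.coe_injective
  have hle : Nat.card {u' : G → Vp p m // IsCrd p m G u' ∧ SameCrd u u'} ≤
      Nat.card {g : Vp p m ≃+ Vp p m // ¬ aGe g (k + 1)} := by
    refine Nat.card_le_card_of_injective (fun x => ⟨F x, hF2 x⟩) ?_
    intro x y hxy
    have h1 : F x = F y := congrArg Subtype.val hxy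
    apply Subtype.ext
    funext a
    rw [hF1 x a, hF1 y a, h1]
  have := card_not_aGe p m k
  omega

end J_E5_fixed

/-- TARGET -/
theorem E5_fixed {p : ℕ} [Fact p.Prime] (m r n s : ℕ) (hmr : m + r = n) (hm : 100 ≤ m)
    (α : Type) (𝒢 : α → Type) [∀ a, Group (𝒢 a)] (hcard : ∀ a, Nat.card (𝒢 a) = p ^ n)
    (hF : ∀ a, Nat.card (FrP p (𝒢 a)) = p ^ r) (hs : ∀ a, Nat.card (TT p (𝒢 a)) = p ^ s)
    (hS : ∀ a, ¬ SmallIm p m (p ^ (4 * (m / 100) * m + 1)) (𝒢 a)) :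
    Nat.card (Quot fun a b => Nonempty (𝒢 a ≃* 𝒢 b)) *
        p ^ ((r - s) * ((m / 100 + 1) * (m - 2 * (m / 100 + 1)))) ≤
      p ^ (m ^ 2 + (r - s) ^ 2 + (r - s) * (m * (m + 1) / 2) + s * (n * (n + 1) / 2)) := by
  have hp : 0 < p := (Fact.out : p.Prime).pos
  have hfin : ∀ a, Finite (𝒢 a) := fun a =>
    Nat.finite_of_card_ne_zero (by rw [hcard a]; exact (pow_pos hp n).ne')
  have hnor : ∀ a, (TT p (𝒢 a)).Normal := fun a => J_E5_fixed.TT_normal p (𝒢 a)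
  have key : ∀ a, ∃ (x : {cq : (Vp p m → Vp p m → Vp p (r - s)) × (Vp p m → Vp p (r - s)) //
      IsTD p m (r - s) cq.1 cq.2 ∧ ∃ (g : Vp p m ≃+ Vp p m) (g' : Vp p (r - s) ≃+ Vp p (r - s)),
        aGe g (m / 100 + 1) ∧ Compat cq.1 cq.2 g g'}) (u : 𝒢 a → Vp p m)
      (w : 𝒢 a → Vp p (r - s)), HasTD p m (r - s) (𝒢 a) u w x.1.1 x.1.2 := by
    intro a
    have := hfin a
    obtain ⟨u, h, ψ, hu, hag, hψ⟩ := J_E5_fixed.exists_aut m (m / 100) (𝒢 a) (hS a)
    obtain ⟨-, w, c, q, hTD, hIs, -⟩ := exists_TD m r s (𝒢 a) u hu (hF a) (hs a)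
    obtain ⟨g', hg'⟩ := compat_of_aut m (r - s) (𝒢 a) u w c q hTD ψ h hψ
    exact ⟨⟨(c, q), hIs, h, g', hag, hg'⟩, u, w, hTD⟩
  choose t u w hT using key
  have h1 := ext_count (p := p) n s
    {cq : (Vp p m → Vp p m → Vp p (r - s)) × (Vp p m → Vp p (r - s)) //
      IsTD p m (r - s) cq.1 cq.2 ∧ ∃ (g : Vp p m ≃+ Vp p m) (g' : Vp p (r - s) ≃+ Vp p (r - s)),
        aGe g (m / 100 + 1) ∧ Compat cq.1 cq.2 g g'} α 𝒢 hcard (fun a => TT p (𝒢 a)) hs t
    (by
      intro a b hab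
      have := hfin a
      have := hfin b
      refine quot_iso_of_TD m (r - s) (𝒢 a) (𝒢 b) (IsPGroup.of_card (hcard a))
        (IsPGroup.of_card (hcard b)) (u a) (w a) (u b) (w b) (t a).1.1 (t a).1.2 (hT a) ?_
      rw [hab]
      exact hT b)
  have h2 := card_TD_aGe p m (r - s) (m / 100 + 1) (by omega)
  calc Nat.card (Quot fun a b => Nonempty (𝒢 a ≃* 𝒢 b)) *
        p ^ ((r - s) * ((m / 100 + 1) * (m - 2 * (m / 100 + 1))))
      ≤ (Nat.card {cq : (Vp p m → Vp p m → Vp p (r - s)) × (Vp p m → Vp p (r - s)) //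
      IsTD p m (r - s) cq.1 cq.2 ∧ ∃ (g : Vp p m ≃+ Vp p m) (g' : Vp p (r - s) ≃+ Vp p (r - s)),
        aGe g (m / 100 + 1) ∧ Compat cq.1 cq.2 g g'} * p ^ (s * (n * (n + 1) / 2))) *
        p ^ ((r - s) * ((m / 100 + 1) * (m - 2 * (m / 100 + 1)))) := Nat.mul_le_mul_right _ h1
    _ = (Nat.card {cq : (Vp p m → Vp p m → Vp p (r - s)) × (Vp p m → Vp p (r - s)) //
      IsTD p m (r - s) cq.1 cq.2 ∧ ∃ (g : Vp p m ≃+ Vp p m) (g' : Vp p (r - s) ≃+ Vp p (r - s)),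
        aGe g (m / 100 + 1) ∧ Compat cq.1 cq.2 g g'} *
        p ^ ((r - s) * ((m / 100 + 1) * (m - 2 * (m / 100 + 1))))) *
        p ^ (s * (n * (n + 1) / 2)) := by ring
    _ ≤ p ^ (m ^ 2 + (r - s) ^ 2 + (r - s) * (m * (m + 1) / 2)) *
        p ^ (s * (n * (n + 1) / 2)) := Nat.mul_le_mul_right _ h2
    _ = _ := by rw [← pow_add]

end Pool.Agent.Helper252_Enum
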