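import Pool.Agent.Helper252_Enum.R17_card_TT_le
import Pool.Agent.Helper252_Enum.R21_quot_cover
import Pool.Agent.Helper252_Enum.R22_E5_fixed

set_option autoImplicit false

open scoped commutatorElement

namespace Pool.Agent.Helper252_Enum

namespace J_E5

/-- The real inequality behind the estimate. -/
theorem real_bound (m r n t s : ℝ) (hn : 100000 ≤ n) (hmr : m + r = n) (h1 : 19 * n ≤ 60 * r)
    (h2 : 60 * r ≤ 21 * n) (ht1 : m ≤ 100 * t) (ht2 : 100 * t ≤ m + 100) (hs0 : 0 ≤ s)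
    (hs : s ≤ 27) :
    m ^ 2 + (r - s) ^ 2 + (r - s) * (m * (m + 1) / 2) + s * (n * (n + 1) / 2) + n ^ 2 + 6 ≤
      2 * n ^ 3 / 27 + (r - s) * (t * (m - 2 * t)) := by
  have hr : 0.25 * n ≤ r - 27 := by nlinarith
  have hm : 0.65 * n ≤ m := by linarith
  have hm0 : 0 < m := by linarith
  have hr0 : 0 < r := by linarith
  have hb : 0.0039 * n ^ 2 ≤ t * (m - 2 * t) := by
    have e1 : 49 / 50 * m - 2 ≤ m - 2 * t := by linarith
    have e2 : m / 100 ≤ t := by linarith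
    have e3 : 0.6 * n ≤ 49 / 50 * m - 2 := by linarith
    have e4 : 0.0065 * n ≤ t := by linarith
    have e5 : 0.6 * n ≤ m - 2 * t := by linarith
    calc 0.0039 * n ^ 2 = (0.0065 * n) * (0.6 * n) := by ring
      _ ≤ t * (m - 2 * t) := mul_le_mul e4 e5 (by linarith) (by linarith)
  have hx : 16 * n ^ 2 ≤ (r - s) * (t * (m - 2 * t)) := by
    have e1 : (0.25 * n) * (0.0039 * n ^ 2) ≤ (r - s) * (t * (m - 2 * t)) :=
      mul_le_mul (by linarith) hb (by positivity) (by linarith)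
    nlinarith [sq_nonneg n]
  have hag : r * m ^ 2 / 2 ≤ 2 * n ^ 3 / 27 := by
    have e : 2 * n ^ 3 / 27 - r * m ^ 2 / 2 = (m - 2 * r) ^ 2 * (4 * m + r) / 54 := by
      rw [← hmr]; ring
    have : 0 ≤ (m - 2 * r) ^ 2 * (4 * m + r) / 54 := by positivity
    linarith
  have hy1 : (r - s) ^ 2 ≤ r ^ 2 := by
    apply pow_le_pow_left₀ (by linarith)
    linarith
  have hy2 : (r - s) * (m * (m + 1) / 2) ≤ r * (m * (m + 1) / 2) :=
    mul_le_mul_of_nonneg_right (by linarith) (by positivity)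
  have hn0 : 0 ≤ n := by linarith
  have hy3 : s * (n * (n + 1) / 2) ≤ 27 * (n * (n + 1) / 2) :=
    mul_le_mul_of_nonneg_right hs (by positivity)
  have hq : m ^ 2 + r ^ 2 + r * m / 2 ≤ n ^ 2 := by
    rw [← hmr]
    nlinarith [mul_pos hr0 hm0]
  nlinarith

theorem nat_bound (m r n s : ℕ) (hn : 100000 ≤ n) (hmr : m + r = n) (h1 : 19 * n ≤ 60 * r)
    (h2 : 60 * r ≤ 21 * n) (hs : s ≤ 27) :
    m ^ 2 + (r - s) ^ 2 + (r - s) * (m * (m + 1) / 2) + s * (n * (n + 1) / 2) ≤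
      (r - s) * ((m / 100 + 1) * (m - 2 * (m / 100 + 1))) + (2 * n ^ 3 / 27 - n ^ 2 - 5) ∧
    n ^ 2 + 5 ≤ 2 * n ^ 3 / 27 := by
  have hsr : s ≤ r := by omega
  have hD : n ^ 2 + 5 ≤ 2 * n ^ 3 / 27 := by
    rw [Nat.le_div_iff_mul_le (by norm_num)]
    have : n ^ 3 = n * n ^ 2 := by ring
    nlinarith [sq_nonneg n]
  refine ⟨?_, hD⟩
  obtain ⟨ρ, rfl⟩ : ∃ ρ, r = ρ + s := ⟨r - s, by omega⟩
  rw [Nat.add_sub_cancel]
  generalize ht : m / 100 + 1 = t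
  have ht1 : m ≤ 100 * t := by omega
  have ht2 : 100 * t ≤ m + 100 := by omega
  have htm : 2 * t ≤ m := by omega
  obtain ⟨u, rfl⟩ : ∃ u, m = u + 2 * t := ⟨m - 2 * t, by omega⟩
  rw [Nat.add_sub_cancel]
  generalize hM : (u + 2 * t) * ((u + 2 * t) + 1) / 2 = M
  generalize hN : n * (n + 1) / 2 = N
  generalize hDD : 2 * n ^ 3 / 27 = D at hD
  have hM2 : 2 * M ≤ (u + 2 * t) * ((u + 2 * t) + 1) := by omega
  have hN2 : 2 * N ≤ n * (n + 1) := by omega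
  have hD2 : 2 * n ^ 3 ≤ 27 * D + 26 := by omega
  obtain ⟨E, rfl⟩ : ∃ E, D = E + 5 + n ^ 2 := ⟨D - n ^ 2 - 5, by omega⟩
  have hE : E + 5 + n ^ 2 - n ^ 2 - 5 = E := by omega
  rw [hE]
  have key := real_bound ((u + 2 * t : ℕ) : ℝ) ((ρ + s : ℕ) : ℝ) n t s (by exact_mod_cast hn)
    (by exact_mod_cast hmr) (by exact_mod_cast h1) (by exact_mod_cast h2)
    (by exact_mod_cast ht1) (by exact_mod_cast ht2) (by positivity) (by exact_mod_cast hs)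
  have hM3 : (2 : ℝ) * M ≤ ((u + 2 * t : ℕ) : ℝ) * (((u + 2 * t : ℕ) : ℝ) + 1) := by
    exact_mod_cast hM2
  have hN3 : (2 : ℝ) * N ≤ (n : ℝ) * (n + 1) := by exact_mod_cast hN2
  have hD3 : (2 : ℝ) * n ^ 3 ≤ 27 * ((E + 5 + n ^ 2 : ℕ) : ℝ) + 26 := by exact_mod_cast hD2
  have e1 : (((ρ + s : ℕ) : ℝ) - s) = ρ := by push_cast; ring
  have e2 : (((u + 2 * t : ℕ) : ℝ) - 2 * t) = u := by push_cast; ring
  rw [e1, e2] at key
  have hρ : (0 : ℝ) ≤ ρ := Nat.cast_nonneg _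
  have hs0 : (0 : ℝ) ≤ s := Nat.cast_nonneg _
  have k1 : (ρ : ℝ) * M ≤ ρ * (((u + 2 * t : ℕ) : ℝ) * (((u + 2 * t : ℕ) : ℝ) + 1) / 2) :=
    mul_le_mul_of_nonneg_left (by linarith) hρ
  have k2 : (s : ℝ) * N ≤ s * ((n : ℝ) * (n + 1) / 2) :=
    mul_le_mul_of_nonneg_left (by linarith) hs0
  have goal : (((u + 2 * t) ^ 2 + ρ ^ 2 + ρ * M + s * N : ℕ) : ℝ) ≤
      ((ρ * (t * u) + E : ℕ) : ℝ) := by
    push_cast at *
    linarith
  exact_mod_cast goal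

end J_E5

/-- TARGET -/
theorem E5 : ∃ n₀ : ℕ, ∀ (p : ℕ), p.Prime → ∀ m r n : ℕ, n₀ ≤ n → m + r = n →
    19 * n ≤ 60 * r → 60 * r ≤ 21 * n →
    ∀ (α : Type) (𝒢 : α → Type) [∀ a, Group (𝒢 a)], (∀ a, Nat.card (𝒢 a) = p ^ n) →
    (∀ a, Nat.card (FrP p (𝒢 a)) = p ^ r) →
    (∀ a, Nat.card (FrP p (𝒢 a)) ≤ p ^ 2 * Nat.card (K1 p (𝒢 a))) →
    (∀ a, ¬ SmallIm p m (p ^ (4 * (m / 100) * m + 1)) (𝒢 a)) →
    Nat.card (Quot fun a b => Nonempty (𝒢 a ≃* 𝒢 b)) ≤ p ^ (2 * n ^ 3 / 27 - n ^ 2) := by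
  refine ⟨100000, ?_⟩
  intro p hp m r n hn hmr h1 h2 α 𝒢 _ hcard hF hK hS
  have : Fact p.Prime := ⟨hp⟩
  have hm : 100 ≤ m := by omega
  have hp0 : 0 < p := hp.pos
  set e := 2 * n ^ 3 / 27 - n ^ 2 - 5 with he
  have h5 := (J_E5.nat_bound m r n 0 hn hmr h1 h2 (by norm_num)).2
  have hcov := quot_cover (p ^ n) (pow_pos hp0 n) α 𝒢 hcard 28 (fun _ => (p : ℝ) ^ e)
    (fun s a => Nat.card (TT p (𝒢 a)) = p ^ s) ?_ ?_
  · rw [Finset.sum_const, Finset.card_range, nsmul_eq_mul] at hcov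
    have h28 : ((28 : ℕ) : ℝ) ≤ (p : ℝ) ^ 5 := by
      have : (2 : ℝ) ≤ p := by exact_mod_cast hp.two_le
      calc ((28 : ℕ) : ℝ) ≤ (2 : ℝ) ^ 5 := by norm_num
        _ ≤ (p : ℝ) ^ 5 := pow_le_pow_left₀ (by norm_num) this 5
    have hfin : (Nat.card (Quot fun a b => Nonempty (𝒢 a ≃* 𝒢 b)) : ℝ) ≤
        (p : ℝ) ^ (2 * n ^ 3 / 27 - n ^ 2) := by
      refine hcov.trans ?_
      have : 2 * n ^ 3 / 27 - n ^ 2 = 5 + e := by omega
      rw [this, pow_add]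
      exact mul_le_mul_of_nonneg_right h28 (by positivity)
    exact_mod_cast hfin
  · intro a
    have hc := hcard a
    have hfinite : Finite (𝒢 a) := Nat.finite_of_card_ne_zero (by
      rw [hc]; exact (pow_pos hp0 n).ne')
    have hpg : IsPGroup p (𝒢 a) := IsPGroup.of_card hc
    have hT := card_TT_le (𝒢 a) hpg (hK a)
    have hdvd : Nat.card (TT p (𝒢 a)) ∣ p ^ n := by
      rw [← hc]
      exact Subgroup.card_subgroup_dvd_card _
    obtain ⟨s, _, hs⟩ := (Nat.dvd_prime_pow hp).1 hdvd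
    refine ⟨s, ?_, hs⟩
    rw [hs] at hT
    have := (Nat.pow_le_pow_iff_right hp.one_lt).1 hT
    omega
  · intro i hi
    have hQ := E5_fixed m r n i hmr hm {a : α // Nat.card (TT p (𝒢 a)) = p ^ i}
      (fun a => 𝒢 a.1) (fun a => hcard a.1) (fun a => hF a.1) (fun a => a.2) (fun a => hS a.1)
    have hb := (J_E5.nat_bound m r n i hn hmr h1 h2 (by omega)).1
    rw [← he] at hb
    have hQ2 := hQ.trans (Nat.pow_le_pow_right hp0 hb)
    rw [pow_add, mul_comm (p ^ _) (p ^ e)] at hQ2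
    have hQ3 := Nat.le_of_mul_le_mul_right hQ2 (pow_pos hp0 _)
    exact_mod_cast hQ3

end Pool.Agent.Helper252_Enum
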