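import Pool.Agent.Helper252_Enum.Defs2

set_option autoImplicit false

open scoped commutatorElement

namespace Pool.Agent.Helper252_Enum

namespace J_exists_group_of_TD

/-- The carry of two residues. -/
def sg {p : ℕ} (x y : ZMod p) : ℕ := (x.val + y.val) / p

theorem sg_spec {p : ℕ} [NeZero p] (x y : ZMod p) :
    p * sg x y + (x + y).val = x.val + y.val := by
  rw [sg, ZMod.val_add]
  exact Nat.div_add_mod _ _

theorem sg_cocycle {p : ℕ} [NeZero p] (x y z : ZMod p) :
    sg x y + sg (x + y) z = sg y z + sg x (y + z) := by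
  have h1 := sg_spec x y
  have h2 := sg_spec (x + y) z
  have h3 := sg_spec y z
  have h4 := sg_spec x (y + z)
  rw [← add_assoc] at h4
  have hp : 0 < p := Nat.pos_of_ne_zero (NeZero.ne p)
  apply Nat.eq_of_mul_eq_mul_left hp
  rw [mul_add, mul_add]
  omega

theorem sg_comm {p : ℕ} (x y : ZMod p) : sg x y = sg y x := by
  rw [sg, sg, add_comm]

theorem sg_zero_left {p : ℕ} [NeZero p] (y : ZMod p) : sg 0 y = 0 := by
  rw [sg, ZMod.val_zero, zero_add]
  exact Nat.div_eq_of_lt (ZMod.val_lt y)

theorem sg_zero_right {p : ℕ} [NeZero p] (y : ZMod p) : sg y 0 = 0 := by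
  rw [sg_comm, sg_zero_left]

theorem sg_sum {p : ℕ} [NeZero p] (x : ZMod p) (k : ℕ) :
    p * ∑ l ∈ Finset.range k, sg ((l : ZMod p) * x) x + ((k : ZMod p) * x).val = k * x.val := by
  induction k with
  | zero => simp
  | succ k ih =>
    rw [Finset.sum_range_succ, mul_add, Nat.cast_succ, add_mul, one_mul]
    have := sg_spec ((k : ZMod p) * x) x
    rw [add_mul, one_mul]
    omega

theorem sg_sum_p {p : ℕ} [NeZero p] (x : ZMod p) :
    ∑ l ∈ Finset.range p, sg ((l : ZMod p) * x) x = x.val := by
  have h := sg_sum x p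
  rw [ZMod.natCast_self, zero_mul, ZMod.val_zero, add_zero] at h
  exact Nat.eq_of_mul_eq_mul_left (Nat.pos_of_ne_zero (NeZero.ne p)) h

theorem add_ext {p m r : ℕ} (f g : Vp p m → Vp p r)
    (hf : ∀ v w, f (v + w) = f v + f w) (hg : ∀ v w, g (v + w) = g v + g w)
    (h : ∀ i, f (Pi.single i 1) = g (Pi.single i 1)) : f = g := by
  let F : Vp p m →ₗ[ZMod p] Vp p r := (AddMonoidHom.mk' f hf).toZModLinearMap p
  let F' : Vp p m →ₗ[ZMod p] Vp p r := (AddMonoidHom.mk' g hg).toZModLinearMap p
  have h1 : F = F' := by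
    refine (Pi.basisFun (ZMod p) (Fin m)).ext fun i => ?_
    rw [Pi.basisFun_apply]
    exact h i
  funext v
  exact LinearMap.congr_fun h1 v

theorem expand {p m r : ℕ} (f : Vp p m → Vp p r) (hf : ∀ v w, f (v + w) = f v + f w)
    (v : Vp p m) : f v = ∑ i, v i • f (Pi.single i 1) := by
  have h := add_ext f (fun v => ∑ i, v i • f (Pi.single i 1)) hf (fun v w => by
    simp only [Pi.add_apply, add_smul, Finset.sum_add_distrib]) (fun i => by
    rw [Finset.sum_eq_single i]
    · rw [Pi.single_eq_same, one_smul]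
    · intro j _ hj
      rw [Pi.single_eq_of_ne hj, zero_smul]
    · intro h
      exact absurd (Finset.mem_univ i) h)
  exact congrFun h v

variable {p m r : ℕ}

/-- Half of the alternating map. -/
def B (c : Vp p m → Vp p m → Vp p r) (v w : Vp p m) : Vp p r :=
  ∑ i, ∑ j, (if i < j then v i * w j else 0) • c (Pi.single i 1) (Pi.single j 1)

theorem B_add_left (c : Vp p m → Vp p m → Vp p r) (v v' w : Vp p m) :
    B c (v + v') w = B c v w + B c v' w := by
  unfold B
  simp only [← Finset.sum_add_distrib]
  refine Finset.sum_congr rfl fun i _ => Finset.sum_congr rfl fun j _ => ?_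
  rw [← add_smul]
  congr 1
  split_ifs
  · rw [Pi.add_apply, add_mul]
  · rw [add_zero]

theorem B_add_right (c : Vp p m → Vp p m → Vp p r) (v w w' : Vp p m) :
    B c v (w + w') = B c v w + B c v w' := by
  unfold B
  simp only [← Finset.sum_add_distrib]
  refine Finset.sum_congr rfl fun i _ => Finset.sum_congr rfl fun j _ => ?_
  rw [← add_smul]
  congr 1
  split_ifs
  · rw [Pi.add_apply, mul_add]
  · rw [add_zero]

theorem B_single (c : Vp p m → Vp p m → Vp p r) (k : Fin m) :
    B c (Pi.single k 1) (Pi.single k 1) = 0 := by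
  unfold B
  refine Finset.sum_eq_zero fun i _ => Finset.sum_eq_zero fun j _ => ?_
  split_ifs with h
  · rcases eq_or_ne i k with rfl | hi
    · rw [Pi.single_eq_of_ne (ne_of_gt h), mul_zero, zero_smul]
    · rw [Pi.single_eq_of_ne hi, zero_mul, zero_smul]
  · rw [zero_smul]

theorem B_sub (c : Vp p m → Vp p m → Vp p r) (q : Vp p m → Vp p r) (h : IsTD p m r c q)
    (v w : Vp p m) : B c v w = B c w v + c v w := by
  have skew : ∀ v w, c v w = -c w v := by
    intro v w
    have := h.alt (v + w)
    rw [h.add_left, h.add_right, h.add_right, h.alt, h.alt, zero_add, add_zero] at this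
    exact eq_neg_of_add_eq_zero_left this
  have e1 : c v w = ∑ i, ∑ j, (v i * w j) • c (Pi.single i 1) (Pi.single j 1) := by
    rw [expand (fun v => c v w) (fun v v' => h.add_left v v' w) v]
    refine Finset.sum_congr rfl fun i _ => ?_
    rw [expand (fun w => c (Pi.single i 1) w) (fun v v' => h.add_right _ v v') w,
      Finset.smul_sum]
    refine Finset.sum_congr rfl fun j _ => ?_
    rw [mul_smul]
  have e2 : B c w v = -∑ i, ∑ j, (if j < i then v i * w j else 0) •
      c (Pi.single i 1) (Pi.single j 1) := by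
    unfold B
    rw [Finset.sum_comm, ← Finset.sum_neg_distrib]
    refine Finset.sum_congr rfl fun i _ => ?_
    rw [← Finset.sum_neg_distrib]
    refine Finset.sum_congr rfl fun j _ => ?_
    rw [skew (Pi.single j 1), smul_neg]
    congr 2
    split_ifs
    · rw [mul_comm]
    · rfl
  rw [e1, e2, neg_add_eq_sub, eq_sub_iff_add_eq]
  unfold B
  simp only [← Finset.sum_add_distrib]
  refine Finset.sum_congr rfl fun i _ => Finset.sum_congr rfl fun j _ => ?_
  rw [← add_smul]
  rcases lt_trichotomy i j with hij | hij | hij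
  · rw [if_pos hij, if_neg (not_lt.2 hij.le), add_zero]
  · subst hij
    rw [h.alt, smul_zero, smul_zero]
  · rw [if_neg (not_lt.2 hij.le), if_pos hij, zero_add]

/-- The linear part. -/
def Lq (q : Vp p m → Vp p r) (v : Vp p m) : Vp p r := ∑ i, v i • q (Pi.single i 1)

theorem Lq_add (q : Vp p m → Vp p r) (v w : Vp p m) : Lq q (v + w) = Lq q v + Lq q w := by
  unfold Lq
  simp only [Pi.add_apply, add_smul, Finset.sum_add_distrib]

theorem Lq_single (q : Vp p m → Vp p r) (i : Fin m) : Lq q (Pi.single i 1) = q (Pi.single i 1) := by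
  unfold Lq
  rw [Finset.sum_eq_single i]
  · rw [Pi.single_eq_same, one_smul]
  · intro j _ hj
    rw [Pi.single_eq_of_ne hj, zero_smul]
  · intro h
    exact absurd (Finset.mem_univ i) h

theorem nsmul_p (w : Vp p r) : p • w = 0 := by
  funext i
  rw [Pi.smul_apply, nsmul_eq_mul, ZMod.natCast_self, zero_mul, Pi.zero_apply]

theorem q_eq [Fact p.Prime] (c : Vp p m → Vp p m → Vp p r) (q : Vp p m → Vp p r)
    (h : IsTD p m r c q) (v : Vp p m) :
    q v = (∑ l ∈ Finset.range p, l) • B c v v + Lq q v := by
  have hodd : p ≠ 2 → ∀ w : Vp p r, (∑ l ∈ Finset.range p, l) • w = 0 := by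
    intro hp w
    rw [Finset.sum_range_id]
    have hp2 := (Fact.out : p.Prime).eq_two_or_odd'.resolve_left hp
    obtain ⟨k, hk⟩ := hp2
    have : p * (p - 1) / 2 = k * p := by
      have h1 : p - 1 = 2 * k := by omega
      rw [h1, show p * (2 * k) = 2 * (k * p) by ring]
      exact Nat.mul_div_cancel_left _ (by norm_num)
    rw [this, mul_smul, nsmul_p, smul_zero]
  have key : (fun v => q v - ((∑ l ∈ Finset.range p, l) • B c v v + Lq q v)) =
      fun _ => (0 : Vp p r) := by
    refine add_ext _ _ ?_ ?_ ?_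
    · intro v w
      change q (v + w) - ((∑ l ∈ Finset.range p, l) • B c (v + w) (v + w) + Lq q (v + w)) =
        (q v - ((∑ l ∈ Finset.range p, l) • B c v v + Lq q v)) +
        (q w - ((∑ l ∈ Finset.range p, l) • B c w w + Lq q w))
      rw [h.pw, Lq_add]
      by_cases hp : p = 2
      · have hs : (∑ l ∈ Finset.range p, l) = 1 := by
          rw [hp]; rfl
        rw [if_pos hp, hs, one_smul, one_smul, one_smul, B_add_left, B_add_right, B_add_right,
          B_sub c q h v w]
        have h2 : B c w v + B c w v = 0 := by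
          have h4 := nsmul_p (p := p) (B c w v)
          have h5 : p • B c w v = 2 • B c w v := congrArg (fun n : ℕ => n • B c w v) hp
          rw [← two_nsmul, ← h5, h4]
        have h3 : B c v v + (B c w v + c v w) + (B c w v + B c w w) =
            B c v v + B c w w + c v w + (B c w v + B c w v) := by abel
        rw [h3, h2]
        abel
      · rw [if_neg hp, hodd hp, hodd hp, hodd hp]
        abel
    · intro v w
      rw [add_zero]
    · intro i
      rw [B_single, smul_zero, zero_add, Lq_single, sub_self]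
  exact sub_eq_zero.1 (congrFun key v)

/-- The cocycle. -/
def be (c : Vp p m → Vp p m → Vp p r) (q : Vp p m → Vp p r) (v w : Vp p m) : Vp p r :=
  B c v w + ∑ i, sg (v i) (w i) • q (Pi.single i 1)

theorem B_zero_left (c : Vp p m → Vp p m → Vp p r) (w : Vp p m) : B c 0 w = 0 := by
  have := B_add_left c 0 0 w
  rw [add_zero] at this
  exact left_eq_add.1 this

theorem B_zero_right (c : Vp p m → Vp p m → Vp p r) (w : Vp p m) : B c w 0 = 0 := by
  have := B_add_right c w 0 0
  rw [add_zero] at this
  exact left_eq_add.1 this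

theorem be_zero_left [NeZero p] (c : Vp p m → Vp p m → Vp p r) (q : Vp p m → Vp p r)
    (w : Vp p m) : be c q 0 w = 0 := by
  unfold be
  rw [B_zero_left, zero_add]
  refine Finset.sum_eq_zero fun i _ => ?_
  rw [Pi.zero_apply, sg_zero_left, zero_smul]

theorem be_zero_right [NeZero p] (c : Vp p m → Vp p m → Vp p r) (q : Vp p m → Vp p r)
    (w : Vp p m) : be c q w 0 = 0 := by
  unfold be
  rw [B_zero_right, zero_add]
  refine Finset.sum_eq_zero fun i _ => ?_
  rw [Pi.zero_apply, sg_zero_right, zero_smul]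

theorem be_cocycle [NeZero p] (c : Vp p m → Vp p m → Vp p r) (q : Vp p m → Vp p r)
    (u v w : Vp p m) : be c q u v + be c q (u + v) w = be c q v w + be c q u (v + w) := by
  unfold be
  rw [B_add_left, B_add_right]
  have h : (∑ i, sg (u i) (v i) • q (Pi.single i 1)) +
      (∑ i, sg ((u + v) i) (w i) • q (Pi.single i 1)) =
      (∑ i, sg (v i) (w i) • q (Pi.single i 1)) +
      (∑ i, sg (u i) ((v + w) i) • q (Pi.single i 1)) := by
    rw [← Finset.sum_add_distrib, ← Finset.sum_add_distrib]
    refine Finset.sum_congr rfl fun i _ => ?_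
    rw [← add_smul, ← add_smul, Pi.add_apply, Pi.add_apply, sg_cocycle]
  have h' : ∀ a b d e f : Vp p r, (a + e) + (b + d + f) = (a + b + d) + (e + f) := by
    intros; abel
  rw [h', h]
  abel

theorem be_sub (c : Vp p m → Vp p m → Vp p r) (q : Vp p m → Vp p r) (h : IsTD p m r c q)
    (v w : Vp p m) : be c q v w = be c q w v + c v w := by
  unfold be
  rw [B_sub c q h v w]
  have : (∑ i, sg (v i) (w i) • q (Pi.single i 1)) = ∑ i, sg (w i) (v i) • q (Pi.single i 1) :=
    Finset.sum_congr rfl fun i _ => by rw [sg_comm]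
  rw [this]
  abel

theorem B_nsmul (c : Vp p m → Vp p m → Vp p r) (l : ℕ) (v w : Vp p m) :
    B c (l • v) w = l • B c v w := by
  induction l with
  | zero => rw [zero_smul, zero_smul, B_zero_left]
  | succ l ih => rw [succ_nsmul, succ_nsmul, B_add_left, ih]

theorem be_sum [Fact p.Prime] (c : Vp p m → Vp p m → Vp p r) (q : Vp p m → Vp p r)
    (h : IsTD p m r c q) (v : Vp p m) :
    ∑ l ∈ Finset.range p, be c q (l • v) v = q v := by
  rw [q_eq c q h v]
  unfold be
  rw [Finset.sum_add_distrib, Finset.sum_smul]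
  congr 1
  · refine Finset.sum_congr rfl fun l _ => ?_
    rw [B_nsmul]
  · rw [Finset.sum_comm]
    unfold Lq
    refine Finset.sum_congr rfl fun i _ => ?_
    rw [← Finset.sum_smul]
    have : (∑ l ∈ Finset.range p, sg ((l • v) i) (v i)) = (v i).val := by
      rw [← sg_sum_p (v i)]
      refine Finset.sum_congr rfl fun l _ => ?_
      rw [Pi.smul_apply, nsmul_eq_mul]
    rw [this, ← Nat.cast_smul_eq_nsmul (ZMod p), ZMod.natCast_zmod_val]

/-- The group attached to a cocycle. -/
@[ext] structure Gp (p m r : ℕ) (β : Vp p m → Vp p m → Vp p r) where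
  /-- central part -/
  a : Vp p r
  /-- quotient part -/
  v : Vp p m

/-- The group structure. -/
@[reducible] def grp (β : Vp p m → Vp p m → Vp p r) (h1 : ∀ w, β 0 w = 0) (h2 : ∀ w, β w 0 = 0)
    (h3 : ∀ u v w, β u v + β (u + v) w = β v w + β u (v + w)) : Group (Gp p m r β) where
  mul x y := ⟨x.a + y.a + β x.v y.v, x.v + y.v⟩
  one := ⟨0, 0⟩
  inv x := ⟨-x.a - β (-x.v) x.v, -x.v⟩
  mul_assoc := by
    intro x y z
    have h := h3 x.v y.v z.v
    apply Gp.ext
    · change (x.a + y.a + β x.v y.v) + z.a + β (x.v + y.v) z.v =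
        x.a + (y.a + z.a + β y.v z.v) + β x.v (y.v + z.v)
      have e1 : (x.a + y.a + β x.v y.v) + z.a + β (x.v + y.v) z.v =
        (x.a + y.a + z.a) + (β x.v y.v + β (x.v + y.v) z.v) := by abel
      rw [e1, h]
      abel
    · change (x.v + y.v) + z.v = x.v + (y.v + z.v)
      rw [add_assoc]
  one_mul := by
    intro x
    apply Gp.ext
    · change 0 + x.a + β 0 x.v = x.a
      rw [h1, zero_add, add_zero]
    · change 0 + x.v = x.v
      rw [zero_add]
  mul_one := by
    intro x
    apply Gp.ext
    · change x.a + 0 + β x.v 0 = x.a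
      rw [h2, add_zero, add_zero]
    · change x.v + 0 = x.v
      rw [add_zero]
  inv_mul_cancel := by
    intro x
    apply Gp.ext
    · change (-x.a - β (-x.v) x.v) + x.a + β (-x.v) x.v = 0
      abel
    · change -x.v + x.v = 0
      rw [neg_add_cancel]

end J_exists_group_of_TD

/-- TARGET -/
theorem exists_group_of_TD (p m r : ℕ) [Fact p.Prime] (c : Vp p m → Vp p m → Vp p r)
    (q : Vp p m → Vp p r) (h : IsTD p m r c q) (hs : Spans c q) :
    ∃ (G : Type) (_ : Group G) (u : G → Vp p m) (w : G → Vp p r),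
      Nat.card G = p ^ (m + r) ∧ Nat.card (FrP p G) = p ^ r ∧ TT p G = ⊥ ∧
      HasTD p m r G u w c q := by
  classical
  obtain ⟨β, b1, b2, b3, b4, b5⟩ : ∃ β : Vp p m → Vp p m → Vp p r, (∀ w, β 0 w = 0) ∧
      (∀ w, β w 0 = 0) ∧ (∀ u v w, β u v + β (u + v) w = β v w + β u (v + w)) ∧
      (∀ v w, β v w = β w v + c v w) ∧
      (∀ v, ∑ l ∈ Finset.range p, β (l • v) v = q v) :=
    ⟨J_exists_group_of_TD.be c q, J_exists_group_of_TD.be_zero_left c q,
      J_exists_group_of_TD.be_zero_right c q, J_exists_group_of_TD.be_cocycle c q,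
      J_exists_group_of_TD.be_sub c q h, J_exists_group_of_TD.be_sum c q h⟩
  let inst : Group (J_exists_group_of_TD.Gp p m r β) := J_exists_group_of_TD.grp β b1 b2 b3
  have mul_a : ∀ x y : J_exists_group_of_TD.Gp p m r β, (x * y).a = x.a + y.a + β x.v y.v :=
    fun _ _ => rfl
  have mul_v : ∀ x y : J_exists_group_of_TD.Gp p m r β, (x * y).v = x.v + y.v := fun _ _ => rfl
  have one_a : (1 : J_exists_group_of_TD.Gp p m r β).a = 0 := rfl
  have one_v : (1 : J_exists_group_of_TD.Gp p m r β).v = 0 := rfl
  have comm : ∀ x y : J_exists_group_of_TD.Gp p m r β, ⁅x, y⁆ = ⟨c x.v y.v, 0⟩ := by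
    intro x y
    have e1 : ⁅x, y⁆ * (y * x) = x * y := by
      rw [commutatorElement_def]; group
    have e2 : (⟨c x.v y.v, 0⟩ : J_exists_group_of_TD.Gp p m r β) * (y * x) = x * y := by
      apply J_exists_group_of_TD.Gp.ext
      · rw [mul_a, mul_a, mul_a, b1, b4 x.v y.v]
        change c x.v y.v + (y.a + x.a + β y.v x.v) + 0 = _
        abel
      · rw [mul_v, mul_v, mul_v, zero_add, add_comm]
    exact mul_right_cancel (e1.trans e2.symm)
  have pow : ∀ (x : J_exists_group_of_TD.Gp p m r β) (k : ℕ),
      x ^ k = ⟨k • x.a + ∑ l ∈ Finset.range k, β (l • x.v) x.v, k • x.v⟩ := by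
    intro x k
    induction k with
    | zero =>
      rw [pow_zero]
      apply J_exists_group_of_TD.Gp.ext
      · rw [one_a, zero_smul, Finset.range_zero, Finset.sum_empty, add_zero]
      · change (0 : Vp p m) = 0 • x.v
        rw [zero_smul]
    | succ k ih =>
      rw [pow_succ, ih]
      apply J_exists_group_of_TD.Gp.ext
      · rw [mul_a, Finset.sum_range_succ, succ_nsmul]
        change k • x.a + ∑ l ∈ Finset.range k, β (l • x.v) x.v + x.a + β (k • x.v) x.v =
          k • x.a + x.a + (∑ l ∈ Finset.range k, β (l • x.v) x.v + β (k • x.v) x.v)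
        generalize k • x.a = A
        generalize β (k • x.v) x.v = A'
        generalize ∑ l ∈ Finset.range k, β (l • x.v) x.v = A''
        abel
      · change k • x.v + x.v = (k + 1) • x.v
        rw [succ_nsmul]
  have powp : ∀ x : J_exists_group_of_TD.Gp p m r β, x ^ p = ⟨q x.v, 0⟩ := by
    intro x
    rw [pow, J_exists_group_of_TD.nsmul_p, J_exists_group_of_TD.nsmul_p, zero_add, b5]
  have c0 : ∀ v, c 0 v = 0 := by
    intro v
    have := h.add_left 0 0 v
    rw [add_zero] at this
    exact left_eq_add.1 this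
  have q0 : q 0 = 0 := by
    have := h.pw 0 0
    rw [add_zero, h.alt, ite_self, add_zero] at this
    exact left_eq_add.1 this
  have Fr : ∀ x : J_exists_group_of_TD.Gp p m r β,
      x ∈ FrP p (J_exists_group_of_TD.Gp p m r β) ↔ x.v = 0 := by
    intro x
    constructor
    · intro hx
      let K : Subgroup (J_exists_group_of_TD.Gp p m r β) :=
        { carrier := {x | x.v = 0}
          mul_mem' := by
            intro a b (ha : a.v = 0) (hb : b.v = 0)
            change (a * b).v = 0
            rw [mul_v, ha, hb, add_zero]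
          one_mem' := one_v
          inv_mem' := by
            intro a (ha : a.v = 0)
            change -a.v = 0
            rw [ha, neg_zero] }
      have hK : FrP p (J_exists_group_of_TD.Gp p m r β) ≤ K := by
        unfold FrP PC
        rw [Subgroup.closure_le]
        rintro y (⟨a, _, b, _, rfl⟩ | ⟨a, _, rfl⟩)
        · change (⁅a, b⁆).v = 0
          rw [comm]
        · change (a ^ p).v = 0
          rw [powp]
      exact hK hx
    · intro hx
      have key : ∀ z : Vp p r, z ∈ AddSubgroup.closure ({x | ∃ v w, x = c v w} ∪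
          {x | ∃ v, x = q v}) → (⟨z, 0⟩ : J_exists_group_of_TD.Gp p m r β) ∈
          FrP p (J_exists_group_of_TD.Gp p m r β) := by
        intro z hz
        induction hz using AddSubgroup.closure_induction with
        | mem y hy =>
          unfold FrP PC
          rcases hy with ⟨v, w, rfl⟩ | ⟨v, rfl⟩
          · refine Subgroup.subset_closure (Or.inl ⟨⟨0, v⟩, Subgroup.mem_top _, ⟨0, w⟩,
              Subgroup.mem_top _, ?_⟩)
            rw [comm]
          · refine Subgroup.subset_closure (Or.inr ⟨⟨0, v⟩, Subgroup.mem_top _, ?_⟩)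
            rw [powp]
        | zero => exact Subgroup.one_mem _
        | add y y' _ _ hy hy' =>
          have e : (⟨y + y', 0⟩ : J_exists_group_of_TD.Gp p m r β) = ⟨y, 0⟩ * ⟨y', 0⟩ := by
            apply J_exists_group_of_TD.Gp.ext
            · rw [mul_a, b1, add_zero]
            · rw [mul_v, add_zero]
          rw [e]
          exact Subgroup.mul_mem _ hy hy'
        | neg y _ hy =>
          have e : (⟨-y, 0⟩ : J_exists_group_of_TD.Gp p m r β) = (⟨y, 0⟩)⁻¹ := by
            rw [eq_comm, inv_eq_iff_mul_eq_one]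
            apply J_exists_group_of_TD.Gp.ext
            · rw [mul_a, b1, add_zero, one_a, add_neg_cancel]
            · rw [mul_v, add_zero, one_v]
          rw [e]
          exact Subgroup.inv_mem _ hy
      have h1 := key x.a (by rw [hs]; exact AddSubgroup.mem_top _)
      have h2 : x = ⟨x.a, 0⟩ := by
        apply J_exists_group_of_TD.Gp.ext
        · rfl
        · exact hx
      rw [h2]
      exact h1
  have hTT : TT p (J_exists_group_of_TD.Gp p m r β) = ⊥ := by
    unfold TT PC
    rw [Subgroup.closure_eq_bot_iff]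
    rintro y (⟨a, ha, b, _, rfl⟩ | ⟨a, ha, rfl⟩)
    · rw [Set.mem_singleton_iff, comm, (Fr a).1 ha, c0]
      rfl
    · rw [Set.mem_singleton_iff, powp, (Fr a).1 ha, q0]
      rfl
  let eG : J_exists_group_of_TD.Gp p m r β ≃ Vp p r × Vp p m :=
    { toFun := fun x => (x.a, x.v)
      invFun := fun x => ⟨x.1, x.2⟩
      left_inv := fun _ => rfl
      right_inv := fun _ => rfl }
  let eF : FrP p (J_exists_group_of_TD.Gp p m r β) ≃ Vp p r :=
    { toFun := fun x => x.1.a
      invFun := fun z => ⟨⟨z, 0⟩, (Fr _).2 rfl⟩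
      left_inv := by
        intro x
        apply Subtype.ext
        apply J_exists_group_of_TD.Gp.ext
        · rfl
        · exact ((Fr x.1).1 x.2).symm
      right_inv := fun _ => rfl }
  have cardV : ∀ n : ℕ, Nat.card (Vp p n) = p ^ n := by
    intro n
    rw [Nat.card_eq_fintype_card, Fintype.card_fun, ZMod.card, Fintype.card_fin]
  refine ⟨J_exists_group_of_TD.Gp p m r β, inst, fun x => x.v,
    fun x => if x.v = 0 then x.a else 0, ?_, ?_, hTT, ?_⟩
  · rw [Nat.card_congr eG, Nat.card_prod, cardV, cardV, ← pow_add, add_comm]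
  · rw [Nat.card_congr eF, cardV]
  · refine ⟨⟨mul_v, fun v => ⟨⟨0, v⟩, rfl⟩, fun a => (Fr a).symm⟩, ?_, ?_, ?_, ?_, ?_, ?_⟩
    · intro a ha b hb
      have ha' := (Fr a).1 ha
      have hb' := (Fr b).1 hb
      change (if (a * b).v = 0 then (a * b).a else 0) =
        (if a.v = 0 then a.a else 0) + (if b.v = 0 then b.a else 0)
      rw [mul_v, mul_a, ha', hb', b1, add_zero, if_pos rfl, if_pos rfl, if_pos rfl, add_zero]
    · intro a ha
      exact if_neg fun h0 => ha ((Fr a).2 h0)
    · intro x
      exact ⟨⟨x, 0⟩, (Fr _).2 rfl, if_pos rfl⟩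
    · intro a ha
      have ha' := (Fr a).1 ha
      change (if a.v = 0 then a.a else 0) = 0 ↔ _
      rw [if_pos ha', hTT, Subgroup.mem_bot]
      constructor
      · intro h0
        exact J_exists_group_of_TD.Gp.ext h0 ha'
      · intro h0
        rw [h0, one_a]
    · intro a b
      rw [comm, if_pos rfl]
    · intro a
      rw [powp, if_pos rfl]

end Pool.Agent.Helper252_Enum
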