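import Pool.Agent.Helper252_Enum.R24_exists_group_of_TD
import Pool.Agent.Helper252_Enum.R03_trans_of_crd
import Pool.Agent.Helper252_Enum.R09_card_addAut
import Pool.Agent.Helper252_Enum.Q18_card_TD_spans

set_option autoImplicit false

open scoped commutatorElement

namespace Pool.Agent.Helper252_Enum

/-
PROOF OF THE TARGET.
(q is a prime here; the tensor data are called cq.) B = {cq : (Vp q m → Vp q m → Vp q r) × (Vp q m → Vp q r) // IsTD q m r cq.1 cq.2 ∧ Spans cq.1 cq.2}, |B| = SS q (m(m+1)/2) r by card_TD_spans; 𝒢 b the group chosen from exists_group_of_TD with u_b, w_b. Fibre bound: let b0 be given. For b with an isomorphism φ : 𝒢 b ≃* 𝒢 b0: u_b0 ∘ φ is also a coordinate system of 𝒢 b (IsCrd; φ maps FrP onto FrP), so by trans_of_crd there is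
g : Vp ≃+ Vp with u_b0 (φ a) = g (u_b a). φ maps FrP (𝒢 b) onto FrP (𝒢 b0) and w_b, w_b0 restricted to the FrP are additive bijections onto Vp q r (TT = ⊥), so there is an additive bijection g' with w_b0 (φ a) = g' (w_b a) for a ∈ FrP. Then c_b0 (g v)(g v') = g' (c_b v v'), q_b0 (g v) = g' (q_b v) (as in: c_b0 (u φ a)(u φ b) = w_b0 ⁅φ a, φ b⁆ = w_b0 (φ ⁅a,b⁆)).
So (c_b,q_b) = (g'⁻¹ c_b0(g ·)(g ·), g'⁻¹ q_b0 (g ·)) is determined by (g,g'), and the fibre injects into (Vp q m ≃+ Vp q m) × (Vp q r ≃+ Vp q r), of cardinality gl q m * gl q r.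
-/

namespace J_td_family

theorem map_FrP1 {p : ℕ} {G G' : Type} [Group G] [Group G'] (φ : G ≃* G') {a : G}
    (h : a ∈ FrP p G) : φ a ∈ FrP p G' := by
  unfold FrP PC at h ⊢
  induction h using Subgroup.closure_induction with
  | mem x hx =>
    apply Subgroup.subset_closure
    rcases hx with ⟨a, -, b, -, rfl⟩ | ⟨a, -, rfl⟩
    · left
      exact ⟨φ a, Subgroup.mem_top _, φ b, Subgroup.mem_top _, map_commutatorElement φ a b⟩
    · right
      exact ⟨φ a, Subgroup.mem_top _, map_pow φ a p⟩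
  | one => rw [map_one]; exact Subgroup.one_mem _
  | mul x y _ _ hx hy => rw [map_mul]; exact Subgroup.mul_mem _ hx hy
  | inv x _ hx => rw [map_inv]; exact Subgroup.inv_mem _ hx

theorem map_FrP {p : ℕ} {G G' : Type} [Group G] [Group G'] (φ : G ≃* G') (a : G) :
    φ a ∈ FrP p G' ↔ a ∈ FrP p G := by
  constructor
  · intro h
    have := map_FrP1 φ.symm h
    simpa using this
  · exact map_FrP1 φ

theorem comm_mem_FrP {p : ℕ} {G : Type} [Group G] (a b : G) : ⁅a, b⁆ ∈ FrP p G :=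
  Subgroup.subset_closure (Or.inl ⟨a, Subgroup.mem_top _, b, Subgroup.mem_top _, rfl⟩)

theorem pow_mem_FrP {p : ℕ} {G : Type} [Group G] (a : G) : a ^ p ∈ FrP p G :=
  Subgroup.subset_closure (Or.inr ⟨a, Subgroup.mem_top _, rfl⟩)

theorem w_inj {p m r : ℕ} {G : Type} [Group G] {u : G → Vp p m} {w : G → Vp p r}
    {c : Vp p m → Vp p m → Vp p r} {q : Vp p m → Vp p r} (h : HasTD p m r G u w c q)
    (hT : TT p G = ⊥) {a b : G} (ha : a ∈ FrP p G) (hb : b ∈ FrP p G) (hab : w a = w b) :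
    a = b := by
  have h1 : w 1 = 0 := (h.w_ker 1 (Subgroup.one_mem _)).2 (by rw [hT]; exact Subgroup.one_mem _)
  have hbi := Subgroup.inv_mem _ hb
  have h2 : w b + w b⁻¹ = 0 := by rw [← h.w_mul b hb b⁻¹ hbi, mul_inv_cancel, h1]
  have h3 : w (a * b⁻¹) = 0 := by rw [h.w_mul a ha b⁻¹ hbi, hab, h2]
  have h4 := (h.w_ker _ (Subgroup.mul_mem _ ha hbi)).1 h3
  rw [hT, Subgroup.mem_bot] at h4
  exact mul_inv_eq_one.1 h4

theorem key {p m r : ℕ} [Fact p.Prime] {G G' : Type} [Group G] [Group G']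
    {u : G → Vp p m} {w : G → Vp p r} {c : Vp p m → Vp p m → Vp p r} {q : Vp p m → Vp p r}
    (h : HasTD p m r G u w c q) (hT : TT p G = ⊥)
    {u' : G' → Vp p m} {w' : G' → Vp p r} {c' : Vp p m → Vp p m → Vp p r} {q' : Vp p m → Vp p r}
    (h' : HasTD p m r G' u' w' c' q') (hT' : TT p G' = ⊥) (φ : G ≃* G') :
    ∃ (g : Vp p m ≃+ Vp p m) (g' : Vp p r ≃+ Vp p r),
      (∀ v v', c' (g v) (g v') = g' (c v v')) ∧ ∀ v, q' (g v) = g' (q v) := by
  have hcrd : IsCrd p m G (fun a => u' (φ a)) := by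
    refine ⟨fun a b => ?_, ?_, fun a => ?_⟩
    · rw [map_mul, h'.crd.map_mul]
    · exact h'.crd.surj.comp φ.surjective
    · rw [h'.crd.ker, map_FrP]
  obtain ⟨g, hg⟩ := trans_of_crd m G u (fun a => u' (φ a)) h.crd hcrd
  choose s hs1 hs2 using h.w_surj
  have hsu : ∀ a ∈ FrP p G, s (w a) = a := fun a ha => w_inj h hT (hs1 _) ha (hs2 _)
  let f : Vp p r → Vp p r := fun x => w' (φ (s x))
  have hf : ∀ a ∈ FrP p G, f (w a) = w' (φ a) := fun a ha => by
    show w' (φ (s (w a))) = _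
    rw [hsu a ha]
  have hadd : ∀ x y, f (x + y) = f x + f y := by
    intro x y
    have h1 : x + y = w (s x * s y) := by rw [h.w_mul _ (hs1 x) _ (hs1 y), hs2, hs2]
    rw [h1, hf _ (Subgroup.mul_mem _ (hs1 x) (hs1 y)), map_mul,
      h'.w_mul _ (map_FrP1 φ (hs1 x)) _ (map_FrP1 φ (hs1 y))]
  have hbij : Function.Bijective f := by
    constructor
    · intro x y hxy
      have h1 := w_inj h' hT' (map_FrP1 φ (hs1 x)) (map_FrP1 φ (hs1 y)) hxy
      have h2 := φ.injective h1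
      rw [← hs2 x, ← hs2 y, h2]
    · intro y
      obtain ⟨b, hb, rfl⟩ := h'.w_surj y
      have hb' : φ.symm b ∈ FrP p G := map_FrP1 φ.symm hb
      exact ⟨w (φ.symm b), by rw [hf _ hb', MulEquiv.apply_symm_apply]⟩
  let g' : Vp p r ≃+ Vp p r := AddEquiv.ofBijective (AddMonoidHom.mk' f hadd) hbij
  have hg' : ∀ a ∈ FrP p G, g' (w a) = w' (φ a) := hf
  refine ⟨g, g', fun v v' => ?_, fun v => ?_⟩
  · obtain ⟨a, rfl⟩ := h.crd.surj v
    obtain ⟨b, rfl⟩ := h.crd.surj v'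
    rw [← hg, ← hg, h'.hc, h.hc, hg' _ (comm_mem_FrP a b), map_commutatorElement]
  · obtain ⟨a, rfl⟩ := h.crd.surj v
    rw [← hg, h'.hq, h.hq, hg' _ (pow_mem_FrP a), map_pow]

end J_td_family

/-- TARGET -/
theorem td_family (q m r : ℕ) [Fact q.Prime] :
    ∃ (B : Type) (_ : Finite B) (𝒢 : B → Type) (_ : ∀ b, Group (𝒢 b)),
      Nat.card B = SS q (m * (m + 1) / 2) r ∧ (∀ b, Nat.card (𝒢 b) = q ^ (m + r)) ∧
      (∀ b, Nat.card (FrP q (𝒢 b)) = q ^ r) ∧
      ∀ b₀, Nat.card {b : B // Nonempty (𝒢 b ≃* 𝒢 b₀)} ≤ gl q m * gl q r := by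
  have hex : ∀ b : {cq : (Vp q m → Vp q m → Vp q r) × (Vp q m → Vp q r) //
      IsTD q m r cq.1 cq.2 ∧ Spans cq.1 cq.2}, ∃ (G : Type) (_ : Group G) (u : G → Vp q m)
      (w : G → Vp q r), Nat.card G = q ^ (m + r) ∧ Nat.card (FrP q G) = q ^ r ∧ TT q G = ⊥ ∧
      HasTD q m r G u w b.1.1 b.1.2 := fun b =>
    exists_group_of_TD q m r b.1.1 b.1.2 b.2.1 b.2.2
  choose 𝒢 inst u w h1 h2 h3 h4 using hex
  refine ⟨_, inferInstance, 𝒢, inst, card_TD_spans q m r, h1, h2, fun b₀ => ?_⟩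
  have hk : ∀ b : {b // Nonempty (𝒢 b ≃* 𝒢 b₀)}, ∃ gg : (Vp q m ≃+ Vp q m) × (Vp q r ≃+ Vp q r),
      (∀ v v', b₀.1.1 (gg.1 v) (gg.1 v') = gg.2 (b.1.1.1 v v')) ∧
        ∀ v, b₀.1.2 (gg.1 v) = gg.2 (b.1.1.2 v) := by
    rintro ⟨b, ⟨φ⟩⟩
    obtain ⟨g, g', e1, e2⟩ := J_td_family.key (h4 b) (h3 b) (h4 b₀) (h3 b₀) φ
    exact ⟨(g, g'), e1, e2⟩
  choose F hF1 hF2 using hk
  have hfin1 : Finite (Vp q m ≃+ Vp q m) :=
    Finite.of_injective (fun e => (e : Vp q m → Vp q m)) DFunLike.coe_injective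
  have hfin2 : Finite (Vp q r ≃+ Vp q r) :=
    Finite.of_injective (fun e => (e : Vp q r → Vp q r)) DFunLike.coe_injective
  have hinj : Function.Injective F := by
    intro b b' hbb
    apply Subtype.ext
    apply Subtype.ext
    apply Prod.ext
    · funext v v'
      apply (F b).2.injective
      rw [← hF1 b v v', hbb, hF1 b' v v']
    · funext v
      apply (F b).2.injective
      rw [← hF2 b v, hbb, hF2 b' v]
  calc Nat.card {b // Nonempty (𝒢 b ≃* 𝒢 b₀)}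
      ≤ Nat.card ((Vp q m ≃+ Vp q m) × (Vp q r ≃+ Vp q r)) := Nat.card_le_card_of_injective F hinj
    _ = gl q m * gl q r := by rw [Nat.card_prod, card_addAut, card_addAut]

end Pool.Agent.Helper252_Enum
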