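import Pool.Agent.Helper252_Enum.Defs2

set_option autoImplicit false

open scoped commutatorElement

namespace Pool.Agent.Helper252_Enum

/-
PROOF OF THE TARGET.
N = m(m+1)/2. If r > N then SS p N r = 0 (factor i = N) and the left side is 0. Let r <= N. For a prime x put P_k(x) = ∏_{j=1}^k (1 - x^(-j)). gl x m = x^(m^2) P_m(x) (∏_{i<m} (x^m - x^i) = ∏ x^m (1 - x^(i-m))), SS x N r = x^(rN) A(x), A(x) = ∏_{i<r} (1 - x^(i-N)). So the main term is f(x) = x^h A(x)/(P_m(x) P_r(x)) with h = rN - m^2 - r^2 >= 8.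
f(q)/f(p) = (q/p)^h (A(q)/A(p)) P_m(p) P_r(p)/(P_m(q) P_r(q)). A(q) >= A(p) > 0 (factorwise), P_m(q), P_r(q) <= 1, q/p >= 1 + 1/p. With y = 1/p <= 1/2: P_k(p) >= 1 - y - y^2 (induction: P_k >= 1 - y - y^2 + y^(k+1) for k >= 1: P_k (1 - y^(k+1)) >= 1 - y - y^2 + y^(k+1) - y^(k+1)(1 - y - y^2 + y^(k+1)) >= 1 - y - y^2 + y^(k+2) since y^(k+3) >= y^(2k+2)), and
(1+y)^4 (1 - y - y^2) = 1 + 3y + y^2 - 6y^3 - 9y^4 - 5y^5 - y^6 >= 1 for 0 <= y <= 1/2. So f(q) >= (1+y)^h (1 - y - y^2)^2 f(p) >= (1+y)^(h-8) f(p).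
-/


namespace J_main_term_compare

/-- `P k = ∏_{j < k} (1 - y^(j+1))`. -/
noncomputable def PP (y : ℝ) (k : ℕ) : ℝ := ∏ j ∈ Finset.range k, (1 - y ^ (j + 1))

theorem PP_lower (y : ℝ) (h0 : 0 ≤ y) (h1 : y ≤ 1 / 2) (k : ℕ) :
    1 - y - y ^ 2 + y ^ (k + 2) ≤ PP y (k + 1) := by
  induction k with
  | zero =>
    unfold PP
    simp
  | succ k ih =>
    have hy1 : y ≤ 1 := by linarith
    have h2 : PP y (k + 1 + 1) = PP y (k + 1) * (1 - y ^ (k + 1 + 1)) := by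
      unfold PP
      rw [Finset.prod_range_succ]
    rw [h2]
    have h3 : y ^ (k + 2) ≤ 1 := pow_le_one₀ h0 hy1
    have h4 : 0 ≤ y ^ (k + 2) := pow_nonneg h0 _
    have h5 : y ^ (2 * k + 4) ≤ y ^ (k + 4) := pow_le_pow_of_le_one h0 hy1 (by omega)
    have h6 : (1 - y - y ^ 2 + y ^ (k + 2)) * (1 - y ^ (k + 2)) ≤
        PP y (k + 1) * (1 - y ^ (k + 2)) := mul_le_mul_of_nonneg_right ih (by linarith)
    have h7 : (1 - y - y ^ 2 + y ^ (k + 2)) * (1 - y ^ (k + 2)) =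
        1 - y - y ^ 2 + y ^ (k + 3) + y ^ (k + 4) - y ^ (2 * k + 4) := by ring
    have h8 : (k + 1 + 1) = k + 2 := rfl
    rw [h8]
    have h9 : y ^ (k + 1 + 2) = y ^ (k + 3) := rfl
    rw [h9]
    linarith

theorem PP_lower' (y : ℝ) (h0 : 0 ≤ y) (h1 : y ≤ 1 / 2) (k : ℕ) :
    1 - y - y ^ 2 ≤ PP y k := by
  rcases k with _ | k
  · unfold PP
    simp only [Finset.range_zero, Finset.prod_empty]
    nlinarith
  · have h2 := PP_lower y h0 h1 k
    have h3 : 0 ≤ y ^ (k + 2) := pow_nonneg h0 _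
    linarith

theorem one_le (y : ℝ) (h0 : 0 ≤ y) (h1 : y ≤ 1 / 2) (k : ℕ) :
    1 ≤ (1 + y) ^ 4 * PP y k := by
  have h2 := PP_lower' y h0 h1 k
  have h3 : (1 + y) ^ 4 * (1 - y - y ^ 2) ≤ (1 + y) ^ 4 * PP y k :=
    mul_le_mul_of_nonneg_left h2 (by positivity)
  have h4 : y ^ 2 ≤ y * (1 / 2) := by nlinarith
  have h5 : y ^ 3 ≤ y * (1 / 4) := by nlinarith [mul_nonneg h0 h0]
  have h6 : y ^ 4 ≤ y * (1 / 8) := by nlinarith [mul_nonneg h0 h0, pow_nonneg h0 3]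
  have h7 : y ^ 5 ≤ y * (1 / 16) := by nlinarith [mul_nonneg h0 h0, pow_nonneg h0 4]
  have h8 : y ^ 6 ≤ y * (1 / 32) := by nlinarith [mul_nonneg h0 h0, pow_nonneg h0 5]
  have h9 : (1 + y) ^ 4 * (1 - y - y ^ 2) =
      1 + 3 * y + y ^ 2 - 6 * y ^ 3 - 9 * y ^ 4 - 5 * y ^ 5 - y ^ 6 := by ring
  have h10 : 0 ≤ y ^ 2 := by positivity
  linarith

theorem PP_nonneg (y : ℝ) (h0 : 0 ≤ y) (h1 : y ≤ 1) (k : ℕ) : 0 ≤ PP y k := by
  unfold PP
  refine Finset.prod_nonneg ?_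
  intro j _
  have := pow_le_one₀ (n := j + 1) h0 h1
  linarith

theorem PP_le_one (y : ℝ) (h0 : 0 ≤ y) (h1 : y ≤ 1) (k : ℕ) : PP y k ≤ 1 := by
  unfold PP
  refine Finset.prod_le_one ?_ ?_
  · intro j _
    have := pow_le_one₀ (n := j + 1) h0 h1
    linarith
  · intro j _
    have := pow_nonneg h0 (j + 1)
    linarith

/-- the product in `SS` -/
theorem SS_eq (x N r : ℕ) (hx : 2 ≤ x) (hr : r ≤ N) :
    (SS x N r : ℝ) = (x : ℝ) ^ (r * N) * ∏ i ∈ Finset.range r, (1 - (1 / (x : ℝ)) ^ (N - i)) := by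
  unfold SS
  have hx0 : (0 : ℝ) < x := by
    have : 0 < x := by omega
    exact_mod_cast this
  rw [Nat.cast_prod]
  have h1 : ∀ i ∈ Finset.range r, (((x ^ N - x ^ i : ℕ)) : ℝ) =
      (x : ℝ) ^ N * (1 - (1 / (x : ℝ)) ^ (N - i)) := by
    intro i hi
    rw [Finset.mem_range] at hi
    rw [Nat.cast_sub (Nat.pow_le_pow_right (by omega) (by omega))]
    push_cast
    have h2 : (x : ℝ) ^ N = (x : ℝ) ^ i * (x : ℝ) ^ (N - i) := by
      rw [← pow_add]
      congr 1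
      omega
    rw [mul_sub, mul_one, one_div, inv_pow, h2]
    have h3 : (x : ℝ) ^ (N - i) ≠ 0 := by positivity
    field_simp
  rw [Finset.prod_congr rfl h1, Finset.prod_mul_distrib, Finset.prod_const, Finset.card_range,
    ← pow_mul, mul_comm N r]

theorem gl_eq (x m : ℕ) (hx : 2 ≤ x) :
    (gl x m : ℝ) = (x : ℝ) ^ (m ^ 2) * PP (1 / (x : ℝ)) m := by
  unfold gl PP
  rw [SS_eq x m m hx le_rfl, sq]
  congr 1
  rw [← Finset.prod_range_reflect]
  refine Finset.prod_congr rfl ?_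
  intro j hj
  rw [Finset.mem_range] at hj
  congr 2
  omega

end J_main_term_compare

/-- TARGET -/
theorem main_term_compare (p q m r : ℕ) (hp : p.Prime) (hq : q.Prime) (hpq : p < q)
    (h : m ^ 2 + r ^ 2 + 8 ≤ r * (m * (m + 1) / 2)) :
    (1 + 1 / (p : ℝ)) ^ (r * (m * (m + 1) / 2) - m ^ 2 - r ^ 2 - 8) *
        ((SS p (m * (m + 1) / 2) r : ℝ) / (gl p m * gl p r)) ≤
      (SS q (m * (m + 1) / 2) r : ℝ) / (gl q m * gl q r) := by
  classical
  set N := m * (m + 1) / 2 with hN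
  have hp2 : 2 ≤ p := hp.two_le
  have hq2 : 2 ≤ q := hq.two_le
  rcases Nat.lt_or_ge N r with hr | hr
  · have h0 : SS p N r = 0 := by
      unfold SS
      rw [Finset.prod_eq_zero (Finset.mem_range.2 hr)]
      omega
    rw [h0]
    simp only [Nat.cast_zero, zero_div, mul_zero]
    positivity
  have hpR : (0 : ℝ) < p := by
    have : 0 < p := by omega
    exact_mod_cast this
  have hqR : (0 : ℝ) < q := by
    have : 0 < q := by omega
    exact_mod_cast this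
  have hp2R : (2 : ℝ) ≤ p := by exact_mod_cast hp2
  have hpqR : (p : ℝ) + 1 ≤ q := by exact_mod_cast hpq
  set y : ℝ := 1 / (p : ℝ) with hy
  set z : ℝ := 1 / (q : ℝ) with hz
  have hy0 : 0 ≤ y := by positivity
  have hz0 : 0 ≤ z := by positivity
  have hy2 : y ≤ 1 / 2 := by
    rw [hy]
    exact one_div_le_one_div_of_le (by norm_num) hp2R
  have hzy : z ≤ y := by
    rw [hz, hy]
    exact one_div_le_one_div_of_le hpR (by linarith)
  have hz1 : z ≤ 1 := by linarith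
  set H := r * N - m ^ 2 - r ^ 2 with hH
  have hH8 : 8 ≤ H := by omega
  have hsum : r * N = H + m ^ 2 + r ^ 2 := by omega
  set Ap : ℝ := ∏ i ∈ Finset.range r, (1 - y ^ (N - i)) with hAp
  set Aq : ℝ := ∏ i ∈ Finset.range r, (1 - z ^ (N - i)) with hAq
  have hSp : (SS p N r : ℝ) = (p : ℝ) ^ H * (p : ℝ) ^ (m ^ 2) * (p : ℝ) ^ (r ^ 2) * Ap := by
    rw [J_main_term_compare.SS_eq p N r hp2 hr, hsum, pow_add, pow_add]
  have hSq : (SS q N r : ℝ) = (q : ℝ) ^ H * (q : ℝ) ^ (m ^ 2) * (q : ℝ) ^ (r ^ 2) * Aq := by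
    rw [J_main_term_compare.SS_eq q N r hq2 hr, hsum, pow_add, pow_add]
  have hgpm := J_main_term_compare.gl_eq p m hp2
  have hgpr := J_main_term_compare.gl_eq p r hp2
  have hgqm := J_main_term_compare.gl_eq q m hq2
  have hgqr := J_main_term_compare.gl_eq q r hq2
  rw [← hy] at hgpm hgpr
  rw [← hz] at hgqm hgqr
  set a := J_main_term_compare.PP y m with ha
  set b := J_main_term_compare.PP y r with hb
  set c := J_main_term_compare.PP z m with hc
  set d := J_main_term_compare.PP z r with hd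
  have ha1 : 1 ≤ (1 + y) ^ 4 * a := J_main_term_compare.one_le y hy0 hy2 m
  have hb1 : 1 ≤ (1 + y) ^ 4 * b := J_main_term_compare.one_le y hy0 hy2 r
  have hc1 : 1 ≤ (1 + z) ^ 4 * c := J_main_term_compare.one_le z hz0 (by linarith) m
  have hd1 : 1 ≤ (1 + z) ^ 4 * d := J_main_term_compare.one_le z hz0 (by linarith) r
  have hc2 : c ≤ 1 := J_main_term_compare.PP_le_one z hz0 hz1 m
  have hd2 : d ≤ 1 := J_main_term_compare.PP_le_one z hz0 hz1 r
  have h1y : (0 : ℝ) < (1 + y) ^ 4 := by positivity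
  have h1z : (0 : ℝ) < (1 + z) ^ 4 := by positivity
  have ha0 : 0 < a := by
    by_contra hcon
    push Not at hcon
    nlinarith
  have hb0 : 0 < b := by
    by_contra hcon
    push Not at hcon
    nlinarith
  have hc0 : 0 < c := by
    by_contra hcon
    push Not at hcon
    nlinarith
  have hd0 : 0 < d := by
    by_contra hcon
    push Not at hcon
    nlinarith
  have hAp0 : 0 ≤ Ap := by
    rw [hAp]
    refine Finset.prod_nonneg ?_
    intro i _
    have := pow_le_one₀ (n := N - i) hy0 (by linarith : y ≤ 1)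
    linarith
  have hApq : Ap ≤ Aq := by
    rw [hAp, hAq]
    refine Finset.prod_le_prod ?_ ?_
    · intro i _
      have := pow_le_one₀ (n := N - i) hy0 (by linarith : y ≤ 1)
      linarith
    · intro i _
      have := pow_le_pow_left₀ hz0 hzy (N - i)
      linarith
  have hfp : (SS p N r : ℝ) / (gl p m * gl p r) = (p : ℝ) ^ H * Ap / (a * b) := by
    rw [hSp, hgpm, hgpr]
    have h1 : (p : ℝ) ^ (m ^ 2) ≠ 0 := by positivity
    have h2 : (p : ℝ) ^ (r ^ 2) ≠ 0 := by positivity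
    have h3 := ha0.ne'
    have h4 := hb0.ne'
    rw [div_eq_div_iff (by positivity) (by positivity)]
    ring
  have hfq : (SS q N r : ℝ) / (gl q m * gl q r) = (q : ℝ) ^ H * Aq / (c * d) := by
    rw [hSq, hgqm, hgqr]
    rw [div_eq_div_iff (by positivity) (by positivity)]
    ring
  rw [hfp, hfq]
  have hAq0 : 0 ≤ Aq := hAp0.trans hApq
  have e1 : (p : ℝ) ^ H * Ap / (a * b) ≤ (p : ℝ) ^ H * Aq * (1 + y) ^ 8 := by
    rw [div_le_iff₀ (by positivity)]
    have h1 : 1 ≤ (1 + y) ^ 8 * (a * b) := by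
      calc (1 : ℝ) = 1 * 1 := by norm_num
        _ ≤ ((1 + y) ^ 4 * a) * ((1 + y) ^ 4 * b) :=
          mul_le_mul ha1 hb1 (by norm_num) (by positivity)
        _ = (1 + y) ^ 8 * (a * b) := by ring
    calc (p : ℝ) ^ H * Ap ≤ (p : ℝ) ^ H * Aq := mul_le_mul_of_nonneg_left hApq (by positivity)
      _ = (p : ℝ) ^ H * Aq * 1 := by ring
      _ ≤ (p : ℝ) ^ H * Aq * ((1 + y) ^ 8 * (a * b)) := mul_le_mul_of_nonneg_left h1 (by positivity)
      _ = (p : ℝ) ^ H * Aq * (1 + y) ^ 8 * (a * b) := by ring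
  have e2 : (q : ℝ) ^ H * Aq ≤ (q : ℝ) ^ H * Aq / (c * d) := by
    rw [le_div_iff₀ (by positivity)]
    have h1 : c * d ≤ 1 := mul_le_one₀ hc2 hd0.le hd2
    calc (q : ℝ) ^ H * Aq * (c * d) ≤ (q : ℝ) ^ H * Aq * 1 :=
          mul_le_mul_of_nonneg_left h1 (by positivity)
      _ = (q : ℝ) ^ H * Aq := by ring
  have e3 : (1 + y) ^ H * (p : ℝ) ^ H ≤ (q : ℝ) ^ H := by
    rw [← mul_pow]
    refine pow_le_pow_left₀ (by positivity) ?_ H
    rw [hy]
    have : (1 + 1 / (p : ℝ)) * p = p + 1 := by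
      field_simp
    rw [this]
    exact hpqR
  calc (1 + y) ^ (H - 8) * ((p : ℝ) ^ H * Ap / (a * b)) ≤
        (1 + y) ^ (H - 8) * ((p : ℝ) ^ H * Aq * (1 + y) ^ 8) :=
        mul_le_mul_of_nonneg_left e1 (by positivity)
    _ = ((1 + y) ^ H * (p : ℝ) ^ H) * Aq := by
        have h1 : (1 + y) ^ H = (1 + y) ^ (H - 8) * (1 + y) ^ 8 := by
          rw [← pow_add]
          congr 1
          omega
        rw [h1]
        ring
    _ ≤ (q : ℝ) ^ H * Aq := mul_le_mul_of_nonneg_right e3 hAq0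
    _ ≤ (q : ℝ) ^ H * Aq / (c * d) := e2

end Pool.Agent.Helper252_Enum
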