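import Pool.Agent.Helper252_Enum.Defs2

set_option autoImplicit false

open scoped commutatorElement

namespace Pool.Agent.Helper252_Enum

/-
PROOF OF THE TARGET.
N = m(m+1)/2 >= r+1. SS p N r = ∏_{i<r} (p^N - p^i) = p^(rN) ∏_{i<r} (1 - p^(i-N)) >= p^(rN) (1 - Σ_{i<r} p^(i-N)) (Bernoulli type product bound, e.g. Finset.one_sub_sum_le_prod_one_sub or induction) and Σ_{i<r} p^(i-N) <= p^(r-N) <= 1/p <= 1/2 (Σ_{i<r} p^i <= p^r), so p^(rN) <= 2 SS <= p SS. gl p m <= p^(m^2), gl p r <= p^(r^2) (each factor <= p^m), both positive.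
So p^(rN) <= p SS = p * (gl p m * gl p r) * (SS/(gl p m * gl p r)) <= p^(1+m^2+r^2) SS/(gl p m * gl p r).
-/

namespace J_main_term_ge

theorem SS_low (p : ℕ) (hp : 2 ≤ p) (N r : ℕ) (hr : r ≤ N) :
    (p : ℝ) ^ (r * N) * (p : ℝ) ^ N ≤ (SS p N r : ℝ) * (p : ℝ) ^ N + (p : ℝ) ^ (r * N) * (p : ℝ) ^ r := by
  induction r with
  | zero => simp [SS]
  | succ r ih =>
    have ih' := ih (by omega)
    have hp0 : (0 : ℝ) < p := by
      have : (2 : ℝ) ≤ p := by exact_mod_cast hp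
      linarith
    have hp2 : (2 : ℝ) ≤ p := by exact_mod_cast hp
    have hle : p ^ r ≤ p ^ N := Nat.pow_le_pow_right (by omega) (by omega)
    have hSS : (SS p N (r + 1) : ℝ) = (SS p N r : ℝ) * ((p : ℝ) ^ N - (p : ℝ) ^ r) := by
      unfold SS
      rw [Finset.prod_range_succ]
      push_cast [Nat.cast_sub hle]
      ring
    have hleR : (p : ℝ) ^ r ≤ (p : ℝ) ^ N := by exact_mod_cast hle
    obtain ⟨A, hA⟩ : ∃ A : ℝ, A = (p : ℝ) ^ N := ⟨_, rfl⟩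
    obtain ⟨b, hb⟩ : ∃ b : ℝ, b = (p : ℝ) ^ r := ⟨_, rfl⟩
    obtain ⟨Q, hQ⟩ : ∃ Q : ℝ, Q = (p : ℝ) ^ (r * N) := ⟨_, rfl⟩
    have hQ' : (p : ℝ) ^ ((r + 1) * N) = Q * A := by
      rw [hQ, hA, ← pow_add]
      congr 1
      ring
    have hb' : (p : ℝ) ^ (r + 1) = b * p := by
      rw [hb, pow_succ]
    have hA0 : 0 < A := by rw [hA]; positivity
    have hb0 : 0 < b := by rw [hb]; positivity
    have hQ0 : 0 < Q := by rw [hQ]; positivity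
    rw [hSS, hQ', hb', ← hA, ← hb]
    rw [← hA, ← hb, ← hQ] at ih'
    rw [← hA, ← hb] at hleR
    -- ih' : Q * A ≤ S * A + Q * b
    have h1 : (Q * A - Q * b) * (A - b) ≤ ((SS p N r : ℝ) * A) * (A - b) :=
      mul_le_mul_of_nonneg_right (by linarith) (by linarith)
    have h2 : Q * A * (b * 2) ≤ Q * A * (b * p) := by
      apply mul_le_mul_of_nonneg_left _ (by positivity)
      exact mul_le_mul_of_nonneg_left hp2 hb0.le
    have h3 : 0 ≤ Q * b * b := by positivity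
    nlinarith [h1, h2, h3]

theorem SS_half (p : ℕ) (hp : 2 ≤ p) (N r : ℕ) (hr : r + 1 ≤ N) :
    (p : ℝ) ^ (r * N) ≤ (p : ℝ) * (SS p N r : ℝ) := by
  have h := SS_low p hp N r (by omega)
  have hp2 : (2 : ℝ) ≤ p := by exact_mod_cast hp
  have hp0 : (0 : ℝ) < p := by linarith
  have hle : (p : ℝ) ^ r * p ≤ (p : ℝ) ^ N := by
    rw [← pow_succ]
    exact pow_le_pow_right₀ (by linarith) hr
  obtain ⟨A, hA⟩ : ∃ A : ℝ, A = (p : ℝ) ^ N := ⟨_, rfl⟩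
  obtain ⟨b, hb⟩ : ∃ b : ℝ, b = (p : ℝ) ^ r := ⟨_, rfl⟩
  obtain ⟨Q, hQ⟩ : ∃ Q : ℝ, Q = (p : ℝ) ^ (r * N) := ⟨_, rfl⟩
  have hA0 : 0 < A := by rw [hA]; positivity
  have hb0 : 0 < b := by rw [hb]; positivity
  have hQ0 : 0 < Q := by rw [hQ]; positivity
  rw [← hA, ← hb, ← hQ] at h
  rw [← hA, ← hb] at hle
  rw [← hQ]
  have hS0 : (0 : ℝ) ≤ (SS p N r : ℝ) := Nat.cast_nonneg _
  -- b * 2 ≤ A
  have h2 : b * 2 ≤ A := (mul_le_mul_of_nonneg_left hp2 hb0.le).trans hle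
  have h3 : Q * (b * 2) ≤ Q * A := mul_le_mul_of_nonneg_left h2 hQ0.le
  have h4 : Q * A ≤ 2 * ((SS p N r : ℝ) * A) := by nlinarith [h, h3]
  have h5 : Q ≤ 2 * (SS p N r : ℝ) := by
    by_contra hc
    push Not at hc
    have := mul_lt_mul_of_pos_right hc hA0
    nlinarith [h4, this]
  calc Q ≤ 2 * (SS p N r : ℝ) := h5
    _ ≤ (p : ℝ) * (SS p N r : ℝ) := mul_le_mul_of_nonneg_right hp2 hS0

theorem gl_pos (p : ℕ) (hp : 2 ≤ p) (m : ℕ) : 0 < gl p m := by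
  unfold gl SS
  refine Finset.prod_pos fun i hi => ?_
  have : p ^ i < p ^ m := Nat.pow_lt_pow_right (by omega) (Finset.mem_range.1 hi)
  omega

theorem gl_le (p m : ℕ) : gl p m ≤ p ^ (m ^ 2) := by
  unfold gl SS
  calc ∏ i ∈ Finset.range m, (p ^ m - p ^ i) ≤ ∏ _i ∈ Finset.range m, p ^ m :=
        Finset.prod_le_prod' fun i _ => Nat.sub_le _ _
    _ = p ^ (m ^ 2) := by
        rw [Finset.prod_const, Finset.card_range, ← pow_mul, sq]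

end J_main_term_ge

/-- TARGET -/
theorem main_term_ge (p m r : ℕ) (hp : p.Prime) (h : r + 1 ≤ m * (m + 1) / 2) :
    (p : ℝ) ^ (r * (m * (m + 1) / 2)) ≤
      (p : ℝ) ^ (m ^ 2 + r ^ 2 + 1) * ((SS p (m * (m + 1) / 2) r : ℝ) / (gl p m * gl p r)) := by
  have hp2 : 2 ≤ p := hp.two_le
  have hp2R : (2 : ℝ) ≤ p := by exact_mod_cast hp2
  have hp0 : (0 : ℝ) < p := by linarith
  have h1 := J_main_term_ge.SS_half p hp2 (m * (m + 1) / 2) r h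
  have hgm : (0 : ℝ) < (gl p m : ℝ) := by exact_mod_cast J_main_term_ge.gl_pos p hp2 m
  have hgr : (0 : ℝ) < (gl p r : ℝ) := by exact_mod_cast J_main_term_ge.gl_pos p hp2 r
  have hlm : (gl p m : ℝ) ≤ (p : ℝ) ^ (m ^ 2) := by exact_mod_cast J_main_term_ge.gl_le p m
  have hlr : (gl p r : ℝ) ≤ (p : ℝ) ^ (r ^ 2) := by exact_mod_cast J_main_term_ge.gl_le p r
  have hS0 : (0 : ℝ) ≤ (SS p (m * (m + 1) / 2) r : ℝ) := Nat.cast_nonneg _
  refine h1.trans ?_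
  rw [← mul_div_assoc, le_div_iff₀ (mul_pos hgm hgr)]
  have h2 : (gl p m : ℝ) * (gl p r : ℝ) ≤ (p : ℝ) ^ (m ^ 2) * (p : ℝ) ^ (r ^ 2) :=
    mul_le_mul hlm hlr hgr.le (by positivity)
  calc (p : ℝ) * (SS p (m * (m + 1) / 2) r : ℝ) * ((gl p m : ℝ) * (gl p r : ℝ))
      ≤ (p : ℝ) * (SS p (m * (m + 1) / 2) r : ℝ) * ((p : ℝ) ^ (m ^ 2) * (p : ℝ) ^ (r ^ 2)) :=
        mul_le_mul_of_nonneg_left h2 (mul_nonneg hp0.le hS0)
    _ = (p : ℝ) ^ (m ^ 2 + r ^ 2 + 1) * (SS p (m * (m + 1) / 2) r : ℝ) := by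
        rw [pow_succ, pow_add]
        ring

end Pool.Agent.Helper252_Enum
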