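import Pool.Agent.Helper252_Enum.Defs3
import Pool.Agent.Helper252_Enum.Q03_E1
import Pool.Agent.Helper252_Enum.Q14_E2
import Pool.Agent.Helper252_Enum.Q15_E3
import Pool.Agent.Helper252_Enum.R13_E4
import Pool.Agent.Helper252_Enum.R23_E5
import Pool.Agent.Helper252_Enum.R21_quot_cover

set_option autoImplicit false

open scoped commutatorElement

namespace Pool.Agent.Helper252_Enum

/-
PROOF OF THE TARGET.
-/

namespace J_few_exceptional

theorem TT_eq_bot {p : ℕ} {G : Type} [Group G] (h : FrP p G ≤ K1 p G) : TT p G = ⊥ := by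
  unfold TT PC
  rw [Subgroup.closure_eq_bot_iff]
  rintro x (⟨a, ha, b, -, rfl⟩ | ⟨a, ha, rfl⟩)
  · have h1 := h ha
    have h2 : a ∈ Subgroup.center G := h1.2.1
    rw [Set.mem_singleton_iff, commutatorElement_eq_one_iff_mul_comm]
    exact (Subgroup.mem_center_iff.mp h2 b).symm
  · have h1 := h ha
    exact h1.2.2

/-- The property with index `(r, j)`. -/
def Q (p n C₃ : ℕ) (r j : ℕ) (G : Type) [Group G] : Prop :=
  r ≤ n ∧ 19 * n ≤ 60 * r ∧ 60 * r ≤ 21 * n ∧ Nat.card (FrP p G) = p ^ r ∧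
  Nat.card (FrP p G) ≤ p ^ C₃ * Nat.card (ZF p G) ∧
  (j = 0 → p ^ 3 * Nat.card (K1 p G) ≤ Nat.card (FrP p G)) ∧
  (j = 1 → Nat.card (FrP p G) ≤ p ^ 2 * Nat.card (K1 p G) ∧
    ¬ SmallIm p (n - r) (p ^ (4 * ((n - r) / 100) * (n - r) + 1)) G) ∧
  (j = 2 → Nat.card (FrP p G) ≤ p ^ 2 * Nat.card (K1 p G) ∧
    p * Nat.card (K1 p G) ≤ Nat.card (FrP p G) ∧
    SmallIm p (n - r) (p ^ (4 * ((n - r) / 100) * (n - r) + 1)) G) ∧
  (j = 3 → TT p G = ⊥ ∧
    SmallIm p (n - r) (p ^ (4 * ((n - r) / 100) * (n - r) + 1)) G ∧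
    ¬ SmallIm p (n - r) 1 G)

/-- The property with index `0`. -/
def Q0 (p n C₃ : ℕ) (G : Type) [Group G] : Prop :=
  ∀ r, Nat.card (FrP p G) = p ^ r → (60 * r < 19 * n ∨ 21 * n < 60 * r ∨
      p ^ C₃ * Nat.card (ZF p G) ≤ Nat.card (FrP p G))

theorem cover {p n C₃ : ℕ} (hp : p.Prime) (G : Type) [Group G] (hG : Nat.card G = p ^ n)
    (hM : ¬ MainC p n G) (h0 : ¬ Q0 p n C₃ G) :
    ∃ r j, r ≤ n ∧ j < 4 ∧ Q p n C₃ r j G := by
  unfold Q0 at h0
  push Not at h0
  obtain ⟨r, hr, h1, h2, h3⟩ := h0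
  have hfin : Finite G := Nat.finite_of_card_ne_zero (by rw [hG]; exact pow_ne_zero _ hp.ne_zero)
  have hrn : r ≤ n := by
    have hd : Nat.card (FrP p G) ∣ Nat.card G := Subgroup.card_subgroup_dvd_card _
    rw [hr, hG] at hd
    exact (Nat.pow_dvd_pow_iff_le_right hp.one_lt).1 hd
  have hK : K1 p G ≤ FrP p G := fun x hx => hx.1
  have hKd : Nat.card (K1 p G) ∣ Nat.card (FrP p G) := Subgroup.card_dvd_of_le hK
  have hKd' := hKd
  rw [hr] at hKd'
  obtain ⟨t, htr, ht⟩ := (Nat.dvd_prime_pow hp).1 hKd'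
  by_cases hR3 : t + 3 ≤ r
  · refine ⟨r, 0, hrn, by norm_num, hrn, h1, h2, hr, h3.le, ?_, by norm_num, by norm_num,
      by norm_num⟩
    intro _
    rw [hr, ht, ← pow_add]
    exact Nat.pow_le_pow_right hp.pos (by omega)
  · have hle2 : Nat.card (FrP p G) ≤ p ^ 2 * Nat.card (K1 p G) := by
      rw [hr, ht, ← pow_add]
      exact Nat.pow_le_pow_right hp.pos (by omega)
    by_cases hS : SmallIm p (n - r) (p ^ (4 * ((n - r) / 100) * (n - r) + 1)) G
    · by_cases hR1 : t + 1 ≤ r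
      · refine ⟨r, 2, hrn, by norm_num, hrn, h1, h2, hr, h3.le, by norm_num, by norm_num, ?_,
          by norm_num⟩
        intro _
        refine ⟨hle2, ?_, hS⟩
        rw [hr, ht, ← pow_succ']
        exact Nat.pow_le_pow_right hp.pos hR1
      · have hEq : K1 p G = FrP p G := by
          apply Subgroup.eq_of_le_of_card_ge hK
          rw [hr, ht]
          exact Nat.pow_le_pow_right hp.pos (by omega)
        have hT : TT p G = ⊥ := TT_eq_bot hEq.ge
        refine ⟨r, 3, hrn, by norm_num, hrn, h1, h2, hr, h3.le, by norm_num, by norm_num,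
          by norm_num, ?_⟩
        intro _
        refine ⟨hT, hS, fun hS1 => hM ?_⟩
        exact ⟨n - r, r, by omega, h1, h2, hr, hT, hS1⟩
    · refine ⟨r, 1, hrn, by norm_num, hrn, h1, h2, hr, h3.le, by norm_num, ?_, by norm_num,
        by norm_num⟩
      intro _
      exact ⟨hle2, hS⟩

end J_few_exceptional

open J_few_exceptional in
/-- TARGET -/
theorem few_exceptional : ∃ n₀ : ℕ, ∀ (p : ℕ), p.Prime → ∀ n, n₀ ≤ n →
    ∀ (α : Type) (𝒢 : α → Type) [∀ a, Group (𝒢 a)], (∀ a, Nat.card (𝒢 a) = p ^ n) →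
    (∀ a, ¬ MainC p n (𝒢 a)) →
    (Nat.card (Quot fun a b => Nonempty (𝒢 a ≃* 𝒢 b)) : ℝ) ≤
      (4 * n + 5) * (p : ℝ) ^ (2 * n ^ 3 / 27 - 47 * n ^ 2 / 100) := by
  obtain ⟨C₃, n1, -, H1⟩ := E1
  obtain ⟨n2, H2⟩ := E2 C₃
  obtain ⟨n3, H3⟩ := E3
  obtain ⟨n4, H4⟩ := E4
  obtain ⟨n5, H5⟩ := E5
  refine ⟨n1 + n2 + n3 + n4 + n5, ?_⟩
  intro p hp n hn α 𝒢 _ hcard hMain
  have hN : 0 < p ^ n := pow_pos hp.pos n
  set B : ℕ := p ^ (2 * n ^ 3 / 27 - 47 * n ^ 2 / 100) with hB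
  have hBig : p ^ (2 * n ^ 3 / 27 - n ^ 2) ≤ B := by
    rw [hB]
    apply Nat.pow_le_pow_right hp.pos
    apply Nat.sub_le_sub_left
    have : 47 * n ^ 2 / 100 ≤ n ^ 2 := by
      generalize n ^ 2 = q
      omega
    exact this
  let P : ℕ → α → Prop := fun i a =>
    if i = 0 then Q0 p n C₃ (𝒢 a) else Q p n C₃ ((i - 1) / 4) ((i - 1) % 4) (𝒢 a)
  have hP : ∀ a, ∃ i, i < 4 * n + 5 ∧ P i a := by
    intro a
    by_cases h0 : Q0 p n C₃ (𝒢 a)
    · exact ⟨0, by omega, by simpa [P] using h0⟩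
    · obtain ⟨r, j, hr, hj, hQ⟩ := cover hp (𝒢 a) (hcard a) (hMain a) h0
      refine ⟨1 + 4 * r + j, by omega, ?_⟩
      have e1 : (1 + 4 * r + j - 1) / 4 = r := by omega
      have e2 : (1 + 4 * r + j - 1) % 4 = j := by omega
      have e3 : ¬ (1 + 4 * r + j = 0) := by omega
      simp only [P, e1, e2, e3, if_false]
      exact hQ
  have hBd : ∀ i, i < 4 * n + 5 →
      (Nat.card (Quot fun a b : {a : α // P i a} => Nonempty (𝒢 a.1 ≃* 𝒢 b.1)) : ℝ) ≤
        (fun _ : ℕ => (B : ℝ)) i := by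
    intro i _
    simp only
    rw [Nat.cast_le]
    by_cases hi : i = 0
    · subst hi
      have h := H1 p hp n (by omega) {a : α // P 0 a} (fun a => 𝒢 a.1) (fun a => hcard a.1)
        (by
          intro a
          have := a.2
          simp only [P, if_true] at this
          exact this)
      exact h.trans hBig
    · by_cases hex : Nonempty {a : α // P i a}
      · obtain ⟨a₀⟩ := hex
        have hQ : ∀ a : {a : α // P i a}, Q p n C₃ ((i - 1) / 4) ((i - 1) % 4) (𝒢 a.1) := by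
          intro a
          have := a.2
          simp only [P, hi, if_false] at this
          exact this
        generalize hr' : (i - 1) / 4 = r at hQ
        generalize hj' : (i - 1) % 4 = j at hQ
        have hj : j < 4 := by omega
        obtain ⟨hrn, h1, h2, -⟩ := hQ a₀
        have hmr : (n - r) + r = n := by omega
        interval_cases j
        · exact H2 p hp (n - r) r n (by omega) hmr h1 h2 {a : α // P i a} (fun a => 𝒢 a.1)
            (fun a => hcard a.1) (fun a => (hQ a).2.2.2.1) (fun a => (hQ a).2.2.2.2.1)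
            (fun a => (hQ a).2.2.2.2.2.1 rfl)
        · exact (H5 p hp (n - r) r n (by omega) hmr h1 h2 {a : α // P i a} (fun a => 𝒢 a.1)
            (fun a => hcard a.1) (fun a => (hQ a).2.2.2.1)
            (fun a => ((hQ a).2.2.2.2.2.2.1 rfl).1)
            (fun a => ((hQ a).2.2.2.2.2.2.1 rfl).2)).trans hBig
        · exact H3 p hp (n - r) r n (by omega) hmr h1 h2 {a : α // P i a} (fun a => 𝒢 a.1)
            (fun a => hcard a.1) (fun a => (hQ a).2.2.2.1)
            (fun a => ((hQ a).2.2.2.2.2.2.2.1 rfl).1)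
            (fun a => ((hQ a).2.2.2.2.2.2.2.1 rfl).2.1)
            (fun a => ((hQ a).2.2.2.2.2.2.2.1 rfl).2.2)
        · exact H4 p hp (n - r) r n (by omega) hmr h1 h2 {a : α // P i a} (fun a => 𝒢 a.1)
            (fun a => hcard a.1) (fun a => (hQ a).2.2.2.1)
            (fun a => ((hQ a).2.2.2.2.2.2.2.2 rfl).1)
            (fun a => ((hQ a).2.2.2.2.2.2.2.2 rfl).2.1)
            (fun a => ((hQ a).2.2.2.2.2.2.2.2 rfl).2.2)
      · have : IsEmpty {a : α // P i a} := not_nonempty_iff.1 hex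
        have h0 : Nat.card (Quot fun a b : {a : α // P i a} => Nonempty (𝒢 a.1 ≃* 𝒢 b.1)) = 0 := by
          have : IsEmpty (Quot fun a b : {a : α // P i a} => Nonempty (𝒢 a.1 ≃* 𝒢 b.1)) :=
            ⟨fun q => by
              obtain ⟨a, -⟩ := Quot.exists_rep q
              exact isEmptyElim a⟩
          exact Nat.card_of_isEmpty
        rw [h0]
        exact Nat.zero_le _
  have hfinal := quot_cover (p ^ n) hN α 𝒢 hcard (4 * n + 5) (fun _ => (B : ℝ)) P hP hBd
  refine hfinal.trans (le_of_eq ?_)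
  rw [Finset.sum_const, Finset.card_range, nsmul_eq_mul, hB]
  push_cast
  ring

end Pool.Agent.Helper252_Enum
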