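import Pool.Agent.Helper252_Enum.R28_few_exceptional
import Pool.Agent.Helper252_Enum.R12_main_class
import Pool.Agent.Helper252_Enum.R21_quot_cover

set_option autoImplicit false

open scoped commutatorElement

namespace Pool.Agent.Helper252_Enum

/-
PROOF OF THE TARGET.
α = Group (Fin (p^n)), 𝒢 g = Fin (p^n) with the group structure g (as a type: fun _ => Fin (p^n), instance fun g => g), the Quot in gnu is definitionally Quot fun a b => Nonempty (𝒢 a ≃* 𝒢 b). quot_cover with k = n + 2: P i a for i <= n: i in the range (19n <= 60i, 60i <= 21n), |FrP| = p^i, TT = ⊥, SmallIm p (n-i) 1; P (n+1) a: ¬ MainC p n (𝒢 a). B i = SS p ((n-i)(n-i+1)/2) i/(gl p (n-i) * gl p i) if i is in the range and 0 otherwise (the subtype is empty),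
B (n+1) = (4n+5) p^(...). main_class (m = n-i, r = i): Quot * (gl * gl) <= SS, gl > 0 (p^m - p^i > 0 for i < m), divide. Sum over range (n+2) = Σ over the filter + B (n+1) (Finset.sum_filter).
-/

namespace J_gnu_upper

theorem gl_pos {p : ℕ} (hp : 2 ≤ p) (m : ℕ) : 0 < gl p m := by
  unfold gl SS
  apply Finset.prod_pos
  intro i hi
  have : p ^ i < p ^ m := Nat.pow_lt_pow_right (by omega) (Finset.mem_range.mp hi)
  omega

theorem upper (p n : ℕ) (hp : p.Prime) (α : Type) (𝒢 : α → Type) [∀ a, Group (𝒢 a)]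
    (hcard : ∀ a, Nat.card (𝒢 a) = p ^ n)
    (h : ∀ (β : Type) (ℋ : β → Type) [∀ a, Group (ℋ a)], (∀ a, Nat.card (ℋ a) = p ^ n) →
      (∀ a, ¬ MainC p n (ℋ a)) →
      (Nat.card (Quot fun a b => Nonempty (ℋ a ≃* ℋ b)) : ℝ) ≤
        (4 * n + 5) * (p : ℝ) ^ (2 * n ^ 3 / 27 - 47 * n ^ 2 / 100)) :
    (Nat.card (Quot fun a b => Nonempty (𝒢 a ≃* 𝒢 b)) : ℝ) ≤
      (∑ r ∈ (Finset.range (n + 1)).filter
        (fun r => 19 * n ≤ 60 * r ∧ 60 * r ≤ 21 * n),
      (SS p ((n - r) * (n - r + 1) / 2) r : ℝ) / (gl p (n - r) * gl p r)) +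
      (4 * n + 5) * (p : ℝ) ^ (2 * n ^ 3 / 27 - 47 * n ^ 2 / 100) := by
  classical
  have : Fact p.Prime := ⟨hp⟩
  have hp2 := hp.two_le
  let P : ℕ → α → Prop := fun i a => if i = n + 1 then ¬ MainC p n (𝒢 a) else
    (19 * n ≤ 60 * i ∧ 60 * i ≤ 21 * n ∧ Nat.card (FrP p (𝒢 a)) = p ^ i ∧
      TT p (𝒢 a) = ⊥ ∧ SmallIm p (n - i) 1 (𝒢 a))
  let B : ℕ → ℝ := fun i => if i = n + 1 then
    (4 * n + 5) * (p : ℝ) ^ (2 * n ^ 3 / 27 - 47 * n ^ 2 / 100) else
    if 19 * n ≤ 60 * i ∧ 60 * i ≤ 21 * n then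
      (SS p ((n - i) * (n - i + 1) / 2) i : ℝ) / (gl p (n - i) * gl p i) else 0
  have key := quot_cover (p ^ n) (pow_pos (by omega) n) α 𝒢 hcard (n + 2) B P ?_ ?_
  · refine key.trans (le_of_eq ?_)
    rw [Finset.sum_range_succ]
    congr 1
    · rw [Finset.sum_filter]
      refine Finset.sum_congr rfl fun i hi => ?_
      have hi' : i ≠ n + 1 := by
        have := Finset.mem_range.mp hi
        omega
      simp only [B]
      rw [if_neg hi']
    · exact if_pos rfl
  · intro a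
    by_cases hM : MainC p n (𝒢 a)
    · obtain ⟨m, r, hmr, h1, h2, h3, h4, h5⟩ := hM
      refine ⟨r, by omega, ?_⟩
      have hr : r ≠ n + 1 := by omega
      simp only [P]
      rw [if_neg hr]
      have hm : n - r = m := by omega
      rw [hm]
      exact ⟨h1, h2, h3, h4, h5⟩
    · refine ⟨n + 1, by omega, ?_⟩
      have e : P (n + 1) a = ¬ MainC p n (𝒢 a) := if_pos rfl
      rw [e]
      exact hM
  · intro i hi
    by_cases hin : i = n + 1
    · have hB : B i = (4 * n + 5) * (p : ℝ) ^ (2 * n ^ 3 / 27 - 47 * n ^ 2 / 100) := by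
        simp only [B]; rw [if_pos hin]
      rw [hB]
      have hPi : ∀ a : {a : α // P i a}, ¬ MainC p n (𝒢 a.1) := by
        intro a
        have := a.2
        simp only [P] at this
        rw [if_pos hin] at this
        exact this
      exact h {a : α // P i a} (fun a => 𝒢 a.1) (fun a => hcard a.1) hPi
    · have hPi : ∀ a : {a : α // P i a}, (19 * n ≤ 60 * i ∧ 60 * i ≤ 21 * n ∧
          Nat.card (FrP p (𝒢 a.1)) = p ^ i ∧
          TT p (𝒢 a.1) = ⊥ ∧ SmallIm p (n - i) 1 (𝒢 a.1)) := by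
        intro a
        have := a.2
        simp only [P] at this
        rw [if_neg hin] at this
        exact this
      by_cases hr : 19 * n ≤ 60 * i ∧ 60 * i ≤ 21 * n
      · have hB : B i = (SS p ((n - i) * (n - i + 1) / 2) i : ℝ) / (gl p (n - i) * gl p i) := by
          simp only [B]; rw [if_neg hin, if_pos hr]
        rw [hB]
        have hle : i ≤ n := by omega
        have hsum : n - i + i = n := by omega
        have hm := main_class (p := p) (n - i) i {a : α // P i a} (fun a => 𝒢 a.1)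
          (fun a => by rw [hsum]; exact hcard a.1) (fun a => (hPi a).2.2.1)
          (fun a => (hPi a).2.2.2.1) (fun a => (hPi a).2.2.2.2)
        have g1 : (0 : ℝ) < gl p (n - i) := by exact_mod_cast gl_pos hp2 (n - i)
        have g2 : (0 : ℝ) < gl p i := by exact_mod_cast gl_pos hp2 i
        rw [le_div_iff₀ (mul_pos g1 g2)]
        exact_mod_cast hm
      · have hB : B i = 0 := by
          simp only [B]; rw [if_neg hin, if_neg hr]
        rw [hB]
        have hempty : IsEmpty {a : α // P i a} := ⟨fun a => hr ⟨(hPi a).1, (hPi a).2.1⟩⟩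
        have : IsEmpty (Quot fun a b : {a : α // P i a} => Nonempty (𝒢 a.1 ≃* 𝒢 b.1)) :=
          ⟨fun q => Quot.ind (β := fun _ => False) (fun a => hempty.false a) q⟩
        rw [Nat.card_of_isEmpty]
        simp

end J_gnu_upper

/-- TARGET -/
theorem gnu_upper : ∃ n₀ : ℕ, ∀ (p : ℕ), p.Prime → ∀ n, n₀ ≤ n →
    (gnu (p ^ n) : ℝ) ≤ (∑ r ∈ (Finset.range (n + 1)).filter
        (fun r => 19 * n ≤ 60 * r ∧ 60 * r ≤ 21 * n),
      (SS p ((n - r) * (n - r + 1) / 2) r : ℝ) / (gl p (n - r) * gl p r)) +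
      (4 * n + 5) * (p : ℝ) ^ (2 * n ^ 3 / 27 - 47 * n ^ 2 / 100) := by
  obtain ⟨n₀, h⟩ := few_exceptional
  refine ⟨n₀, fun p hp n hn => ?_⟩
  let inst : ∀ g : Group (Fin (p ^ n)), Group ((fun _ : Group (Fin (p ^ n)) => Fin (p ^ n)) g) :=
    fun g => g
  have key := @J_gnu_upper.upper p n hp (Group (Fin (p ^ n))) (fun _ => Fin (p ^ n)) inst
    (fun _ => by simp) (h p hp n hn)
  exact key

end Pool.Agent.Helper252_Enum
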