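import Pool.Agent.Helper252_Enum.Defs3
import Pool.Agent.Helper252_Enum.R25_td_family
import Pool.Agent.Helper252_Enum.R20_quot_finite

set_option autoImplicit false

open scoped commutatorElement

namespace Pool.Agent.Helper252_Enum

/-
PROOF OF THE TARGET.
For each r ∈ R := (range (n+1)).filter .. take B_r, 𝒢_r from td_family q (n-r) r (n - r + r = n). Let Q_r = Quot of isomorphism on B_r (finite). Each fibre of B_r → Q_r has at most gl q (n-r) * gl q r elements, so SS q .. r = |B_r| <= |Q_r| gl gl, i.e. SS/(gl gl) <= |Q_r| (gl > 0).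
Map Σ r : R, Q_r → Quot on Group (Fin (q^n)): transport the group structure of 𝒢_r b to Fin (q^n) along an Equiv (Nat.card = q^n; Finite.equivFinOfCardEq, Equiv.group, Equiv.mulEquiv). Well defined and injective: an isomorphism 𝒢_r b ≃* 𝒢_r' b' implies |FrP| = q^r = q^r' (FrP is preserved by isomorphisms), so r = r', and then the classes agree. gnu (q^n) is the Nat.card of the target, which is finite
(Group (Fin N) is finite, or quot_finite). So Σ |Q_r| <= gnu (q^n); cast to ℝ.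
-/

namespace J_gnu_lower

/-- the isomorphism relation between group structures on `Fin N` -/
def R (N : ℕ) (g h : Group (Fin N)) : Prop :=
  Nonempty (@MulEquiv (Fin N) (Fin N)
    (@Semigroup.toMul _ (@Monoid.toSemigroup _ (@DivInvMonoid.toMonoid _ (@Group.toDivInvMonoid _ g))))
    (@Semigroup.toMul _ (@Monoid.toSemigroup _ (@DivInvMonoid.toMonoid _ (@Group.toDivInvMonoid _ h)))))

def eR {A : Type} (i : Mul A) : @MulEquiv A A i i := MulEquiv.refl A

def eS {A B : Type} {i : Mul A} {j : Mul B} (e : @MulEquiv A B i j) : @MulEquiv B A j i := e.symm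

def eT {A B C : Type} {i : Mul A} {j : Mul B} {k : Mul C} (e : @MulEquiv A B i j)
    (f : @MulEquiv B C j k) : @MulEquiv A C i k := e.trans f

theorem R_equiv (N : ℕ) : Equivalence (R N) where
  refl _ := ⟨eR _⟩
  symm := fun ⟨e⟩ => ⟨eS e⟩
  trans := fun ⟨e⟩ ⟨f⟩ => ⟨eT e f⟩

def mulOf {A : Type} (g : Group A) : A → A → A := (letI := g; HMul.hMul)

theorem mulOf_inj {A : Type} : Function.Injective (mulOf (A := A)) := fun _ _ h => Group.ext h

theorem fin_group (N : ℕ) : Finite (Group (Fin N)) :=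
  Finite.of_injective (mulOf (A := Fin N)) mulOf_inj

theorem FrP_card {p : ℕ} {G G' : Type} [Group G] [Group G'] (φ : G ≃* G') :
    Nat.card (FrP p G) = Nat.card (FrP p G') := by
  have h : (FrP p G).map φ.toMonoidHom = FrP p G' := by
    unfold FrP PC
    rw [MonoidHom.map_closure]
    congr 1
    ext x
    constructor
    · rintro ⟨y, (⟨a, -, b, -, rfl⟩ | ⟨a, -, rfl⟩), rfl⟩
      · left; exact ⟨φ a, trivial, φ b, trivial, map_commutatorElement φ a b⟩
      · right; exact ⟨φ a, trivial, map_pow φ a p⟩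
    · rintro (⟨a, -, b, -, rfl⟩ | ⟨a, -, rfl⟩)
      · refine ⟨⁅φ.symm a, φ.symm b⁆, Or.inl ⟨_, trivial, _, trivial, rfl⟩, ?_⟩
        show φ ⁅φ.symm a, φ.symm b⁆ = _
        rw [map_commutatorElement, φ.apply_symm_apply, φ.apply_symm_apply]
      · refine ⟨φ.symm a ^ p, Or.inr ⟨_, trivial, rfl⟩, ?_⟩
        show φ (φ.symm a ^ p) = _
        rw [map_pow, φ.apply_symm_apply]
  rw [← h]
  exact Nat.card_congr (φ.subgroupMap (FrP p G)).toEquiv

/-- the order of the Frattini subgroup -/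
noncomputable def frc (q : ℕ) {A : Type} (g : Group A) : ℕ := Nat.card (FrP q A)

theorem frc_eq (q : ℕ) {A B : Type} (g : Group A) (h : Group B)
    (e : @MulEquiv A B
      (@Semigroup.toMul _ (@Monoid.toSemigroup _ (@DivInvMonoid.toMonoid _ (@Group.toDivInvMonoid _ g))))
      (@Semigroup.toMul _ (@Monoid.toSemigroup _ (@DivInvMonoid.toMonoid _ (@Group.toDivInvMonoid _ h))))) :
    frc q g = frc q h := FrP_card e

theorem fam (q n r : ℕ) [Fact q.Prime] (hr : r ≤ n) :
    ∃ I : Finset (Quot (R (q ^ n))),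
      SS q ((n - r) * (n - r + 1) / 2) r ≤ gl q (n - r) * gl q r * I.card ∧
      ∀ c ∈ I, ∃ g : Group (Fin (q ^ n)), Quot.mk _ g = c ∧ frc q g = q ^ r := by
  classical
  obtain ⟨B, hBf, G, hG, hBc, hGc, hFr, hfib⟩ := td_family q (n - r) r
  rw [Nat.sub_add_cancel hr] at hGc
  have := fin_group (q ^ n)
  have : Finite (Quot (R (q ^ n))) := Quot.finite _
  have : Fintype B := Fintype.ofFinite B
  have hq : 0 < q := (Fact.out : q.Prime).pos
  have hfin : ∀ b, Finite (G b) := fun b =>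
    Nat.finite_of_card_ne_zero (by rw [hGc b]; exact (pow_pos hq n).ne')
  have hex : ∀ b, ∃ g : Group (Fin (q ^ n)), Nonempty (@MulEquiv (Fin (q ^ n)) (G b)
    (@Semigroup.toMul _ (@Monoid.toSemigroup _ (@DivInvMonoid.toMonoid _ (@Group.toDivInvMonoid _ g))))
    (@Semigroup.toMul _ (@Monoid.toSemigroup _ (@DivInvMonoid.toMonoid _ (@Group.toDivInvMonoid _ (hG b)))))) := by
    intro b
    have := hfin b
    let eb : Fin (q ^ n) ≃ G b := (Finite.equivFinOfCardEq (hGc b)).symm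
    exact ⟨eb.group, ⟨eb.mulEquiv⟩⟩
  choose gr hgr using hex
  let Φ : B → Quot (R (q ^ n)) := fun b => Quot.mk _ (gr b)
  have hΦ : ∀ b b0, Φ b = Φ b0 → Nonempty (G b ≃* G b0) := by
    intro b b0 h
    have h1 : R (q ^ n) (gr b) (gr b0) := (R_equiv (q ^ n)).eqvGen_iff.1 (Quot.eqvGen_exact h)
    obtain ⟨e1⟩ := h1
    obtain ⟨e2⟩ := hgr b
    obtain ⟨e3⟩ := hgr b0
    exact ⟨eT (eS e2) (eT e1 e3)⟩
  refine ⟨(Finset.univ : Finset B).image Φ, ?_, ?_⟩
  · have h1 : (Finset.univ : Finset B).card ≤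
        gl q (n - r) * gl q r * ((Finset.univ : Finset B).image Φ).card := by
      refine Finset.card_le_mul_card_image _ _ fun c hc => ?_
      obtain ⟨b0, -, rfl⟩ := Finset.mem_image.1 hc
      refine le_trans ?_ (hfib b0)
      rw [Nat.card_eq_fintype_card, Fintype.card_subtype]
      refine Finset.card_le_card fun b hb => ?_
      rw [Finset.mem_filter] at hb ⊢
      exact ⟨Finset.mem_univ _, hΦ b b0 hb.2⟩
    rw [← hBc, Nat.card_eq_fintype_card, ← Finset.card_univ]
    exact h1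
  · intro c hc
    obtain ⟨b, -, rfl⟩ := Finset.mem_image.1 hc
    refine ⟨gr b, rfl, ?_⟩
    obtain ⟨e⟩ := hgr b
    rw [frc_eq q (gr b) (hG b) e]
    exact hFr b

end J_gnu_lower

/-- TARGET -/
theorem gnu_lower (q n : ℕ) (hq : q.Prime) : (∑ r ∈ (Finset.range (n + 1)).filter
        (fun r => 19 * n ≤ 60 * r ∧ 60 * r ≤ 21 * n),
      (SS q ((n - r) * (n - r + 1) / 2) r : ℝ) / (gl q (n - r) * gl q r)) ≤ (gnu (q ^ n) : ℝ) := by
  classical
  have : Fact q.Prime := ⟨hq⟩
  have := J_gnu_lower.fin_group (q ^ n)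
  have hQf : Finite (Quot (J_gnu_lower.R (q ^ n))) := Quot.finite _
  have : Fintype (Quot (J_gnu_lower.R (q ^ n))) := Fintype.ofFinite _
  have hex : ∀ r : ℕ, ∃ I : Finset (Quot (J_gnu_lower.R (q ^ n))), r ≤ n →
      SS q ((n - r) * (n - r + 1) / 2) r ≤ gl q (n - r) * gl q r * I.card ∧
      ∀ c ∈ I, ∃ g : Group (Fin (q ^ n)), Quot.mk _ g = c ∧ J_gnu_lower.frc q g = q ^ r := by
    intro r
    by_cases hr : r ≤ n
    · obtain ⟨I, hI⟩ := J_gnu_lower.fam q n r hr
      exact ⟨I, fun _ => hI⟩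
    · exact ⟨∅, fun h => absurd h hr⟩
  choose I hI using hex
  set S := (Finset.range (n + 1)).filter (fun r => 19 * n ≤ 60 * r ∧ 60 * r ≤ 21 * n) with hS
  have hSn : ∀ r ∈ S, r ≤ n := by
    intro r hr
    rw [hS, Finset.mem_filter, Finset.mem_range] at hr
    omega
  have hdis : ∀ r ∈ S, ∀ r' ∈ S, r ≠ r' → Disjoint (I r) (I r') := by
    intro r hr r' hr' hne
    rw [Finset.disjoint_left]
    intro c hc hc'
    obtain ⟨g, hg, hgr⟩ := (hI r (hSn r hr)).2 c hc
    obtain ⟨g', hg', hgr'⟩ := (hI r' (hSn r' hr')).2 c hc'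
    have h1 : J_gnu_lower.R (q ^ n) g g' :=
      (J_gnu_lower.R_equiv (q ^ n)).eqvGen_iff.1 (Quot.eqvGen_exact (hg.trans hg'.symm))
    obtain ⟨e⟩ := h1
    have h2 := J_gnu_lower.frc_eq q g g' e
    rw [hgr, hgr'] at h2
    exact hne (Nat.pow_right_injective hq.two_le h2)
  have hsum : ∑ r ∈ S, (I r).card ≤ gnu (q ^ n) := by
    rw [← Finset.card_biUnion hdis]
    show _ ≤ Nat.card (Quot (J_gnu_lower.R (q ^ n)))
    rw [Nat.card_eq_fintype_card]
    exact Finset.card_le_univ _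
  calc ∑ r ∈ S, (SS q ((n - r) * (n - r + 1) / 2) r : ℝ) / (gl q (n - r) * gl q r)
      ≤ ∑ r ∈ S, ((I r).card : ℝ) := by
        refine Finset.sum_le_sum fun r hr => ?_
        refine div_le_of_le_mul₀ (by positivity) (by positivity) ?_
        have h1 := (hI r (hSn r hr)).1
        calc (SS q ((n - r) * (n - r + 1) / 2) r : ℝ) ≤
              ((gl q (n - r) * gl q r * (I r).card : ℕ) : ℝ) := by exact_mod_cast h1
          _ = ((I r).card : ℝ) * (gl q (n - r) * gl q r) := by push_cast; ring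
    _ = ((∑ r ∈ S, (I r).card : ℕ) : ℝ) := by push_cast; rfl
    _ ≤ (gnu (q ^ n) : ℝ) := by exact_mod_cast hsum

end Pool.Agent.Helper252_Enum
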