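import Pool.Agent.Helper252_Enum.R29_gnu_upper
import Pool.Agent.Helper252_Enum.R30_gnu_lower
import Pool.Agent.Helper252_Enum.R26_main_term_compare
import Pool.Agent.Helper252_Enum.R27_main_term_ge

set_option autoImplicit false

open scoped commutatorElement

namespace Pool.Agent.Helper252_Enum

/-
PROOF OF THE TARGET.
Let f_r(x) = SS x ((n-r)(n-r+1)/2) r/(gl x (n-r) gl x r) (real), R the filter set, E = 2n^3/27 - 47n^2/100 (naturals). For r ∈ R and n large h_r := r(m(m+1)/2) - m^2 - r^2 - 8 >= 1 (m = n-r >= 0.65 n, r >= 0.31 n). main_term_compare: f_r(q) >= (1+1/p)^(h_r) f_r(p) >= (1 + h_r/p) f_r(p) (one_add_mul_le_pow) >= f_r(p), as f_r(p) >= 0.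
For r0 = n/3 (floor; in R for n large): f_r0(q) - f_r0(p) >= f_r0(p)/p, and main_term_ge (r0 + 1 <= m(m+1)/2): f_r0(p) >= p^(r0 m(m+1)/2 - m^2 - r0^2 - 1). So gnu(q^n) - gnu(p^n) >= Σ_r f_r(q) - Σ_r f_r(p) - (4n+5) p^E >= p^(H) - (4n+5) p^E with H = r0 m(m+1)/2 - m^2 - r0^2 - 2 and it is enough that p^H > (4n+5) p^E: H >= E + 8 + log: claim H >= E + n for n large:
with r0 = n/3 - δ, m = 2n/3 + δ, 0 <= δ < 1: r0 m^2/2 >= 2n^3/27 - n, r0 m/2 - m^2 - r0^2 >= n^2/9 - 4n^2/9 - n^2/9 - 3n = -4n^2/9 - 3n, so H >= 2n^3/27 - 4n^2/9 - 5n - 2 >= 2n^3/27 - 47n^2/100 + 2n for n large (47/100 - 4/9 > 0.025), E <= 2n^3/27 - 47n^2/100 + 1. And 4n+5 < 2^n <= p^n.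
(For the integrality write n = 3k + e, e ∈ {0,1,2}, r0 = k, m = 2k + e if convenient.)
-/

namespace J_monotone_final

theorem triT (m : ℕ) : 2 * (m * (m + 1) / 2) = m * (m + 1) :=
  Nat.mul_div_cancel' (Nat.even_mul_succ_self m).two_dvd

/-- The condition of `main_term_compare`, with one unit to spare. -/
theorem cond {n r : ℕ} (hn : 200 ≤ n) (h1 : 19 * n ≤ 60 * r) (h2 : 60 * r ≤ 21 * n) :
    (n - r) ^ 2 + r ^ 2 + 9 ≤ r * ((n - r) * (n - r + 1) / 2) := by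
  obtain ⟨m, hm⟩ : ∃ m, m = n - r := ⟨_, rfl⟩
  rw [← hm]
  have hT := triT m
  generalize m * (m + 1) / 2 = T at hT ⊢
  have hr : 31 ≤ r := by omega
  have hrm : r ≤ m := by omega
  have h3 : 31 * (m * (m + 1)) ≤ r * (m * (m + 1)) := Nat.mul_le_mul_right _ hr
  have h4 : r * (2 * T) = r * (m * (m + 1)) := by rw [hT]
  have h5 : r ^ 2 ≤ m ^ 2 := Nat.pow_le_pow_left hrm 2
  nlinarith

theorem big {n : ℕ} (hn : 300 ≤ n) :
    2 * n ^ 3 / 27 - 47 * n ^ 2 / 100 + n + ((n - n / 3) ^ 2 + (n / 3) ^ 2 + 2) ≤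
      n / 3 * ((n - n / 3) * (n - n / 3 + 1) / 2) := by
  obtain ⟨k, hk⟩ : ∃ k, k = n / 3 := ⟨_, rfl⟩
  obtain ⟨e, he⟩ : ∃ e, e = n % 3 := ⟨_, rfl⟩
  have hn2 : n = 3 * k + e := by omega
  have he2 : e < 3 := by omega
  have hk2 : 100 ≤ k := by omega
  rw [← hk]
  have hm : n - k = 2 * k + e := by omega
  rw [hm]
  have hT := triT (2 * k + e)
  generalize (2 * k + e) * (2 * k + e + 1) / 2 = T at hT ⊢
  have hA : 27 * (2 * n ^ 3 / 27) ≤ 2 * n ^ 3 := Nat.mul_div_le _ _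
  have hB : 47 * n ^ 2 < 100 * (47 * n ^ 2 / 100) + 100 := by
    have := Nat.div_add_mod (47 * n ^ 2) 100
    have := Nat.mod_lt (47 * n ^ 2) (show 0 < 100 by norm_num)
    omega
  generalize 2 * n ^ 3 / 27 = A at hA ⊢
  generalize 47 * n ^ 2 / 100 = B at hB ⊢
  have hkT : 2 * (k * T) = k * ((2 * k + e) * (2 * k + e + 1)) := by
    rw [← hT]; ring
  generalize k * T = U at hkT ⊢
  suffices h : A + n + ((2 * k + e) ^ 2 + k ^ 2 + 2) ≤ U + B ∧
      n + ((2 * k + e) ^ 2 + k ^ 2 + 2) ≤ U by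
    omega
  subst hn2
  have h3 : k * k * 100 ≤ k * k * k := Nat.mul_le_mul_left _ hk2
  have h4 : k * 100 ≤ k * k := Nat.mul_le_mul_left _ hk2
  interval_cases e
  · constructor
    · nlinarith
    · nlinarith
  · constructor
    · nlinarith
    · nlinarith
  · constructor
    · nlinarith
    · nlinarith

theorem lin_lt_pow {n : ℕ} (hn : 5 ≤ n) : 4 * n + 5 < 2 ^ n := by
  induction n, hn using Nat.le_induction with
  | base => norm_num
  | succ n hn ih =>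
    rw [pow_succ]
    omega

/-- The main term. -/
noncomputable def F (n x r : ℕ) : ℝ :=
  (SS x ((n - r) * (n - r + 1) / 2) r : ℝ) / (gl x (n - r) * gl x r)

theorem F_nonneg (n x r : ℕ) : 0 ≤ F n x r := by
  unfold F
  positivity

theorem F_mul {n p q r : ℕ} (hp : p.Prime) (hq : q.Prime) (hpq : p < q) (hn : 200 ≤ n)
    (h1 : 19 * n ≤ 60 * r) (h2 : 60 * r ≤ 21 * n) :
    (1 + 1 / (p : ℝ)) * F n p r ≤ F n q r := by
  have hc := cond hn h1 h2
  have h := main_term_compare p q (n - r) r hp hq hpq (by omega)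
  have hp0 : (0 : ℝ) < p := by exact_mod_cast hp.pos
  have hb : (1 : ℝ) ≤ 1 + 1 / (p : ℝ) := by
    have : (0 : ℝ) < 1 / (p : ℝ) := by positivity
    linarith
  refine le_trans ?_ h
  refine mul_le_mul_of_nonneg_right ?_ (F_nonneg n p r)
  exact le_self_pow₀ hb (by omega)

end J_monotone_final

open J_monotone_final in
/-- TARGET -/
theorem monotone_final : ∃ n₀ : ℕ, ∀ n, n₀ ≤ n → ∀ p q : ℕ, p.Prime → q.Prime → p < q →
    gnu (p ^ n) < gnu (q ^ n) := by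
  obtain ⟨n₁, hup⟩ := gnu_upper
  refine ⟨max n₁ 300, fun n hn p q hp hq hpq => ?_⟩
  have hn1 : n₁ ≤ n := le_trans (le_max_left _ _) hn
  have hn3 : 300 ≤ n := le_trans (le_max_right _ _) hn
  have hU := hup p hp n hn1
  have hL := gnu_lower q n hq
  have hp0 : (0 : ℝ) < p := by exact_mod_cast hp.pos
  have hp1 : (1 : ℝ) ≤ p := by exact_mod_cast hp.one_lt.le
  set R := (Finset.range (n + 1)).filter (fun r => 19 * n ≤ 60 * r ∧ 60 * r ≤ 21 * n) with hR
  change (gnu (p ^ n) : ℝ) ≤ (∑ r ∈ R, F n p r) + _ at hU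
  change (∑ r ∈ R, F n q r) ≤ _ at hL
  have hr0 : n / 3 ∈ R := by
    rw [hR, Finset.mem_filter, Finset.mem_range]
    omega
  have hle : ∀ r ∈ R, 0 ≤ F n q r - F n p r := by
    intro r hr
    rw [hR, Finset.mem_filter] at hr
    have h := F_mul hp hq hpq (by omega) hr.2.1 hr.2.2
    have h0 := F_nonneg n p r
    have : (0 : ℝ) < 1 / (p : ℝ) := by positivity
    nlinarith
  have hsum : F n q (n / 3) - F n p (n / 3) ≤ (∑ r ∈ R, F n q r) - ∑ r ∈ R, F n p r := by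
    rw [← Finset.sum_sub_distrib]
    exact Finset.single_le_sum (f := fun r => F n q r - F n p r) hle hr0
  have hr1 := (Finset.mem_filter.1 (hR ▸ hr0)).2
  have hgain : 1 / (p : ℝ) * F n p (n / 3) ≤ F n q (n / 3) - F n p (n / 3) := by
    have h := F_mul hp hq hpq (by omega) hr1.1 hr1.2
    linarith
  have hbig := big hn3
  have hmt := main_term_ge p (n - n / 3) (n / 3) hp (by
    have hT := triT (n - n / 3)
    have h1 : 100 ≤ n - n / 3 := by omega
    have h2 : n / 3 ≤ n - n / 3 := by omega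
    nlinarith)
  change _ ≤ _ * F n p (n / 3) at hmt
  generalize n / 3 * ((n - n / 3) * (n - n / 3 + 1) / 2) = U at hbig hmt
  generalize (n - n / 3) ^ 2 + (n / 3) ^ 2 = V at hbig hmt
  generalize 2 * n ^ 3 / 27 - 47 * n ^ 2 / 100 = E at hbig hU
  have hmt2 : (p : ℝ) ^ (E + n + (V + 2)) ≤ (p : ℝ) ^ (V + 1) * F n p (n / 3) :=
    le_trans (pow_le_pow_right₀ hp1 hbig) hmt
  have hF : (p : ℝ) ^ (E + n) ≤ 1 / (p : ℝ) * F n p (n / 3) := by
    have h1 : (p : ℝ) ^ (E + n + (V + 2)) = (p : ℝ) ^ (V + 1) * ((p : ℝ) ^ (E + n) * p) := by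
      ring
    rw [h1] at hmt2
    have h2 := le_of_mul_le_mul_left hmt2 (by positivity)
    rw [one_div, inv_mul_eq_div, le_div_iff₀ hp0]
    exact h2
  have hlin : (4 * (n : ℝ) + 5) < (p : ℝ) ^ n := by
    have h1 : 4 * n + 5 < 2 ^ n := lin_lt_pow (by omega)
    have h2 : 2 ^ n ≤ p ^ n := Nat.pow_le_pow_left hp.two_le n
    exact_mod_cast lt_of_lt_of_le h1 h2
  have hfin : (4 * (n : ℝ) + 5) * (p : ℝ) ^ E < (p : ℝ) ^ (E + n) := by
    rw [pow_add, mul_comm ((p : ℝ) ^ E)]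
    exact mul_lt_mul_of_pos_right hlin (by positivity)
  have : (gnu (p ^ n) : ℝ) < (gnu (q ^ n) : ℝ) := by linarith
  exact_mod_cast this

end Pool.Agent.Helper252_Enum
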