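import Pool.Agent.Helper252_Enum.Defs3
import Pool.Agent.Helper252_Enum.R03_trans_of_crd

set_option autoImplicit false

open scoped commutatorElement

namespace Pool.Agent.Helper252_Enum

namespace J_comm_of_integ

theorem frP_gen_comm {p : ℕ} {G : Type*} [Group G] (a b : G) : ⁅a, b⁆ ∈ FrP p G :=
  Subgroup.subset_closure (Or.inl ⟨a, Subgroup.mem_top a, b, Subgroup.mem_top b, rfl⟩)

theorem frP_map_le {p : ℕ} {G : Type*} [Group G] (φ : G ≃* G) (a : G) (ha : a ∈ FrP p G) :
    φ a ∈ FrP p G := by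
  unfold FrP PC at ha
  induction ha using Subgroup.closure_induction with
  | mem x hx =>
    rcases hx with ⟨a, -, b, -, rfl⟩ | ⟨a, -, rfl⟩
    · rw [map_commutatorElement]
      exact Subgroup.subset_closure
        (Or.inl ⟨φ a, Subgroup.mem_top _, φ b, Subgroup.mem_top _, rfl⟩)
    · rw [map_pow]
      exact Subgroup.subset_closure (Or.inr ⟨φ a, Subgroup.mem_top _, rfl⟩)
  | one => rw [map_one]; exact Subgroup.one_mem _
  | mul x y _ _ hx hy => rw [map_mul]; exact Subgroup.mul_mem _ hx hy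
  | inv x _ hx => rw [map_inv]; exact Subgroup.inv_mem _ hx

theorem frP_map_iff {p : ℕ} {G : Type*} [Group G] (φ : G ≃* G) (a : G) :
    φ a ∈ FrP p G ↔ a ∈ FrP p G := by
  refine ⟨fun h => ?_, fun h => frP_map_le φ a h⟩
  have := frP_map_le φ.symm _ h
  simpa using this

theorem fix_v {p m : ℕ} [Fact p.Prime] (G : Type) [Group G]
    (v : G → Vp p m) (hv : IsCrd p m G v) (hS : SmallIm p m 1 G) (φ : G ≃* G) (a : G) :
    v (φ a) = v a := by
  have hfin : Finite {u' : G → Vp p m // IsCrd p m G u' ∧ SameCrd v u'} := by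
    have hg : ∀ u : {u' : G → Vp p m // IsCrd p m G u' ∧ SameCrd v u'},
        ∃ g : Vp p m ≃+ Vp p m, ∀ a, u.1 a = g (v a) := fun u =>
      trans_of_crd m G v u.1 hv u.2.1
    choose g hg using hg
    have : Function.Injective (fun u => (g u : Vp p m → Vp p m)) := by
      intro u u' huu
      apply Subtype.ext
      funext a
      rw [hg u a, hg u' a]
      exact congrFun huu (v a)
    exact Finite.of_injective _ this
  have hsub : Subsingleton {u' : G → Vp p m // IsCrd p m G u' ∧ SameCrd v u'} :=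
    Finite.card_le_one_iff_subsingleton.mp (hS v hv)
  have h2 : IsCrd p m G (fun a => v (φ.symm a)) := by
    refine ⟨fun a b => ?_, fun x => ?_, fun a => ?_⟩
    · rw [map_mul, hv.map_mul]
    · obtain ⟨a, ha⟩ := hv.surj x
      exact ⟨φ a, by simpa using ha⟩
    · rw [hv.ker, frP_map_iff]
  have h3 : SameCrd v (fun a => v (φ.symm a)) := ⟨φ, fun a => by simp⟩
  have h1 : SameCrd v v := ⟨MulEquiv.refl G, fun a => rfl⟩
  have := hsub.elim ⟨v, hv, h1⟩ ⟨fun a => v (φ.symm a), h2, h3⟩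
  have h4 := congrArg Subtype.val this
  have h5 := congrFun h4 (φ a)
  simpa using h5

end J_comm_of_integ

/-- TARGET -/
theorem comm_of_integ.{u} {p m : ℕ} [Fact p.Prime] (G : Type) [Group G] (hT : TT p G = ⊥)
    (v : G → Vp p m) (hv : IsCrd p m G v) (hS : SmallIm p m 1 G) (hI : Integ.{u} G) :
    ∀ a b : G, a * b = b * a := by
  have hcen : ∀ f ∈ FrP p G, ∀ g : G, ⁅f, g⁆ = 1 := by
    intro f hf g
    have : ⁅f, g⁆ ∈ TT p G :=
      Subgroup.subset_closure (Or.inl ⟨f, hf, g, Subgroup.mem_top g, rfl⟩)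
    rw [hT] at this
    exact Subgroup.mem_bot.mp this
  have hpow : ∀ f ∈ FrP p G, f ^ p = 1 := by
    intro f hf
    have : f ^ p ∈ TT p G := Subgroup.subset_closure (Or.inr ⟨f, hf, rfl⟩)
    rw [hT] at this
    exact Subgroup.mem_bot.mp this
  have hcomm : ∀ f ∈ FrP p G, ∀ g : G, f * g = g * f := by
    intro f hf g
    exact commutatorElement_eq_one_iff_mul_comm.mp (hcen f hf g)
  have hv1 : v 1 = 0 := (hv.ker 1).mpr (Subgroup.one_mem _)
  have hvinv : ∀ a, v a⁻¹ = - v a := by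
    intro a
    have := hv.map_mul a⁻¹ a
    rw [inv_mul_cancel, hv1] at this
    exact eq_neg_of_add_eq_zero_left this.symm
  have hdiff : ∀ φ : G ≃* G, ∀ a, ∃ f ∈ FrP p G, φ a = a * f := by
    intro φ a
    refine ⟨a⁻¹ * φ a, ?_, by group⟩
    rw [← hv.ker, hv.map_mul, hvinv, J_comm_of_integ.fix_v G v hv hS φ a]
    simp
  have hfix : ∀ φ : G ≃* G, ∀ f ∈ FrP p G, φ f = f := by
    intro φ f hf
    unfold FrP PC at hf
    induction hf using Subgroup.closure_induction with
    | mem x hx =>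
      rcases hx with ⟨a, -, b, -, rfl⟩ | ⟨a, -, rfl⟩
      · obtain ⟨f, hf, ha⟩ := hdiff φ a
        obtain ⟨g, hg, hb⟩ := hdiff φ b
        rw [map_commutatorElement, ha, hb, commutatorElement_def, commutatorElement_def]
        rw [mul_inv_rev, mul_inv_rev]
        have e1 : a * f * (b * g) = (a * b) * (f * g) := by
          rw [mul_assoc, ← mul_assoc f b g, hcomm f hf b]; group
        have hf' := Subgroup.inv_mem _ hf
        have hg' := Subgroup.inv_mem _ hg
        rw [e1]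
        have e2 : f⁻¹ * a⁻¹ * (g⁻¹ * b⁻¹) = (a⁻¹ * b⁻¹) * (f⁻¹ * g⁻¹) := by
          rw [hcomm _ hf' a⁻¹, hcomm _ hg' b⁻¹, mul_assoc, ← mul_assoc f⁻¹ b⁻¹ g⁻¹,
            hcomm _ hf' b⁻¹]
          group
        rw [mul_assoc (a * b * (f * g)), e2]
        have hfg := Subgroup.mul_mem _ hf hg
        rw [mul_assoc (a * b) (f * g), hcomm _ hfg, mul_assoc (a⁻¹ * b⁻¹)]
        have e3 : f⁻¹ * g⁻¹ * (f * g) = 1 := by
          rw [mul_assoc, ← mul_assoc g⁻¹, hcomm _ hg' f, mul_assoc f, inv_mul_cancel, mul_one,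
            inv_mul_cancel]
        rw [e3]
        group
      · obtain ⟨f, hf, ha⟩ := hdiff φ a
        rw [map_pow, ha]
        have hc : Commute a f := (hcomm f hf a).symm
        rw [hc.mul_pow, hpow f hf, mul_one]
    | one => rw [map_one]
    | mul x y _ _ hx hy => rw [map_mul, hx, hy]
    | inv x _ hx => rw [map_inv, hx]
  obtain ⟨H, _, ⟨e⟩⟩ := hI
  -- the automorphism induced by conjugation
  have hconj : ∀ (h : H) (d : commutator H), ∃ φ : G ≃* G,
      ∀ x : commutator H, φ (e x) = e (MulAut.conjNormal h x) := by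
    intro h d
    refine ⟨(e.symm.trans (MulAut.conjNormal h)).trans e, fun x => ?_⟩
    simp
  let FD : Subgroup H := ((FrP p G).comap e.toMonoidHom).map (commutator H).subtype
  have h1 : ⁅commutator H, (⊤ : Subgroup H)⁆ ≤ FD := by
    rw [Subgroup.commutator_le]
    intro d hd h _
    obtain ⟨φ, hφ⟩ := hconj h ⟨d, hd⟩
    refine ⟨⟨d, hd⟩ * MulAut.conjNormal h ⟨d, hd⟩⁻¹, ?_, ?_⟩
    · show e (⟨d, hd⟩ * MulAut.conjNormal h ⟨d, hd⟩⁻¹) ∈ FrP p G
      rw [map_mul, ← hφ, ← hv.ker, hv.map_mul, J_comm_of_integ.fix_v G v hv hS φ, map_inv, hvinv]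
      simp
    · simp [commutatorElement_def, mul_assoc]
  have h2 : ⁅FD, (⊤ : Subgroup H)⁆ ≤ ⊥ := by
    rw [Subgroup.commutator_le]
    rintro d ⟨f, hf, rfl⟩ h _
    obtain ⟨φ, hφ⟩ := hconj h f
    have hf' : e f ∈ FrP p G := hf
    have e1 : e (f * MulAut.conjNormal h f⁻¹) = 1 := by
      rw [map_mul, ← hφ, map_inv, map_inv, hfix φ _ hf', mul_inv_cancel]
    have e2 : f * MulAut.conjNormal h f⁻¹ = 1 := by
      rw [← map_one e] at e1
      exact e.injective e1
    have e3 := congrArg (commutator H).subtype e2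
    rw [Subgroup.mem_bot]
    simpa [commutatorElement_def, mul_assoc] using e3
  have h3 : ⁅⁅commutator H, (⊤ : Subgroup H)⁆, (⊤ : Subgroup H)⁆ = ⊥ := by
    rw [eq_bot_iff]
    exact (Subgroup.commutator_mono h1 le_rfl).trans h2
  have h4 : ⁅⁅(⊤ : Subgroup H), commutator H⁆, (⊤ : Subgroup H)⁆ = ⊥ := by
    rw [Subgroup.commutator_comm ⊤ (commutator H)]
    exact h3
  have h5 : ⁅⁅(⊤ : Subgroup H), (⊤ : Subgroup H)⁆, commutator H⁆ = ⊥ :=
    Subgroup.commutator_commutator_eq_bot_of_rotate h4 h3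
  intro a b
  have h6 : ⁅((e.symm a : commutator H) : H), ((e.symm b : commutator H) : H)⁆ = 1 := by
    rw [← Subgroup.mem_bot, ← h5]
    exact Subgroup.commutator_mem_commutator (e.symm a).2 (e.symm b).2
  have h7 := commutatorElement_eq_one_iff_mul_comm.mp h6
  have h8 : e.symm a * e.symm b = e.symm b * e.symm a := Subtype.ext h7
  have h9 := congrArg e h8
  simpa using h9

end Pool.Agent.Helper252_Enum
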