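import Pool.Agent.Helper252_Enum.R05_exists_TD
import Pool.Agent.Helper252_Enum.R07_iso_of_TD
import Pool.Agent.Helper252_Enum.Q11_card_crd
import Pool.Agent.Helper252_Enum.R21_quot_cover

set_option autoImplicit false

open scoped commutatorElement

namespace Pool.Agent.Helper252_Enum

/-
PROOF OF THE TARGET.
quot_cover with N = p^n, k = n+1, P r a := |FrP p (𝒢 a)| = p^r, B r = p^(n^2). For fixed r (r <= n; m = n - r): for each a in the subtype there is a coordinate system u_a (card_crd: the number of coordinate systems is gl p m > 0) and exists_TD (s = 0) gives w, c, q with HasTD p m r (𝒢 a) u_a w c q, IsTD; since 𝒢 a is abelian c = 0 (c (u x)(u y) = w ⁅x,y⁆ = w 1 = 0, w 1 = 0 by w_mul), so q is additive. If q_a = q_b then (c the same, 0)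
iso_of_TD gives 𝒢 a ≃* 𝒢 b. So the number of classes is at most the number of additive maps Vp p m → Vp p r, at most p^(m r) <= p^(n^2).
-/

namespace J_few_abelian

lemma gl_pos (p m : ℕ) (hp : p.Prime) : 0 < gl p m := by
  unfold gl SS
  refine Finset.prod_pos (fun i hi => ?_)
  have := Nat.pow_lt_pow_right hp.one_lt (Finset.mem_range.1 hi)
  omega

/-- The tensor data of an abelian group. -/
lemma td (p : ℕ) (hp : p.Prime) (m r : ℕ) (G : Type) [Group G] (hG : Nat.card G = p ^ (m + r))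
    (hr : Nat.card (FrP p G) = p ^ r) (hT : TT p G = ⊥) (hc : ∀ x y : G, x * y = y * x) :
    ∃ (u : G → Vp p m) (w : G → Vp p r) (q : Vp p m → Vp p r),
      HasTD p m r G u w (fun _ _ => 0) q ∧ (∀ v v', q (v + v') = q v + q v') := by
  have : Fact p.Prime := ⟨hp⟩
  have : Finite G := Nat.finite_of_card_ne_zero (by
    rw [hG]; exact pow_ne_zero _ hp.ne_zero)
  have h1 := card_crd m r G hG hr
  have hne : Nonempty {u : G → Vp p m // IsCrd p m G u} := by
    by_contra hcon
    rw [not_nonempty_iff] at hcon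
    have : Nat.card {u : G → Vp p m // IsCrd p m G u} = 0 := Nat.card_of_isEmpty
    have h2 := gl_pos p m hp
    omega
  obtain ⟨⟨u, hu⟩⟩ := hne
  have hs : Nat.card (TT p G) = p ^ 0 := by
    rw [hT, pow_zero]
    exact Subgroup.card_bot
  obtain ⟨-, w, c, q, h2, h3, -⟩ := exists_TD m r 0 G u hu hr hs
  have hw1 : w 1 = 0 := by
    have := h2.w_mul 1 (Subgroup.one_mem _) 1 (Subgroup.one_mem _)
    rw [mul_one] at this
    exact (left_eq_add.1 this)
  have hc0 : c = fun _ _ => 0 := by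
    funext v v'
    obtain ⟨a, rfl⟩ := hu.surj v
    obtain ⟨b, rfl⟩ := hu.surj v'
    rw [h2.hc]
    have : ⁅a, b⁆ = 1 := commutatorElement_eq_one_iff_mul_comm.2 (hc a b)
    rw [this, hw1]
  subst hc0
  refine ⟨u, w, q, h2, fun v v' => ?_⟩
  have := h3.pw v v'
  rw [this]
  split_ifs <;> exact add_zero _

lemma add_ext (p : ℕ) (m r : ℕ) (q q' : Vp p m → Vp p r)
    (hq : ∀ v v', q (v + v') = q v + q v') (hq' : ∀ v v', q' (v + v') = q' v + q' v')
    (h : (fun i => q (Pi.single i 1)) = fun i => q' (Pi.single i 1)) : q = q' := by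
  let f : Vp p m →+ Vp p r := AddMonoidHom.mk' q hq
  let f' : Vp p m →+ Vp p r := AddMonoidHom.mk' q' hq'
  have : f.toZModLinearMap p = f'.toZModLinearMap p := by
    apply (Pi.basisFun (ZMod p) (Fin m)).ext
    intro i
    rw [Pi.basisFun_apply]
    exact congrFun h i
  funext v
  exact congrArg (fun g : Vp p m →ₗ[ZMod p] Vp p r => g v) this

end J_few_abelian

/-- TARGET -/
theorem few_abelian (p : ℕ) (hp : p.Prime) (n : ℕ) (α : Type) (𝒢 : α → Type)
    [∀ a, Group (𝒢 a)] (hcard : ∀ a, Nat.card (𝒢 a) = p ^ n) (hT : ∀ a, TT p (𝒢 a) = ⊥)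
    (hc : ∀ a, ∀ x y : 𝒢 a, x * y = y * x) :
    (Nat.card (Quot fun a b => Nonempty (𝒢 a ≃* 𝒢 b)) : ℝ) ≤ (n + 1) * (p : ℝ) ^ (n ^ 2) := by
  have : Fact p.Prime := ⟨hp⟩
  have key := quot_cover (p ^ n) (pow_pos hp.pos _) α 𝒢 hcard (n + 1)
    (fun _ => (p : ℝ) ^ (n ^ 2)) (fun r a => Nat.card (FrP p (𝒢 a)) = p ^ r) ?_ ?_
  · simpa using key
  · intro a
    have h1 : Nat.card (FrP p (𝒢 a)) ∣ p ^ n := by
      rw [← hcard a]
      exact Subgroup.card_subgroup_dvd_card _
    obtain ⟨r, hr, h2⟩ := (Nat.dvd_prime_pow hp).1 h1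
    exact ⟨r, by omega, h2⟩
  · intro r hr
    have hrn : r ≤ n := by omega
    obtain ⟨m, rfl⟩ : ∃ m, n = m + r := ⟨n - r, by omega⟩
    have hex : ∀ a : {a : α // Nat.card (FrP p (𝒢 a)) = p ^ r},
        ∃ (u : 𝒢 a.1 → Vp p m) (w : 𝒢 a.1 → Vp p r) (q : Vp p m → Vp p r),
        HasTD p m r (𝒢 a.1) u w (fun _ _ => 0) q ∧ (∀ v v', q (v + v') = q v + q v') :=
      fun a => J_few_abelian.td p hp m r (𝒢 a.1) (hcard a.1) a.2 (hT a.1) (hc a.1)
    choose u w q hTD hadd using hex
    have hiso : ∀ a b : {a : α // Nat.card (FrP p (𝒢 a)) = p ^ r},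
        ((fun i => q a (Pi.single i 1)) = fun i => q b (Pi.single i 1)) →
        Nonempty (𝒢 a.1 ≃* 𝒢 b.1) := by
      intro a b hab
      have hqq : q a = q b := J_few_abelian.add_ext p m r _ _ (hadd a) (hadd b) hab
      have : Finite (𝒢 a.1) := Nat.finite_of_card_ne_zero (by
        rw [hcard]; exact pow_ne_zero _ hp.ne_zero)
      have : Finite (𝒢 b.1) := Nat.finite_of_card_ne_zero (by
        rw [hcard]; exact pow_ne_zero _ hp.ne_zero)
      have h1 := hTD a
      rw [hqq] at h1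
      obtain ⟨φ, -, -⟩ := iso_of_TD m r (𝒢 a.1) (𝒢 b.1) (IsPGroup.of_card (hcard a.1))
        (IsPGroup.of_card (hcard b.1)) (hT a.1) (hT b.1) (u a) (w a) (u b) (w b) _ _ h1 (hTD b)
      exact ⟨φ⟩
    have hinj : Function.Injective
        (fun c : Quot (fun a b : {a : α // Nat.card (FrP p (𝒢 a)) = p ^ r} =>
          Nonempty (𝒢 a.1 ≃* 𝒢 b.1)) => (fun i => q c.out (Pi.single i 1) : Fin m → Vp p r)) := by
      intro c c' h
      have := Quot.sound (r := fun a b : {a : α // Nat.card (FrP p (𝒢 a)) = p ^ r} =>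
        Nonempty (𝒢 a.1 ≃* 𝒢 b.1)) (hiso _ _ h)
      rwa [Quot.out_eq, Quot.out_eq] at this
    have hle := Nat.card_le_card_of_injective _ hinj
    have hcd : Nat.card (Fin m → Vp p r) = p ^ (r * m) := by
      simp [Nat.card_fun, Nat.card_zmod, pow_mul]
    rw [hcd] at hle
    have h3 : p ^ (r * m) ≤ p ^ ((m + r) ^ 2) := by
      apply Nat.pow_le_pow_right hp.pos
      nlinarith
    exact_mod_cast hle.trans h3

end Pool.Agent.Helper252_Enum
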