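import Pool.Agent.Helper252_Enum.R28_few_exceptional
import Pool.Agent.Helper252_Enum.R33_few_abelian
import Pool.Agent.Helper252_Enum.R32_comm_of_integ
import Pool.Agent.Helper252_Enum.Q11_card_crd
import Pool.Agent.Helper252_Enum.R21_quot_cover

set_option autoImplicit false

open scoped commutatorElement

namespace Pool.Agent.Helper252_Enum

/-
PROOF OF THE TARGET.
n₀ large. quot_cover with k = 2: P 0 a := ¬ MainC p n (𝒢 a), P 1 a := MainC p n (𝒢 a) (for other i anything). B 0 = (4n+5) p^E with E = 2n^3/27 - 47n^2/100 (few_exceptional), B 1 = (n+1) p^(n^2): for a in class 1 MainC gives m + r = n, |FrP| = p^r, TT = ⊥ and SmallIm p m 1, card_crd gives a coordinate system (gl p m > 0), comm_of_integ gives commutativity, and few_abelian the bound. n^2 <= E for n large, so the sum is at most (5n+6) p^E.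
-/

namespace J_few_integ

theorem exponent_le {n : ℕ} (hn : 100 ≤ n) : n ^ 2 ≤ 2 * n ^ 3 / 27 - 47 * n ^ 2 / 100 := by
  have h1 : 7 * n ^ 2 ≤ 2 * n ^ 3 / 27 := by
    rw [Nat.le_div_iff_mul_le (by norm_num)]
    nlinarith [Nat.mul_le_mul_right (n ^ 2) hn]
  have h2 : 47 * n ^ 2 / 100 ≤ n ^ 2 := by
    apply Nat.div_le_of_le_mul
    nlinarith
  omega

theorem gl_pos {p : ℕ} (hp : p.Prime) (m : ℕ) : 0 < gl p m := by
  unfold gl SS
  apply Finset.prod_pos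
  intro i hi
  rw [Finset.mem_range] at hi
  exact Nat.sub_pos_of_lt (Nat.pow_lt_pow_right hp.one_lt hi)

end J_few_integ

/-- TARGET -/
theorem few_integ.{u} : ∃ n₀ : ℕ, ∀ (p : ℕ), p.Prime → ∀ n, n₀ ≤ n →
    ∀ (α : Type) (𝒢 : α → Type) [∀ a, Group (𝒢 a)], (∀ a, Nat.card (𝒢 a) = p ^ n) →
    (∀ a, Integ.{u} (𝒢 a)) →
    (Nat.card (Quot fun a b => Nonempty (𝒢 a ≃* 𝒢 b)) : ℝ) ≤
      (5 * n + 6) * (p : ℝ) ^ (2 * n ^ 3 / 27 - 47 * n ^ 2 / 100) := by
  obtain ⟨n₀, h₀⟩ := few_exceptional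
  refine ⟨max n₀ 100, ?_⟩
  intro p hp n hn α 𝒢 _ hcard hI
  have : Fact p.Prime := ⟨hp⟩
  have hn0 : n₀ ≤ n := (le_max_left _ _).trans hn
  have hn1 : 100 ≤ n := (le_max_right _ _).trans hn
  have hq := quot_cover (p ^ n) (pow_pos hp.pos n) α 𝒢 hcard 2
    (fun i => if i = 0 then (4 * n + 5) * (p : ℝ) ^ (2 * n ^ 3 / 27 - 47 * n ^ 2 / 100)
      else (n + 1) * (p : ℝ) ^ (n ^ 2))
    (fun i a => if i = 0 then ¬ MainC p n (𝒢 a) else MainC p n (𝒢 a)) ?_ ?_
  · refine hq.trans ?_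
    rw [Finset.sum_range_succ, Finset.sum_range_one]
    simp only [if_true, one_ne_zero, if_false]
    have hp1 : (1 : ℝ) ≤ p := by exact_mod_cast hp.one_lt.le
    have h1 : (p : ℝ) ^ (n ^ 2) ≤ (p : ℝ) ^ (2 * n ^ 3 / 27 - 47 * n ^ 2 / 100) :=
      pow_le_pow_right₀ hp1 (J_few_integ.exponent_le hn1)
    have h2 : ((n : ℝ) + 1) * (p : ℝ) ^ (n ^ 2) ≤ ((n : ℝ) + 1) * (p : ℝ) ^ (2 * n ^ 3 / 27 - 47 * n ^ 2 / 100) :=
      mul_le_mul_of_nonneg_left h1 (by positivity)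
    calc _ ≤ (4 * (n : ℝ) + 5) * (p : ℝ) ^ (2 * n ^ 3 / 27 - 47 * n ^ 2 / 100) +
          ((n : ℝ) + 1) * (p : ℝ) ^ (2 * n ^ 3 / 27 - 47 * n ^ 2 / 100) := by linarith
      _ = _ := by ring
  · intro a
    by_cases h : MainC p n (𝒢 a)
    · exact ⟨1, by norm_num, by simpa using h⟩
    · exact ⟨0, by norm_num, by simpa using h⟩
  · intro i hi
    by_cases h0 : i = 0
    · subst h0
      simp only [if_true]
      exact h₀ p hp n hn0 {a : α // ¬ MainC p n (𝒢 a)} (fun a => 𝒢 a.1) (fun a => hcard a.1) (fun a => a.2)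
    · obtain rfl : i = 1 := by omega
      simp only [one_ne_zero, if_false]
      refine few_abelian p hp n {a : α // MainC p n (𝒢 a)} (fun a => 𝒢 a.1) (fun a => hcard a.1) ?_ ?_
      · rintro ⟨a, m, r, -, -, -, -, hT, -⟩
        exact hT
      · rintro ⟨a, m, r, hmr, -, -, hF, hT, hS⟩
        have hc : Nat.card {u : 𝒢 a → Vp p m // IsCrd p m (𝒢 a) u} = gl p m :=
          card_crd m r (𝒢 a) (by rw [hmr]; exact hcard a) hF
        have hpos : 0 < Nat.card {u : 𝒢 a → Vp p m // IsCrd p m (𝒢 a) u} := by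
          rw [hc]
          exact J_few_integ.gl_pos hp m
        obtain ⟨⟨v, hv⟩⟩ := (Nat.card_pos_iff.1 hpos).1
        exact comm_of_integ (𝒢 a) hT v hv hS (hI a)

end Pool.Agent.Helper252_Enum
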