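import Pool.Agent.Helper252_Enum.R30_gnu_lower
import Pool.Agent.Helper252_Enum.R27_main_term_ge

set_option autoImplicit false

open scoped commutatorElement

namespace Pool.Agent.Helper252_Enum

/-
PROOF OF THE TARGET.
r0 = n/3 (floor), m = n - r0. For n large r0 is in the filter range. All terms of the sum in gnu_lower are nonnegative, so gnu (p^n) >= f_r0 = SS p (m(m+1)/2) r0/(gl p m * gl p r0) >= p^(r0 (m(m+1)/2) - m^2 - r0^2 - 1) by main_term_ge (r0 + 1 <= m(m+1)/2). And r0 (m(m+1)/2) - m^2 - r0^2 - 1 >= 2n^3/27 - 4n^2/9 - 5n - 2 >= (2n^3/27 - 45n^2/100) for large n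
(45/100 > 4/9; write n = 3k + e with r0 = k, m = 2k + e: k (2k+e)(2k+e+1)/2 = 2k^3 + (2e+1) k^2 + ..., 2n^3/27 = 2k^3 + 2e k^2 + (2e^2/3) k + ...).
-/

namespace J_gnu_ge

theorem arith (k e n m M a b : ℕ) (he : e < 3) (hk : 100 ≤ k) (hn : n = 3 * k + e)
    (hm : m = 2 * k + e) (hM : 2 * M = m * (m + 1)) (ha : 27 * a ≤ 2 * n ^ 3)
    (hb : 45 * n ^ 2 ≤ 100 * b + 99) : a + (m ^ 2 + k ^ 2 + 1) ≤ k * M + b := by
  have hkk : 100 * k ≤ k ^ 2 := by nlinarith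
  have hkM : 2 * (k * M) = k * (m * (m + 1)) := by rw [← hM]; ring
  subst hn; subst hm
  generalize hx : k * M = x at *
  generalize hy : k ^ 2 = y at *
  interval_cases e
  · have h1 : 2 * x = 4 * k ^ 3 + 2 * y := by rw [hkM, ← hy]; ring
    have h2 : 27 * a ≤ 54 * k ^ 3 := by refine ha.trans (le_of_eq (by ring))
    have h3 : 405 * y ≤ 100 * b + 99 := by refine le_trans (le_of_eq (by rw [← hy]; ring)) hb
    have h4 : (2 * k + 0) ^ 2 = 4 * y := by rw [← hy]; ring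
    rw [h4]
    omega
  · have h1 : 2 * x = 4 * k ^ 3 + 6 * y + 2 * k := by rw [hkM, ← hy]; ring
    have h2 : 27 * a ≤ 54 * k ^ 3 + 54 * y + 18 * k + 2 := by
      refine ha.trans (le_of_eq (by rw [← hy]; ring))
    have h3 : 405 * y + 270 * k + 45 ≤ 100 * b + 99 := by
      refine le_trans (le_of_eq (by rw [← hy]; ring)) hb
    have h4 : (2 * k + 1) ^ 2 = 4 * y + 4 * k + 1 := by rw [← hy]; ring
    rw [h4]
    omega
  · have h1 : 2 * x = 4 * k ^ 3 + 10 * y + 6 * k := by rw [hkM, ← hy]; ring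
    have h2 : 27 * a ≤ 54 * k ^ 3 + 108 * y + 72 * k + 16 := by
      refine ha.trans (le_of_eq (by rw [← hy]; ring))
    have h3 : 405 * y + 540 * k + 180 ≤ 100 * b + 99 := by
      refine le_trans (le_of_eq (by rw [← hy]; ring)) hb
    have h4 : (2 * k + 2) ^ 2 = 4 * y + 8 * k + 4 := by rw [← hy]; ring
    rw [h4]
    omega

theorem SS_nonneg (p N r : ℕ) : (0 : ℝ) ≤ (SS p N r : ℝ) := Nat.cast_nonneg _

theorem arith2 (n : ℕ) (hn : 303 ≤ n) :
    (2 * n ^ 3 / 27 - 45 * n ^ 2 / 100) + ((n - n / 3) ^ 2 + (n / 3) ^ 2 + 1) ≤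
      (n / 3) * ((n - n / 3) * ((n - n / 3) + 1) / 2) := by
  have hn' : n = 3 * (n / 3) + n % 3 := by omega
  have hm' : n - n / 3 = 2 * (n / 3) + n % 3 := by omega
  have he : n % 3 < 3 := Nat.mod_lt _ (by norm_num)
  have hk : 100 ≤ n / 3 := by omega
  have hM : 2 * ((n - n / 3) * ((n - n / 3) + 1) / 2) = (n - n / 3) * ((n - n / 3) + 1) :=
    Nat.mul_div_cancel' (Nat.even_mul_succ_self (n - n / 3)).two_dvd
  have h1 := arith (n / 3) (n % 3) n (n - n / 3) ((n - n / 3) * ((n - n / 3) + 1) / 2)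
    (2 * n ^ 3 / 27) (45 * n ^ 2 / 100) he hk hn' hm' hM (Nat.mul_div_le _ _) (by omega)
  have h2 := arith (n / 3) (n % 3) n (n - n / 3) ((n - n / 3) * ((n - n / 3) + 1) / 2)
    (45 * n ^ 2 / 100) (45 * n ^ 2 / 100) he hk hn' hm' hM (by
      have h3 : 27 * (45 * n ^ 2 / 100) ≤ 27 * (45 * n ^ 2) :=
        Nat.mul_le_mul_left _ (Nat.div_le_self _ _)
      have h4 : 303 * n ^ 2 ≤ n * n ^ 2 := Nat.mul_le_mul_right _ hn
      have h5 : 27 * (45 * n ^ 2 / 100) ≤ 27 * n ^ 2 := by omega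
      have h6 : n ^ 3 = n * n ^ 2 := by ring
      rw [h6]
      omega) (by omega)
  omega

end J_gnu_ge

/-- TARGET -/
theorem gnu_ge : ∃ n₀ : ℕ, ∀ (p : ℕ), p.Prime → ∀ n, n₀ ≤ n →
    (p : ℝ) ^ (2 * n ^ 3 / 27 - 45 * n ^ 2 / 100) ≤ (gnu (p ^ n) : ℝ) := by
  refine ⟨303, fun p hp n hn => ?_⟩
  have hp0 : (0 : ℝ) < p := by exact_mod_cast hp.pos
  have hp1 : (1 : ℝ) ≤ p := by exact_mod_cast hp.one_lt.le
  refine le_trans ?_ (gnu_lower p n hp)
  have hmem : n / 3 ∈ (Finset.range (n + 1)).filter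
      (fun r => 19 * n ≤ 60 * r ∧ 60 * r ≤ 21 * n) := by
    rw [Finset.mem_filter, Finset.mem_range]
    omega
  have hnonneg : ∀ r ∈ (Finset.range (n + 1)).filter
      (fun r => 19 * n ≤ 60 * r ∧ 60 * r ≤ 21 * n),
      (0 : ℝ) ≤ (SS p ((n - r) * (n - r + 1) / 2) r : ℝ) / (gl p (n - r) * gl p r) := by
    intro r _
    positivity
  refine le_trans ?_ (Finset.single_le_sum hnonneg hmem)
  have har := J_gnu_ge.arith2 n hn
  have hmt := main_term_ge p (n - n / 3) (n / 3) hp (by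
    have h1 : (n - n / 3) * 2 ≤ (n - n / 3) * (n - n / 3 + 1) :=
      Nat.mul_le_mul_left _ (by omega)
    omega)
  have hpos : (0 : ℝ) < (p : ℝ) ^ ((n - n / 3) ^ 2 + (n / 3) ^ 2 + 1) := by positivity
  have h2 : (p : ℝ) ^ ((n - n / 3) ^ 2 + (n / 3) ^ 2 + 1) *
      (p : ℝ) ^ (2 * n ^ 3 / 27 - 45 * n ^ 2 / 100) ≤
      (p : ℝ) ^ ((n - n / 3) ^ 2 + (n / 3) ^ 2 + 1) *
      ((SS p ((n - n / 3) * (n - n / 3 + 1) / 2) (n / 3) : ℝ) /
        (gl p (n - n / 3) * gl p (n / 3))) := by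
    refine le_trans ?_ hmt
    rw [← pow_add]
    refine pow_le_pow_right₀ hp1 ?_
    rw [add_comm]
    exact har
  exact le_of_mul_le_mul_left h2 hpos

end Pool.Agent.Helper252_Enum
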