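import Pool.Agent.Helper252_Enum.R34_few_integ
import Pool.Agent.Helper252_Enum.R35_gnu_ge

set_option autoImplicit false

open scoped commutatorElement

namespace Pool.Agent.Helper252_Enum

/-- Isomorphism of group structures on `Fin N`. -/
def isoRel (N : ℕ) (g h : Group (Fin N)) : Prop :=
  Nonempty (@MulEquiv (Fin N) (Fin N)
    (@Semigroup.toMul _ (@Monoid.toSemigroup _ (@DivInvMonoid.toMonoid _ (@Group.toDivInvMonoid _ g))))
    (@Semigroup.toMul _ (@Monoid.toSemigroup _ (@DivInvMonoid.toMonoid _ (@Group.toDivInvMonoid _ h)))))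

/-- The number of isomorphism classes of integrable groups of order `N`. -/
noncomputable def gnuInteg.{u} (N : ℕ) : ℕ :=
  Nat.card {c : Quot (isoRel N) // ∃ g : Group (Fin N), Quot.mk _ g = c ∧ @Integ.{u} (Fin N) g}

theorem gnu_eq (N : ℕ) : gnu N = Nat.card (Quot (isoRel N)) := rfl

theorem gnuInteg_le.{u} (p n : ℕ) (hp : p.Prime) :
    gnuInteg.{u} (p ^ n) ≤ Nat.card (Quot fun a b : {g : Group (Fin (p ^ n)) // @Integ.{u} (Fin (p ^ n)) g} =>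
      isoRel (p ^ n) a.1 b.1) := by
  classical
  have hpos : 0 < p ^ n := pow_pos hp.pos n
  have hfin : Finite (Quot fun a b : {g : Group (Fin (p ^ n)) // @Integ.{u} (Fin (p ^ n)) g} =>
      isoRel (p ^ n) a.1 b.1) :=
    @quot_finite (p ^ n) hpos {g : Group (Fin (p ^ n)) // @Integ.{u} (Fin (p ^ n)) g}
      (fun _ => Fin (p ^ n)) (fun a => a.1) (fun _ => by simp)
  unfold gnuInteg
  refine Nat.card_le_card_of_injective
    (fun c => Quot.mk _ ⟨c.2.choose, c.2.choose_spec.2⟩) ?_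
  intro c c' h
  have h2 := congrArg (Quot.lift (fun x : {g : Group (Fin (p ^ n)) // @Integ.{u} (Fin (p ^ n)) g} =>
    Quot.mk (isoRel (p ^ n)) x.1) (fun a b hab => Quot.sound hab)) h
  have h3 : Quot.mk (isoRel (p ^ n)) c.2.choose = Quot.mk (isoRel (p ^ n)) c'.2.choose := h2
  rw [c.2.choose_spec.1, c'.2.choose_spec.1] at h3
  exact Subtype.ext h3

theorem gnuInteg_bound.{u} : ∃ n₀ : ℕ, ∀ (p : ℕ), p.Prime → ∀ n, n₀ ≤ n →
    (gnuInteg.{u} (p ^ n) : ℝ) ≤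
      (5 * n + 6) * (p : ℝ) ^ (2 * n ^ 3 / 27 - 47 * n ^ 2 / 100) := by
  obtain ⟨n₀, h⟩ := few_integ.{u}
  refine ⟨n₀, fun p hp n hn => ?_⟩
  have h1 := @h p hp n hn {g : Group (Fin (p ^ n)) // @Integ.{u} (Fin (p ^ n)) g}
    (fun _ => Fin (p ^ n)) (fun a => a.1) (fun _ => by simp) (fun a => a.2)
  refine le_trans ?_ h1
  exact_mod_cast gnuInteg_le.{u} p n hp

/-- The proportion of integrable groups is at most `p ^ (-n^2/100)`. -/
theorem ratio_bound.{u} : ∃ n₀ : ℕ, ∀ (p : ℕ), p.Prime → ∀ n, n₀ ≤ n →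
    (gnuInteg.{u} (p ^ n) : ℝ) * (p : ℝ) ^ (n ^ 2 / 100) ≤ (gnu (p ^ n) : ℝ) := by
  obtain ⟨n₁, h₁⟩ := gnuInteg_bound.{u}
  obtain ⟨n₂, h₂⟩ := gnu_ge
  refine ⟨n₁ + n₂ + 10000, fun p hp n hn => ?_⟩
  have hp2 : (2 : ℝ) ≤ (p : ℝ) := by exact_mod_cast hp.two_le
  have hp1 : (1 : ℝ) ≤ (p : ℝ) := by linarith
  have hb := h₁ p hp n (by omega)
  have hg := h₂ p hp n (by omega)
  have hn4 : 10000 ≤ n := by omega
  have h5 : ((5 * n + 6 : ℕ) : ℝ) ≤ (p : ℝ) ^ n := by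
    have h6 : 5 * n + 6 ≤ 2 ^ n := by
      have : ∀ k, 5 ≤ k → 5 * k + 6 ≤ 2 ^ k := by
        intro k hk
        induction k, hk using Nat.le_induction with
        | base => norm_num
        | succ k hk ih =>
          rw [pow_succ]; omega
      exact this n (by omega)
    calc ((5 * n + 6 : ℕ) : ℝ) ≤ ((2 ^ n : ℕ) : ℝ) := by exact_mod_cast h6
      _ = (2 : ℝ) ^ n := by push_cast; rfl
      _ ≤ (p : ℝ) ^ n := pow_le_pow_left₀ (by norm_num) hp2 n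
  push_cast at h5
  have hexp : n + (2 * n ^ 3 / 27 - 47 * n ^ 2 / 100) + n ^ 2 / 100 ≤
      2 * n ^ 3 / 27 - 45 * n ^ 2 / 100 := by
    have e1 : 10000 * n ≤ n ^ 2 := by nlinarith
    have e2 : 10000 * n ^ 2 ≤ n ^ 3 := by nlinarith [sq_nonneg n]
    generalize hA : n ^ 2 = A at *
    generalize hB : n ^ 3 = B at *
    omega
  calc (gnuInteg.{u} (p ^ n) : ℝ) * (p : ℝ) ^ (n ^ 2 / 100)
      ≤ ((5 * n + 6) * (p : ℝ) ^ (2 * n ^ 3 / 27 - 47 * n ^ 2 / 100)) * (p : ℝ) ^ (n ^ 2 / 100) :=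
        mul_le_mul_of_nonneg_right hb (by positivity)
    _ ≤ ((p : ℝ) ^ n * (p : ℝ) ^ (2 * n ^ 3 / 27 - 47 * n ^ 2 / 100)) * (p : ℝ) ^ (n ^ 2 / 100) := by
        gcongr
    _ = (p : ℝ) ^ (n + (2 * n ^ 3 / 27 - 47 * n ^ 2 / 100) + n ^ 2 / 100) := by
        rw [pow_add, pow_add]
    _ ≤ (p : ℝ) ^ (2 * n ^ 3 / 27 - 45 * n ^ 2 / 100) := pow_le_pow_right₀ hp1 hexp
    _ ≤ (gnu (p ^ n) : ℝ) := hg

/-- The proportion of integrable groups of order `p ^ n` tends to zero. -/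
theorem ratio_tendsto.{u} (p : ℕ) (hp : p.Prime) :
    Filter.Tendsto (fun n : ℕ => (gnuInteg.{u} (p ^ n) : ℝ) / (gnu (p ^ n) : ℝ))
      Filter.atTop (nhds 0) := by
  obtain ⟨n₀, h⟩ := ratio_bound.{u}
  have hp2 : (2 : ℝ) ≤ (p : ℝ) := by exact_mod_cast hp.two_le
  have hlim : Filter.Tendsto (fun n : ℕ => ((1 : ℝ) / 2) ^ n) Filter.atTop (nhds 0) :=
    tendsto_pow_atTop_nhds_zero_of_lt_one (by norm_num) (by norm_num)
  refine tendsto_of_tendsto_of_tendsto_of_le_of_le' tendsto_const_nhds hlim ?_ ?_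
  · exact Filter.Eventually.of_forall (fun n => by positivity)
  · filter_upwards [Filter.eventually_ge_atTop (n₀ + 100)] with n hn
    have hb := h p hp n (by omega)
    have hk : n ≤ n ^ 2 / 100 := by
      have : 100 * n ≤ n ^ 2 := by nlinarith
      omega
    have h2 : (2 : ℝ) ^ n ≤ (p : ℝ) ^ (n ^ 2 / 100) :=
      calc (2 : ℝ) ^ n ≤ (p : ℝ) ^ n := pow_le_pow_left₀ (by norm_num) hp2 n
        _ ≤ (p : ℝ) ^ (n ^ 2 / 100) := pow_le_pow_right₀ (by linarith) hk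
    have hi0 : (0 : ℝ) ≤ (gnuInteg.{u} (p ^ n) : ℝ) := by positivity
    rcases eq_or_lt_of_le (show (0 : ℝ) ≤ (gnu (p ^ n) : ℝ) by positivity) with h0 | hpos
    · rw [← h0, div_zero]; positivity
    · rw [div_le_iff₀ hpos, one_div, inv_pow, inv_mul_eq_div, le_div_iff₀ (by positivity)]
      calc (gnuInteg.{u} (p ^ n) : ℝ) * 2 ^ n ≤ (gnuInteg.{u} (p ^ n) : ℝ) * (p : ℝ) ^ (n ^ 2 / 100) :=
            mul_le_mul_of_nonneg_left h2 hi0
        _ ≤ (gnu (p ^ n) : ℝ) := hb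

end Pool.Agent.Helper252_Enum
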