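import Pool.Agent.Helper252_Enum.T1_ratio

set_option autoImplicit false

namespace Pool.Agent.Helper252_Enum

/-- The number of isomorphism classes of nilpotent groups of order `N`. -/
noncomputable def gnuNil (N : ℕ) : ℕ :=
  Nat.card {c : Quot (isoRel N) // ∃ g : Group (Fin N), Quot.mk _ g = c ∧ @Group.IsNilpotent (Fin N) g}

theorem quot_fin (N : ℕ) : Finite (Quot (isoRel N)) := by
  have := J_gnu_lower.fin_group N
  exact Quot.finite _

theorem isoRel_exact {N : ℕ} {g h : Group (Fin N)} (e : Quot.mk (isoRel N) g = Quot.mk (isoRel N) h) :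
    isoRel N g h := by
  have h1 : Equivalence (isoRel N) := J_gnu_lower.R_equiv N
  exact (Equivalence.eqvGen_iff h1).1 (Quot.eqvGen_exact e)

theorem iso_of_sylow {G H : Type} [Group G] [Group H] [Finite G] [Finite H]
    (hG : Group.IsNilpotent G) (hH : Group.IsNilpotent H) (hc : Nat.card G = Nat.card H)
    (h : ∀ p : ℕ, p.Prime → p ∣ Nat.card G → ∀ (P : Sylow p G) (Q : Sylow p H),
      Nonempty (P ≃* Q)) : Nonempty (G ≃* H) := by
  classical
  obtain ⟨e1⟩ := ((Group.isNilpotent_of_finite_tfae (G := G)).out 0 4 rfl rfl).1 hG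
  obtain ⟨e2⟩ := ((Group.isNilpotent_of_finite_tfae (G := H)).out 0 4 rfl rfl).1 hH
  rw [← hc] at e2
  have key : ∀ p : (Nat.card G).primeFactors,
      Nonempty ((∀ P : Sylow p G, (P : Subgroup G)) ≃* (∀ Q : Sylow p H, (Q : Subgroup H))) := by
    intro p
    have hp : (p : ℕ).Prime := Nat.prime_of_mem_primeFactors p.2
    have : Fact (p : ℕ).Prime := ⟨hp⟩
    have hd : (p : ℕ) ∣ Nat.card G := Nat.dvd_of_mem_primeFactors p.2
    let uG : Unique (Sylow p G) := Sylow.unique_of_normal (default : Sylow p G) inferInstance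
    let uH : Unique (Sylow p H) := Sylow.unique_of_normal (default : Sylow p H) inferInstance
    obtain ⟨f⟩ := h p hp hd uG.default uH.default
    exact ⟨(MulEquiv.piUnique (fun P : Sylow p G => (P : Subgroup G))).trans
      (f.trans (MulEquiv.piUnique (fun Q : Sylow p H => (Q : Subgroup H))).symm)⟩
  exact ⟨e1.symm.trans ((MulEquiv.piCongrRight fun p => (key p).some).trans e2)⟩

theorem exists_copy {K : Type} [Group K] [Finite K] {n : ℕ} (h : Nat.card K = n) :
    ∃ k : Group (Fin n), Nonempty (@MulEquiv (Fin n) K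
      (@Semigroup.toMul _ (@Monoid.toSemigroup _ (@DivInvMonoid.toMonoid _ (@Group.toDivInvMonoid _ k))))
      _) :=
  ⟨(Finite.equivFinOfCardEq h).symm.group, ⟨(Finite.equivFinOfCardEq h).symm.mulEquiv⟩⟩

/-- the Sylow subgroups of a group structure, as a class -/
theorem exists_sylow_class {N : ℕ} (g : Group (Fin N)) (p : ℕ) (hp : p.Prime) :
    ∃ k : Group (Fin (p ^ N.factorization p)), ∀ P : @Sylow p (Fin N) g,
      Nonempty (@MulEquiv (Fin (p ^ N.factorization p)) P
      (@Semigroup.toMul _ (@Monoid.toSemigroup _ (@DivInvMonoid.toMonoid _ (@Group.toDivInvMonoid _ k))))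
      _) := by
  have : Fact p.Prime := ⟨hp⟩
  let P0 : Sylow p (Fin N) := default
  have hc : Nat.card P0 = p ^ N.factorization p := by
    have h := Sylow.card_eq_multiplicity P0
    rw [Nat.card_eq_fintype_card (α := Fin N), Fintype.card_fin] at h
    exact h
  obtain ⟨k, ⟨e⟩⟩ := exists_copy hc
  refine ⟨k, fun P => ⟨?_⟩⟩
  exact @MulEquiv.trans _ _ _ (_) _ _ e (Sylow.equiv P0 P)

theorem gnuNil_le (N : ℕ) : gnuNil N ≤ ∏ p ∈ N.primeFactors, gnu (p ^ N.factorization p) := by
  classical
  have hprime : ∀ p : N.primeFactors, (p : ℕ).Prime := fun p => Nat.prime_of_mem_primeFactors p.2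
  let Φ : {c : Quot (isoRel N) // ∃ g : Group (Fin N), Quot.mk _ g = c ∧ @Group.IsNilpotent (Fin N) g} →
      (∀ p : N.primeFactors, Quot (isoRel ((p : ℕ) ^ N.factorization p))) :=
    fun c p => Quot.mk _ (exists_sylow_class c.2.choose p (hprime p)).choose
  have hinj : Function.Injective Φ := by
    intro c c' h
    have hg := c.2.choose_spec
    have hg' := c'.2.choose_spec
    suffices hs : isoRel N c.2.choose c'.2.choose by
      apply Subtype.ext
      rw [← hg.1, ← hg'.1]
      exact Quot.sound hs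
    unfold isoRel
    refine @iso_of_sylow (Fin N) (Fin N) c.2.choose c'.2.choose _ _ hg.2 hg'.2 rfl ?_
    intro p hp hpd P Q
    rw [Nat.card_eq_fintype_card, Fintype.card_fin] at hpd
    have hN : N ≠ 0 := by
      rintro rfl
      exact (@Nonempty.elim_to_inhabited (Fin 0) ⟨c.2.choose.one⟩ _ (fun x => x.default.elim0))
    have hmem : p ∈ N.primeFactors := Nat.mem_primeFactors.2 ⟨hp, hpd, hN⟩
    have h1 : isoRel _ _ _ := isoRel_exact (congrFun h ⟨p, hmem⟩)
    obtain ⟨e⟩ := h1
    obtain ⟨e1⟩ := (exists_sylow_class c.2.choose p hp).choose_spec P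
    obtain ⟨e2⟩ := (exists_sylow_class c'.2.choose p hp).choose_spec Q
    exact ⟨(J_gnu_lower.eT (J_gnu_lower.eT (J_gnu_lower.eS e1) e) e2)⟩
  have hfin : ∀ p : N.primeFactors, Finite (Quot (isoRel ((p : ℕ) ^ N.factorization p))) :=
    fun p => quot_fin _
  have h2 := Nat.card_le_card_of_injective Φ hinj
  rw [Nat.card_pi] at h2
  refine h2.trans (le_of_eq ?_)
  exact Finset.prod_coe_sort N.primeFactors (fun p => gnu (p ^ N.factorization p))

end Pool.Agent.Helper252_Enum
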