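import Pool.Agent.Helper252_Enum.T1_ratio
import Pool.Agent.Helper252_Enum.M_main_upper
import Pool.Agent.Helper252_Enum.R29_gnu_upper

set_option autoImplicit false

namespace Pool.Agent.Helper252_Enum

theorem gnu_one : gnu 1 = 1 := by
  have h1 : Subsingleton (Group (Fin 1)) := (J_gnu_lower.mulOf_inj (A := Fin 1)).subsingleton
  have h2 : Nonempty (Group (Fin 1)) := ⟨(Finite.equivFinOfCardEq (α := Unit) (by simp)).symm.group⟩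
  have h3 : Subsingleton (Quot (isoRel 1)) := by
    refine ⟨fun a b => ?_⟩
    induction a using Quot.ind
    induction b using Quot.ind
    rename_i a b
    rw [Subsingleton.elim a b]
  have h4 : Nonempty (Quot (isoRel 1)) := h2.map (Quot.mk _)
  exact Nat.card_eq_one_iff_unique.2 ⟨h3, h4⟩

theorem gnu_le_pow : ∃ C : ℕ, ∀ p : ℕ, p.Prime → ∀ n : ℕ,
    gnu (p ^ n) ≤ p ^ (2 * n ^ 3 / 27 + C * n ^ 2) := by
  obtain ⟨C, h⟩ := main_upper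
  refine ⟨C, fun p hp n => ?_⟩
  rcases Nat.eq_zero_or_pos n with rfl | hn
  · simp [gnu_one]
  · have h1 := @h p hp n hn (Group (Fin (p ^ n))) (fun _ => Fin (p ^ n)) (fun g => g)
      (fun _ => by simp)
    exact h1

theorem gl_two_ge (m : ℕ) : 2 ^ (m * (m - 1)) ≤ gl 2 m := by
  unfold gl SS
  rw [pow_mul', ← Finset.card_range m, ← Finset.prod_const, Finset.card_range]
  refine Finset.prod_le_prod' fun i hi => ?_
  have hi := Finset.mem_range.1 hi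
  have h1 : 2 ^ i ≤ 2 ^ (m - 1) := Nat.pow_le_pow_right (by norm_num) (by omega)
  have h2 : 2 ^ m = 2 * 2 ^ (m - 1) := by
    rw [← pow_succ']
    congr 1
    omega
  omega

theorem SS_le (p N r : ℕ) : SS p N r ≤ p ^ (N * r) := by
  unfold SS
  rw [pow_mul]
  calc ∏ i ∈ Finset.range r, (p ^ N - p ^ i) ≤ ∏ _i ∈ Finset.range r, p ^ N :=
        Finset.prod_le_prod' fun i _ => Nat.sub_le _ _
    _ = (p ^ N) ^ r := by rw [Finset.prod_const, Finset.card_range]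

theorem two_rpow_le {x y : ℝ} (h : x ≤ y) : (2 : ℝ) ^ x ≤ (2 : ℝ) ^ y :=
  Real.rpow_le_rpow_of_exponent_le (by norm_num) h

/-- the exponent of a main term -/
theorem term_exp (m r n : ℝ) (hm : 0 ≤ m) (hr : 0 ≤ r) (h : m + r = n) (h2 : 60 * r ≤ 21 * n) :
    m * (m + 1) / 2 * r - m * (m - 1) - r * (r - 1) ≤ 2 / 27 * n ^ 3 - 431 / 1000 * n ^ 2 + n := by
  have h1 := J_num_final.amgm m r n hm (by linarith) h
  have h3 : m = n - r := by linarith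
  have h4 : 0 ≤ (35 / 100 * n - r) * (65 / 100 * n - r) :=
    mul_nonneg (by linarith) (by linarith)
  have h5 : m * r / 2 - m ^ 2 - r ^ 2 ≤ - (431 / 1000) * n ^ 2 := by
    rw [h3]
    nlinarith [sq_nonneg n]
  nlinarith

/-- one main term, real version -/
theorem term_le (n r : ℕ) (hr : r ≤ n) (h2 : 60 * r ≤ 21 * n) :
    (SS 2 ((n - r) * (n - r + 1) / 2) r : ℝ) / (gl 2 (n - r) * gl 2 r) ≤
      (2 : ℝ) ^ (2 / 27 * (n : ℝ) ^ 3 - 431 / 1000 * (n : ℝ) ^ 2 + n) := by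
  obtain ⟨m, hm⟩ : ∃ m, m = n - r := ⟨_, rfl⟩
  have hmr : m + r = n := by omega
  rw [← hm]
  have hS : (SS 2 (m * (m + 1) / 2) r : ℝ) ≤ (2 : ℝ) ^ (m * (m + 1) / 2 * r) := by
    have := SS_le 2 (m * (m + 1) / 2) r
    exact_mod_cast this
  have hg1 : (2 : ℝ) ^ (m * (m - 1)) ≤ (gl 2 m : ℝ) := by exact_mod_cast gl_two_ge m
  have hg2 : (2 : ℝ) ^ (r * (r - 1)) ≤ (gl 2 r : ℝ) := by exact_mod_cast gl_two_ge r
  have hp1 : (0 : ℝ) < (2 : ℝ) ^ (m * (m - 1)) := by positivity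
  have hp2 : (0 : ℝ) < (2 : ℝ) ^ (r * (r - 1)) := by positivity
  have h3 : (SS 2 (m * (m + 1) / 2) r : ℝ) / (gl 2 m * gl 2 r) ≤
      (2 : ℝ) ^ (m * (m + 1) / 2 * r) / ((2 : ℝ) ^ (m * (m - 1)) * (2 : ℝ) ^ (r * (r - 1))) := by
    gcongr
  refine h3.trans ?_
  rw [← Real.rpow_natCast, ← Real.rpow_natCast, ← Real.rpow_natCast, ← Real.rpow_add (by norm_num),
    ← Real.rpow_sub (by norm_num)]
  apply two_rpow_le
  have hN : ((m * (m + 1) / 2 : ℕ) : ℝ) = (m : ℝ) * (m + 1) / 2 := by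
    have h := Nat.mul_div_cancel' (Nat.even_mul_succ_self m).two_dvd
    have h' : (2 : ℝ) * ((m * (m + 1) / 2 : ℕ) : ℝ) = (m : ℝ) * (m + 1) := by exact_mod_cast h
    linarith
  have hc : ∀ x : ℕ, ((x * (x - 1) : ℕ) : ℝ) = (x : ℝ) * (x - 1) := by
    intro x
    rcases x with _ | x
    · simp
    · push_cast
      simp
  have h4 := term_exp (m : ℝ) r n (Nat.cast_nonneg _) (Nat.cast_nonneg _) (by exact_mod_cast hmr)
    (by exact_mod_cast h2)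
  rw [Nat.cast_mul, hN, hc, hc]
  linarith

theorem lin_le (n : ℕ) (hn : 6 ≤ n) : 5 * n + 6 ≤ 2 ^ n := by
  induction n, hn using Nat.le_induction with
  | base => norm_num
  | succ n hn ih =>
    rw [pow_succ]
    omega

theorem cast_exp (n c : ℕ) (hn : 100 ≤ n) (hc : c ≤ 100) :
    ((2 * n ^ 3 / 27 - c * n ^ 2 / 100 : ℕ) : ℝ) ≤ 2 / 27 * (n : ℝ) ^ 3 - c / 100 * (n : ℝ) ^ 2 + 1 := by
  have h1 : c * n ^ 2 / 100 ≤ 2 * n ^ 3 / 27 := by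
    have h3 : c * n ^ 2 / 100 ≤ n ^ 2 := by
      apply Nat.div_le_of_le_mul
      exact Nat.mul_le_mul_right _ hc
    refine h3.trans ?_
    rw [Nat.le_div_iff_mul_le (by norm_num)]
    nlinarith [Nat.zero_le (n ^ 2)]
  obtain ⟨a, ha⟩ : ∃ a, a = 2 * n ^ 3 / 27 := ⟨_, rfl⟩
  obtain ⟨b, hb⟩ : ∃ b, b = c * n ^ 2 / 100 := ⟨_, rfl⟩
  have ha' : 27 * a ≤ 2 * n ^ 3 := by rw [ha]; exact Nat.mul_div_le _ _
  have hb' : c * n ^ 2 ≤ 100 * b + 99 := by omega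
  rw [← ha, ← hb] at h1
  rw [← ha, ← hb, Nat.cast_sub h1]
  have ha2 : 27 * (a : ℝ) ≤ 2 * (n : ℝ) ^ 3 := by exact_mod_cast ha'
  have hb2 : (c : ℝ) * (n : ℝ) ^ 2 ≤ 100 * b + 99 := by exact_mod_cast hb'
  linarith

/-- The number of groups of order `2 ^ n`. -/
theorem gnu_two_le : ∃ n₁ : ℕ, ∀ n, n₁ ≤ n →
    (gnu (2 ^ n) : ℝ) ≤ (2 : ℝ) ^ (2 / 27 * (n : ℝ) ^ 3 - 42 / 100 * (n : ℝ) ^ 2) := by
  obtain ⟨n₀, h⟩ := gnu_upper
  refine ⟨n₀ + 300, fun n hn => ?_⟩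
  have h1 := h 2 Nat.prime_two n (by omega)
  push_cast at h1
  have hB : (2 : ℝ) ^ (2 * n ^ 3 / 27 - 47 * n ^ 2 / 100) ≤
      (2 : ℝ) ^ (2 / 27 * (n : ℝ) ^ 3 - 431 / 1000 * (n : ℝ) ^ 2 + n) := by
    rw [← Real.rpow_natCast]
    apply two_rpow_le
    refine (cast_exp n 47 (by omega) (by norm_num)).trans ?_
    have : (1 : ℝ) ≤ n := by exact_mod_cast (show 1 ≤ n by omega)
    have h5 : 0 ≤ (n : ℝ) ^ 2 := by positivity
    push_cast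
    linarith
  have hA : (∑ r ∈ (Finset.range (n + 1)).filter
        (fun r => 19 * n ≤ 60 * r ∧ 60 * r ≤ 21 * n),
      (SS 2 ((n - r) * (n - r + 1) / 2) r : ℝ) / (gl 2 (n - r) * gl 2 r)) ≤
      (n + 1) * (2 : ℝ) ^ (2 / 27 * (n : ℝ) ^ 3 - 431 / 1000 * (n : ℝ) ^ 2 + n) := by
    refine (Finset.sum_le_card_nsmul _ _
      ((2 : ℝ) ^ (2 / 27 * (n : ℝ) ^ 3 - 431 / 1000 * (n : ℝ) ^ 2 + n)) (fun r hr => ?_)).trans ?_
    · rw [Finset.mem_filter, Finset.mem_range] at hr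
      exact term_le n r (by omega) hr.2.2
    · rw [nsmul_eq_mul]
      refine mul_le_mul_of_nonneg_right ?_ (by positivity)
      have : ((Finset.range (n + 1)).filter
        (fun r => 19 * n ≤ 60 * r ∧ 60 * r ≤ 21 * n)).card ≤ n + 1 := by
        refine (Finset.card_filter_le _ _).trans ?_
        simp
      exact_mod_cast this
  have hfin : ((n : ℝ) + 1) * (2 : ℝ) ^ (2 / 27 * (n : ℝ) ^ 3 - 431 / 1000 * (n : ℝ) ^ 2 + n) +
      (4 * n + 5) * (2 : ℝ) ^ (2 / 27 * (n : ℝ) ^ 3 - 431 / 1000 * (n : ℝ) ^ 2 + n) ≤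
      (2 : ℝ) ^ (2 / 27 * (n : ℝ) ^ 3 - 42 / 100 * (n : ℝ) ^ 2) := by
    have h5 : ((5 * n + 6 : ℕ) : ℝ) ≤ (2 : ℝ) ^ (n : ℝ) := by
      rw [Real.rpow_natCast]
      exact_mod_cast lin_le n (by omega)
    have h6 : (2 : ℝ) ^ (n : ℝ) * (2 : ℝ) ^ (2 / 27 * (n : ℝ) ^ 3 - 431 / 1000 * (n : ℝ) ^ 2 + n) ≤
        (2 : ℝ) ^ (2 / 27 * (n : ℝ) ^ 3 - 42 / 100 * (n : ℝ) ^ 2) := by
      rw [← Real.rpow_add (by norm_num)]
      apply two_rpow_le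
      have : (300 : ℝ) ≤ n := by exact_mod_cast (show 300 ≤ n by omega)
      nlinarith
    refine le_trans ?_ h6
    push_cast at h5
    have h7 : (0 : ℝ) ≤ (2 : ℝ) ^ (2 / 27 * (n : ℝ) ^ 3 - 431 / 1000 * (n : ℝ) ^ 2 + n) := by positivity
    nlinarith
  refine h1.trans (le_trans ?_ hfin)
  have h8 : (0 : ℝ) ≤ 4 * (n : ℝ) + 5 := by positivity
  exact add_le_add hA (mul_le_mul_of_nonneg_left hB h8)

/-- upper bound for all `n` -/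
theorem gnu_two_le_all : ∃ C₀ : ℝ, 0 ≤ C₀ ∧ ∀ n : ℕ,
    (gnu (2 ^ n) : ℝ) ≤ (2 : ℝ) ^ (2 / 27 * (n : ℝ) ^ 3 - 42 / 100 * (n : ℝ) ^ 2 + C₀) := by
  obtain ⟨n₁, h⟩ := gnu_two_le
  obtain ⟨C, hC⟩ := gnu_le_pow
  refine ⟨2 / 27 * (n₁ : ℝ) ^ 3 + (C + 1) * (n₁ : ℝ) ^ 2, by positivity, fun n => ?_⟩
  rcases le_or_gt n₁ n with hn | hn
  · refine (h n hn).trans (two_rpow_le ?_)
    have : 0 ≤ 2 / 27 * (n₁ : ℝ) ^ 3 + (C + 1) * (n₁ : ℝ) ^ 2 := by positivity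
    linarith
  · have h1 : (gnu (2 ^ n) : ℝ) ≤ (2 : ℝ) ^ (2 * n ^ 3 / 27 + C * n ^ 2) := by
      exact_mod_cast hC 2 Nat.prime_two n
    refine h1.trans ?_
    rw [← Real.rpow_natCast]
    apply two_rpow_le
    have h2 : ((2 * n ^ 3 / 27 : ℕ) : ℝ) ≤ 2 / 27 * (n : ℝ) ^ 3 := by
      have h3 : 27 * (2 * n ^ 3 / 27) ≤ 2 * n ^ 3 := Nat.mul_div_le _ _
      have h4 : 27 * ((2 * n ^ 3 / 27 : ℕ) : ℝ) ≤ 2 * (n : ℝ) ^ 3 := by exact_mod_cast h3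
      linarith
    rw [Nat.cast_add]
    push_cast
    have hnr : (n : ℝ) ≤ n₁ := by exact_mod_cast hn.le
    have h5 : (n : ℝ) ^ 2 ≤ (n₁ : ℝ) ^ 2 := by gcongr
    have h6 : (0 : ℝ) ≤ (n : ℝ) ^ 2 := by positivity
    have h7 : (0 : ℝ) ≤ (C : ℝ) := Nat.cast_nonneg _
    have h8 : (0 : ℝ) ≤ (n₁ : ℝ) ^ 3 := by positivity
    have h9 : (C : ℝ) * (n : ℝ) ^ 2 ≤ C * (n₁ : ℝ) ^ 2 := by gcongr
    linarith

end Pool.Agent.Helper252_Enum
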