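import Mathlib

set_option autoImplicit false

namespace Pool.Agent.Helper252_Enum

/-- the final inequality between the exponents -/
theorem final_arith (C C₀ : ℝ) (hC : 0 ≤ C) (hC₀ : 0 ≤ C₀) : ∃ k₀ : ℝ, ∀ k i : ℝ, k₀ ≤ k → 1 ≤ i → i ≤ k →
    2 / 27 * (k - i) ^ 3 - 42 / 100 * (k - i) ^ 2 + C₀ +
      (i + 1) * (2 / 27 * (12 * (i + 1) / 19) ^ 2 + C * (12 * (i + 1) / 19)) ≤
    (2 / 27 * k ^ 3 - 45 / 100 * k ^ 2 - 1) - (k + 1) - k ^ 2 / 200 := by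
  refine ⟨200 * (5 + 4 * C + C₀), fun k i hk hi hik => ?_⟩
  have hk0 : 0 ≤ k := by linarith
  have hi0 : 0 ≤ i := by linarith
  have hk1 : 1 ≤ k := by linarith
  -- i ≤ k and 1 ≤ i give the comparisons
  have e1 : i ^ 2 ≤ i * k := by nlinarith
  have e2 : i ≤ i * k := by nlinarith
  have e3 : 1 ≤ i * k := by nlinarith
  have e4 : k ≤ i * k := by nlinarith
  have e5 : k ^ 2 ≤ i * k ^ 2 := by nlinarith [sq_nonneg k]
  have main : 6 / 10 * (i * k ^ 2) ≤ k ^ 3 - (k - i) ^ 3 - 4 / 10 * i ^ 3 := by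
    have h1 : k ^ 3 - (k - i) ^ 3 - 4 / 10 * i ^ 3 - 6 / 10 * (i * k ^ 2) =
        6 / 10 * i * ((k - i) * (4 * k - i)) := by ring
    have h2 : 0 ≤ 6 / 10 * i * ((k - i) * (4 * k - i)) := by
      apply mul_nonneg (by linarith)
      exact mul_nonneg (by linarith) (by linarith)
    linarith
  have cub : (i + 1) ^ 3 ≤ i ^ 3 + 7 * (i * k) := by nlinarith
  have sq1 : (i + 1) ^ 2 ≤ 4 * (i * k) := by nlinarith
  have t1 : (i + 1) * (2 / 27 * (12 * (i + 1) / 19) ^ 2 + C * (12 * (i + 1) / 19)) ≤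
      2 / 27 * (4 / 10) * (i ^ 3 + 7 * (i * k)) + C * (4 * (i * k)) := by
    have h1 : (i + 1) * (2 / 27 * (12 * (i + 1) / 19) ^ 2 + C * (12 * (i + 1) / 19)) =
        2 / 27 * (144 / 361) * (i + 1) ^ 3 + C * (12 / 19) * (i + 1) ^ 2 := by ring
    rw [h1]
    have h2 : 0 ≤ (i + 1) ^ 3 := by positivity
    have h3 : C * (12 / 19) * (i + 1) ^ 2 ≤ C * (4 * (i * k)) := by
      have h4 : C * (i + 1) ^ 2 ≤ C * (4 * (i * k)) := mul_le_mul_of_nonneg_left sq1 hC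
      have h5 : 0 ≤ C * (i + 1) ^ 2 := by positivity
      linarith
    linarith
  have t2 : C₀ ≤ C₀ * (i * k) := by nlinarith
  have t3 : k * (5 + 4 * C + C₀) * 200 ≤ k ^ 2 := by nlinarith
  have t4 : i * k * (5 + 4 * C + C₀) * 200 ≤ i * k ^ 2 := by nlinarith
  nlinarith

theorem three_two (v j : ℕ) (h : 3 ^ v < 2 ^ j) : 19 * v ≤ 12 * j := by
  have h1 : (2 : ℕ) ^ (19 * v) ≤ 3 ^ (12 * v) := by
    rw [pow_mul, pow_mul]
    exact Nat.pow_le_pow_left (by norm_num) v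
  have h2 : (3 : ℕ) ^ (12 * v) ≤ 2 ^ (12 * j) := by
    rw [mul_comm 12 v, mul_comm 12 j, pow_mul, pow_mul]
    exact Nat.pow_le_pow_left h.le 12
  exact (Nat.pow_le_pow_iff_right (by norm_num)).1 (h1.trans h2)

end Pool.Agent.Helper252_Enum
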