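import Pool.Agent.Helper252_Enum.V1_nil
import Pool.Agent.Helper252_Enum.V2_two
import Pool.Agent.Helper252_Enum.V3_arith

set_option autoImplicit false

namespace Pool.Agent.Helper252_Enum

/-- splitting off the prime 2 -/
theorem nil_split (n : ℕ) :
    gnuNil n ≤ gnu (2 ^ n.factorization 2) *
      ∏ p ∈ n.primeFactors.erase 2, gnu (p ^ n.factorization p) := by
  refine (gnuNil_le n).trans ?_
  by_cases h : 2 ∈ n.primeFactors
  · rw [Finset.mul_prod_erase n.primeFactors (fun p => gnu (p ^ n.factorization p)) h]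
  · rw [Finset.erase_eq_of_notMem h]
    have h0 : n.factorization 2 = 0 := by
      rw [← Finsupp.notMem_support_iff, Nat.support_factorization]
      exact h
    rw [h0, pow_zero, gnu_one, one_mul]

theorem prod_split (n : ℕ) (hn : n ≠ 0) :
    2 ^ n.factorization 2 * ∏ p ∈ n.primeFactors.erase 2, p ^ n.factorization p = n := by
  have h1 : ∏ p ∈ n.primeFactors, p ^ n.factorization p = n := by
    have := Nat.prod_factorization_pow_eq_self hn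
    rwa [Finsupp.prod, Nat.support_factorization] at this
  by_cases h : 2 ∈ n.primeFactors
  · rw [Finset.mul_prod_erase n.primeFactors (fun p => p ^ n.factorization p) h]
    exact h1
  · rw [Finset.erase_eq_of_notMem h]
    have h0 : n.factorization 2 = 0 := by
      rw [← Finsupp.notMem_support_iff, Nat.support_factorization]
      exact h
    rw [h0, pow_zero, one_mul]
    exact h1

/-- the odd part -/
theorem odd_part (C : ℕ) (hC : ∀ p : ℕ, p.Prime → ∀ n : ℕ,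
    gnu (p ^ n) ≤ p ^ (2 * n ^ 3 / 27 + C * n ^ 2)) (n j : ℕ)
    (hj : ∏ p ∈ n.primeFactors.erase 2, p ^ n.factorization p < 2 ^ j) :
    (∏ p ∈ n.primeFactors.erase 2, (gnu (p ^ n.factorization p) : ℝ)) ≤
      (2 : ℝ) ^ ((j : ℝ) * (2 / 27 * (12 * (j : ℝ) / 19) ^ 2 + C * (12 * (j : ℝ) / 19))) := by
  set B : ℝ := 2 / 27 * (12 * (j : ℝ) / 19) ^ 2 + C * (12 * (j : ℝ) / 19) with hB
  have hB0 : 0 ≤ B := by positivity
  have hone : ∀ p ∈ n.primeFactors.erase 2, 1 ≤ p ^ n.factorization p := by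
    intro p hp
    exact Nat.one_le_pow _ _ (Nat.prime_of_mem_primeFactors (Finset.mem_of_mem_erase hp)).pos
  have hterm : ∀ p ∈ n.primeFactors.erase 2,
      (gnu (p ^ n.factorization p) : ℝ) ≤ ((p ^ n.factorization p : ℕ) : ℝ) ^ B := by
    intro p hp
    have hpp : p.Prime := Nat.prime_of_mem_primeFactors (Finset.mem_of_mem_erase hp)
    have hp2 : p ≠ 2 := Finset.ne_of_mem_erase hp
    have hp3 : 3 ≤ p := by
      have := hpp.two_le
      omega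
    obtain ⟨v, hv⟩ : ∃ v, v = n.factorization p := ⟨_, rfl⟩
    have hle : p ^ v ≤ ∏ p ∈ n.primeFactors.erase 2, p ^ n.factorization p := by
      rw [hv]
      exact Finset.single_le_prod' (f := fun p => p ^ n.factorization p) hone hp
    have h3 : 3 ^ v < 2 ^ j := lt_of_le_of_lt ((Nat.pow_le_pow_left hp3 v).trans hle) hj
    have h4 := three_two v j h3
    have h5 : (v : ℝ) ≤ 12 * (j : ℝ) / 19 := by
      have : (19 : ℝ) * v ≤ 12 * j := by exact_mod_cast h4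
      linarith
    rw [← hv]
    have h6 := hC p hpp v
    have h7 : (gnu (p ^ v) : ℝ) ≤ (p : ℝ) ^ (2 * v ^ 3 / 27 + C * v ^ 2) := by exact_mod_cast h6
    refine h7.trans ?_
    have hp1 : (1 : ℝ) ≤ p := by exact_mod_cast hpp.one_lt.le
    rw [Nat.cast_pow, ← Real.rpow_natCast, ← Real.rpow_natCast, ← Real.rpow_mul (by linarith)]
    apply Real.rpow_le_rpow_of_exponent_le hp1
    have h8 : ((2 * v ^ 3 / 27 : ℕ) : ℝ) ≤ 2 / 27 * (v : ℝ) ^ 3 := by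
      have h3 : 27 * (2 * v ^ 3 / 27) ≤ 2 * v ^ 3 := Nat.mul_div_le _ _
      have h4 : 27 * ((2 * v ^ 3 / 27 : ℕ) : ℝ) ≤ 2 * (v : ℝ) ^ 3 := by exact_mod_cast h3
      linarith
    rw [Nat.cast_add]
    push_cast at h8 ⊢
    have hv0 : (0 : ℝ) ≤ v := Nat.cast_nonneg _
    have hC0 : (0 : ℝ) ≤ C := Nat.cast_nonneg _
    have h9 : (v : ℝ) ^ 2 ≤ (12 * (j : ℝ) / 19) ^ 2 := by gcongr
    have h10 : (v : ℝ) * B = 2 / 27 * (v * (12 * (j : ℝ) / 19) ^ 2) + C * (v * (12 * (j : ℝ) / 19)) := by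
      rw [hB]; ring
    rw [h10]
    have h11 : (v : ℝ) ^ 3 ≤ v * (12 * (j : ℝ) / 19) ^ 2 := by
      have := mul_le_mul_of_nonneg_left h9 hv0
      calc (v : ℝ) ^ 3 = v * (v : ℝ) ^ 2 := by ring
        _ ≤ _ := this
    have h12 : (C : ℝ) * (v : ℝ) ^ 2 ≤ C * (v * (12 * (j : ℝ) / 19)) := by
      apply mul_le_mul_of_nonneg_left _ hC0
      calc (v : ℝ) ^ 2 = v * v := by ring
        _ ≤ _ := mul_le_mul_of_nonneg_left h5 hv0
    linarith
  calc (∏ p ∈ n.primeFactors.erase 2, (gnu (p ^ n.factorization p) : ℝ))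
      ≤ ∏ p ∈ n.primeFactors.erase 2, ((p ^ n.factorization p : ℕ) : ℝ) ^ B :=
        Finset.prod_le_prod (fun _ _ => Nat.cast_nonneg _) hterm
    _ = (∏ p ∈ n.primeFactors.erase 2, ((p ^ n.factorization p : ℕ) : ℝ)) ^ B :=
        Real.finsetProd_rpow _ _ (fun _ _ => Nat.cast_nonneg _) _
    _ ≤ ((2 : ℝ) ^ (j : ℝ)) ^ B := by
        apply Real.rpow_le_rpow (Finset.prod_nonneg fun _ _ => Nat.cast_nonneg _) _ hB0
        rw [Real.rpow_natCast]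
        exact_mod_cast hj.le
    _ = (2 : ℝ) ^ ((j : ℝ) * B) := by rw [← Real.rpow_mul (by norm_num)]

theorem lower_exp (k : ℕ) :
    2 / 27 * (k : ℝ) ^ 3 - 45 / 100 * (k : ℝ) ^ 2 - 1 ≤ ((2 * k ^ 3 / 27 - 45 * k ^ 2 / 100 : ℕ) : ℝ) := by
  obtain ⟨a, ha⟩ : ∃ a, a = 2 * k ^ 3 / 27 := ⟨_, rfl⟩
  obtain ⟨b, hb⟩ : ∃ b, b = 45 * k ^ 2 / 100 := ⟨_, rfl⟩
  have ha' : 2 * k ^ 3 ≤ 27 * a + 26 := by omega
  have hb' : 100 * b ≤ 45 * k ^ 2 := by rw [hb]; exact Nat.mul_div_le _ _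
  rw [← ha, ← hb]
  have h1 : a ≤ (a - b) + b := by omega
  have h2 : (a : ℝ) ≤ ((a - b : ℕ) : ℝ) + b := by exact_mod_cast h1
  have ha2 : 2 * (k : ℝ) ^ 3 ≤ 27 * (a : ℝ) + 26 := by exact_mod_cast ha'
  have hb2 : 100 * (b : ℝ) ≤ 45 * (k : ℝ) ^ 2 := by exact_mod_cast hb'
  linarith

/-- The key estimate: each order below `2 ^ (k + 1)`, other than `2 ^ k`, has few nilpotent groups. -/
theorem nil_small : ∃ k₀ : ℕ, ∀ k, k₀ ≤ k → ∀ n, n ≠ 0 → n < 2 ^ (k + 1) → n ≠ 2 ^ k →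
    (gnuNil n : ℝ) * (2 : ℝ) ^ (((k : ℝ) + 1) + (k : ℝ) ^ 2 / 200) ≤ (gnu (2 ^ k) : ℝ) := by
  obtain ⟨C, hC⟩ := gnu_le_pow
  obtain ⟨C₀, hC₀, hup⟩ := gnu_two_le_all
  obtain ⟨n₂, hlow⟩ := gnu_ge
  obtain ⟨k₁, hk₁⟩ := final_arith (C : ℝ) C₀ (Nat.cast_nonneg _) hC₀
  refine ⟨n₂ + ⌈k₁⌉₊ + 1, fun k hk n hn0 hn hne => ?_⟩
  have hkk : k₁ ≤ (k : ℝ) := (Nat.le_ceil k₁).trans (by exact_mod_cast (show ⌈k₁⌉₊ ≤ k by omega))
  obtain ⟨a, ha⟩ : ∃ a, a = n.factorization 2 := ⟨_, rfl⟩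
  have hsplit := prod_split n hn0
  rw [← ha] at hsplit
  set R := ∏ p ∈ n.primeFactors.erase 2, p ^ n.factorization p with hR
  have hR0 : 1 ≤ R := by
    rcases Nat.eq_zero_or_pos R with h | h
    · rw [h, mul_zero] at hsplit
      exact absurd hsplit.symm hn0
    · exact h
  have hak : a < k := by
    by_contra hcon
    push Not at hcon
    have h1 : 2 ^ k ∣ n := (pow_dvd_pow 2 hcon).trans ⟨R, hsplit.symm⟩
    obtain ⟨t, ht⟩ := h1
    rw [pow_succ, ht] at hn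
    have ht2 : t < 2 := lt_of_mul_lt_mul_left hn (Nat.zero_le _)
    interval_cases t
    · exact hn0 (by simpa using ht)
    · exact hne (by simpa using ht)
  obtain ⟨i, hi, hi1⟩ : ∃ i, k = a + i ∧ 1 ≤ i := ⟨k - a, by omega, by omega⟩
  have hRlt : R < 2 ^ (i + 1) := by
    have h1 : 2 ^ a * R < 2 ^ a * 2 ^ (i + 1) := by
      rw [hsplit, ← pow_add]
      refine lt_of_lt_of_le hn (le_of_eq ?_)
      rw [hi]; ring_nf
    exact lt_of_mul_lt_mul_left h1 (Nat.zero_le _)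
  have hodd := odd_part C hC n (i + 1) hRlt
  have h1 : (gnuNil n : ℝ) ≤ (gnu (2 ^ a) : ℝ) *
      ∏ p ∈ n.primeFactors.erase 2, (gnu (p ^ n.factorization p) : ℝ) := by
    have := nil_split n
    rw [← ha] at this
    exact_mod_cast this
  have h2 := hup a
  have h3 : (gnuNil n : ℝ) ≤ (2 : ℝ) ^ ((2 / 27 * (a : ℝ) ^ 3 - 42 / 100 * (a : ℝ) ^ 2 + C₀) +
      (((i + 1 : ℕ) : ℝ) * (2 / 27 * (12 * ((i + 1 : ℕ) : ℝ) / 19) ^ 2 +
        C * (12 * ((i + 1 : ℕ) : ℝ) / 19)))) := by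
    rw [Real.rpow_add (by norm_num)]
    refine h1.trans ?_
    gcongr
  have hka : (a : ℝ) = (k : ℝ) - i := by
    rw [hi]; push_cast; ring
  have h4 := hk₁ (k : ℝ) (i : ℝ) hkk (by exact_mod_cast hi1) (by
    have : i ≤ k := by omega
    exact_mod_cast this)
  have h5 := hlow 2 Nat.prime_two k (by omega)
  calc (gnuNil n : ℝ) * (2 : ℝ) ^ (((k : ℝ) + 1) + (k : ℝ) ^ 2 / 200)
      ≤ (2 : ℝ) ^ ((2 / 27 * (a : ℝ) ^ 3 - 42 / 100 * (a : ℝ) ^ 2 + C₀) +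
      (((i + 1 : ℕ) : ℝ) * (2 / 27 * (12 * ((i + 1 : ℕ) : ℝ) / 19) ^ 2 +
        C * (12 * ((i + 1 : ℕ) : ℝ) / 19)))) * (2 : ℝ) ^ (((k : ℝ) + 1) + (k : ℝ) ^ 2 / 200) := by
        gcongr
    _ = (2 : ℝ) ^ ((2 / 27 * (a : ℝ) ^ 3 - 42 / 100 * (a : ℝ) ^ 2 + C₀) +
      (((i + 1 : ℕ) : ℝ) * (2 / 27 * (12 * ((i + 1 : ℕ) : ℝ) / 19) ^ 2 +
        C * (12 * ((i + 1 : ℕ) : ℝ) / 19))) + (((k : ℝ) + 1) + (k : ℝ) ^ 2 / 200)) := by
        rw [Real.rpow_add (by norm_num) _ (((k : ℝ) + 1) + (k : ℝ) ^ 2 / 200)]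
    _ ≤ (2 : ℝ) ^ (((2 * k ^ 3 / 27 - 45 * k ^ 2 / 100 : ℕ) : ℝ)) := by
        apply two_rpow_le
        have h6 := lower_exp k
        rw [hka]
        rw [Nat.cast_add, Nat.cast_one]
        linarith
    _ ≤ (gnu (2 ^ k) : ℝ) := by
        rw [Real.rpow_natCast]
        exact_mod_cast h5

end Pool.Agent.Helper252_Enum
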