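import Pool.Agent.Helper252_Enum.V4_comb

set_option autoImplicit false

open Filter Topology

namespace Pool.Agent.Helper252_Enum

theorem gnuNil_le_gnu (N : ℕ) : gnuNil N ≤ gnu N := by
  have := quot_fin N
  rw [gnu_eq]
  unfold gnuNil
  exact Nat.card_le_card_of_injective Subtype.val Subtype.val_injective

theorem nil_of_pow (p k : ℕ) (hp : p.Prime) (g : Group (Fin (p ^ k))) :
    @Group.IsNilpotent (Fin (p ^ k)) g := by
  have : Fact p.Prime := ⟨hp⟩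
  have h : IsPGroup p (Fin (p ^ k)) := IsPGroup.of_card (n := k) (by simp)
  exact h.isNilpotent

theorem gnuNil_pow (p k : ℕ) (hp : p.Prime) : gnuNil (p ^ k) = gnu (p ^ k) := by
  refine Nat.card_congr (Equiv.subtypeUnivEquiv fun c => ?_)
  induction c using Quot.ind
  rename_i g
  exact ⟨g, rfl, nil_of_pow p k hp g⟩

theorem gnu_pos (p k : ℕ) (hp : p.Prime) : 0 < gnu (p ^ k) := by
  have h1 := quot_fin (p ^ k)
  have h2 : Nonempty (Group (Fin (p ^ k))) := by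
    have : NeZero (p ^ k) := ⟨(pow_pos hp.pos k).ne'⟩
    exact ⟨(Finite.equivFinOfCardEq (α := Multiplicative (ZMod (p ^ k)))
      (by rw [Nat.card_congr Multiplicative.toAdd, Nat.card_zmod])).symm.group⟩
  have h3 : Nonempty (Quot (isoRel (p ^ k))) := h2.map (Quot.mk _)
  rw [gnu_eq]
  exact Nat.card_pos

/-- Among the nilpotent groups of order less than `2 ^ (k + 1)` all but a very small part have order
`2 ^ k`. -/
theorem sum_small : ∃ k₀ : ℕ, ∀ k, k₀ ≤ k →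
    (∑ n ∈ (Finset.Ico 1 (2 ^ (k + 1))).erase (2 ^ k), (gnuNil n : ℝ)) *
      (2 : ℝ) ^ ((k : ℝ) ^ 2 / 200) ≤ (gnu (2 ^ k) : ℝ) := by
  obtain ⟨k₀, h⟩ := nil_small
  refine ⟨k₀, fun k hk => ?_⟩
  have hterm : ∀ n ∈ (Finset.Ico 1 (2 ^ (k + 1))).erase (2 ^ k),
      (gnuNil n : ℝ) ≤ (gnu (2 ^ k) : ℝ) * (2 : ℝ) ^ (-(((k : ℝ) + 1) + (k : ℝ) ^ 2 / 200)) := by
    intro n hn
    rw [Finset.mem_erase, Finset.mem_Ico] at hn
    have h1 := h k hk n (by omega) hn.2.2 hn.1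
    rw [Real.rpow_neg (by norm_num), ← div_eq_mul_inv, le_div_iff₀ (by positivity)]
    exact h1
  have h2 := Finset.sum_le_card_nsmul _ _ _ hterm
  have hcard : ((Finset.Ico 1 (2 ^ (k + 1))).erase (2 ^ k)).card ≤ 2 ^ (k + 1) := by
    refine (Finset.card_erase_le).trans ?_
    rw [Nat.card_Ico]
    exact Nat.sub_le _ _
  have hcard' : ((((Finset.Ico 1 (2 ^ (k + 1))).erase (2 ^ k)).card : ℕ) : ℝ) ≤
      (2 : ℝ) ^ ((k : ℝ) + 1) := by
    have h3 : ((((Finset.Ico 1 (2 ^ (k + 1))).erase (2 ^ k)).card : ℕ) : ℝ) ≤ (2 : ℝ) ^ (k + 1) := by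
      exact_mod_cast hcard
    refine h3.trans (le_of_eq ?_)
    rw [← Real.rpow_natCast]
    push_cast
    rfl
  rw [nsmul_eq_mul] at h2
  have h5 : (0 : ℝ) ≤ (gnu (2 ^ k) : ℝ) := Nat.cast_nonneg _
  calc (∑ n ∈ (Finset.Ico 1 (2 ^ (k + 1))).erase (2 ^ k), (gnuNil n : ℝ)) *
        (2 : ℝ) ^ ((k : ℝ) ^ 2 / 200)
      ≤ ((2 : ℝ) ^ ((k : ℝ) + 1) *
        ((gnu (2 ^ k) : ℝ) * (2 : ℝ) ^ (-(((k : ℝ) + 1) + (k : ℝ) ^ 2 / 200)))) *
        (2 : ℝ) ^ ((k : ℝ) ^ 2 / 200) := by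
        refine mul_le_mul_of_nonneg_right (h2.trans ?_) (by positivity)
        exact mul_le_mul_of_nonneg_right hcard' (by positivity)
    _ = (gnu (2 ^ k) : ℝ) * ((2 : ℝ) ^ ((k : ℝ) + 1) *
        (2 : ℝ) ^ (-(((k : ℝ) + 1) + (k : ℝ) ^ 2 / 200)) * (2 : ℝ) ^ ((k : ℝ) ^ 2 / 200)) := by ring
    _ = (gnu (2 ^ k) : ℝ) := by
        rw [← Real.rpow_add (by norm_num), ← Real.rpow_add (by norm_num)]
        have : (k : ℝ) + 1 + -((k : ℝ) + 1 + (k : ℝ) ^ 2 / 200) + (k : ℝ) ^ 2 / 200 = 0 := by ring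
        rw [this, Real.rpow_zero, mul_one]

/-- the number of nilpotent groups of order at most `n` -/
noncomputable def totNil (n : ℕ) : ℝ := ∑ m ∈ Finset.Icc 1 n, (gnuNil m : ℝ)

/-- the number of `2`-groups of order at most `n` -/
noncomputable def totTwo (n : ℕ) : ℝ :=
  ∑ k ∈ (Finset.range (n + 1)).filter (fun k => 2 ^ k ≤ n), (gnu (2 ^ k) : ℝ)

theorem totTwo_le (n : ℕ) : totTwo n ≤ totNil n := by
  unfold totTwo totNil
  have h1 : ∑ k ∈ (Finset.range (n + 1)).filter (fun k => 2 ^ k ≤ n), (gnu (2 ^ k) : ℝ) =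
      ∑ m ∈ ((Finset.range (n + 1)).filter (fun k => 2 ^ k ≤ n)).image (fun k => 2 ^ k),
        (gnuNil m : ℝ) := by
    rw [Finset.sum_image (fun a _ b _ hab => Nat.pow_right_injective (le_refl 2) hab)]
    exact Finset.sum_congr rfl fun k _ => by rw [gnuNil_pow 2 k Nat.prime_two]
  rw [h1]
  refine Finset.sum_le_sum_of_subset_of_nonneg ?_ (fun _ _ _ => Nat.cast_nonneg _)
  intro m hm
  rw [Finset.mem_image] at hm
  obtain ⟨k, hk, rfl⟩ := hm
  rw [Finset.mem_filter] at hk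
  exact Finset.mem_Icc.2 ⟨Nat.one_le_two_pow, hk.2⟩

theorem le_totTwo (n : ℕ) (hn : n ≠ 0) : (gnu (2 ^ Nat.log 2 n) : ℝ) ≤ totTwo n := by
  unfold totTwo
  refine Finset.single_le_sum (f := fun k => (gnu (2 ^ k) : ℝ)) (fun _ _ => Nat.cast_nonneg _) ?_
  rw [Finset.mem_filter, Finset.mem_range]
  have h1 : 2 ^ Nat.log 2 n ≤ n := Nat.pow_log_le_self 2 hn
  have h2 : Nat.log 2 n < 2 ^ Nat.log 2 n := Nat.lt_two_pow_self
  exact ⟨by omega, h1⟩

theorem totNil_le : ∃ k₀ : ℕ, ∀ n : ℕ, k₀ ≤ Nat.log 2 n → n ≠ 0 →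
    totNil n ≤ (1 + (2 : ℝ) ^ (-((Nat.log 2 n : ℝ) ^ 2 / 200))) * (gnu (2 ^ Nat.log 2 n) : ℝ) := by
  obtain ⟨k₀, h⟩ := sum_small
  refine ⟨k₀, fun n hk hn => ?_⟩
  obtain ⟨k, hkk⟩ : ∃ k, k = Nat.log 2 n := ⟨_, rfl⟩
  rw [← hkk] at hk ⊢
  have h1 := h k hk
  have h2 : n < 2 ^ (k + 1) := by rw [hkk]; exact Nat.lt_pow_succ_log_self (by norm_num) n
  have h3 : totNil n ≤ ∑ m ∈ Finset.Ico 1 (2 ^ (k + 1)), (gnuNil m : ℝ) := by
    unfold totNil
    refine Finset.sum_le_sum_of_subset_of_nonneg ?_ (fun _ _ _ => Nat.cast_nonneg _)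
    intro m hm
    rw [Finset.mem_Icc] at hm
    exact Finset.mem_Ico.2 ⟨hm.1, by omega⟩
  have hmem : 2 ^ k ∈ Finset.Ico 1 (2 ^ (k + 1)) := by
    rw [Finset.mem_Ico]
    exact ⟨Nat.one_le_two_pow, Nat.pow_lt_pow_right (by norm_num) (by omega)⟩
  rw [← Finset.add_sum_erase _ _ hmem, gnuNil_pow 2 k Nat.prime_two] at h3
  have h4 : (∑ n ∈ (Finset.Ico 1 (2 ^ (k + 1))).erase (2 ^ k), (gnuNil n : ℝ)) ≤
      (2 : ℝ) ^ (-((k : ℝ) ^ 2 / 200)) * (gnu (2 ^ k) : ℝ) := by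
    rw [Real.rpow_neg (by norm_num), inv_mul_eq_div, le_div_iff₀ (by positivity)]
    exact h1
  linarith

theorem tendsto_err : Tendsto (fun n : ℕ => (2 : ℝ) ^ (-((Nat.log 2 n : ℝ) ^ 2 / 200))) atTop (𝓝 0) := by
  have h1 : Tendsto (fun k : ℕ => (2 : ℝ) ^ (-((k : ℝ) ^ 2 / 200))) atTop (𝓝 0) := by
    have h2 : Tendsto (fun k : ℕ => (k : ℝ) ^ 2 / 200) atTop atTop := by
      apply Tendsto.atTop_div_const (by norm_num)
      exact (tendsto_pow_atTop (by norm_num)).comp tendsto_natCast_atTop_atTop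
    have h3 : Tendsto (fun x : ℝ => (2 : ℝ) ^ (-x)) atTop (𝓝 0) := by
      have h4 := tendsto_rpow_atTop_of_base_lt_one (1 / 2 : ℝ) (by norm_num) (by norm_num)
      refine h4.congr fun x => ?_
      rw [Real.rpow_neg (by norm_num), one_div, Real.inv_rpow (by norm_num)]
    exact h3.comp h2
  refine h1.comp ?_
  refine tendsto_atTop.2 fun b => ?_
  filter_upwards [eventually_ge_atTop (2 ^ b)] with n hn
  exact Nat.le_log_of_pow_le (by norm_num) hn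

/-- almost all nilpotent groups of order at most `n` are groups of order `2 ^ ⌊log₂ n⌋` -/
theorem ratio_log : Tendsto (fun n : ℕ => (gnu (2 ^ Nat.log 2 n) : ℝ) / totNil n) atTop (𝓝 1) := by
  obtain ⟨k₀, h⟩ := totNil_le
  have hlim : Tendsto (fun n : ℕ => 1 - (2 : ℝ) ^ (-((Nat.log 2 n : ℝ) ^ 2 / 200))) atTop (𝓝 1) := by
    have := tendsto_err.const_sub 1
    rwa [sub_zero] at this
  refine tendsto_of_tendsto_of_tendsto_of_le_of_le' hlim tendsto_const_nhds ?_ ?_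
  · filter_upwards [eventually_ge_atTop (2 ^ k₀)] with n hn
    have hn0 : n ≠ 0 := by
      have : 0 < 2 ^ k₀ := by positivity
      omega
    have h1 := h n (Nat.le_log_of_pow_le (by norm_num) hn) hn0
    have hg : (0 : ℝ) < (gnu (2 ^ Nat.log 2 n) : ℝ) := by exact_mod_cast gnu_pos 2 _ Nat.prime_two
    have h2 : (gnu (2 ^ Nat.log 2 n) : ℝ) ≤ totNil n := (le_totTwo n hn0).trans (totTwo_le n)
    have ht : 0 < totNil n := lt_of_lt_of_le hg h2
    rw [le_div_iff₀ ht]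
    obtain ⟨e, he⟩ : ∃ e, e = (2 : ℝ) ^ (-((Nat.log 2 n : ℝ) ^ 2 / 200)) := ⟨_, rfl⟩
    rw [← he] at h1 ⊢
    have he0 : 0 < e := by rw [he]; positivity
    have he1 : e ≤ 1 := by
      rw [he]
      apply Real.rpow_le_one_of_one_le_of_nonpos (by norm_num)
      have : 0 ≤ (Nat.log 2 n : ℝ) ^ 2 / 200 := by positivity
      linarith
    have h3 : (1 - e) * totNil n ≤ (1 - e) * ((1 + e) * (gnu (2 ^ Nat.log 2 n) : ℝ)) :=
      mul_le_mul_of_nonneg_left h1 (by linarith)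
    refine h3.trans ?_
    nlinarith [sq_nonneg e]
  · filter_upwards [eventually_ge_atTop 1] with n hn
    have hn0 : n ≠ 0 := by omega
    have hg : (0 : ℝ) < (gnu (2 ^ Nat.log 2 n) : ℝ) := by exact_mod_cast gnu_pos 2 _ Nat.prime_two
    have h2 : (gnu (2 ^ Nat.log 2 n) : ℝ) ≤ totNil n := (le_totTwo n hn0).trans (totTwo_le n)
    have ht : 0 < totNil n := lt_of_lt_of_le hg h2
    rw [div_le_one ht]
    exact h2

theorem ratio_two : Tendsto (fun n : ℕ => totTwo n / totNil n) atTop (𝓝 1) := by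
  refine tendsto_of_tendsto_of_tendsto_of_le_of_le' ratio_log tendsto_const_nhds ?_ ?_
  · filter_upwards [eventually_ge_atTop 1] with n hn
    have hn0 : n ≠ 0 := by omega
    have hg : (0 : ℝ) < (gnu (2 ^ Nat.log 2 n) : ℝ) := by exact_mod_cast gnu_pos 2 _ Nat.prime_two
    have h2 : (gnu (2 ^ Nat.log 2 n) : ℝ) ≤ totNil n := (le_totTwo n hn0).trans (totTwo_le n)
    have ht : 0 < totNil n := lt_of_lt_of_le hg h2
    exact div_le_div_of_nonneg_right (le_totTwo n hn0) ht.le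
  · filter_upwards [eventually_ge_atTop 1] with n hn
    have hn0 : n ≠ 0 := by omega
    have hg : (0 : ℝ) < (gnu (2 ^ Nat.log 2 n) : ℝ) := by exact_mod_cast gnu_pos 2 _ Nat.prime_two
    have h2 : (gnu (2 ^ Nat.log 2 n) : ℝ) ≤ totNil n := (le_totTwo n hn0).trans (totTwo_le n)
    have ht : 0 < totNil n := lt_of_lt_of_le hg h2
    rw [div_le_one ht]
    exact totTwo_le n

end Pool.Agent.Helper252_Enum
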