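import Pool.Agent.Helper252_Enum.V5_final

set_option autoImplicit false

open Filter Topology

namespace Pool.Agent.Helper252_Enum

/-- the main term -/
noncomputable def AA (p n : ℕ) : ℝ :=
  ∑ r ∈ (Finset.range (n + 1)).filter (fun r => 19 * n ≤ 60 * r ∧ 60 * r ≤ 21 * n),
      (SS p ((n - r) * (n - r + 1) / 2) r : ℝ) / (gl p (n - r) * gl p r)

theorem AA_le (p n : ℕ) (hp : p.Prime) : AA p n ≤ (gnu (p ^ n) : ℝ) := gnu_lower p n hp

theorem AA_close : ∃ n₀ : ℕ, ∀ (p : ℕ), p.Prime → ∀ n, n₀ ≤ n →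
    ((gnu (p ^ n) : ℝ) - AA p n) * (p : ℝ) ^ (n ^ 2 / 100) ≤ (gnu (p ^ n) : ℝ) := by
  obtain ⟨n₁, h₁⟩ := gnu_upper
  obtain ⟨n₂, h₂⟩ := gnu_ge
  refine ⟨n₁ + n₂ + 10000, fun p hp n hn => ?_⟩
  have hp2 : (2 : ℝ) ≤ (p : ℝ) := by exact_mod_cast hp.two_le
  have hp1 : (1 : ℝ) ≤ (p : ℝ) := by linarith
  have hb : (gnu (p ^ n) : ℝ) - AA p n ≤ (4 * n + 5) * (p : ℝ) ^ (2 * n ^ 3 / 27 - 47 * n ^ 2 / 100) := by
    have := h₁ p hp n (by omega)
    unfold AA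
    linarith
  have hg := h₂ p hp n (by omega)
  have hn4 : 10000 ≤ n := by omega
  have h5 : ((5 * n + 6 : ℕ) : ℝ) ≤ (p : ℝ) ^ n := by
    calc ((5 * n + 6 : ℕ) : ℝ) ≤ ((2 ^ n : ℕ) : ℝ) := by exact_mod_cast lin_le n (by omega)
      _ = (2 : ℝ) ^ n := by push_cast; rfl
      _ ≤ (p : ℝ) ^ n := pow_le_pow_left₀ (by norm_num) hp2 n
  push_cast at h5
  have h5' : (4 * (n : ℝ) + 5) ≤ (p : ℝ) ^ n := by
    have : (0 : ℝ) ≤ n := Nat.cast_nonneg _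
    linarith
  have hexp : n + (2 * n ^ 3 / 27 - 47 * n ^ 2 / 100) + n ^ 2 / 100 ≤
      2 * n ^ 3 / 27 - 45 * n ^ 2 / 100 := by
    have e1 : 10000 * n ≤ n ^ 2 := by nlinarith
    have e2 : 10000 * n ^ 2 ≤ n ^ 3 := by nlinarith [sq_nonneg n]
    generalize hA : n ^ 2 = A at *
    generalize hB : n ^ 3 = B at *
    omega
  calc ((gnu (p ^ n) : ℝ) - AA p n) * (p : ℝ) ^ (n ^ 2 / 100)
      ≤ ((4 * n + 5) * (p : ℝ) ^ (2 * n ^ 3 / 27 - 47 * n ^ 2 / 100)) * (p : ℝ) ^ (n ^ 2 / 100) :=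
        mul_le_mul_of_nonneg_right hb (by positivity)
    _ ≤ ((p : ℝ) ^ n * (p : ℝ) ^ (2 * n ^ 3 / 27 - 47 * n ^ 2 / 100)) * (p : ℝ) ^ (n ^ 2 / 100) := by
        gcongr
    _ = (p : ℝ) ^ (n + (2 * n ^ 3 / 27 - 47 * n ^ 2 / 100) + n ^ 2 / 100) := by
        rw [pow_add, pow_add]
    _ ≤ (p : ℝ) ^ (2 * n ^ 3 / 27 - 45 * n ^ 2 / 100) := pow_le_pow_right₀ hp1 hexp
    _ ≤ (gnu (p ^ n) : ℝ) := hg

/-- the number of groups of order `p ^ n` is asymptotic to the main term -/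
theorem gnu_asymp (p : ℕ) (hp : p.Prime) :
    Tendsto (fun n : ℕ => AA p n / (gnu (p ^ n) : ℝ)) atTop (𝓝 1) := by
  obtain ⟨n₀, h⟩ := AA_close
  have hp2 : (2 : ℝ) ≤ (p : ℝ) := by exact_mod_cast hp.two_le
  have hlim : Tendsto (fun n : ℕ => 1 - ((1 : ℝ) / 2) ^ n) atTop (𝓝 1) := by
    have := (tendsto_pow_atTop_nhds_zero_of_lt_one (r := (1 : ℝ) / 2) (by norm_num)
      (by norm_num)).const_sub 1
    rwa [sub_zero] at this
  refine tendsto_of_tendsto_of_tendsto_of_le_of_le' hlim tendsto_const_nhds ?_ ?_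
  · filter_upwards [eventually_ge_atTop (n₀ + 100)] with n hn
    have hb := h p hp n (by omega)
    have hg : (0 : ℝ) < (gnu (p ^ n) : ℝ) := by exact_mod_cast gnu_pos p n hp
    have hk : n ≤ n ^ 2 / 100 := by
      have : 100 * n ≤ n ^ 2 := by nlinarith
      omega
    have h2 : (2 : ℝ) ^ n ≤ (p : ℝ) ^ (n ^ 2 / 100) := by
      calc (2 : ℝ) ^ n ≤ (2 : ℝ) ^ (n ^ 2 / 100) := pow_le_pow_right₀ (by norm_num) hk
        _ ≤ (p : ℝ) ^ (n ^ 2 / 100) := pow_le_pow_left₀ (by norm_num) hp2 _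
    have hsub : 0 ≤ (gnu (p ^ n) : ℝ) - AA p n := by
      have := AA_le p n hp
      linarith
    have h3 : ((gnu (p ^ n) : ℝ) - AA p n) * (2 : ℝ) ^ n ≤ (gnu (p ^ n) : ℝ) :=
      (mul_le_mul_of_nonneg_left h2 hsub).trans hb
    rw [le_div_iff₀ hg]
    have h4 : (gnu (p ^ n) : ℝ) - AA p n ≤ (gnu (p ^ n) : ℝ) * (1 / 2) ^ n := by
      rw [one_div, inv_pow, ← div_eq_mul_inv, le_div_iff₀ (by positivity)]
      exact h3
    linarith
  · filter_upwards with n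
    have hg : (0 : ℝ) < (gnu (p ^ n) : ℝ) := by exact_mod_cast gnu_pos p n hp
    rw [div_le_one hg]
    exact AA_le p n hp

theorem log_tendsto : Tendsto (fun n : ℕ => Nat.log 2 n) atTop atTop := by
  refine tendsto_atTop.2 fun b => ?_
  filter_upwards [eventually_ge_atTop (2 ^ b)] with n hn
  exact Nat.le_log_of_pow_le (by norm_num) hn

/-- the number of nilpotent groups of order at most `n` is asymptotic to the main term -/
theorem totNil_asymp : Tendsto (fun n : ℕ => AA 2 (Nat.log 2 n) / totNil n) atTop (𝓝 1) := by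
  have h1 := (gnu_asymp 2 Nat.prime_two).comp log_tendsto
  have h2 := h1.mul ratio_log
  rw [one_mul] at h2
  refine h2.congr fun n => ?_
  have hg : (gnu (2 ^ Nat.log 2 n) : ℝ) ≠ 0 := by
    have := gnu_pos 2 (Nat.log 2 n) Nat.prime_two
    exact_mod_cast this.ne'
  simp only [Function.comp_apply]
  field_simp

end Pool.Agent.Helper252_Enum
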