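import Pool.Agent.Helper252_Enum.Defs

set_option autoImplicit false

open scoped commutatorElement

namespace Pool.Agent.Helper252_Enum

namespace J_law_transfer

/-- class at most two -/
def Cl2 (A : Type) [Group A] : Prop := ∀ a b c : A, ⁅⁅a, b⁆, c⁆ = 1

lemma Cl2.comm {A : Type} [Group A] (h : Cl2 A) (a b c : A) : c * ⁅a, b⁆ = ⁅a, b⁆ * c :=
  (commutatorElement_eq_one_iff_mul_comm.1 (h a b c)).symm

/-- the centre is commutative -/
instance instCG (A : Type) [Group A] : CommGroup (Subgroup.center A) :=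
  { (inferInstance : Group (Subgroup.center A)) with
    mul_comm := fun a b => Subtype.ext ((Subgroup.mem_center_iff.1 b.2) a) }

/-- the commutator pairing -/
def gam {A : Type} [Group A] (h : Cl2 A) (a b : A) : Subgroup.center A :=
  ⟨⁅a, b⁆, Subgroup.mem_center_iff.2 fun g => h.comm a b g⟩

lemma gam_mul_left {A : Type} [Group A] (h : Cl2 A) (a b c : A) :
    gam h (a * b) c = gam h a c * gam h b c := by
  apply Subtype.ext
  show ⁅a * b, c⁆ = ⁅a, c⁆ * ⁅b, c⁆
  have e1 : ⁅a * b, c⁆ = a * ⁅b, c⁆ * (c * a⁻¹ * c⁻¹) := by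
    simp only [commutatorElement_def]; group
  rw [e1, h.comm, mul_assoc, ← h.comm]
  simp only [commutatorElement_def]; group

lemma gam_mul_right {A : Type} [Group A] (h : Cl2 A) (a b c : A) :
    gam h a (b * c) = gam h a b * gam h a c := by
  apply Subtype.ext
  show ⁅a, b * c⁆ = ⁅a, b⁆ * ⁅a, c⁆
  have e1 : ⁅a, b * c⁆ = ⁅a, b⁆ * (b * ⁅a, c⁆) * b⁻¹ := by
    simp only [commutatorElement_def]; group
  rw [e1, h.comm]
  group

lemma gam_swap {A : Type} [Group A] (h : Cl2 A) (a b : A) : gam h b a = (gam h a b)⁻¹ := by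
  apply Subtype.ext
  show ⁅b, a⁆ = ⁅a, b⁆⁻¹
  rw [commutatorElement_inv]

/-- the pairing as a homomorphism in the first variable -/
def gamL {A : Type} [Group A] (h : Cl2 A) (b : A) : A →* Subgroup.center A :=
  MonoidHom.mk' (fun a => gam h a b) fun a c => gam_mul_left h a c b

/-- the pairing as a homomorphism in the second variable -/
def gamR {A : Type} [Group A] (h : Cl2 A) (a : A) : A →* Subgroup.center A :=
  MonoidHom.mk' (fun b => gam h a b) fun b c => gam_mul_right h a b c

lemma lift_comp {A B : Type} [Group A] [Group B] (φ : A →* B) (t : ℕ → A) (w : FreeGroup ℕ) :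
    φ (FreeGroup.lift t w) = FreeGroup.lift (fun i => φ (t i)) w := by
  have : φ.comp (FreeGroup.lift t) = FreeGroup.lift (fun i => φ (t i)) := by
    ext i; simp
  rw [← this]; rfl

lemma lemC (w : FreeGroup ℕ) : ∃ a : ℕ →₀ ℤ, ∀ (C : Type) [CommGroup C] (t : ℕ → C),
    FreeGroup.lift t w = a.prod (fun j k => t j ^ k) := by
  induction w using FreeGroup.induction_on with
  | C1 => exact ⟨0, fun C _ t => by simp⟩
  | of k => exact ⟨Finsupp.single k 1, fun C _ t => by simp⟩
  | inv_of k _ => exact ⟨Finsupp.single k (-1), fun C _ t => by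
      rw [Finsupp.prod_single_index (by simp)]; simp⟩
  | mul u v hu hv =>
    obtain ⟨a, ha⟩ := hu
    obtain ⟨b, hb⟩ := hv
    refine ⟨a + b, fun C _ t => ?_⟩
    rw [map_mul, ha, hb, Finsupp.prod_add_index' (by simp) (by intros; exact zpow_add _ _ _)]

lemma lemD (w : FreeGroup ℕ) : ∃ c : (ℕ × ℕ) →₀ ℤ, ∀ (A : Type) [Group A] (h : Cl2 A)
    (y z : ℕ → A), FreeGroup.lift (y * z) w = FreeGroup.lift y w * FreeGroup.lift z w *
      (c.prod (fun ij k => gam h (y ij.1) (z ij.2) ^ k) : Subgroup.center A) := by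
  induction w using FreeGroup.induction_on with
  | C1 => exact ⟨0, fun A _ h y z => by simp⟩
  | of k => exact ⟨0, fun A _ h y z => by simp⟩
  | inv_of k _ =>
    refine ⟨Finsupp.single (k, k) (-1), fun A _ h y z => ?_⟩
    rw [Finsupp.prod_single_index (by simp), zpow_neg, zpow_one, ← gam_swap]
    simp only [map_inv, FreeGroup.lift_apply_of, Pi.mul_apply]
    show (y k * z k)⁻¹ = (y k)⁻¹ * (z k)⁻¹ * ⁅z k, y k⁆
    simp only [commutatorElement_def]; group
  | mul u v hu hv =>
    obtain ⟨c, hc⟩ := hu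
    obtain ⟨d, hd⟩ := hv
    obtain ⟨a, ha⟩ := lemC u
    obtain ⟨b, hb⟩ := lemC v
    refine ⟨c + d + ∑ j ∈ a.support, ∑ i ∈ b.support, Finsupp.single (i, j) (-(b i * a j)),
      fun A _ h y z => ?_⟩
    have e0 : ∀ (f g : (ℕ × ℕ) →₀ ℤ),
        (f + g).prod (fun ij k => gam h (y ij.1) (z ij.2) ^ k) =
        f.prod (fun ij k => gam h (y ij.1) (z ij.2) ^ k) *
          g.prod (fun ij k => gam h (y ij.1) (z ij.2) ^ k) := fun f g =>
      Finsupp.prod_add_index' (by simp) (by intros; exact zpow_add _ _ _)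
    have e1 : (∑ j ∈ a.support, ∑ i ∈ b.support,
        Finsupp.single (i, j) (-(b i * a j))).prod
          (fun ij k => gam h (y ij.1) (z ij.2) ^ k) =
        gam h (FreeGroup.lift z u) (FreeGroup.lift y v) := by
      have e2 : gam h (FreeGroup.lift z u) (FreeGroup.lift y v) =
          a.prod (fun j k => gam h (z j) (FreeGroup.lift y v) ^ k) := by
        have := lift_comp (gamL h (FreeGroup.lift y v)) z u
        rw [ha] at this
        exact this
      have e3 : ∀ j, gam h (z j) (FreeGroup.lift y v) =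
          b.prod (fun i k => gam h (z j) (y i) ^ k) := by
        intro j
        have := lift_comp (gamR h (z j)) y v
        rw [hb] at this
        exact this
      rw [e2, ← Finsupp.prod_finsetSum_index (by simp) (by intros; exact zpow_add _ _ _)]
      unfold Finsupp.prod
      refine Finset.prod_congr rfl fun j _ => ?_
      change _ = gam h (z j) (FreeGroup.lift y v) ^ a j
      rw [e3 j]
      change (∑ i ∈ b.support, Finsupp.single (i, j) (-(b i * a j))).prod
          (fun ij k => gam h (y ij.1) (z ij.2) ^ k) = _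
      rw [← Finsupp.prod_finsetSum_index (by simp) (by intros; exact zpow_add _ _ _)]
      unfold Finsupp.prod
      rw [← Finset.prod_zpow]
      refine Finset.prod_congr rfl fun i _ => ?_
      change (Finsupp.single (i, j) (-(b i * a j))).prod
          (fun ij k => gam h (y ij.1) (z ij.2) ^ k) = (gam h (z j) (y i) ^ b i) ^ a j
      rw [Finsupp.prod_single_index (by simp), gam_swap h (y i) (z j), inv_zpow, ← zpow_neg,
        ← zpow_mul]
      congr 1
      ring
    rw [e0, e0, e1, map_mul, hc A h y z, hd A h y z, map_mul, map_mul]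
    set U := FreeGroup.lift y u
    set V := FreeGroup.lift y v
    set U' := FreeGroup.lift z u
    set V' := FreeGroup.lift z v
    have c1 := (c.prod (fun ij k => gam h (y ij.1) (z ij.2) ^ k)).2
    rw [Subgroup.mem_center_iff] at c1
    show U * U' * _ * (V * V' * _) = U * V * (U' * V') * (_ * _ * ⁅U', V⁆)
    set X : A := ((c.prod (fun ij k => gam h (y ij.1) (z ij.2) ^ k) : Subgroup.center A) : A)
    set Y : A := ((d.prod (fun ij k => gam h (y ij.1) (z ij.2) ^ k) : Subgroup.center A) : A)
    have h1 : U * U' * X * (V * V' * Y) = U * (U' * V) * V' * (X * Y) := by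
      have := c1 (V * V')
      calc U * U' * X * (V * V' * Y) = U * U' * (X * (V * V')) * Y := by group
        _ = U * U' * ((V * V') * X) * Y := by rw [this]
        _ = _ := by group
    have h2 : U' * V = ⁅U', V⁆ * (V * U') := by
      simp only [commutatorElement_def]; group
    have h3 : U * (⁅U', V⁆ * (V * U')) * V' * (X * Y) =
        U * V * (U' * V') * (X * Y * ⁅U', V⁆) := by
      have e4 := h.comm U' V (U * V * (U' * V') * (X * Y))
      have e5 := h.comm U' V U
      calc U * (⁅U', V⁆ * (V * U')) * V' * (X * Y)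
          = (U * ⁅U', V⁆) * (V * U' * V' * (X * Y)) := by group
        _ = (⁅U', V⁆ * U) * (V * U' * V' * (X * Y)) := by rw [e5]
        _ = ⁅U', V⁆ * (U * V * (U' * V') * (X * Y)) := by group
        _ = _ := by rw [← e4]; group
    rw [h1, h2, h3]

lemma lift_single {A : Type} [Group A] (w : FreeGroup ℕ) (i : ℕ) :
    ∃ a : ℤ, ∀ (A : Type) [Group A] (g : A), FreeGroup.lift (Pi.mulSingle i g) w = g ^ a := by
  refine ⟨Multiplicative.toAdd (FreeGroup.lift (Pi.mulSingle i (Multiplicative.ofAdd (1 : ℤ))) w),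
    fun A _ g => ?_⟩
  have h1 := lift_comp (zpowersHom A g) (Pi.mulSingle i (Multiplicative.ofAdd (1 : ℤ))) w
  rw [zpowersHom_apply] at h1
  rw [h1]
  congr 2
  funext j
  by_cases hj : j = i
  · subst hj; simp
  · simp [Pi.mulSingle_eq_of_ne hj]

/-- truncation -/
def trunc {A : Type} [Group A] (n : ℕ) (x : ℕ → A) : ℕ → A := fun i => if i < n then x i else 1

lemma lift_trunc (w : FreeGroup ℕ) : ∃ n, ∀ (A : Type) [Group A] (x : ℕ → A) (m : ℕ), n ≤ m →
    FreeGroup.lift (trunc m x) w = FreeGroup.lift x w := by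
  induction w using FreeGroup.induction_on with
  | C1 => exact ⟨0, fun A _ x m _ => by simp⟩
  | of k => exact ⟨k + 1, fun A _ x m hm => by
      have : k < m := by omega
      simp [trunc, this]⟩
  | inv_of k ih =>
    obtain ⟨n, hn⟩ := ih
    exact ⟨n, fun A _ x m hm => by rw [map_inv, map_inv, hn A x m hm]⟩
  | mul u v hu hv =>
    obtain ⟨n, hn⟩ := hu
    obtain ⟨n', hn'⟩ := hv
    exact ⟨max n n', fun A _ x m hm => by
      rw [map_mul, map_mul, hn A x m ((le_max_left _ _).trans hm),
        hn' A x m ((le_max_right _ _).trans hm)]⟩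

/-- the class two case -/
lemma class2_case {p : ℕ} [Fact p.Prime] (P : Type) [Group P] [Finite P] (hP : IsPGroup p P)
    (hcl : Cl2 P) (hna : ∃ a b : P, a * b ≠ b * a) (w : FreeGroup ℕ)
    (hw : ∀ x : ℕ → P, FreeGroup.lift x w = 1) (H : Type) [Group H] (hH : Good p H) :
    ∀ x : ℕ → H, FreeGroup.lift x w = 1 := by
  have hp : p.Prime := Fact.out
  obtain ⟨c, hc⟩ := lemD w
  obtain ⟨g₀, h₀, hgh⟩ := hna
  -- a nontrivial element and divisibility
  have hdiv : ∀ (g : P) (k : ℤ), g ≠ 1 → g ^ k = 1 → (p : ℤ) ∣ k := by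
    intro g k hg hk
    obtain ⟨s, hs⟩ := (IsPGroup.iff_orderOf.1 hP) g
    have h1 : (orderOf g : ℤ) ∣ k := orderOf_dvd_iff_zpow_eq_one.2 hk
    have h2 : s ≠ 0 := by
      rintro rfl
      rw [pow_zero, orderOf_eq_one_iff] at hs
      exact hg hs
    refine dvd_trans ?_ h1
    rw [hs]
    push_cast
    exact dvd_pow_self _ h2
  -- the coefficients are divisible by p
  have hcp : ∀ ij, (p : ℤ) ∣ c ij := by
    rintro ⟨i, j⟩
    have h1 := hc P hcl (Pi.mulSingle i g₀) (Pi.mulSingle j h₀)
    rw [hw, hw, hw, one_mul, one_mul] at h1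
    have h2 : (c.prod (fun ij k => gam hcl ((Pi.mulSingle i g₀ : ℕ → P) ij.1)
        ((Pi.mulSingle j h₀ : ℕ → P) ij.2) ^ k) : Subgroup.center P) =
        gam hcl g₀ h₀ ^ c (i, j) := by
      unfold Finsupp.prod
      rw [Finset.prod_eq_single (i, j)]
      · simp
      · rintro ⟨i', j'⟩ _ hne
        have h3 : gam hcl ((Pi.mulSingle i g₀ : ℕ → P) i') ((Pi.mulSingle j h₀ : ℕ → P) j') = 1 := by
          apply Subtype.ext
          show ⁅(Pi.mulSingle i g₀ : ℕ → P) i', (Pi.mulSingle j h₀ : ℕ → P) j'⁆ = 1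
          by_cases hi : i' = i
          · have hj : j' ≠ j := by
              rintro rfl
              exact hne (by rw [hi])
            rw [Pi.mulSingle_eq_of_ne hj, commutatorElement_one_right]
          · rw [Pi.mulSingle_eq_of_ne hi, commutatorElement_one_left]
        show gam hcl ((Pi.mulSingle i g₀ : ℕ → P) i') ((Pi.mulSingle j h₀ : ℕ → P) j') ^ _ = 1
        rw [h3, one_zpow]
      · intro h3
        rw [Finsupp.notMem_support_iff.1 h3]
        exact zpow_zero _
    rw [h2] at h1
    refine hdiv ⁅g₀, h₀⁆ (c (i, j)) ?_ ?_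
    · intro h3
      exact hgh (commutatorElement_eq_one_iff_mul_comm.1 h3)
    · exact h1.symm
  have hmul : ∀ y z : ℕ → H, FreeGroup.lift (y * z) w =
      FreeGroup.lift y w * FreeGroup.lift z w := by
    intro y z
    have hcl' : Cl2 H := hH.class2
    rw [hc H hcl' y z]
    have h1 : (c.prod (fun ij k => gam hcl' (y ij.1) (z ij.2) ^ k) : Subgroup.center H) = 1 := by
      unfold Finsupp.prod
      refine Finset.prod_eq_one fun ij _ => ?_
      obtain ⟨k, hk⟩ := hcp ij
      show gam hcl' (y ij.1) (z ij.2) ^ (c ij) = 1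
      rw [hk, zpow_mul, zpow_natCast]
      have : gam hcl' (y ij.1) (z ij.2) ^ p = 1 := by
        apply Subtype.ext
        exact hH.comm_pow _ _
      rw [this, one_zpow]
    rw [h1]
    simp
  have hsing : ∀ (i : ℕ) (g : H), FreeGroup.lift (Pi.mulSingle i g) w = 1 := by
    intro i g
    obtain ⟨a, ha⟩ := lift_single (A := H) w i
    rw [ha H g]
    have h1 : ∀ g : P, g ^ a = 1 := fun g => by rw [← ha P g]; exact hw _
    have hpa : (p : ℤ) ∣ a := by
      refine hdiv ⁅g₀, h₀⁆ a ?_ (h1 _)
      intro h3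
      exact hgh (commutatorElement_eq_one_iff_mul_comm.1 h3)
    by_cases h2 : p = 2
    · have h4 : (4 : ℤ) ∣ a := by
        by_contra h4
        subst h2
        -- every element of P has order dividing 2
        have h5 : ∀ g : P, g * g = 1 := by
          intro g
          obtain ⟨s, hs⟩ := (IsPGroup.iff_orderOf.1 hP) g
          have h6 : (orderOf g : ℤ) ∣ a := orderOf_dvd_iff_zpow_eq_one.2 (h1 g)
          have h7 : s ≤ 1 := by
            by_contra h7
            push Not at h7
            apply h4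
            refine dvd_trans ?_ h6
            rw [hs]
            have : (4 : ℤ) = 2 ^ 2 := by norm_num
            rw [this]
            push_cast
            exact pow_dvd_pow _ h7
          have h8 : orderOf g ∣ 2 := by
            rw [hs]
            calc 2 ^ s ∣ 2 ^ 1 := pow_dvd_pow _ h7
              _ = 2 := by norm_num
          rw [← pow_two]
          exact orderOf_dvd_iff_pow_eq_one.1 h8
        apply hgh
        have h6 : ∀ g : P, g⁻¹ = g := fun g => inv_eq_of_mul_eq_one_left (h5 g)
        have h7 := h6 (g₀ * h₀)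
        rw [mul_inv_rev, h6, h6] at h7
        exact h7.symm
      obtain ⟨k, rfl⟩ := h4
      rw [zpow_mul]
      have : g ^ (4 : ℤ) = 1 := by
        have := hH.pow_two h2 g
        exact_mod_cast this
      rw [this, one_zpow]
    · obtain ⟨k, rfl⟩ := hpa
      rw [zpow_mul, zpow_natCast, hH.pow_odd h2 g, one_zpow]
  intro x
  obtain ⟨n, hn⟩ := lift_trunc w
  rw [← hn H x n le_rfl]
  have key : ∀ m, FreeGroup.lift (trunc m x) w = 1 := by
    intro m
    induction m with
    | zero =>
      have : trunc 0 x = Pi.mulSingle 0 1 := by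
        funext i; simp [trunc]
      rw [this]
      exact hsing 0 1
    | succ m ih =>
      have : trunc (m + 1) x = trunc m x * Pi.mulSingle m (x m) := by
        funext i
        simp only [trunc, Pi.mul_apply]
        rcases lt_trichotomy i m with h | h | h
        · rw [if_pos (by omega), if_pos h, Pi.mulSingle_eq_of_ne h.ne, mul_one]
        · subst h
          rw [if_pos (by omega), if_neg (by omega), Pi.mulSingle_eq_same, one_mul]
        · rw [if_neg (by omega), if_neg (by omega), Pi.mulSingle_eq_of_ne h.ne', mul_one]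
      rw [this, hmul, ih, hsing, one_mul]
  exact key n

end J_law_transfer

open J_law_transfer in
/-- TARGET -/
theorem law_transfer {p : ℕ} [Fact p.Prime] (P : Type) [Group P] [Finite P] (hP : IsPGroup p P)
    (hna : ∃ a b : P, a * b ≠ b * a) (w : FreeGroup ℕ)
    (hw : ∀ x : ℕ → P, FreeGroup.lift x w = 1) (H : Type) [Group H] (hH : Good p H) :
    ∀ x : ℕ → H, FreeGroup.lift x w = 1 := by
  classical
  have : Group.IsNilpotent P := hP.isNilpotent
  set N : Subgroup P := (⊤ : Subgroup P).lowerCentralSeries 2 with hN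
  have hN3 : ∀ a b c : P, ⁅⁅a, b⁆, c⁆ ∈ N := by
    intro a b c
    have h1 : ⁅a, b⁆ ∈ (⊤ : Subgroup P).lowerCentralSeries 1 := by
      have : ⁅a, b⁆ ∈ ⁅(⊤ : Subgroup P), (⊤ : Subgroup P)⁆ :=
        Subgroup.commutator_mem_commutator (Subgroup.mem_top _) (Subgroup.mem_top _)
      simpa [Subgroup.lowerCentralSeries] using this
    exact Subgroup.commutator_mem_commutator h1 (Subgroup.mem_top _)
  have hcl : Cl2 (P ⧸ N) := by
    intro a b c
    obtain ⟨a, rfl⟩ := QuotientGroup.mk_surjective a
    obtain ⟨b, rfl⟩ := QuotientGroup.mk_surjective b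
    obtain ⟨c, rfl⟩ := QuotientGroup.mk_surjective c
    have : (⁅⁅(a : P ⧸ N), (b : P ⧸ N)⁆, (c : P ⧸ N)⁆ : P ⧸ N) = ((⁅⁅a, b⁆, c⁆ : P) : P ⧸ N) := rfl
    rw [this, QuotientGroup.eq_one_iff]
    exact hN3 a b c
  have hna' : ∃ a b : P ⧸ N, a * b ≠ b * a := by
    by_contra hcon
    push Not at hcon
    have h1 : ∀ a b : P, ⁅a, b⁆ ∈ N := by
      intro a b
      rw [← QuotientGroup.eq_one_iff]
      have : ((⁅a, b⁆ : P) : P ⧸ N) = ⁅(a : P ⧸ N), (b : P ⧸ N)⁆ := rfl
      rw [this, commutatorElement_eq_one_iff_mul_comm]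
      exact hcon _ _
    have h2 : (⊤ : Subgroup P).lowerCentralSeries 1 ≤ (⊤ : Subgroup P).lowerCentralSeries 2 := by
      show ⁅(⊤ : Subgroup P), (⊤ : Subgroup P)⁆ ≤ _
      rw [Subgroup.commutator_le]
      intro a _ b _
      exact h1 a b
    have h3 : ∀ n, (⊤ : Subgroup P).lowerCentralSeries 1 ≤ (⊤ : Subgroup P).lowerCentralSeries (n + 1) := by
      intro n
      induction n with
      | zero => exact le_rfl
      | succ n ih =>
        refine h2.trans ?_
        exact Subgroup.commutator_mono ih le_rfl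
    obtain ⟨n, hn⟩ := Subgroup.nilpotent_iff_lowerCentralSeries.1 ‹Group.IsNilpotent P›
    have h4 : (⊤ : Subgroup P).lowerCentralSeries 1 = ⊥ := by
      rw [eq_bot_iff]
      refine (h3 n).trans ?_
      rw [← hn]
      exact (⊤ : Subgroup P).lowerCentralSeries_antitone (Nat.le_succ n)
    obtain ⟨a, b, hab⟩ := hna
    apply hab
    rw [← commutatorElement_eq_one_iff_mul_comm, ← Subgroup.mem_bot, ← h4]
    exact Subgroup.commutator_mem_commutator (Subgroup.mem_top _) (Subgroup.mem_top _)
  refine class2_case (P ⧸ N) (hP.to_quotient N) hcl hna' w ?_ H hH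
  intro x
  have h1 := lift_comp (QuotientGroup.mk' N) (fun i => (x i).out) w
  rw [hw, map_one] at h1
  rw [h1]
  congr 2
  funext i
  exact (QuotientGroup.out_eq' (x i)).symm

end Pool.Agent.Helper252_Enum
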