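import Pool.Agent.Helper252_Enum.Defs

set_option autoImplicit false

open scoped commutatorElement

namespace Pool.Agent.Helper252_Enum

/-
PROOF OF THE TARGET.
Let E = Fin e → ZMod p, V = Fin d → ZMod p, B = {(i,j) : Fin d × Fin d // i<j} → E; |B| = p^{e d(d-1)/2} (number of pairs i<j is d.choose 2 = d(d-1)/2). For b in B let β_b(v,v') = sum_{i<j} v_i v'_j b_ij (bilinear),
𝒢 b = a structure (copy of E × V, use a structure or type synonym depending on b) with (w,v)(w',v') = (w + w' + β_b(v,v'), v + v'), identity (0,0), inverse (-w + β_b(v,v), -v). Order p^{e+d}. ⁅(w,v),(w',v')⁆ =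
(β_b(v,v') - β_b(v',v), 0), central; elements (w,0) are central with (w,0)^p = 1. (w,v)^k = (k w + (k choose 2) β_b(v,v), k v): so for p odd the p-th power is 1 (p | p choose 2), for p = 2 the 4th power is 1 (4 choose 2 = 6 is
even). So Good p (𝒢 b).
Count: fix b₀ and G0 = 𝒢 b₀. To each b with 𝒢 b ≃* 𝒢 b₀ choose an isomorphism φ_b : 𝒢 b ≃* G0 and record the images of the d + e elements X_i = (0, e_i), W_k = (e_k, 0): an element of (Fin d ⊕ Fin e → G0), a set
with (p^{d+e})^{d+e} = p^{(d+e)^2} elements. This is injective in b: in 𝒢 b we have ⁅X_i, X_j⁆ = (b_ij, 0) = prod_k W_k^{b_ij(k)} for i<j (β_b(e_i,e_j) = b_ij, β_b(e_j,e_i) = 0), so φ_b(⁅X_i,X_j⁆) = prod_k φ_b(W_k)^{b_ij(k).val}; if b, b' give the same record then the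
elements φ_b((b_ij,0)) and φ_{b'}((b'_ij,0)) of G0 are equal; and E -> G0, c -> prod_k g_k^{c(k).val} with g_k = φ_b(W_k) is injective (it equals φ_b((c,0))), so b_ij = b'_ij.
-/


namespace J_good_family

/-- index pairs -/
abbrev PI2 (d : ℕ) : Type := {q : Fin d × Fin d // q.1 < q.2}

/-- the bilinear map -/
def bet {p d e : ℕ} (b : PI2 d → Fin e → ZMod p) (v v' : Fin d → ZMod p) : Fin e → ZMod p :=
  fun k => ∑ q : PI2 d, v q.1.1 * v' q.1.2 * b q k

/-- the group -/
@[ext] structure GG {p d e : ℕ} (b : PI2 d → Fin e → ZMod p) : Type where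
  w : Fin e → ZMod p
  v : Fin d → ZMod p

variable {p d e : ℕ}

theorem bet_add_left (b : PI2 d → Fin e → ZMod p) (u v w : Fin d → ZMod p) :
    bet b (u + v) w = bet b u w + bet b v w := by
  funext k
  simp only [bet, Pi.add_apply, ← Finset.sum_add_distrib]
  exact Finset.sum_congr rfl fun q _ => by ring

theorem bet_add_right (b : PI2 d → Fin e → ZMod p) (u v w : Fin d → ZMod p) :
    bet b u (v + w) = bet b u v + bet b u w := by
  funext k
  simp only [bet, Pi.add_apply, ← Finset.sum_add_distrib]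
  exact Finset.sum_congr rfl fun q _ => by ring

theorem bet_zero_left (b : PI2 d → Fin e → ZMod p) (w : Fin d → ZMod p) : bet b 0 w = 0 := by
  funext k; simp [bet]

theorem bet_zero_right (b : PI2 d → Fin e → ZMod p) (w : Fin d → ZMod p) : bet b w 0 = 0 := by
  funext k; simp [bet]

theorem bet_neg_left (b : PI2 d → Fin e → ZMod p) (u w : Fin d → ZMod p) :
    bet b (-u) w = -bet b u w := by
  funext k; simp [bet, Finset.sum_neg_distrib]

theorem bet_neg_right (b : PI2 d → Fin e → ZMod p) (u w : Fin d → ZMod p) :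
    bet b u (-w) = -bet b u w := by
  funext k; simp [bet, Finset.sum_neg_distrib]

theorem bet_nsmul_left (b : PI2 d → Fin e → ZMod p) (n : ℕ) (u w : Fin d → ZMod p) :
    bet b (n • u) w = n • bet b u w := by
  induction n with
  | zero => simp [bet_zero_left]
  | succ n ih => rw [succ_nsmul, succ_nsmul, bet_add_left, ih]

instance (b : PI2 d → Fin e → ZMod p) : Mul (GG b) :=
  ⟨fun x y => ⟨x.w + y.w + bet b x.v y.v, x.v + y.v⟩⟩
instance (b : PI2 d → Fin e → ZMod p) : One (GG b) := ⟨⟨0, 0⟩⟩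
instance (b : PI2 d → Fin e → ZMod p) : Inv (GG b) :=
  ⟨fun x => ⟨-x.w + bet b x.v x.v, -x.v⟩⟩

@[simp] theorem mul_w (b : PI2 d → Fin e → ZMod p) (x y : GG b) :
    (x * y).w = x.w + y.w + bet b x.v y.v := rfl
@[simp] theorem mul_v (b : PI2 d → Fin e → ZMod p) (x y : GG b) : (x * y).v = x.v + y.v := rfl
@[simp] theorem one_w (b : PI2 d → Fin e → ZMod p) : (1 : GG b).w = 0 := rfl
@[simp] theorem one_v (b : PI2 d → Fin e → ZMod p) : (1 : GG b).v = 0 := rfl
@[simp] theorem inv_w (b : PI2 d → Fin e → ZMod p) (x : GG b) :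
    (x⁻¹).w = -x.w + bet b x.v x.v := rfl
@[simp] theorem inv_v (b : PI2 d → Fin e → ZMod p) (x : GG b) : (x⁻¹).v = -x.v := rfl

instance instGroup (b : PI2 d → Fin e → ZMod p) : Group (GG b) :=
  Group.ofLeftAxioms
    (fun x y z => by
      ext1
      · simp only [mul_w, mul_v, bet_add_left, bet_add_right]; abel
      · simp only [mul_v]; abel)
    (fun x => by
      ext1
      · simp [bet_zero_left]
      · simp)
    (fun x => by
      ext1
      · simp [bet_neg_left]
      · simp)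

theorem comm_eq (b : PI2 d → Fin e → ZMod p) (x y : GG b) :
    ⁅x, y⁆ = ⟨bet b x.v y.v - bet b y.v x.v, 0⟩ := by
  have h : (⟨bet b x.v y.v - bet b y.v x.v, 0⟩ : GG b) * (y * x) = x * y := by
    ext1
    · simp only [mul_w, mul_v, bet_zero_left]; abel
    · simp only [mul_v]; abel
  rw [commutatorElement_def]
  have h2 : x * y * x⁻¹ * y⁻¹ = (x * y) * (y * x)⁻¹ := by group
  rw [h2, ← h]
  group

theorem pow_eq (b : PI2 d → Fin e → ZMod p) (x : GG b) (n : ℕ) :
    x ^ n = ⟨n • x.w + (n.choose 2) • bet b x.v x.v, n • x.v⟩ := by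
  induction n with
  | zero => ext1 <;> simp
  | succ n ih =>
    rw [pow_succ, ih]
    ext1
    · have hc : (n + 1).choose 2 = n + n.choose 2 := by
        rw [Nat.choose_succ_succ' n 1, Nat.choose_one_right]
      simp only [mul_w, bet_nsmul_left]
      rw [hc, add_smul n (n.choose 2), succ_nsmul]
      abel
    · simp only [mul_v, succ_nsmul]

theorem psmul [Fact p.Prime] {ι : Type} (x : ι → ZMod p) : p • x = 0 := by
  funext i; simp

theorem good [Fact p.Prime] (b : PI2 d → Fin e → ZMod p) : Good p (GG b) := by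
  refine ⟨?_, ?_, ?_, ?_⟩
  · intro x y z
    rw [comm_eq b x y, comm_eq]
    simp only [bet_zero_left, bet_zero_right, sub_self]
    rfl
  · intro x y
    rw [comm_eq, pow_eq]
    simp only [bet_zero_left, smul_zero, add_zero, psmul]
    rfl
  · intro h2 x
    rw [pow_eq]
    have hp : p.Prime := Fact.out
    have h3 : 2 < p := lt_of_le_of_ne hp.two_le (Ne.symm h2)
    obtain ⟨c, hc⟩ := hp.dvd_choose_self (k := 2) two_ne_zero h3
    rw [hc, mul_smul, psmul, psmul, psmul, add_zero]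
    rfl
  · intro h2 x
    subst h2
    have h4 : (4 : ℕ) = 2 * 2 := rfl
    have h6 : (4 : ℕ).choose 2 = 2 * 3 := by decide
    rw [pow_eq, h6, h4, mul_smul, mul_smul, mul_smul, psmul, psmul, psmul, add_zero]
    rfl

/-- the underlying pairs -/
def eqv (b : PI2 d → Fin e → ZMod p) : GG b ≃ (Fin e → ZMod p) × (Fin d → ZMod p) where
  toFun x := (x.w, x.v)
  invFun x := ⟨x.1, x.2⟩
  left_inv _ := rfl
  right_inv _ := rfl

theorem card_GG [Fact p.Prime] (b : PI2 d → Fin e → ZMod p) : Nat.card (GG b) = p ^ (d + e) := by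
  rw [Nat.card_congr (eqv b), Nat.card_prod, Nat.card_fun, Nat.card_fun, Nat.card_zmod,
    Nat.card_fin, Nat.card_fin, ← pow_add, add_comm]

theorem finite_GG [Fact p.Prime] (b : PI2 d → Fin e → ZMod p) : Finite (GG b) :=
  Finite.of_equiv _ (eqv b).symm

theorem card_PI2 (d : ℕ) : Nat.card (PI2 d) = d * (d - 1) / 2 := by
  rw [Nat.card_eq_fintype_card, Fintype.card_subtype, Finset.card_filter, Fintype.sum_prod_type,
    Finset.sum_comm]
  have h : ∀ j : Fin d, (∑ i : Fin d, if i < j then 1 else 0) = (j : ℕ) := by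
    intro j
    rw [← Finset.card_filter]
    have : (Finset.univ.filter fun i : Fin d => i < j) = Finset.Iio j := by ext; simp
    rw [this, Fin.card_Iio]
  rw [Finset.sum_congr rfl fun j _ => h j, ← Finset.sum_range (fun i => i), Finset.sum_range_id]

theorem card_B [Fact p.Prime] : Nat.card (PI2 d → Fin e → ZMod p) = p ^ (e * (d * (d - 1) / 2)) := by
  rw [Nat.card_fun, Nat.card_fun, Nat.card_zmod, Nat.card_fin, card_PI2, ← pow_mul]

/-- the record of an isomorphism -/
def rec2 {G : Type} (b : PI2 d → Fin e → ZMod p) (φ : GG b → G) : Fin d ⊕ Fin e → G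
  | Sum.inl i => φ ⟨0, Pi.single i 1⟩
  | Sum.inr k => φ ⟨Pi.single k 1, 0⟩

theorem decomp [Fact p.Prime] (c : Fin e → ZMod p) :
    c = ∑ k, (c k).val • (Pi.single k 1 : Fin e → ZMod p) := by
  funext j
  rw [Finset.sum_apply, Finset.sum_eq_single j]
  · simp
  · intro k _ hk
    simp [Ne.symm hk]
  · simp

theorem center_eq [Fact p.Prime] {G : Type} [Group G] (b b' : PI2 d → Fin e → ZMod p)
    (φ : GG b ≃* G) (φ' : GG b' ≃* G) (h : rec2 b φ = rec2 b' φ') (c : Fin e → ZMod p) :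
    φ ⟨c, 0⟩ = φ' ⟨c, 0⟩ := by
  let S : AddSubmonoid (Fin e → ZMod p) :=
    { carrier := {c | φ ⟨c, 0⟩ = φ' ⟨c, 0⟩}
      add_mem' := by
        intro x y hx hy
        have h1 : (⟨x + y, 0⟩ : GG b) = ⟨x, 0⟩ * ⟨y, 0⟩ := by
          ext1 <;> simp [bet_zero_left]
        have h2 : (⟨x + y, 0⟩ : GG b') = ⟨x, 0⟩ * ⟨y, 0⟩ := by
          ext1 <;> simp [bet_zero_left]
        have hx' : φ ⟨x, 0⟩ = φ' ⟨x, 0⟩ := hx
        have hy' : φ ⟨y, 0⟩ = φ' ⟨y, 0⟩ := hy
        show φ ⟨x + y, 0⟩ = φ' ⟨x + y, 0⟩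
        rw [h1, h2, map_mul, map_mul, hx', hy']
      zero_mem' := by
        have h1 : (⟨0, 0⟩ : GG b) = 1 := rfl
        have h2 : (⟨0, 0⟩ : GG b') = 1 := rfl
        show φ ⟨0, 0⟩ = φ' ⟨0, 0⟩
        rw [h1, h2, map_one, map_one] }
  have hS : c ∈ S := by
    rw [decomp c]
    refine sum_mem fun k _ => nsmul_mem ?_ _
    have := congrFun h (Sum.inr k)
    exact this
  exact hS

theorem bet_single (b : PI2 d → Fin e → ZMod p) (i j : Fin d) :
    bet b (Pi.single i 1) (Pi.single j 1) = if h : i < j then b ⟨(i, j), h⟩ else 0 := by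
  funext k
  split_ifs with h
  · rw [bet, Finset.sum_eq_single (⟨(i, j), h⟩ : PI2 d)]
    · simp
    · rintro ⟨⟨a, c⟩, hq⟩ - hne
      by_cases h1 : a = i
      · by_cases h2 : c = j
        · exact absurd (by subst h1; subst h2; rfl) hne
        · simp [Pi.single_apply, h2]
      · simp [Pi.single_apply, h1]
    · simp
  · rw [bet, Finset.sum_eq_zero]
    · rfl
    · rintro ⟨⟨a, c⟩, hq⟩ -
      by_cases h1 : a = i
      · by_cases h2 : c = j
        · exact absurd (by subst h1; subst h2; exact hq) h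
        · simp [Pi.single_apply, h2]
      · simp [Pi.single_apply, h1]

theorem comm_X (b : PI2 d → Fin e → ZMod p) (q : PI2 d) :
    ⁅(GG.mk 0 (Pi.single q.1.1 1) : GG b), (GG.mk 0 (Pi.single q.1.2 1) : GG b)⁆ =
      GG.mk (b q) 0 := by
  rw [comm_eq]
  simp only [bet_single]
  rw [dif_pos q.2, dif_neg (not_lt.2 q.2.le), sub_zero]

theorem rec_inj [Fact p.Prime] {G : Type} [Group G] (b b' : PI2 d → Fin e → ZMod p)
    (φ : GG b ≃* G) (φ' : GG b' ≃* G) (h : rec2 b φ = rec2 b' φ') : b = b' := by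
  funext q
  have h1 : φ ⟨b q, 0⟩ = φ' ⟨b' q, 0⟩ := by
    rw [← comm_X b q, ← comm_X b' q, map_commutatorElement, map_commutatorElement]
    have e1 := congrFun h (Sum.inl q.1.1)
    have e2 := congrFun h (Sum.inl q.1.2)
    simp only [rec2] at e1 e2
    rw [e1, e2]
  rw [← center_eq b b' φ φ' h (b' q)] at h1
  have h2 := φ.injective h1
  exact congrArg GG.w h2

theorem count [Fact p.Prime] (b₀ : PI2 d → Fin e → ZMod p) :
    Nat.card {b : PI2 d → Fin e → ZMod p // Nonempty (GG b ≃* GG b₀)} ≤ p ^ ((d + e) ^ 2) := by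
  have := finite_GG b₀
  have h := Nat.card_le_card_of_injective
    (fun b : {b : PI2 d → Fin e → ZMod p // Nonempty (GG b ≃* GG b₀)} =>
      rec2 b.1 (Classical.choice b.2 : GG b.1 ≃* GG b₀)) (by
        intro b b' hb
        exact Subtype.ext (rec_inj b.1 b'.1 (Classical.choice b.2) (Classical.choice b'.2) hb))
  refine h.trans (le_of_eq ?_)
  rw [Nat.card_fun, card_GG, Nat.card_sum, Nat.card_fin, Nat.card_fin, ← pow_mul, sq]

end J_good_family

/-- TARGET -/
theorem good_family (p : ℕ) [Fact p.Prime] (d e : ℕ) :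
    ∃ (B : Type) (_ : Finite B) (𝒢 : B → Type) (_ : ∀ b, Group (𝒢 b)),
      Nat.card B = p ^ (e * (d * (d - 1) / 2)) ∧ (∀ b, Nat.card (𝒢 b) = p ^ (d + e)) ∧
      (∀ b, Good p (𝒢 b)) ∧
      ∀ b₀, Nat.card {b : B // Nonempty (𝒢 b ≃* 𝒢 b₀)} ≤ p ^ ((d + e) ^ 2) := by
  refine ⟨J_good_family.PI2 d → Fin e → ZMod p, inferInstance, fun b => J_good_family.GG b,
    fun b => J_good_family.instGroup b, J_good_family.card_B, fun b => J_good_family.card_GG b,
    fun b => J_good_family.good b, fun b₀ => J_good_family.count b₀⟩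

end Pool.Agent.Helper252_Enum

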