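import Pool.Agent.Helper252_Enum.W2_good_family

set_option autoImplicit false

open scoped commutatorElement

namespace Pool.Agent.Helper252_Enum

/-
PROOF OF THE TARGET.
Let e = m/3, d = m - m/3, so d + e = m, and take B, 𝒢 from good_family: |B| = p^{e (d (d-1)/2)}. By Cayley each 𝒢 b embeds in Equiv.Perm (𝒢 b), which is isomorphic to Perm (Fin (p^m)) (|𝒢 b| = p^{d+e} = p^m), so there is
H_b ≤ Perm (Fin (p^m)) with H_b ≃* 𝒢 b; H_b satisfies the laws L' because 𝒢 b is Good (transport of a law along an isomorphism: FreeGroup.lift (φ ∘ x) w = φ (FreeGroup.lift x w)), or directly because Good transports along isomorphisms.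
So b ↦ class of H_b is a map B → Quot. Its fibres: if the classes of H_b and H_b₀ are equal then H_b ≃* H_b₀ (the relation is an equivalence relation so Quot.exact / Quot.eq with EqvGen gives the relation), hence 𝒢 b ≃* 𝒢 b₀; so each
fibre has at most p^{(d+e)^2} = p^{m^2} elements. The set of subgroups of Perm (Fin (p^m)) is finite so Quot is finite, hence |B| <= p^{m^2} |Quot| (e.g. Finset.card_le_mul_card_image or Nat.card of sigma of fibres).
-/

namespace J_lower_final

theorem exists_perm_copy (n : ℕ) (G : Type) [Group G] [Finite G] (h : Nat.card G = n) :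
    ∃ H : Subgroup (Equiv.Perm (Fin n)), Nonempty (G ≃* H) := by
  let e : G ≃ Fin n := Finite.equivFinOfCardEq h
  let f : G →* Equiv.Perm (Fin n) :=
    (e.permCongrHom : Equiv.Perm G ≃* Equiv.Perm (Fin n)).toMonoidHom.comp (MulAction.toPermHom G G)
  have hf : Function.Injective f := by
    intro a b hab
    have h1 : MulAction.toPermHom G G a = MulAction.toPermHom G G b :=
      (e.permCongrHom : Equiv.Perm G ≃* Equiv.Perm (Fin n)).injective hab
    exact MulAction.toPerm_injective h1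
  exact ⟨f.range, ⟨MonoidHom.ofInjective hf⟩⟩

theorem law_transport (L' : Set (FreeGroup ℕ)) (G K : Type) [Group G] [Group K] (φ : G ≃* K)
    (hG : ∀ w ∈ L', ∀ x : ℕ → G, FreeGroup.lift x w = 1) :
    ∀ w ∈ L', ∀ x : ℕ → K, FreeGroup.lift x w = 1 := by
  intro w hw x
  have h1 := hG w hw (fun n => φ.symm (x n))
  have h2 : (φ : G →* K).comp (FreeGroup.lift (fun n => φ.symm (x n))) = FreeGroup.lift x := by
    ext n
    simp
  rw [← h2]
  simp [h1]

theorem card_le_of_fibres {B Q : Type} [Finite B] [Finite Q] (F : B → Q) (N : ℕ)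
    (h : ∀ b₀ : B, Nat.card {b : B // F b = F b₀} ≤ N) : Nat.card B ≤ N * Nat.card Q := by
  classical
  haveI := Fintype.ofFinite Q
  have h1 : Nat.card B = Nat.card (Σ q : Q, {b : B // F b = q}) :=
    Nat.card_congr (Equiv.sigmaFiberEquiv F).symm
  rw [h1, Nat.card_sigma]
  have h2 : ∀ q : Q, Nat.card {b : B // F b = q} ≤ N := by
    intro q
    by_cases hq : ∃ b₀, F b₀ = q
    · obtain ⟨b₀, rfl⟩ := hq
      exact h b₀
    · haveI : IsEmpty {b : B // F b = q} := ⟨fun b => hq ⟨b.1, b.2⟩⟩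
      simp
  calc ∑ q : Q, Nat.card {b : B // F b = q} ≤ ∑ _q : Q, N := Finset.sum_le_sum (fun q _ => h2 q)
    _ = N * Nat.card Q := by simp [mul_comm]

end J_lower_final

/-- TARGET -/
theorem lower_final (p : ℕ) [Fact p.Prime] (L' : Set (FreeGroup ℕ))
    (hL' : ∀ (H : Type) [Group H], Good p H → ∀ w ∈ L', ∀ x : ℕ → H, FreeGroup.lift x w = 1)
    (m : ℕ) :
    p ^ ((m / 3) * ((m - m / 3) * (m - m / 3 - 1) / 2)) ≤ p ^ (m ^ 2) *
      Nat.card (Quot (fun H K : {H : Subgroup (Equiv.Perm (Fin (p ^ m))) //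
              Nat.card H = p ^ m ∧ ∀ w ∈ L', ∀ x : ℕ → H, FreeGroup.lift x w = 1} =>
              Nonempty (H.1 ≃* K.1))) := by
  classical
  have hde : (m - m / 3) + m / 3 = m := by omega
  obtain ⟨B, hB, 𝒢, hG, hcB, hcG, hgood, hiso⟩ := good_family p (m - m / 3) (m / 3)
  rw [hde] at hcG hiso
  have hp : 0 < p := (Fact.out : p.Prime).pos
  have hfin : ∀ b, Finite (𝒢 b) := by
    intro b
    apply Nat.finite_of_card_ne_zero
    rw [hcG b]
    positivity
  have hex : ∀ b, ∃ H : Subgroup (Equiv.Perm (Fin (p ^ m))), Nonempty (𝒢 b ≃* H) := by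
    intro b
    haveI := hfin b
    exact J_lower_final.exists_perm_copy (p ^ m) (𝒢 b) (hcG b)
  choose H hH using hex
  have hcard : ∀ b, Nat.card (H b) = p ^ m := by
    intro b
    obtain ⟨φ⟩ := hH b
    rw [← Nat.card_congr φ.toEquiv, hcG b]
  have hlaw : ∀ b, ∀ w ∈ L', ∀ x : ℕ → H b, FreeGroup.lift x w = 1 := by
    intro b
    obtain ⟨φ⟩ := hH b
    exact J_lower_final.law_transport L' (𝒢 b) (H b) φ (hL' (𝒢 b) (hgood b))
  let F : B → Quot (fun H K : {H : Subgroup (Equiv.Perm (Fin (p ^ m))) //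
              Nat.card H = p ^ m ∧ ∀ w ∈ L', ∀ x : ℕ → H, FreeGroup.lift x w = 1} =>
              Nonempty (H.1 ≃* K.1)) := fun b => Quot.mk _ ⟨H b, hcard b, hlaw b⟩
  rw [← hcB]
  refine J_lower_final.card_le_of_fibres F (p ^ (m ^ 2)) ?_
  intro b₀
  refine le_trans ?_ (hiso b₀)
  refine Nat.card_le_card_of_injective (fun b => ⟨b.1, ?_⟩) ?_
  · have h1 := b.2
    have h2 := Quot.eqvGen_exact h1
    have heq : Equivalence (fun H K : {H : Subgroup (Equiv.Perm (Fin (p ^ m))) //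
              Nat.card H = p ^ m ∧ ∀ w ∈ L', ∀ x : ℕ → H, FreeGroup.lift x w = 1} =>
              Nonempty (H.1 ≃* K.1)) :=
      ⟨fun _ => ⟨MulEquiv.refl _⟩, fun ⟨f⟩ => ⟨f.symm⟩, fun ⟨f⟩ ⟨g⟩ => ⟨f.trans g⟩⟩
    have h3 := (heq.eqvGen_iff).1 h2
    obtain ⟨ψ⟩ := h3
    obtain ⟨φ⟩ := hH b.1
    obtain ⟨φ₀⟩ := hH b₀
    exact ⟨(φ.trans ψ).trans φ₀.symm⟩
  · intro a b hab
    simpa [Subtype.ext_iff] using hab

end Pool.Agent.Helper252_Enum
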