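import Pool.Agent.Helper252_Enum.P1_nongen
import Pool.Agent.Helper252_Enum.P4_exists_series
import Pool.Agent.Helper252_Enum.A1_propA1
import Pool.Agent.Helper252_Enum.A2_propA2
import Pool.Agent.Helper252_Enum.B_lemmaB
import Pool.Agent.Helper252_Enum.C_basis_choice
import Pool.Agent.Helper252_Enum.E_lemmaE
import Pool.Agent.Helper252_Enum.K_lemmaK
import Pool.Agent.Helper252_Enum.F_lemmaF

set_option autoImplicit false

open scoped commutatorElement

namespace Pool.Agent.Helper252_Enum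

namespace J_exists_deco

theorem mem_PC_comm {G : Type*} [Group G] {p : ℕ} {A B : Subgroup G} {a b : G} (ha : a ∈ A)
    (hb : b ∈ B) : ⁅a, b⁆ ∈ PC p A B :=
  Subgroup.subset_closure (Or.inl ⟨a, ha, b, hb, rfl⟩)

theorem mem_PC_pow {G : Type*} [Group G] {p : ℕ} {A B : Subgroup G} {a : G} (ha : a ∈ A) :
    a ^ p ∈ PC p A B :=
  Subgroup.subset_closure (Or.inr ⟨a, ha, rfl⟩)

theorem PC_le {G : Type*} [Group G] {p : ℕ} {A B C : Subgroup G}
    (h1 : ∀ a ∈ A, ∀ b ∈ B, ⁅a, b⁆ ∈ C) (h2 : ∀ a ∈ A, a ^ p ∈ C) : PC p A B ≤ C := by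
  unfold PC
  rw [Subgroup.closure_le]
  rintro x (⟨a, ha, b, hb, rfl⟩ | ⟨a, ha, rfl⟩)
  · exact h1 a ha b hb
  · exact h2 a ha

theorem PC_mono {G : Type*} [Group G] {p : ℕ} {A A' B B' : Subgroup G} (hA : A ≤ A')
    (hB : B ≤ B') : PC p A B ≤ PC p A' B' :=
  PC_le (fun _ ha _ hb => mem_PC_comm (hA ha) (hB hb)) (fun _ ha => mem_PC_pow (hA ha))

theorem closure_normal {G : Type*} [Group G] {s : Set G}
    (h : ∀ x ∈ s, ∀ g : G, g * x * g⁻¹ ∈ Subgroup.closure s) : (Subgroup.closure s).Normal := by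
  constructor
  intro n hn g
  induction hn using Subgroup.closure_induction with
  | mem x hx => exact h x hx g
  | one => simp
  | mul x y _ _ hx hy =>
    have e : g * (x * y) * g⁻¹ = (g * x * g⁻¹) * (g * y * g⁻¹) := by group
    rw [e]
    exact Subgroup.mul_mem _ hx hy
  | inv x _ hx =>
    have e : g * x⁻¹ * g⁻¹ = (g * x * g⁻¹)⁻¹ := by group
    rw [e]
    exact Subgroup.inv_mem _ hx

theorem PC_normal {G : Type*} [Group G] {p : ℕ} (A B : Subgroup G) [hA : A.Normal]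
    [hB : B.Normal] : (PC p A B).Normal := by
  apply closure_normal
  rintro x (⟨a, ha, b, hb, rfl⟩ | ⟨a, ha, rfl⟩) g
  · have e : g * ⁅a, b⁆ * g⁻¹ = ⁅g * a * g⁻¹, g * b * g⁻¹⁆ := by
      simp only [commutatorElement_def]
      group
    rw [e]
    exact mem_PC_comm (hA.conj_mem a ha g) (hB.conj_mem b hb g)
  · rw [← conj_pow]
    exact mem_PC_pow (hA.conj_mem a ha g)

theorem Sp_zero {G : Type*} [Group G] (f : ℕ → G) : Sp f 0 = ⊥ := by
  unfold Sp
  simp

theorem mem_Sp {G : Type*} [Group G] (f : ℕ → G) {i k : ℕ} (h : i < k) : f i ∈ Sp f k :=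
  Subgroup.subset_closure ⟨i, h, rfl⟩

theorem Sp_mono {G : Type*} [Group G] (f : ℕ → G) {i k : ℕ} (h : i ≤ k) : Sp f i ≤ Sp f k :=
  Subgroup.closure_mono (Set.image_mono (Set.Iio_subset_Iio h))

theorem Sp_normal {G : Type*} [Group G] {p r : ℕ} {f : ℕ → G} (hf : Chain p r f) {k : ℕ}
    (hk : k ≤ r) : (Sp f k).Normal := by
  apply closure_normal
  rintro _ ⟨i, hi, rfl⟩ g
  have hi' : i < k := hi
  have h1 := hf.central i (by omega) g
  have h2 : ⁅f i, g⁆ ∈ Sp f k := Sp_mono f hi'.le h1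
  have e : g * f i * g⁻¹ = (⁅f i, g⁆)⁻¹ * f i := by
    simp only [commutatorElement_def]
    group
  rw [e]
  exact Subgroup.mul_mem _ (Subgroup.inv_mem _ h2) (mem_Sp f hi')

theorem Sp_succ {G : Type*} [Group G] {p r : ℕ} {f : ℕ → G} (hf : Chain p r f) {k : ℕ}
    (hk : k < r) {d : G} (hd : d ∈ Sp f (k + 1)) : ∃ a : ℤ, ∃ d' ∈ Sp f k, d = f k ^ a * d' := by
  have h1 : Sp f (k + 1) ≤ Subgroup.zpowers (f k) ⊔ Sp f k := by
    show Subgroup.closure _ ≤ _
    rw [Subgroup.closure_le]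
    rintro _ ⟨i, hi, rfl⟩
    have hi' : i < k + 1 := hi
    rcases Nat.lt_succ_iff_lt_or_eq.1 hi' with h | h
    · exact Subgroup.mem_sup_right (mem_Sp f h)
    · rw [h]
      exact Subgroup.mem_sup_left (Subgroup.mem_zpowers _)
  have hN := Sp_normal hf hk.le
  have h2 := h1 hd
  rw [← SetLike.mem_coe, Subgroup.mul_normal] at h2
  obtain ⟨a, ha, d', hd', he⟩ := Set.mem_mul.1 h2
  obtain ⟨t, rfl⟩ := Subgroup.mem_zpowers_iff.1 ha
  exact ⟨t, d', hd', he.symm⟩

theorem K_le {G : Type*} [Group G] {p r : ℕ} {f : ℕ → G} (hf : Chain p r f) (K : Subgroup G)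
    (hK : K ≤ Sp f r) (Ks : Finset (Fin r)) (hK1 : ∀ k ∈ Ks, f k ∈ K)
    (hK2 : ∀ k : Fin r, ∀ d ∈ K, d ∈ Sp f (k + 1) → d ∉ Sp f k → k ∈ Ks) :
    K ≤ Subgroup.closure {y | ∃ k ∈ Ks, y = f k} := by
  have key : ∀ j, j ≤ r → K ⊓ Sp f j ≤ Subgroup.closure {y | ∃ k ∈ Ks, y = f k} := by
    intro j
    induction j with
    | zero =>
      intro _ d hd
      obtain ⟨_, h1⟩ := Subgroup.mem_inf.1 hd
      rw [Sp_zero, Subgroup.mem_bot] at h1
      rw [h1]
      exact Subgroup.one_mem _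
    | succ j ih =>
      intro hj d hd
      by_cases hdj : d ∈ Sp f j
      · exact ih (by omega) ⟨hd.1, hdj⟩
      · have hj1 : (⟨j, by omega⟩ : Fin r) ∈ Ks := hK2 ⟨j, by omega⟩ d hd.1 hd.2 hdj
        obtain ⟨a, d', hd', he⟩ := Sp_succ hf (by omega : j < r) hd.2
        have h1 : f j ∈ K := hK1 _ hj1
        have h2 : d' ∈ K := by
          have : d' = (f j ^ a)⁻¹ * d := by
            rw [he]
            group
          rw [this]
          exact K.mul_mem (K.inv_mem (K.zpow_mem h1 a)) hd.1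
        rw [he]
        refine Subgroup.mul_mem _ (Subgroup.zpow_mem _ ?_ a) (ih (by omega) ⟨h2, hd'⟩)
        exact Subgroup.subset_closure ⟨_, hj1, rfl⟩
  intro d hd
  exact key r le_rfl ⟨hd, hK hd⟩

theorem nf_zero {G : Type*} [Group G] (f : ℕ → G) (k : ℕ) : nf f (fun _ => 0) k = 1 := by
  induction k with
  | zero => rfl
  | succ k ih =>
    show f k ^ 0 * nf f (fun _ => 0) k = 1
    rw [ih, pow_zero, mul_one]

/-- decorations from common data -/
theorem mkDeco {p m r : ℕ} {G : Type} [Group G] (x : Fin m → G) (f : ℕ → G)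
    (ex : Fin m ⊕ Fin r → Fin r → ℕ → ℕ) (J : Fin m ⊕ Fin r → Finset (Fin r))
    (τ : Fin r → (Fin m ⊕ Fin r) × Option (Fin m ⊕ Fin r)) (K : Subgroup G) (Ks : Finset (Fin r))
    (Y Z S : Finset (Fin m)) (hS : Y ∪ Z = S) (s : Fin (r + 1))
    (cardG : Nat.card G = p ^ (m + r)) (chain : Chain p r f)
    (gen : Subgroup.closure (Set.range x) ⊔ Sp f r = ⊤)
    (hcomm : ∀ g h : G, ⁅g, h⁆ ∈ Sp f r) (hpow : ∀ g : G, g ^ p ∈ Sp f r)
    (d3 : ∀ k, k < r → ∀ i, ⁅f k, x i⁆ ∈ Sp f s)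
    (hK2 : ∀ k : Fin r, ∀ d ∈ K, d ∈ Sp f (k + 1) → d ∉ Sp f k → k ∈ Ks)
    (hKY : ∀ d ∈ Sp f r, (∀ i ∈ Y, Commute d (x i)) → d ∈ K)
    (JK : ∀ g, J g ⊆ Ks) (ex_lt : ∀ g l j, ex g l j < p)
    (ex_supp : ∀ g l j, ex g l j ≠ 0 → j < l ∧ ∃ h : j < r, (⟨j, h⟩ : Fin r) ∈ J g)
    (d5 : ∀ g, ∀ l ∈ Ks, l ∉ J g → Commute (f l * nf f (ex g l) l) (sym x f g))
    (d6 : Sp f r ≤ Subgroup.closure (x '' (Y : Set (Fin m)) ∪
        {y | ∃ k : Fin r, (k ∈ Ks ∨ (s : ℕ) ≤ k) ∧ y = f k}))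
    (d7_ok : ∀ k, k ∉ Ks → okSym S k (τ k).1 ∧ ∀ b, (τ k).2 = some b → okSym S k b)
    (d7 : ∀ k, k ∉ Ks → ∃ a : ℕ → ℕ, (∀ j, a j < p) ∧ a k = 1 ∧ (∀ j, j < (k : ℕ) → a j = 0) ∧
        cand p x f (τ k) = nf f a r) :
    Nonempty (Deco p m r ⟨Y, Z, Ks, s, J, τ⟩ G) := by
  have d4 : ∀ (k : Fin r) (d : G), d ∈ Sp f (k + 1) → d ∉ Sp f k →
      (∀ i ∈ Y, Commute d (x i)) → k ∈ Ks := by
    intro k d h1 h2 h3
    exact hK2 k d (hKY d (Sp_mono f (by have := k.2; omega) h1) h3) h1 h2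
  have d7' : ∀ k, k ∉ Ks → okSym (Y ∪ Z) k (τ k).1 ∧
      ∀ b, (τ k).2 = some b → okSym (Y ∪ Z) k b := by
    rw [hS]
    exact d7_ok
  exact ⟨⟨x, f, ex, cardG, chain, gen, fun i j => hcomm _ _, fun i => hpow _, d3, d4, JK, ex_lt,
    ex_supp, d5, d6, d7', d7⟩⟩

end J_exists_deco


namespace J_exists_deco

theorem part_I {p : ℕ} [Fact p.Prime] {m r : ℕ} {G : Type} [Group G] [Finite G]
    (hpG : IsPGroup p G) (F : Subgroup G) (hF : F = PC p ⊤ ⊤) [F.Normal]
    (hr : Nat.card F = p ^ r) (hm : Nat.card G = p ^ (m + r)) :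
    ∃ σ : Skel m r, Nonempty (Deco p m r σ G) ∧ σ.Y = Finset.univ ∧ σ.Z = ∅ ∧
        (σ.s : ℕ) = r ∧ ∀ g, σ.J g = ∅ := by
  classical
  have hcomm : ∀ g h : G, ⁅g, h⁆ ∈ F := fun g h => by
    rw [hF]
    exact mem_PC_comm (Subgroup.mem_top _) (Subgroup.mem_top _)
  have hpow : ∀ g : G, g ^ p ∈ F := fun g => by
    rw [hF]
    exact mem_PC_pow (Subgroup.mem_top _)
  obtain ⟨N, hN, _, hNr⟩ := exists_series hpG ⊥ F bot_le 0 r (by simp) hr
  obtain ⟨x, Y, -, hx, -, -⟩ := basis_choice F hcomm hpow m r hr hm 0 Fin.elim0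
    (fun i => i.elim0) ∅
  have hx' : Subgroup.closure (Set.range x) = ⊤ := by
    have := nongen hpG ⊤ (Subgroup.closure (Set.range x)) le_top (by rw [← hF, hx])
    exact top_le_iff.1 this
  set K : Subgroup G := F ⊓ Subgroup.center G with hKdef
  set Ks : Finset (Fin r) := Finset.univ.filter
    (fun k : Fin r => ∃ d ∈ K, d ∈ N (k + 1) ∧ d ∉ N k) with hKsdef
  have hKs : ∀ k : Fin r, k ∈ Ks ↔ ∃ d ∈ K, d ∈ N (k + 1) ∧ d ∉ N k := by
    intro k
    rw [hKsdef, Finset.mem_filter]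
    simp
  have hcl : Subgroup.closure (x '' ((Finset.univ : Finset (Fin m)) : Set (Fin m))) = ⊤ := by
    rw [Finset.coe_univ, Set.image_univ, hx']
  obtain ⟨f, τ, hch, hSp, hfK, hok, hcand⟩ := lemmaF m r N hN x hm (by rw [hNr]; exact hx)
    (by rw [hNr]; exact hcomm) (by rw [hNr]; exact hpow) Finset.univ K
    (by rw [hNr]; exact inf_le_left) (by rw [hcl]; exact le_top.trans le_sup_left) Ks hKs
  have hSpr : Sp f r = F := by rw [hSp r le_rfl, hNr]
  refine ⟨⟨Finset.univ, ∅, Ks, Fin.last r, fun _ => ∅, τ⟩,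
    mkDeco x f (fun _ _ _ => 0) (fun _ => ∅) τ K Ks Finset.univ ∅ Finset.univ (by simp)
      (Fin.last r) hm hch (by rw [hSpr]; exact hx) (by rw [hSpr]; exact hcomm)
      (by rw [hSpr]; exact hpow) ?_ ?_ ?_ (fun _ => Finset.empty_subset _)
      (fun _ _ _ => (Fact.out : p.Prime).pos) (fun _ _ _ h => absurd rfl h) ?_ ?_ hok hcand,
    rfl, rfl, Fin.val_last r, fun _ => rfl⟩
  · intro k _ i
    rw [Fin.val_last, hSpr]
    exact hcomm _ _
  · intro k d h1 h2 h3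
    rw [hKs]
    refine ⟨d, h1, ?_, ?_⟩
    · rwa [← hSp _ (by have := k.2; omega)]
    · rwa [← hSp _ k.2.le]
  · intro d h1 h2
    refine Subgroup.mem_inf.2 ⟨hSpr ▸ h1, ?_⟩
    have h3 : (⊤ : Subgroup G) ≤ Subgroup.centralizer {d} := by
      rw [← hx', Subgroup.closure_le]
      rintro _ ⟨i, rfl⟩
      rw [SetLike.mem_coe, Subgroup.mem_centralizer_singleton_iff]
      exact (h2 i (Finset.mem_univ i)).symm
    rw [Subgroup.mem_center_iff]
    intro g
    have h4 := h3 (Subgroup.mem_top g)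
    rw [Subgroup.mem_centralizer_singleton_iff] at h4
    exact h4
  · intro g l hl _
    rw [nf_zero, mul_one]
    have h1 := (Subgroup.mem_inf.1 (hfK l hl)).2
    rw [Subgroup.mem_center_iff] at h1
    exact (h1 _).symm
  · refine le_top.trans ?_
    rw [← hcl]
    exact Subgroup.closure_mono Set.subset_union_left

theorem card_lt {p : ℕ} [Fact p.Prime] {G : Type} [Group G] [Finite G] (hpG : IsPGroup p G)
    {A B : Subgroup G} (h : A ≤ B) {d : G} (hd : d ∈ B) (hd' : d ∉ A) :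
    p * Nat.card A ≤ Nat.card B := by
  obtain ⟨a, ha⟩ := IsPGroup.iff_card.1 (hpG.to_subgroup A)
  obtain ⟨b, hb⟩ := IsPGroup.iff_card.1 (hpG.to_subgroup B)
  have hlt : Nat.card A < Nat.card B := by
    refine lt_of_le_of_ne (Subgroup.card_le_of_le h) fun he => hd' ?_
    have := Subgroup.eq_of_le_of_card_ge h he.ge
    rw [this]
    exact hd
  rw [ha, hb] at hlt ⊢
  have hab : a < b := (Nat.pow_lt_pow_iff_right (Fact.out : p.Prime).one_lt).1 hlt
  rw [← pow_succ']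
  exact Nat.pow_le_pow_right (Fact.out : p.Prime).pos hab

theorem Series.le {G : Type*} [Group G] {p r : ℕ} {N : ℕ → Subgroup G} (hN : Series p r N)
    {i j : ℕ} (hij : i ≤ j) (hj : j ≤ r) : N i ≤ N j := by
  induction j with
  | zero =>
    obtain rfl : i = 0 := by omega
    exact le_rfl
  | succ j ih =>
    rcases Nat.lt_or_ge j i with h | h
    · obtain rfl : i = j + 1 := by omega
      exact le_rfl
    · exact (ih h (by omega)).trans (hN.mono j (by omega))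

theorem count_lower {p : ℕ} [Fact p.Prime] {G : Type} [Group G] [Finite G]
    (hpG : IsPGroup p G) {r s : ℕ} (hs : s ≤ r) (N : ℕ → Subgroup G) (hN : Series p r N)
    (K : Subgroup G) (hK : K ≤ N r) (Ks : Finset (Fin r))
    (hKs : ∀ k : Fin r, k ∈ Ks ↔ ∃ d ∈ K, d ∈ N (k + 1) ∧ d ∉ N k) :
    p ^ (s + (Ks.filter (fun k : Fin r => s ≤ (k : ℕ))).card) ≤
      Nat.card (N s ⊔ K : Subgroup G) := by
  classical
  have key : ∀ j, s ≤ j → j ≤ r →
      p ^ (s + (Ks.filter (fun k : Fin r => s ≤ (k : ℕ) ∧ (k : ℕ) < j)).card) ≤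
        Nat.card ((N s ⊔ K) ⊓ N j : Subgroup G) := by
    intro j hsj
    induction j, hsj using Nat.le_induction with
    | base =>
      intro _
      have e1 : Ks.filter (fun k : Fin r => s ≤ (k : ℕ) ∧ (k : ℕ) < s) = ∅ := by
        rw [Finset.filter_eq_empty_iff]
        intro k _
        omega
      rw [e1, Finset.card_empty, add_zero, ← hN.card s hs]
      exact Subgroup.card_le_of_le (le_inf le_sup_left le_rfl)
    | succ j hsj ih =>
      intro hj
      have hle : (N s ⊔ K) ⊓ N j ≤ (N s ⊔ K) ⊓ N (j + 1) :=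
        inf_le_inf_left _ (hN.mono j (by omega))
      by_cases hjK : (⟨j, by omega⟩ : Fin r) ∈ Ks
      · obtain ⟨d, hd, hd1, hd2⟩ := (hKs _).1 hjK
        have h1 := card_lt hpG hle (d := d) ⟨Subgroup.mem_sup_right hd, hd1⟩
          (fun h => hd2 h.2)
        have e1 : Ks.filter (fun k : Fin r => s ≤ (k : ℕ) ∧ (k : ℕ) < j + 1) =
            insert (⟨j, by omega⟩ : Fin r)
              (Ks.filter (fun k : Fin r => s ≤ (k : ℕ) ∧ (k : ℕ) < j)) := by
          ext k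
          rw [Finset.mem_filter, Finset.mem_insert, Finset.mem_filter]
          constructor
          · rintro ⟨h2, h3, h4⟩
            rcases Nat.lt_succ_iff_lt_or_eq.1 h4 with h5 | h5
            · exact Or.inr ⟨h2, h3, h5⟩
            · exact Or.inl (Fin.ext h5)
          · rintro (h2 | ⟨h2, h3, h4⟩)
            · rw [h2]
              exact ⟨hjK, hsj, Nat.lt_succ_self _⟩
            · exact ⟨h2, h3, by omega⟩
        rw [e1, Finset.card_insert_of_notMem (by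
          rw [Finset.mem_filter]
          rintro ⟨_, _, h⟩
          exact absurd h (lt_irrefl _)), ← add_assoc, pow_succ']
        exact (Nat.mul_le_mul_left p (ih (by omega))).trans h1
      · have e1 : Ks.filter (fun k : Fin r => s ≤ (k : ℕ) ∧ (k : ℕ) < j + 1) =
            Ks.filter (fun k : Fin r => s ≤ (k : ℕ) ∧ (k : ℕ) < j) := by
          ext k
          rw [Finset.mem_filter, Finset.mem_filter]
          constructor
          · rintro ⟨h2, h3, h4⟩
            rcases Nat.lt_succ_iff_lt_or_eq.1 h4 with h5 | h5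
            · exact ⟨h2, h3, h5⟩
            · exact absurd (by
                have : k = (⟨j, by omega⟩ : Fin r) := Fin.ext h5
                rw [← this]
                exact h2) hjK
          · rintro ⟨h2, h3, h4⟩
            exact ⟨h2, h3, by omega⟩
        rw [e1]
        exact (ih (by omega)).trans (Subgroup.card_le_of_le hle)
  have h1 := key r hs le_rfl
  have e1 : (N s ⊔ K) ⊓ N r = N s ⊔ K :=
    inf_eq_left.2 (sup_le (Series.le hN hs le_rfl) hK)
  have e2 : Ks.filter (fun k : Fin r => s ≤ (k : ℕ) ∧ (k : ℕ) < r) =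
      Ks.filter (fun k : Fin r => s ≤ (k : ℕ)) := by
    ext k
    rw [Finset.mem_filter, Finset.mem_filter]
    have := k.2
    tauto
  rwa [e1, e2] at h1

theorem card_ge {r s : ℕ} (hs : s ≤ r) :
    (Finset.univ.filter (fun k : Fin r => s ≤ (k : ℕ))).card = r - s := by
  rcases hs.lt_or_eq with h | h
  · have e : Finset.univ.filter (fun k : Fin r => s ≤ (k : ℕ)) = Finset.Ici (⟨s, h⟩ : Fin r) := by
      ext k
      rw [Finset.mem_filter, Finset.mem_Ici, Fin.le_def]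
      simp
    rw [e, Fin.card_Ici]
  · subst h
    rw [Finset.card_eq_zero.2, Nat.sub_self]
    rw [Finset.filter_eq_empty_iff]
    intro k _
    have := k.2
    omega

theorem count_Z {p : ℕ} [Fact p.Prime] {G : Type} [Group G] [Finite G]
    (hpG : IsPGroup p G) {r s z : ℕ} (hs : s ≤ r) (N : ℕ → Subgroup G) (hN : Series p r N)
    (K : Subgroup G) (hK : K ≤ N r) (Ks : Finset (Fin r))
    (hKs : ∀ k : Fin r, k ∈ Ks ↔ ∃ d ∈ K, d ∈ N (k + 1) ∧ d ∉ N k)
    (hz : p ^ z * Nat.card (N s ⊔ K : Subgroup G) ≤ p ^ r) :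
    z ≤ (Finset.univ.filter (fun k : Fin r => k ∉ Ks ∧ s ≤ (k : ℕ))).card := by
  classical
  have h1 := count_lower hpG hs N hN K hK Ks hKs
  have h2 : p ^ (z + (s + (Ks.filter (fun k : Fin r => s ≤ (k : ℕ))).card)) ≤ p ^ r := by
    rw [pow_add]
    exact (Nat.mul_le_mul_left _ h1).trans hz
  have h3 := (Nat.pow_le_pow_iff_right (Fact.out : p.Prime).one_lt).1 h2
  have h4 : (Ks.filter (fun k : Fin r => s ≤ (k : ℕ))).card +
      (Finset.univ.filter (fun k : Fin r => k ∉ Ks ∧ s ≤ (k : ℕ))).card = r - s := by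
    rw [← card_ge hs, ← Finset.card_union_of_disjoint]
    · congr 1
      ext k
      simp only [Finset.mem_union, Finset.mem_filter, Finset.mem_univ, true_and]
      tauto
    · rw [Finset.disjoint_left]
      intro k hk hk'
      rw [Finset.mem_filter] at hk hk'
      exact hk'.2.1 hk.1
  omega

end J_exists_deco

/-
PROOF OF THE TARGET.
Setup: F := PC p ⊤ ⊤, T := PC p F ⊤, both normal, T <= F; |F| = p^r, |T| = p^s, |G| = p^(m+r) with m := n - r; all commutators and p-th powers lie in F; ⁅F,G⁆ <= T, T contains the p-th powers of F.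
G is finite since Nat.card G = p^n ≠ 0; IsPGroup.of_card.
(I) exists_series (s := 0, A := ⊥, B := F) gives N. basis_choice with q = 0, U = ∅ gives x with closure(range x) ⊔ F = ⊤, hence closure(range x) = ⊤ by nongen. K := F ⊓ center G,
Ks := levels {k | ∃ d ∈ K, d ∈ N (k+1) ∧ d ∉ N k}. lemmaF with S = univ (hS: closure(range x) = ⊤). σ = (Y = univ, Z = ∅, K = Ks, s = r, J = ∅, τ), ex = 0. d3: ⁅f k, x i⁆ ∈ Sp f r. d4: d commutes with all x i, which generate G, so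
d is central, in N (k+1) \ N k (Sp f k = N k). d5: f l ∈ K central, nf f 0 l = 1. d6: the closure contains all x i, so is ⊤. d7_ok, d7 from lemmaF (Y ∪ Z = univ).
(B) propA1 gives U (t₁ = |U|), propA2 gives W (t₂ = |W|), lemmaB gives q, y with q κ <= r; basis_choice for U ∪ W gives x and Y with |Y| <= q + t₁ + t₂ =: y₀ (q <= r/κ). L := closure(x '' Y) ⊔ F contains U and W so PC p F L = T (propA2).
K := F ⊓ {g | g commutes with x i for all i ∈ Y}. By lemmaB (the y i are among the x j, j ∈ Y): |K| <= p^{2κ} |K ⊓ centralizer{g}| for all g. lemmaE gives Z with p^{|Z|} |T ⊔ K| <= |F| and F <= closure(x '' (Y ∪ Z)) ⊔ K.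
exists_series with A := T, B := F gives N with N s = T, N r = F. Ks := levels of K; ρ := r - |Ks|. lemmaF with S = Y ∪ Z gives f, τ. For each symbol g lemmaK (c = 2κ) gives J g and exponents ex g. σ = (Y, Z, Ks, s, J, τ).
d3: ⁅f k, x i⁆ ∈ ⁅F,G⁆ <= T = N s = Sp f s. d4: by definition of K. d6: let D := closure(x '' Y ∪ {f k | k ∈ Ks or s <= k}); K <= D (K is generated by the f k, k ∈ Ks: divide by powers level by level), and F = <f k : k >= s> T, so
L <= D ⊔ T, D <= L; T = PC p F L <= PC p L L, so nongen gives L <= D. Count: u := #{k ∉ Ks, s <= k}: |T ⊔ K| = p^{s + #{k ∈ Ks, s <= k}} (levels of T ⊔ K: at most s below s, and above s exactly the levels of K: if t k ∈ TK lies in N (j+1) \ N j with j >= s then so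
does the K-part, T <= N s <= N j); only |T ⊔ K| >= p^{s + #{k ∈ Ks, s<=k}} is needed: the chain (T ⊔ K) ⊓ N j for j = s..r increases at each j ∈ Ks. So |Z| <= r - s - #{k ∈ Ks, s<=k} = u.
(A) Same K, x, and Y' := Y ∪ Z, so |Y'| <= y₀ + u <= y₀ + ρ; Ks and J for K again, s := r, Z := ∅, any of the two series (use the same f, τ, J; okSym for Y' ∪ ∅). d4: commuting with x i for i ∈ Y' ⊇ Y implies d ∈ K. d6: F <= closure(x '' Y') ⊔ K and K <= closure of the f k, k ∈ Ks.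
d3 trivial. So (A) and (B) share all data except Y, Z, s. It may help to first prove a lemma making Deco from the common data.
-/

/-- TARGET -/
theorem exists_deco {p : ℕ} [Fact p.Prime] (κ n : ℕ) (hκ : 1 ≤ κ) (G : Type) [Group G]
    (hG : Nat.card G = p ^ n) :
    ∃ m r y₀ t₁ t₂ ρ : ℕ, m + r = n ∧ t₁ * (t₁ + 1) ≤ 4 * r ∧ t₂ * (t₂ + 1) ≤ 4 * r ∧
      y₀ ≤ r / κ + t₁ + t₂ ∧ ρ ≤ r ∧
      (∃ σ : Skel m r, Nonempty (Deco p m r σ G) ∧ σ.Y = Finset.univ ∧ σ.Z = ∅ ∧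
        (σ.s : ℕ) = r ∧ ∀ g, σ.J g = ∅) ∧
      (∃ σ : Skel m r, Nonempty (Deco p m r σ G) ∧ σ.Y.card ≤ y₀ + ρ ∧ σ.Z = ∅ ∧
        (σ.s : ℕ) = r ∧ σ.K.card + ρ = r ∧ ∀ g, (σ.J g).card ≤ 2 * κ) ∧
      (∃ σ : Skel m r, Nonempty (Deco p m r σ G) ∧ σ.Y.card ≤ y₀ ∧
        σ.Z.card ≤ (Finset.univ.filter (fun k : Fin r => k ∉ σ.K ∧ (σ.s : ℕ) ≤ k)).card ∧
        σ.K.card + ρ = r ∧ ∀ g, (σ.J g).card ≤ 2 * κ) := by
  classical
  have hp : p.Prime := Fact.out
  have hfin : Finite G := Nat.finite_of_card_ne_zero (by rw [hG]; exact (pow_pos hp.pos n).ne')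
  have hpG : IsPGroup p G := IsPGroup.of_card hG
  obtain ⟨F, hF⟩ : ∃ F, F = PC p (⊤ : Subgroup G) ⊤ := ⟨_, rfl⟩
  have hFn : F.Normal := by
    rw [hF]
    exact J_exists_deco.PC_normal _ _
  obtain ⟨T, hT⟩ : ∃ T, T = PC p F (⊤ : Subgroup G) := ⟨_, rfl⟩
  have hTn : T.Normal := by
    rw [hT]
    exact J_exists_deco.PC_normal _ _
  have hTF : T ≤ F := by
    rw [hT]
    conv_rhs => rw [hF]
    exact J_exists_deco.PC_mono le_top le_rfl
  obtain ⟨r, hr⟩ := IsPGroup.iff_card.1 (hpG.to_subgroup F)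
  obtain ⟨s, hs⟩ := IsPGroup.iff_card.1 (hpG.to_subgroup T)
  have hrn : r ≤ n := by
    have h1 := Subgroup.card_le_card_group F
    rw [hr, hG] at h1
    exact (Nat.pow_le_pow_iff_right hp.one_lt).1 h1
  have hsr : s ≤ r := by
    have h1 := Subgroup.card_le_of_le hTF
    rw [hr, hs] at h1
    exact (Nat.pow_le_pow_iff_right hp.one_lt).1 h1
  obtain ⟨m, rfl⟩ : ∃ m, n = m + r := ⟨n - r, by omega⟩
  have hcomm : ∀ g h : G, ⁅g, h⁆ ∈ F := fun g h => by
    rw [hF]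
    exact J_exists_deco.mem_PC_comm (Subgroup.mem_top _) (Subgroup.mem_top _)
  have hpow : ∀ g : G, g ^ p ∈ F := fun g => by
    rw [hF]
    exact J_exists_deco.mem_PC_pow (Subgroup.mem_top _)
  have hI := J_exists_deco.part_I hpG F hF hr hG
  obtain ⟨U, hU1, hU⟩ := propA1 hpG F T hF hT r hr
  obtain ⟨W, hW1, hW⟩ := propA2 hpG F T hF hT r hr U hU
  obtain ⟨q, y, hq, hy, hB⟩ := lemmaB hpG F hF r κ hκ hr
  obtain ⟨x, Y, hYc, hx, hyx, hUW⟩ := basis_choice F hcomm hpow m r hr hG q y hy (U ∪ W)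
  have hTL : PC p F (Subgroup.closure (x '' (Y : Set (Fin m))) ⊔ F) = T :=
    hW _ le_sup_right (fun u hu => hUW u (Finset.mem_union_left _ hu))
      (fun u hu => hUW u (Finset.mem_union_right _ hu))
  obtain ⟨K, hKdef⟩ : ∃ K : Subgroup G,
    K = F ⊓ Subgroup.centralizer (x '' (Y : Set (Fin m))) := ⟨_, rfl⟩
  have hKF : K ≤ F := by
    rw [hKdef]
    exact inf_le_left
  have hKmem : ∀ d ∈ F, (∀ i ∈ Y, Commute d (x i)) → d ∈ K := by
    intro d h1 h2
    rw [hKdef]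
    refine Subgroup.mem_inf.2 ⟨h1, ?_⟩
    rw [Subgroup.mem_centralizer_iff]
    rintro _ ⟨i, hi, rfl⟩
    exact (h2 i hi).symm
  have hKcomm : ∀ d ∈ K, ∀ i ∈ Y, Commute d (x i) := by
    intro d hd i hi
    rw [hKdef] at hd
    have h1 := Subgroup.mem_centralizer_iff.1 (Subgroup.mem_inf.1 hd).2 (x i) ⟨i, hi, rfl⟩
    exact h1.symm
  have hBK : ∀ g : G,
      Nat.card K ≤ p ^ (2 * κ) * Nat.card (K ⊓ Subgroup.centralizer {g} : Subgroup G) := by
    refine hB K hKF fun d hd i => ?_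
    obtain ⟨j, hj, hj'⟩ := hyx i
    rw [← hj']
    exact hKcomm d hd j hj
  obtain ⟨Z, hZ1, hZ2⟩ := lemmaE hpG F T hF hT m x hx Y U hU
    (fun u hu => hUW u (Finset.mem_union_left _ hu)) hTL K hKF
  obtain ⟨N, hN, hNs, hNr⟩ := exists_series hpG T F hTF s r hs hr
  obtain ⟨Ks, hKsdef⟩ : ∃ Ks : Finset (Fin r), Ks = Finset.univ.filter
    (fun k : Fin r => ∃ d ∈ K, d ∈ N (k + 1) ∧ d ∉ N k) := ⟨_, rfl⟩
  have hKs : ∀ k : Fin r, k ∈ Ks ↔ ∃ d ∈ K, d ∈ N (k + 1) ∧ d ∉ N k := by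
    intro k
    rw [hKsdef, Finset.mem_filter]
    simp
  obtain ⟨f, τ, hch, hSp, hfK, hok, hcand⟩ := lemmaF m r N hN x hG (by rw [hNr]; exact hx)
    (by rw [hNr]; exact hcomm) (by rw [hNr]; exact hpow) (Y ∪ Z) K
    (by rw [hNr]; exact hKF) (by rw [hNr]; exact hZ2) Ks hKs
  have hSpr : Sp f r = F := by rw [hSp r le_rfl, hNr]
  have hK2 : ∀ k : Fin r, ∀ d ∈ K, d ∈ Sp f (k + 1) → d ∉ Sp f k → k ∈ Ks := by
    intro k d h1 h2 h3
    rw [hKs]
    refine ⟨d, h1, ?_, ?_⟩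
    · rwa [← hSp _ (by have := k.2; omega)]
    · rwa [← hSp _ k.2.le]
  have hKle := J_exists_deco.K_le hch K (by rw [hSpr]; exact hKF) Ks hfK hK2
  have hJ := fun g : Fin m ⊕ Fin r => lemmaK r f hch K (by rw [hSpr]; exact hKF) Ks hfK hK2
    (sym x f g) (2 * κ) (hBK _)
  choose J ex hJK hJc hexlt hexsupp hexc using hJ
  have hZu : Z.card ≤
      (Finset.univ.filter (fun k : Fin r => k ∉ Ks ∧ s ≤ (k : ℕ))).card := by
    refine J_exists_deco.count_Z hpG hsr N hN K (by rw [hNr]; exact hKF) Ks hKs ?_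
    rw [hNs, ← hr]
    exact hZ1
  have hKc : Ks.card ≤ r := by
    have := Finset.card_le_univ Ks
    rwa [Fintype.card_fin] at this
  have huρ : (Finset.univ.filter (fun k : Fin r => k ∉ Ks ∧ s ≤ (k : ℕ))).card ≤ r - Ks.card := by
    have h1 : Finset.univ.filter (fun k : Fin r => k ∉ Ks ∧ s ≤ (k : ℕ)) ⊆ Ksᶜ := by
      intro k hk
      rw [Finset.mem_compl]
      exact (Finset.mem_filter.1 hk).2.1
    have h2 := Finset.card_le_card h1
    rwa [Finset.card_compl, Fintype.card_fin] at h2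
  have hY0 : Y.card ≤ q + U.card + W.card := by
    have := Finset.card_union_le U W
    omega
  have hFr : Sp f r ≤ Subgroup.closure (x '' (((Y ∪ Z : Finset (Fin m)) : Set (Fin m))) ∪
      {y | ∃ k : Fin r, (k ∈ Ks ∨ ((Fin.last r : Fin (r + 1)) : ℕ) ≤ k) ∧ y = f k}) := by
    rw [hSpr]
    refine hZ2.trans (sup_le (Subgroup.closure_mono Set.subset_union_left) ?_)
    refine hKle.trans (Subgroup.closure_mono ?_)
    rintro _ ⟨k, hk, rfl⟩
    exact Or.inr ⟨k, Or.inl hk, rfl⟩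
  have hFs : Sp f r ≤ Subgroup.closure (x '' (Y : Set (Fin m)) ∪
      {y | ∃ k : Fin r, (k ∈ Ks ∨ (((⟨s, Nat.lt_succ_of_le hsr⟩ : Fin (r + 1))) : ℕ) ≤ k) ∧
        y = f k}) := by
    obtain ⟨D, hD⟩ : ∃ D : Subgroup G, D = Subgroup.closure (x '' (Y : Set (Fin m)) ∪
      {y | ∃ k : Fin r, (k ∈ Ks ∨ (((⟨s, Nat.lt_succ_of_le hsr⟩ : Fin (r + 1))) : ℕ) ≤ k) ∧
        y = f k}) := ⟨_, rfl⟩
    rw [← hD]
    have hYD : Subgroup.closure (x '' (Y : Set (Fin m))) ≤ D := by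
      rw [hD]
      exact Subgroup.closure_mono Set.subset_union_left
    have hDL : D ≤ Subgroup.closure (x '' (Y : Set (Fin m))) ⊔ F := by
      rw [hD, Subgroup.closure_le]
      rintro z (hz | ⟨k, _, rfl⟩)
      · exact Subgroup.mem_sup_left (Subgroup.subset_closure hz)
      · refine Subgroup.mem_sup_right ?_
        rw [← hSpr]
        exact J_exists_deco.mem_Sp f k.2
    have hFD : F ≤ D ⊔ T := by
      rw [← hSpr]
      show Subgroup.closure _ ≤ _
      rw [Subgroup.closure_le]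
      rintro _ ⟨k, hk, rfl⟩
      have hk' : k < r := hk
      rcases Nat.lt_or_ge k s with h1 | h1
      · refine Subgroup.mem_sup_right ?_
        rw [← hNs, ← hSp s hsr]
        exact J_exists_deco.mem_Sp f h1
      · refine Subgroup.mem_sup_left ?_
        rw [hD]
        exact Subgroup.subset_closure (Or.inr ⟨⟨k, hk'⟩, Or.inr h1, rfl⟩)
    have hLD := nongen hpG (Subgroup.closure (x '' (Y : Set (Fin m))) ⊔ F) D hDL (by
      refine sup_le (hYD.trans le_sup_left) (hFD.trans (sup_le_sup_left ?_ D))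
      rw [← hTL]
      exact J_exists_deco.PC_mono le_sup_right le_rfl)
    rw [hSpr]
    exact le_sup_right.trans hLD
  refine ⟨m, r, q + U.card + W.card, U.card, W.card, r - Ks.card, rfl, hU1, hW1, ?_,
    Nat.sub_le _ _, hI, ?_, ?_⟩
  · have : q ≤ r / κ := (Nat.le_div_iff_mul_le (by omega)).2 hq
    omega
  · refine ⟨⟨Y ∪ Z, ∅, Ks, Fin.last r, J, τ⟩,
      J_exists_deco.mkDeco x f ex J τ K Ks (Y ∪ Z) ∅ (Y ∪ Z) (by simp) (Fin.last r) hG hch
        (by rw [hSpr]; exact hx) (by rw [hSpr]; exact hcomm) (by rw [hSpr]; exact hpow) ?_ hK2 ?_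
        hJK hexlt hexsupp hexc hFr hok hcand, ?_, rfl, Fin.val_last r, ?_, hJc⟩
    · intro k _ i
      rw [Fin.val_last, hSpr]
      exact hcomm _ _
    · intro d h1 h2
      exact hKmem d (hSpr ▸ h1) fun i hi => h2 i (Finset.mem_union_left _ hi)
    · show (Y ∪ Z).card ≤ _
      have := Finset.card_union_le Y Z
      omega
    · show Ks.card + (r - Ks.card) = r
      omega
  · refine ⟨⟨Y, Z, Ks, ⟨s, Nat.lt_succ_of_le hsr⟩, J, τ⟩,
      J_exists_deco.mkDeco x f ex J τ K Ks Y Z (Y ∪ Z) rfl ⟨s, Nat.lt_succ_of_le hsr⟩ hG hch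
        (by rw [hSpr]; exact hx) (by rw [hSpr]; exact hcomm) (by rw [hSpr]; exact hpow) ?_ hK2 ?_
        hJK hexlt hexsupp hexc hFs hok hcand, hY0, hZu, ?_, hJc⟩
    · intro k hk i
      show ⁅f k, x i⁆ ∈ Sp f s
      rw [hSp s hsr, hNs, hT]
      refine J_exists_deco.mem_PC_comm ?_ (Subgroup.mem_top _)
      rw [← hSpr]
      exact J_exists_deco.mem_Sp f hk
    · intro d h1 h2
      exact hKmem d (hSpr ▸ h1) h2
    · show Ks.card + (r - Ks.card) = r
      omega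

end Pool.Agent.Helper252_Enum
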