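import Pool.Agent.Helper252_Enum.V2_two

set_option autoImplicit false

open scoped commutatorElement

namespace Pool.Agent.Helper252_Enum

theorem aut_comm {p m : ℕ} [Fact p.Prime] (G : Type) [Group G] (hT : TT p G = ⊥)
    (v : G → Vp p m) (hv : IsCrd p m G v) (hS : SmallIm p m 1 G) :
    ∀ φ ψ : MulAut G, φ * ψ = ψ * φ := by
  have hcen : ∀ f ∈ FrP p G, ∀ g : G, ⁅f, g⁆ = 1 := by
    intro f hf g
    have : ⁅f, g⁆ ∈ TT p G :=
      Subgroup.subset_closure (Or.inl ⟨f, hf, g, Subgroup.mem_top g, rfl⟩)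
    rw [hT] at this
    exact Subgroup.mem_bot.mp this
  have hpow : ∀ f ∈ FrP p G, f ^ p = 1 := by
    intro f hf
    have : f ^ p ∈ TT p G := Subgroup.subset_closure (Or.inr ⟨f, hf, rfl⟩)
    rw [hT] at this
    exact Subgroup.mem_bot.mp this
  have hcomm : ∀ f ∈ FrP p G, ∀ g : G, f * g = g * f := by
    intro f hf g
    exact commutatorElement_eq_one_iff_mul_comm.mp (hcen f hf g)
  have hv1 : v 1 = 0 := (hv.ker 1).mpr (Subgroup.one_mem _)
  have hvinv : ∀ a, v a⁻¹ = - v a := by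
    intro a
    have := hv.map_mul a⁻¹ a
    rw [inv_mul_cancel, hv1] at this
    exact eq_neg_of_add_eq_zero_left this.symm
  have hdiff : ∀ φ : G ≃* G, ∀ a, ∃ f ∈ FrP p G, φ a = a * f := by
    intro φ a
    refine ⟨a⁻¹ * φ a, ?_, by group⟩
    rw [← hv.ker, hv.map_mul, hvinv, J_comm_of_integ.fix_v G v hv hS φ a]
    simp
  have hfix : ∀ φ : G ≃* G, ∀ f ∈ FrP p G, φ f = f := by
    intro φ f hf
    unfold FrP PC at hf
    induction hf using Subgroup.closure_induction with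
    | mem x hx =>
      rcases hx with ⟨a, -, b, -, rfl⟩ | ⟨a, -, rfl⟩
      · obtain ⟨f, hf, ha⟩ := hdiff φ a
        obtain ⟨g, hg, hb⟩ := hdiff φ b
        rw [map_commutatorElement, ha, hb, commutatorElement_def, commutatorElement_def]
        rw [mul_inv_rev, mul_inv_rev]
        have e1 : a * f * (b * g) = (a * b) * (f * g) := by
          rw [mul_assoc, ← mul_assoc f b g, hcomm f hf b]; group
        have hf' := Subgroup.inv_mem _ hf
        have hg' := Subgroup.inv_mem _ hg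
        rw [e1]
        have e2 : f⁻¹ * a⁻¹ * (g⁻¹ * b⁻¹) = (a⁻¹ * b⁻¹) * (f⁻¹ * g⁻¹) := by
          rw [hcomm _ hf' a⁻¹, hcomm _ hg' b⁻¹, mul_assoc, ← mul_assoc f⁻¹ b⁻¹ g⁻¹,
            hcomm _ hf' b⁻¹]
          group
        rw [mul_assoc (a * b * (f * g)), e2]
        have hfg := Subgroup.mul_mem _ hf hg
        rw [mul_assoc (a * b) (f * g), hcomm _ hfg, mul_assoc (a⁻¹ * b⁻¹)]
        have e3 : f⁻¹ * g⁻¹ * (f * g) = 1 := by
          rw [mul_assoc, ← mul_assoc g⁻¹, hcomm _ hg' f, mul_assoc f, inv_mul_cancel, mul_one,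
            inv_mul_cancel]
        rw [e3]
        group
      · obtain ⟨f, hf, ha⟩ := hdiff φ a
        rw [map_pow, ha]
        have hc : Commute a f := (hcomm f hf a).symm
        rw [hc.mul_pow, hpow f hf, mul_one]
    | one => rw [map_one]
    | mul x y _ _ hx hy => rw [map_mul, hx, hy]
    | inv x _ hx => rw [map_inv, hx]
  intro φ ψ
  apply MulEquiv.ext
  intro a
  obtain ⟨f, hf, ha⟩ := hdiff φ a
  obtain ⟨g, hg, hb⟩ := hdiff ψ a
  rw [MulAut.mul_apply, MulAut.mul_apply, ha, hb, map_mul, map_mul, hfix φ g hg, hfix ψ f hf, ha, hb,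
    mul_assoc, mul_assoc, hcomm f hf g]

/-- `G` is abelian or its automorphism group is not. -/
def NM (G : Type) [Group G] : Prop :=
  (∀ x y : G, x * y = y * x) ∨ ¬ ∀ φ ψ : MulAut G, φ * ψ = ψ * φ

theorem few_NM : ∃ n₀ : ℕ, ∀ (p : ℕ), p.Prime → ∀ n, n₀ ≤ n →
    ∀ (α : Type) (𝒢 : α → Type) [∀ a, Group (𝒢 a)], (∀ a, Nat.card (𝒢 a) = p ^ n) →
    (∀ a, NM (𝒢 a)) →
    (Nat.card (Quot fun a b => Nonempty (𝒢 a ≃* 𝒢 b)) : ℝ) ≤
      (5 * n + 6) * (p : ℝ) ^ (2 * n ^ 3 / 27 - 47 * n ^ 2 / 100) := by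
  obtain ⟨n₀, h₀⟩ := few_exceptional
  refine ⟨max n₀ 100, ?_⟩
  intro p hp n hn α 𝒢 _ hcard hI
  have : Fact p.Prime := ⟨hp⟩
  have hn0 : n₀ ≤ n := (le_max_left _ _).trans hn
  have hn1 : 100 ≤ n := (le_max_right _ _).trans hn
  have hq := quot_cover (p ^ n) (pow_pos hp.pos n) α 𝒢 hcard 2
    (fun i => if i = 0 then (4 * n + 5) * (p : ℝ) ^ (2 * n ^ 3 / 27 - 47 * n ^ 2 / 100)
      else (n + 1) * (p : ℝ) ^ (n ^ 2))
    (fun i a => if i = 0 then ¬ MainC p n (𝒢 a) else MainC p n (𝒢 a)) ?_ ?_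
  · refine hq.trans ?_
    rw [Finset.sum_range_succ, Finset.sum_range_one]
    simp only [if_true, one_ne_zero, if_false]
    have hp1 : (1 : ℝ) ≤ p := by exact_mod_cast hp.one_lt.le
    have h1 : (p : ℝ) ^ (n ^ 2) ≤ (p : ℝ) ^ (2 * n ^ 3 / 27 - 47 * n ^ 2 / 100) :=
      pow_le_pow_right₀ hp1 (J_few_integ.exponent_le hn1)
    have h2 : ((n : ℝ) + 1) * (p : ℝ) ^ (n ^ 2) ≤ ((n : ℝ) + 1) * (p : ℝ) ^ (2 * n ^ 3 / 27 - 47 * n ^ 2 / 100) :=
      mul_le_mul_of_nonneg_left h1 (by positivity)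
    calc _ ≤ (4 * (n : ℝ) + 5) * (p : ℝ) ^ (2 * n ^ 3 / 27 - 47 * n ^ 2 / 100) +
          ((n : ℝ) + 1) * (p : ℝ) ^ (2 * n ^ 3 / 27 - 47 * n ^ 2 / 100) := by linarith
      _ = _ := by ring
  · intro a
    by_cases h : MainC p n (𝒢 a)
    · exact ⟨1, by norm_num, by simpa using h⟩
    · exact ⟨0, by norm_num, by simpa using h⟩
  · intro i hi
    by_cases h0 : i = 0
    · subst h0
      simp only [if_true]
      exact h₀ p hp n hn0 {a : α // ¬ MainC p n (𝒢 a)} (fun a => 𝒢 a.1) (fun a => hcard a.1) (fun a => a.2)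
    · obtain rfl : i = 1 := by omega
      simp only [one_ne_zero, if_false]
      refine few_abelian p hp n {a : α // MainC p n (𝒢 a)} (fun a => 𝒢 a.1) (fun a => hcard a.1) ?_ ?_
      · rintro ⟨a, m, r, -, -, -, -, hT, -⟩
        exact hT
      · rintro ⟨a, m, r, hmr, -, -, hF, hT, hS⟩
        have hc : Nat.card {u : 𝒢 a → Vp p m // IsCrd p m (𝒢 a) u} = gl p m :=
          card_crd m r (𝒢 a) (by rw [hmr]; exact hcard a) hF
        have hpos : 0 < Nat.card {u : 𝒢 a → Vp p m // IsCrd p m (𝒢 a) u} := by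
          rw [hc]
          exact J_few_integ.gl_pos hp m
        obtain ⟨⟨v, hv⟩⟩ := (Nat.card_pos_iff.1 hpos).1
        rcases hI a with h | h
        · exact h
        · exact absurd (aut_comm (𝒢 a) hT v hv hS) h

/-- the number of classes of groups of order `N` which are abelian or have a nonabelian automorphism
group -/
noncomputable def gnuNM (N : ℕ) : ℕ :=
  Nat.card {c : Quot (isoRel N) // ∃ g : Group (Fin N), Quot.mk _ g = c ∧ @NM (Fin N) g}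

theorem gnuNM_le (p n : ℕ) (hp : p.Prime) :
    gnuNM (p ^ n) ≤ Nat.card (Quot fun a b : {g : Group (Fin (p ^ n)) // @NM (Fin (p ^ n)) g} =>
      isoRel (p ^ n) a.1 b.1) := by
  classical
  have hpos : 0 < p ^ n := pow_pos hp.pos n
  have hfin : Finite (Quot fun a b : {g : Group (Fin (p ^ n)) // @NM (Fin (p ^ n)) g} =>
      isoRel (p ^ n) a.1 b.1) :=
    @quot_finite (p ^ n) hpos {g : Group (Fin (p ^ n)) // @NM (Fin (p ^ n)) g}
      (fun _ => Fin (p ^ n)) (fun a => a.1) (fun _ => by simp)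
  unfold gnuNM
  refine Nat.card_le_card_of_injective
    (fun c => Quot.mk _ ⟨c.2.choose, c.2.choose_spec.2⟩) ?_
  intro c c' h
  have h2 := congrArg (Quot.lift (fun x : {g : Group (Fin (p ^ n)) // @NM (Fin (p ^ n)) g} =>
    Quot.mk (isoRel (p ^ n)) x.1) (fun a b hab => Quot.sound hab)) h
  have h3 : Quot.mk (isoRel (p ^ n)) c.2.choose = Quot.mk (isoRel (p ^ n)) c'.2.choose := h2
  rw [c.2.choose_spec.1, c'.2.choose_spec.1] at h3
  exact Subtype.ext h3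

theorem gnuNM_bound : ∃ n₀ : ℕ, ∀ (p : ℕ), p.Prime → ∀ n, n₀ ≤ n →
    (gnuNM (p ^ n) : ℝ) ≤
      (5 * n + 6) * (p : ℝ) ^ (2 * n ^ 3 / 27 - 47 * n ^ 2 / 100) := by
  obtain ⟨n₀, h⟩ := few_NM
  refine ⟨n₀, fun p hp n hn => ?_⟩
  have h1 := @h p hp n hn {g : Group (Fin (p ^ n)) // @NM (Fin (p ^ n)) g}
    (fun _ => Fin (p ^ n)) (fun a => a.1) (fun _ => by simp) (fun a => a.2)
  refine le_trans ?_ h1
  exact_mod_cast gnuNM_le p n hp

/-- Almost all groups of order `p ^ n` are nonabelian with abelian automorphism group. -/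
theorem nm_ratio : ∃ n₀ : ℕ, ∀ (p : ℕ), p.Prime → ∀ n, n₀ ≤ n →
    (gnuNM (p ^ n) : ℝ) * (p : ℝ) ^ (n ^ 2 / 100) ≤ (gnu (p ^ n) : ℝ) := by
  obtain ⟨n₁, h₁⟩ := gnuNM_bound
  obtain ⟨n₂, h₂⟩ := gnu_ge
  refine ⟨n₁ + n₂ + 10000, fun p hp n hn => ?_⟩
  have hp2 : (2 : ℝ) ≤ (p : ℝ) := by exact_mod_cast hp.two_le
  have hp1 : (1 : ℝ) ≤ (p : ℝ) := by linarith
  have hb := h₁ p hp n (by omega)
  have hg := h₂ p hp n (by omega)
  have hn4 : 10000 ≤ n := by omega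
  have h5 : ((5 * n + 6 : ℕ) : ℝ) ≤ (p : ℝ) ^ n := by
    calc ((5 * n + 6 : ℕ) : ℝ) ≤ ((2 ^ n : ℕ) : ℝ) := by exact_mod_cast lin_le n (by omega)
      _ = (2 : ℝ) ^ n := by push_cast; rfl
      _ ≤ (p : ℝ) ^ n := pow_le_pow_left₀ (by norm_num) hp2 n
  push_cast at h5
  have hexp : n + (2 * n ^ 3 / 27 - 47 * n ^ 2 / 100) + n ^ 2 / 100 ≤
      2 * n ^ 3 / 27 - 45 * n ^ 2 / 100 := by
    have e1 : 10000 * n ≤ n ^ 2 := by nlinarith
    have e2 : 10000 * n ^ 2 ≤ n ^ 3 := by nlinarith [sq_nonneg n]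
    generalize hA : n ^ 2 = A at *
    generalize hB : n ^ 3 = B at *
    omega
  calc (gnuNM (p ^ n) : ℝ) * (p : ℝ) ^ (n ^ 2 / 100)
      ≤ ((5 * n + 6) * (p : ℝ) ^ (2 * n ^ 3 / 27 - 47 * n ^ 2 / 100)) * (p : ℝ) ^ (n ^ 2 / 100) :=
        mul_le_mul_of_nonneg_right hb (by positivity)
    _ ≤ ((p : ℝ) ^ n * (p : ℝ) ^ (2 * n ^ 3 / 27 - 47 * n ^ 2 / 100)) * (p : ℝ) ^ (n ^ 2 / 100) := by
        gcongr
    _ = (p : ℝ) ^ (n + (2 * n ^ 3 / 27 - 47 * n ^ 2 / 100) + n ^ 2 / 100) := by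
        rw [pow_add, pow_add]
    _ ≤ (p : ℝ) ^ (2 * n ^ 3 / 27 - 45 * n ^ 2 / 100) := pow_le_pow_right₀ hp1 hexp
    _ ≤ (gnu (p ^ n) : ℝ) := hg

end Pool.Agent.Helper252_Enum
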