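import Pool.Agent.Helper252_Enum.V2_two

set_option autoImplicit false

namespace Pool.Agent.Helper252_Enum

/-- Every property which excludes the groups of the main class holds for few groups of order
`p ^ n`. -/
theorem ratio_general : ∃ n₀ : ℕ, ∀ (p : ℕ), p.Prime → ∀ n, n₀ ≤ n →
    ∀ P : Group (Fin (p ^ n)) → Prop, (∀ g, P g → ¬ @MainC p n (Fin (p ^ n)) g) →
    (Nat.card {c : Quot (isoRel (p ^ n)) // ∃ g : Group (Fin (p ^ n)), Quot.mk _ g = c ∧ P g} : ℝ) *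
      (p : ℝ) ^ (n ^ 2 / 100) ≤ (gnu (p ^ n) : ℝ) := by
  classical
  obtain ⟨n₁, h₁⟩ := few_exceptional
  obtain ⟨n₂, h₂⟩ := gnu_ge
  refine ⟨n₁ + n₂ + 10000, fun p hp n hn P hP => ?_⟩
  have hpos : 0 < p ^ n := pow_pos hp.pos n
  have hb : (Nat.card {c : Quot (isoRel (p ^ n)) // ∃ g : Group (Fin (p ^ n)), Quot.mk _ g = c ∧ P g} : ℝ) ≤
      (4 * n + 5) * (p : ℝ) ^ (2 * n ^ 3 / 27 - 47 * n ^ 2 / 100) := by
    have h3 := @h₁ p hp n (by omega) {g : Group (Fin (p ^ n)) // P g}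
      (fun _ => Fin (p ^ n)) (fun a => a.1) (fun _ => by simp) (fun a => hP a.1 a.2)
    refine le_trans ?_ h3
    have hfin : Finite (Quot fun a b : {g : Group (Fin (p ^ n)) // P g} =>
        isoRel (p ^ n) a.1 b.1) :=
      @quot_finite (p ^ n) hpos {g : Group (Fin (p ^ n)) // P g}
        (fun _ => Fin (p ^ n)) (fun a => a.1) (fun _ => by simp)
    have h4 : Nat.card {c : Quot (isoRel (p ^ n)) // ∃ g : Group (Fin (p ^ n)), Quot.mk _ g = c ∧ P g} ≤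
        Nat.card (Quot fun a b : {g : Group (Fin (p ^ n)) // P g} => isoRel (p ^ n) a.1 b.1) := by
      refine Nat.card_le_card_of_injective
        (fun c => Quot.mk _ ⟨c.2.choose, c.2.choose_spec.2⟩) ?_
      intro c c' h
      have h2 := congrArg (Quot.lift (fun x : {g : Group (Fin (p ^ n)) // P g} =>
        Quot.mk (isoRel (p ^ n)) x.1) (fun a b hab => Quot.sound hab)) h
      have h3 : Quot.mk (isoRel (p ^ n)) c.2.choose = Quot.mk (isoRel (p ^ n)) c'.2.choose := h2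
      rw [c.2.choose_spec.1, c'.2.choose_spec.1] at h3
      exact Subtype.ext h3
    exact_mod_cast h4
  have hp2 : (2 : ℝ) ≤ (p : ℝ) := by exact_mod_cast hp.two_le
  have hp1 : (1 : ℝ) ≤ (p : ℝ) := by linarith
  have hg := h₂ p hp n (by omega)
  have hn4 : 10000 ≤ n := by omega
  have h5 : ((5 * n + 6 : ℕ) : ℝ) ≤ (p : ℝ) ^ n := by
    calc ((5 * n + 6 : ℕ) : ℝ) ≤ ((2 ^ n : ℕ) : ℝ) := by exact_mod_cast lin_le n (by omega)
      _ = (2 : ℝ) ^ n := by push_cast; rfl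
      _ ≤ (p : ℝ) ^ n := pow_le_pow_left₀ (by norm_num) hp2 n
  push_cast at h5
  have h5' : (4 * (n : ℝ) + 5) ≤ (p : ℝ) ^ n := by
    have : (0 : ℝ) ≤ n := Nat.cast_nonneg _
    linarith
  have hexp : n + (2 * n ^ 3 / 27 - 47 * n ^ 2 / 100) + n ^ 2 / 100 ≤
      2 * n ^ 3 / 27 - 45 * n ^ 2 / 100 := by
    have e1 : 10000 * n ≤ n ^ 2 := by nlinarith
    have e2 : 10000 * n ^ 2 ≤ n ^ 3 := by nlinarith [sq_nonneg n]
    generalize hA : n ^ 2 = A at *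
    generalize hB : n ^ 3 = B at *
    omega
  calc _ ≤ ((4 * n + 5) * (p : ℝ) ^ (2 * n ^ 3 / 27 - 47 * n ^ 2 / 100)) * (p : ℝ) ^ (n ^ 2 / 100) :=
        mul_le_mul_of_nonneg_right hb (by positivity)
    _ ≤ ((p : ℝ) ^ n * (p : ℝ) ^ (2 * n ^ 3 / 27 - 47 * n ^ 2 / 100)) * (p : ℝ) ^ (n ^ 2 / 100) := by
        gcongr
    _ = (p : ℝ) ^ (n + (2 * n ^ 3 / 27 - 47 * n ^ 2 / 100) + n ^ 2 / 100) := by
        rw [pow_add, pow_add]
    _ ≤ (p : ℝ) ^ (2 * n ^ 3 / 27 - 45 * n ^ 2 / 100) := pow_le_pow_right₀ hp1 hexp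
    _ ≤ (gnu (p ^ n) : ℝ) := hg

/-- the groups of the main class have large elementary abelian quotients -/
theorem big_quot {p n : ℕ} (hp : p.Prime) (G : Type) [Group G] (hG : Nat.card G = p ^ n)
    (h : MainC p n G) : ∃ K : Subgroup G, K.Normal ∧ (∀ x y : G, x * y * x⁻¹ * y⁻¹ ∈ K) ∧
      (∀ x : G, x ^ p ∈ K) ∧ Nat.card G ^ 13 ≤ K.index ^ 20 := by
  have : Fact p.Prime := ⟨hp⟩
  obtain ⟨m, r, hmr, -, h2, hr, -, -⟩ := h
  refine ⟨FrP p G, J_card_crd.frp_normal p G, fun x y => ?_, fun x => ?_, ?_⟩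
  · exact Subgroup.subset_closure (Or.inl ⟨x, Subgroup.mem_top x, y, Subgroup.mem_top y, rfl⟩)
  · exact Subgroup.subset_closure (Or.inr ⟨x, Subgroup.mem_top x, rfl⟩)
  · have h3 := (FrP p G).card_mul_index
    rw [hr, hG, ← hmr, add_comm m r, pow_add] at h3
    have h4 : (FrP p G).index = p ^ m := Nat.eq_of_mul_eq_mul_left (pow_pos hp.pos r) h3
    rw [h4, hG, ← pow_mul, ← pow_mul]
    exact Nat.pow_le_pow_right hp.pos (by omega)

end Pool.Agent.Helper252_Enum
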